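import Pool.Agent.T6.H28.SN.Defs2

/-!
# The definitions of the final statement

The same definitions as in `Defs`, `Defs2`, cut into short pieces.
-/

set_option autoImplicit false

open scoped InnerProductSpace ComplexConjugate Topology
open Filter

namespace Pool.Agent.T6.H28.SN

/-- The data of a unitary representation `(H, π)` of `G = SL(2, ℝ)`, a set `S` of integers (the
weights), vectors `e m` and numbers `a m`. -/
structure RepData where
  H : Type
  [ng : NormedAddCommGroup H]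
  [ip : InnerProductSpace ℂ H]
  π : G →* (H ≃ₗᵢ[ℂ] H)
  S : Set ℤ
  e : ℤ → H
  a : ℤ → ℂ

attribute [instance] RepData.ng RepData.ip

namespace RepData

/-- The vector `π(g) x`. -/
def act (D : RepData) (g : G) (x : D.H) : D.H := D.π g x

/-- `(H, π)` is a unitary representation on a Hilbert space. -/
def IsUnitary (D : RepData) : Prop := CompleteSpace D.H ∧ ∀ x, Continuous fun g => D.act g x

/-- The `e m`, `m ∈ S`, are an orthonormal basis of `H`; `e m = 0` for `m ∉ S`. -/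
def IsBasis (D : RepData) : Prop :=
  (∀ m, m ∉ D.S → D.e m = 0) ∧ (∀ m ∈ D.S, ∀ n ∈ D.S, ⟪D.e m, D.e n⟫_ℂ = if m = n then 1 else 0) ∧
    ∀ x, (∀ m, ⟪D.e m, x⟫_ℂ = 0) → x = 0

/-- `e m` has weight `m` under `K = SO(2)`. -/
def HasWeights (D : RepData) : Prop :=
  ∀ (θ : ℝ) (m : ℤ), D.act (rot θ) (D.e m) = Complex.exp (Complex.I * (m * θ)) • D.e m

/-- The Lie algebra acts on the `e m` by the formulas `dAct`. -/
def HasLieAction (D : RepData) : Prop :=
  ∀ (γ : ℝ → G) (X : Matrix (Fin 2) (Fin 2) ℝ), IsOneParam γ X → ∀ m : ℤ,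
    HasDerivAt (fun t => D.act (γ t) (D.e m)) (dAct D.a D.e X m) 0

/-- The span `V` of the `e m` is irreducible, non-zero and non-trivial. -/
def IsIrred (D : RepData) : Prop :=
  (∀ m ∈ D.S, ‖D.a m‖ ^ 2 - ‖D.a (m - 2)‖ ^ 2 = m) ∧ (∀ m, D.a m ≠ 0 ↔ m ∈ D.S ∧ m + 2 ∈ D.S) ∧
    (∀ m ∈ D.S, ∀ n ∈ D.S, 2 ∣ n - m ∧ ∀ l, m ≤ l → l ≤ n → 2 ∣ l - m → l ∈ D.S) ∧
    D.S.Nonempty ∧ D.S ≠ {0}

/-- The vector `∑_{m ∈ A} c_m e_m`; these are the elements of `V`. -/
def vec (D : RepData) (A : Finset ℤ) (c : ℤ → ℂ) : D.H := ∑ m ∈ A, c m • D.e m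

/-- The space `V^∞` of smooth vectors: those with rapidly decreasing coefficients. -/
def Sm (D : RepData) : Set D.H :=
  {x | ∀ N : ℕ, Summable fun m : ℤ => (1 + (m : ℝ) ^ 2) ^ N * ‖⟪D.e m, x⟫_ℂ‖ ^ 2}

/-- The square of the Sobolev norm of order `N` of a smooth vector. -/
noncomputable def sob (D : RepData) (N : ℕ) (x : D.H) : ℝ :=
  ∑' m : ℤ, (1 + (m : ℝ) ^ 2) ^ N * ‖⟪D.e m, x⟫_ℂ‖ ^ 2

/-- `p ≤ C q_s` on `V` for some `C`, where `q_s` is the Sobolev norm of order `s` for `q`. -/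
def Dom (D : RepData) (s : ℝ) (p q : D.H → ℝ) : Prop :=
  ∃ C : ℝ, ∀ (A : Finset ℤ) (c : ℤ → ℂ),
    p (D.vec A c) ≤ C * q (D.vec A fun m => (((1 + (m : ℝ) ^ 2) ^ (s / 2) : ℝ) : ℂ) * c m)

/-- The directed distance `inf {s ≥ 0 : p ≲ q_s}`. -/
noncomputable def ddist (D : RepData) (p q : D.H → ℝ) : ℝ := sInf {s : ℝ | 0 ≤ s ∧ D.Dom s p q}

/-- The distance of the classes of `p` and `q`. -/
noncomputable def dist (D : RepData) (p q : D.H → ℝ) : ℝ := max (D.ddist p q) (D.ddist q p)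

/-- The norm `p_aut(v) = sup_g |η(g v)|`. -/
noncomputable def pAut (D : RepData) (η : D.H →ₗ[ℂ] ℂ) (x : D.H) : ℝ := ⨆ g : G, ‖η (D.act g x)‖

end RepData

/-- A non-trivial irreducible unitarizable Harish-Chandra module `V` of `SL(2, ℝ)`, given together
with the unitary representation `(H, π)` of which it is the space of `K`-finite vectors. `S` is the
set of the weights, `e m` (`m ∈ S`) a unit vector of weight `m`, `a m` the coefficients of the raising
operator. -/
structure HCModule extends RepData where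
  isUnitary : toRepData.IsUnitary
  isBasis : toRepData.IsBasis
  hasWeights : toRepData.HasWeights
  hasLieAction : toRepData.HasLieAction
  isIrred : toRepData.IsIrred

/-- The data of a representation `ρ` of `G` on a normed space `B` by bounded operators, with vectors
`b m`. -/
structure GlobData where
  B : Type
  [ng : NormedAddCommGroup B]
  [ns : NormedSpace ℂ B]
  ρ : G →* (B →L[ℂ] B)
  b : ℤ → B

attribute [instance] GlobData.ng GlobData.ns

namespace GlobData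

/-- The vector `ρ(g) x`. -/
def act (W : GlobData) (g : G) (x : W.B) : W.B := W.ρ g x

/-- `B` is a Banach space, the action is continuous and uniformly bounded. -/
def IsBddRep (W : GlobData) : Prop :=
  CompleteSpace W.B ∧ (∀ x, Continuous fun g => W.act g x) ∧ ∃ C : ℝ, ∀ g x, ‖W.act g x‖ ≤ C * ‖x‖

/-- `b m` has weight `m` under `K = SO(2)`, and the `b m` span a dense subspace. -/
def HasWeights (W : GlobData) : Prop :=
  (∀ (θ : ℝ) (m : ℤ), W.act (rot θ) (W.b m) = Complex.exp (Complex.I * (m * θ)) • W.b m) ∧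
    Dense (Submodule.span ℂ (Set.range W.b) : Set W.B)

/-- The Lie algebra acts on the `b m` by the formulas `dAct` for the numbers `a m`. -/
def HasLieAction (W : GlobData) (a : ℤ → ℂ) : Prop :=
  ∀ (γ : ℝ → G) (X : Matrix (Fin 2) (Fin 2) ℝ), IsOneParam γ X → ∀ m : ℤ,
    HasDerivAt (fun t => W.act (γ t) (W.b m)) (dAct a W.b X m) 0

/-- The norm of `∑_{m ∈ A} c_m b_m`. -/
def nrm (W : GlobData) (A : Finset ℤ) (c : ℤ → ℂ) : ℝ := ‖∑ m ∈ A, c m • W.b m‖

end GlobData

/-- `p` is an element of `Norm(V)`: there is a Banach space `B` with a continuous action of `G` by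
uniformly bounded operators and an injective homomorphism `V → B`, `e m ↦ b m`, of `(𝔤, K)`-modules
with dense image, such that `p` is the norm of `B` on `V`. -/
def InNorm (D : HCModule) (p : D.H → ℝ) : Prop :=
  ∃ W : GlobData, W.IsBddRep ∧ W.HasWeights ∧ W.HasLieAction D.a ∧ (∀ m, W.b m = 0 ↔ m ∉ D.S) ∧
    ∀ (A : Finset ℤ) (c : ℤ → ℂ), p (D.vec A c) = W.nrm A c

/-- `p` represents the maximal class of `Norm(V)`. -/
def IsMaximal (D : HCModule) (p : D.H → ℝ) : Prop := InNorm D p ∧ ∀ q, InNorm D q → D.Dom 0 q p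

/-- `Γ` is a cocompact lattice in `G`. -/
def IsCocompactLattice (Γ : Subgroup G) : Prop :=
  DiscreteTopology Γ ∧ ∃ F : Set G, IsCompact F ∧ ∀ g, ∃ γ ∈ Γ, ∃ f ∈ F, g = γ * f

/-- `η` is `Γ`-invariant on `V^∞`. -/
def IsInvariant (D : HCModule) (Γ : Subgroup G) (η : D.H →ₗ[ℂ] ℂ) : Prop :=
  ∀ γ ∈ Γ, ∀ x ∈ D.Sm, η (D.act γ x) = η x

/-- `η` is continuous and non-zero on `V^∞`. -/
def IsContNonzero (D : HCModule) (η : D.H →ₗ[ℂ] ℂ) : Prop :=
  (∃ (C : ℝ) (N : ℕ), ∀ x ∈ D.Sm, ‖η x‖ ≤ C * Real.sqrt (D.sob N x)) ∧ ∃ x ∈ D.Sm, η x ≠ 0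

end Pool.Agent.T6.H28.SN
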