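import Pool.Agent.T6.H28.SN.Asm2
import Pool.Agent.T6.H28.SN.Lit

/-!
# The final theorem
-/

set_option autoImplicit false

open scoped InnerProductSpace ComplexConjugate Topology
open Filter

namespace Pool.Agent.T6.H28.SN

namespace ModFIN3

/-- the module as a `Rep` -/
noncomputable def toRep (D : HCModule) : Rep where
  H := D.H
  ng := D.ng
  ip := D.ip
  cs := D.isUnitary.1
  π := D.π
  cont := D.isUnitary.2
  S := D.S
  e := D.e
  a := D.a
  e_out := D.isBasis.1
  orth := D.isBasis.2.1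
  total := D.isBasis.2.2
  rot_e := D.hasWeights
  diff := D.hasLieAction
  rel := D.isIrred.1
  a_ne := D.isIrred.2.1
  conn := D.isIrred.2.2.1
  nonempty := D.isIrred.2.2.2.1
  nontriv := D.isIrred.2.2.2.2

theorem inNorm_iff (D : HCModule) (p : D.H → ℝ) : InNorm D p ↔ IsGNormV (toRep D) p := by
  constructor
  · rintro ⟨W, ⟨hcs, hcont, C, hC⟩, ⟨hrot, hdense⟩, hlie, hzero, hp⟩
    refine ⟨{ B := W.B, ng := W.ng, ns := W.ns, cs := hcs, ρ := W.ρ, cont := hcont,
              bdd := ⟨max C 0, fun g => ?_⟩, b := W.b, b_zero := hzero, rot_b := hrot,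
              diff := hlie, dense := hdense }, hp⟩
    refine ContinuousLinearMap.opNorm_le_bound _ (le_max_right _ _) fun x => ?_
    exact (hC g x).trans (mul_le_mul_of_nonneg_right (le_max_left _ _) (norm_nonneg x))
  · rintro ⟨W, hp⟩
    obtain ⟨C, hC⟩ := W.bdd
    exact ⟨{ B := W.B, ng := W.ng, ns := W.ns, ρ := W.ρ, b := W.b },
      ⟨W.cs, W.cont, C, fun g x => ((W.ρ g).le_opNorm x).trans
        (mul_le_mul_of_nonneg_right (hC g) (norm_nonneg x))⟩, ⟨W.rot_b, W.dense⟩, W.diff,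
      W.b_zero, hp⟩

theorem isMaximal_iff (D : HCModule) (p : D.H → ℝ) : IsMaximal D p ↔ IsMaxV (toRep D) p := by
  unfold IsMaximal IsMaxV
  rw [inNorm_iff]
  refine and_congr Iff.rfl (forall_congr' fun q => ?_)
  rw [inNorm_iff]
  exact Iff.rfl

theorem final (D : HCModule) (Γ : Subgroup G) (η : D.H →ₗ[ℂ] ℂ) (hΓ : IsCocompactLattice Γ)
    (hinv : IsInvariant D Γ η) (hη : IsContNonzero D η) :
    InNorm D (D.pAut η) ∧ (∃ pm, IsMaximal D pm) ∧
      ∀ pm, IsMaximal D pm → D.dist (D.pAut η) pm = 1 / 2 := by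
  have hA : IsAutC (toRep D) Γ η :=
    { discrete := hΓ.1
      cocompact := hΓ.2
      inv := hinv
      cont := hη.1
      ne := hη.2 }
  obtain ⟨h1, ⟨pm, h2⟩, h3⟩ := ModASM.main2 (toRep D) Γ η hA
  refine ⟨(inNorm_iff D _).mpr h1, ⟨pm, (isMaximal_iff D pm).mpr h2⟩, fun q hq => ?_⟩
  exact h3 q ((isMaximal_iff D q).mp hq)

end ModFIN3

end Pool.Agent.T6.H28.SN
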