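import Pool.Agent.T6.H28.SN.Stm

/-!
# ALG: the matrix coefficients
-/

set_option autoImplicit false

open scoped InnerProductSpace ComplexConjugate Topology ENNReal
open Filter MeasureTheory

namespace Pool.Agent.T6.H28.SN

namespace ModALG

theorem dil_val (t : ℝ) : (dil t).1 = !![Real.exp t, 0; 0, Real.exp (-t)] := rfl

theorem rot_val (θ : ℝ) : (rot θ).1 = !![Real.cos θ, Real.sin θ; -Real.sin θ, Real.cos θ] := rfl

theorem dil_add (s t : ℝ) : dil (s + t) = dil s * dil t := by
  apply Subtype.ext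
  show (dil (s + t)).1 = (dil s).1 * (dil t).1
  rw [dil_val, dil_val, dil_val, Matrix.mul_fin_two]
  rw [Real.exp_add, neg_add, Real.exp_add]
  simp

theorem dil_zero : dil 0 = 1 := by
  apply Subtype.ext
  show (dil 0).1 = (1 : Matrix (Fin 2) (Fin 2) ℝ)
  rw [dil_val, neg_zero, Real.exp_zero, Matrix.one_fin_two]

theorem rot_add (s t : ℝ) : rot (s + t) = rot s * rot t := by
  apply Subtype.ext
  show (rot (s + t)).1 = (rot s).1 * (rot t).1
  rw [rot_val, rot_val, rot_val, Matrix.mul_fin_two, Real.cos_add, Real.sin_add]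
  congr 1
  ext i j
  fin_cases i <;> fin_cases j <;> simp <;> ring

theorem rot_zero : rot 0 = 1 := by
  apply Subtype.ext
  show (rot 0).1 = (1 : Matrix (Fin 2) (Fin 2) ℝ)
  rw [rot_val, Real.cos_zero, Real.sin_zero, neg_zero, Matrix.one_fin_two]

theorem dil_mul_neg (t : ℝ) : dil t * dil (-t) = 1 := by
  rw [← dil_add, add_neg_cancel, dil_zero]

theorem dil_neg_mul (t : ℝ) : dil (-t) * dil t = 1 := by
  rw [← dil_add, neg_add_cancel, dil_zero]

theorem rot_neg_mul (t : ℝ) : rot (-t) * rot t = 1 := by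
  rw [← rot_add, neg_add_cancel, rot_zero]

theorem dil_oneParam : IsOneParam dil !![1, 0; 0, -1] where
  add := dil_add
  deriv := by
    have h1 : HasDerivAt (fun t : ℝ => Real.exp t) 1 0 := by
      have := Real.hasDerivAt_exp 0
      rwa [Real.exp_zero] at this
    have h2 : HasDerivAt (fun t : ℝ => Real.exp (-t)) (-1) 0 := by
      have := (hasDerivAt_neg (0 : ℝ)).exp
      simpa using this
    intro i j
    fin_cases i <;> fin_cases j
    · exact h1
    · exact hasDerivAt_const 0 (0 : ℝ)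
    · exact hasDerivAt_const 0 (0 : ℝ)
    · exact h2

theorem conj_val (t θ : ℝ) : (dil t * rot θ * dil (-t)).1 =
    !![Real.cos θ, Real.exp (2 * t) * Real.sin θ; -Real.exp (-(2 * t)) * Real.sin θ, Real.cos θ] := by
  show (dil t).1 * (rot θ).1 * (dil (-t)).1 = _
  rw [dil_val, dil_val, rot_val, Matrix.mul_fin_two, Matrix.mul_fin_two]
  have h1 : Real.exp t * Real.exp (-t) = 1 := by rw [← Real.exp_add, add_neg_cancel, Real.exp_zero]
  have h2 : Real.exp (2 * t) = Real.exp t * Real.exp t := by rw [← Real.exp_add]; congr 1; ring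
  have h3 : Real.exp (-(2 * t)) = Real.exp (-t) * Real.exp (-t) := by
    rw [← Real.exp_add]; congr 1; ring
  rw [h2, h3, neg_neg]
  ext i j
  fin_cases i <;> fin_cases j
  · show (Real.exp t * Real.cos θ + 0 * -Real.sin θ) * Real.exp (-t) +
      (Real.exp t * Real.sin θ + 0 * Real.cos θ) * 0 = Real.cos θ
    linear_combination (Real.cos θ) * h1
  · show (Real.exp t * Real.cos θ + 0 * -Real.sin θ) * 0 +
      (Real.exp t * Real.sin θ + 0 * Real.cos θ) * Real.exp t = Real.exp t * Real.exp t * Real.sin θ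
    ring
  · show (0 * Real.cos θ + Real.exp (-t) * -Real.sin θ) * Real.exp (-t) +
      (0 * Real.sin θ + Real.exp (-t) * Real.cos θ) * 0 =
        -(Real.exp (-t) * Real.exp (-t)) * Real.sin θ
    ring
  · show (0 * Real.cos θ + Real.exp (-t) * -Real.sin θ) * 0 +
      (0 * Real.sin θ + Real.exp (-t) * Real.cos θ) * Real.exp t = Real.cos θ
    linear_combination (Real.cos θ) * h1

theorem conj_oneParam (t : ℝ) : IsOneParam (fun θ => dil t * rot θ * dil (-t))
    !![0, Real.exp (2 * t); -Real.exp (-(2 * t)), 0] where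
  add := by
    intro s u
    show dil t * rot (s + u) * dil (-t) = dil t * rot s * dil (-t) * (dil t * rot u * dil (-t))
    rw [rot_add]
    calc dil t * (rot s * rot u) * dil (-t) = dil t * rot s * 1 * rot u * dil (-t) := by
          rw [mul_one]; simp only [mul_assoc]
      _ = dil t * rot s * (dil (-t) * dil t) * rot u * dil (-t) := by rw [dil_neg_mul]
      _ = _ := by simp only [mul_assoc]
  deriv := by
    have hc : HasDerivAt (fun θ : ℝ => Real.cos θ) 0 0 := by
      have := Real.hasDerivAt_cos 0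
      rwa [Real.sin_zero, neg_zero] at this
    have hs : HasDerivAt (fun θ : ℝ => Real.sin θ) 1 0 := by
      have := Real.hasDerivAt_sin 0
      rwa [Real.cos_zero] at this
    intro i j
    have h1 : (fun θ => (dil t * rot θ * dil (-t)).1 i j) = (fun θ =>
      !![Real.cos θ, Real.exp (2 * t) * Real.sin θ;
        -Real.exp (-(2 * t)) * Real.sin θ, Real.cos θ] i j) := by
      funext θ
      rw [conj_val]
    show HasDerivAt (fun θ => (dil t * rot θ * dil (-t)).1 i j) _ 0
    rw [h1]
    fin_cases i <;> fin_cases j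
    · exact hc
    · have := hs.const_mul (Real.exp (2 * t))
      rw [mul_one] at this
      exact this
    · have := hs.const_mul (-Real.exp (-(2 * t)))
      rw [mul_one] at this
      exact this
    · exact hc

/-! ### The representation -/

theorem pi_mul (D : Rep) (g h : G) (x : D.H) : D.π (g * h) x = D.π g (D.π h x) := by
  rw [map_mul]
  rfl

theorem pi_one (D : Rep) (x : D.H) : D.π 1 x = x := by
  rw [map_one]
  rfl

theorem pi_inner (D : Rep) (g : G) (x y : D.H) : ⟪D.π g x, D.π g y⟫_ℂ = ⟪x, y⟫_ℂ :=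
  (D.π g).inner_map_map x y

/-- derivative along a one-parameter group at an arbitrary point -/
theorem deriv_at (D : Rep) (γ : ℝ → G) (X : Matrix (Fin 2) (Fin 2) ℝ) (hγ : IsOneParam γ X) (m : ℤ)
    (u : ℝ) : HasDerivAt (fun s => D.π (γ s) (D.e m)) (D.π (γ u) (dAct D.a D.e X m)) u := by
  have h0 := D.diff γ X hγ m
  have h1 : HasDerivAt (fun s : ℝ => s - u) 1 u := (hasDerivAt_id u).sub_const u
  have h2 : HasDerivAt (fun s : ℝ => D.π (γ (s - u)) (D.e m)) (dAct D.a D.e X m) u := by
    have h3 : HasDerivAt (fun t => D.π (γ t) (D.e m)) (dAct D.a D.e X m) (u - u) := by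
      rw [sub_self]; exact h0
    have h4 := HasDerivAt.scomp (h := fun s : ℝ => s - u) u h3 h1
    rw [one_smul] at h4
    exact h4
  let L : D.H →L[ℝ] D.H :=
    ((D.π (γ u)).toContinuousLinearEquiv : D.H →L[ℂ] D.H).restrictScalars ℝ
  have h5 : HasDerivAt (fun s : ℝ => L (D.π (γ (s - u)) (D.e m))) (L (dAct D.a D.e X m)) u :=
    L.hasFDerivAt.comp_hasDerivAt u h2
  have h6 : (fun s : ℝ => L (D.π (γ (s - u)) (D.e m))) = (fun s => D.π (γ s) (D.e m)) := by
    funext s
    show D.π (γ u) (D.π (γ (s - u)) (D.e m)) = D.π (γ s) (D.e m)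
    rw [← pi_mul, ← hγ.add]
    congr 3
    ring
  rw [h6] at h5
  exact h5

theorem mc_symm (D : Rep) (k m : ℤ) (t : ℝ) :
    mc D k m t = ⟪D.π (dil (-t)) (D.e m), D.e k⟫_ℂ := by
  unfold mc
  rw [← pi_inner D (dil (-t)) (D.e m) (D.π (dil t) (D.e k)), ← pi_mul, dil_neg_mul, pi_one]

theorem bessel (D : Rep) (x : D.H) (A : Finset ℤ) :
    ∑ m ∈ A, ‖⟪D.e m, x⟫_ℂ‖ ^ 2 ≤ ‖x‖ ^ 2 := by
  classical
  have horth : Orthonormal ℂ (fun m : {m // m ∈ D.S} => D.e m.1) := by
    rw [orthonormal_iff_ite]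
    intro i j
    rw [D.orth i.1 i.2 j.1 j.2]
    by_cases h : i = j
    · rw [if_pos h, if_pos (congrArg Subtype.val h)]
    · rw [if_neg h, if_neg (fun h' => h (Subtype.ext h'))]
  have h1 := horth.sum_inner_products_le x (s := A.subtype (· ∈ D.S))
  have h2 : ∑ m ∈ A, ‖⟪D.e m, x⟫_ℂ‖ ^ 2 =
      ∑ i ∈ A.subtype (· ∈ D.S), ‖⟪D.e i.1, x⟫_ℂ‖ ^ 2 := by
    rw [Finset.sum_subtype_eq_sum_filter (f := fun m => ‖⟪D.e m, x⟫_ℂ‖ ^ 2), Finset.sum_filter]
    refine Finset.sum_congr rfl fun m _ => ?_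
    split_ifs with h
    · rfl
    · rw [D.e_out m h, inner_zero_left, norm_zero]
      norm_num
  rw [h2]
  exact h1

theorem e_norm (D : Rep) (k : ℤ) (hk : k ∈ D.S) : ‖D.e k‖ = 1 := by
  have h1 := D.orth k hk k hk
  rw [if_pos rfl, inner_self_eq_norm_sq_to_K] at h1
  have h2 : ((‖D.e k‖ ^ 2 : ℝ) : ℂ) = 1 := by
    push_cast
    exact h1
  have h3 : ‖D.e k‖ ^ 2 = 1 := by exact_mod_cast h2
  have h4 := norm_nonneg (D.e k)
  nlinarith

end ModALG

open ModALG in
theorem alg : StmALG := by
  intro D k hk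
  refine ⟨?_, ?_, ?_, ?_, ?_⟩
  · intro m t hm
    unfold mc
    rw [D.e_out m hm, inner_zero_left]
  · intro A t
    have h1 := bessel D (D.π (dil t) (D.e k)) A
    rw [LinearIsometryEquiv.norm_map, e_norm D k hk] at h1
    simpa [mc] using h1
  · intro m
    unfold mc
    rw [dil_zero, pi_one]
    by_cases hm : m ∈ D.S
    · exact D.orth m hm k hk
    · rw [D.e_out m hm, inner_zero_left, if_neg]
      rintro rfl
      exact hm hk
  · intro m t
    have h1 := deriv_at D dil _ dil_oneParam m (-t)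
    have h2 : HasDerivAt (fun s : ℝ => D.π (dil (-s)) (D.e m))
        (-(D.π (dil (-t)) (dAct D.a D.e !![1, 0; 0, -1] m))) t := by
      have h3 := h1.scomp t (hasDerivAt_neg t)
      rw [neg_one_smul] at h3
      exact h3
    have h3 : dAct D.a D.e !![1, 0; 0, -1] m =
        D.a m • D.e (m + 2) - conj (D.a (m - 2)) • D.e (m - 2) := by
      unfold dAct
      simp
    have h4 := h2.inner ℂ (hasDerivAt_const t (D.e k))
    rw [inner_zero_right, zero_add, h3, map_sub, map_smul, map_smul, inner_neg_left, inner_sub_left,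
      inner_smul_left, inner_smul_left, ← mc_symm, ← mc_symm, Complex.conj_conj] at h4
    have h5 : (fun t => mc D k m t) = fun s : ℝ => ⟪D.π (dil (-s)) (D.e m), D.e k⟫_ℂ := by
      funext s
      exact mc_symm D k m s
    rw [h5]
    refine h4.congr_deriv ?_
    ring
  · intro m t
    set y := D.π (dil t) (D.e k) with hy
    have h1 := D.diff _ _ (conj_oneParam t) m
    have h2 := h1.inner ℂ (hasDerivAt_const 0 y)
    have h3 : ∀ θ : ℝ, ⟪D.π (dil t * rot θ * dil (-t)) (D.e m), y⟫_ℂ =
        Complex.exp (-(Complex.I * (k * θ))) * mc D k m t := by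
      intro θ
      have h4 : D.π (dil t * rot θ * dil (-t)) (D.π (dil t) (D.π (rot (-θ)) (D.e k))) = y := by
        rw [← pi_mul, ← pi_mul, hy]
        congr 2
        calc dil t * rot θ * dil (-t) * dil t * rot (-θ) =
            dil t * (rot θ * ((dil (-t) * dil t) * rot (-θ))) := by simp only [mul_assoc]
          _ = dil t * (rot θ * rot (-θ)) := by rw [dil_neg_mul, one_mul]
          _ = dil t := by rw [← rot_add, add_neg_cancel, rot_zero, mul_one]
      rw [← h4, pi_inner, D.rot_e, map_smul, inner_smul_right]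
      unfold mc
      congr 2
      push_cast
      ring
    have h4 : HasDerivAt (fun θ : ℝ => Complex.exp (-(Complex.I * (k * θ))) * mc D k m t)
        ((-(Complex.I * k)) * mc D k m t) 0 := by
      have h5 : HasDerivAt (fun θ : ℝ => -(Complex.I * ((k : ℂ) * (θ : ℂ)))) (-(Complex.I * ((k : ℂ) * 1))) 0 :=
        (((Complex.ofRealCLM.hasDerivAt (x := (0 : ℝ))).const_mul (k : ℂ)).const_mul Complex.I).neg
      have h6 := h5.cexp
      have h7 := h6.mul_const (mc D k m t)
      refine h7.congr_deriv ?_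
      simp
    have h5 : (fun θ : ℝ => ⟪D.π (dil t * rot θ * dil (-t)) (D.e m), y⟫_ℂ) =
        (fun θ : ℝ => Complex.exp (-(Complex.I * (k * θ))) * mc D k m t) := by
      funext θ
      exact h3 θ
    rw [h5] at h2
    have h6 := h2.unique h4
    rw [inner_zero_right, zero_add] at h6
    have h7 : dAct D.a D.e !![0, Real.exp (2 * t); -Real.exp (-(2 * t)), 0] m =
        ((Real.sinh (2 * t) : ℝ) : ℂ) • ((-Complex.I) •
          (D.a m • D.e (m + 2) + conj (D.a (m - 2)) • D.e (m - 2))) +
        ((Real.cosh (2 * t) : ℝ) : ℂ) • ((Complex.I * m) • D.e m) := by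
      unfold dAct
      have e1 : (!![0, Real.exp (2 * t); -Real.exp (-(2 * t)), 0] : Matrix (Fin 2) (Fin 2) ℝ) 0 0 = 0 := rfl
      have e2 : (!![0, Real.exp (2 * t); -Real.exp (-(2 * t)), 0] : Matrix (Fin 2) (Fin 2) ℝ) 0 1 =
        Real.exp (2 * t) := rfl
      have e3 : (!![0, Real.exp (2 * t); -Real.exp (-(2 * t)), 0] : Matrix (Fin 2) (Fin 2) ℝ) 1 0 =
        -Real.exp (-(2 * t)) := rfl
      rw [e1, e2, e3, Real.sinh_eq, Real.cosh_eq]
      rw [show Real.exp (2 * t) + -Real.exp (-(2 * t)) = Real.exp (2 * t) - Real.exp (-(2 * t)) by ring,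
        show Real.exp (2 * t) - -Real.exp (-(2 * t)) = Real.exp (2 * t) + Real.exp (-(2 * t)) by ring]
      simp
    rw [h7, inner_add_left, inner_smul_left, inner_smul_left, inner_add_left, inner_smul_left,
      inner_smul_left, inner_smul_left, inner_smul_left, Complex.conj_conj, Complex.conj_ofReal,
      Complex.conj_ofReal] at h6
    have h8 : ∀ j : ℤ, ⟪D.e j, y⟫_ℂ = mc D k j t := fun j => rfl
    rw [h8, h8, h8, map_neg, Complex.conj_I, map_mul, Complex.conj_I, map_intCast] at h6
    have hI : Complex.I * Complex.I = -1 := Complex.I_mul_I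
    linear_combination Complex.I * h6 +
      (-(k : ℂ) * mc D k m t + ((Real.cosh (2 * t) : ℝ) : ℂ) * (m * mc D k m t) -
        ((Real.sinh (2 * t) : ℝ) : ℂ) * (conj (D.a m) * mc D k (m + 2) t +
          D.a (m - 2) * mc D k (m - 2) t)) * hI

end Pool.Agent.T6.H28.SN
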