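import Pool.Agent.T6.H28.SN.Stm

/-!
# Averages over `K` (module AVGL)
-/

set_option autoImplicit false

open scoped InnerProductSpace ComplexConjugate Topology
open Filter

namespace Pool.Agent.T6.H28.SN

namespace ModAVGL

/-- The space `E` is invariant. -/
theorem E_inv (D : Rep) (g : G) {x : D.H} (hx : x ∈ D.E) : D.π g x ∈ D.E := by
  refine Submodule.span_induction (p := fun x _ => D.π g x ∈ D.E) ?_ ?_ ?_ ?_ hx
  · rintro x ⟨h, m, rfl⟩
    refine Submodule.subset_span ⟨g * h, m, ?_⟩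
    rw [map_mul]
    rfl
  · rw [map_zero]
    exact D.E.zero_mem
  · intro a b _ _ ha hb
    rw [map_add]
    exact D.E.add_mem ha hb
  · intro c a _ ha
    rw [map_smul]
    exact D.E.smul_mem _ ha

theorem e_mem (D : Rep) (m : ℤ) : D.e m ∈ D.E := by
  refine Submodule.subset_span ⟨1, m, ?_⟩
  rw [map_one]
  rfl

theorem p_zero {D : Rep} {C0 : ℝ} {p : D.H → ℝ} (hp : IsSem D C0 p) : p 0 = 0 := by
  have h := hp.smul 0 0 D.E.zero_mem
  rw [zero_smul, norm_zero, zero_mul] at h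
  exact h

theorem p_sum {D : Rep} {C0 : ℝ} {p : D.H → ℝ} (hp : IsSem D C0 p) {I : Type} (s : Finset I)
    (f : I → D.H) (hf : ∀ i ∈ s, f i ∈ D.E) : p (∑ i ∈ s, f i) ≤ ∑ i ∈ s, p (f i) := by
  classical
  induction s using Finset.induction_on with
  | empty => rw [Finset.sum_empty, Finset.sum_empty, p_zero hp]
  | insert a s ha ih =>
    rw [Finset.sum_insert ha, Finset.sum_insert ha]
    refine (hp.add _ (hf a (Finset.mem_insert_self _ _)) _
      (D.E.sum_mem fun i hi => hf i (Finset.mem_insert_of_mem hi))).trans ?_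
    have := ih fun i hi => hf i (Finset.mem_insert_of_mem hi)
    linarith

/-- Sums of roots of unity. -/
theorem gs (N : ℕ) (hN : 0 < N) (k : ℤ) (hk : ¬ (N : ℤ) ∣ k) :
    ∑ j ∈ Finset.range N, Complex.exp (-(Complex.I * (k * (2 * Real.pi * j / N)))) = 0 := by
  have hN' : (N : ℂ) ≠ 0 := by exact_mod_cast hN.ne'
  obtain ⟨z, hz⟩ : ∃ z, z = Complex.exp (-(Complex.I * (k * (2 * Real.pi / N)))) := ⟨_, rfl⟩
  have h1 : ∀ j : ℕ, Complex.exp (-(Complex.I * (k * (2 * Real.pi * j / N)))) = z ^ j := by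
    intro j
    rw [hz, ← Complex.exp_nat_mul]
    congr 1
    field_simp
  have h2 : z ^ N = 1 := by
    rw [← h1, Complex.exp_eq_one_iff]
    refine ⟨-k, ?_⟩
    push_cast
    field_simp
  have h3 : z ≠ 1 := by
    intro h
    rw [hz, Complex.exp_eq_one_iff] at h
    obtain ⟨n, hn⟩ := h
    apply hk
    refine ⟨-n, ?_⟩
    have h4 : (k : ℂ) = N * ((-n : ℤ) : ℂ) := by
      have hI : Complex.I ≠ 0 := Complex.I_ne_zero
      have hpi : (Real.pi : ℂ) ≠ 0 := by exact_mod_cast Real.pi_ne_zero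
      field_simp at hn
      push_cast
      linear_combination (-1 : ℂ) * hn
    exact_mod_cast h4
  rw [Finset.sum_congr rfl fun j _ => h1 j]
  have h4 := geom_sum_mul z N
  rw [h2, sub_self] at h4
  rcases mul_eq_zero.1 h4 with h | h
  · exact h
  · exact absurd (sub_eq_zero.1 h) h3

theorem gs' (N : ℕ) (hN : 0 < N) (A : Finset ℤ) (hA : ∀ m ∈ A, ∀ n ∈ A, |m - n| < N)
    (b : ℤ → ℂ) :
    ∑ j ∈ Finset.range N, ‖∑ m ∈ A, b m *
      Complex.exp (-(Complex.I * (m * (2 * Real.pi * j / N))))‖ ^ 2 = N * ∑ m ∈ A, ‖b m‖ ^ 2 := by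
  have h1 : ∀ j : ℕ, (((‖∑ m ∈ A, b m *
      Complex.exp (-(Complex.I * (m * (2 * Real.pi * j / N))))‖ ^ 2 : ℝ)) : ℂ) =
      ∑ m ∈ A, ∑ n ∈ A, (b m * conj (b n)) *
        Complex.exp (-(Complex.I * (((m - n : ℤ) : ℂ) * (2 * Real.pi * j / N)))) := by
    intro j
    push_cast
    rw [← Complex.mul_conj', map_sum, Finset.sum_mul_sum]
    refine Finset.sum_congr rfl fun m _ => Finset.sum_congr rfl fun n _ => ?_
    rw [map_mul, ← Complex.exp_conj]
    have h2 : conj (-(Complex.I * ((n : ℂ) * (2 * Real.pi * j / N)))) =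
        Complex.I * ((n : ℂ) * (2 * Real.pi * j / N)) := by
      rw [map_neg, map_mul, Complex.conj_I, map_mul, map_div₀, map_mul, map_mul,
        Complex.conj_natCast, Complex.conj_natCast, Complex.conj_ofReal, map_ofNat]
      have : conj (n : ℂ) = n := by
        have := Complex.conj_ofReal (n : ℝ)
        push_cast at this
        exact this
      rw [this]
      ring
    rw [h2]
    have h3 : Complex.exp (-(Complex.I * (((m : ℂ) - n) * (2 * Real.pi * j / N)))) =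
        Complex.exp (-(Complex.I * ((m : ℂ) * (2 * Real.pi * j / N)))) *
          Complex.exp (Complex.I * ((n : ℂ) * (2 * Real.pi * j / N))) := by
      rw [← Complex.exp_add]
      congr 1
      ring
    rw [h3]
    ring
  have h2 : ((∑ j ∈ Finset.range N, ‖∑ m ∈ A, b m *
      Complex.exp (-(Complex.I * (m * (2 * Real.pi * j / N))))‖ ^ 2 : ℝ) : ℂ) =
      ((N * ∑ m ∈ A, ‖b m‖ ^ 2 : ℝ) : ℂ) := by
    rw [Complex.ofReal_sum, Finset.sum_congr rfl fun j _ => h1 j, Finset.sum_comm]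
    push_cast
    rw [Finset.mul_sum]
    refine Finset.sum_congr rfl fun m hm => ?_
    rw [Finset.sum_comm, Finset.sum_eq_single m]
    · rw [← Complex.mul_conj']
      simp only [sub_self, zero_mul, mul_zero, neg_zero, Complex.exp_zero, mul_one,
        Finset.sum_const, Finset.card_range, nsmul_eq_mul]
    · intro n hn hne
      rw [← Finset.mul_sum]
      have := gs N hN (m - n) (by
        intro hd
        have h3 := Int.le_of_dvd (abs_pos.2 (sub_ne_zero.2 hne.symm)) ((dvd_abs _ _).2 hd)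
        have h4 := hA m hm n hn
        omega)
      push_cast at this
      rw [this, mul_zero]
    · intro h
      exact absurd hm h
  exact_mod_cast h2

end ModAVGL

open ModAVGL in
theorem avgl : StmAVGL := by
  intro D C0 p hp x hx A b
  -- notation
  obtain ⟨y, hy⟩ : ∃ y : ℤ → ℕ → D.H, y = fun (m : ℤ) (N : ℕ) => (N : ℂ)⁻¹ • (∑ j ∈ Finset.range N,
      Complex.exp (-(Complex.I * (m * (2 * Real.pi * j / N)))) • D.π (rot (2 * Real.pi * j / N)) x) -
        ⟪D.e m, x⟫_ℂ • D.e m := ⟨_, rfl⟩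
  have hyE : ∀ m N, y m N ∈ D.E := by
    intro m N
    rw [hy]
    refine D.E.sub_mem (D.E.smul_mem _ (D.E.sum_mem fun j _ => D.E.smul_mem _ (E_inv D _ hx)))
      (D.E.smul_mem _ (e_mem D m))
  have hlim : Tendsto (fun N : ℕ => ∑ m ∈ A, ‖b m‖ * p (y m N)) atTop (𝓝 0) := by
    have : Tendsto (fun N : ℕ => ∑ m ∈ A, ‖b m‖ * p (y m N)) atTop (𝓝 (∑ m ∈ A, ‖b m‖ * 0)) := by
      refine tendsto_finsetSum _ fun m _ => ?_
      refine Tendsto.const_mul _ ?_
      rw [hy]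
      exact hp.avg x hx m
    simpa using this
  -- bound of the differences of the weights
  obtain ⟨N0, hN0⟩ : ∃ N0 : ℕ, ∀ m ∈ A, ∀ n ∈ A, |m - n| < N0 := by
    refine ⟨(∑ m ∈ A, ∑ n ∈ A, (m - n).natAbs) + 1, fun m hm n hn => ?_⟩
    obtain ⟨T, hT⟩ : ∃ T : ℕ, T = ∑ m ∈ A, ∑ n ∈ A, (m - n).natAbs := ⟨_, rfl⟩
    have h1 : (m - n).natAbs ≤ ∑ n ∈ A, (m - n).natAbs :=
      Finset.single_le_sum (f := fun n => (m - n).natAbs) (fun _ _ => Nat.zero_le _) hn
    have h2 : ∑ n ∈ A, (m - n).natAbs ≤ ∑ m ∈ A, ∑ n ∈ A, (m - n).natAbs :=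
      Finset.single_le_sum (f := fun m => ∑ n ∈ A, (m - n).natAbs) (fun _ _ => Nat.zero_le _) hm
    have h3 := h1.trans h2
    rw [← hT] at h3 ⊢
    rw [Int.abs_eq_natAbs]
    omega
  have hpx : 0 ≤ p x := hp.nonneg x hx
  have hC : p x ≤ C0 * p x := by
    have := hp.bdd 1 x hx
    rw [map_one] at this
    exact this
  have hmain : ∀ N : ℕ, N0 ≤ N → 1 ≤ N →
      p (∑ m ∈ A, (b m * ⟪D.e m, x⟫_ℂ) • D.e m) ≤
        C0 * Real.sqrt (∑ m ∈ A, ‖b m‖ ^ 2) * p x + ∑ m ∈ A, ‖b m‖ * p (y m N) := by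
    intro N hN hN1
    have hNpos : (0 : ℝ) < N := by exact_mod_cast hN1
    obtain ⟨hh, hhd⟩ : ∃ hh : ℕ → ℂ, hh = fun j : ℕ => ∑ m ∈ A, b m *
      Complex.exp (-(Complex.I * (m * (2 * Real.pi * j / N)))) := ⟨_, rfl⟩
    have hid : ∑ m ∈ A, (b m * ⟪D.e m, x⟫_ℂ) • D.e m =
        (∑ j ∈ Finset.range N, ((N : ℂ)⁻¹ * hh j) • D.π (rot (2 * Real.pi * j / N)) x) +
          ∑ m ∈ A, (-b m) • y m N := by
      have h1 : ∑ j ∈ Finset.range N, ((N : ℂ)⁻¹ * hh j) • D.π (rot (2 * Real.pi * j / N)) x =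
          ∑ m ∈ A, b m • ((N : ℂ)⁻¹ • (∑ j ∈ Finset.range N,
      Complex.exp (-(Complex.I * (m * (2 * Real.pi * j / N)))) •
        D.π (rot (2 * Real.pi * j / N)) x)) := by
        simp only [Finset.smul_sum, smul_smul, hhd, Finset.mul_sum, Finset.sum_smul]
        rw [Finset.sum_comm]
        refine Finset.sum_congr rfl fun m _ => Finset.sum_congr rfl fun j _ => ?_
        congr 1
        ring
      rw [h1, ← Finset.sum_add_distrib]
      refine Finset.sum_congr rfl fun m _ => ?_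
      rw [hy]
      beta_reduce
      rw [neg_smul, smul_sub, mul_smul]
      abel
    rw [hid]
    have hE1 : ∀ j ∈ Finset.range N,
        ((N : ℂ)⁻¹ * hh j) • D.π (rot (2 * Real.pi * j / N)) x ∈ D.E :=
      fun j _ => D.E.smul_mem _ (E_inv D _ hx)
    have hE2 : ∀ m ∈ A, (-b m) • y m N ∈ D.E := fun m _ => D.E.smul_mem _ (hyE m N)
    refine (hp.add _ (D.E.sum_mem hE1) _ (D.E.sum_mem hE2)).trans (add_le_add ?_ ?_)
    · refine (p_sum hp _ _ hE1).trans ?_
      have h1 : ∀ j ∈ Finset.range N,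
          p (((N : ℂ)⁻¹ * hh j) • D.π (rot (2 * Real.pi * j / N)) x) ≤
            (N : ℝ)⁻¹ * (‖hh j‖ * (C0 * p x)) := by
        intro j _
        rw [hp.smul _ _ (E_inv D _ hx), norm_mul, norm_inv, Complex.norm_natCast, mul_assoc]
        have := hp.bdd (rot (2 * Real.pi * j / N)) x hx
        gcongr
      refine (Finset.sum_le_sum h1).trans ?_
      rw [← Finset.mul_sum, ← Finset.sum_mul]
      have h2 : ∑ j ∈ Finset.range N, ‖hh j‖ ≤ N * Real.sqrt (∑ m ∈ A, ‖b m‖ ^ 2) := by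
        have h3 : (∑ j ∈ Finset.range N, ‖hh j‖) ^ 2 ≤ N * ∑ j ∈ Finset.range N, ‖hh j‖ ^ 2 := by
          have := sq_sum_le_card_mul_sum_sq (s := Finset.range N) (f := fun j => ‖hh j‖)
          rwa [Finset.card_range] at this
        have h4 : ∑ j ∈ Finset.range N, ‖hh j‖ ^ 2 = N * ∑ m ∈ A, ‖b m‖ ^ 2 := by
          rw [hhd]
          exact gs' N hN1 A (fun m hm n hn => (hN0 m hm n hn).trans_le (by exact_mod_cast hN)) b
        rw [h4] at h3
        have h5 : (0 : ℝ) ≤ ∑ m ∈ A, ‖b m‖ ^ 2 := Finset.sum_nonneg fun m _ => sq_nonneg _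
        refine abs_le_of_sq_le_sq' ?_ (by positivity) |>.2
        rw [mul_pow, Real.sq_sqrt h5]
        linarith
      have h6 : 0 ≤ C0 * p x := hpx.trans hC
      calc (N : ℝ)⁻¹ * ((∑ j ∈ Finset.range N, ‖hh j‖) * (C0 * p x))
          ≤ (N : ℝ)⁻¹ * ((N * Real.sqrt (∑ m ∈ A, ‖b m‖ ^ 2)) * (C0 * p x)) := by gcongr
        _ = C0 * Real.sqrt (∑ m ∈ A, ‖b m‖ ^ 2) * p x := by
          field_simp
    · refine (p_sum hp _ _ hE2).trans (le_of_eq ?_)
      refine Finset.sum_congr rfl fun m _ => ?_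
      rw [hp.smul _ _ (hyE m N), norm_neg]
  have hT : Tendsto (fun N : ℕ => C0 * Real.sqrt (∑ m ∈ A, ‖b m‖ ^ 2) * p x +
      ∑ m ∈ A, ‖b m‖ * p (y m N)) atTop (𝓝 (C0 * Real.sqrt (∑ m ∈ A, ‖b m‖ ^ 2) * p x + 0)) :=
    tendsto_const_nhds.add hlim
  rw [add_zero] at hT
  refine ge_of_tendsto hT ?_
  filter_upwards [eventually_ge_atTop N0, eventually_ge_atTop 1] with N h1 h2
  exact hmain N h1 h2

end Pool.Agent.T6.H28.SN
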