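import Pool.Agent.T6.H28.SN.Stm

set_option autoImplicit false

open scoped InnerProductSpace ComplexConjugate Topology ENNReal
open Filter MeasureTheory

namespace Pool.Agent.T6.H28.SN

namespace ModBRA

/-- `1 + m² / n²` -/
noncomputable def rho (n : ℝ) (m : ℤ) : ℝ := 1 + (m : ℝ) ^ 2 / n ^ 2

theorem rho_ge (n : ℝ) (m : ℤ) : 1 ≤ rho n m := by
  unfold rho
  have : 0 ≤ (m : ℝ) ^ 2 / n ^ 2 := by positivity
  linarith

theorem rho_pos (n : ℝ) (m : ℤ) : 0 < rho n m := lt_of_lt_of_le one_pos (rho_ge n m)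

theorem summ_base : Summable fun m : ℤ => 1 / (1 + (m : ℝ) ^ 2) := by
  have h1 : Summable fun m : ℤ => 1 / (m : ℝ) ^ 2 := Real.summable_one_div_int_pow.mpr one_lt_two
  have h2 : Summable fun m : ℤ => if m = 0 then (1 : ℝ) else 0 := (hasSum_ite_eq 0 1).summable
  refine Summable.of_nonneg_of_le (fun m => by positivity) (fun m => ?_) (h1.add h2)
  by_cases hm : m = 0
  · subst hm
    simp
  · have hm' : (0 : ℝ) < (m : ℝ) ^ 2 := by positivity
    rw [if_neg hm, add_zero]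
    exact one_div_le_one_div_of_le hm' (by linarith)

theorem sq_le (m : ℤ) : (1 + |(m : ℝ)|) ^ 2 ≤ 2 * (1 + (m : ℝ) ^ 2) := by
  nlinarith [sq_nonneg (1 - |(m : ℝ)|), sq_abs (m : ℝ)]

/-- the weight times `(1+|m|)²` -/
theorem weight_le {n : ℝ} (hn : 1 ≤ n) (m : ℤ) :
    1 / rho n m ^ 2 * (1 + |(m : ℝ)|) ^ 2 ≤ 2 * n ^ 4 * (1 / (1 + (m : ℝ) ^ 2)) := by
  have hn0 : 0 < n := by linarith
  have h1 : (1 + (m : ℝ) ^ 2) / n ^ 2 ≤ rho n m := by
    unfold rho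
    rw [add_div]
    have : 1 / n ^ 2 ≤ 1 := by
      rw [div_le_one (by positivity)]
      nlinarith
    linarith
  have h2 : ((1 + (m : ℝ) ^ 2) / n ^ 2) ^ 2 ≤ rho n m ^ 2 :=
    pow_le_pow_left₀ (by positivity) h1 2
  have h3 : 1 / rho n m ^ 2 ≤ 1 / ((1 + (m : ℝ) ^ 2) / n ^ 2) ^ 2 :=
    one_div_le_one_div_of_le (by positivity) h2
  calc 1 / rho n m ^ 2 * (1 + |(m : ℝ)|) ^ 2
      ≤ 1 / ((1 + (m : ℝ) ^ 2) / n ^ 2) ^ 2 * (2 * (1 + (m : ℝ) ^ 2)) :=
        mul_le_mul h3 (sq_le m) (by positivity) (by positivity)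
    _ = 2 * n ^ 4 * (1 / (1 + (m : ℝ) ^ 2)) := by
        field_simp

theorem abs_shift (m : ℤ) : 1 + |((m + 2 : ℤ) : ℝ)| ≤ 3 * (1 + |(m : ℝ)|) := by
  push_cast
  have := abs_add_le (m : ℝ) 2
  rw [abs_of_pos (by norm_num : (0 : ℝ) < 2)] at this
  linarith [abs_nonneg (m : ℝ)]

theorem abs_shift' (m : ℤ) : 1 + |((m - 2 : ℤ) : ℝ)| ≤ 3 * (1 + |(m : ℝ)|) := by
  push_cast
  have := abs_sub (m : ℝ) 2
  rw [abs_of_pos (by norm_num : (0 : ℝ) < 2)] at this
  linarith [abs_nonneg (m : ℝ)]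

/-- the key estimate -/
theorem key {Ca n : ℝ} (hCa : 0 ≤ Ca) (hn : 1 ≤ n) (m : ℤ) {α : ℝ} (hα0 : 0 ≤ α)
    (hα : α ≤ Ca * (1 + |(m : ℝ)|)) :
    |1 / rho n m ^ 2 - 1 / rho n (m + 2) ^ 2| * α ≤ 80 * Ca / (rho n m * rho n (m + 2)) := by
  have hn0 : 0 < n := by linarith
  have hn2 : 1 ≤ n ^ 2 := by nlinarith
  have hr := rho_pos n m
  have hr2 := rho_pos n (m + 2)
  have h1 : 1 / rho n m ^ 2 - 1 / rho n (m + 2) ^ 2 =
      (rho n (m + 2) - rho n m) * (rho n m + rho n (m + 2)) /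
        (rho n m ^ 2 * rho n (m + 2) ^ 2) := by
    field_simp
    ring
  have h2 : rho n (m + 2) - rho n m = 4 * ((m : ℝ) + 1) / n ^ 2 := by
    unfold rho
    push_cast
    field_simp
    ring
  have h3 : |rho n (m + 2) - rho n m| ≤ 4 * (1 + |(m : ℝ)|) / n ^ 2 := by
    rw [h2, abs_div, abs_of_pos (by positivity : 0 < n ^ 2), abs_mul,
      abs_of_pos (by norm_num : (0 : ℝ) < 4)]
    have := abs_add_le (m : ℝ) 1
    rw [abs_one] at this
    gcongr
    linarith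
  have h4 : (1 + |(m : ℝ)|) ^ 2 / n ^ 2 ≤ 2 * rho n m := by
    have h5 : (1 + |(m : ℝ)|) ^ 2 / n ^ 2 ≤ 2 * (1 + (m : ℝ) ^ 2) / n ^ 2 := by
      gcongr
      exact sq_le m
    refine h5.trans ?_
    unfold rho
    rw [mul_div_assoc, add_div]
    have : 1 / n ^ 2 ≤ 1 := by rw [div_le_one (by positivity)]; exact hn2
    linarith
  have h6 : rho n m ≤ 9 * rho n (m + 2) := by
    unfold rho
    push_cast
    have h7 : (m : ℝ) ^ 2 ≤ 2 * ((m : ℝ) + 2) ^ 2 + 8 := by nlinarith [sq_nonneg ((m : ℝ) + 4)]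
    have h8 : (m : ℝ) ^ 2 / n ^ 2 ≤ (2 * ((m : ℝ) + 2) ^ 2 + 8) / n ^ 2 := by gcongr
    have h9 : (2 * ((m : ℝ) + 2) ^ 2 + 8) / n ^ 2 = 2 * (((m : ℝ) + 2) ^ 2 / n ^ 2) + 8 / n ^ 2 := by
      ring
    have h10 : 8 / n ^ 2 ≤ 8 := by
      rw [div_le_iff₀ (by positivity)]
      nlinarith
    have h11 : 0 ≤ ((m : ℝ) + 2) ^ 2 / n ^ 2 := by positivity
    linarith
  have h12 : |rho n (m + 2) - rho n m| * α ≤ 8 * Ca * rho n m := by
    calc |rho n (m + 2) - rho n m| * α ≤ 4 * (1 + |(m : ℝ)|) / n ^ 2 * (Ca * (1 + |(m : ℝ)|)) :=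
          mul_le_mul h3 hα hα0 (by positivity)
      _ = 4 * Ca * ((1 + |(m : ℝ)|) ^ 2 / n ^ 2) := by ring
      _ ≤ 4 * Ca * (2 * rho n m) := by gcongr
      _ = 8 * Ca * rho n m := by ring
  rw [h1, abs_div, abs_mul, abs_of_pos (by positivity : 0 < rho n m + rho n (m + 2)),
    abs_of_pos (by positivity : 0 < rho n m ^ 2 * rho n (m + 2) ^ 2)]
  calc |rho n (m + 2) - rho n m| * (rho n m + rho n (m + 2)) /
        (rho n m ^ 2 * rho n (m + 2) ^ 2) * α
      = (|rho n (m + 2) - rho n m| * α) * (rho n m + rho n (m + 2)) /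
        (rho n m ^ 2 * rho n (m + 2) ^ 2) := by ring
    _ ≤ (8 * Ca * rho n m) * (10 * rho n (m + 2)) / (rho n m ^ 2 * rho n (m + 2) ^ 2) := by
        gcongr
        linarith
    _ = 80 * Ca / (rho n m * rho n (m + 2)) := by
        field_simp
        ring

/-- Gronwall on both sides -/
theorem gron {T T' : ℝ → ℝ} {C : ℝ} (hT : ∀ t, HasDerivAt T (T' t) t)
    (hb : ∀ t, |T' t| ≤ C * T t) (t : ℝ) : T t ≤ Real.exp (C * |t|) * T 0 := by
  rcases le_total 0 t with h0 | h0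
  · rw [abs_of_nonneg h0]
    have hd : ∀ s, HasDerivAt (fun s => T s * Real.exp (-(C * s)))
        (T' s * Real.exp (-(C * s)) + T s * (Real.exp (-(C * s)) * (-(C * 1)))) s := by
      intro s
      exact (hT s).mul ((((hasDerivAt_id s).const_mul C).neg).exp)
    have hanti : Antitone fun s => T s * Real.exp (-(C * s)) := by
      apply antitone_of_deriv_nonpos (fun s => (hd s).differentiableAt)
      intro s
      rw [(hd s).deriv]
      have h1 := (abs_le.1 (hb s)).2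
      have h2 := Real.exp_pos (-(C * s))
      nlinarith
    have h3 := hanti h0
    simp only [mul_zero, neg_zero, Real.exp_zero, mul_one] at h3
    rw [Real.exp_neg] at h3
    rw [mul_inv_le_iff₀ (Real.exp_pos _)] at h3
    linarith
  · rw [abs_of_nonpos h0]
    have hd : ∀ s, HasDerivAt (fun s => T s * Real.exp (C * s))
        (T' s * Real.exp (C * s) + T s * (Real.exp (C * s) * (C * 1))) s := by
      intro s
      exact (hT s).mul ((((hasDerivAt_id s).const_mul C)).exp)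
    have hmono : Monotone fun s => T s * Real.exp (C * s) := by
      apply monotone_of_deriv_nonneg (fun s => (hd s).differentiableAt)
      intro s
      rw [(hd s).deriv]
      have h1 := (abs_le.1 (hb s)).1
      have h2 := Real.exp_pos (C * s)
      nlinarith
    have h3 := hmono h0
    simp only [mul_zero, Real.exp_zero, mul_one] at h3
    have h4 : C * -t = -(C * t) := by ring
    rw [h4, Real.exp_neg, inv_mul_eq_div, le_div_iff₀ (Real.exp_pos _)]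
    exact h3

end ModBRA

open ModBRA in
theorem bra (hKAP : StmKAP) : StmBRA := by
  intro D
  obtain ⟨Ca0, hCa0⟩ := (hKAP D).2.1
  set Ca : ℝ := max Ca0 0 with hCadef
  have hCa : 0 ≤ Ca := le_max_right _ _
  have ha : ∀ m, ‖D.a m‖ ≤ Ca * (1 + |(m : ℝ)|) := fun m =>
    (hCa0 m).trans (mul_le_mul_of_nonneg_right (le_max_left _ _) (by positivity))
  refine ⟨160 * Ca + 1, by positivity, ?_⟩
  intro n φ B hn hφ0 hφB hφd
  have hn0 : 0 < n := by linarith
  have hB : 0 ≤ B := by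
    have := (hφB 0 0)
    simp at this
    exact le_trans (by positivity) this
  -- notation
  let w : ℤ → ℝ := fun m => 1 / rho n m ^ 2
  have hw : ∀ m, 0 ≤ w m := fun m => by positivity
  let P : ℤ → ℝ → ℝ := fun m t => 2 * (conj (φ m t) * (D.a m * φ (m + 2) t)).re
  have hPb : ∀ m t, |P m t| ≤ ‖D.a m‖ * (‖φ m t‖ ^ 2 + ‖φ (m + 2) t‖ ^ 2) := by
    intro m t
    have h1 : |(conj (φ m t) * (D.a m * φ (m + 2) t)).re| ≤
        ‖φ m t‖ * (‖D.a m‖ * ‖φ (m + 2) t‖) := by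
      refine (Complex.abs_re_le_norm _).trans ?_
      rw [norm_mul, norm_mul, RCLike.norm_conj]
    have h2 : |P m t| = 2 * |(conj (φ m t) * (D.a m * φ (m + 2) t)).re| := by
      change |2 * _| = _
      rw [abs_mul, abs_of_pos (by norm_num : (0 : ℝ) < 2)]
    rw [h2]
    have h3 : 2 * (‖φ m t‖ * ‖φ (m + 2) t‖) ≤ ‖φ m t‖ ^ 2 + ‖φ (m + 2) t‖ ^ 2 := by
      nlinarith [sq_nonneg (‖φ m t‖ - ‖φ (m + 2) t‖)]
    calc 2 * |(conj (φ m t) * (D.a m * φ (m + 2) t)).re|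
        ≤ 2 * (‖φ m t‖ * (‖D.a m‖ * ‖φ (m + 2) t‖)) := by gcongr
      _ = ‖D.a m‖ * (2 * (‖φ m t‖ * ‖φ (m + 2) t‖)) := by ring
      _ ≤ _ := by gcongr
  have hPB : ∀ m t, |P m t| ≤ 4 * Ca * B * (1 + |(m : ℝ)|) ^ 2 := by
    intro m t
    refine (hPb m t).trans ?_
    calc ‖D.a m‖ * (‖φ m t‖ ^ 2 + ‖φ (m + 2) t‖ ^ 2)
        ≤ (Ca * (1 + |(m : ℝ)|)) * (B * (1 + |(m : ℝ)|) + B * (3 * (1 + |(m : ℝ)|))) := by
          refine mul_le_mul (ha m) (add_le_add (hφB m t) ((hφB (m + 2) t).trans ?_))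
            (by positivity) (by positivity)
          exact mul_le_mul_of_nonneg_left (abs_shift m) hB
      _ = 4 * Ca * B * (1 + |(m : ℝ)|) ^ 2 := by ring
  -- summable bounds
  have hsb : Summable fun m : ℤ => 2 * n ^ 4 * (1 / (1 + (m : ℝ) ^ 2)) := summ_base.mul_left _
  have hwsum : ∀ (f : ℤ → ℝ) (K : ℝ), 0 ≤ K → (∀ m, |f m| ≤ K * (1 + |(m : ℝ)|) ^ 2) →
      Summable fun m => w m * f m := by
    intro f K hK hf
    refine Summable.of_norm_bounded (g := fun m : ℤ => K * (2 * n ^ 4 * (1 / (1 + (m : ℝ) ^ 2))))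
      (hsb.mul_left K) (fun m => ?_)
    rw [Real.norm_eq_abs, abs_mul, abs_of_nonneg (hw m)]
    calc w m * |f m| ≤ w m * (K * (1 + |(m : ℝ)|) ^ 2) :=
          mul_le_mul_of_nonneg_left (hf m) (hw m)
      _ = K * (w m * (1 + |(m : ℝ)|) ^ 2) := by ring
      _ ≤ K * (2 * n ^ 4 * (1 / (1 + (m : ℝ) ^ 2))) :=
          mul_le_mul_of_nonneg_left (weight_le hn m) hK
  -- the derivative of the terms
  let Q : ℤ → ℝ → ℝ := fun m t => P (m - 2) t
  have hterm : ∀ m t, HasDerivAt (fun t => ‖φ m t‖ ^ 2) (P m t - Q m t) t := by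
    intro m t
    have h1 := (hφd m t).norm_sq
    refine h1.congr_deriv ?_
    rw [Complex.inner, mul_comm (D.a m * φ (m + 2) t - conj (D.a (m - 2)) * φ (m - 2) t)]
    change 2 * (conj (φ m t) * (D.a m * φ (m + 2) t - conj (D.a (m - 2)) * φ (m - 2) t)).re =
      2 * (conj (φ m t) * (D.a m * φ (m + 2) t)).re -
        2 * (conj (φ (m - 2) t) * (D.a (m - 2) * φ (m - 2 + 2) t)).re
    rw [sub_add_cancel, mul_sub, Complex.sub_re]
    have h2 : (conj (φ m t) * (conj (D.a (m - 2)) * φ (m - 2) t)).re =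
        (conj (φ (m - 2) t) * (D.a (m - 2) * φ m t)).re := by
      rw [← Complex.conj_re (conj (φ (m - 2) t) * (D.a (m - 2) * φ m t))]
      congr 1
      simp only [map_mul, Complex.conj_conj]
      ring
    rw [h2]
    ring
  have hQB : ∀ m t, |Q m t| ≤ 36 * Ca * B * (1 + |(m : ℝ)|) ^ 2 := by
    intro m t
    refine (hPB (m - 2) t).trans ?_
    have h1 := abs_shift' m
    have h2 : (1 + |((m - 2 : ℤ) : ℝ)|) ^ 2 ≤ (3 * (1 + |(m : ℝ)|)) ^ 2 :=
      pow_le_pow_left₀ (by positivity) h1 2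
    calc 4 * Ca * B * (1 + |((m - 2 : ℤ) : ℝ)|) ^ 2 ≤ 4 * Ca * B * (3 * (1 + |(m : ℝ)|)) ^ 2 := by
          gcongr
      _ = _ := by ring
  have hφs : ∀ t, Summable fun m => w m * ‖φ m t‖ ^ 2 := by
    intro t
    refine hwsum _ B hB fun m => ?_
    rw [abs_of_nonneg (by positivity)]
    refine (hφB m t).trans ?_
    have : 1 + |(m : ℝ)| ≤ (1 + |(m : ℝ)|) ^ 2 := by nlinarith [abs_nonneg (m : ℝ)]
    gcongr
  -- the derivative of the sum
  have hT : ∀ t, HasDerivAt (fun t => ∑' m : ℤ, w m * ‖φ m t‖ ^ 2)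
      (∑' m : ℤ, w m * (P m t - Q m t)) t := by
    intro t
    refine hasDerivAt_tsum (u := fun m : ℤ => (40 * Ca * B) * (2 * n ^ 4 * (1 / (1 + (m : ℝ) ^ 2))))
      (hsb.mul_left _) (fun m y => (hterm m y).const_mul (w m)) (fun m y => ?_) (hφs 0) t
    rw [Real.norm_eq_abs, abs_mul, abs_of_nonneg (hw m)]
    have h1 : |P m y - Q m y| ≤ 40 * Ca * B * (1 + |(m : ℝ)|) ^ 2 := by
      calc |P m y - Q m y| ≤ |P m y| + |Q m y| := abs_sub _ _
        _ ≤ 4 * Ca * B * (1 + |(m : ℝ)|) ^ 2 + 36 * Ca * B * (1 + |(m : ℝ)|) ^ 2 :=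
          add_le_add (hPB m y) (hQB m y)
        _ = _ := by ring
    calc w m * |P m y - Q m y| ≤ w m * (40 * Ca * B * (1 + |(m : ℝ)|) ^ 2) :=
          mul_le_mul_of_nonneg_left h1 (hw m)
      _ = (40 * Ca * B) * (w m * (1 + |(m : ℝ)|) ^ 2) := by ring
      _ ≤ _ := mul_le_mul_of_nonneg_left (weight_le hn m) (by positivity)
  -- the bound for the derivative
  have hshift : ∀ f : ℤ → ℝ, ∑' m, f (m + 2) = ∑' m, f m := fun f =>
    (Equiv.addRight (2 : ℤ)).tsum_eq f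
  have hbound : ∀ t, |∑' m : ℤ, w m * (P m t - Q m t)| ≤
      (160 * Ca + 1) * ∑' m : ℤ, w m * ‖φ m t‖ ^ 2 := by
    intro t
    have hsP := hwsum (fun m => P m t) _ (by positivity) (fun m => hPB m t)
    have hsQ := hwsum (fun m => Q m t) _ (by positivity) (fun m => hQB m t)
    have h1 : ∑' m : ℤ, w m * (P m t - Q m t) = ∑' m : ℤ, (w m - w (m + 2)) * P m t := by
      have h2 : ∑' m : ℤ, w m * Q m t = ∑' m : ℤ, w (m + 2) * P m t := by
        rw [← hshift]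
        refine tsum_congr fun m => ?_
        change w (m + 2) * P (m + 2 - 2) t = _
        rw [add_sub_cancel_right]
      have hsQ2 : Summable fun m : ℤ => w (m + 2) * P m t := by
        have h3 := (Equiv.addRight (2 : ℤ)).summable_iff.2 hsQ
        refine h3.congr fun m => ?_
        change w (m + 2) * P (m + 2 - 2) t = _
        rw [add_sub_cancel_right]
      calc ∑' m : ℤ, w m * (P m t - Q m t) = ∑' m : ℤ, (w m * P m t - w m * Q m t) := by
            refine tsum_congr fun m => by ring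
        _ = ∑' m : ℤ, w m * P m t - ∑' m : ℤ, w m * Q m t := hsP.tsum_sub hsQ
        _ = ∑' m : ℤ, w m * P m t - ∑' m : ℤ, w (m + 2) * P m t := by rw [h2]
        _ = ∑' m : ℤ, (w m * P m t - w (m + 2) * P m t) := (hsP.tsum_sub hsQ2).symm
        _ = _ := by refine tsum_congr fun m => by ring
    rw [h1]
    have hs1 : Summable fun m : ℤ => w m * ‖φ m t‖ ^ 2 := hφs t
    have hs2 : Summable fun m : ℤ => w (m + 2) * ‖φ (m + 2) t‖ ^ 2 :=
      (Equiv.addRight (2 : ℤ)).summable_iff.2 hs1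
    have hle : ∀ m : ℤ, ‖(w m - w (m + 2)) * P m t‖ ≤
        80 * Ca * (w m * ‖φ m t‖ ^ 2 + w (m + 2) * ‖φ (m + 2) t‖ ^ 2) := by
      intro m
      have h4 : |P m t| ≤ 2 * ‖D.a m‖ * (‖φ m t‖ * ‖φ (m + 2) t‖) := by
        change |2 * (conj (φ m t) * (D.a m * φ (m + 2) t)).re| ≤ _
        rw [abs_mul, abs_of_pos (by norm_num : (0 : ℝ) < 2)]
        have h5 := Complex.abs_re_le_norm (conj (φ m t) * (D.a m * φ (m + 2) t))
        rw [norm_mul, norm_mul, RCLike.norm_conj] at h5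
        nlinarith
      have h6 := key hCa hn m (norm_nonneg (D.a m)) (ha m)
      have hr := rho_pos n m
      have hr2 := rho_pos n (m + 2)
      have h7 : ‖φ m t‖ * ‖φ (m + 2) t‖ / (rho n m * rho n (m + 2)) * 2 ≤
          w m * ‖φ m t‖ ^ 2 + w (m + 2) * ‖φ (m + 2) t‖ ^ 2 := by
        have h8 := sq_nonneg (‖φ m t‖ / rho n m - ‖φ (m + 2) t‖ / rho n (m + 2))
        have h9 : w m * ‖φ m t‖ ^ 2 = (‖φ m t‖ / rho n m) ^ 2 := by
          change 1 / rho n m ^ 2 * ‖φ m t‖ ^ 2 = _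
          ring
        have h10 : w (m + 2) * ‖φ (m + 2) t‖ ^ 2 = (‖φ (m + 2) t‖ / rho n (m + 2)) ^ 2 := by
          change 1 / rho n (m + 2) ^ 2 * ‖φ (m + 2) t‖ ^ 2 = _
          ring
        have h11 : ‖φ m t‖ * ‖φ (m + 2) t‖ / (rho n m * rho n (m + 2)) =
            (‖φ m t‖ / rho n m) * (‖φ (m + 2) t‖ / rho n (m + 2)) := by
          field_simp
        rw [h9, h10, h11]
        nlinarith
      rw [Real.norm_eq_abs, abs_mul]
      calc |w m - w (m + 2)| * |P m t|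
          ≤ |w m - w (m + 2)| * (2 * ‖D.a m‖ * (‖φ m t‖ * ‖φ (m + 2) t‖)) := by gcongr
        _ = (|w m - w (m + 2)| * ‖D.a m‖) * (2 * (‖φ m t‖ * ‖φ (m + 2) t‖)) := by ring
        _ ≤ (80 * Ca / (rho n m * rho n (m + 2))) * (2 * (‖φ m t‖ * ‖φ (m + 2) t‖)) :=
            mul_le_mul_of_nonneg_right h6 (by positivity)
        _ = 80 * Ca * (‖φ m t‖ * ‖φ (m + 2) t‖ / (rho n m * rho n (m + 2)) * 2) := by ring
        _ ≤ _ := by gcongr
    have hs3 : Summable fun m : ℤ =>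
        80 * Ca * (w m * ‖φ m t‖ ^ 2 + w (m + 2) * ‖φ (m + 2) t‖ ^ 2) :=
      (hs1.add hs2).mul_left _
    have h12 := tsum_of_norm_bounded hs3.hasSum hle
    rw [Real.norm_eq_abs] at h12
    refine h12.trans ?_
    rw [tsum_mul_left, hs1.tsum_add hs2, hshift (fun m => w m * ‖φ m t‖ ^ 2)]
    have h13 : 0 ≤ ∑' m : ℤ, w m * ‖φ m t‖ ^ 2 :=
      tsum_nonneg fun m => mul_nonneg (hw m) (by positivity)
    nlinarith
  intro t
  have hfin := gron hT hbound t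
  have hconv : ∀ s, (∑' m : ℤ, ‖φ m s‖ ^ 2 / (1 + (m : ℝ) ^ 2 / n ^ 2) ^ 2) =
      ∑' m : ℤ, w m * ‖φ m s‖ ^ 2 := by
    intro s
    refine tsum_congr fun m => ?_
    change _ = 1 / (1 + (m : ℝ) ^ 2 / n ^ 2) ^ 2 * ‖φ m s‖ ^ 2
    ring
  rw [hconv t, hconv 0]
  exact hfin

end Pool.Agent.T6.H28.SN
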