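import Pool.Agent.T6.H28.SN.Stm

set_option autoImplicit false

open scoped InnerProductSpace ComplexConjugate Topology ENNReal
open Filter MeasureTheory

namespace Pool.Agent.T6.H28.SN

namespace ModBRT

/-! ### sums over the weights -/

lemma sum_nat (n : ℕ) (hn : 1 ≤ n) (M : ℕ) :
    ∑ m ∈ Finset.range M, (n : ℝ) ^ 2 / ((n : ℝ) ^ 2 + ((m : ℝ) + 1) ^ 2) ≤
      2 * n * ((M : ℝ) / (n + M)) := by
  have hnn : (1 : ℝ) ≤ n := by exact_mod_cast hn
  induction M with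
  | zero => simp
  | succ M ih =>
    rw [Finset.sum_range_succ]
    have h1 : (n : ℝ) ^ 2 / ((n : ℝ) ^ 2 + ((M : ℝ) + 1) ^ 2) ≤
        2 * n * (((M : ℝ) + 1) / (n + (M + 1)) - (M : ℝ) / (n + M)) := by
      have hM : (0 : ℝ) ≤ M := Nat.cast_nonneg _
      have h2 : ((M : ℝ) + 1) / (n + (M + 1)) - (M : ℝ) / (n + M) =
          n / ((n + (M + 1)) * (n + M)) := by
        rw [div_sub_div _ _ (by positivity) (by positivity)]
        congr 1
        ring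
      rw [h2, ← mul_div_assoc, div_le_div_iff₀ (by positivity) (by positivity)]
      have h3 : ((n : ℝ) + (M + 1)) * (n + M) ≤ 2 * ((n : ℝ) ^ 2 + ((M : ℝ) + 1) ^ 2) := by
        nlinarith [sq_nonneg ((n : ℝ) - (M + 1))]
      nlinarith [mul_le_mul_of_nonneg_left h3 (sq_nonneg (n : ℝ))]
    push_cast
    linarith

lemma sum_nat' (n : ℕ) (hn : 1 ≤ n) (M : ℕ) :
    ∑ m ∈ Finset.range M, (n : ℝ) ^ 2 / ((n : ℝ) ^ 2 + ((m : ℝ) + 1) ^ 2) ≤ (2 * n : ℝ) := by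
  refine (sum_nat n hn M).trans ?_
  have hnn : (1 : ℝ) ≤ n := by exact_mod_cast hn
  have hM : (0 : ℝ) ≤ M := Nat.cast_nonneg _
  have : (M : ℝ) / (n + M) ≤ 1 := by
    rw [div_le_one (by positivity)]
    linarith
  nlinarith

lemma tsum_nat (n : ℕ) (hn : 1 ≤ n) :
    ∑' m : ℕ, ENNReal.ofReal ((n : ℝ) ^ 2 / ((n : ℝ) ^ 2 + ((m : ℝ) + 1) ^ 2)) ≤
      ENNReal.ofReal (2 * n) := by
  apply ENNReal.tsum_le_of_sum_range_le
  intro M
  rw [← ENNReal.ofReal_sum_of_nonneg (fun _ _ => by positivity)]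
  exact ENNReal.ofReal_le_ofReal (sum_nat' n hn M)

lemma tsum_int (n : ℕ) (hn : 1 ≤ n) :
    ∑' m : ℤ, ENNReal.ofReal ((n : ℝ) ^ 2 / ((n : ℝ) ^ 2 + (m : ℝ) ^ 2)) ≤
      ENNReal.ofReal (5 * n) := by
  have hnn : (1 : ℝ) ≤ n := by exact_mod_cast hn
  rw [tsum_of_nat_of_neg_add_one ENNReal.summable ENNReal.summable]
  have h1 : ∑' m : ℕ, ENNReal.ofReal ((n : ℝ) ^ 2 / ((n : ℝ) ^ 2 + (((m : ℕ) : ℤ) : ℝ) ^ 2)) ≤
      ENNReal.ofReal 1 + ENNReal.ofReal (2 * n) := by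
    rw [tsum_eq_zero_add' ENNReal.summable]
    apply add_le_add
    · apply ENNReal.ofReal_le_ofReal
      rw [div_le_one (by positivity)]
      simp
    · refine le_trans (le_of_eq ?_) (tsum_nat n hn)
      apply tsum_congr
      intro m
      push_cast
      rfl
  have h2 : ∑' m : ℕ, ENNReal.ofReal ((n : ℝ) ^ 2 / ((n : ℝ) ^ 2 + ((-((m : ℤ) + 1) : ℤ) : ℝ) ^ 2))
      ≤ ENNReal.ofReal (2 * n) := by
    refine le_trans (le_of_eq ?_) (tsum_nat n hn)
    apply tsum_congr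
    intro m
    push_cast
    congr 3
    ring
  refine (add_le_add h1 h2).trans ?_
  rw [← ENNReal.ofReal_add (by positivity) (by positivity),
    ← ENNReal.ofReal_add (by positivity) (by positivity)]
  apply ENNReal.ofReal_le_ofReal
  linarith

lemma summable_one : Summable fun m : ℤ => (1 : ℝ) / (1 + (m : ℝ) ^ 2) := by
  have h := tsum_int 1 le_rfl
  have h2 : ∑' m : ℤ, ENNReal.ofReal ((1 : ℝ) / (1 + (m : ℝ) ^ 2)) ≠ ⊤ := by
    apply ne_top_of_le_ne_top _ (le_trans (le_of_eq _) h)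
    · exact ENNReal.ofReal_ne_top
    · apply tsum_congr
      intro m
      norm_num
  have h3 := ENNReal.summable_toReal h2
  refine h3.congr ?_
  intro m
  exact ENNReal.toReal_ofReal (by positivity)

/-- the weight -/
noncomputable def wt (n : ℝ) (m : ℤ) : ℝ := (1 + (m : ℝ) ^ 2 / n ^ 2) ^ 2

lemma wt_pos (n : ℝ) (m : ℤ) : 0 < wt n m := by unfold wt; positivity

lemma wt_one (n : ℝ) (m : ℤ) : 1 ≤ wt n m := by
  unfold wt
  apply one_le_pow₀
  have : 0 ≤ (m : ℝ) ^ 2 / n ^ 2 := by positivity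
  linarith

lemma inv_wt_le (n : ℕ) (hn : 1 ≤ n) (m : ℤ) :
    1 / wt n m ≤ (n : ℝ) ^ 2 / ((n : ℝ) ^ 2 + (m : ℝ) ^ 2) := by
  have hnn : (1 : ℝ) ≤ n := by exact_mod_cast hn
  have h1 : (n : ℝ) ^ 2 / ((n : ℝ) ^ 2 + (m : ℝ) ^ 2) = 1 / (1 + (m : ℝ) ^ 2 / (n : ℝ) ^ 2) := by
    field_simp
  rw [h1]
  apply one_div_le_one_div_of_le (by positivity)
  unfold wt
  have : 0 ≤ (m : ℝ) ^ 2 / (n : ℝ) ^ 2 := by positivity
  nlinarith

lemma summable_wt (n : ℕ) (hn : 1 ≤ n) (f : ℤ → ℝ) (hf : ∀ m, 0 ≤ f m) {B : ℝ}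
    (hB : ∀ m, f m ≤ B * (1 + |(m : ℝ)|)) : Summable fun m : ℤ => f m / wt n m := by
  have hnn : (1 : ℝ) ≤ n := by exact_mod_cast hn
  have hB0 : 0 ≤ B := by
    have := (hf 0).trans (hB 0)
    simpa using this
  refine Summable.of_nonneg_of_le (fun m => div_nonneg (hf m) (wt_pos n m).le) ?_
    (summable_one.mul_left (2 * B * (n : ℝ) ^ 4))
  intro m
  have h1 : f m / wt n m ≤ B * (1 + |(m : ℝ)|) / wt n m :=
    div_le_div_of_nonneg_right (hB m) (wt_pos n m).le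
  refine h1.trans ?_
  have h2 : (1 + (m : ℝ) ^ 2) / (n : ℝ) ^ 2 ≤ 1 + (m : ℝ) ^ 2 / (n : ℝ) ^ 2 := by
    rw [add_div]
    have : 1 / (n : ℝ) ^ 2 ≤ 1 := by
      rw [div_le_one (by positivity)]
      exact one_le_pow₀ hnn
    linarith
  have h3 : ((1 + (m : ℝ) ^ 2) / (n : ℝ) ^ 2) ^ 2 ≤ wt n m :=
    pow_le_pow_left₀ (by positivity) h2 2
  have h4 : 1 + |(m : ℝ)| ≤ 2 * (1 + (m : ℝ) ^ 2) := by
    rw [← sq_abs (m : ℝ)]
    nlinarith [sq_nonneg (|(m : ℝ)| - 1), abs_nonneg (m : ℝ)]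
  calc B * (1 + |(m : ℝ)|) / wt n m ≤ B * (2 * (1 + (m : ℝ) ^ 2)) /
      ((1 + (m : ℝ) ^ 2) / (n : ℝ) ^ 2) ^ 2 := by
        apply div_le_div₀ (by positivity) (mul_le_mul_of_nonneg_left h4 hB0) (by positivity) h3
    _ = 2 * B * (n : ℝ) ^ 4 * (1 / (1 + (m : ℝ) ^ 2)) := by field_simp

/-! ### the functions `φ_m` -/

variable {D : Rep} {Γ : Subgroup G} {F : Set G} {η : D.H →ₗ[ℂ] ℂ}

lemma e_mem (D : Rep) (m : ℤ) : D.e m ∈ D.E :=
  Submodule.subset_span ⟨1, m, by rw [map_one]; rfl⟩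

lemma pi_mem (D : Rep) (g : G) {x : D.H} (hx : x ∈ D.E) : D.π g x ∈ D.E := by
  unfold Rep.E at hx ⊢
  induction hx using Submodule.span_induction with
  | mem x hx =>
    obtain ⟨h, m, rfl⟩ := hx
    refine Submodule.subset_span ⟨g * h, m, ?_⟩
    rw [map_mul]
    rfl
  | zero => rw [map_zero]; exact Submodule.zero_mem _
  | add x y _ _ hx hy => rw [map_add]; exact Submodule.add_mem _ hx hy
  | smul c x _ hx => rw [map_smul]; exact Submodule.smul_mem _ _ hx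

lemma pAut_nonneg (x : D.H) : 0 ≤ pAut D η x := Real.iSup_nonneg fun _ => norm_nonneg _

lemma le_pAut (h : IsAut D Γ F η) {x : D.H} (hx : x ∈ D.E) (g : G) :
    ‖η (D.π g x)‖ ≤ pAut D η x := le_ciSup (h.bdd x hx) g

lemma isSem (h : IsAut D Γ F η) : ∃ C0, IsSem D C0 (pAut D η) := by
  obtain ⟨C0, hC⟩ := h.norm.bdd
  exact ⟨C0, ⟨fun x _ => pAut_nonneg x, h.norm.add, h.norm.smul, hC, h.norm.diff, h.norm.avg⟩⟩

lemma phi_bound (hUPP : StmUPP) (h : IsAut D Γ F η) : ∃ B : ℝ, ∀ (m : ℤ) (g : G),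
    ‖η (D.π g (D.e m))‖ ^ 2 ≤ B * (1 + |(m : ℝ)|) := by
  obtain ⟨C, hC, hu⟩ := hUPP D _ h.norm
  refine ⟨C ^ 2, fun m g => ?_⟩
  have h1 := hu (m.natAbs + 1) (by omega) {m} (fun _ => 1) (by
    intro j hj
    rw [Finset.mem_singleton.1 hj]
    push_cast
    have := abs_nonneg m
    omega)
  have h2 : D.vec {m} (fun _ => 1) = D.e m := by
    unfold Rep.vec
    rw [Finset.sum_singleton, one_smul]
  rw [h2, Finset.sum_singleton] at h1
  have h3 : pAut D η (D.e m) ≤ C * Real.sqrt ((m.natAbs + 1 : ℕ) : ℝ) := by simpa using h1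
  have h4 := le_pAut h (e_mem D m) g
  have h5 : ‖η (D.π g (D.e m))‖ ^ 2 ≤ (C * Real.sqrt ((m.natAbs + 1 : ℕ) : ℝ)) ^ 2 :=
    pow_le_pow_left₀ (norm_nonneg _) (h4.trans h3) 2
  rw [mul_pow, Real.sq_sqrt (by positivity)] at h5
  have h6 : ((m.natAbs + 1 : ℕ) : ℝ) = 1 + |(m : ℝ)| := by
    push_cast
    rw [Nat.cast_natAbs]
    push_cast
    ring
  rwa [h6] at h5

lemma phi_cont (hCONT : StmCONT) (h : IsAut D Γ F η) (m : ℤ) :
    Continuous fun g : G => η (D.π g (D.e m)) := by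
  obtain ⟨C0, hs⟩ := isSem h
  have hc := hCONT D C0 _ hs (D.e m) (e_mem D m)
  rw [continuous_iff_continuousAt]
  intro g
  have h1 : Tendsto (fun g' : G => g⁻¹ * g') (𝓝 g) (𝓝 1) := by
    have : Tendsto (fun g' : G => g⁻¹ * g') (𝓝 g) (𝓝 (g⁻¹ * g)) :=
      (continuous_const.mul continuous_id).tendsto g
    rwa [inv_mul_cancel] at this
  have h2 := hc.comp h1
  unfold ContinuousAt
  rw [tendsto_iff_norm_sub_tendsto_zero]
  refine squeeze_zero (fun _ => norm_nonneg _) ?_ h2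
  intro g'
  have h3 : η (D.π g' (D.e m)) - η (D.π g (D.e m)) =
      η (D.π g (D.π (g⁻¹ * g') (D.e m) - D.e m)) := by
    rw [map_sub, map_sub]
    congr 2
    have : D.π g (D.π (g⁻¹ * g') (D.e m)) = D.π (g * (g⁻¹ * g')) (D.e m) := by
      rw [map_mul D.π g (g⁻¹ * g')]
      rfl
    rw [this, mul_inv_cancel_left]
  rw [h3]
  exact le_pAut h (Submodule.sub_mem _ (pi_mem D _ (e_mem D m)) (e_mem D m)) g

lemma rot_norm (g : G) (θ : ℝ) (m : ℤ) :
    ‖η (D.π (g * rot θ) (D.e m))‖ = ‖η (D.π g (D.e m))‖ := by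
  have h1 : D.π (g * rot θ) (D.e m) = Complex.exp (Complex.I * (m * θ)) • D.π g (D.e m) := by
    rw [map_mul]
    show D.π g (D.π (rot θ) (D.e m)) = _
    rw [D.rot_e, map_smul]
  rw [h1, map_smul, smul_eq_mul, norm_mul]
  have : ‖Complex.exp (Complex.I * ((m : ℂ) * (θ : ℂ)))‖ = 1 := by
    rw [mul_comm, show ((m : ℂ) * (θ : ℂ)) = (((m : ℝ) * θ : ℝ) : ℂ) by push_cast; ring]
    exact Complex.norm_exp_ofReal_mul_I _
  rw [this, one_mul]

lemma dil_add (s t : ℝ) : dil (s + t) = dil s * dil t := by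
  apply Subtype.ext
  rw [Matrix.SpecialLinearGroup.coe_mul]
  unfold dil
  ext i j
  fin_cases i <;> fin_cases j <;> simp [Matrix.mul_apply, Fin.sum_univ_two, Real.exp_add] <;> ring

lemma dil_zero : dil 0 = 1 := by
  apply Subtype.ext
  unfold dil
  ext i j
  fin_cases i <;> fin_cases j <;> simp

lemma oneParam_dil : IsOneParam dil !![1, 0; 0, -1] where
  add := dil_add
  deriv := by
    intro i j
    unfold dil
    fin_cases i <;> fin_cases j
    · simpa using Real.hasDerivAt_exp 0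
    · simpa using hasDerivAt_const (0 : ℝ) (0 : ℝ)
    · simpa using hasDerivAt_const (0 : ℝ) (0 : ℝ)
    · have := (Real.hasDerivAt_exp (-0)).comp (0 : ℝ) (hasDerivAt_neg (0 : ℝ))
      simpa [Function.comp_def] using this

lemma dAct_dil (D : Rep) (m : ℤ) : dAct D.a D.e !![1, 0; 0, -1] m =
    D.a m • D.e (m + 2) - conj (D.a (m - 2)) • D.e (m - 2) := by
  unfold dAct
  simp

lemma phi_deriv (h : IsAut D Γ F η) (g : G) (m : ℤ) (t : ℝ) :
    HasDerivAt (fun t => η (D.π (g * dil t) (D.e m)))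
      (D.a m * η (D.π (g * dil t) (D.e (m + 2))) -
        conj (D.a (m - 2)) * η (D.π (g * dil t) (D.e (m - 2)))) t := by
  have hd := h.norm.diff dil _ oneParam_dil m
  rw [hasDerivAt_iff_tendsto_slope_zero, tendsto_iff_norm_sub_tendsto_zero]
  refine squeeze_zero (fun _ => norm_nonneg _) ?_ hd
  intro s
  have h1 : s⁻¹ • (η (D.π (g * dil (t + s)) (D.e m)) - η (D.π (g * dil t) (D.e m))) -
      (D.a m * η (D.π (g * dil t) (D.e (m + 2))) -
        conj (D.a (m - 2)) * η (D.π (g * dil t) (D.e (m - 2)))) =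
      η (D.π (g * dil t) ((s : ℂ)⁻¹ • (D.π (dil s) (D.e m) - D.e m) -
        dAct D.a D.e !![1, 0; 0, -1] m)) := by
    rw [dAct_dil]
    simp only [map_sub, map_smul, smul_eq_mul]
    have : D.π (g * dil (t + s)) (D.e m) = D.π (g * dil t) (D.π (dil s) (D.e m)) := by
      rw [dil_add, ← mul_assoc, map_mul _ (g * dil t)]
      rfl
    rw [this]
    congr 1
    rw [Complex.real_smul]
    push_cast
    ring
  rw [h1]
  apply le_pAut h
  apply Submodule.sub_mem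
  · exact Submodule.smul_mem _ _ (Submodule.sub_mem _ (pi_mem D _ (e_mem D m)) (e_mem D m))
  · rw [dAct_dil]
    exact Submodule.sub_mem _ (Submodule.smul_mem _ _ (e_mem D _))
      (Submodule.smul_mem _ _ (e_mem D _))

/-- the weighted square sum -/
noncomputable def T (D : Rep) (η : D.H →ₗ[ℂ] ℂ) (n : ℝ) (g : G) : ℝ :=
  ∑' m : ℤ, ‖η (D.π g (D.e m))‖ ^ 2 / wt n m

lemma T_rot (n : ℝ) (g : G) (θ : ℝ) : T D η n (g * rot θ) = T D η n g := by
  unfold T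
  apply tsum_congr
  intro m
  rw [rot_norm]

lemma T_dil (hUPP : StmUPP) (h : IsAut D Γ F η) {C : ℝ}
    (hB : ∀ (n : ℝ) (φ : ℤ → ℝ → ℂ) (B : ℝ), 1 ≤ n →
      (∀ m t, m ∉ D.S → φ m t = 0) → (∀ m t, ‖φ m t‖ ^ 2 ≤ B * (1 + |(m : ℝ)|)) →
      (∀ m t, HasDerivAt (φ m) (D.a m * φ (m + 2) t - conj (D.a (m - 2)) * φ (m - 2) t) t) →
      ∀ t, (∑' m : ℤ, ‖φ m t‖ ^ 2 / (1 + (m : ℝ) ^ 2 / n ^ 2) ^ 2) ≤
        Real.exp (C * |t|) * ∑' m : ℤ, ‖φ m 0‖ ^ 2 / (1 + (m : ℝ) ^ 2 / n ^ 2) ^ 2)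
    {n : ℝ} (hn : 1 ≤ n) (g : G) (t : ℝ) :
    T D η n (g * dil t) ≤ Real.exp (C * |t|) * T D η n g := by
  obtain ⟨B, hb⟩ := phi_bound hUPP h
  have h1 := hB n (fun m t => η (D.π (g * dil t) (D.e m))) B hn
    (fun m t hm => by rw [D.e_out m hm, map_zero, map_zero]) (fun m t => hb m _)
    (fun m t => phi_deriv h g m t) t
  rw [dil_zero, mul_one] at h1
  exact h1

lemma T_gamma (h : IsAut D Γ F η) (n : ℝ) {γ : G} (hγ : γ ∈ Γ) (g : G) :
    T D η n (γ * g) = T D η n g := by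
  unfold T
  apply tsum_congr
  intro m
  have : D.π (γ * g) (D.e m) = D.π γ (D.π g (D.e m)) := by
    rw [map_mul]
    rfl
  rw [this, h.inv γ hγ _ (pi_mem D g (e_mem D m))]

lemma T_nonneg (n : ℝ) (g : G) : 0 ≤ T D η n g :=
  tsum_nonneg fun m => div_nonneg (by positivity) (wt_pos n m).le

/-- the neighbourhood of `1` -/
def O : Set G := {h | h.1 0 0 ^ 2 + h.1 0 1 ^ 2 + h.1 1 0 ^ 2 + h.1 1 1 ^ 2 < 2 * Real.cosh 2}

lemma isOpen_O : IsOpen O := by
  have hc : ∀ i j, Continuous fun h : G => h.1 i j := fun i j =>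
    (continuous_apply_apply i j).comp continuous_subtype_val
  exact isOpen_lt (by fun_prop (disch := assumption)) continuous_const

lemma one_mem_O : (1 : G) ∈ O := by
  unfold O
  show (1 : G).1 0 0 ^ 2 + (1 : G).1 0 1 ^ 2 + (1 : G).1 1 0 ^ 2 + (1 : G).1 1 1 ^ 2 <
    2 * Real.cosh 2
  have h1 : (1 : ℝ) < Real.cosh 2 := Real.one_lt_cosh.2 (by norm_num)
  simp
  linarith

lemma sum_sq (θ t φ : ℝ) :
    (rot θ * dil t * rot φ).1 0 0 ^ 2 + (rot θ * dil t * rot φ).1 0 1 ^ 2 +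
      (rot θ * dil t * rot φ).1 1 0 ^ 2 + (rot θ * dil t * rot φ).1 1 1 ^ 2 =
      2 * Real.cosh (2 * t) := by
  rw [Matrix.SpecialLinearGroup.coe_mul, Matrix.SpecialLinearGroup.coe_mul]
  unfold rot dil
  simp only [Matrix.mul_apply, Fin.sum_univ_two, Matrix.of_apply, Matrix.cons_val', Matrix.cons_val_zero,
    Matrix.cons_val_one, Matrix.cons_val_fin_one]
  rw [Real.cosh_eq]
  have e1 : Real.exp (2 * t) = Real.exp t ^ 2 := by rw [← Real.exp_nat_mul]; norm_num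
  have e2 : Real.exp (-(2 * t)) = Real.exp (-t) ^ 2 := by
    rw [← Real.exp_nat_mul]; congr 1; push_cast; ring
  rw [e1, e2]
  have h1 := Real.sin_sq_add_cos_sq θ
  have h2 := Real.sin_sq_add_cos_sq φ
  have h3 : Real.sin θ ^ 2 = 1 - Real.cos θ ^ 2 := by linarith
  have h4 : Real.sin φ ^ 2 = 1 - Real.cos φ ^ 2 := by linarith
  ring_nf
  rw [h3, h4]
  ring

lemma T_lower (hKAK : StmKAK) (hUPP : StmUPP) (h : IsAut D Γ F η) {C : ℝ} (hC : 0 < C)
    (hB : ∀ (n : ℝ) (φ : ℤ → ℝ → ℂ) (B : ℝ), 1 ≤ n →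
      (∀ m t, m ∉ D.S → φ m t = 0) → (∀ m t, ‖φ m t‖ ^ 2 ≤ B * (1 + |(m : ℝ)|)) →
      (∀ m t, HasDerivAt (φ m) (D.a m * φ (m + 2) t - conj (D.a (m - 2)) * φ (m - 2) t) t) →
      ∀ t, (∑' m : ℤ, ‖φ m t‖ ^ 2 / (1 + (m : ℝ) ^ 2 / n ^ 2) ^ 2) ≤
        Real.exp (C * |t|) * ∑' m : ℤ, ‖φ m 0‖ ^ 2 / (1 + (m : ℝ) ^ 2 / n ^ 2) ^ 2)
    {n : ℝ} (hn : 1 ≤ n) (g k : G) (hk : k ∈ O) :
    Real.exp (-C) * T D η n g ≤ T D η n (g * k) := by
  obtain ⟨θ, t, φ, ht, rfl⟩ := hKAK k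
  have h1 : t < 1 := by
    unfold O at hk
    have hk' : (rot θ * dil t * rot φ).1 0 0 ^ 2 + (rot θ * dil t * rot φ).1 0 1 ^ 2 +
      (rot θ * dil t * rot φ).1 1 0 ^ 2 + (rot θ * dil t * rot φ).1 1 1 ^ 2 < 2 * Real.cosh 2 := hk
    rw [sum_sq] at hk'
    have h2 : Real.cosh (2 * t) < Real.cosh 2 := by linarith
    rw [Real.cosh_lt_cosh, abs_of_nonneg (by positivity), abs_of_nonneg (by norm_num)] at h2
    linarith
  have h2 := T_dil hUPP h hB hn (g * rot θ * dil t) (-t)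
  have h3 : g * rot θ * dil t * dil (-t) = g * rot θ := by
    rw [mul_assoc (g * rot θ), ← dil_add, add_neg_cancel, dil_zero, mul_one]
  rw [h3, T_rot, abs_neg, abs_of_nonneg ht] at h2
  have h4 : g * (rot θ * dil t * rot φ) = g * rot θ * dil t * rot φ := by
    simp only [mul_assoc]
  rw [h4, T_rot]
  have h5 : Real.exp (C * t) ≤ Real.exp C := Real.exp_le_exp.2 (by nlinarith)
  have h6 : T D η n g ≤ Real.exp C * T D η n (g * rot θ * dil t) :=
    h2.trans (mul_le_mul_of_nonneg_right h5 (T_nonneg _ _))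
  calc Real.exp (-C) * T D η n g ≤ Real.exp (-C) * (Real.exp C * T D η n (g * rot θ * dil t)) :=
        mul_le_mul_of_nonneg_left h6 (Real.exp_nonneg _)
    _ = T D η n (g * rot θ * dil t) := by
        rw [← mul_assoc, ← Real.exp_add, neg_add_cancel, Real.exp_zero, one_mul]

lemma norm_e_le (D : Rep) (m : ℤ) : ‖D.e m‖ ^ 2 ≤ 1 := by
  by_cases hm : m ∈ D.S
  · have h := D.orth m hm m hm
    rw [if_pos rfl, inner_self_eq_norm_sq_to_K] at h
    have h2 : ((‖D.e m‖ ^ 2 : ℝ) : ℂ) = 1 := by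
      push_cast
      exact h
    have h3 : ‖D.e m‖ ^ 2 = 1 := by exact_mod_cast h2
    exact h3.le
  · rw [D.e_out m hm]
    simp

end ModBRT

open ModBRT in
theorem brt (hKAK : StmKAK) (hUPP : StmUPP) (hCONT : StmCONT) (hHAAR : StmHAAR) (hPOS : StmPOS)
    (hSCHUR : StmSCHUR) (hBRA : StmBRA) : StmBRT := by
  intro D Γ F η h
  obtain ⟨C, hC, hB⟩ := hBRA D
  obtain ⟨μ, hμf, hμ0, hμ⟩ := hHAAR Γ F h.discrete h.compact h.cover
  obtain ⟨β, hβ, hsch⟩ := hSCHUR D Γ F η h μ hμf hμ0 hμ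
  obtain ⟨c, hc, hpos⟩ := hPOS Γ F h.compact h.cover μ hμ0 hμ O isOpen_O one_mem_O
  obtain ⟨B, hb⟩ := phi_bound hUPP h
  have hctop : c ≠ ⊤ := ne_top_of_le_ne_top (measure_ne_top μ _) (hpos 1)
  have hc' : 0 < c.toReal := ENNReal.toReal_pos hc.ne' hctop
  refine ⟨25 * (Real.exp C * (β * 5) / c.toReal), by positivity, ?_⟩
  intro n hn g
  have hnn : (1 : ℝ) ≤ n := by exact_mod_cast hn
  have hn0 : (0 : ℝ) < n := by linarith
  have hsum : ∀ g : G, Summable fun m : ℤ => ‖η (D.π g (D.e m))‖ ^ 2 / wt n m := fun g =>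
    summable_wt n hn _ (fun _ => by positivity) (fun m => hb m g)
  -- the integral of T
  have hmeas : ∀ m : ℤ, Measurable fun g : G => ENNReal.ofReal (‖η (D.π g (D.e m))‖ ^ 2) :=
    fun m => ENNReal.measurable_ofReal.comp
      ((phi_cont hCONT h m).norm.pow 2).measurable
  have hT : ∀ g : G, ENNReal.ofReal (T D η n g) =
      ∑' m : ℤ, ENNReal.ofReal (1 / wt n m) * ENNReal.ofReal (‖η (D.π g (D.e m))‖ ^ 2) := by
    intro g
    unfold T
    rw [ENNReal.ofReal_tsum_of_nonneg (fun m => div_nonneg (by positivity) (wt_pos n m).le)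
      (hsum g)]
    apply tsum_congr
    intro m
    rw [← ENNReal.ofReal_mul (div_nonneg zero_le_one (wt_pos n m).le)]
    congr 1
    ring
  have hTm : Measurable fun g : G => ENNReal.ofReal (T D η n g) := by
    have : (fun g : G => ENNReal.ofReal (T D η n g)) = fun g : G =>
        ∑' m : ℤ, ENNReal.ofReal (1 / wt n m) * ENNReal.ofReal (‖η (D.π g (D.e m))‖ ^ 2) :=
      funext hT
    rw [this]
    exact Measurable.tsum fun m => (hmeas m).const_mul _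
  have hint : ∫⁻ g, ENNReal.ofReal (T D η n g) ∂μ ≤ ENNReal.ofReal (β * (5 * n)) := by
    simp_rw [hT]
    rw [lintegral_tsum fun m => ((hmeas m).const_mul _).aemeasurable]
    have h1 : ∀ m : ℤ, ∫⁻ g, ENNReal.ofReal (1 / wt n m) *
        ENNReal.ofReal (‖η (D.π g (D.e m))‖ ^ 2) ∂μ ≤
        ENNReal.ofReal β * ENNReal.ofReal ((n : ℝ) ^ 2 / ((n : ℝ) ^ 2 + (m : ℝ) ^ 2)) := by
      intro m
      rw [lintegral_const_mul _ (hmeas m)]
      have h2 := hsch {m} (fun _ => 1)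
      have h3 : D.vec {m} (fun _ => 1) = D.e m := by
        unfold Rep.vec
        rw [Finset.sum_singleton, one_smul]
      rw [h3] at h2
      rw [h2, mul_comm]
      apply mul_le_mul'
      · apply ENNReal.ofReal_le_ofReal
        exact mul_le_of_le_one_right hβ.le (norm_e_le D m)
      · exact ENNReal.ofReal_le_ofReal (inv_wt_le n hn m)
    refine (ENNReal.tsum_le_tsum h1).trans ?_
    rw [ENNReal.tsum_mul_left, ENNReal.ofReal_mul hβ.le]
    exact mul_le_mul' le_rfl (tsum_int n hn)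
  -- the lower bound
  have hlow : ENNReal.ofReal (Real.exp (-C) * T D η n g) * c ≤ ENNReal.ofReal (β * (5 * n)) := by
    refine le_trans ?_ hint
    refine le_trans ?_ (mul_meas_ge_le_lintegral hTm (ENNReal.ofReal (Real.exp (-C) * T D η n g)))
    apply mul_le_mul' le_rfl
    refine (hpos g).trans (measure_mono ?_)
    rintro x ⟨γ, hγ, k, hk, rfl⟩
    show ENNReal.ofReal (Real.exp (-C) * T D η n g) ≤ ENNReal.ofReal (T D η n (γ * g * k))
    apply ENNReal.ofReal_le_ofReal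
    rw [mul_assoc, T_gamma h n hγ]
    exact T_lower hKAK hUPP h hC hB hnn g k hk
  have hlow2 : Real.exp (-C) * T D η n g * c.toReal ≤ β * (5 * n) := by
    have h1 := ENNReal.toReal_mono ENNReal.ofReal_ne_top hlow
    rw [ENNReal.toReal_mul, ENNReal.toReal_ofReal (mul_nonneg (Real.exp_nonneg _) (T_nonneg _ _)),
      ENNReal.toReal_ofReal (by positivity)] at h1
    exact h1
  have hTle : T D η n g ≤ Real.exp C * (β * 5) / c.toReal * n := by
    rw [div_mul_eq_mul_div, le_div_iff₀ hc']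
    have h1 := mul_le_mul_of_nonneg_left hlow2 (Real.exp_nonneg C)
    have h2 : Real.exp C * (Real.exp (-C) * T D η n g * c.toReal) = T D η n g * c.toReal := by
      rw [← mul_assoc, ← mul_assoc, ← Real.exp_add, add_neg_cancel, Real.exp_zero, one_mul]
    rw [h2] at h1
    linarith
  have hfin : ∑ m ∈ Finset.Icc (-(2 * n : ℤ)) (2 * n), ‖η (D.π g (D.e m))‖ ^ 2 ≤
      25 * T D η n g := by
    have h1 : ∑ m ∈ Finset.Icc (-(2 * n : ℤ)) (2 * n), ‖η (D.π g (D.e m))‖ ^ 2 / wt n m ≤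
        T D η n g :=
      Summable.sum_le_tsum _ (fun m _ => div_nonneg (by positivity) (wt_pos n m).le) (hsum g)
    have h2 : ∀ m ∈ Finset.Icc (-(2 * n : ℤ)) (2 * n), ‖η (D.π g (D.e m))‖ ^ 2 ≤
        25 * (‖η (D.π g (D.e m))‖ ^ 2 / wt n m) := by
      intro m hm
      rw [Finset.mem_Icc] at hm
      have h3 : (m : ℝ) ^ 2 ≤ 4 * (n : ℝ) ^ 2 := by
        have h4 : |(m : ℝ)| ≤ 2 * n := by
          rw [abs_le]
          constructor
          · have := hm.1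
            exact_mod_cast this
          · have := hm.2
            exact_mod_cast this
        rw [← sq_abs]
        nlinarith [abs_nonneg (m : ℝ)]
      have h5 : wt n m ≤ 25 := by
        unfold wt
        have h6 : (m : ℝ) ^ 2 / (n : ℝ) ^ 2 ≤ 4 := by
          rw [div_le_iff₀ (by positivity)]
          exact h3
        have h7 : 0 ≤ (m : ℝ) ^ 2 / (n : ℝ) ^ 2 := by positivity
        nlinarith
      rw [← mul_div_assoc, le_div_iff₀ (wt_pos n m)]
      have := sq_nonneg ‖η (D.π g (D.e m))‖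
      nlinarith
    refine (Finset.sum_le_sum h2).trans ?_
    rw [← Finset.mul_sum]
    linarith
  calc ∑ m ∈ Finset.Icc (-(2 * n : ℤ)) (2 * n), ‖η (D.π g (D.e m))‖ ^ 2 ≤ 25 * T D η n g := hfin
    _ ≤ 25 * (Real.exp C * (β * 5) / c.toReal * n) := by linarith
    _ = _ := by ring

end Pool.Agent.T6.H28.SN
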