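import Pool.Agent.T6.H28.SN.Stm

set_option autoImplicit false

open scoped InnerProductSpace ComplexConjugate Topology ENNReal
open Filter MeasureTheory

namespace Pool.Agent.T6.H28.SN

namespace ModCNT

open Classical in
theorem norm_vec (D : Rep) (A : Finset ℤ) (c : ℤ → ℂ) :
    ‖D.vec A c‖ ^ 2 = ∑ m ∈ A.filter (fun m => m ∈ D.S), ‖c m‖ ^ 2 := by
  have h1 : D.vec A c = ∑ m ∈ A.filter (fun m => m ∈ D.S), c m • D.e m := by
    unfold Rep.vec
    rw [Finset.sum_filter]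
    refine Finset.sum_congr rfl fun m _ => ?_
    split_ifs with h
    · rfl
    · rw [D.e_out m h, smul_zero]
  have h2 : (‖D.vec A c‖ ^ 2 : ℂ) = ((∑ m ∈ A.filter (fun m => m ∈ D.S), ‖c m‖ ^ 2 : ℝ) : ℂ) := by
    have h0 : ⟪D.vec A c, D.vec A c⟫_ℂ = (‖D.vec A c‖ : ℂ) ^ 2 :=
      inner_self_eq_norm_sq_to_K (𝕜 := ℂ) (D.vec A c)
    rw [← h0, h1, sum_inner]
    push_cast
    refine Finset.sum_congr rfl fun m hm => ?_
    rw [inner_sum, Finset.sum_eq_single m]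
    · rw [inner_smul_left, inner_smul_right, D.orth m (Finset.mem_filter.1 hm).2 m
        (Finset.mem_filter.1 hm).2, if_pos rfl, mul_one]
      rw [mul_comm, Complex.mul_conj, Complex.normSq_eq_norm_sq]
      push_cast; rfl
    · intro n hn hnm
      rw [inner_smul_left, inner_smul_right, D.orth m (Finset.mem_filter.1 hm).2 n
        (Finset.mem_filter.1 hn).2, if_neg (Ne.symm hnm)]
      simp
    · intro h; exact absurd hm h
  exact_mod_cast h2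

open Classical in
theorem lower (D : Rep) (n : ℕ) (ε : ℤ → ℝ) (hε : ∀ m, ε m = 1 ∨ ε m = -1) (J : ℕ)
    (f : ℕ → ℤ) (hf : ∀ i j, f i = f j → i = j) (hb : ∀ i < J, f i ∈ blk n ∧ f i ∈ D.S) :
    (J : ℝ) ≤ ‖D.vec (blk n) (fun m => (ε m : ℂ))‖ ^ 2 := by
  rw [norm_vec]
  have h1 : ∀ m ∈ (blk n).filter (fun m => m ∈ D.S), ‖((ε m : ℝ) : ℂ)‖ ^ 2 = 1 := by
    intro m _
    rcases hε m with h | h <;> rw [h] <;> simp
  rw [Finset.sum_congr rfl h1, Finset.sum_const, nsmul_eq_mul, mul_one]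
  have h2 : ((Finset.range J).image f) ⊆ (blk n).filter (fun m => m ∈ D.S) := by
    intro x hx
    obtain ⟨i, hi, rfl⟩ := Finset.mem_image.1 hx
    exact Finset.mem_filter.2 (hb i (Finset.mem_range.1 hi))
  have h3 := Finset.card_le_card h2
  rw [Finset.card_image_of_injective _ (fun i j h => hf i j h), Finset.card_range] at h3
  exact_mod_cast h3

theorem half (n : ℕ) : (n : ℝ) / 4 ≤ ((n / 2 : ℕ) : ℝ) ∨ n < 2 := by
  by_cases h : n < 2
  · exact Or.inr h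
  · left
    have h1 : n ≤ 4 * (n / 2) := by omega
    have h2 : (n : ℝ) ≤ 4 * ((n / 2 : ℕ) : ℝ) := by exact_mod_cast h1
    linarith

theorem mem_blk {n : ℕ} {m : ℤ} : m ∈ blk n ↔ (-(2 * n : ℤ) ≤ m ∧ m ≤ 2 * n) ∧ (n : ℤ) ≤ |m| := by
  unfold blk
  rw [Finset.mem_filter, Finset.mem_Icc]

end ModCNT

open ModCNT in
theorem cnt (hKAP : StmKAP) : StmCNT := by
  intro D
  have h4 := (hKAP D).2.2.2
  -- up case
  have upc : ∀ k : ℤ, (∀ j : ℕ, k + 2 * j ∈ D.S) → ∃ n0 : ℕ, ∀ n : ℕ, n0 ≤ n → ∀ ε : ℤ → ℝ,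
      (∀ m, ε m = 1 ∨ ε m = -1) → (n : ℝ) / 4 ≤ ‖D.vec (blk n) (fun m => (ε m : ℂ))‖ ^ 2 := by
    intro k hk
    refine ⟨k.natAbs + 2, fun n hn ε hε => ?_⟩
    obtain ⟨m0, hm0, hm1⟩ : ∃ m0 : ℤ, (m0 = n ∨ m0 = n + 1) ∧ 2 ∣ m0 - k := by
      rcases Int.emod_two_eq_zero_or_one ((n : ℤ) - k) with h | h
      · exact ⟨n, Or.inl rfl, by omega⟩
      · exact ⟨n + 1, Or.inr rfl, by omega⟩
    have h1 := lower D n ε hε (n / 2) (fun i => m0 + 2 * i) (fun i j h => by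
      have h : m0 + 2 * (i : ℤ) = m0 + 2 * j := h
      omega) (fun i hi => by
        have hi' : 2 * i + 2 ≤ n := by omega
        refine ⟨mem_blk.2 ⟨⟨?_, ?_⟩, ?_⟩, ?_⟩
        · show -(2 * n : ℤ) ≤ m0 + 2 * i
          omega
        · show m0 + 2 * (i : ℤ) ≤ 2 * n
          omega
        · show (n : ℤ) ≤ |m0 + 2 * (i : ℤ)|
          rw [abs_of_nonneg (by omega)]; omega
        · show m0 + 2 * (i : ℤ) ∈ D.S
          obtain ⟨q, hq⟩ := hm1
          have := hk ((q + i).toNat)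
          convert this using 1
          omega)
    rcases half n with h | h
    · exact h.trans h1
    · omega
  have dnc : ∀ k : ℤ, (∀ j : ℕ, k - 2 * j ∈ D.S) → ∃ n0 : ℕ, ∀ n : ℕ, n0 ≤ n → ∀ ε : ℤ → ℝ,
      (∀ m, ε m = 1 ∨ ε m = -1) → (n : ℝ) / 4 ≤ ‖D.vec (blk n) (fun m => (ε m : ℂ))‖ ^ 2 := by
    intro k hk
    refine ⟨k.natAbs + 2, fun n hn ε hε => ?_⟩
    obtain ⟨m0, hm0, hm1⟩ : ∃ m0 : ℤ, (m0 = n ∨ m0 = n + 1) ∧ 2 ∣ m0 + k := by
      rcases Int.emod_two_eq_zero_or_one ((n : ℤ) + k) with h | h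
      · exact ⟨n, Or.inl rfl, by omega⟩
      · exact ⟨n + 1, Or.inr rfl, by omega⟩
    have h1 := lower D n ε hε (n / 2) (fun i => -m0 - 2 * i) (fun i j h => by
      have h : -m0 - 2 * (i : ℤ) = -m0 - 2 * j := h
      omega) (fun i hi => by
        have hi' : 2 * i + 2 ≤ n := by omega
        refine ⟨mem_blk.2 ⟨⟨?_, ?_⟩, ?_⟩, ?_⟩
        · show -(2 * n : ℤ) ≤ -m0 - 2 * i
          omega
        · show -m0 - 2 * (i : ℤ) ≤ 2 * n
          omega
        · show (n : ℤ) ≤ |-m0 - 2 * (i : ℤ)|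
          rw [abs_of_nonpos (by omega)]; omega
        · show -m0 - 2 * (i : ℤ) ∈ D.S
          obtain ⟨q, hq⟩ := hm1
          have := hk ((q + i).toNat)
          convert this using 1
          omega)
    rcases half n with h | h
    · exact h.trans h1
    · omega
  rcases h4 with ⟨k, _, _, _, h⟩ | ⟨k, _, _, _, h⟩ | ⟨k, h⟩
  · exact upc k (fun j => (h _).2 ⟨j, rfl⟩)
  · exact dnc k (fun j => (h _).2 ⟨j, rfl⟩)
  · exact upc k (fun j => (h _).2 ⟨j, rfl⟩)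

end Pool.Agent.T6.H28.SN
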