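import Pool.Agent.T6.H28.SN.Alg

/-!
# CONT: continuity of the action
-/

set_option autoImplicit false

open scoped InnerProductSpace ComplexConjugate Topology ENNReal
open Filter MeasureTheory

namespace Pool.Agent.T6.H28.SN

namespace ModCONT

open ModALG

/-- lower triangular group -/
noncomputable def low (s : ℝ) : G :=
  ⟨!![1, 0; s, 1], by rw [Matrix.det_fin_two_of]; ring⟩

/-- upper triangular group -/
noncomputable def upp (s : ℝ) : G :=
  ⟨!![1, s; 0, 1], by rw [Matrix.det_fin_two_of]; ring⟩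

theorem low_val (s : ℝ) : (low s).1 = !![1, 0; s, 1] := rfl
theorem upp_val (s : ℝ) : (upp s).1 = !![1, s; 0, 1] := rfl

theorem low_oneParam : IsOneParam low !![0, 0; 1, 0] where
  add := by
    intro s t
    apply Subtype.ext
    show (low (s + t)).1 = (low s).1 * (low t).1
    rw [low_val, low_val, low_val, Matrix.mul_fin_two]
    simp
  deriv := by
    intro i j
    fin_cases i <;> fin_cases j
    · exact hasDerivAt_const 0 (1 : ℝ)
    · exact hasDerivAt_const 0 (0 : ℝ)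
    · exact hasDerivAt_id (0 : ℝ)
    · exact hasDerivAt_const 0 (1 : ℝ)

theorem upp_oneParam : IsOneParam upp !![0, 1; 0, 0] where
  add := by
    intro s t
    apply Subtype.ext
    show (upp (s + t)).1 = (upp s).1 * (upp t).1
    rw [upp_val, upp_val, upp_val, Matrix.mul_fin_two]
    simp [add_comm]
  deriv := by
    intro i j
    fin_cases i <;> fin_cases j
    · exact hasDerivAt_const 0 (1 : ℝ)
    · exact hasDerivAt_id (0 : ℝ)
    · exact hasDerivAt_const 0 (0 : ℝ)
    · exact hasDerivAt_const 0 (1 : ℝ)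

/-- Gauss decomposition -/
theorem gauss (h : G) (ha : 0 < h.1 0 0) :
    h = low (h.1 1 0 / h.1 0 0) * (dil (Real.log (h.1 0 0)) * upp (h.1 0 1 / h.1 0 0)) := by
  have hdet : h.1 0 0 * h.1 1 1 - h.1 0 1 * h.1 1 0 = 1 := by
    have := h.2
    rwa [Matrix.det_fin_two] at this
  apply Subtype.ext
  show h.1 = (low (h.1 1 0 / h.1 0 0)).1 *
    ((dil (Real.log (h.1 0 0))).1 * (upp (h.1 0 1 / h.1 0 0)).1)
  rw [low_val, dil_val, upp_val, Matrix.mul_fin_two, Matrix.mul_fin_two, Real.exp_neg,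
    Real.exp_log ha]
  ext i j
  have ha' := ha.ne'
  fin_cases i <;> fin_cases j
  · show h.1 0 0 = 1 * (h.1 0 0 * 1 + 0 * 0) + 0 * (0 * 1 + (h.1 0 0)⁻¹ * 0)
    ring
  · show h.1 0 1 = 1 * (h.1 0 0 * (h.1 0 1 / h.1 0 0) + 0 * 1) +
      0 * (0 * (h.1 0 1 / h.1 0 0) + (h.1 0 0)⁻¹ * 1)
    field_simp
    ring
  · show h.1 1 0 = h.1 1 0 / h.1 0 0 * (h.1 0 0 * 1 + 0 * 0) + 1 * (0 * 1 + (h.1 0 0)⁻¹ * 0)
    field_simp
    ring
  · show h.1 1 1 = h.1 1 0 / h.1 0 0 * (h.1 0 0 * (h.1 0 1 / h.1 0 0) + 0 * 1) +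
      1 * (0 * (h.1 0 1 / h.1 0 0) + (h.1 0 0)⁻¹ * 1)
    field_simp
    linarith

theorem entry_cont (i j : Fin 2) : Continuous fun h : G => h.1 i j :=
  (continuous_subtype_val (p := fun A : Matrix (Fin 2) (Fin 2) ℝ => A.det = 1)).matrix_elem i j

/-! ### The space `E` -/

theorem e_mem (D : Rep) (m : ℤ) : D.e m ∈ D.E := by
  apply Submodule.subset_span
  exact ⟨1, m, by rw [map_one]; rfl⟩

theorem pi_mem (D : Rep) (g : G) (x : D.H) (hx : x ∈ D.E) : D.π g x ∈ D.E := by
  unfold Rep.E at hx ⊢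
  induction hx using Submodule.span_induction with
  | mem x hx =>
    obtain ⟨h, m, rfl⟩ := hx
    apply Submodule.subset_span
    exact ⟨g * h, m, (pi_mul D g h (D.e m)).symm⟩
  | zero => rw [map_zero]; exact zero_mem _
  | add x y _ _ hx hy => rw [map_add]; exact add_mem hx hy
  | smul c x _ hx => rw [map_smul]; exact Submodule.smul_mem _ _ hx

theorem dAct_mem (D : Rep) (X : Matrix (Fin 2) (Fin 2) ℝ) (m : ℤ) : dAct D.a D.e X m ∈ D.E := by
  unfold dAct
  refine add_mem (add_mem ?_ ?_) ?_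
  · exact Submodule.smul_mem _ _ (sub_mem (Submodule.smul_mem _ _ (e_mem D _))
      (Submodule.smul_mem _ _ (e_mem D _)))
  · exact Submodule.smul_mem _ _ (Submodule.smul_mem _ _ (add_mem
      (Submodule.smul_mem _ _ (e_mem D _)) (Submodule.smul_mem _ _ (e_mem D _))))
  · exact Submodule.smul_mem _ _ (Submodule.smul_mem _ _ (e_mem D _))

/-- the estimate near the identity -/
theorem est (hLIP : StmLIP) (D : Rep) (C0 : ℝ) (p : D.H → ℝ) (hp : IsSem D C0 p) (m : ℤ) :
    ∃ P1 P2 P3 : ℝ, ∀ h : G, 0 < h.1 0 0 → p (D.π h (D.e m) - D.e m) ≤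
      P1 * |h.1 0 1 / h.1 0 0| + P2 * |Real.log (h.1 0 0)| + P3 * |h.1 1 0 / h.1 0 0| := by
  set K := |C0| with hK
  have hK0 : 0 ≤ K := abs_nonneg _
  have hbdd : ∀ g, ∀ x ∈ D.E, p (D.π g x) ≤ K * p x := by
    intro g x hx
    exact le_trans (hp.bdd g x hx) (mul_le_mul_of_nonneg_right (le_abs_self _) (hp.nonneg x hx))
  have hlip : ∀ (γ : ℝ → G) (X : Matrix (Fin 2) (Fin 2) ℝ), IsOneParam γ X → ∀ t : ℝ,
      p (D.π (γ t) (D.e m) - D.e m) ≤ K * p (dAct D.a D.e X m) * |t| := by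
    intro γ X hγ t
    refine le_trans (hLIP D C0 p hp γ X hγ m t).1 ?_
    have h1 : 0 ≤ |t| * p (dAct D.a D.e X m) :=
      mul_nonneg (abs_nonneg _) (hp.nonneg _ (dAct_mem D X m))
    have h2 : C0 * (|t| * p (dAct D.a D.e X m)) ≤ K * (|t| * p (dAct D.a D.e X m)) :=
      mul_le_mul_of_nonneg_right (le_abs_self _) h1
    linarith
  refine ⟨K * K * (K * p (dAct D.a D.e !![0, 1; 0, 0] m)),
    K * (K * p (dAct D.a D.e !![1, 0; 0, -1] m)), K * p (dAct D.a D.e !![0, 0; 1, 0] m), ?_⟩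
  intro h ha
  set l := low (h.1 1 0 / h.1 0 0) with hl
  set d := dil (Real.log (h.1 0 0)) with hd
  set u := upp (h.1 0 1 / h.1 0 0) with hu
  have hg : h = l * (d * u) := gauss h ha
  have hE := e_mem D m
  have m1 : D.π u (D.e m) - D.e m ∈ D.E := sub_mem (pi_mem D u _ hE) hE
  have m2 : D.π d (D.e m) - D.e m ∈ D.E := sub_mem (pi_mem D d _ hE) hE
  have m3 : D.π l (D.e m) - D.e m ∈ D.E := sub_mem (pi_mem D l _ hE) hE
  have e1 : D.π h (D.e m) - D.e m = D.π l (D.π d (D.π u (D.e m) - D.e m)) +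
      (D.π l (D.π d (D.e m) - D.e m) + (D.π l (D.e m) - D.e m)) := by
    rw [hg, pi_mul, pi_mul, map_sub, map_sub, map_sub]
    abel
  rw [e1]
  have k1 : D.π l (D.π d (D.π u (D.e m) - D.e m)) ∈ D.E := pi_mem D l _ (pi_mem D d _ m1)
  have k2 : D.π l (D.π d (D.e m) - D.e m) ∈ D.E := pi_mem D l _ m2
  have a1 := hp.add _ k1 _ (add_mem k2 m3)
  have a2 := hp.add _ k2 _ m3
  have b1 := hbdd l _ (pi_mem D d _ m1)
  have b2 := hbdd d _ m1
  have b3 := hbdd l _ m2
  have c1 := hlip upp _ upp_oneParam (h.1 0 1 / h.1 0 0)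
  have c2 := hlip dil _ dil_oneParam (Real.log (h.1 0 0))
  have c3 := hlip low _ low_oneParam (h.1 1 0 / h.1 0 0)
  rw [← hu] at c1
  rw [← hd] at c2
  rw [← hl] at c3
  have d1 : K * p (D.π d (D.π u (D.e m) - D.e m)) ≤
      K * (K * (K * p (dAct D.a D.e !![0, 1; 0, 0] m) * |h.1 0 1 / h.1 0 0|)) :=
    mul_le_mul_of_nonneg_left (le_trans b2 (mul_le_mul_of_nonneg_left c1 hK0)) hK0
  have d2 : K * p (D.π d (D.e m) - D.e m) ≤
      K * (K * p (dAct D.a D.e !![1, 0; 0, -1] m) * |Real.log (h.1 0 0)|) :=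
    mul_le_mul_of_nonneg_left c2 hK0
  calc p (D.π l (D.π d (D.π u (D.e m) - D.e m)) +
      (D.π l (D.π d (D.e m) - D.e m) + (D.π l (D.e m) - D.e m))) ≤
      K * (K * (K * p (dAct D.a D.e !![0, 1; 0, 0] m) * |h.1 0 1 / h.1 0 0|)) +
      K * (K * p (dAct D.a D.e !![1, 0; 0, -1] m) * |Real.log (h.1 0 0)|) +
      K * p (dAct D.a D.e !![0, 0; 1, 0] m) * |h.1 1 0 / h.1 0 0| := by linarith
    _ = _ := by ring

end ModCONT

open ModALG ModCONT in
theorem cont (hLIP : StmLIP) : StmCONT := by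
  intro D C0 p hp x hx
  -- the case of a basis vector
  have hbase : ∀ m : ℤ, Tendsto (fun h : G => p (D.π h (D.e m) - D.e m)) (𝓝 1) (𝓝 0) := by
    intro m
    obtain ⟨P1, P2, P3, hest⟩ := est hLIP D C0 p hp m
    have hone : ∀ i j, ((1 : G).1 i j : ℝ) = (1 : Matrix (Fin 2) (Fin 2) ℝ) i j := fun i j => rfl
    have h00 : ((1 : G).1 0 0 : ℝ) = 1 := rfl
    have h01 : ((1 : G).1 0 1 : ℝ) = 0 := rfl
    have h10 : ((1 : G).1 1 0 : ℝ) = 0 := rfl
    have t00 : Tendsto (fun h : G => h.1 0 0) (𝓝 1) (𝓝 1) := by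
      have := (entry_cont 0 0).tendsto (1 : G)
      rwa [h00] at this
    have t01 : Tendsto (fun h : G => h.1 0 1) (𝓝 1) (𝓝 0) := by
      have := (entry_cont 0 1).tendsto (1 : G)
      rwa [h01] at this
    have t10 : Tendsto (fun h : G => h.1 1 0) (𝓝 1) (𝓝 0) := by
      have := (entry_cont 1 0).tendsto (1 : G)
      rwa [h10] at this
    have q1 : Tendsto (fun h : G => |h.1 0 1 / h.1 0 0|) (𝓝 1) (𝓝 0) := by
      have := (t01.div t00 one_ne_zero).abs
      rwa [zero_div, abs_zero] at this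
    have q2 : Tendsto (fun h : G => |Real.log (h.1 0 0)|) (𝓝 1) (𝓝 0) := by
      have := (t00.log one_ne_zero).abs
      rwa [Real.log_one, abs_zero] at this
    have q3 : Tendsto (fun h : G => |h.1 1 0 / h.1 0 0|) (𝓝 1) (𝓝 0) := by
      have := (t10.div t00 one_ne_zero).abs
      rwa [zero_div, abs_zero] at this
    have q := ((q1.const_mul P1).add (q2.const_mul P2)).add (q3.const_mul P3)
    rw [mul_zero, mul_zero, mul_zero, add_zero, add_zero] at q
    refine squeeze_zero' ?_ ?_ q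
    · exact Filter.Eventually.of_forall (fun h =>
        hp.nonneg _ (sub_mem (pi_mem D h _ (e_mem D m)) (e_mem D m)))
    · filter_upwards [t00.eventually (lt_mem_nhds (show (0 : ℝ) < 1 by norm_num))] with h hh
      exact hest h hh
  have key : ∀ x ∈ D.E, x ∈ D.E ∧ Tendsto (fun h : G => p (D.π h x - x)) (𝓝 1) (𝓝 0) := by
    intro x hx
    unfold Rep.E at hx
    induction hx using Submodule.span_induction with
    | mem x hx =>
      obtain ⟨g, m, rfl⟩ := hx
      refine ⟨pi_mem D g _ (e_mem D m), ?_⟩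
      have hconj : Tendsto (fun h : G => g⁻¹ * h * g) (𝓝 1) (𝓝 1) := by
        have h1 : Continuous fun h : G => g⁻¹ * h * g :=
          (continuous_const.mul continuous_id).mul continuous_const
        have h2 := h1.tendsto (1 : G)
        rwa [mul_one, inv_mul_cancel] at h2
      have h3 := ((hbase m).comp hconj).const_mul C0
      rw [mul_zero] at h3
      refine squeeze_zero' ?_ ?_ h3
      · exact Filter.Eventually.of_forall (fun h =>
          hp.nonneg _ (sub_mem (pi_mem D h _ (pi_mem D g _ (e_mem D m))) (pi_mem D g _ (e_mem D m))))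
      · refine Filter.Eventually.of_forall (fun h => ?_)
        have e1 : D.π h (D.π g (D.e m)) - D.π g (D.e m) =
            D.π g (D.π (g⁻¹ * h * g) (D.e m) - D.e m) := by
          rw [map_sub, ← pi_mul, ← pi_mul]
          congr 3
          rw [← mul_assoc, ← mul_assoc, mul_inv_cancel, one_mul]
        show p (D.π h (D.π g (D.e m)) - D.π g (D.e m)) ≤ C0 * p (D.π (g⁻¹ * h * g) (D.e m) - D.e m)
        rw [e1]
        exact hp.bdd g _ (sub_mem (pi_mem D _ _ (e_mem D m)) (e_mem D m))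
    | zero =>
      refine ⟨zero_mem _, ?_⟩
      have h0 : p 0 = 0 := by
        have := hp.smul 0 0 (zero_mem _)
        rwa [zero_smul, norm_zero, zero_mul] at this
      simp only [map_zero, sub_zero, h0]
      exact tendsto_const_nhds
    | add x y _ _ hx hy =>
      obtain ⟨hx1, hx2⟩ := hx
      obtain ⟨hy1, hy2⟩ := hy
      refine ⟨add_mem hx1 hy1, ?_⟩
      have h3 := hx2.add hy2
      rw [add_zero] at h3
      refine squeeze_zero' ?_ ?_ h3
      · exact Filter.Eventually.of_forall (fun h =>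
          hp.nonneg _ (sub_mem (pi_mem D h _ (add_mem hx1 hy1)) (add_mem hx1 hy1)))
      · refine Filter.Eventually.of_forall (fun h => ?_)
        have e1 : D.π h (x + y) - (x + y) = (D.π h x - x) + (D.π h y - y) := by
          rw [map_add]; abel
        rw [e1]
        exact hp.add _ (sub_mem (pi_mem D h _ hx1) hx1) _ (sub_mem (pi_mem D h _ hy1) hy1)
    | smul c x _ hx =>
      obtain ⟨hx1, hx2⟩ := hx
      refine ⟨Submodule.smul_mem _ _ hx1, ?_⟩
      have h3 := hx2.const_mul ‖c‖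
      rw [mul_zero] at h3
      refine h3.congr (fun h => ?_)
      rw [map_smul, ← smul_sub, hp.smul c _ (sub_mem (pi_mem D h _ hx1) hx1)]
  exact (key x hx).2

end Pool.Agent.T6.H28.SN
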