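import Pool.Agent.T6.H28.SN.Stm

/-! # Module DEC: the decay of the matrix coefficients (MP_bb0caf_al) -/

set_option autoImplicit false

open scoped InnerProductSpace ComplexConjugate Topology ENNReal
open Filter MeasureTheory

namespace Pool.Agent.T6.H28.SN

namespace ModDEC

theorem sh_lower {t : ℝ} (ht : 1 ≤ t) : Real.exp (2 * t) / 4 ≤ Real.sinh (2 * t) := by
  have h2 : 4 ≤ Real.exp (2 * t) := by
    have h3 := Real.add_one_le_exp (t)
    have h4 : Real.exp (2 * t) = Real.exp t * Real.exp t := by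
      rw [← Real.exp_add]
      congr 1
      ring
    nlinarith
  have he : Real.exp (-(2 * t)) * Real.exp (2 * t) = 1 := by
    rw [← Real.exp_add]
    simp
  have hpos := Real.exp_pos (-(2 * t))
  have h1 : Real.exp (-(2 * t)) ≤ 1 / 4 := by nlinarith
  rw [Real.sinh_eq]
  linarith

theorem ch_upper {t : ℝ} (ht : 0 ≤ t) : Real.cosh (2 * t) ≤ Real.exp (2 * t) := by
  have h1 : Real.exp (-(2 * t)) ≤ Real.exp (2 * t) := Real.exp_le_exp.2 (by linarith)
  rw [Real.cosh_eq]
  linarith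

/-- the potential -/
theorem r_bound {m k t : ℝ} (ht : 1 ≤ t) :
    |m ^ 2 - ((m * Real.cosh (2 * t) - k) / Real.sinh (2 * t)) ^ 2| ≤
      16 * (1 + |k|) ^ 2 * (1 + |m|) ^ 2 * Real.exp (-2 * t) := by
  have hs := sh_lower ht
  have hpos := Real.exp_pos (2 * t)
  have hs0 : 0 < Real.sinh (2 * t) := by linarith
  have hc := ch_upper (t := t) (by linarith)
  have hc1 := Real.one_le_cosh (2 * t)
  have hcs := Real.cosh_sq (2 * t)
  have he : Real.exp (-2 * t) * Real.exp (2 * t) = 1 := by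
    rw [← Real.exp_add]
    have : -2 * t + 2 * t = 0 := by ring
    rw [this, Real.exp_zero]
  have e1 : m ^ 2 - ((m * Real.cosh (2 * t) - k) / Real.sinh (2 * t)) ^ 2 =
      (-m ^ 2 + 2 * m * k * Real.cosh (2 * t) - k ^ 2) / Real.sinh (2 * t) ^ 2 := by
    rw [div_pow, eq_div_iff (by positivity), sub_mul, div_mul_cancel₀ _ (by positivity)]
    nlinarith
  rw [e1, abs_div, abs_of_pos (show 0 < Real.sinh (2 * t) ^ 2 by positivity),
    div_le_iff₀ (by positivity)]
  have hm := abs_nonneg m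
  have hk := abs_nonneg k
  have h1 : |-m ^ 2 + 2 * m * k * Real.cosh (2 * t) - k ^ 2| ≤
      (|m| + |k|) ^ 2 * Real.cosh (2 * t) := by
    have g1 : |m * k| = |m| * |k| := abs_mul _ _
    have g2 : m * k ≤ |m| * |k| := by rw [← g1]; exact le_abs_self _
    have g3 : -(|m| * |k|) ≤ m * k := by rw [← g1]; exact neg_abs_le _
    have g4 : m ^ 2 = |m| ^ 2 := (sq_abs m).symm
    have g5 : k ^ 2 = |k| ^ 2 := (sq_abs k).symm
    have g6 : 0 ≤ Real.cosh (2 * t) := by linarith
    have g7 := mul_le_mul_of_nonneg_right g2 g6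
    have g8 := mul_le_mul_of_nonneg_right g3 g6
    have g9 : |m| ^ 2 ≤ |m| ^ 2 * Real.cosh (2 * t) := by nlinarith [sq_nonneg |m|]
    have g10 : |k| ^ 2 ≤ |k| ^ 2 * Real.cosh (2 * t) := by nlinarith [sq_nonneg |k|]
    rw [abs_le]
    constructor
    · rw [g4, g5]
      nlinarith
    · rw [g4, g5]
      nlinarith [sq_nonneg |m|, sq_nonneg |k|]
  have h2 : Real.cosh (2 * t) ≤ 16 * Real.exp (-2 * t) * Real.sinh (2 * t) ^ 2 := by
    have h3 : (Real.exp (2 * t) / 4) ^ 2 ≤ Real.sinh (2 * t) ^ 2 := by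
      apply pow_le_pow_left₀ (by positivity) hs
    have h4 : Real.exp (2 * t) = 16 * Real.exp (-2 * t) * (Real.exp (2 * t) / 4) ^ 2 := by
      have : 16 * Real.exp (-2 * t) * (Real.exp (2 * t) / 4) ^ 2 =
        (Real.exp (-2 * t) * Real.exp (2 * t)) * Real.exp (2 * t) := by ring
      rw [this, he, one_mul]
    calc Real.cosh (2 * t) ≤ Real.exp (2 * t) := hc
      _ = 16 * Real.exp (-2 * t) * (Real.exp (2 * t) / 4) ^ 2 := h4
      _ ≤ _ := mul_le_mul_of_nonneg_left h3 (by positivity)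
  have h5 : (|m| + |k|) ^ 2 ≤ (1 + |k|) ^ 2 * (1 + |m|) ^ 2 := by
    rw [← mul_pow]
    apply pow_le_pow_left₀ (by positivity)
    nlinarith
  calc |-m ^ 2 + 2 * m * k * Real.cosh (2 * t) - k ^ 2|
      ≤ (|m| + |k|) ^ 2 * Real.cosh (2 * t) := h1
    _ ≤ ((1 + |k|) ^ 2 * (1 + |m|) ^ 2) * (16 * Real.exp (-2 * t) * Real.sinh (2 * t) ^ 2) := by
      apply mul_le_mul h5 h2 (by linarith) (by positivity)
    _ = _ := by ring

/-- the exceptional (discrete series) case, abstract form -/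
theorem abs_case (K : ℕ) (hK : 1 ≤ K) (d : ℕ → ℝ → ℂ) (A : ℕ → ℂ)
    (h0 : ∀ j, d j 0 = if j = 0 then 1 else 0)
    (hA : ∀ j : ℕ, 4 * ‖A j‖ ^ 2 = ((K : ℝ) + 2 * j + 1) ^ 2 - ((K : ℝ) - 1) ^ 2)
    (hd0 : ∀ t, HasDerivAt (d 0) (-(A 0 * d 1 t)) t)
    (e0 : ∀ t : ℝ, (K : ℂ) * Real.cosh (2 * t) * d 0 t - Real.sinh (2 * t) * (A 0 * d 1 t) =
      (K : ℂ) * d 0 t)
    (e1 : ∀ (j : ℕ) (t : ℝ), ((K : ℂ) + 2 * ((j : ℂ) + 1)) * Real.cosh (2 * t) * d (j + 1) t -
      Real.sinh (2 * t) * (A (j + 1) * d (j + 2) t + conj (A j) * d j t) =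
      (K : ℂ) * d (j + 1) t) :
    ∀ (j : ℕ) (t : ℝ), 0 ≤ t → ‖d j t‖ ≤ 2 ^ K * ((j : ℝ) + 1) ^ K * Real.exp (-(1 * t)) := by
  -- the recursion
  have hrec : ∀ (j : ℕ) (t : ℝ), A j * d (j + 1) t =
      (Real.tanh t : ℂ) * ((K : ℂ) + j) * d j t := by
    intro j
    induction j with
    | zero =>
      intro t
      by_cases ht : t = 0
      · subst ht
        rw [h0, h0]
        simp
      have hs : Real.sinh t ≠ 0 := by
        intro h
        exact ht (Real.sinh_eq_zero.1 h)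
      have hc : Real.cosh t ≠ 0 := (Real.cosh_pos t).ne'
      have hsC : (Real.sinh t : ℂ) ≠ 0 := by exact_mod_cast hs
      have hcC : (Real.cosh t : ℂ) ≠ 0 := by exact_mod_cast hc
      have h := e0 t
      have g1 : (Real.cosh (2 * t) : ℂ) = 1 + 2 * (Real.sinh t : ℂ) ^ 2 := by
        have : Real.cosh (2 * t) = 1 + 2 * Real.sinh t ^ 2 := by
          rw [Real.cosh_two_mul, Real.cosh_sq]
          ring
        rw [this]
        push_cast
        ring
      have g2 : (Real.sinh (2 * t) : ℂ) = 2 * Real.sinh t * Real.cosh t := by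
        rw [Real.sinh_two_mul]
        push_cast
        ring
      rw [g1, g2] at h
      have g3 : (Real.tanh t : ℂ) = Real.sinh t / Real.cosh t := by
        rw [Real.tanh_eq_sinh_div_cosh]
        push_cast
        ring
      rw [g3]
      have h2 : (2 * (Real.sinh t : ℂ)) * ((Real.cosh t : ℂ) * (A 0 * d 1 t)) =
          (2 * (Real.sinh t : ℂ)) * ((Real.sinh t : ℂ) * K * d 0 t) := by
        linear_combination -h
      have h3 := mul_left_cancel₀ (mul_ne_zero two_ne_zero hsC) h2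
      simp only [Nat.cast_zero, add_zero, zero_add]
      rw [div_mul_eq_mul_div, div_mul_eq_mul_div, eq_div_iff hcC]
      linear_combination h3
    | succ j ih =>
      intro t
      by_cases ht : t = 0
      · subst ht
        rw [h0, h0]
        simp
      have hs : Real.sinh t ≠ 0 := by
        intro h
        exact ht (Real.sinh_eq_zero.1 h)
      have hc : Real.cosh t ≠ 0 := (Real.cosh_pos t).ne'
      have hsC : (Real.sinh t : ℂ) ≠ 0 := by exact_mod_cast hs
      have hcC : (Real.cosh t : ℂ) ≠ 0 := by exact_mod_cast hc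
      have h := e1 j t
      have hcs : (Real.cosh t : ℂ) ^ 2 = (Real.sinh t : ℂ) ^ 2 + 1 := by
        exact_mod_cast Real.cosh_sq t
      have g1 : (Real.cosh (2 * t) : ℂ) = 1 + 2 * (Real.sinh t : ℂ) ^ 2 := by
        have : Real.cosh (2 * t) = 1 + 2 * Real.sinh t ^ 2 := by
          rw [Real.cosh_two_mul, Real.cosh_sq]
          ring
        rw [this]
        push_cast
        ring
      have g2 : (Real.sinh (2 * t) : ℂ) = 2 * Real.sinh t * Real.cosh t := by
        rw [Real.sinh_two_mul]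
        push_cast
        ring
      have g3 : (Real.tanh t : ℂ) = Real.sinh t / Real.cosh t := by
        rw [Real.tanh_eq_sinh_div_cosh]
        push_cast
        ring
      have ihj := ih t
      -- conj (A j) * d j = coth t * (j + 1) * d (j+1)
      have hAj : (4 : ℂ) * (conj (A j) * A j) = (2 * (j : ℂ) + 2) * (2 * K + 2 * j) := by
        have h1 := hA j
        have h2 : (conj (A j) * A j) = ((‖A j‖ ^ 2 : ℝ) : ℂ) := by
          rw [← Complex.normSq_eq_conj_mul_self, Complex.normSq_eq_norm_sq]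
        rw [h2]
        have h3 : 4 * ‖A j‖ ^ 2 = (2 * (j : ℝ) + 2) * (2 * K + 2 * j) := by
          rw [h1]
          ring
        exact_mod_cast h3
      have hKj : ((K : ℂ) + j) ≠ 0 := by
        have : ((K + j : ℕ) : ℂ) ≠ 0 := by
          rw [Nat.cast_ne_zero]
          omega
        push_cast at this
        exact this
      have x1 : (Real.cosh t : ℂ) * ((j : ℂ) + 1) * d (j + 1) t =
          (Real.sinh t : ℂ) * (conj (A j) * d j t) := by
        have y1 : (Real.cosh t : ℂ) * (A j * d (j + 1) t) =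
            (Real.sinh t : ℂ) * ((K : ℂ) + j) * d j t := by
          rw [ihj, g3]
          field_simp
        have y2 : ((K : ℂ) + j) * ((Real.cosh t : ℂ) * ((j : ℂ) + 1) * d (j + 1) t) =
            ((K : ℂ) + j) * ((Real.sinh t : ℂ) * (conj (A j) * d j t)) := by
          linear_combination conj (A j) * y1 - (Real.cosh t : ℂ) * d (j + 1) t / 4 * hAj
        exact mul_left_cancel₀ hKj y2
      rw [g1, g2] at h
      rw [g3]
      have h2 : (2 * (Real.sinh t : ℂ)) * ((Real.cosh t : ℂ) * (A (j + 1) * d (j + 2) t)) =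
          (2 * (Real.sinh t : ℂ)) * ((Real.sinh t : ℂ) * (K + (j + 1)) * d (j + 1) t) := by
        linear_combination -h + 2 * (Real.cosh t : ℂ) * x1 - 2 * ((j : ℂ) + 1) * d (j + 1) t * hcs
      have h3 := mul_left_cancel₀ (mul_ne_zero two_ne_zero hsC) h2
      have hjc : ((j + 1 : ℕ) : ℂ) = (j : ℂ) + 1 := by push_cast; ring
      rw [hjc]
      show A (j + 1) * d (j + 2) t = _
      rw [div_mul_eq_mul_div, div_mul_eq_mul_div, eq_div_iff hcC]
      linear_combination h3
  -- the first function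
  have d0 : ∀ t : ℝ, d 0 t * (Real.cosh t : ℂ) ^ K = 1 := by
    have hg : ∀ t : ℝ, HasDerivAt (fun t : ℝ => d 0 t * (Real.cosh t : ℂ) ^ K) 0 t := by
      intro t
      have h1 : HasDerivAt (fun t : ℝ => (Real.cosh t : ℂ)) (Real.sinh t : ℂ) t :=
        (Real.hasDerivAt_cosh t).ofReal_comp
      have h2 : HasDerivAt (fun t : ℝ => d 0 t * (Real.cosh t : ℂ) ^ K)
          (-(A 0 * d 1 t) * (Real.cosh t : ℂ) ^ K +
            d 0 t * ((K : ℂ) * (Real.cosh t : ℂ) ^ (K - 1) * (Real.sinh t : ℂ))) t :=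
        (hd0 t).mul (h1.pow K)
      refine h2.congr_deriv ?_
      have hcC : (Real.cosh t : ℂ) ≠ 0 := by exact_mod_cast (Real.cosh_pos t).ne'
      have g3 : (Real.tanh t : ℂ) = Real.sinh t / Real.cosh t := by
        rw [Real.tanh_eq_sinh_div_cosh]
        push_cast
        ring
      have h3 := hrec 0 t
      simp only [zero_add, Nat.cast_zero, add_zero] at h3
      rw [h3, g3]
      obtain ⟨K', rfl⟩ : ∃ K', K = K' + 1 := ⟨K - 1, by omega⟩
      simp only [Nat.add_sub_cancel]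
      rw [pow_succ]
      field_simp
      ring
    intro t
    have h1 : d 0 t * (Real.cosh t : ℂ) ^ K = d 0 0 * (Real.cosh 0 : ℂ) ^ K :=
      is_const_of_deriv_eq_zero (f := fun t : ℝ => d 0 t * (Real.cosh t : ℂ) ^ K)
        (fun t => (hg t).differentiableAt) (fun t => (hg t).deriv) t 0
    rw [h1, h0]
    simp
  have d0n : ∀ t : ℝ, 0 ≤ t → ‖d 0 t‖ ≤ 2 ^ K * Real.exp (-(1 * t)) := by
    intro t ht
    have h1 := congrArg norm (d0 t)
    rw [norm_mul, norm_pow, Complex.norm_real, norm_one, Real.norm_of_nonneg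
      (Real.cosh_pos t).le] at h1
    have h2 : Real.exp t / 2 ≤ Real.cosh t := by
      rw [Real.cosh_eq]
      have := Real.exp_pos (-t)
      linarith
    have h3 : Real.exp t / 2 ^ K ≤ Real.cosh t ^ K := by
      calc Real.exp t / 2 ^ K ≤ (Real.exp t) ^ K / 2 ^ K := by
            gcongr
            have h4 : 1 ≤ Real.exp t := Real.one_le_exp ht
            calc Real.exp t = Real.exp t ^ 1 := (pow_one _).symm
              _ ≤ _ := pow_le_pow_right₀ h4 hK
        _ = (Real.exp t / 2) ^ K := (div_pow _ _ _).symm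
        _ ≤ _ := pow_le_pow_left₀ (by positivity) h2 K
    have h5 : 0 ≤ ‖d 0 t‖ := norm_nonneg _
    have h6 : ‖d 0 t‖ * (Real.exp t / 2 ^ K) ≤ 1 := by
      rw [← h1]
      exact mul_le_mul_of_nonneg_left h3 h5
    rw [one_mul, Real.exp_neg]
    have h7 := Real.exp_pos t
    rw [← div_eq_mul_inv, le_div_iff₀ h7]
    have h8 : (0 : ℝ) < 2 ^ K := by positivity
    rw [mul_div_assoc', div_le_iff₀ h8] at h6
    linarith
  -- the bound by induction
  have step : ∀ (j : ℕ) (t : ℝ), 0 ≤ t → ‖d (j + 1) t‖ ^ 2 * ((j : ℝ) + 1) ≤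
      ((K : ℝ) + j) * ‖d j t‖ ^ 2 := by
    intro j t ht
    have h1 := congrArg norm (hrec j t)
    rw [norm_mul, norm_mul, norm_mul, Complex.norm_real] at h1
    have h2 : ‖(K : ℂ) + j‖ = (K : ℝ) + j := by
      have : ((K : ℂ) + j) = (((K : ℝ) + j : ℝ) : ℂ) := by push_cast; ring
      rw [this, Complex.norm_real, Real.norm_of_nonneg (by positivity)]
    rw [h2] at h1
    have h3 : ‖Real.tanh t‖ ≤ 1 := (Real.abs_tanh_lt_one t).le
    have hKj : (0 : ℝ) < (K : ℝ) + j := by
      have : (1 : ℝ) ≤ K := by exact_mod_cast hK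
      positivity
    have h4 : ‖A j‖ * ‖d (j + 1) t‖ ≤ ((K : ℝ) + j) * ‖d j t‖ := by
      rw [h1]
      have h5 : 0 ≤ ((K : ℝ) + j) * ‖d j t‖ := by positivity
      calc ‖Real.tanh t‖ * ((K : ℝ) + j) * ‖d j t‖ = ‖Real.tanh t‖ * (((K : ℝ) + j) * ‖d j t‖) := by
            ring
        _ ≤ 1 * (((K : ℝ) + j) * ‖d j t‖) := mul_le_mul_of_nonneg_right h3 h5
        _ = _ := one_mul _
    have h6 : (‖A j‖ * ‖d (j + 1) t‖) ^ 2 ≤ (((K : ℝ) + j) * ‖d j t‖) ^ 2 :=
      pow_le_pow_left₀ (by positivity) h4 2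
    have h7 : ‖A j‖ ^ 2 = ((j : ℝ) + 1) * ((K : ℝ) + j) := by
      have := hA j
      linarith [this, show ((K : ℝ) + 2 * j + 1) ^ 2 - ((K : ℝ) - 1) ^ 2 =
        4 * (((j : ℝ) + 1) * ((K : ℝ) + j)) by ring]
    rw [mul_pow, mul_pow, h7] at h6
    have h8 : ((K : ℝ) + j) * (‖d (j + 1) t‖ ^ 2 * ((j : ℝ) + 1)) ≤
        ((K : ℝ) + j) * (((K : ℝ) + j) * ‖d j t‖ ^ 2) := by nlinarith
    exact le_of_mul_le_mul_left h8 hKj
  have bound : ∀ (j : ℕ) (t : ℝ), 0 ≤ t → ‖d j t‖ ^ 2 ≤ ((j : ℝ) + 1) ^ K * ‖d 0 t‖ ^ 2 := by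
    intro j t ht
    induction j with
    | zero => simp
    | succ j ih =>
      have h1 := step j t ht
      have hj : (0 : ℝ) < (j : ℝ) + 1 := by positivity
      have h2 : ((K : ℝ) + j) * ((j : ℝ) + 1) ^ K ≤ ((j : ℝ) + 1) * ((j : ℝ) + 1 + 1) ^ K := by
        have h3 := one_add_mul_le_pow (a := 1 / ((j : ℝ) + 1)) (by
          have : 0 < 1 / ((j : ℝ) + 1) := by positivity
          linarith) K
        have h4 : ((j : ℝ) + 1 + 1) = ((j : ℝ) + 1) * (1 + 1 / ((j : ℝ) + 1)) := by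
          field_simp
        rw [h4, mul_pow]
        have h5 : (K : ℝ) + j ≤ ((j : ℝ) + 1) * (1 + K * (1 / ((j : ℝ) + 1))) := by
          have : ((j : ℝ) + 1) * (1 + K * (1 / ((j : ℝ) + 1))) = (j : ℝ) + 1 + K := by
            field_simp
          rw [this]
          linarith
        have h6 : (0 : ℝ) ≤ ((j : ℝ) + 1) ^ K := by positivity
        calc ((K : ℝ) + j) * ((j : ℝ) + 1) ^ K
            ≤ (((j : ℝ) + 1) * (1 + K * (1 / ((j : ℝ) + 1)))) * ((j : ℝ) + 1) ^ K :=
              mul_le_mul_of_nonneg_right h5 h6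
          _ ≤ (((j : ℝ) + 1) * (1 + 1 / ((j : ℝ) + 1)) ^ K) * ((j : ℝ) + 1) ^ K := by
              apply mul_le_mul_of_nonneg_right _ h6
              exact mul_le_mul_of_nonneg_left h3 hj.le
          _ = _ := by ring
      push_cast
      have h7 : ((j : ℝ) + 1) * ‖d (j + 1) t‖ ^ 2 ≤
          ((j : ℝ) + 1) * (((j : ℝ) + 1 + 1) ^ K * ‖d 0 t‖ ^ 2) := by
        have h8 : 0 ≤ ‖d 0 t‖ ^ 2 := by positivity
        have hKj : (0 : ℝ) ≤ (K : ℝ) + j := by positivity
        calc ((j : ℝ) + 1) * ‖d (j + 1) t‖ ^ 2 ≤ ((K : ℝ) + j) * ‖d j t‖ ^ 2 := by linarith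
          _ ≤ ((K : ℝ) + j) * (((j : ℝ) + 1) ^ K * ‖d 0 t‖ ^ 2) :=
              mul_le_mul_of_nonneg_left ih hKj
          _ = (((K : ℝ) + j) * ((j : ℝ) + 1) ^ K) * ‖d 0 t‖ ^ 2 := by ring
          _ ≤ (((j : ℝ) + 1) * ((j : ℝ) + 1 + 1) ^ K) * ‖d 0 t‖ ^ 2 :=
              mul_le_mul_of_nonneg_right h2 h8
          _ = _ := by ring
      exact le_of_mul_le_mul_left h7 hj
  intro j t ht
  have h1 := bound j t ht
  have h2 : (1 : ℝ) ≤ ((j : ℝ) + 1) ^ K := one_le_pow₀ (by
    have : (0 : ℝ) ≤ j := by positivity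
    linarith)
  have h3 : ‖d j t‖ ^ 2 ≤ (((j : ℝ) + 1) ^ K * ‖d 0 t‖) ^ 2 := by
    rw [mul_pow]
    refine h1.trans (mul_le_mul_of_nonneg_right ?_ (by positivity))
    nlinarith
  have h4 : ‖d j t‖ ≤ ((j : ℝ) + 1) ^ K * ‖d 0 t‖ :=
    le_of_sq_le_sq h3 (by positivity)
  calc ‖d j t‖ ≤ ((j : ℝ) + 1) ^ K * ‖d 0 t‖ := h4
    _ ≤ ((j : ℝ) + 1) ^ K * (2 ^ K * Real.exp (-(1 * t))) :=
      mul_le_mul_of_nonneg_left (d0n t ht) (by positivity)
    _ = _ := by ring

/-- the principal case: the second derivative -/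
theorem second (D : Rep) (k : ℤ) (κ : ℝ) (m : ℤ)
    (h1 : 4 * ‖D.a m‖ ^ 2 = ((m : ℝ) + 1) ^ 2 - κ)
    (h2 : 4 * ‖D.a (m - 2)‖ ^ 2 = ((m : ℝ) - 1) ^ 2 - κ)
    (hd : ∀ (m : ℤ) (t : ℝ), HasDerivAt (fun t => mc D k m t)
      (D.a (m - 2) * mc D k (m - 2) t - conj (D.a m) * mc D k (m + 2) t) t)
    (hv : ∀ (m : ℤ) (t : ℝ), (m : ℂ) * Real.cosh (2 * t) * mc D k m t -
      Real.sinh (2 * t) * (conj (D.a m) * mc D k (m + 2) t + D.a (m - 2) * mc D k (m - 2) t) =
        (k : ℂ) * mc D k m t) (t : ℝ) (ht : 1 ≤ t) :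
    HasDerivAt (fun t => D.a (m - 2) * mc D k (m - 2) t - conj (D.a m) * mc D k (m + 2) t)
      (-(2 * (Real.cosh (2 * t) / Real.sinh (2 * t) : ℝ) *
        (D.a (m - 2) * mc D k (m - 2) t - conj (D.a m) * mc D k (m + 2) t)) -
        (((1 - κ) + ((m : ℝ) ^ 2 - (((m : ℝ) * Real.cosh (2 * t) - k) / Real.sinh (2 * t)) ^ 2) : ℝ) : ℂ)
          * mc D k m t) t := by
  have g1 := (hd (m - 2) t).const_mul (D.a (m - 2))
  have g2 := (hd (m + 2) t).const_mul (conj (D.a m))
  refine (g1.sub g2).congr_deriv ?_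
  have hs0 : 0 < Real.sinh (2 * t) := by
    have := sh_lower ht
    have := Real.exp_pos (2 * t)
    linarith
  have hsC : (Real.sinh (2 * t) : ℂ) ≠ 0 := by exact_mod_cast hs0.ne'
  have v1 := hv (m - 2) t
  have v2 := hv (m + 2) t
  have v0 := hv m t
  have e1 : m - 2 + 2 = m := by ring
  have e2 : m + 2 - 2 = m := by ring
  rw [e1] at v1 ⊢
  rw [e2] at v2 ⊢
  have k1 : (4 : ℂ) * (conj (D.a m) * D.a m) = ((m : ℂ) + 1) ^ 2 - κ := by
    have h3 : (conj (D.a m) * D.a m) = ((‖D.a m‖ ^ 2 : ℝ) : ℂ) := by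
      rw [← Complex.normSq_eq_conj_mul_self, Complex.normSq_eq_norm_sq]
    rw [h3]
    exact_mod_cast h1
  have k2 : (4 : ℂ) * (conj (D.a (m - 2)) * D.a (m - 2)) = ((m : ℂ) - 1) ^ 2 - κ := by
    have h3 : (conj (D.a (m - 2)) * D.a (m - 2)) = ((‖D.a (m - 2)‖ ^ 2 : ℝ) : ℂ) := by
      rw [← Complex.normSq_eq_conj_mul_self, Complex.normSq_eq_norm_sq]
    rw [h3]
    exact_mod_cast h2
  have c1 : ((Real.cosh (2 * t) / Real.sinh (2 * t) : ℝ) : ℂ) =
      (Real.cosh (2 * t) : ℂ) / (Real.sinh (2 * t) : ℂ) := Complex.ofReal_div _ _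
  have c2 : (((1 - κ) + ((m : ℝ) ^ 2 - (((m : ℝ) * Real.cosh (2 * t) - k) /
      Real.sinh (2 * t)) ^ 2) : ℝ) : ℂ) =
      (1 - (κ : ℂ)) + ((m : ℂ) ^ 2 - (((m : ℂ) * (Real.cosh (2 * t) : ℂ) - k) /
      (Real.sinh (2 * t) : ℂ)) ^ 2) := by
    simp only [Complex.ofReal_add, Complex.ofReal_sub, Complex.ofReal_one, Complex.ofReal_pow,
      Complex.ofReal_div, Complex.ofReal_mul, Complex.ofReal_intCast]
  rw [c1, c2]
  have w1 : ((m - 2 : ℤ) : ℂ) = (m : ℂ) - 2 := by push_cast; ring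
  have w2 : ((m + 2 : ℤ) : ℂ) = (m : ℂ) + 2 := by push_cast; ring
  rw [w1] at v1
  rw [w2] at v2
  generalize (Real.sinh (2 * t) : ℂ) = s at *
  generalize (Real.cosh (2 * t) : ℂ) = c at *
  generalize mc D k m t = x0 at *
  generalize mc D k (m - 2) t = xm at *
  generalize mc D k (m + 2) t = xp at *
  generalize mc D k (m - 2 - 2) t = xmm at *
  generalize mc D k (m + 2 + 2) t = xpp at *
  generalize D.a (m - 2 - 2) = amm at *
  generalize D.a (m + 2) = ap at *
  generalize conj ap = ap' at *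
  have hx1 : conj (D.a (m - 2)) * D.a (m - 2) = D.a (m - 2) * conj (D.a (m - 2)) := by ring
  generalize conj (D.a (m - 2)) = am' at *
  generalize D.a (m - 2) = am at *
  generalize conj (D.a m) = a' at *
  generalize D.a m = a at *
  have key : s ^ 2 * (am * (amm * xmm - am' * x0) - a' * (a * x0 - ap' * xpp)) =
      s ^ 2 * (-(2 * (c / s) * (am * xm - a' * xp)) -
        ((1 - (κ : ℂ)) + ((m : ℂ) ^ 2 - (((m : ℂ) * c - k) / s) ^ 2)) * x0) := by
    have y1 : s ^ 2 * (-(2 * (c / s) * (am * xm - a' * xp)) -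
        ((1 - (κ : ℂ)) + ((m : ℂ) ^ 2 - (((m : ℂ) * c - k) / s) ^ 2)) * x0) =
        -(2 * c * s * (am * xm - a' * xp)) - s ^ 2 * ((1 - (κ : ℂ)) + (m : ℂ) ^ 2) * x0 +
          ((m : ℂ) * c - k) ^ 2 * x0 := by
      field_simp
      ring
    rw [y1]
    linear_combination (-s * am) * v1 + (-s * a') * v2 + (-((m : ℂ) * c - k)) * v0 -
      s ^ 2 * x0 / 2 * k1 - s ^ 2 * x0 / 2 * k2
  exact mul_left_cancel₀ (pow_ne_zero 2 hsC) key

end ModDEC

/-- DEC -/
theorem dec (hALG : StmALG) (hKAP : StmKAP) (hDECA : StmDECA) : StmDEC := by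
  intro D
  obtain ⟨⟨κ, hκ⟩, ⟨C, hC⟩, -, hshape⟩ := hKAP D
  by_cases hk1 : κ < 1
  · obtain ⟨k, hk⟩ := D.nonempty
    obtain ⟨hout, hbes, h00, hd, hv⟩ := hALG D k hk
    obtain ⟨α, C0, N0, hα, hdec⟩ := hDECA (1 - κ) (by linarith)
    have hC0 : 0 ≤ C := by
      have := hC 0
      have h2 := norm_nonneg (D.a 0)
      simp only [Int.cast_zero, abs_zero, add_zero, mul_one] at this
      linarith
    have hcoef : ∀ (m : ℤ) (t : ℝ), ‖mc D k m t‖ ≤ 1 := by
      intro m t
      have h := hbes {m} t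
      rw [Finset.sum_singleton] at h
      nlinarith [norm_nonneg (mc D k m t)]
    set K : ℝ := 16 * (1 + |(k : ℝ)|) ^ 2 + 4 * C with hK
    have hK1 : 1 ≤ K := by
      have := abs_nonneg (k : ℝ)
      nlinarith
    refine ⟨k, hk, α, |C0| * K ^ N0, 2 * N0, hα, ?_⟩
    intro m t ht
    by_cases hm : m ∈ D.S
    · obtain ⟨hm1, hm2⟩ := hκ m hm
      have hmm := abs_nonneg (m : ℝ)
      have hone : 1 ≤ (1 + |(m : ℝ)|) ^ 2 := by nlinarith
      have hres := hdec (K * (1 + |(m : ℝ)|) ^ 2) (fun t => mc D k m t)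
        (fun t => D.a (m - 2) * mc D k (m - 2) t - conj (D.a m) * mc D k (m + 2) t)
        (fun t => (m : ℝ) ^ 2 - (((m : ℝ) * Real.cosh (2 * t) - k) / Real.sinh (2 * t)) ^ 2)
        (by nlinarith) (fun t => hd m t)
        (fun t ht => ModDEC.second D k κ m hm1 hm2 hd hv t ht)
        (fun t ht => by
          refine (ModDEC.r_bound (m := m) (k := k) ht).trans ?_
          refine mul_le_mul_of_nonneg_right ?_ (Real.exp_pos _).le
          refine mul_le_mul_of_nonneg_right ?_ (by positivity)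
          linarith)
        (fun t => hcoef m t)
        (fun t => by
          have b1 := hC (m - 2)
          have b2 := hC m
          have b3 := hcoef (m - 2) t
          have b4 := hcoef (m + 2) t
          have b5 : |((m - 2 : ℤ) : ℝ)| ≤ |(m : ℝ)| + 2 := by
            push_cast
            calc |(m : ℝ) - 2| ≤ |(m : ℝ)| + |(2 : ℝ)| := abs_sub _ _
              _ = _ := by norm_num
          have b6 : ‖D.a (m - 2)‖ ≤ 3 * C * (1 + |(m : ℝ)|) := by
            refine b1.trans ?_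
            nlinarith
          calc ‖D.a (m - 2) * mc D k (m - 2) t - conj (D.a m) * mc D k (m + 2) t‖
              ≤ ‖D.a (m - 2) * mc D k (m - 2) t‖ + ‖conj (D.a m) * mc D k (m + 2) t‖ :=
                norm_sub_le _ _
            _ = ‖D.a (m - 2)‖ * ‖mc D k (m - 2) t‖ + ‖D.a m‖ * ‖mc D k (m + 2) t‖ := by
                rw [norm_mul, norm_mul, RCLike.norm_conj]
            _ ≤ ‖D.a (m - 2)‖ * 1 + ‖D.a m‖ * 1 :=
                add_le_add (mul_le_mul_of_nonneg_left b3 (norm_nonneg _))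
                  (mul_le_mul_of_nonneg_left b4 (norm_nonneg _))
            _ ≤ 4 * C * (1 + |(m : ℝ)|) := by linarith
            _ ≤ K * (1 + |(m : ℝ)|) ^ 2 := by
                have c1 : 4 * C ≤ K := by
                  rw [hK]
                  have : 0 ≤ 16 * (1 + |(k : ℝ)|) ^ 2 := by positivity
                  linarith
                have c2 : (1 + |(m : ℝ)|) ≤ (1 + |(m : ℝ)|) ^ 2 := by nlinarith
                exact mul_le_mul c1 c2 (by positivity) (by linarith))
        t ht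
      refine hres.trans ?_
      refine mul_le_mul_of_nonneg_right ?_ (Real.exp_pos _).le
      have e1 : (K * (1 + |(m : ℝ)|) ^ 2) ^ N0 = K ^ N0 * (1 + |(m : ℝ)|) ^ (2 * N0) := by
        rw [mul_pow, ← pow_mul]
      rw [e1, mul_assoc]
      exact mul_le_mul_of_nonneg_right (le_abs_self _) (by positivity)
    · rw [hout m t hm, norm_zero]
      positivity
  · have hκ1 : 1 ≤ κ := not_lt.1 hk1
    rcases hshape with ⟨k, hk, hk2, hk1', hS⟩ | ⟨k, hk, hk2, hk1', hS⟩ | ⟨k, hS⟩
    · -- holomorphic discrete series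
      obtain ⟨hout, hbes, h00, hd, hv⟩ := hALG D k hk
      have ha0 : D.a (k - 2) = 0 := by
        by_contra h
        exact hk2 ((D.a_ne (k - 2)).1 h).1
      have hκe : κ = ((k : ℝ) - 1) ^ 2 := by
        have := (hκ k hk).2
        rw [ha0, norm_zero] at this
        linarith
      obtain ⟨K, rfl⟩ : ∃ K : ℕ, k = (K : ℤ) := ⟨k.toNat, by omega⟩
      have hK1 : 1 ≤ K := by omega
      have hmain := ModDEC.abs_case K hK1 (fun j t => mc D K (K + 2 * j) t)
        (fun j => conj (D.a (K + 2 * j)))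
        (fun j => by
          rw [h00]
          by_cases hj : j = 0
          · subst hj
            simp
          · rw [if_neg hj, if_neg]
            omega)
        (fun j => by
          have h1 := (hκ (K + 2 * j) ((hS _).2 ⟨j, rfl⟩)).1
          rw [RCLike.norm_conj, h1, hκe]
          push_cast
          ring)
        (fun t => by
          have h1 := hd K t
          rw [ha0, zero_mul, zero_sub] at h1
          simpa using h1)
        (fun t => by
          have h1 := hv K t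
          rw [ha0, zero_mul, add_zero] at h1
          simpa using h1)
        (fun j t => by
          have h1 := hv (K + 2 * (j + 1)) t
          have q1 : (K : ℤ) + 2 * (j + 1) + 2 = K + 2 * ((j + 2 : ℕ) : ℤ) := by push_cast; ring
          have q2 : (K : ℤ) + 2 * (j + 1) - 2 = K + 2 * (j : ℤ) := by ring
          have q3 : (K : ℤ) + 2 * (j + 1) = K + 2 * ((j + 1 : ℕ) : ℤ) := by push_cast; ring
          have q4 : (((K : ℤ) + 2 * ((j + 1 : ℕ) : ℤ) : ℤ) : ℂ) = (K : ℂ) + 2 * ((j : ℂ) + 1) := by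
            push_cast
            ring
          rw [q1, q2, q3, q4] at h1
          simp only [Complex.conj_conj]
          exact h1)
      refine ⟨K, hk, 1, 2 ^ K, K, one_pos, ?_⟩
      intro m t ht
      by_cases hm : m ∈ D.S
      · obtain ⟨j, rfl⟩ := (hS m).1 hm
        refine (hmain j t ht).trans ?_
        refine mul_le_mul_of_nonneg_right ?_ (Real.exp_pos _).le
        refine mul_le_mul_of_nonneg_left ?_ (by positivity)
        apply pow_le_pow_left₀ (by positivity)
        have : (j : ℝ) ≤ |(((K : ℤ) + 2 * (j : ℤ) : ℤ) : ℝ)| := by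
          push_cast
          rw [abs_of_nonneg (by positivity)]
          have h1 : (0 : ℝ) ≤ K := by positivity
          have h2 : (0 : ℝ) ≤ j := by positivity
          linarith
        linarith
      · rw [hout m t hm, norm_zero]
        positivity
    · -- antiholomorphic discrete series
      obtain ⟨hout, hbes, h00, hd, hv⟩ := hALG D k hk
      have ha0 : D.a k = 0 := by
        by_contra h
        exact hk2 ((D.a_ne k).1 h).2
      have hκe : κ = ((k : ℝ) + 1) ^ 2 := by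
        have := (hκ k hk).1
        rw [ha0, norm_zero] at this
        linarith
      obtain ⟨K, rfl⟩ : ∃ K : ℕ, k = -(K : ℤ) := ⟨(-k).toNat, by omega⟩
      have hK1 : 1 ≤ K := by omega
      have hmain := ModDEC.abs_case K hK1 (fun j t => mc D (-K) (-K - 2 * j) t)
        (fun j => -D.a (-K - 2 * j - 2))
        (fun j => by
          rw [h00]
          by_cases hj : j = 0
          · subst hj
            simp
          · rw [if_neg hj, if_neg]
            omega)
        (fun j => by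
          have h1 := (hκ (-K - 2 * j) ((hS _).2 ⟨j, rfl⟩)).2
          rw [norm_neg, h1, hκe]
          push_cast
          ring)
        (fun t => by
          have h1 := hd (-K) t
          rw [ha0, map_zero, zero_mul, sub_zero] at h1
          simpa using h1)
        (fun t => by
          have h1 := hv (-K) t
          rw [ha0, map_zero, zero_mul, zero_add] at h1
          have q4 : ((-(K : ℤ) : ℤ) : ℂ) = -(K : ℂ) := by push_cast; ring
          rw [q4] at h1
          simp only [Nat.cast_zero, mul_zero, sub_zero, Nat.cast_one, mul_one]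
          linear_combination -h1)
        (fun j t => by
          have h1 := hv (-K - 2 * (j + 1)) t
          have q1 : -(K : ℤ) - 2 * (j + 1) + 2 = -K - 2 * (j : ℤ) := by ring
          have q2 : -(K : ℤ) - 2 * (j + 1) - 2 = -K - 2 * ((j + 2 : ℕ) : ℤ) := by push_cast; ring
          have q3 : -(K : ℤ) - 2 * (j + 1) = -K - 2 * ((j + 1 : ℕ) : ℤ) := by push_cast; ring
          have q4 : ((-(K : ℤ) - 2 * ((j + 1 : ℕ) : ℤ) : ℤ) : ℂ) = -((K : ℂ) + 2 * ((j : ℂ) + 1)) := by
            push_cast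
            ring
          have q5 : ((-(K : ℤ) : ℤ) : ℂ) = -(K : ℂ) := by push_cast; ring
          have q6 : -(K : ℤ) - 2 * (j : ℤ) - 2 = -K - 2 * ((j + 1 : ℕ) : ℤ) := by push_cast; ring
          have q7 : -(K : ℤ) - 2 * ((j + 1 : ℕ) : ℤ) - 2 = -K - 2 * ((j + 2 : ℕ) : ℤ) := by
            push_cast
            ring
          rw [q1, q2, q3, q4, q5] at h1
          simp only [q6, q7, map_neg]
          linear_combination -h1)
      refine ⟨-K, hk, 1, 2 ^ K, K, one_pos, ?_⟩
      intro m t ht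
      by_cases hm : m ∈ D.S
      · obtain ⟨j, rfl⟩ := (hS m).1 hm
        refine (hmain j t ht).trans ?_
        refine mul_le_mul_of_nonneg_right ?_ (Real.exp_pos _).le
        refine mul_le_mul_of_nonneg_left ?_ (by positivity)
        apply pow_le_pow_left₀ (by positivity)
        have : (j : ℝ) ≤ |((-(K : ℤ) - 2 * (j : ℤ) : ℤ) : ℝ)| := by
          push_cast
          have h1 : (0 : ℝ) ≤ K := by positivity
          have h2 : (0 : ℝ) ≤ j := by positivity
          rw [abs_of_nonpos (by linarith)]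
          linarith
        linarith
      · rw [hout m t hm, norm_zero]
        positivity
    · -- the principal and complementary series have κ < 1
      exfalso
      rcases Int.even_or_odd' k with ⟨l, hl | hl⟩
      · have h0 : (0 : ℤ) ∈ D.S := (hS 0).2 ⟨-l, by omega⟩
        have h2 : (0 + 2 : ℤ) ∈ D.S := (hS _).2 ⟨1 - l, by omega⟩
        have ha := (D.a_ne 0).2 ⟨h0, h2⟩
        have h3 := (hκ 0 h0).1
        have h4 : 0 < ‖D.a 0‖ := norm_pos_iff.2 ha
        simp only [Int.cast_zero, zero_add, one_pow] at h3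
        nlinarith
      · have h0 : (-1 : ℤ) ∈ D.S := (hS (-1)).2 ⟨-l - 1, by omega⟩
        have h3 := (hκ (-1) h0).1
        push_cast at h3
        nlinarith [sq_nonneg ‖D.a (-1)‖]

end Pool.Agent.T6.H28.SN
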