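import Pool.Agent.T6.H28.SN.Stm

/-! # Module DECA: the differential inequality (MP_bb0caf_al) -/

set_option autoImplicit false

open scoped InnerProductSpace ComplexConjugate Topology ENNReal
open Filter MeasureTheory

namespace Pool.Agent.T6.H28.SN

namespace ModDECA

/-- comparison of the quadratic form -/
theorem comp1 {b d u p : ℝ} (hb : 0 < b) (hd : 0 < d) (hdb : d ^ 2 ≤ b / 4) :
    (p ^ 2 + b * u ^ 2) / 2 ≤ p ^ 2 + b * u ^ 2 + 2 * d * u * p ∧
      p ^ 2 + b * u ^ 2 + 2 * d * u * p ≤ 2 * (p ^ 2 + b * u ^ 2) := by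
  have h1 : d ^ 2 * u ^ 2 ≤ b / 4 * u ^ 2 := mul_le_mul_of_nonneg_right hdb (sq_nonneg u)
  constructor
  · nlinarith [sq_nonneg (p + 2 * d * u)]
  · nlinarith [sq_nonneg (p - 2 * d * u)]

/-- the main estimate for the real and for the imaginary part -/
theorem pair {b d u p η r ε : ℝ} (hb : 0 < b) (hd : 0 < d) (hd1 : d ≤ 1 / 4) (hd2 : 4 * d ≤ b)
    (hdb : d ^ 2 ≤ b / 4) (hη : |η| ≤ ε) (hr : |r| ≤ ε) :
    2 * p * (-2 * p - b * u - η * p - r * u) + 2 * b * u * p +
      2 * d * (p ^ 2 + u * (-2 * p - b * u - η * p - r * u)) ≤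
      (-(d / 2) + 8 * (1 + 1 / b) * ε) * (p ^ 2 + b * u ^ 2 + 2 * d * u * p) := by
  have hε : 0 ≤ ε := (abs_nonneg _).trans hη
  obtain ⟨c1, c2⟩ := comp1 (u := u) (p := p) hb hd hdb
  have main : -4 * p ^ 2 + 2 * d * p ^ 2 - 4 * d * u * p - 2 * d * b * u ^ 2 ≤
      -d * (p ^ 2 + b * u ^ 2) := by
    -- 4 d |u p| ≤ d b u² + (4 d / b) p²
    have h1 : -4 * d * u * p ≤ d * b * u ^ 2 + p ^ 2 := by
      have h2 : d * (b * (-4 * u * p)) ≤ d * (b ^ 2 * u ^ 2 + 4 * p ^ 2) := by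
        apply mul_le_mul_of_nonneg_left _ hd.le
        nlinarith [sq_nonneg (b * u + 2 * p)]
      have h3 : d * 4 * p ^ 2 ≤ b * p ^ 2 := by nlinarith [sq_nonneg p]
      have h4 : b * (-4 * d * u * p) ≤ b * (d * b * u ^ 2 + p ^ 2) := by nlinarith
      exact le_of_mul_le_mul_left h4 hb
    nlinarith [sq_nonneg p, mul_nonneg hd.le (sq_nonneg p)]
  have hup : |u * p| ≤ (u ^ 2 + p ^ 2) / 2 := by
    rw [abs_le]
    constructor <;> nlinarith [sq_nonneg (u + p), sq_nonneg (u - p)]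
  have e1 : -(2 * p * (η * p)) ≤ 2 * ε * p ^ 2 := by
    have := neg_le_abs η
    nlinarith [sq_nonneg p]
  have e2 : -(2 * p * (r * u)) ≤ ε * (u ^ 2 + p ^ 2) := by
    have h1 : -(r * (u * p)) ≤ |r| * |u * p| := by rw [← abs_mul]; exact neg_le_abs _
    have h2 : |r| * |u * p| ≤ ε * ((u ^ 2 + p ^ 2) / 2) :=
      mul_le_mul hr hup (abs_nonneg _) hε
    nlinarith
  have e3 : -(2 * d * (u * (η * p))) ≤ ε * (u ^ 2 + p ^ 2) := by
    have h1 : -(η * (u * p)) ≤ |η| * |u * p| := by rw [← abs_mul]; exact neg_le_abs _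
    have h2 : |η| * |u * p| ≤ ε * ((u ^ 2 + p ^ 2) / 2) :=
      mul_le_mul hη hup (abs_nonneg _) hε
    have h3 : 0 ≤ ε * ((u ^ 2 + p ^ 2) / 2) := by positivity
    nlinarith
  have e4 : -(2 * d * (u * (r * u))) ≤ ε * (2 * u ^ 2) := by
    have h1 := neg_le_abs r
    have h2 : -r * u ^ 2 ≤ ε * u ^ 2 := by nlinarith [sq_nonneg u]
    have h3 : 0 ≤ ε * u ^ 2 := by positivity
    nlinarith
  have hP : u ^ 2 + p ^ 2 ≤ (1 + 1 / b) * (p ^ 2 + b * u ^ 2) := by
    have h1 : (1 + 1 / b) * (p ^ 2 + b * u ^ 2) = p ^ 2 + b * u ^ 2 + p ^ 2 / b + u ^ 2 := by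
      field_simp
      ring
    rw [h1]
    have h2 : 0 ≤ p ^ 2 / b := by positivity
    have h3 : 0 ≤ b * u ^ 2 := by positivity
    linarith
  have hb1 : 0 < 1 + 1 / b := by positivity
  have f1 : -d * (p ^ 2 + b * u ^ 2) ≤ -(d / 2) * (p ^ 2 + b * u ^ 2 + 2 * d * u * p) := by
    nlinarith
  have f2 : ε * (4 * (u ^ 2 + p ^ 2)) ≤
      8 * (1 + 1 / b) * ε * (p ^ 2 + b * u ^ 2 + 2 * d * u * p) := by
    have g1 : (1 + 1 / b) * (p ^ 2 + b * u ^ 2) ≤
        (1 + 1 / b) * (2 * (p ^ 2 + b * u ^ 2 + 2 * d * u * p)) := by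
      apply mul_le_mul_of_nonneg_left _ hb1.le
      linarith
    have g2 : 4 * (u ^ 2 + p ^ 2) ≤ 8 * (1 + 1 / b) * (p ^ 2 + b * u ^ 2 + 2 * d * u * p) := by
      linarith
    have g3 := mul_le_mul_of_nonneg_left g2 hε
    linarith
  nlinarith

theorem coth_bound {t : ℝ} (ht : 1 ≤ t) :
    |2 * (Real.cosh (2 * t) / Real.sinh (2 * t)) - 2| ≤ 8 * Real.exp (-2 * t) := by
  have he : Real.exp (-2 * t) * Real.exp (2 * t) = 1 := by
    rw [← Real.exp_add]
    simp
  have h2 : 4 ≤ Real.exp (2 * t) := by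
    have h3 := Real.add_one_le_exp (t)
    have h4 : Real.exp (2 * t) = Real.exp t * Real.exp t := by
      rw [← Real.exp_add]
      congr 1
      ring
    nlinarith
  have hpos := Real.exp_pos (-2 * t)
  have h1 : Real.exp (-2 * t) ≤ 1 / 4 := by nlinarith
  have hs : Real.exp (2 * t) / 4 ≤ Real.sinh (2 * t) := by
    rw [Real.sinh_eq]
    have : -(2 * t) = -2 * t := by ring
    rw [this]
    linarith
  have hs0 : 0 < Real.sinh (2 * t) := by linarith
  have hd : Real.cosh (2 * t) - Real.sinh (2 * t) = Real.exp (-2 * t) := by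
    rw [Real.cosh_eq, Real.sinh_eq]
    have : -(2 * t) = -2 * t := by ring
    rw [this]
    ring
  have e1 : 2 * (Real.cosh (2 * t) / Real.sinh (2 * t)) - 2 =
      2 * Real.exp (-2 * t) / Real.sinh (2 * t) := by
    rw [← hd]
    field_simp
  rw [e1, abs_of_nonneg (by positivity), div_le_iff₀ hs0]
  nlinarith

theorem re_aux (h s : ℝ) (z w : ℂ) :
    (-(2 * (h : ℂ) * z) - (s : ℂ) * w).re = -(2 * h * z.re) - s * w.re := by
  have h1 : (2 * (h : ℂ)) = ((2 * h : ℝ) : ℂ) := by push_cast; ring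
  rw [h1, Complex.sub_re, Complex.neg_re, Complex.re_ofReal_mul, Complex.re_ofReal_mul]

theorem im_aux (h s : ℝ) (z w : ℂ) :
    (-(2 * (h : ℂ) * z) - (s : ℂ) * w).im = -(2 * h * z.im) - s * w.im := by
  have h1 : (2 * (h : ℂ)) = ((2 * h : ℝ) : ℂ) := by push_cast; ring
  rw [h1, Complex.sub_im, Complex.neg_im, Complex.im_ofReal_mul, Complex.im_ofReal_mul]

/-- the last step -/
theorem fin1 {b C1 M x y z : ℝ} (hb : 0 < b) (hC : 0 < C1) (hM : 1 ≤ M) (hx : 0 ≤ x)
    (hy : 0 < y) (hyz : y * z = 1) (hz : 0 < z)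
    (h : b * x ^ 2 / 2 * y ^ 2 ≤ b / 2 * C1 * M ^ 3) : x ≤ (C1 + 10) * M ^ 2 * z := by
  have h6 : x ^ 2 * y ^ 2 ≤ C1 * M ^ 3 := by
    have h7 : b / 2 * (x ^ 2 * y ^ 2) ≤ b / 2 * (C1 * M ^ 3) := by linarith
    exact le_of_mul_le_mul_left h7 (by positivity)
  have h8 : (x * y) ^ 2 ≤ ((C1 + 10) * M ^ 2) ^ 2 := by
    have h9' : C1 * M ^ 3 ≤ ((C1 + 10) * M ^ 2) ^ 2 := by
      have g1 : M ^ 3 ≤ M ^ 4 := pow_le_pow_right₀ hM (by norm_num)
      have g2 : C1 ≤ (C1 + 10) ^ 2 := by nlinarith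
      have g3 : 0 ≤ M ^ 3 := by positivity
      calc C1 * M ^ 3 ≤ (C1 + 10) ^ 2 * M ^ 4 := mul_le_mul g2 g1 g3 (by positivity)
        _ = _ := by ring
    calc (x * y) ^ 2 = x ^ 2 * y ^ 2 := by ring
      _ ≤ _ := h6.trans h9'
  have h10 : x * y ≤ (C1 + 10) * M ^ 2 := by
    apply le_of_sq_le_sq h8 (by positivity)
  calc x = (x * y) * z := by rw [mul_assoc, hyz, mul_one]
    _ ≤ _ := mul_le_mul_of_nonneg_right h10 hz.le

end ModDECA

open ModDECA

theorem deca : StmDECA := by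
  intro b hb
  obtain ⟨d, hd⟩ : ∃ d : ℝ, d = b / (4 * (1 + b)) := ⟨_, rfl⟩
  have hd0 : 0 < d := by rw [hd]; positivity
  have hd1 : d ≤ 1 / 4 := by
    rw [hd, div_le_div_iff₀ (by positivity) (by norm_num)]
    linarith
  have hd2 : 4 * d ≤ b := by
    rw [hd, mul_div_assoc', div_le_iff₀ (by positivity)]
    nlinarith
  have hdb : d ^ 2 ≤ b / 4 := by nlinarith
  obtain ⟨B, hB⟩ : ∃ B : ℝ, B = 8 * (1 + 1 / b) := ⟨_, rfl⟩
  have hB0 : 0 < B := by rw [hB]; positivity
  obtain ⟨C1, hC1⟩ : ∃ C1 : ℝ, C1 = 36 * (1 + b) / b * Real.exp (B / 2) := ⟨_, rfl⟩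
  have hC10 : 0 < C1 := by rw [hC1]; positivity
  refine ⟨d / 4, C1 + 10, 2, by positivity, ?_⟩
  intro M f f' r hM hf hf' hr hfn hfn' t ht
  -- the functions
  have hre : ∀ t, HasDerivAt (fun t => (f t).re) (f' t).re t := fun t =>
    Complex.reCLM.hasFDerivAt.comp_hasDerivAt t (hf t)
  have him : ∀ t, HasDerivAt (fun t => (f t).im) (f' t).im t := fun t =>
    Complex.imCLM.hasFDerivAt.comp_hasDerivAt t (hf t)
  set η : ℝ → ℝ := fun t => 2 * (Real.cosh (2 * t) / Real.sinh (2 * t)) - 2 with hη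
  have hre' : ∀ t, 1 ≤ t → HasDerivAt (fun t => (f' t).re)
      (-2 * (f' t).re - b * (f t).re - η t * (f' t).re - r t * (f t).re) t := fun t ht => by
    have h1 := Complex.reCLM.hasFDerivAt.comp_hasDerivAt t (hf' t ht)
    refine HasDerivAt.congr_deriv h1 ?_
    rw [Complex.reCLM_apply, re_aux]
    simp only [hη]
    ring
  have him' : ∀ t, 1 ≤ t → HasDerivAt (fun t => (f' t).im)
      (-2 * (f' t).im - b * (f t).im - η t * (f' t).im - r t * (f t).im) t := fun t ht => by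
    have h1 := Complex.imCLM.hasFDerivAt.comp_hasDerivAt t (hf' t ht)
    refine HasDerivAt.congr_deriv h1 ?_
    rw [Complex.imCLM_apply, im_aux]
    simp only [hη]
    ring
  set M1 : ℝ := M + 8 with hM1
  set L : ℝ → ℝ := fun t => ((f' t).re ^ 2 + b * (f t).re ^ 2 + 2 * d * (f t).re * (f' t).re) +
    ((f' t).im ^ 2 + b * (f t).im ^ 2 + 2 * d * (f t).im * (f' t).im) with hL
  set Ψ : ℝ → ℝ := fun t => L t * Real.exp (d / 2 * t + B * M1 / 2 * Real.exp (-2 * t)) with hΨ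
  have hLd : ∀ t, 1 ≤ t → ∃ l : ℝ, HasDerivAt L l t ∧
      l ≤ (-(d / 2) + B * (M1 * Real.exp (-2 * t))) * L t := by
    intro t ht
    have hε1 : |η t| ≤ M1 * Real.exp (-2 * t) := by
      refine (coth_bound ht).trans ?_
      have := Real.exp_pos (-2 * t)
      rw [hM1]
      nlinarith
    have hε2 : |r t| ≤ M1 * Real.exp (-2 * t) := by
      refine (hr t ht).trans ?_
      have := Real.exp_pos (-2 * t)
      rw [hM1]
      nlinarith
    refine ⟨(2 * (f' t).re * (-2 * (f' t).re - b * (f t).re - η t * (f' t).re - r t * (f t).re) +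
      2 * b * (f t).re * (f' t).re + 2 * d * ((f' t).re ^ 2 + (f t).re *
        (-2 * (f' t).re - b * (f t).re - η t * (f' t).re - r t * (f t).re))) +
      (2 * (f' t).im * (-2 * (f' t).im - b * (f t).im - η t * (f' t).im - r t * (f t).im) +
      2 * b * (f t).im * (f' t).im + 2 * d * ((f' t).im ^ 2 + (f t).im *
        (-2 * (f' t).im - b * (f t).im - η t * (f' t).im - r t * (f t).im))), ?_, ?_⟩
    · have a1 := ((hre' t ht).pow 2).add (((hre t).pow 2).const_mul b)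
      have a2 := a1.add (((hre t).mul (hre' t ht)).const_mul (2 * d))
      have b1 := ((him' t ht).pow 2).add (((him t).pow 2).const_mul b)
      have b2 := b1.add (((him t).mul (him' t ht)).const_mul (2 * d))
      have c := a2.add b2
      refine (c.congr_deriv ?_).congr_of_eventuallyEq (Eventually.of_forall fun s => ?_)
      · simp
        ring
      · simp only [hL, Pi.add_apply, Pi.mul_apply, Pi.pow_apply]
        ring
    · have p1 := pair (u := (f t).re) (p := (f' t).re) hb hd0 hd1 hd2 hdb hε1 hε2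
      have p2 := pair (u := (f t).im) (p := (f' t).im) hb hd0 hd1 hd2 hdb hε1 hε2
      rw [← hB] at p1 p2
      have h3 := add_le_add p1 p2
      refine h3.trans (le_of_eq ?_)
      simp only [hL]
      ring
  have hΨd : ∀ t, 1 ≤ t → ∃ l : ℝ, HasDerivAt Ψ l t ∧ l ≤ 0 := by
    intro t ht
    obtain ⟨l, hl, hle⟩ := hLd t ht
    have h1 : HasDerivAt (fun t : ℝ => Real.exp (-2 * t)) (Real.exp (-2 * t) * (-2)) t := by
      have := ((hasDerivAt_id t).const_mul (-2 : ℝ)).exp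
      simpa using this
    have h2 : HasDerivAt (fun t : ℝ => d / 2 * t + B * M1 / 2 * Real.exp (-2 * t))
        (d / 2 * 1 + B * M1 / 2 * (Real.exp (-2 * t) * (-2))) t :=
      ((hasDerivAt_id t).const_mul (d / 2)).add (h1.const_mul (B * M1 / 2))
    have h3 := hl.mul h2.exp
    refine ⟨_, h3, ?_⟩
    have h4 := Real.exp_pos (d / 2 * t + B * M1 / 2 * Real.exp (-2 * t))
    have h5 : l * Real.exp (d / 2 * t + B * M1 / 2 * Real.exp (-2 * t)) +
        L t * (Real.exp (d / 2 * t + B * M1 / 2 * Real.exp (-2 * t)) *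
          (d / 2 * 1 + B * M1 / 2 * (Real.exp (-2 * t) * (-2)))) =
        (l - (-(d / 2) + B * (M1 * Real.exp (-2 * t))) * L t) *
          Real.exp (d / 2 * t + B * M1 / 2 * Real.exp (-2 * t)) := by ring
    rw [h5]
    exact mul_nonpos_of_nonpos_of_nonneg (by linarith) h4.le
  have hanti : AntitoneOn Ψ (Set.Ici 1) := by
    apply antitoneOn_of_deriv_nonpos (convex_Ici 1)
    · intro s hs
      obtain ⟨l, hl, _⟩ := hΨd s hs
      exact hl.continuousAt.continuousWithinAt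
    · intro s hs
      rw [interior_Ici] at hs
      obtain ⟨l, hl, _⟩ := hΨd s (le_of_lt hs)
      exact hl.differentiableAt.differentiableWithinAt
    · intro s hs
      rw [interior_Ici] at hs
      obtain ⟨l, hl, hle⟩ := hΨd s (le_of_lt hs)
      rw [hl.deriv]
      exact hle
  -- comparison
  have hLlow : ∀ s, b * ‖f s‖ ^ 2 / 2 ≤ L s := by
    intro s
    obtain ⟨a1, _⟩ := comp1 (u := (f s).re) (p := (f' s).re) hb hd0 hdb
    obtain ⟨a2, _⟩ := comp1 (u := (f s).im) (p := (f' s).im) hb hd0 hdb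
    have h1 : ‖f s‖ ^ 2 = (f s).re ^ 2 + (f s).im ^ 2 := by
      rw [Complex.sq_norm, Complex.normSq_apply]
      ring
    rw [h1]
    simp only [hL]
    nlinarith [sq_nonneg (f' s).re, sq_nonneg (f' s).im]
  have hLup : ∀ s, L s ≤ 2 * (M ^ 2 + b) := by
    intro s
    obtain ⟨_, a1⟩ := comp1 (u := (f s).re) (p := (f' s).re) hb hd0 hdb
    obtain ⟨_, a2⟩ := comp1 (u := (f s).im) (p := (f' s).im) hb hd0 hdb
    have h1 : ‖f s‖ ^ 2 = (f s).re ^ 2 + (f s).im ^ 2 := by
      rw [Complex.sq_norm, Complex.normSq_apply]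
      ring
    have h2 : ‖f' s‖ ^ 2 = (f' s).re ^ 2 + (f' s).im ^ 2 := by
      rw [Complex.sq_norm, Complex.normSq_apply]
      ring
    have h3 : ‖f s‖ ^ 2 ≤ 1 := by nlinarith [hfn s, norm_nonneg (f s)]
    have h4 : ‖f' s‖ ^ 2 ≤ M ^ 2 := by nlinarith [hfn' s, norm_nonneg (f' s)]
    rw [h1] at h3
    rw [h2] at h4
    simp only [hL]
    nlinarith
  -- the starting point
  set t1 : ℝ := Real.log (9 * M) with ht1
  have h9 : 0 < 9 * M := by linarith
  have ht1e : Real.exp t1 = 9 * M := Real.exp_log h9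
  have ht11 : 1 ≤ t1 := by
    rw [ht1, Real.le_log_iff_exp_le h9]
    have := Real.exp_one_lt_d9
    linarith
  have hexp : Real.exp (d / 2 * t1) ≤ 9 * M := by
    rw [← ht1e]
    apply Real.exp_le_exp.2
    nlinarith
  have hMe : M1 * Real.exp (-2 * t1) ≤ 1 := by
    have h1 : Real.exp (-2 * t1) * (Real.exp t1 * Real.exp t1) = 1 := by
      rw [← Real.exp_add, ← Real.exp_add]
      have : -2 * t1 + (t1 + t1) = 0 := by ring
      rw [this, Real.exp_zero]
    rw [ht1e] at h1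
    have h2 := Real.exp_pos (-2 * t1)
    have h3 : M1 ≤ 9 * M * (9 * M) := by rw [hM1]; nlinarith
    nlinarith
  by_cases htt : t1 ≤ t
  · have h1 : Ψ t ≤ Ψ t1 := hanti ht11 (ht11.trans htt) htt
    have h2 : L t * Real.exp (d / 2 * t) ≤ Ψ t := by
      simp only [hΨ]
      have hL0 : 0 ≤ L t := le_trans (by positivity) (hLlow t)
      apply mul_le_mul_of_nonneg_left _ hL0
      apply Real.exp_le_exp.2
      have : 0 ≤ B * M1 / 2 * Real.exp (-2 * t) := by
        have : 0 ≤ M1 := by rw [hM1]; linarith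
        positivity
      linarith
    have h3 : Ψ t1 ≤ 2 * (M ^ 2 + b) * (9 * M * Real.exp (B / 2)) := by
      simp only [hΨ]
      apply mul_le_mul (hLup t1) _ (Real.exp_pos _).le (by positivity)
      rw [Real.exp_add]
      apply mul_le_mul hexp _ (Real.exp_pos _).le h9.le
      apply Real.exp_le_exp.2
      nlinarith
    have h4 : 2 * (M ^ 2 + b) * (9 * M * Real.exp (B / 2)) ≤ b / 2 * C1 * M ^ 3 := by
      have h5 : b / 2 * C1 * M ^ 3 = 18 * (1 + b) * M ^ 3 * Real.exp (B / 2) := by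
        rw [hC1]
        field_simp
        ring
      rw [h5]
      have h6 : 2 * (M ^ 2 + b) * (9 * M * Real.exp (B / 2)) =
          (18 * (M ^ 2 + b) * M) * Real.exp (B / 2) := by ring
      rw [h6]
      apply mul_le_mul_of_nonneg_right _ (Real.exp_pos _).le
      have hM2 : 1 ≤ M ^ 2 := by nlinarith
      have hM3 := mul_le_mul_of_nonneg_left hM2 hb.le
      have h7 : M ^ 2 + b ≤ (1 + b) * M ^ 2 := by linarith
      have h8 : (M ^ 2 + b) * M ≤ ((1 + b) * M ^ 2) * M :=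
        mul_le_mul_of_nonneg_right h7 (by linarith)
      calc 18 * (M ^ 2 + b) * M = 18 * ((M ^ 2 + b) * M) := by ring
        _ ≤ 18 * (((1 + b) * M ^ 2) * M) := by linarith
        _ = 18 * (1 + b) * M ^ 3 := by ring
    have h5 : b * ‖f t‖ ^ 2 / 2 * Real.exp (d / 2 * t) ≤ b / 2 * C1 * M ^ 3 := by
      have := mul_le_mul_of_nonneg_right (hLlow t) (Real.exp_pos (d / 2 * t)).le
      linarith
    have h7 : Real.exp (d / 2 * t) = (Real.exp (d / 4 * t)) ^ 2 := by
      rw [sq, ← Real.exp_add]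
      congr 1
      ring
    rw [h7] at h5
    have h11 : Real.exp (d / 4 * t) * Real.exp (-(d / 4 * t)) = 1 := by
      rw [← Real.exp_add, add_neg_cancel, Real.exp_zero]
    exact fin1 hb hC10 hM (norm_nonneg _) (Real.exp_pos _) h11 (Real.exp_pos _) h5
  · push Not at htt
    have h1 : ‖f t‖ ≤ 1 := hfn t
    have h2 : 1 ≤ 9 * M * Real.exp (-(d / 4 * t)) := by
      have h3 : Real.exp (d / 4 * t) ≤ 9 * M := by
        rw [← ht1e]
        apply Real.exp_le_exp.2
        nlinarith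
      have h11 : Real.exp (d / 4 * t) * Real.exp (-(d / 4 * t)) = 1 := by
        rw [← Real.exp_add, add_neg_cancel, Real.exp_zero]
      have h12 := Real.exp_pos (-(d / 4 * t))
      nlinarith
    have h3 : 9 * M * Real.exp (-(d / 4 * t)) ≤ (C1 + 10) * M ^ 2 * Real.exp (-(d / 4 * t)) := by
      apply mul_le_mul_of_nonneg_right _ (Real.exp_pos _).le
      nlinarith
    linarith

end Pool.Agent.T6.H28.SN
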