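import Pool.Agent.T6.H28.SN.Stm

/-!
# DYAD: summation over dyadic blocks
-/

set_option autoImplicit false

open scoped InnerProductSpace ComplexConjugate Topology ENNReal
open Filter MeasureTheory

namespace Pool.Agent.T6.H28.SN

namespace ModDYAD

/-- Pythagoras -/
theorem norm_vec (D : Rep) (A : Finset ℤ) (hA : ∀ m ∈ A, m ∈ D.S) (d : ℤ → ℂ) :
    ‖D.vec A d‖ ^ 2 = ∑ m ∈ A, ‖d m‖ ^ 2 := by
  classical
  have h1 : ⟪D.vec A d, D.vec A d⟫_ℂ = ((∑ m ∈ A, ‖d m‖ ^ 2 : ℝ) : ℂ) := by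
    unfold Rep.vec
    rw [sum_inner]
    push_cast
    refine Finset.sum_congr rfl fun m hm => ?_
    rw [inner_sum, Finset.sum_eq_single m]
    · rw [inner_smul_left, inner_smul_right, D.orth m (hA m hm) m (hA m hm), if_pos rfl, mul_one,
        Complex.conj_mul']
    · intro n hn hnm
      rw [inner_smul_left, inner_smul_right, D.orth m (hA m hm) n (hA n hn), if_neg (Ne.symm hnm),
        mul_zero, mul_zero]
    · intro h
      exact absurd hm h
  have h2 : ((‖D.vec A d‖ ^ 2 : ℝ) : ℂ) = ((∑ m ∈ A, ‖d m‖ ^ 2 : ℝ) : ℂ) := by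
    rw [← h1]
    have := inner_self_eq_norm_sq_to_K (𝕜 := ℂ) (D.vec A d)
    rw [this]
    push_cast
    rfl
  exact_mod_cast h2

theorem e_mem (D : Rep) (m : ℤ) : D.e m ∈ D.E := by
  apply Submodule.subset_span
  exact ⟨1, m, by rw [map_one]; rfl⟩

theorem vec_mem (D : Rep) (A : Finset ℤ) (c : ℤ → ℂ) : D.vec A c ∈ D.E :=
  Submodule.sum_mem _ (fun m _ => Submodule.smul_mem _ _ (e_mem D m))

theorem p_sum (D : Rep) (p : D.H → ℝ) (hp : IsGNorm D p) {ι : Type} (J : Finset ι) (f : ι → D.H)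
    (hf : ∀ j ∈ J, f j ∈ D.E) : p (∑ j ∈ J, f j) ≤ ∑ j ∈ J, p (f j) := by
  classical
  induction J using Finset.induction_on with
  | empty =>
    rw [Finset.sum_empty, Finset.sum_empty]
    have := hp.smul 0 0 (zero_mem _)
    rw [zero_smul, norm_zero, zero_mul] at this
    exact this.le
  | insert a J ha ih =>
    rw [Finset.sum_insert ha, Finset.sum_insert ha]
    have h1 : ∑ j ∈ J, f j ∈ D.E :=
      Submodule.sum_mem _ (fun j hj => hf j (Finset.mem_insert_of_mem hj))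
    have h2 := hp.add (f a) (hf a (Finset.mem_insert_self a J)) _ h1
    have h3 := ih (fun j hj => hf j (Finset.mem_insert_of_mem hj))
    linarith

/-- the terms outside `S` vanish -/
theorem vec_filter (D : Rep) (A : Finset ℤ) (c : ℤ → ℂ) [DecidablePred (· ∈ D.S)] :
    D.vec A c = D.vec (A.filter (· ∈ D.S)) c := by
  unfold Rep.vec
  rw [Finset.sum_filter]
  refine Finset.sum_congr rfl fun m _ => ?_
  split_ifs with h
  · rfl
  · rw [D.e_out m h, smul_zero]

end ModDYAD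

open ModDYAD in
theorem dyad : StmDYAD := by
  classical
  intro D p hp hbb s hs
  obtain ⟨C, hC, hb⟩ := hbb
  set r : ℝ := (2 : ℝ) ^ ((1 : ℝ) / 2 - s) with hr
  have hr0 : 0 < r := Real.rpow_pos_of_pos (by norm_num) _
  have hr1 : r < 1 := Real.rpow_lt_one_of_one_lt_of_neg (by norm_num) (by linarith)
  refine ⟨C / (1 - r), fun A c => ?_⟩
  set w : ℤ → ℂ := fun m => (((1 + (m : ℝ) ^ 2) ^ (s / 2) : ℝ) : ℂ) * c m with hw
  rw [vec_filter D A c, vec_filter D A w]
  set B := A.filter (· ∈ D.S) with hB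
  have hBS : ∀ m ∈ B, m ∈ D.S := fun m hm => (Finset.mem_filter.mp hm).2
  set N := ‖D.vec B w‖ with hN
  have hN0 : 0 ≤ N := norm_nonneg _
  have hN2 : N ^ 2 = ∑ m ∈ B, ‖w m‖ ^ 2 := norm_vec D B hBS w
  let lev : ℤ → ℕ := fun m => Nat.log 2 m.natAbs
  let L : ℕ := B.sup lev + 1
  have hlev : ∀ m ∈ B, lev m ∈ Finset.range L := by
    intro m hm
    rw [Finset.mem_range]
    exact Nat.lt_succ_of_le (Finset.le_sup (f := lev) hm)
  have hsplit : D.vec B c = ∑ j ∈ Finset.range L, D.vec (B.filter (fun m => lev m = j)) c := by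
    unfold Rep.vec
    exact (Finset.sum_fiberwise_of_maps_to hlev _).symm
  have hblock : ∀ j, p (D.vec (B.filter (fun m => lev m = j)) c) ≤ C * N * r ^ j := by
    intro j
    have h2j : (0 : ℝ) < 2 ^ j := by positivity
    have h1 := hb (2 ^ j) Nat.one_le_two_pow (B.filter (fun m => lev m = j)) c (by
      intro m hm
      have hm' : lev m = j := (Finset.mem_filter.mp hm).2
      have h3 := Nat.lt_pow_succ_log_self (b := 2) (by norm_num) m.natAbs
      have h3' : m.natAbs < 2 ^ (j + 1) := by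
        have : Nat.log 2 m.natAbs = j := hm'
        rw [this] at h3
        exact h3
      rw [Int.abs_eq_natAbs]
      have h4 : m.natAbs ≤ 2 * 2 ^ j := by rw [pow_succ] at h3'; omega
      exact_mod_cast h4)
    have hterm : ∀ m ∈ B.filter (fun m => lev m = j), ‖c m‖ ^ 2 ≤ (((2 : ℝ) ^ j) ^ (-s)) ^ 2 * ‖w m‖ ^ 2 := by
      intro m hm
      have hm' : Nat.log 2 m.natAbs = j := (Finset.mem_filter.mp hm).2
      have h3 : ((2 : ℝ) ^ j) ^ 2 ≤ 1 + (m : ℝ) ^ 2 := by
        by_cases hm0 : m = 0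
        · subst hm0
          have : j = 0 := by rw [← hm']; simp
          subst this
          norm_num
        · have h4 := Nat.pow_log_le_self 2 (Int.natAbs_ne_zero.mpr hm0)
          rw [hm'] at h4
          have h5 : ((2 : ℝ) ^ j) ≤ |(m : ℝ)| := by
            have h6 : ((2 ^ j : ℕ) : ℝ) ≤ (m.natAbs : ℝ) := by exact_mod_cast h4
            rw [Nat.cast_natAbs, Int.cast_abs] at h6
            push_cast at h6
            exact h6
          have h7 : ((2 : ℝ) ^ j) ^ 2 ≤ |(m : ℝ)| ^ 2 := pow_le_pow_left₀ h2j.le h5 2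
          rw [sq_abs] at h7
          linarith
      have h8 : ((2 : ℝ) ^ j) ^ s ≤ (1 + (m : ℝ) ^ 2) ^ (s / 2) := by
        have h9 := Real.rpow_le_rpow (by positivity) h3 (show 0 ≤ s / 2 by linarith)
        refine le_trans (le_of_eq ?_) h9
        rw [← Real.rpow_natCast ((2 : ℝ) ^ j) 2, ← Real.rpow_mul h2j.le]
        congr 1
        push_cast
        ring
      have h10 : ‖w m‖ = (1 + (m : ℝ) ^ 2) ^ (s / 2) * ‖c m‖ := by
        rw [hw]
        show ‖(((1 + (m : ℝ) ^ 2) ^ (s / 2) : ℝ) : ℂ) * c m‖ = _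
        rw [norm_mul, Complex.norm_real, Real.norm_of_nonneg (by positivity)]
      have h11 : ‖c m‖ ≤ ((2 : ℝ) ^ j) ^ (-s) * ‖w m‖ := by
        rw [Real.rpow_neg h2j.le, h10]
        have hp0 : 0 < ((2 : ℝ) ^ j) ^ s := Real.rpow_pos_of_pos h2j _
        rw [← mul_assoc, inv_mul_eq_div]
        have h12 : 1 ≤ (1 + (m : ℝ) ^ 2) ^ (s / 2) / ((2 : ℝ) ^ j) ^ s := by
          rw [one_le_div hp0]
          exact h8
        have := mul_le_mul_of_nonneg_right h12 (norm_nonneg (c m))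
        linarith
      calc ‖c m‖ ^ 2 ≤ (((2 : ℝ) ^ j) ^ (-s) * ‖w m‖) ^ 2 := pow_le_pow_left₀ (norm_nonneg _) h11 2
        _ = _ := by ring
    have hsum : Real.sqrt (∑ m ∈ B.filter (fun m => lev m = j), ‖c m‖ ^ 2) ≤
        ((2 : ℝ) ^ j) ^ (-s) * N := by
      have hpos : 0 ≤ ((2 : ℝ) ^ j) ^ (-s) * N := by positivity
      rw [Real.sqrt_le_left hpos, mul_pow, hN2, Finset.mul_sum]
      calc ∑ m ∈ B.filter (fun m => lev m = j), ‖c m‖ ^ 2 ≤
          ∑ m ∈ B.filter (fun m => lev m = j), (((2 : ℝ) ^ j) ^ (-s)) ^ 2 * ‖w m‖ ^ 2 :=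
            Finset.sum_le_sum hterm
        _ ≤ _ := Finset.sum_le_sum_of_subset_of_nonneg (Finset.filter_subset _ _)
            (fun m _ _ => by positivity)
    have hcast : (((2 ^ j : ℕ)) : ℝ) = (2 : ℝ) ^ j := by push_cast; rfl
    rw [hcast] at h1
    refine le_trans h1 ?_
    have h5 : C * Real.sqrt ((2 : ℝ) ^ j) * Real.sqrt (∑ m ∈ B.filter (fun m => lev m = j), ‖c m‖ ^ 2) ≤
        C * Real.sqrt ((2 : ℝ) ^ j) * (((2 : ℝ) ^ j) ^ (-s) * N) :=
      mul_le_mul_of_nonneg_left hsum (by positivity)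
    refine le_trans h5 (le_of_eq ?_)
    have h6 : Real.sqrt ((2 : ℝ) ^ j) * ((2 : ℝ) ^ j) ^ (-s) = r ^ j := by
      rw [Real.sqrt_eq_rpow, ← Real.rpow_add h2j, hr, ← Real.rpow_natCast, ← Real.rpow_natCast,
        ← Real.rpow_mul (by norm_num), ← Real.rpow_mul (by norm_num)]
      congr 1
      ring
    calc C * Real.sqrt ((2 : ℝ) ^ j) * (((2 : ℝ) ^ j) ^ (-s) * N) =
        C * N * (Real.sqrt ((2 : ℝ) ^ j) * ((2 : ℝ) ^ j) ^ (-s)) := by ring
      _ = _ := by rw [h6]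
  rw [hsplit]
  refine le_trans (p_sum D p hp _ _ (fun j _ => vec_mem D _ c)) ?_
  refine le_trans (Finset.sum_le_sum (fun j _ => hblock j)) ?_
  rw [← Finset.mul_sum]
  have hgeo : ∑ j ∈ Finset.range L, r ^ j ≤ 1 / (1 - r) := by
    have h1 := mul_neg_geom_sum r L
    have h2 : 0 ≤ r ^ L := by positivity
    rw [le_div_iff₀ (by linarith)]
    linarith
  calc C * N * ∑ j ∈ Finset.range L, r ^ j ≤ C * N * (1 / (1 - r)) :=
        mul_le_mul_of_nonneg_left hgeo (by positivity)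
    _ = C / (1 - r) * N := by ring

end Pool.Agent.T6.H28.SN
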