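import Pool.Agent.T6.H28.SN.Stm

set_option autoImplicit false

open scoped InnerProductSpace ComplexConjugate Topology
open Filter

namespace Pool.Agent.T6.H28.SN

namespace ModFINLB

lemma numeric {c s Cd C1 C2 C3 : ℝ} {N1 N2 n0 : ℕ} (hc : 0 < c) (hs0 : 0 ≤ s) (hs : s < 1 / 2)
    (hCd : 0 ≤ Cd) (hC1 : 0 < C1) (hC2 : 0 < C2) (hC3 : 0 < C3)
    (h : ∀ n : ℕ, n0 ≤ n → 1 ≤ n → ∃ L : ℝ, 0 ≤ L ∧
      L ≤ 4 * Real.sqrt (Real.log (4 * (C1 * (n : ℝ) ^ N1 + C2 * (n : ℝ) ^ N2 + 1))) ∧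
      c * ((n : ℝ) / 4) ≤ (L + 1) * (Cd * ((5 * (n : ℝ) ^ 2) ^ (s / 2) * (C3 * n) ^ (1 / 2 : ℝ) * L
        + 1))) : False := by
  obtain ⟨δ, hδ, hδs⟩ : ∃ δ : ℝ, 0 < δ ∧ 4 * δ = 1 / 2 - s := ⟨(1 / 2 - s) / 4, by linarith, by ring⟩
  obtain ⟨X, hX⟩ : ∃ X, X = 4 * (C1 + C2 + 1) := ⟨_, rfl⟩
  have hX1 : 1 ≤ X := by rw [hX]; linarith
  obtain ⟨K0, hK0⟩ : ∃ K0, K0 = Real.log X + ((N1 + N2 : ℕ) : ℝ) / (2 * δ) := ⟨_, rfl⟩
  have hK00 : 0 ≤ K0 := by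
    rw [hK0]
    have := Real.log_nonneg hX1
    positivity
  -- bound of L
  have hL : ∀ n : ℕ, 1 ≤ n → 4 * Real.sqrt (Real.log (4 * (C1 * (n : ℝ) ^ N1 + C2 * (n : ℝ) ^ N2 +
      1))) ≤ 4 * Real.sqrt K0 * (n : ℝ) ^ δ := by
    intro n hn
    have hn1 : (1 : ℝ) ≤ n := by exact_mod_cast hn
    have hn0 : (0 : ℝ) < n := by linarith
    have e1 : 4 * (C1 * (n : ℝ) ^ N1 + C2 * (n : ℝ) ^ N2 + 1) ≤ X * (n : ℝ) ^ (N1 + N2) := by
      have a1 : (n : ℝ) ^ N1 ≤ (n : ℝ) ^ (N1 + N2) := pow_le_pow_right₀ hn1 (by omega)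
      have a2 : (n : ℝ) ^ N2 ≤ (n : ℝ) ^ (N1 + N2) := pow_le_pow_right₀ hn1 (by omega)
      have a3 : (1 : ℝ) ≤ (n : ℝ) ^ (N1 + N2) := one_le_pow₀ hn1
      rw [hX]
      nlinarith [mul_le_mul_of_nonneg_left a1 hC1.le, mul_le_mul_of_nonneg_left a2 hC2.le]
    have e2 : Real.log (4 * (C1 * (n : ℝ) ^ N1 + C2 * (n : ℝ) ^ N2 + 1)) ≤
        K0 * ((n : ℝ) ^ δ) ^ 2 := by
      refine (Real.log_le_log (by positivity) e1).trans ?_
      rw [Real.log_mul (by positivity) (by positivity), Real.log_pow]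
      have b1 : Real.log (n : ℝ) ≤ (n : ℝ) ^ (2 * δ) / (2 * δ) :=
        Real.log_le_rpow_div hn0.le (by positivity)
      have b2 : ((n : ℝ) ^ δ) ^ 2 = (n : ℝ) ^ (2 * δ) := by
        rw [← Real.rpow_natCast, ← Real.rpow_mul hn0.le]
        congr 1
        push_cast
        ring
      have b3 : (1 : ℝ) ≤ (n : ℝ) ^ (2 * δ) := Real.one_le_rpow hn1 (by positivity)
      have b4 := Real.log_nonneg hX1
      have b5 : ((N1 + N2 : ℕ) : ℝ) * Real.log n ≤ ((N1 + N2 : ℕ) : ℝ) *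
          ((n : ℝ) ^ (2 * δ) / (2 * δ)) := mul_le_mul_of_nonneg_left b1 (by positivity)
      rw [b2, hK0, add_mul]
      have b6 : Real.log X ≤ Real.log X * (n : ℝ) ^ (2 * δ) := by nlinarith
      have b7 : ((N1 + N2 : ℕ) : ℝ) * ((n : ℝ) ^ (2 * δ) / (2 * δ)) =
        ((N1 + N2 : ℕ) : ℝ) / (2 * δ) * (n : ℝ) ^ (2 * δ) := by ring
      linarith
    have e3 : Real.sqrt (Real.log (4 * (C1 * (n : ℝ) ^ N1 + C2 * (n : ℝ) ^ N2 + 1))) ≤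
        Real.sqrt K0 * (n : ℝ) ^ δ := by
      refine (Real.sqrt_le_sqrt e2).trans ?_
      rw [Real.sqrt_mul hK00, Real.sqrt_sq (by positivity)]
    linarith
  obtain ⟨K1, hK1⟩ : ∃ K1, K1 = 4 * Real.sqrt K0 := ⟨_, rfl⟩
  have hK10 : 0 ≤ K1 := by rw [hK1]; positivity
  obtain ⟨K2, hK2⟩ : ∃ K2, K2 = (5 : ℝ) ^ (s / 2) * C3 ^ (1 / 2 : ℝ) := ⟨_, rfl⟩
  have hK20 : 0 ≤ K2 := by rw [hK2]; positivity
  obtain ⟨K, hK⟩ : ∃ K, K = (K1 + 1) * (Cd * (K2 * K1 + 1)) := ⟨_, rfl⟩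
  have key : ∀ n : ℕ, n0 ≤ n → 1 ≤ n → c / 4 * (n : ℝ) ^ (2 * δ) ≤ K := by
    intro n hn hn1
    obtain ⟨L, hL0, hL1, hL2⟩ := h n hn hn1
    have hnn : (1 : ℝ) ≤ n := by exact_mod_cast hn1
    have hn0 : (0 : ℝ) < n := by linarith
    have g1 : L ≤ K1 * (n : ℝ) ^ δ := by
      rw [hK1]
      exact hL1.trans (hL n hn1)
    have g2 : (1 : ℝ) ≤ (n : ℝ) ^ δ := Real.one_le_rpow hnn hδ.le
    have g3 : (5 * (n : ℝ) ^ 2) ^ (s / 2) * (C3 * n) ^ (1 / 2 : ℝ) = K2 * (n : ℝ) ^ (s + 1 / 2) := by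
      rw [hK2, Real.mul_rpow (by norm_num) (by positivity), Real.mul_rpow hC3.le hn0.le,
        ← Real.rpow_natCast, ← Real.rpow_mul hn0.le, Real.rpow_add hn0]
      have : ((2 : ℕ) : ℝ) * (s / 2) = s := by push_cast; ring
      rw [this]
      ring
    rw [g3] at hL2
    have g4 : (1 : ℝ) ≤ (n : ℝ) ^ (s + 1 / 2) := Real.one_le_rpow hnn (by linarith)
    have g5 : L + 1 ≤ (K1 + 1) * (n : ℝ) ^ δ := by nlinarith
    have g6 : K2 * (n : ℝ) ^ (s + 1 / 2) * L + 1 ≤ (K2 * K1 + 1) * ((n : ℝ) ^ (s + 1 / 2) *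
        (n : ℝ) ^ δ) := by
      have i1 : K2 * (n : ℝ) ^ (s + 1 / 2) * L ≤ K2 * (n : ℝ) ^ (s + 1 / 2) * (K1 * (n : ℝ) ^ δ) :=
        mul_le_mul_of_nonneg_left g1 (by positivity)
      have i2 : (1 : ℝ) ≤ (n : ℝ) ^ (s + 1 / 2) * (n : ℝ) ^ δ := one_le_mul_of_one_le_of_one_le g4 g2
      nlinarith
    have g7 : (L + 1) * (Cd * (K2 * (n : ℝ) ^ (s + 1 / 2) * L + 1)) ≤
        ((K1 + 1) * (n : ℝ) ^ δ) * (Cd * ((K2 * K1 + 1) * ((n : ℝ) ^ (s + 1 / 2) *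
        (n : ℝ) ^ δ))) := by
      apply mul_le_mul g5 (mul_le_mul_of_nonneg_left g6 hCd) (by positivity) (by positivity)
    have g8 : ((K1 + 1) * (n : ℝ) ^ δ) * (Cd * ((K2 * K1 + 1) * ((n : ℝ) ^ (s + 1 / 2) *
        (n : ℝ) ^ δ))) * (n : ℝ) ^ (2 * δ) = K * n := by
      have j1 : (n : ℝ) ^ δ * ((n : ℝ) ^ (s + 1 / 2) * (n : ℝ) ^ δ) * (n : ℝ) ^ (2 * δ) = n := by
        rw [← Real.rpow_add hn0, ← Real.rpow_add hn0, ← Real.rpow_add hn0]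
        have : δ + (s + 1 / 2 + δ) + 2 * δ = 1 := by linarith
        rw [this, Real.rpow_one]
      rw [hK]
      calc ((K1 + 1) * (n : ℝ) ^ δ) * (Cd * ((K2 * K1 + 1) * ((n : ℝ) ^ (s + 1 / 2) *
        (n : ℝ) ^ δ))) * (n : ℝ) ^ (2 * δ) = ((K1 + 1) * (Cd * (K2 * K1 + 1))) *
          ((n : ℝ) ^ δ * ((n : ℝ) ^ (s + 1 / 2) * (n : ℝ) ^ δ) * (n : ℝ) ^ (2 * δ)) := by ring
        _ = _ := by rw [j1]
    have g9 : c * ((n : ℝ) / 4) * (n : ℝ) ^ (2 * δ) ≤ K * n := by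
      rw [← g8]
      exact mul_le_mul_of_nonneg_right (hL2.trans g7) (by positivity)
    have g10 : (c / 4 * (n : ℝ) ^ (2 * δ)) * n ≤ K * n := by nlinarith
    exact le_of_mul_le_mul_right g10 hn0
  have ht : Tendsto (fun n : ℕ => c / 4 * (n : ℝ) ^ (2 * δ)) atTop atTop :=
    Tendsto.const_mul_atTop (by positivity)
      ((tendsto_rpow_atTop (by positivity)).comp tendsto_natCast_atTop_atTop)
  obtain ⟨n, hn⟩ := ((ht.eventually_gt_atTop K).and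
    ((eventually_ge_atTop n0).and (eventually_ge_atTop 1))).exists
  linarith [key n hn.2.1 hn.2.2, hn.1]

lemma blk_abs {n : ℕ} {m : ℤ} (h : m ∈ blk n) : |(m : ℝ)| ≤ 2 * n := by
  unfold blk at h
  rw [Finset.mem_filter, Finset.mem_Icc] at h
  rw [abs_le]
  constructor
  · have := h.1.1
    exact_mod_cast this
  · have := h.1.2
    exact_mod_cast this

lemma blk_sq {n : ℕ} (hn : 1 ≤ n) {m : ℤ} (h : m ∈ blk n) : 1 + (m : ℝ) ^ 2 ≤ 5 * (n : ℝ) ^ 2 := by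
  have h1 := blk_abs h
  have h2 : (1 : ℝ) ≤ n := by exact_mod_cast hn
  have h3 : (m : ℝ) ^ 2 ≤ (2 * n) ^ 2 := by
    rw [← sq_abs]
    exact pow_le_pow_left₀ (abs_nonneg _) h1 2
  nlinarith

lemma blk_subset (n : ℕ) : blk n ⊆ Finset.Icc (-(2 * n : ℤ)) (2 * n) := Finset.filter_subset _ _

end ModFINLB

open ModFINLB in
theorem finlb (hALG : StmALG) (hCNT : StmCNT) (hRAND : StmRAND) (hMAX : StmMAX)
    (hNETG : StmNETG) (hNETX : StmNETX) (hBRT : StmBRT) : StmFINLB := by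
  intro D Γ F η haut pm hpm s hs0 hs ⟨Cd, hd⟩
  obtain ⟨k, hk, C1, N1, hC1, h1⟩ := hNETG D
  obtain ⟨C2, N2, hC2, h2⟩ := hNETX D Γ F η haut
  obtain ⟨C3, hC3, h3⟩ := hBRT D Γ F η haut
  obtain ⟨n0, h4⟩ := hCNT D
  obtain ⟨c, hc, h5⟩ := (hMAX D k hk).2 pm hpm
  refine numeric (N1 := N1) (N2 := N2) (n0 := n0) hc hs0 hs (abs_nonneg Cd) hC1 hC2 hC3 ?_
  intro n hn0 hn1
  have hnn : (1 : ℝ) ≤ n := by exact_mod_cast hn1
  have hnpos : (0 : ℝ) < n := by linarith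
  obtain ⟨Q, hQ, hQ'⟩ := h1 n hn1
  obtain ⟨R, hR, hR'⟩ := h2 n hn1
  obtain ⟨Dn, hDn⟩ : ∃ Dn, Dn = (5 * (n : ℝ) ^ 2) ^ (s / 2) * (C3 * n) ^ (1 / 2 : ℝ) := ⟨_, rfl⟩
  have hDn0 : 0 < Dn := by rw [hDn]; positivity
  obtain ⟨b, hb⟩ : ∃ b : (↥Q ⊕ ↥R ⊕ Unit) → ℤ → ℂ, b = fun j m => match j with
    | Sum.inl q => Complex.exp (Complex.I * (m * q.1.1)) * mc D k m q.1.2
    | Sum.inr (Sum.inl g) => (((1 + (m : ℝ) ^ 2) ^ (s / 2) : ℝ) : ℂ) * η (D.π g.1 (D.e m)) / Dn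
    | Sum.inr (Sum.inr _) => 0 := ⟨_, rfl⟩
  have hb1 : ∀ j, ∑ m ∈ blk n, ‖b j m‖ ^ 2 ≤ 1 := by
    rintro (q | g | u)
    · have : ∀ m ∈ blk n, ‖b (Sum.inl q) m‖ ^ 2 = ‖mc D k m q.1.2‖ ^ 2 := by
        intro m _
        rw [hb]
        simp only
        rw [norm_mul]
        have : ‖Complex.exp (Complex.I * ((m : ℂ) * ((q.1.1 : ℝ) : ℂ)))‖ = 1 := by
          rw [mul_comm, show ((m : ℂ) * ((q.1.1 : ℝ) : ℂ)) = (((m : ℝ) * q.1.1 : ℝ) : ℂ) by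
            push_cast; ring]
          exact Complex.norm_exp_ofReal_mul_I _
        rw [this, one_mul]
      rw [Finset.sum_congr rfl this]
      exact (hALG D k hk).2.1 _ _
    · have hle : ∀ m ∈ blk n, ‖b (Sum.inr (Sum.inl g)) m‖ ^ 2 ≤
          ‖η (D.π g.1 (D.e m))‖ ^ 2 / (C3 * n) := by
        intro m hm
        rw [hb]
        simp only
        rw [norm_div, norm_mul, Complex.norm_real, Complex.norm_real, Real.norm_of_nonneg hDn0.le,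
          Real.norm_of_nonneg (by positivity), div_pow, mul_pow]
        have e1 : ((1 + (m : ℝ) ^ 2) ^ (s / 2)) ^ 2 ≤ ((5 * (n : ℝ) ^ 2) ^ (s / 2)) ^ 2 :=
          pow_le_pow_left₀ (by positivity)
            (Real.rpow_le_rpow (by positivity) (blk_sq hn1 hm) (by linarith)) 2
        have e2 : Dn ^ 2 = ((5 * (n : ℝ) ^ 2) ^ (s / 2)) ^ 2 * (C3 * n) := by
          rw [hDn, mul_pow, ← Real.sqrt_eq_rpow, Real.sq_sqrt (by positivity)]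
        rw [e2, div_le_div_iff₀ (by positivity) (by positivity)]
        have e3 : 0 ≤ ‖η (D.π g.1 (D.e m))‖ ^ 2 * (C3 * n) := by positivity
        nlinarith [mul_le_mul_of_nonneg_right e1 e3]
      refine (Finset.sum_le_sum hle).trans ?_
      rw [← Finset.sum_div, div_le_one (by positivity)]
      exact (Finset.sum_le_sum_of_subset_of_nonneg (blk_subset n)
        (fun _ _ _ => by positivity)).trans (h3 n hn1 g.1)
    · rw [hb]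
      simp
  obtain ⟨ε, hε, hε2⟩ := hRAND (↥Q ⊕ ↥R ⊕ Unit) (blk n) b hb1
  obtain ⟨L, hL⟩ : ∃ L, L = 4 * Real.sqrt (Real.log (4 * Fintype.card (↥Q ⊕ ↥R ⊕ Unit))) :=
    ⟨_, rfl⟩
  rw [← hL] at hε2
  have hL0 : 0 ≤ L := by rw [hL]; positivity
  have hcard : (Fintype.card (↥Q ⊕ ↥R ⊕ Unit) : ℝ) ≤ C1 * (n : ℝ) ^ N1 + C2 * (n : ℝ) ^ N2 + 1 := by
    rw [Fintype.card_sum, Fintype.card_sum, Fintype.card_coe, Fintype.card_coe, Fintype.card_unit]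
    push_cast
    linarith
  have hcard1 : (1 : ℝ) ≤ Fintype.card (↥Q ⊕ ↥R ⊕ Unit) := by
    rw [Fintype.card_sum, Fintype.card_sum, Fintype.card_coe, Fintype.card_coe, Fintype.card_unit]
    push_cast
    have a1 : (0 : ℝ) ≤ Q.card := Nat.cast_nonneg _
    have a2 : (0 : ℝ) ≤ R.card := Nat.cast_nonneg _
    linarith
  refine ⟨L, hL0, ?_, ?_⟩
  · rw [hL]
    apply mul_le_mul_of_nonneg_left _ (by norm_num)
    apply Real.sqrt_le_sqrt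
    apply Real.log_le_log (by linarith)
    linarith
  -- the vector
  obtain ⟨v, hv⟩ : ∃ v, v = D.vec (blk n) (fun m => (ε m : ℂ)) := ⟨_, rfl⟩
  have hv1 : ∀ g, ‖⟪v, D.π g (D.e k)⟫_ℂ‖ ≤ L + 1 := by
    rw [hv]
    apply hQ' ε hε L hL0
    intro q hq
    have := hε2 (Sum.inl ⟨q, hq⟩)
    rw [hb] at this
    exact this
  have hL1 : 0 < L + 1 := by linarith
  have hw : ∀ g, ‖⟪(((L + 1)⁻¹ : ℝ) : ℂ) • v, D.π g (D.e k)⟫_ℂ‖ ≤ 1 := by
    intro g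
    rw [inner_smul_left, norm_mul, RCLike.norm_conj, Complex.norm_real,
      Real.norm_of_nonneg (by positivity), inv_mul_le_one₀ hL1]
    exact hv1 g
  have hlow := h5 _ hw (blk n) (fun m => (ε m : ℂ))
  rw [← hv, inner_smul_left, norm_mul, RCLike.norm_conj, Complex.norm_real,
    Real.norm_of_nonneg (by positivity), inner_self_eq_norm_sq_to_K] at hlow
  have hnv : ‖((‖v‖ : ℝ) : ℂ) ^ 2‖ = ‖v‖ ^ 2 := by
    rw [norm_pow, Complex.norm_real, Real.norm_of_nonneg (norm_nonneg _)]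
  have hlow2 : c * ((L + 1)⁻¹ * ‖v‖ ^ 2) ≤ pm v := by
    rw [← hnv]
    exact hlow
  have hcnt : (n : ℝ) / 4 ≤ ‖v‖ ^ 2 := by
    rw [hv]
    exact h4 n hn0 ε hε
  -- the upper bound
  have hup := hd (blk n) (fun m => (ε m : ℂ))
  rw [← hv] at hup
  have hpa : pAut D η (D.vec (blk n) fun m => (((1 + (m : ℝ) ^ 2) ^ (s / 2) : ℝ) : ℂ) * (ε m : ℂ)) ≤
      Dn * L + 1 := by
    apply hR' _ _ (Dn * L) (by positivity)
    · intro g hg
      have h6 := hε2 (Sum.inr (Sum.inl ⟨g, hg⟩))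
      rw [hb] at h6
      simp only at h6
      have h7 : ∑ m ∈ blk n, (((1 + (m : ℝ) ^ 2) ^ (s / 2) : ℝ) : ℂ) * (ε m : ℂ) *
          η (D.π g (D.e m)) = (Dn : ℂ) * ∑ m ∈ blk n, (ε m : ℂ) *
            ((((1 + (m : ℝ) ^ 2) ^ (s / 2) : ℝ) : ℂ) * η (D.π g (D.e m)) / Dn) := by
        rw [Finset.mul_sum]
        apply Finset.sum_congr rfl
        intro m _
        have : (Dn : ℂ) ≠ 0 := by exact_mod_cast hDn0.ne'
        field_simp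
      rw [h7, norm_mul, Complex.norm_real, Real.norm_of_nonneg hDn0.le]
      exact mul_le_mul_of_nonneg_left h6 hDn0.le
    · intro m hm
      rw [norm_mul, Complex.norm_real, Complex.norm_real, Real.norm_of_nonneg (by positivity)]
      have hεm : ‖ε m‖ = 1 := by
        rcases hε m with h | h <;> rw [h] <;> norm_num
      rw [hεm, mul_one]
      have e0 : (1 : ℝ) ≤ 1 + (m : ℝ) ^ 2 := by nlinarith [sq_nonneg (m : ℝ)]
      have e1 : (1 + (m : ℝ) ^ 2) ^ (s / 2) ≤ (1 + (m : ℝ) ^ 2) ^ (1 / 2 : ℝ) :=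
        Real.rpow_le_rpow_of_exponent_le e0 (by linarith)
      refine e1.trans ?_
      rw [← Real.sqrt_eq_rpow, Real.sqrt_le_left (by positivity)]
      have := blk_sq hn1 hm
      nlinarith
  have hpa0 : 0 ≤ pAut D η (D.vec (blk n) fun m => (((1 + (m : ℝ) ^ 2) ^ (s / 2) : ℝ) : ℂ) *
      (ε m : ℂ)) := by
    unfold pAut
    exact Real.iSup_nonneg fun _ => norm_nonneg _
  have hup2 : pm v ≤ |Cd| * (Dn * L + 1) := by
    refine hup.trans ?_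
    refine (mul_le_mul_of_nonneg_right (le_abs_self Cd) hpa0).trans ?_
    exact mul_le_mul_of_nonneg_left hpa (abs_nonneg _)
  rw [← hDn]
  have hfin : c * ((L + 1)⁻¹ * ((n : ℝ) / 4)) ≤ |Cd| * (Dn * L + 1) := by
    refine le_trans ?_ (hlow2.trans hup2)
    apply mul_le_mul_of_nonneg_left _ hc.le
    exact mul_le_mul_of_nonneg_left hcnt (by positivity)
  have := mul_le_mul_of_nonneg_left hfin hL1.le
  calc c * ((n : ℝ) / 4) = (L + 1) * (c * ((L + 1)⁻¹ * ((n : ℝ) / 4))) := by field_simp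
    _ ≤ _ := this

end Pool.Agent.T6.H28.SN
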