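import Pool.Agent.T6.H28.SN.Stm

/-!
# An invariant measure on `Γ \ G`
-/

set_option autoImplicit false

open scoped Topology ENNReal NNReal
open Filter MeasureTheory

namespace Pool.Agent.T6.H28.SN

namespace ModHAAR

section General

variable {X : Type} [Group X] [TopologicalSpace X] [IsTopologicalGroup X] [LocallyCompactSpace X]
  [SecondCountableTopology X] [T2Space X] [MeasurableSpace X] [BorelSpace X]

/-- the number of `γ ∈ Γ` with `γ g ∈ F` -/
noncomputable def cnt (Γ : Subgroup X) (F : Set X) (g : X) : ℝ≥0∞ :=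
  ∑' γ : Γ, F.indicator (fun _ => (1 : ℝ≥0∞)) ((γ : X) * g)

theorem cnt_inv (Γ : Subgroup X) (F : Set X) (δ : Γ) (g : X) :
    cnt Γ F ((δ : X) * g) = cnt Γ F g := by
  rw [cnt, cnt, ← (Equiv.mulRight δ).tsum_eq
    (fun γ : Γ => F.indicator (fun _ => (1 : ℝ≥0∞)) ((γ : X) * g))]
  refine tsum_congr fun γ => ?_
  simp [mul_assoc]

theorem cnt_meas (Γ : Subgroup X) [Countable Γ] {F : Set X} (hF : MeasurableSet F) :
    Measurable (cnt Γ F) := by
  refine Measurable.ennreal_tsum fun γ => ?_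
  exact (measurable_const.indicator hF).comp (measurable_const_mul _)

/-- the density -/
noncomputable def dens (Γ : Subgroup X) (F : Set X) (g : X) : ℝ≥0∞ :=
  F.indicator (fun _ => (1 : ℝ≥0∞)) g / cnt Γ F g

theorem dens_meas (Γ : Subgroup X) [Countable Γ] {F : Set X} (hF : MeasurableSet F) :
    Measurable (dens Γ F) :=
  (measurable_const.indicator hF).div (cnt_meas Γ hF)

theorem unfold (Γ : Subgroup X) [Countable Γ] (μ : Measure X) [μ.IsMulLeftInvariant]
    (φ ψ f : X → ℝ≥0∞) (hφ : Measurable φ) (hψ : Measurable ψ) (hf : Measurable f)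
    (h1 : ∀ g, ∑' γ : Γ, φ ((γ : X) * g) = 1) (h2 : ∀ g, ∑' γ : Γ, ψ ((γ : X) * g) = 1)
    (hi : ∀ γ ∈ Γ, ∀ g, f (γ * g) = f g) :
    ∫⁻ g, ψ g * f g ∂μ = ∫⁻ g, φ g * f g ∂μ := by
  calc ∫⁻ g, ψ g * f g ∂μ = ∫⁻ g, ∑' γ : Γ, φ ((γ : X) * g) * (ψ g * f g) ∂μ := by
        refine lintegral_congr fun g => ?_
        rw [ENNReal.tsum_mul_right, h1, one_mul]
    _ = ∑' γ : Γ, ∫⁻ g, φ ((γ : X) * g) * (ψ g * f g) ∂μ := by
        rw [lintegral_tsum]
        intro γ
        exact ((hφ.comp (measurable_const_mul _)).mul (hψ.mul hf)).aemeasurable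
    _ = ∑' γ : Γ, ∫⁻ g, φ g * (ψ ((γ : X)⁻¹ * g) * f g) ∂μ := by
        refine tsum_congr fun γ => ?_
        rw [← lintegral_mul_left_eq_self (μ := μ)
          (fun g => φ g * (ψ ((γ : X)⁻¹ * g) * f g)) (γ : X)]
        refine lintegral_congr fun g => ?_
        rw [inv_mul_cancel_left, hi γ γ.2]
    _ = ∫⁻ g, ∑' γ : Γ, φ g * (ψ ((γ : X)⁻¹ * g) * f g) ∂μ := by
        rw [lintegral_tsum]
        intro γ
        exact (hφ.mul ((hψ.comp (measurable_const_mul _)).mul hf)).aemeasurable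
    _ = ∫⁻ g, φ g * f g ∂μ := by
        refine lintegral_congr fun g => ?_
        rw [ENNReal.tsum_mul_left, ENNReal.tsum_mul_right]
        have : ∑' γ : Γ, ψ ((γ : X)⁻¹ * g) = 1 := by
          rw [← h2 g, ← (Equiv.inv Γ).tsum_eq]
          refine tsum_congr fun γ => ?_
          simp
        rw [this, one_mul]

theorem general (Γ : Subgroup X) (F : Set X) (hd : DiscreteTopology Γ) (hF : IsCompact F)
    (hcov : ∀ g, ∃ γ ∈ Γ, ∃ f ∈ F, g = γ * f) :
    ∃ μ : Measure X, IsFiniteMeasure μ ∧ μ ≠ 0 ∧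
    ∀ f : X → ℝ≥0∞, Measurable f → (∀ γ ∈ Γ, ∀ g, f (γ * g) = f g) → ∀ h,
      ∫⁻ g, f (g * h) ∂μ = ∫⁻ g, f g ∂μ := by
  haveI : Countable Γ := by
    haveI := hd
    exact TopologicalSpace.separableSpace_iff_countable.mp inferInstance
  have hFm : MeasurableSet F := hF.isClosed.measurableSet
  have hfin : ∀ g : X, {γ : Γ | (γ : X) * g ∈ F}.Finite := by
    intro g
    have ht := Subgroup.tendsto_coe_cofinite_of_discrete Γ (isDiscrete_iff_discreteTopology.mpr hd)
    have hK : IsCompact ((fun x => x * g⁻¹) '' F) := hF.image (continuous_mul_const _)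
    have h1 := ht hK.compl_mem_cocompact
    rw [mem_map, mem_cofinite] at h1
    refine h1.subset ?_
    intro γ hγ
    simp only [Set.mem_compl_iff, Set.mem_preimage, not_not]
    exact ⟨(γ : X) * g, hγ, by simp⟩
  have hcnt0 : ∀ g, cnt Γ F g ≠ 0 := by
    intro g
    obtain ⟨γ, hγ, f, hf, rfl⟩ := hcov g
    have h1 : F.indicator (fun _ => (1 : ℝ≥0∞)) (((⟨γ, hγ⟩⁻¹ : Γ) : X) * (γ * f)) ≤
        cnt Γ F (γ * f) := ENNReal.le_tsum _
    intro h0
    rw [h0] at h1
    simp [hf] at h1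
  have hcntT : ∀ g, cnt Γ F g ≠ ∞ := by
    intro g
    rw [cnt, tsum_eq_sum (s := (hfin g).toFinset)]
    · refine ENNReal.sum_ne_top.mpr fun γ _ => ?_
      by_cases hγ : (γ : X) * g ∈ F
      · simp [hγ]
      · simp [hγ]
    · intro γ hγ
      rw [Set.Finite.mem_toFinset, Set.mem_setOf_eq] at hγ
      simp [hγ]
  have hsum : ∀ g, ∑' γ : Γ, dens Γ F ((γ : X) * g) = 1 := by
    intro g
    have : ∀ γ : Γ, dens Γ F ((γ : X) * g) =
        F.indicator (fun _ => (1 : ℝ≥0∞)) ((γ : X) * g) * (cnt Γ F g)⁻¹ := by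
      intro γ
      rw [dens, cnt_inv, div_eq_mul_inv]
    simp_rw [this]
    rw [ENNReal.tsum_mul_right]
    exact ENNReal.mul_inv_cancel (hcnt0 g) (hcntT g)
  have hdm := dens_meas Γ hFm
  let μ₀ : Measure X := Measure.haar
  let μ : Measure X := μ₀.withDensity (dens Γ F)
  have hle : ∀ g, dens Γ F g ≤ F.indicator (fun _ => (1 : ℝ≥0∞)) g := by
    intro g
    rw [dens]
    have h1 : (1 : ℝ≥0∞) ≤ cnt Γ F g := by
      obtain ⟨γ, hγ, f, hf, rfl⟩ := hcov g
      have h1 : F.indicator (fun _ => (1 : ℝ≥0∞)) (((⟨γ, hγ⟩⁻¹ : Γ) : X) * (γ * f)) ≤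
          cnt Γ F (γ * f) := ENNReal.le_tsum _
      simpa [hf] using h1
    exact ENNReal.div_le_of_le_mul (by
      calc F.indicator (fun _ => (1 : ℝ≥0∞)) g = F.indicator (fun _ => (1 : ℝ≥0∞)) g * 1 := by
            rw [mul_one]
        _ ≤ _ := by gcongr)
  have hμuniv : μ Set.univ = ∫⁻ g, dens Γ F g ∂μ₀ := by
    rw [withDensity_apply _ MeasurableSet.univ, Measure.restrict_univ]
  have hfinμ : μ Set.univ < ∞ := by
    rw [hμuniv]
    refine lt_of_le_of_lt (lintegral_mono hle) ?_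
    rw [lintegral_indicator hFm]
    simpa using hF.measure_lt_top
  haveI : IsFiniteMeasure μ := ⟨hfinμ⟩
  have hpos : μ Set.univ ≠ 0 := by
    intro h0
    rw [hμuniv, lintegral_eq_zero_iff hdm] at h0
    have h1 : ∀ γ : Γ, ∀ᵐ g ∂μ₀, dens Γ F ((γ : X) * g) = 0 := by
      intro γ
      have := (eventually_mul_left_iff μ₀ (γ : X) (p := fun g => dens Γ F g = 0)).mpr h0
      exact this
    rw [← ae_all_iff] at h1
    have h2 : ∀ᵐ g ∂μ₀, False := by
      filter_upwards [h1] with g hg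
      have := hsum g
      simp [hg] at this
    rw [eventually_false_iff_eq_bot, ae_eq_bot] at h2
    exact (NeZero.ne μ₀) h2
  refine ⟨μ, inferInstance, ?_, ?_⟩
  · intro h0
    exact hpos (by rw [h0]; simp)
  -- the basic formula
  have key : ∀ h : X, ∃ Δ : ℝ≥0, ∀ f : X → ℝ≥0∞, Measurable f →
      (∀ γ ∈ Γ, ∀ g, f (γ * g) = f g) → ∫⁻ g, f (g * h) ∂μ = Δ * ∫⁻ g, f g ∂μ := by
    intro h
    let ν : Measure X := Measure.map (· * h) μ₀
    have hν : ν = Measure.haarScalarFactor ν μ₀ • μ₀ := Measure.isMulLeftInvariant_eq_smul ν μ₀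
    refine ⟨Measure.haarScalarFactor ν μ₀, fun f hf hi => ?_⟩
    have hψ : Measurable fun g => dens Γ F (g * h⁻¹) := hdm.comp (measurable_mul_const _)
    calc ∫⁻ g, f (g * h) ∂μ = ∫⁻ g, dens Γ F g * f (g * h) ∂μ₀ := by
          exact lintegral_withDensity_eq_lintegral_mul μ₀ hdm
            (g := fun g => f (g * h)) (hf.comp (measurable_mul_const h))
      _ = ∫⁻ g, dens Γ F (g * h * h⁻¹) * f (g * h) ∂μ₀ := by
          simp only [mul_inv_cancel_right]
      _ = ∫⁻ g, dens Γ F (g * h⁻¹) * f g ∂ν := by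
          exact (lintegral_map (μ := μ₀) (f := fun g => dens Γ F (g * h⁻¹) * f g) (hψ.mul hf)
            (measurable_mul_const h)).symm
      _ = (Measure.haarScalarFactor ν μ₀ : ℝ≥0∞) * ∫⁻ g, dens Γ F (g * h⁻¹) * f g ∂μ₀ := by
          conv_lhs => rw [hν]
          rw [lintegral_smul_measure]
          rfl
      _ = (Measure.haarScalarFactor ν μ₀ : ℝ≥0∞) * ∫⁻ g, dens Γ F g * f g ∂μ₀ := by
          rw [unfold Γ μ₀ (dens Γ F) (fun g => dens Γ F (g * h⁻¹)) f hdm hψ hf hsum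
            (fun g => by simpa only [mul_assoc] using hsum (g * h⁻¹)) hi]
      _ = (Measure.haarScalarFactor ν μ₀ : ℝ≥0∞) * ∫⁻ g, f g ∂μ := by
          rw [show ∫⁻ g, f g ∂μ = ∫⁻ g, dens Γ F g * f g ∂μ₀ from
            lintegral_withDensity_eq_lintegral_mul μ₀ hdm hf]
  intro f hf hi h
  obtain ⟨Δ, hΔ⟩ := key h
  have h1 := hΔ (fun _ => 1) measurable_const (fun _ _ _ => rfl)
  rw [lintegral_one] at h1
  have h2 : (Δ : ℝ≥0∞) = 1 := by
    have h3 : μ Set.univ * (Δ : ℝ≥0∞) = μ Set.univ * 1 := by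
      rw [mul_one, mul_comm]; exact h1.symm
    exact (ENNReal.mul_right_inj hpos hfinμ.ne).mp h3
  rw [hΔ f hf hi, h2, one_mul]

end General

end ModHAAR

theorem haar : StmHAAR := by
  intro Γ F hd hF hcov
  have hce : Topology.IsClosedEmbedding ((↑) : G → Matrix (Fin 2) (Fin 2) ℝ) :=
    Matrix.SpecialLinearGroup.isClosedEmbedding_val
  have : LocallyCompactSpace (Matrix (Fin 2) (Fin 2) ℝ) :=
    inferInstanceAs (LocallyCompactSpace (Fin 2 → Fin 2 → ℝ))
  have : SecondCountableTopology (Matrix (Fin 2) (Fin 2) ℝ) :=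
    inferInstanceAs (SecondCountableTopology (Fin 2 → Fin 2 → ℝ))
  have : LocallyCompactSpace G := hce.locallyCompactSpace
  have : SecondCountableTopology G := hce.isEmbedding.secondCountableTopology
  have : T2Space G := hce.isEmbedding.t2Space
  exact ModHAAR.general Γ F hd hF hcov

end Pool.Agent.T6.H28.SN
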