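import Pool.Agent.T6.H28.SN.Stm

/-!
# HIL: the Hilbert norm, and the seminorms given by a vector with bounded matrix coefficient
-/

set_option autoImplicit false

open scoped InnerProductSpace ComplexConjugate Topology
open Filter

namespace Pool.Agent.T6.H28.SN

namespace ModHIL

theorem param_zero {γ : ℝ → G} {X : Matrix (Fin 2) (Fin 2) ℝ} (h : IsOneParam γ X) : γ 0 = 1 := by
  have h1 := h.add 0 0
  rw [add_zero] at h1
  exact (mul_eq_left.1 h1.symm)

theorem diff_vec (D : Rep) {γ : ℝ → G} {X : Matrix (Fin 2) (Fin 2) ℝ} (h : IsOneParam γ X) (m : ℤ) :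
    Tendsto (fun t : ℝ => (t : ℂ)⁻¹ • (D.π (γ t) (D.e m) - D.e m) - dAct D.a D.e X m)
      (𝓝[≠] 0) (𝓝 0) := by
  have h1 := hasDerivAt_iff_tendsto_slope.1 (D.diff γ X h m)
  have h2 := h1.sub_const (dAct D.a D.e X m)
  rw [sub_self] at h2
  refine h2.congr fun t => ?_
  rw [slope_def_module, sub_zero, param_zero h, map_one]
  congr 1
  rw [← Complex.ofReal_inv, Complex.coe_smul]
  rfl

/-- the difference of the average and the projection -/
noncomputable def T (D : Rep) (m : ℤ) (N : ℕ) (x : D.H) : D.H :=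
  (N : ℂ)⁻¹ • (∑ j ∈ Finset.range N,
      Complex.exp (-(Complex.I * (m * (2 * Real.pi * j / N)))) • D.π (rot (2 * Real.pi * j / N)) x) -
        ⟪D.e m, x⟫_ℂ • D.e m

theorem norm_e_le (D : Rep) (m : ℤ) : ‖D.e m‖ ≤ 1 := by
  by_cases hm : m ∈ D.S
  · have h := D.orth m hm m hm
    rw [if_pos rfl] at h
    have h2 : ‖D.e m‖ ^ 2 = 1 := by
      have h3 := inner_self_eq_norm_sq_to_K (𝕜 := ℂ) (D.e m)
      rw [h] at h3
      have h4 : ((1 : ℝ) : ℂ) = ((‖D.e m‖ ^ 2 : ℝ) : ℂ) := by
        rw [Complex.ofReal_pow]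
        simpa using h3
      exact (Complex.ofReal_injective h4).symm
    nlinarith [norm_nonneg (D.e m)]
  · rw [D.e_out m hm, norm_zero]
    exact zero_le_one

theorem T_add (D : Rep) (m : ℤ) (N : ℕ) (x y : D.H) : T D m N (x + y) = T D m N x + T D m N y := by
  unfold T
  simp only [map_add, smul_add, Finset.sum_add_distrib, inner_add_right, add_smul]
  abel

theorem T_smul (D : Rep) (m : ℤ) (N : ℕ) (c : ℂ) (x : D.H) : T D m N (c • x) = c • T D m N x := by
  unfold T
  simp only [map_smul, inner_smul_right, smul_sub, smul_smul, Finset.smul_sum]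
  congr 1
  refine Finset.sum_congr rfl fun j _ => ?_
  congr 1
  ring

theorem norm_T (D : Rep) (m : ℤ) (N : ℕ) (x : D.H) : ‖T D m N x‖ ≤ 2 * ‖x‖ := by
  unfold T
  have h1 : ‖(N : ℂ)⁻¹ • (∑ j ∈ Finset.range N,
      Complex.exp (-(Complex.I * (m * (2 * Real.pi * j / N)))) •
        D.π (rot (2 * Real.pi * j / N)) x)‖ ≤ ‖x‖ := by
    rw [norm_smul, norm_inv, Complex.norm_natCast]
    have h2 : ‖∑ j ∈ Finset.range N,
        Complex.exp (-(Complex.I * (m * (2 * Real.pi * j / N)))) •
          D.π (rot (2 * Real.pi * j / N)) x‖ ≤ N * ‖x‖ := by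
      calc _ ≤ ∑ j ∈ Finset.range N, ‖x‖ := by
            refine norm_sum_le_of_le _ fun j _ => ?_
            rw [norm_smul, LinearIsometryEquiv.norm_map]
            have h3 : -(Complex.I * ((m : ℂ) * (2 * Real.pi * j / N))) =
                ((-((m : ℝ) * (2 * Real.pi * j / N)) : ℝ) : ℂ) * Complex.I := by
              push_cast
              ring
            rw [h3, Complex.norm_exp_ofReal_mul_I, one_mul]
        _ = N * ‖x‖ := by rw [Finset.sum_const, Finset.card_range, nsmul_eq_mul]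
    rcases Nat.eq_zero_or_pos N with h0 | h0
    · subst h0
      simp
    · have h4 : (0 : ℝ) < N := by exact_mod_cast h0
      calc (N : ℝ)⁻¹ * _ ≤ (N : ℝ)⁻¹ * (N * ‖x‖) := mul_le_mul_of_nonneg_left h2 (by positivity)
        _ = ‖x‖ := by field_simp
  have h5 : ‖⟪D.e m, x⟫_ℂ • D.e m‖ ≤ ‖x‖ := by
    rw [norm_smul]
    have h6 := norm_inner_le_norm (𝕜 := ℂ) (D.e m) x
    have h7 := norm_e_le D m
    nlinarith [norm_nonneg (D.e m), norm_nonneg x, norm_nonneg (⟪D.e m, x⟫_ℂ),
      mul_le_mul h7 (le_refl ‖x‖) (norm_nonneg x) zero_le_one]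
  calc _ ≤ _ := norm_sub_le _ _
    _ ≤ 2 * ‖x‖ := by linarith

theorem geom0 (d : ℤ) (hd : d ≠ 0) (N : ℕ) (hN : |d| < N) :
    ∑ j ∈ Finset.range N, Complex.exp (Complex.I * (d * (2 * Real.pi * j / N))) = 0 := by
  have hN0 : (N : ℂ) ≠ 0 := by
    intro h
    have : N = 0 := by exact_mod_cast h
    subst this
    have := abs_nonneg d
    simp at hN
    omega
  set ζ : ℂ := Complex.exp (Complex.I * (d * (2 * Real.pi / N))) with hζ
  have h1 : ∀ j : ℕ, Complex.exp (Complex.I * (d * (2 * Real.pi * j / N))) = ζ ^ j := by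
    intro j
    rw [hζ, ← Complex.exp_nat_mul]
    congr 1
    ring
  simp only [h1]
  have h2 : ζ ^ N = 1 := by
    rw [hζ, ← Complex.exp_nat_mul, Complex.exp_eq_one_iff]
    refine ⟨d, ?_⟩
    field_simp
  have h3 : ζ ≠ 1 := by
    intro h
    rw [hζ, Complex.exp_eq_one_iff] at h
    obtain ⟨n, hn⟩ := h
    have h4 : (2 * (Real.pi : ℂ) * Complex.I) ≠ 0 := Complex.two_pi_I_ne_zero
    have h5 : (d : ℂ) = n * N := by
      have h6 : (2 * (Real.pi : ℂ) * Complex.I) * d = (2 * (Real.pi : ℂ) * Complex.I) * (n * N) := by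
        have h7 : Complex.I * (d * (2 * Real.pi / N)) * N = n * (2 * Real.pi * Complex.I) * N := by
          rw [hn]
        have h8 : Complex.I * (d * (2 * Real.pi / N)) * N = (2 * (Real.pi : ℂ) * Complex.I) * d := by
          field_simp
        rw [← h8, h7]
        ring
      exact mul_left_cancel₀ h4 h6
    have h9 : d = n * N := by exact_mod_cast h5
    have h10 : n ≠ 0 := by
      rintro rfl
      apply hd
      rw [h9, zero_mul]
    have h11 : (N : ℤ) ≤ |d| := by
      rw [h9, abs_mul, Nat.abs_cast]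
      have : 1 ≤ |n| := Int.one_le_abs h10
      nlinarith [Int.natCast_nonneg N]
    omega
  have h12 := geom_sum_mul ζ N
  rw [h2, sub_self] at h12
  exact (mul_eq_zero.1 h12).resolve_right (sub_ne_zero.2 h3)

theorem T_e (D : Rep) (m l : ℤ) : ∀ᶠ N : ℕ in atTop, T D m N (D.e l) = 0 := by
  by_cases hl : l ∈ D.S
  · have hsum : ∀ N : ℕ, ∑ j ∈ Finset.range N,
        Complex.exp (-(Complex.I * (m * (2 * Real.pi * j / N)))) •
          D.π (rot (2 * Real.pi * j / N)) (D.e l) =
        (∑ j ∈ Finset.range N, Complex.exp (Complex.I * (((l - m : ℤ) : ℂ) *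
          (2 * Real.pi * j / N)))) • D.e l := by
      intro N
      rw [Finset.sum_smul]
      refine Finset.sum_congr rfl fun j _ => ?_
      rw [D.rot_e, smul_smul, ← Complex.exp_add]
      congr 2
      push_cast
      ring
    by_cases hlm : l = m
    · subst hlm
      filter_upwards [eventually_ge_atTop 1] with N hN
      unfold T
      rw [hsum, D.orth l hl l hl, if_pos rfl, sub_self]
      have h1 : ∑ j ∈ Finset.range N, Complex.exp (Complex.I * (((0 : ℤ) : ℂ) *
          (2 * Real.pi * j / N))) = N := by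
        simp
      rw [h1, smul_smul, inv_mul_cancel₀, sub_self]
      have : N ≠ 0 := by omega
      exact_mod_cast this
    · filter_upwards [eventually_gt_atTop (l - m).natAbs] with N hN
      unfold T
      rw [hsum, geom0 (l - m) (sub_ne_zero.2 hlm) N (by rw [Int.abs_eq_natAbs]; exact_mod_cast hN)]
      have h1 : ⟪D.e m, D.e l⟫_ℂ = 0 := by
        by_cases hm : m ∈ D.S
        · rw [D.orth m hm l hl, if_neg (fun h => hlm h.symm)]
        · rw [D.e_out m hm, inner_zero_left]
      rw [h1, zero_smul, zero_smul, smul_zero, sub_zero]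
  · refine Filter.Eventually.of_forall fun N => ?_
    unfold T
    rw [D.e_out l hl]
    simp

theorem dense_span (D : Rep) : (Submodule.span ℂ (Set.range D.e)).topologicalClosure = ⊤ := by
  rw [Submodule.topologicalClosure_eq_top_iff]
  rw [Submodule.eq_bot_iff]
  intro x hx
  refine D.total x fun m => ?_
  exact (Submodule.mem_orthogonal _ _).1 hx _ (Submodule.subset_span ⟨m, rfl⟩)

theorem T_tendsto (D : Rep) (m : ℤ) (x : D.H) : Tendsto (fun N => T D m N x) atTop (𝓝 0) := by
  have hspan : ∀ y ∈ Submodule.span ℂ (Set.range D.e), ∀ᶠ N : ℕ in atTop, T D m N y = 0 := by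
    intro y hy
    induction hy using Submodule.span_induction with
    | mem z hz =>
      obtain ⟨l, rfl⟩ := hz
      exact T_e D m l
    | zero =>
      refine Filter.Eventually.of_forall fun N => ?_
      unfold T
      simp
    | add a b _ _ ha hb =>
      filter_upwards [ha, hb] with N h1 h2
      rw [T_add, h1, h2, add_zero]
    | smul c a _ ha =>
      filter_upwards [ha] with N h1
      rw [T_smul, h1, smul_zero]
  rw [Metric.tendsto_atTop]
  intro ε hε
  have hx : x ∈ (Submodule.span ℂ (Set.range D.e)).topologicalClosure := by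
    rw [dense_span]
    trivial
  obtain ⟨y, hy, hxy⟩ := Metric.mem_closure_iff.1 hx (ε / 4) (by positivity)
  obtain ⟨N0, hN0⟩ := Filter.eventually_atTop.1 (hspan y hy)
  refine ⟨N0, fun N hN => ?_⟩
  have h1 : T D m N x = T D m N (x - y) := by
    have h2 : T D m N x = T D m N (x - y) + T D m N y := by
      rw [← T_add, sub_add_cancel]
    rw [h2, hN0 N hN, add_zero]
  rw [dist_zero_right, h1]
  have h3 := norm_T D m N (x - y)
  rw [dist_eq_norm] at hxy
  linarith

theorem w_bdd (D : Rep) (w x : D.H) : BddAbove (Set.range fun g : G => ‖⟪w, D.π g x⟫_ℂ‖) := by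
  refine ⟨‖w‖ * ‖x‖, ?_⟩
  rintro _ ⟨g, rfl⟩
  have h := norm_inner_le_norm (𝕜 := ℂ) w (D.π g x)
  rwa [LinearIsometryEquiv.norm_map] at h

theorem w_le (D : Rep) (w x : D.H) : (⨆ g : G, ‖⟪w, D.π g x⟫_ℂ‖) ≤ ‖w‖ * ‖x‖ := by
  refine ciSup_le fun g => ?_
  have h := norm_inner_le_norm (𝕜 := ℂ) w (D.π g x)
  rwa [LinearIsometryEquiv.norm_map] at h

theorem w_nonneg (D : Rep) (w x : D.H) : 0 ≤ (⨆ g : G, ‖⟪w, D.π g x⟫_ℂ‖) :=
  Real.iSup_nonneg fun _ => norm_nonneg _

theorem w_tend (D : Rep) (w : D.H) {ι : Type} {l : Filter ι} {f : ι → D.H}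
    (h : Tendsto f l (𝓝 0)) :
    Tendsto (fun i => ⨆ g : G, ‖⟪w, D.π g (f i)⟫_ℂ‖) l (𝓝 0) := by
  have h1 : Tendsto (fun i => ‖w‖ * ‖f i‖) l (𝓝 0) := by
    have h2 := (h.norm).const_mul ‖w‖
    simpa using h2
  exact squeeze_zero (fun i => w_nonneg D w (f i)) (fun i => w_le D w (f i)) h1

end ModHIL

open ModHIL in
theorem hil : StmHIL := by
  intro D
  refine ⟨⟨fun x _ y _ => norm_add_le x y, fun c x _ => norm_smul c x,
    fun x _ hx => norm_pos_iff.2 hx, ⟨1, fun g x _ => ?_⟩, fun γ X h m => ?_, fun x _ m => ?_⟩, ?_⟩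
  · rw [LinearIsometryEquiv.norm_map, one_mul]
  · have h1 := (diff_vec D h m).norm
    rwa [norm_zero] at h1
  · have h1 := (T_tendsto D m x).norm
    rwa [norm_zero] at h1
  · intro k w hw
    refine ⟨⟨fun x _ => w_nonneg D w x, fun x _ y _ => ?_, fun c x _ => ?_, fun g x _ => ?_,
      fun γ X h m => ?_, fun x _ m => ?_⟩, ciSup_le hw⟩
    · refine ciSup_le fun g => ?_
      rw [map_add, inner_add_right]
      exact (norm_add_le _ _).trans (add_le_add (le_ciSup (w_bdd D w x) g) (le_ciSup (w_bdd D w y) g))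
    · show (⨆ g : G, ‖⟪w, D.π g (c • x)⟫_ℂ‖) = ‖c‖ * ⨆ g : G, ‖⟪w, D.π g x⟫_ℂ‖
      rw [Real.mul_iSup_of_nonneg (norm_nonneg c)]
      refine iSup_congr fun g => ?_
      rw [map_smul, inner_smul_right, norm_mul]
    · rw [one_mul]
      refine ciSup_le fun h => ?_
      have h1 : D.π h (D.π g x) = D.π (h * g) x := by
        rw [map_mul]
        rfl
      rw [h1]
      exact le_ciSup (w_bdd D w x) (h * g)
    · exact w_tend D w (diff_vec D h m)
    · exact w_tend D w (T_tendsto D m x)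

end Pool.Agent.T6.H28.SN
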