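import Pool.Agent.T6.H28.SN.Defs

/-!
# The statements of the modules
-/

set_option autoImplicit false

open scoped InnerProductSpace ComplexConjugate Topology ENNReal
open Filter MeasureTheory

namespace Pool.Agent.T6.H28.SN

/-- ALG: the matrix coefficients. -/
def StmALG : Prop := ∀ (D : Rep) (k : ℤ), k ∈ D.S →
  (∀ m t, m ∉ D.S → mc D k m t = 0) ∧
  (∀ (A : Finset ℤ) (t : ℝ), ∑ m ∈ A, ‖mc D k m t‖ ^ 2 ≤ 1) ∧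
  (∀ m, mc D k m 0 = if m = k then 1 else 0) ∧
  (∀ (m : ℤ) (t : ℝ), HasDerivAt (fun t => mc D k m t)
    (D.a (m - 2) * mc D k (m - 2) t - conj (D.a m) * mc D k (m + 2) t) t) ∧
  (∀ (m : ℤ) (t : ℝ), (m : ℂ) * Real.cosh (2 * t) * mc D k m t -
    Real.sinh (2 * t) * (conj (D.a m) * mc D k (m + 2) t + D.a (m - 2) * mc D k (m - 2) t) =
      (k : ℂ) * mc D k m t)

/-- KAP: the Casimir element and the shape of the set of weights. -/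
def StmKAP : Prop := ∀ (D : Rep),
  (∃ κ : ℝ, ∀ m ∈ D.S, 4 * ‖D.a m‖ ^ 2 = ((m : ℝ) + 1) ^ 2 - κ ∧
    4 * ‖D.a (m - 2)‖ ^ 2 = ((m : ℝ) - 1) ^ 2 - κ) ∧
  (∃ C : ℝ, ∀ m, ‖D.a m‖ ≤ C * (1 + |(m : ℝ)|)) ∧
  (∀ m ∈ D.S, ∀ n ∈ D.S, m ≤ n → m + 2 ∈ D.S ∨ n = m) ∧
  ((∃ k ∈ D.S, k - 2 ∉ D.S ∧ 1 ≤ k ∧ ∀ m, m ∈ D.S ↔ ∃ j : ℕ, m = k + 2 * j) ∨
    (∃ k ∈ D.S, k + 2 ∉ D.S ∧ k ≤ -1 ∧ ∀ m, m ∈ D.S ↔ ∃ j : ℕ, m = k - 2 * j) ∨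
    (∃ k : ℤ, ∀ m, m ∈ D.S ↔ ∃ j : ℤ, m = k + 2 * j))

/-- CNT: the number of weights in a dyadic block. -/
def StmCNT : Prop := ∀ (D : Rep), ∃ n0 : ℕ, ∀ n : ℕ, n0 ≤ n → ∀ ε : ℤ → ℝ,
  (∀ m, ε m = 1 ∨ ε m = -1) → (n : ℝ) / 4 ≤ ‖D.vec (blk n) (fun m => (ε m : ℂ))‖ ^ 2

/-- ZER: the matrix coefficients do not vanish identically, and vanish at `0` to high order. -/
def StmZER : Prop := ∀ (D : Rep) (k : ℤ), k ∈ D.S →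
  (∀ m ∈ D.S, ∃ t : ℝ, 0 < t ∧ mc D k m t ≠ 0) ∧
  (∀ (j : ℕ) (m : ℤ), 2 * (j : ℤ) ≤ |m - k| → ∃ C : ℝ, ∀ t : ℝ, 0 ≤ t → t ≤ 1 →
    ‖mc D k m t‖ ≤ C * t ^ j)

/-- KAK: the Cartan decomposition. -/
def StmKAK : Prop := ∀ g : G, ∃ θ t φ : ℝ, 0 ≤ t ∧ g = rot θ * dil t * rot φ

/-- RAND: random signs. -/
def StmRAND : Prop := ∀ (J : Type) [Fintype J] [Nonempty J] (A : Finset ℤ) (b : J → ℤ → ℂ),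
  (∀ j, ∑ m ∈ A, ‖b j m‖ ^ 2 ≤ 1) →
    ∃ ε : ℤ → ℝ, (∀ m, ε m = 1 ∨ ε m = -1) ∧
      ∀ j, ‖∑ m ∈ A, (ε m : ℂ) * b j m‖ ≤ 4 * Real.sqrt (Real.log (4 * Fintype.card J))

/-- LOWA: the integral identities for two consecutive coefficients. -/
def StmLOWA : Prop := ∀ (m k : ℝ) (u v : ℝ → ℝ), Continuous u → Continuous v →
  (∀ t, 0 ≤ u t ∧ u t ≤ 1) → (∀ t, 0 ≤ v t ∧ v t ≤ 1) →
  (∃ C : ℝ, ∀ t, 0 ≤ t → t ≤ 1 → u t ≤ C * t ^ 4 ∧ v t ≤ C * t ^ 4) →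
  (∀ t, 0 < t → HasDerivAt (fun t => u t + v t)
    (2 * ((m * Real.cosh (2 * t) - k) / Real.sinh (2 * t) * u t -
      ((m + 2) * Real.cosh (2 * t) - k) / Real.sinh (2 * t) * v t)) t) →
  (∀ δ : ℕ, 2 ≤ δ → δ ≤ 4 →
    IntegrableOn (fun t => Real.cosh (2 * t) / Real.sinh (2 * t) ^ δ * u t) (Set.Ioi 0) ∧
    IntegrableOn (fun t => 1 / Real.sinh (2 * t) ^ δ * u t) (Set.Ioi 0) ∧
    IntegrableOn (fun t => Real.cosh (2 * t) / Real.sinh (2 * t) ^ δ * v t) (Set.Ioi 0) ∧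
    IntegrableOn (fun t => 1 / Real.sinh (2 * t) ^ δ * v t) (Set.Ioi 0) ∧
    (∫ t in Set.Ioi 0, (m * Real.cosh (2 * t) - k) / Real.sinh (2 * t) ^ δ * u t) -
      (∫ t in Set.Ioi 0, ((m + 2) * Real.cosh (2 * t) - k) / Real.sinh (2 * t) ^ δ * v t) =
      (δ - 1) * ((∫ t in Set.Ioi 0, Real.cosh (2 * t) / Real.sinh (2 * t) ^ δ * u t) +
        ∫ t in Set.Ioi 0, Real.cosh (2 * t) / Real.sinh (2 * t) ^ δ * v t)) ∧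
  (∀ T, 0 ≤ T →
    (∫ t in (0 : ℝ)..T, (m * Real.cosh (2 * t) - k) * u t) -
      (∫ t in (0 : ℝ)..T, ((m + 2) * Real.cosh (2 * t) - k) * v t) =
      Real.sinh (2 * T) / 2 * (u T + v T) - (∫ t in (0 : ℝ)..T, Real.cosh (2 * t) * u t) -
        ∫ t in (0 : ℝ)..T, Real.cosh (2 * t) * v t)

/-- LOWR: the lower bound, real analysis. -/
def StmLOWR : Prop := ∀ (m₀ k : ℝ) (u : ℕ → ℝ → ℝ), |k| + 6 ≤ m₀ → (∀ j, Continuous (u j)) →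
  (∀ j t, 0 ≤ u j t ∧ u j t ≤ 1) →
  (∀ j, ∃ C : ℝ, ∀ t, 0 ≤ t → t ≤ 1 → u j t ≤ C * t ^ 4) →
  (∀ j : ℕ, ∀ t, 0 < t → HasDerivAt (fun t => u j t + u (j + 1) t)
    (2 * (((m₀ + 2 * j) * Real.cosh (2 * t) - k) / Real.sinh (2 * t) * u j t -
      ((m₀ + 2 * j + 2) * Real.cosh (2 * t) - k) / Real.sinh (2 * t) * u (j + 1) t)) t) →
  (∃ t, 0 < t ∧ u 0 t ≠ 0) →
  ∃ c R : ℝ, 0 < c ∧ 0 < R ∧ ∀ (j : ℕ) (T : ℝ), 0 ≤ T → R * (m₀ + 2 * j) ≤ Real.sinh (2 * T) →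
    c ≤ ∫ t in (0 : ℝ)..T, Real.cosh (2 * t) * u j t

/-- LOW: the lower bound for the matrix coefficients. -/
def StmLOW : Prop := ∀ (D : Rep) (k : ℤ), k ∈ D.S → ∃ c R : ℝ, 0 < c ∧ 0 < R ∧
  ∀ m ∈ D.S, ∀ T : ℝ, 0 ≤ T → R * (1 + |(m : ℝ)|) ≤ Real.sinh (2 * T) →
    c ≤ ∫ t in (0 : ℝ)..T, Real.cosh (2 * t) * ‖mc D k m t‖ ^ 2

/-- DECA: the differential inequality. -/
def StmDECA : Prop := ∀ b : ℝ, 0 < b → ∃ (α C : ℝ) (N : ℕ), 0 < α ∧ ∀ (M : ℝ) (f f' : ℝ → ℂ)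
  (r : ℝ → ℝ), 1 ≤ M → (∀ t, HasDerivAt f (f' t) t) →
  (∀ t, 1 ≤ t → HasDerivAt f' (-(2 * (Real.cosh (2 * t) / Real.sinh (2 * t) : ℝ) * f' t) -
    ((b + r t : ℝ) : ℂ) * f t) t) →
  (∀ t, 1 ≤ t → |r t| ≤ M * Real.exp (-2 * t)) → (∀ t, ‖f t‖ ≤ 1) → (∀ t, ‖f' t‖ ≤ M) →
  ∀ t, 0 ≤ t → ‖f t‖ ≤ C * M ^ N * Real.exp (-(α * t))

/-- DEC: the decay of the matrix coefficients. -/
def StmDEC : Prop := ∀ (D : Rep), ∃ k ∈ D.S, ∃ (α C : ℝ) (N : ℕ), 0 < α ∧ ∀ (m : ℤ) (t : ℝ),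
  0 ≤ t → ‖mc D k m t‖ ≤ C * (1 + |(m : ℝ)|) ^ N * Real.exp (-(α * t))

/-- AVGL: averages over `K`. -/
def StmAVGL : Prop := ∀ (D : Rep) (C0 : ℝ) (p : D.H → ℝ), IsSem D C0 p → ∀ x ∈ D.E,
  ∀ (A : Finset ℤ) (b : ℤ → ℂ),
    p (∑ m ∈ A, (b m * ⟪D.e m, x⟫_ℂ) • D.e m) ≤ C0 * Real.sqrt (∑ m ∈ A, ‖b m‖ ^ 2) * p x

/-- LIP: uniform Taylor estimates. -/
def StmLIP : Prop := ∀ (D : Rep) (C0 : ℝ) (p : D.H → ℝ), IsSem D C0 p →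
  ∀ (γ : ℝ → G) (X : Matrix (Fin 2) (Fin 2) ℝ), IsOneParam γ X → ∀ (m : ℤ) (t : ℝ),
    p (D.π (γ t) (D.e m) - D.e m) ≤ C0 * |t| * p (dAct D.a D.e X m) ∧
    p (D.π (γ t) (D.e m) - D.e m - (t : ℂ) • dAct D.a D.e X m) ≤
      C0 * (1 + C0) * t ^ 2 * p (dAct D.a (fun j => dAct D.a D.e X j) X m)

/-- UAVG: uniform averages. -/
def StmUAVG : Prop := ∀ (D : Rep) (C0 : ℝ) (B : ℤ → ℝ), ∀ x ∈ D.E, ∀ m : ℤ, ∃ C : ℝ,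
  ∀ p : D.H → ℝ, IsSem D C0 p → (∀ j, p (D.e j) ≤ B j) → ∀ N : ℕ, 1 ≤ N →
    p ((N : ℂ)⁻¹ • (∑ j ∈ Finset.range N,
      Complex.exp (-(Complex.I * (m * (2 * Real.pi * j / N)))) • D.π (rot (2 * Real.pi * j / N)) x) -
        ⟪D.e m, x⟫_ℂ • D.e m) ≤ C / N

/-- HIL: the Hilbert norm, and the seminorms given by a vector with bounded matrix coefficient. -/
def StmHIL : Prop := ∀ (D : Rep), IsGNorm D (fun x => ‖x‖) ∧ ∀ (k : ℤ) (w : D.H),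
  (∀ g, ‖⟪w, D.π g (D.e k)⟫_ℂ‖ ≤ 1) → Fam D k (fun x => ⨆ g : G, ‖⟪w, D.π g x⟫_ℂ‖)

/-- CONT: continuity of the action. -/
def StmCONT : Prop := ∀ (D : Rep) (C0 : ℝ) (p : D.H → ℝ), IsSem D C0 p → ∀ x ∈ D.E,
  Tendsto (fun h : G => p (D.π h x - x)) (𝓝 1) (𝓝 0)

/-- SUPN: the supremum of the normalised seminorms. -/
def StmSUPN : Prop := ∀ (D : Rep) (k : ℤ), k ∈ D.S → IsGNorm D (pSup D k) ∧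
  ∀ p, Fam D k p → ∀ x ∈ D.E, p x ≤ pSup D k x

/-- MAX: the maximal norm. -/
def StmMAX : Prop := ∀ (D : Rep) (k : ℤ), k ∈ D.S → IsMax D (pSup D k) ∧
  ∀ pm, IsMax D pm → ∃ c : ℝ, 0 < c ∧ ∀ w : D.H, (∀ g, ‖⟪w, D.π g (D.e k)⟫_ℂ‖ ≤ 1) →
    ∀ (A : Finset ℤ) (b : ℤ → ℂ), c * ‖⟪w, D.vec A b⟫_ℂ‖ ≤ pm (D.vec A b)

/-- UPP: every norm is at most a multiple of `n^(1/2)` times the Hilbert norm on the vectors with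
weights of absolute value at most `2n`. -/
def StmUPP : Prop := ∀ (D : Rep) (p : D.H → ℝ), IsGNorm D p → ∃ C : ℝ, 0 < C ∧ ∀ n : ℕ, 1 ≤ n →
  ∀ (A : Finset ℤ) (c : ℤ → ℂ), (∀ m ∈ A, |m| ≤ 2 * n) →
    p (D.vec A c) ≤ C * Real.sqrt n * Real.sqrt (∑ m ∈ A, ‖c m‖ ^ 2)

/-- DYAD: summation over dyadic blocks. -/
def StmDYAD : Prop := ∀ (D : Rep) (p : D.H → ℝ), IsGNorm D p →
  (∃ C : ℝ, 0 < C ∧ ∀ n : ℕ, 1 ≤ n → ∀ (A : Finset ℤ) (c : ℤ → ℂ), (∀ m ∈ A, |m| ≤ 2 * n) →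
    p (D.vec A c) ≤ C * Real.sqrt n * Real.sqrt (∑ m ∈ A, ‖c m‖ ^ 2)) →
  ∀ s : ℝ, 1 / 2 < s → Dom D s p (fun x => ‖x‖)

/-- NETG: a net for the matrix coefficients of `e_k`. -/
def StmNETG : Prop := ∀ (D : Rep), ∃ k ∈ D.S, ∃ (C : ℝ) (N : ℕ), 0 < C ∧ ∀ n : ℕ, 1 ≤ n →
  ∃ Q : Finset (ℝ × ℝ), (Q.card : ℝ) ≤ C * (n : ℝ) ^ N ∧ ∀ ε : ℤ → ℝ,
    (∀ m, ε m = 1 ∨ ε m = -1) → ∀ M : ℝ, 0 ≤ M →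
    (∀ q ∈ Q, ‖∑ m ∈ blk n, (ε m : ℂ) * (Complex.exp (Complex.I * (m * q.1)) * mc D k m q.2)‖ ≤ M) →
    ∀ g, ‖⟪D.vec (blk n) (fun m => (ε m : ℂ)), D.π g (D.e k)⟫_ℂ‖ ≤ M + 1

/-- NETX: a net for the automorphic functions. -/
def StmNETX : Prop := ∀ (D : Rep) (Γ : Subgroup G) (F : Set G) (η : D.H →ₗ[ℂ] ℂ),
  IsAut D Γ F η → ∃ (C : ℝ) (N : ℕ), 0 < C ∧ ∀ n : ℕ, 1 ≤ n →
  ∃ Q : Finset G, (Q.card : ℝ) ≤ C * (n : ℝ) ^ N ∧ ∀ c : ℤ → ℂ,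
    (∀ m ∈ blk n, ‖c m‖ ≤ 3 * n) → ∀ M : ℝ, 0 ≤ M →
    (∀ g ∈ Q, ‖∑ m ∈ blk n, c m * η (D.π g (D.e m))‖ ≤ M) →
    pAut D η (D.vec (blk n) c) ≤ M + 1

/-- HAAR: an invariant measure on `Γ \ G`. -/
def StmHAAR : Prop := ∀ (Γ : Subgroup G) (F : Set G), DiscreteTopology Γ → IsCompact F →
  (∀ g, ∃ γ ∈ Γ, ∃ f ∈ F, g = γ * f) → ∃ μ : Measure G, IsFiniteMeasure μ ∧ μ ≠ 0 ∧
    ∀ f : G → ℝ≥0∞, Measurable f → (∀ γ ∈ Γ, ∀ g, f (γ * g) = f g) → ∀ h,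
      ∫⁻ g, f (g * h) ∂μ = ∫⁻ g, f g ∂μ

/-- POS: invariant open sets have positive measure, uniformly. -/
def StmPOS : Prop := ∀ (Γ : Subgroup G) (F : Set G), IsCompact F →
  (∀ g, ∃ γ ∈ Γ, ∃ f ∈ F, g = γ * f) → ∀ μ : Measure G, μ ≠ 0 →
    (∀ f : G → ℝ≥0∞, Measurable f → (∀ γ ∈ Γ, ∀ g, f (γ * g) = f g) → ∀ h,
      ∫⁻ g, f (g * h) ∂μ = ∫⁻ g, f g ∂μ) →
    ∀ O : Set G, IsOpen O → (1 : G) ∈ O → ∃ c : ℝ≥0∞, 0 < c ∧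
      ∀ g, c ≤ μ {x | ∃ γ ∈ Γ, ∃ h ∈ O, x = γ * g * h}

/-- SCHUR: the invariant inner product of automorphic functions. -/
def StmSCHUR : Prop := ∀ (D : Rep) (Γ : Subgroup G) (F : Set G) (η : D.H →ₗ[ℂ] ℂ),
  IsAut D Γ F η → ∀ μ : Measure G, IsFiniteMeasure μ → μ ≠ 0 →
    (∀ f : G → ℝ≥0∞, Measurable f → (∀ γ ∈ Γ, ∀ g, f (γ * g) = f g) → ∀ h,
      ∫⁻ g, f (g * h) ∂μ = ∫⁻ g, f g ∂μ) →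
    ∃ β : ℝ, 0 < β ∧ ∀ (A : Finset ℤ) (c : ℤ → ℂ),
      ∫⁻ g, ENNReal.ofReal (‖η (D.π g (D.vec A c))‖ ^ 2) ∂μ = ENNReal.ofReal (β * ‖D.vec A c‖ ^ 2)

/-- BRA: the differential inequality for the weighted square sum. -/
def StmBRA : Prop := ∀ (D : Rep), ∃ C : ℝ, 0 < C ∧ ∀ (n : ℝ) (φ : ℤ → ℝ → ℂ) (B : ℝ), 1 ≤ n →
  (∀ m t, m ∉ D.S → φ m t = 0) → (∀ m t, ‖φ m t‖ ^ 2 ≤ B * (1 + |(m : ℝ)|)) →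
  (∀ m t, HasDerivAt (φ m) (D.a m * φ (m + 2) t - conj (D.a (m - 2)) * φ (m - 2) t) t) →
  ∀ t, (∑' m : ℤ, ‖φ m t‖ ^ 2 / (1 + (m : ℝ) ^ 2 / n ^ 2) ^ 2) ≤
    Real.exp (C * |t|) * ∑' m : ℤ, ‖φ m 0‖ ^ 2 / (1 + (m : ℝ) ^ 2 / n ^ 2) ^ 2

/-- BRT: the theorem of Bernstein and Reznikov. -/
def StmBRT : Prop := ∀ (D : Rep) (Γ : Subgroup G) (F : Set G) (η : D.H →ₗ[ℂ] ℂ),
  IsAut D Γ F η → ∃ C : ℝ, 0 < C ∧ ∀ n : ℕ, 1 ≤ n →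
    ∀ g, ∑ m ∈ Finset.Icc (-(2 * n : ℤ)) (2 * n), ‖η (D.π g (D.e m))‖ ^ 2 ≤ C * n

/-- FINLB: the lower bound of the distance. -/
def StmFINLB : Prop := ∀ (D : Rep) (Γ : Subgroup G) (F : Set G) (η : D.H →ₗ[ℂ] ℂ),
  IsAut D Γ F η → ∀ pm, IsMax D pm → ∀ s : ℝ, 0 ≤ s → s < 1 / 2 → ¬ Dom D s pm (pAut D η)

/-- FINUB: the upper bound of the distance. -/
def StmFINUB : Prop := ∀ (D : Rep) (Γ : Subgroup G) (F : Set G) (η : D.H →ₗ[ℂ] ℂ),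
  IsAut D Γ F η → ∀ pm, IsMax D pm → Dom D 0 (pAut D η) pm ∧
    ∀ s : ℝ, 1 / 2 < s → Dom D s pm (pAut D η)

end Pool.Agent.T6.H28.SN
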