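import Mathlib
import Pool.Agent.T6.H28.SN.Stm

/-! Module KAK of project SN: the Cartan decomposition of `SL(2, ℝ)`. -/

set_option autoImplicit false

namespace Pool.Agent.T6.H28.SN

namespace ModKAK

theorem rot_coe (θ : ℝ) : (rot θ : Matrix (Fin 2) (Fin 2) ℝ) =
    !![Real.cos θ, Real.sin θ; -Real.sin θ, Real.cos θ] := rfl

theorem dil_coe (t : ℝ) : (dil t : Matrix (Fin 2) (Fin 2) ℝ) =
    !![Real.exp t, 0; 0, Real.exp (-t)] := rfl

theorem rot_add (s t : ℝ) : rot (s + t) = rot s * rot t := by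
  apply Subtype.ext
  rw [Matrix.SpecialLinearGroup.coe_mul, rot_coe, rot_coe, rot_coe, Matrix.mul_fin_two,
    Real.cos_add, Real.sin_add]
  ext i j
  fin_cases i <;> fin_cases j <;> simp <;> ring

theorem rot_zero : rot 0 = 1 := by
  apply Subtype.ext
  rw [rot_coe]
  ext i j
  fin_cases i <;> fin_cases j <;> simp

theorem rot_mul_neg (s : ℝ) : rot s * rot (-s) = 1 := by
  rw [← rot_add, add_neg_cancel, rot_zero]

theorem dil_neg (t : ℝ) : dil t = rot (Real.pi / 2) * dil (-t) * rot (-(Real.pi / 2)) := by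
  apply Subtype.ext
  rw [Matrix.SpecialLinearGroup.coe_mul, Matrix.SpecialLinearGroup.coe_mul, dil_coe, dil_coe,
    rot_coe, rot_coe, Matrix.mul_fin_two, Matrix.mul_fin_two]
  ext i j
  fin_cases i <;> fin_cases j <;> simp

theorem circle {c s : ℝ} (h : c ^ 2 + s ^ 2 = 1) : ∃ θ : ℝ, Real.cos θ = c ∧ Real.sin θ = s := by
  have h1 : ‖(⟨c, s⟩ : ℂ)‖ = 1 := by
    rw [Complex.norm_def, Complex.normSq_mk]
    have : c * c + s * s = 1 := by nlinarith
    rw [this, Real.sqrt_one]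
  obtain ⟨θ, hθ⟩ := (Complex.norm_eq_one_iff _).1 h1
  refine ⟨θ, ?_, ?_⟩
  · have := congrArg Complex.re hθ
    rw [Complex.exp_ofReal_mul_I_re] at this
    exact this
  · have := congrArg Complex.im hθ
    rw [Complex.exp_ofReal_mul_I_im] at this
    exact this

theorem orth (g : G) : ∃ s : ℝ, (g * rot s).1 0 0 * (g * rot s).1 0 1 +
    (g * rot s).1 1 0 * (g * rot s).1 1 1 = 0 := by
  set f : ℝ → ℝ := fun s => (g * rot s).1 0 0 * (g * rot s).1 0 1 +
    (g * rot s).1 1 0 * (g * rot s).1 1 1 with hf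
  have hval : ∀ s, f s = (g.1 0 0 * Real.cos s - g.1 0 1 * Real.sin s) *
      (g.1 0 0 * Real.sin s + g.1 0 1 * Real.cos s) +
      (g.1 1 0 * Real.cos s - g.1 1 1 * Real.sin s) *
      (g.1 1 0 * Real.sin s + g.1 1 1 * Real.cos s) := by
    intro s
    simp only [hf, Matrix.SpecialLinearGroup.coe_mul, Matrix.mul_apply, Fin.sum_univ_two,
      rot_coe, Matrix.of_apply, Matrix.cons_val', Matrix.cons_val_zero, Matrix.cons_val_one,
      Matrix.empty_val', Matrix.cons_val_fin_one]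
    ring
  have hc : Continuous f := by
    have : f = fun s => (g.1 0 0 * Real.cos s - g.1 0 1 * Real.sin s) *
      (g.1 0 0 * Real.sin s + g.1 0 1 * Real.cos s) +
      (g.1 1 0 * Real.cos s - g.1 1 1 * Real.sin s) *
      (g.1 1 0 * Real.sin s + g.1 1 1 * Real.cos s) := funext hval
    rw [this]
    fun_prop
  have h0 : f (Real.pi / 2) = - f 0 := by
    rw [hval, hval]
    simp
    ring
  have hpi : (0 : ℝ) ≤ Real.pi / 2 := by positivity
  rcases le_total (f 0) 0 with h1 | h1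
  · obtain ⟨s, _, hs⟩ := intermediate_value_Icc hpi hc.continuousOn
      (show (0 : ℝ) ∈ Set.Icc (f 0) (f (Real.pi / 2)) from ⟨h1, by rw [h0]; linarith⟩)
    exact ⟨s, hs⟩
  · obtain ⟨s, _, hs⟩ := intermediate_value_Icc' hpi hc.continuousOn
      (show (0 : ℝ) ∈ Set.Icc (f (Real.pi / 2)) (f 0) from ⟨by rw [h0]; linarith, h1⟩)
    exact ⟨s, hs⟩

theorem ofOrth (h : G) (ho : h.1 0 0 * h.1 0 1 + h.1 1 0 * h.1 1 1 = 0) :
    ∃ θ t : ℝ, h = rot θ * dil t := by
  have hdet : h.1 0 0 * h.1 1 1 - h.1 0 1 * h.1 1 0 = 1 := by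
    have := h.2
    rwa [Matrix.det_fin_two] at this
  set a := h.1 0 0 with ha
  set b := h.1 0 1 with hb
  set c := h.1 1 0 with hc
  set d := h.1 1 1 with hd
  have hpos : 0 < a ^ 2 + c ^ 2 := by
    by_contra hn
    have h1 : a = 0 := by nlinarith [sq_nonneg a, sq_nonneg c]
    have h2 : c = 0 := by nlinarith [sq_nonneg a, sq_nonneg c]
    rw [h1, h2] at hdet
    norm_num at hdet
  set l := Real.sqrt (a ^ 2 + c ^ 2) with hl
  have hl0 : 0 < l := Real.sqrt_pos.2 hpos
  have hl2 : l ^ 2 = a ^ 2 + c ^ 2 := Real.sq_sqrt hpos.le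
  have hb2 : b * l ^ 2 = -c := by rw [hl2]; linear_combination (a : ℝ) * ho - c * hdet
  have hd2 : d * l ^ 2 = a := by rw [hl2]; linear_combination (c : ℝ) * ho + a * hdet
  obtain ⟨θ, hθ1, hθ2⟩ := circle (c := a / l) (s := -c / l) (by
    rw [div_pow, div_pow, neg_sq, ← add_div, ← hl2]
    exact div_self (by positivity))
  refine ⟨θ, Real.log l, ?_⟩
  apply Subtype.ext
  rw [Matrix.SpecialLinearGroup.coe_mul, rot_coe, dil_coe, Matrix.mul_fin_two, hθ1, hθ2,
    Real.exp_neg, Real.exp_log hl0]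
  ext i j
  fin_cases i <;> fin_cases j
  · change a = _
    simp
    field_simp
  · change b = _
    simp
    field_simp
    linarith
  · change c = _
    simp
    field_simp
  · change d = _
    simp
    field_simp
    linarith

end ModKAK

open ModKAK in
theorem kak : StmKAK := by
  intro g
  obtain ⟨s, hs⟩ := orth g
  obtain ⟨θ, t, ht⟩ := ofOrth (g * rot s) hs
  have hg : g = rot θ * dil t * rot (-s) := by
    rw [← ht, mul_assoc, rot_mul_neg, mul_one]
  rcases le_total 0 t with h0 | h0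
  · exact ⟨θ, t, -s, h0, hg⟩
  · refine ⟨θ + Real.pi / 2, -t, -(Real.pi / 2) + -s, by linarith, ?_⟩
    rw [hg, dil_neg t, rot_add, rot_add]
    simp only [mul_assoc]

end Pool.Agent.T6.H28.SN
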