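import Pool.Agent.T6.H28.SN.Stm

set_option autoImplicit false

open scoped InnerProductSpace ComplexConjugate Topology ENNReal
open Filter MeasureTheory

namespace Pool.Agent.T6.H28.SN

namespace ModKAP

theorem a_zero (D : Rep) {m : ℤ} (h : ¬ (m ∈ D.S ∧ m + 2 ∈ D.S)) : D.a m = 0 := by
  by_contra h'
  exact h ((D.a_ne m).1 h')

theorem up (D : Rep) {k : ℤ} (hk : k ∈ D.S) (κ : ℝ) (hκ : 4 * ‖D.a k‖ ^ 2 = ((k : ℝ) + 1) ^ 2 - κ) :
    ∀ j : ℕ, k + 2 * j ∈ D.S → 4 * ‖D.a (k + 2 * j)‖ ^ 2 = (((k + 2 * j : ℤ) : ℝ) + 1) ^ 2 - κ := by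
  intro j
  induction j with
  | zero => intro _; simpa using hκ
  | succ j ih =>
    intro h
    have h1 : k + 2 * (j : ℤ) ∈ D.S :=
      (D.conn k hk _ h).2 _ (by omega) (by push_cast; omega) ⟨j, by ring⟩
    have h2 := ih h1
    have h3 := D.rel _ h
    rw [show k + 2 * ((j + 1 : ℕ) : ℤ) - 2 = k + 2 * j by push_cast; ring] at h3
    push_cast at h2 h3 ⊢
    have h4 : ‖D.a (k + 2 * ((j : ℤ) + 1))‖ ^ 2 = ‖D.a (k + 2 * (j : ℤ))‖ ^ 2 + (k + 2 * ((j : ℝ) + 1)) := by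
      linarith
    rw [h4]
    nlinarith

theorem down (D : Rep) {k : ℤ} (hk : k ∈ D.S) (κ : ℝ) (hκ : 4 * ‖D.a k‖ ^ 2 = ((k : ℝ) + 1) ^ 2 - κ) :
    ∀ j : ℕ, k - 2 * j ∈ D.S → 4 * ‖D.a (k - 2 * j)‖ ^ 2 = (((k - 2 * j : ℤ) : ℝ) + 1) ^ 2 - κ := by
  intro j
  induction j with
  | zero => intro _; simpa using hκ
  | succ j ih =>
    intro h
    have h1 : k - 2 * (j : ℤ) ∈ D.S :=
      (D.conn _ h k hk).2 _ (by push_cast; omega) (by omega) ⟨1, by push_cast; ring⟩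
    have h2 := ih h1
    have h3 := D.rel _ h1
    rw [show k - 2 * (j : ℤ) - 2 = k - 2 * ((j : ℤ) + 1) by ring] at h3
    push_cast at h2 h3 ⊢
    have h4 : ‖D.a (k - 2 * ((j : ℤ) + 1))‖ ^ 2 = ‖D.a (k - 2 * (j : ℤ))‖ ^ 2 - (k - 2 * (j : ℝ)) := by
      linarith
    rw [h4]
    nlinarith

theorem p1 (D : Rep) : ∃ κ : ℝ, ∀ m ∈ D.S, 4 * ‖D.a m‖ ^ 2 = ((m : ℝ) + 1) ^ 2 - κ ∧
    4 * ‖D.a (m - 2)‖ ^ 2 = ((m : ℝ) - 1) ^ 2 - κ := by
  obtain ⟨k, hk⟩ := D.nonempty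
  refine ⟨((k : ℝ) + 1) ^ 2 - 4 * ‖D.a k‖ ^ 2, fun m hm => ?_⟩
  have key : 4 * ‖D.a m‖ ^ 2 = ((m : ℝ) + 1) ^ 2 - (((k : ℝ) + 1) ^ 2 - 4 * ‖D.a k‖ ^ 2) := by
    rcases le_total k m with h | h
    · obtain ⟨j, hj⟩ := (D.conn k hk m hm).1
      obtain ⟨i, rfl⟩ : ∃ i : ℕ, m = k + 2 * i := ⟨j.toNat, by omega⟩
      exact up D hk _ (by ring) i hm
    · obtain ⟨j, hj⟩ := (D.conn m hm k hk).1
      obtain ⟨i, rfl⟩ : ∃ i : ℕ, m = k - 2 * i := ⟨j.toNat, by omega⟩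
      exact down D hk _ (by ring) i hm
  refine ⟨key, ?_⟩
  have h3 := D.rel m hm
  nlinarith

theorem p2 (D : Rep) : ∃ C : ℝ, ∀ m, ‖D.a m‖ ≤ C * (1 + |(m : ℝ)|) := by
  obtain ⟨κ, hκ⟩ := p1 D
  refine ⟨1 + |κ|, fun m => ?_⟩
  have hpos : 0 ≤ (1 + |κ|) * (1 + |(m : ℝ)|) := by positivity
  by_cases hm : m ∈ D.S
  · apply abs_le_of_sq_le_sq' _ hpos |>.2
    have h := (hκ m hm).1
    have h1 : ((m : ℝ) + 1) ^ 2 ≤ (1 + |(m : ℝ)|) ^ 2 := by
      have := le_abs_self (m : ℝ)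
      have := neg_abs_le (m : ℝ)
      nlinarith [abs_nonneg (m : ℝ), sq_abs (m : ℝ)]
    have h2 : -κ ≤ |κ| := neg_le_abs κ
    have h3 : 0 ≤ |κ| := abs_nonneg κ
    have h4 : 1 ≤ (1 + |(m : ℝ)|) ^ 2 := by nlinarith [abs_nonneg (m : ℝ)]
    have h5 : |κ| ≤ |κ| * (1 + |(m : ℝ)|) ^ 2 := le_mul_of_one_le_right h3 h4
    have h6 : ((1 + |κ|) * (1 + |(m : ℝ)|)) ^ 2 =
      (1 + |(m : ℝ)|) ^ 2 + 2 * (|κ| * (1 + |(m : ℝ)|) ^ 2) + |κ| ^ 2 * (1 + |(m : ℝ)|) ^ 2 := by ring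
    have h7 : 0 ≤ |κ| ^ 2 * (1 + |(m : ℝ)|) ^ 2 := by positivity
    rw [h6]
    nlinarith
  · rw [a_zero D (fun h => hm h.1), norm_zero]; exact hpos

theorem p3 (D : Rep) : ∀ m ∈ D.S, ∀ n ∈ D.S, m ≤ n → m + 2 ∈ D.S ∨ n = m := by
  intro m hm n hn hmn
  by_cases h : n = m
  · exact Or.inr h
  · left
    obtain ⟨j, hj⟩ := (D.conn m hm n hn).1
    exact (D.conn m hm n hn).2 _ (by omega) (by omega) ⟨1, by ring⟩

theorem norm_ne {z : ℂ} (h : 0 < ‖z‖ ^ 2) : z ≠ 0 := by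
  rintro rfl
  simp at h

theorem p4 (D : Rep) :
    (∃ k ∈ D.S, k - 2 ∉ D.S ∧ 1 ≤ k ∧ ∀ m, m ∈ D.S ↔ ∃ j : ℕ, m = k + 2 * j) ∨
    (∃ k ∈ D.S, k + 2 ∉ D.S ∧ k ≤ -1 ∧ ∀ m, m ∈ D.S ↔ ∃ j : ℕ, m = k - 2 * j) ∨
    (∃ k : ℤ, ∀ m, m ∈ D.S ↔ ∃ j : ℤ, m = k + 2 * j) := by
  by_cases hb : ∃ b, ∀ z, z ∈ D.S → b ≤ z
  · left
    obtain ⟨k, hk, hmin⟩ := Int.exists_least_of_bdd hb D.nonempty
    have hk2 : k - 2 ∉ D.S := fun h => by have := hmin _ h; omega
    have ha : D.a (k - 2) = 0 := a_zero D (fun h => hk2 h.1)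
    have hr := D.rel k hk
    rw [ha, norm_zero] at hr
    have hk0 : 0 ≤ k := by
      have : (0 : ℝ) ≤ k := by nlinarith [sq_nonneg ‖D.a k‖]
      exact_mod_cast this
    have hk1 : 1 ≤ k := by
      by_contra hlt
      have hk' : k = 0 := by omega
      subst hk'
      have h0 : D.a 0 = 0 := by
        have : ‖D.a 0‖ ^ 2 = 0 := by push_cast at hr; linarith
        exact norm_eq_zero.1 (pow_eq_zero_iff (two_ne_zero) |>.1 this)
      have h2 : ¬ ((0 : ℤ) ∈ D.S ∧ 0 + 2 ∈ D.S) := fun h => (D.a_ne 0).2 h h0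
      apply D.nontriv
      ext n
      simp only [Set.mem_singleton_iff]
      constructor
      · intro hn
        rcases p3 D 0 hk n hn (hmin n hn) with h | h
        · exact absurd ⟨hk, h⟩ h2
        · exact h
      · rintro rfl; exact hk
    have ind : ∀ j : ℕ, k + 2 * j ∈ D.S ∧ 0 < ‖D.a (k + 2 * j)‖ ^ 2 := by
      intro j
      induction j with
      | zero =>
        refine ⟨by simpa using hk, ?_⟩
        have : (1 : ℝ) ≤ k := by exact_mod_cast hk1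
        simp only [Nat.cast_zero, mul_zero, add_zero]
        nlinarith
      | succ j ih =>
        have h1 := ((D.a_ne _).1 (norm_ne ih.2)).2
        have h1' : k + 2 * ((j + 1 : ℕ) : ℤ) ∈ D.S := by
          convert h1 using 1; push_cast; ring
        refine ⟨h1', ?_⟩
        have h3 := D.rel _ h1'
        rw [show k + 2 * ((j + 1 : ℕ) : ℤ) - 2 = k + 2 * j by push_cast; ring] at h3
        have : (1 : ℝ) ≤ k := by exact_mod_cast hk1
        have h4 : (0 : ℝ) ≤ (((k + 2 * ((j + 1 : ℕ) : ℤ) : ℤ)) : ℝ) := by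
          push_cast
          positivity
        linarith [ih.2]
    refine ⟨k, hk, hk2, hk1, fun m => ⟨fun hm => ?_, ?_⟩⟩
    · obtain ⟨j, hj⟩ := (D.conn k hk m hm).1
      have := hmin m hm
      exact ⟨j.toNat, by omega⟩
    · rintro ⟨j, rfl⟩; exact (ind j).1
  · right
    by_cases ht : ∃ b, ∀ z, z ∈ D.S → z ≤ b
    · left
      obtain ⟨k, hk, hmax⟩ := Int.exists_greatest_of_bdd ht D.nonempty
      have hk2 : k + 2 ∉ D.S := fun h => by have := hmax _ h; omega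
      have ha : D.a k = 0 := a_zero D (fun h => hk2 h.2)
      have hr := D.rel k hk
      rw [ha, norm_zero] at hr
      have hk0 : k ≤ 0 := by
        have : (k : ℝ) ≤ 0 := by nlinarith [sq_nonneg ‖D.a (k - 2)‖]
        exact_mod_cast this
      have hk1 : k ≤ -1 := by
        by_contra hlt
        have hk' : k = 0 := by omega
        subst hk'
        have h0 : D.a (0 - 2) = 0 := by
          have : ‖D.a (0 - 2)‖ ^ 2 = 0 := by
            rw [show (0 - 2 : ℤ) = -2 by norm_num] at hr ⊢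
            push_cast at hr
            linarith
          exact norm_eq_zero.1 (pow_eq_zero_iff (two_ne_zero) |>.1 this)
        have h2 : ¬ ((0 - 2 : ℤ) ∈ D.S ∧ (0 - 2 + 2 : ℤ) ∈ D.S) := fun h => (D.a_ne _).2 h h0
        apply D.nontriv
        ext n
        simp only [Set.mem_singleton_iff]
        constructor
        · intro hn
          by_contra hn0
          have hle := hmax n hn
          obtain ⟨j, hj⟩ := (D.conn n hn 0 hk).1
          have : (-2 : ℤ) ∈ D.S := (D.conn n hn 0 hk).2 _ (by omega) (by omega)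
            ⟨-1 - j * (-1) , by omega⟩
          exact h2 ⟨by simpa using this, by simpa using hk⟩
        · rintro rfl; exact hk
      have ind : ∀ j : ℕ, k - 2 * j ∈ D.S ∧ 0 < ‖D.a (k - 2 * j - 2)‖ ^ 2 := by
        intro j
        induction j with
        | zero =>
          refine ⟨by simpa using hk, ?_⟩
          have : (k : ℝ) ≤ -1 := by exact_mod_cast hk1
          simp only [Nat.cast_zero, mul_zero, sub_zero]
          nlinarith
        | succ j ih =>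
          have h1 := ((D.a_ne _).1 (norm_ne ih.2)).1
          have h1' : k - 2 * ((j + 1 : ℕ) : ℤ) ∈ D.S := by
            convert h1 using 1; push_cast; ring
          refine ⟨h1', ?_⟩
          have h3 := D.rel _ h1'
          have h5 : D.a (k - 2 * ((j + 1 : ℕ) : ℤ)) = D.a (k - 2 * j - 2) := by
            congr 1; push_cast; ring
          rw [h5] at h3
          have : (k : ℝ) ≤ -1 := by exact_mod_cast hk1
          have h4 : (((k - 2 * ((j + 1 : ℕ) : ℤ) : ℤ)) : ℝ) ≤ 0 := by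
            push_cast
            have : (0 : ℝ) ≤ j := by positivity
            linarith
          linarith [ih.2]
      refine ⟨k, hk, hk2, hk1, fun m => ⟨fun hm => ?_, ?_⟩⟩
      · obtain ⟨j, hj⟩ := (D.conn m hm k hk).1
        have := hmax m hm
        exact ⟨j.toNat, by omega⟩
      · rintro ⟨j, rfl⟩; exact (ind j).1
    · right
      obtain ⟨k, hk⟩ := D.nonempty
      refine ⟨k, fun m => ⟨fun hm => ?_, ?_⟩⟩
      · obtain ⟨j, hj⟩ := (D.conn k hk m hm).1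
        exact ⟨j, by omega⟩
      · rintro ⟨j, rfl⟩
        push Not at hb ht
        obtain ⟨m1, hm1, h1⟩ := hb (k + 2 * j)
        obtain ⟨m2, hm2, h2⟩ := ht (k + 2 * j)
        obtain ⟨i, hi⟩ := (D.conn m1 hm1 k hk).1
        exact (D.conn m1 hm1 m2 hm2).2 _ h1.le h2.le ⟨i + j, by omega⟩

end ModKAP

theorem kap : StmKAP := fun D => ⟨ModKAP.p1 D, ModKAP.p2 D, ModKAP.p3 D, ModKAP.p4 D⟩

end Pool.Agent.T6.H28.SN
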