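import Mathlib
import Pool.Agent.T6.H28.SN.Stm

/-! Module LIP of project SN: uniform Taylor estimates. -/

set_option autoImplicit false

open scoped InnerProductSpace ComplexConjugate Topology
open Filter

namespace Pool.Agent.T6.H28.SN

namespace ModLIP

variable {D : Rep} {C0 : ℝ} {p : D.H → ℝ}

theorem pi_mul (g h : G) (x : D.H) : D.π (g * h) x = D.π g (D.π h x) := by
  rw [map_mul]; rfl

theorem pi_one (x : D.H) : D.π 1 x = x := by
  rw [map_one]; rfl

theorem e_mem (m : ℤ) : D.e m ∈ D.E := Submodule.subset_span ⟨1, m, (pi_one _).symm⟩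

theorem pi_mem (g : G) {x : D.H} (hx : x ∈ D.E) : D.π g x ∈ D.E := by
  unfold Rep.E at hx ⊢
  induction hx using Submodule.span_induction with
  | mem x h =>
    obtain ⟨h', m, rfl⟩ := h
    exact Submodule.subset_span ⟨g * h', m, (pi_mul _ _ _).symm⟩
  | zero => rw [map_zero]; exact Submodule.zero_mem _
  | add x y _ _ hx hy => rw [map_add]; exact Submodule.add_mem _ hx hy
  | smul c x _ hx => rw [map_smul]; exact Submodule.smul_mem _ _ hx

theorem p_zero (hp : IsSem D C0 p) : p 0 = 0 := by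
  have := hp.smul 0 0 (Submodule.zero_mem _)
  simpa using this

theorem p_neg (hp : IsSem D C0 p) {x : D.H} (hx : x ∈ D.E) : p (-x) = p x := by
  have := hp.smul (-1) x hx
  simpa using this

theorem p_sub (hp : IsSem D C0 p) {x y : D.H} (hx : x ∈ D.E) (hy : y ∈ D.E) :
    p (x - y) ≤ p x + p y := by
  rw [sub_eq_add_neg, ← p_neg hp hy]
  exact hp.add x hx (-y) (Submodule.neg_mem _ hy)

theorem p_sum (hp : IsSem D C0 p) {ι : Type*} (s : Finset ι) (f : ι → D.H)
    (hf : ∀ i ∈ s, f i ∈ D.E) : p (∑ i ∈ s, f i) ≤ ∑ i ∈ s, p (f i) := by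
  classical
  induction s using Finset.induction_on with
  | empty => simp [p_zero hp]
  | insert a s ha ih =>
    rw [Finset.sum_insert ha, Finset.sum_insert ha]
    refine (hp.add _ (hf a (Finset.mem_insert_self _ _)) _
      (Submodule.sum_mem _ fun i hi => hf i (Finset.mem_insert_of_mem hi))).trans ?_
    have := ih fun i hi => hf i (Finset.mem_insert_of_mem hi)
    linarith

theorem p_smul_real (hp : IsSem D C0 p) (t : ℝ) {x : D.H} (hx : x ∈ D.E) :
    p ((t : ℂ) • x) = |t| * p x := by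
  rw [hp.smul _ x hx, Complex.norm_real, Real.norm_eq_abs]

/-- `w` is the derivative of `π (γ t) v` at `0` for `p` -/
structure Der (p : D.H → ℝ) (γ : ℝ → G) (v w : D.H) : Prop where
  mv : v ∈ D.E
  mw : w ∈ D.E
  lim : Tendsto (fun s : ℝ => p ((s : ℂ)⁻¹ • (D.π (γ s) v - v) - w)) (𝓝[≠] 0) (𝓝 0)

theorem Der.add (hp : IsSem D C0 p) {γ : ℝ → G} {v w v' w' : D.H} (h : Der p γ v w)
    (h' : Der p γ v' w') : Der p γ (v + v') (w + w') := by
  refine ⟨Submodule.add_mem _ h.mv h'.mv, Submodule.add_mem _ h.mw h'.mw, ?_⟩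
  have hl := h.lim.add h'.lim
  rw [add_zero] at hl
  have hm : ∀ s : ℝ, ∀ {x y : D.H}, x ∈ D.E → y ∈ D.E →
      (s : ℂ)⁻¹ • (D.π (γ s) x - x) - y ∈ D.E := fun s x y hx hy =>
    Submodule.sub_mem _ (Submodule.smul_mem _ _ (Submodule.sub_mem _ (pi_mem _ hx) hx)) hy
  refine squeeze_zero (fun s => hp.nonneg _ (hm s (Submodule.add_mem _ h.mv h'.mv)
    (Submodule.add_mem _ h.mw h'.mw))) (fun s => ?_) hl
  have e : (s : ℂ)⁻¹ • (D.π (γ s) (v + v') - (v + v')) - (w + w') =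
      ((s : ℂ)⁻¹ • (D.π (γ s) v - v) - w) + ((s : ℂ)⁻¹ • (D.π (γ s) v' - v') - w') := by
    rw [map_add]
    module
  rw [e]
  exact hp.add _ (hm s h.mv h.mw) _ (hm s h'.mv h'.mw)

theorem Der.smul (hp : IsSem D C0 p) {γ : ℝ → G} {v w : D.H} (c : ℂ) (h : Der p γ v w) :
    Der p γ (c • v) (c • w) := by
  refine ⟨Submodule.smul_mem _ _ h.mv, Submodule.smul_mem _ _ h.mw, ?_⟩
  have hl := h.lim.const_mul ‖c‖
  rw [mul_zero] at hl
  refine hl.congr fun s => ?_
  have e : (s : ℂ)⁻¹ • (D.π (γ s) (c • v) - c • v) - c • w =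
      c • ((s : ℂ)⁻¹ • (D.π (γ s) v - v) - w) := by
    rw [map_smul]
    module
  rw [e, hp.smul _ _ (Submodule.sub_mem _ (Submodule.smul_mem _ _
    (Submodule.sub_mem _ (pi_mem _ h.mv) h.mv)) h.mw)]

theorem dAct_mem (X : Matrix (Fin 2) (Fin 2) ℝ) (f : ℤ → D.H) (hf : ∀ j, f j ∈ D.E) (m : ℤ) :
    dAct D.a f X m ∈ D.E := by
  unfold dAct
  have h := hf
  exact Submodule.add_mem _ (Submodule.add_mem _
    (Submodule.smul_mem _ _ (Submodule.sub_mem _ (Submodule.smul_mem _ _ (h _))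
      (Submodule.smul_mem _ _ (h _))))
    (Submodule.smul_mem _ _ (Submodule.smul_mem _ _ (Submodule.add_mem _
      (Submodule.smul_mem _ _ (h _)) (Submodule.smul_mem _ _ (h _))))))
    (Submodule.smul_mem _ _ (Submodule.smul_mem _ _ (h _)))

theorem der_e (hp : IsSem D C0 p) {γ : ℝ → G} {X : Matrix (Fin 2) (Fin 2) ℝ}
    (hγ : IsOneParam γ X) (m : ℤ) : Der p γ (D.e m) (dAct D.a D.e X m) :=
  ⟨e_mem m, dAct_mem X _ e_mem m, hp.diff γ X hγ m⟩

theorem der_comb (hp : IsSem D C0 p) {γ : ℝ → G} (X : Matrix (Fin 2) (Fin 2) ℝ)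
    (f f' : ℤ → D.H) (h : ∀ j, Der p γ (f j) (f' j)) (m : ℤ) :
    Der p γ (dAct D.a f X m) (dAct D.a f' X m) := by
  have hs : ∀ (c c' : ℂ) (j j' : ℤ), Der p γ (c • f j - c' • f j') (c • f' j - c' • f' j') := by
    intro c c' j j'
    have := ((h j).smul hp c).add hp ((h j').smul hp (-c'))
    simpa [sub_eq_add_neg] using this
  unfold dAct
  exact (((hs _ _ _ _).smul hp _).add hp
    (((((h _).smul hp _).add hp ((h _).smul hp _)).smul hp _).smul hp _)).add hp
    (((h _).smul hp _).smul hp _)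

theorem gamma_zero {γ : ℝ → G} {X : Matrix (Fin 2) (Fin 2) ℝ} (hγ : IsOneParam γ X) :
    γ 0 = 1 := by
  have := hγ.add 0 0
  rw [add_zero] at this
  exact (mul_eq_left.1 this.symm)

theorem gamma_nat {γ : ℝ → G} {X : Matrix (Fin 2) (Fin 2) ℝ} (hγ : IsOneParam γ X) (s : ℝ)
    (n : ℕ) (v : D.H) : D.π (γ (n * s)) v - v =
      ∑ i ∈ Finset.range n, D.π (γ (i * s)) (D.π (γ s) v - v) := by
  induction n with
  | zero => simp [gamma_zero hγ]
  | succ n ih =>
    rw [Finset.sum_range_succ, ← ih]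
    have e : ((n + 1 : ℕ) : ℝ) * s = n * s + s := by push_cast; ring
    rw [e, hγ.add, pi_mul, map_sub]
    abel

/-- the seminorm is zero or `0 ≤ C0` -/
theorem C0_or (hp : IsSem D C0 p) : 0 ≤ C0 ∨ ∀ x ∈ D.E, p x = 0 := by
  by_cases h : 0 ≤ C0
  · exact Or.inl h
  · right
    intro x hx
    have h1 := hp.bdd 1 x hx
    rw [pi_one] at h1
    have h2 := hp.nonneg x hx
    nlinarith

theorem tendsto_div (t : ℝ) (ht : t ≠ 0) :
    Tendsto (fun N : ℕ => t / ((N : ℝ) + 1)) atTop (𝓝[≠] 0) := by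
  refine tendsto_nhdsWithin_iff.2 ⟨?_, Eventually.of_forall fun N => ?_⟩
  · have h1 : Tendsto (fun N : ℕ => (N : ℝ) + 1) atTop atTop :=
      tendsto_atTop_add_const_right _ _ tendsto_natCast_atTop_atTop
    exact Tendsto.div_atTop tendsto_const_nhds h1
  · have : (0 : ℝ) < (N : ℝ) + 1 := by positivity
    exact div_ne_zero ht this.ne'

theorem est1 (hp : IsSem D C0 p) {γ : ℝ → G} {X : Matrix (Fin 2) (Fin 2) ℝ}
    (hγ : IsOneParam γ X) {v w : D.H} (h : Der p γ v w) (t : ℝ) :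
    p (D.π (γ t) v - v) ≤ C0 * |t| * p w := by
  rcases C0_or hp with hC | hz
  swap
  · rw [hz _ h.mw, hz _ (Submodule.sub_mem _ (pi_mem _ h.mv) h.mv), mul_zero]
  rcases eq_or_ne t 0 with rfl | ht
  · rw [gamma_zero hγ, pi_one, sub_self, p_zero hp, abs_zero, mul_zero, zero_mul]
  have hT := (h.lim.comp (tendsto_div t ht))
  have hT2 : Tendsto (fun N : ℕ => C0 * |t| * (p (((t / ((N : ℝ) + 1) : ℝ) : ℂ)⁻¹ •
      (D.π (γ (t / ((N : ℝ) + 1))) v - v) - w) + p w)) atTop (𝓝 (C0 * |t| * (0 + p w))) :=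
    (hT.add_const (p w)).const_mul _
  rw [zero_add] at hT2
  refine ge_of_tendsto' hT2 fun N => ?_
  set s := t / ((N : ℝ) + 1) with hs
  have hN : (0 : ℝ) < (N : ℝ) + 1 := by positivity
  have hs0 : s ≠ 0 := div_ne_zero ht hN.ne'
  have hNs : ((N + 1 : ℕ) : ℝ) * s = t := by
    rw [hs]; push_cast; field_simp
  have hm : D.π (γ s) v - v ∈ D.E := Submodule.sub_mem _ (pi_mem _ h.mv) h.mv
  have h1 : p (D.π (γ t) v - v) ≤ (N + 1 : ℕ) * (C0 * p (D.π (γ s) v - v)) := by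
    rw [← hNs, gamma_nat hγ]
    refine (p_sum hp _ _ fun i _ => pi_mem _ hm).trans ?_
    refine (Finset.sum_le_sum fun i _ => hp.bdd _ _ hm).trans ?_
    rw [Finset.sum_const, Finset.card_range, nsmul_eq_mul]
  have h2 : p (D.π (γ s) v - v) ≤ |s| * (p (((s : ℝ) : ℂ)⁻¹ • (D.π (γ s) v - v) - w) + p w) := by
    have e : D.π (γ s) v - v = (s : ℂ) • ((s : ℂ)⁻¹ • (D.π (γ s) v - v)) := by
      rw [smul_smul, mul_inv_cancel₀ (by exact_mod_cast hs0), one_smul]
    have hm2 : (s : ℂ)⁻¹ • (D.π (γ s) v - v) ∈ D.E := Submodule.smul_mem _ _ hm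
    rw [e, p_smul_real hp s hm2]
    refine mul_le_mul_of_nonneg_left ?_ (abs_nonneg _)
    rw [← e]
    have := hp.add _ (Submodule.sub_mem _ hm2 h.mw) w h.mw
    rwa [sub_add_cancel] at this
  have h3 : |t| = (N + 1 : ℕ) * |s| := by
    rw [← hNs, abs_mul, abs_of_pos (by positivity)]
  rw [h3]
  refine h1.trans ?_
  have hc : (0 : ℝ) ≤ ((N + 1 : ℕ) : ℝ) := by positivity
  calc ((N + 1 : ℕ) : ℝ) * (C0 * p (D.π (γ s) v - v))
      ≤ ((N + 1 : ℕ) : ℝ) * (C0 * (|s| * (p (((s : ℝ) : ℂ)⁻¹ • (D.π (γ s) v - v) - w) + p w))) :=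
        mul_le_mul_of_nonneg_left (mul_le_mul_of_nonneg_left h2 hC) hc
    _ = _ := by ring

theorem est2 (hp : IsSem D C0 p) {γ : ℝ → G} {X : Matrix (Fin 2) (Fin 2) ℝ}
    (hγ : IsOneParam γ X) {v w z : D.H} (h : Der p γ v w) (h' : Der p γ w z) (t : ℝ) :
    p (D.π (γ t) v - v - (t : ℂ) • w) ≤ C0 * (1 + C0) * t ^ 2 * p z := by
  have hmain : D.π (γ t) v - v - (t : ℂ) • w ∈ D.E :=
    Submodule.sub_mem _ (Submodule.sub_mem _ (pi_mem _ h.mv) h.mv) (Submodule.smul_mem _ _ h.mw)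
  rcases C0_or hp with hC | hz
  swap
  · rw [hz _ h'.mw, hz _ hmain, mul_zero]
  rcases eq_or_ne t 0 with rfl | ht
  · rw [gamma_zero hγ, pi_one, sub_self, Complex.ofReal_zero, zero_smul, sub_self, p_zero hp]
    have := hp.nonneg z h'.mw
    positivity
  have hkey : p (D.π (γ t) v - v - (t : ℂ) • w) ≤ C0 * t ^ 2 * p z := by
    have hT := (h.lim.comp (tendsto_div t ht))
    have hT2 : Tendsto (fun N : ℕ => C0 * |t| * (p (((t / ((N : ℝ) + 1) : ℝ) : ℂ)⁻¹ •
        (D.π (γ (t / ((N : ℝ) + 1))) v - v) - w)) + C0 * t ^ 2 * p z) atTop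
        (𝓝 (C0 * |t| * 0 + C0 * t ^ 2 * p z)) :=
      (hT.const_mul _).add_const _
    rw [mul_zero, zero_add] at hT2
    refine ge_of_tendsto' hT2 fun N => ?_
    set s := t / ((N : ℝ) + 1) with hs
    have hN : (0 : ℝ) < (N : ℝ) + 1 := by positivity
    have hs0 : s ≠ 0 := div_ne_zero ht hN.ne'
    have hNs : ((N + 1 : ℕ) : ℝ) * s = t := by
      rw [hs]; push_cast; field_simp
    have h3 : |t| = (N + 1 : ℕ) * |s| := by
      rw [← hNs, abs_mul, abs_of_pos (by positivity)]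
    have hc : (0 : ℝ) ≤ ((N + 1 : ℕ) : ℝ) := by positivity
    have hm0 : D.π (γ s) v - v - (s : ℂ) • w ∈ D.E := Submodule.sub_mem _
      (Submodule.sub_mem _ (pi_mem _ h.mv) h.mv) (Submodule.smul_mem _ _ h.mw)
    have hmi : ∀ i : ℕ, D.π (γ (i * s)) w - w ∈ D.E := fun i =>
      Submodule.sub_mem _ (pi_mem _ h.mw) h.mw
    have e : D.π (γ t) v - v - (t : ℂ) • w =
        ∑ i ∈ Finset.range (N + 1), D.π (γ (i * s)) (D.π (γ s) v - v - (s : ℂ) • w) +
        ∑ i ∈ Finset.range (N + 1), (s : ℂ) • (D.π (γ (i * s)) w - w) := by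
      rw [← Finset.sum_add_distrib]
      have e1 : ∀ i ∈ Finset.range (N + 1),
          D.π (γ (i * s)) (D.π (γ s) v - v - (s : ℂ) • w) + (s : ℂ) • (D.π (γ (i * s)) w - w) =
          D.π (γ (i * s)) (D.π (γ s) v - v) - (s : ℂ) • w := by
        intro i _
        rw [map_sub, map_smul, smul_sub]
        abel
      rw [Finset.sum_congr rfl e1, Finset.sum_sub_distrib, ← gamma_nat hγ, hNs, Finset.sum_const,
        Finset.card_range, ← Nat.cast_smul_eq_nsmul ℂ, smul_smul]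
      congr 2
      rw [← hNs]
      push_cast
      ring
    rw [e]
    refine (hp.add _ (Submodule.sum_mem _ fun i _ => pi_mem _ hm0) _
      (Submodule.sum_mem _ fun i _ => Submodule.smul_mem _ _ (hmi i))).trans ?_
    refine add_le_add ?_ ?_
    · refine (p_sum hp _ _ fun i _ => pi_mem _ hm0).trans ?_
      refine (Finset.sum_le_sum fun i _ => hp.bdd _ _ hm0).trans ?_
      rw [Finset.sum_const, Finset.card_range, nsmul_eq_mul]
      have e2 : D.π (γ s) v - v - (s : ℂ) • w =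
          (s : ℂ) • ((s : ℂ)⁻¹ • (D.π (γ s) v - v) - w) := by
        rw [smul_sub, smul_smul, mul_inv_cancel₀ (by exact_mod_cast hs0), one_smul]
      have hm3 : (s : ℂ)⁻¹ • (D.π (γ s) v - v) - w ∈ D.E := Submodule.sub_mem _
        (Submodule.smul_mem _ _ (Submodule.sub_mem _ (pi_mem _ h.mv) h.mv)) h.mw
      rw [e2, p_smul_real hp s hm3, h3]
      apply le_of_eq
      ring
    · refine (p_sum hp _ _ fun i _ => Submodule.smul_mem _ _ (hmi i)).trans ?_
      have hb : ∀ i ∈ Finset.range (N + 1), p ((s : ℂ) • (D.π (γ (i * s)) w - w)) ≤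
          |s| * (C0 * |t| * p z) := by
        intro i hi
        rw [p_smul_real hp s (hmi i)]
        refine mul_le_mul_of_nonneg_left ?_ (abs_nonneg _)
        refine (est1 hp hγ h' (i * s)).trans ?_
        refine mul_le_mul_of_nonneg_right ?_ (hp.nonneg _ h'.mw)
        refine mul_le_mul_of_nonneg_left ?_ hC
        rw [h3, abs_mul, Nat.abs_cast]
        refine mul_le_mul_of_nonneg_right ?_ (abs_nonneg _)
        exact_mod_cast (Finset.mem_range.1 hi).le
      refine (Finset.sum_le_sum hb).trans ?_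
      rw [Finset.sum_const, Finset.card_range, nsmul_eq_mul]
      apply le_of_eq
      have : t ^ 2 = |t| * |t| := by rw [← sq, sq_abs]
      rw [this]
      nth_rewrite 3 [h3]
      ring
  refine hkey.trans ?_
  have hz := hp.nonneg z h'.mw
  have : 0 ≤ C0 * C0 * (t ^ 2 * p z) := by positivity
  nlinarith

end ModLIP

open ModLIP in
theorem lip : StmLIP := by
  intro D C0 p hp γ X hγ m t
  have h1 := der_e hp hγ m
  exact ⟨est1 hp hγ h1 t, est2 hp hγ h1 (der_comb hp X D.e _ (der_e hp hγ) m) t⟩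

end Pool.Agent.T6.H28.SN
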