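import Pool.Agent.T6.H28.SN.Stm

/-!
# The lower bound for the matrix coefficients
-/

set_option autoImplicit false

open scoped InnerProductSpace ComplexConjugate Topology
open MeasureTheory Filter

namespace Pool.Agent.T6.H28.SN
namespace ModLOW

/-- the square of the absolute value of the matrix coefficient -/
noncomputable def um (D : Rep) (k m : ℤ) (t : ℝ) : ℝ := ‖mc D k m t‖ ^ 2

/-- the current -/
noncomputable def Fm (D : Rep) (k m : ℤ) (t : ℝ) : ℝ :=
  2 * (D.a m * mc D k m t * conj (mc D k (m + 2) t)).re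

lemma um_nonneg (D : Rep) (k m : ℤ) (t : ℝ) : 0 ≤ um D k m t := by
  rw [um]; positivity

lemma um_deriv (hALG : StmALG) (D : Rep) (k : ℤ) (hk : k ∈ D.S) (m : ℤ) (t : ℝ) :
    HasDerivAt (um D k m) (Fm D k (m - 2) t - Fm D k m t) t := by
  have h := (hALG D k hk).2.2.2.1 m t
  have h1 := h.norm_sq
  have e : (fun t => ‖mc D k m t‖ ^ 2) = um D k m := rfl
  rw [e] at h1
  refine h1.congr_deriv ?_
  rw [Fm, Fm, show m - 2 + 2 = m by ring, Complex.inner]
  simp only [Complex.sub_re, Complex.mul_re, Complex.mul_im,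
    Complex.conj_re, Complex.conj_im, Complex.sub_im]
  ring

lemma um_rel (hALG : StmALG) (D : Rep) (k : ℤ) (hk : k ∈ D.S) (m : ℤ) (t : ℝ) (ht : 0 < t) :
    Fm D k (m - 2) t + Fm D k m t =
      2 * ((m * Real.cosh (2 * t) - k) / Real.sinh (2 * t) * um D k m t) := by
  have h := (hALG D k hk).2.2.2.2 m t
  have hs : Real.sinh (2 * t) ≠ 0 := (Real.sinh_pos_iff.2 (by linarith)).ne'
  have h2 := congrArg (fun z : ℂ => (conj (mc D k m t) * z).re) h
  have hu : um D k m t = (mc D k m t).re * (mc D k m t).re + (mc D k m t).im * (mc D k m t).im := by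
    rw [um, ← Complex.normSq_eq_norm_sq, Complex.normSq_apply]
  rw [Fm, Fm, show m - 2 + 2 = m by ring, hu]
  simp only [Complex.sub_re, Complex.mul_re, Complex.mul_im, Complex.add_re, Complex.add_im,
    Complex.conj_re, Complex.conj_im, Complex.sub_im, Complex.ofReal_re, Complex.ofReal_im,
    Complex.intCast_re, Complex.intCast_im] at h2 ⊢
  field_simp
  nlinarith [h2]

lemma um_deriv2 (hALG : StmALG) (D : Rep) (k : ℤ) (hk : k ∈ D.S) (m : ℤ) (t : ℝ) (ht : 0 < t) :
    HasDerivAt (fun t => um D k m t + um D k (m + 2) t)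
      (2 * ((m * Real.cosh (2 * t) - k) / Real.sinh (2 * t) * um D k m t -
        ((m + 2) * Real.cosh (2 * t) - k) / Real.sinh (2 * t) * um D k (m + 2) t)) t := by
  have h1 := um_deriv hALG D k hk m t
  have h2 := um_deriv hALG D k hk (m + 2) t
  have e1 := um_rel hALG D k hk m t ht
  have e2 := um_rel hALG D k hk (m + 2) t ht
  rw [show m + 2 - 2 = m by ring] at h2 e2
  push_cast at e2
  refine (h1.add h2).congr_deriv ?_
  linarith

lemma um_cont (hALG : StmALG) (D : Rep) (k : ℤ) (hk : k ∈ D.S) (m : ℤ) :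
    Continuous (um D k m) :=
  continuous_iff_continuousAt.2 fun t => (um_deriv hALG D k hk m t).continuousAt

lemma um_le (hALG : StmALG) (D : Rep) (k : ℤ) (hk : k ∈ D.S) (m : ℤ) (t : ℝ) :
    0 ≤ um D k m t ∧ um D k m t ≤ 1 := by
  refine ⟨um_nonneg D k m t, ?_⟩
  have := (hALG D k hk).2.1 {m} t
  simpa [um] using this

lemma um_small (hZER : StmZER) (D : Rep) (k : ℤ) (hk : k ∈ D.S) (m : ℤ) (h : 4 ≤ |m - k|) :
    ∃ C : ℝ, ∀ t, 0 ≤ t → t ≤ 1 → um D k m t ≤ C * t ^ 4 := by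
  obtain ⟨C, hC⟩ := (hZER D k hk).2 2 m (by push_cast; linarith)
  refine ⟨C ^ 2, fun t h0 h1 => ?_⟩
  have e := hC t h0 h1
  rw [um]
  calc ‖mc D k m t‖ ^ 2 ≤ (C * t ^ 2) ^ 2 := pow_le_pow_left₀ (norm_nonneg _) e 2
    _ = C ^ 2 * t ^ 4 := by ring

lemma um_ne (hZER : StmZER) (D : Rep) (k : ℤ) (hk : k ∈ D.S) (m : ℤ) (hm : m ∈ D.S) :
    ∃ t, 0 < t ∧ um D k m t ≠ 0 := by
  obtain ⟨t, ht, h⟩ := (hZER D k hk).1 m hm
  exact ⟨t, ht, by rw [um]; exact pow_ne_zero 2 (norm_ne_zero_iff.2 h)⟩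

/-- the claim for one weight -/
def Cl (D : Rep) (k : ℤ) (c R : ℝ) (m : ℤ) : Prop := ∀ T : ℝ, 0 ≤ T →
  R * (1 + |(m : ℝ)|) ≤ Real.sinh (2 * T) → c ≤ ∫ t in (0 : ℝ)..T, Real.cosh (2 * t) * um D k m t

lemma Cl.mono {D : Rep} {k : ℤ} {c R c' R' : ℝ} {m : ℤ} (h : Cl D k c R m) (hc : c' ≤ c)
    (hR : R ≤ R') : Cl D k c' R' m := by
  intro T hT hT'
  refine hc.trans (h T hT (le_trans ?_ hT'))
  exact mul_le_mul_of_nonneg_right hR (by positivity)

lemma right (hALG : StmALG) (hZER : StmZER) (hLOWR : StmLOWR) (D : Rep) (k : ℤ) (hk : k ∈ D.S) :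
    ∃ (B : ℤ) (c R : ℝ), 0 < c ∧ 0 < R ∧ ∀ m ∈ D.S, B ≤ m → Cl D k c R m := by
  by_cases hex : ∃ m₀ ∈ D.S, |k| + 6 ≤ m₀
  · obtain ⟨m₀, hm₀, hb⟩ := hex
    have hb' : |(k : ℝ)| + 6 ≤ (m₀ : ℝ) := by exact_mod_cast hb
    obtain ⟨c, R, hc, hR, h⟩ := hLOWR m₀ k (fun j t => um D k (m₀ + 2 * j) t) hb'
      (fun j => um_cont hALG D k hk _) (fun j t => um_le hALG D k hk _ t)
      (fun j => um_small hZER D k hk _ (by
        have : (0 : ℤ) ≤ j := Int.natCast_nonneg j
        have h1 := le_abs_self k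
        have h2 := neg_abs_le k
        rw [le_abs]
        left
        linarith))
      (fun j t ht => by
        have := um_deriv2 hALG D k hk (m₀ + 2 * j) t ht
        have e : m₀ + 2 * ((j + 1 : ℕ) : ℤ) = m₀ + 2 * j + 2 := by push_cast; ring
        simp only [e]
        push_cast at this
        exact this)
      (by
        obtain ⟨t, ht, h⟩ := um_ne hZER D k hk m₀ hm₀
        exact ⟨t, ht, by simpa using h⟩)
    refine ⟨m₀, c, R, hc, hR, fun m hm hmm T hT hT' => ?_⟩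
    obtain ⟨d, hd⟩ := (D.conn m₀ hm₀ m hm).1
    have hd0 : 0 ≤ d := by omega
    obtain ⟨j, rfl⟩ := Int.eq_ofNat_of_zero_le hd0
    have hm' : m = m₀ + 2 * j := by linarith
    have := h j T hT (by
      refine le_trans ?_ hT'
      refine mul_le_mul_of_nonneg_left ?_ hR.le
      have : (m : ℝ) = m₀ + 2 * j := by rw [hm']; push_cast; ring
      rw [← this]
      have := le_abs_self (m : ℝ)
      linarith)
    rw [hm']
    exact this
  · push Not at hex
    exact ⟨|k| + 6, 1, 1, one_pos, one_pos, fun m hm hmm => absurd hmm (not_le.2 (hex m hm))⟩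

lemma left (hALG : StmALG) (hZER : StmZER) (hLOWR : StmLOWR) (D : Rep) (k : ℤ) (hk : k ∈ D.S) :
    ∃ (B : ℤ) (c R : ℝ), 0 < c ∧ 0 < R ∧ ∀ m ∈ D.S, m ≤ B → Cl D k c R m := by
  by_cases hex : ∃ m₀ ∈ D.S, m₀ ≤ -(|k| + 6)
  · obtain ⟨m₀, hm₀, hb⟩ := hex
    have hb' : |-(k : ℝ)| + 6 ≤ -(m₀ : ℝ) := by
      rw [abs_neg]
      have : (m₀ : ℝ) ≤ -(|(k : ℝ)| + 6) := by exact_mod_cast hb
      linarith
    obtain ⟨c, R, hc, hR, h⟩ := hLOWR (-m₀) (-k) (fun j t => um D k (m₀ - 2 * j) t) hb'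
      (fun j => um_cont hALG D k hk _) (fun j t => um_le hALG D k hk _ t)
      (fun j => um_small hZER D k hk _ (by
        have : (0 : ℤ) ≤ j := Int.natCast_nonneg j
        have h1 := le_abs_self k
        have h2 := neg_abs_le k
        rw [le_abs]
        right
        linarith))
      (fun j t ht => by
        have := um_deriv2 hALG D k hk (m₀ - 2 * j - 2) t ht
        have e : m₀ - 2 * ((j + 1 : ℕ) : ℤ) = m₀ - 2 * j - 2 := by push_cast; ring
        simp only [e]
        rw [show m₀ - 2 * (j : ℤ) - 2 + 2 = m₀ - 2 * j by ring] at this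
        push_cast at this
        have h2 : HasDerivAt (fun t => um D k (m₀ - 2 * j) t + um D k (m₀ - 2 * j - 2) t) _ t :=
          this.congr_of_eventuallyEq (Eventually.of_forall fun s => add_comm _ _)
        refine h2.congr_deriv ?_
        ring)
      (by
        obtain ⟨t, ht, h⟩ := um_ne hZER D k hk m₀ hm₀
        exact ⟨t, ht, by simpa using h⟩)
    refine ⟨m₀, c, R, hc, hR, fun m hm hmm T hT hT' => ?_⟩
    obtain ⟨d, hd⟩ := (D.conn m hm m₀ hm₀).1
    have hd0 : 0 ≤ d := by omega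
    obtain ⟨j, rfl⟩ := Int.eq_ofNat_of_zero_le hd0
    have hm' : m = m₀ - 2 * j := by linarith
    have := h j T hT (by
      refine le_trans ?_ hT'
      refine mul_le_mul_of_nonneg_left ?_ hR.le
      have : (m : ℝ) = m₀ - 2 * j := by rw [hm']; push_cast; ring
      have h2 := neg_le_abs (m : ℝ)
      linarith)
    rw [hm']
    exact this
  · push Not at hex
    exact ⟨-(|k| + 6), 1, 1, one_pos, one_pos, fun m hm hmm => absurd hmm (not_le.2 (hex m hm))⟩

lemma single (hALG : StmALG) (hZER : StmZER) (D : Rep) (k : ℤ) (hk : k ∈ D.S) (m : ℤ)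
    (hm : m ∈ D.S) : ∃ c R : ℝ, 0 < c ∧ 0 < R ∧ Cl D k c R m := by
  obtain ⟨t₀, ht₀, hne⟩ := um_ne hZER D k hk m hm
  have c1 : Continuous fun t => Real.cosh (2 * t) * um D k m t := by
    have := um_cont hALG D k hk m
    fun_prop
  refine ⟨∫ t in (0 : ℝ)..t₀, Real.cosh (2 * t) * um D k m t, Real.sinh (2 * t₀), ?_,
    Real.sinh_pos_iff.2 (by linarith), ?_⟩
  · refine intervalIntegral.integral_pos ht₀ c1.continuousOn
      (fun t _ => mul_nonneg (Real.cosh_pos _).le (um_nonneg D k m t))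
      ⟨t₀, ⟨ht₀.le, le_rfl⟩, mul_pos (Real.cosh_pos _) ?_⟩
    exact lt_of_le_of_ne (um_nonneg D k m t₀) hne.symm
  · intro T hT hT'
    have hs : Real.sinh (2 * t₀) ≤ Real.sinh (2 * T) := by
      refine le_trans ?_ hT'
      have h1 : 0 < Real.sinh (2 * t₀) := Real.sinh_pos_iff.2 (by linarith)
      have h2 := abs_nonneg (m : ℝ)
      nlinarith
    have hle : t₀ ≤ T := by
      have := Real.sinh_le_sinh.1 hs
      linarith
    have hsplit : (∫ t in (0 : ℝ)..T, Real.cosh (2 * t) * um D k m t) =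
        (∫ t in (0 : ℝ)..t₀, Real.cosh (2 * t) * um D k m t) +
          ∫ t in t₀..T, Real.cosh (2 * t) * um D k m t := by
      rw [intervalIntegral.integral_add_adjacent_intervals (c1.intervalIntegrable _ _)
        (c1.intervalIntegrable _ _)]
    have hnn : 0 ≤ ∫ t in t₀..T, Real.cosh (2 * t) * um D k m t :=
      intervalIntegral.integral_nonneg hle fun t _ =>
        mul_nonneg (Real.cosh_pos _).le (um_nonneg D k m t)
    rw [hsplit]
    linarith

lemma fin (hALG : StmALG) (hZER : StmZER) (D : Rep) (k : ℤ) (hk : k ∈ D.S) (A : Finset ℤ) :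
    ∃ c R : ℝ, 0 < c ∧ 0 < R ∧ ∀ m ∈ A, m ∈ D.S → Cl D k c R m := by
  classical
  induction A using Finset.induction_on with
  | empty => exact ⟨1, 1, one_pos, one_pos, by simp⟩
  | insert a A _ ih =>
    obtain ⟨c, R, hc, hR, h⟩ := ih
    by_cases ha : a ∈ D.S
    · obtain ⟨c', R', hc', hR', h'⟩ := single hALG hZER D k hk a ha
      refine ⟨min c c', max R R', lt_min hc hc', lt_max_of_lt_left hR, fun m hm hmS => ?_⟩
      rcases Finset.mem_insert.1 hm with rfl | hm
      · exact h'.mono (min_le_right _ _) (le_max_right _ _)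
      · exact (h m hm hmS).mono (min_le_left _ _) (le_max_left _ _)
    · refine ⟨c, R, hc, hR, fun m hm hmS => ?_⟩
      rcases Finset.mem_insert.1 hm with rfl | hm
      · exact absurd hmS ha
      · exact h m hm hmS

end ModLOW

open ModLOW

/-- LOW: the lower bound for the matrix coefficients. -/
theorem low (hALG : StmALG) (_hKAP : StmKAP) (hZER : StmZER) (hLOWR : StmLOWR) : StmLOW := by
  intro D k hk
  obtain ⟨B₁, c₁, R₁, hc₁, hR₁, h₁⟩ := right hALG hZER hLOWR D k hk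
  obtain ⟨B₂, c₂, R₂, hc₂, hR₂, h₂⟩ := left hALG hZER hLOWR D k hk
  obtain ⟨c₃, R₃, hc₃, hR₃, h₃⟩ := fin hALG hZER D k hk (Finset.Icc B₂ B₁)
  refine ⟨min c₁ (min c₂ c₃), max R₁ (max R₂ R₃), lt_min hc₁ (lt_min hc₂ hc₃),
    lt_max_of_lt_left hR₁, fun m hm => ?_⟩
  have key : Cl D k (min c₁ (min c₂ c₃)) (max R₁ (max R₂ R₃)) m := by
    rcases le_or_gt B₁ m with h | h
    · exact (h₁ m hm h).mono (min_le_left _ _) (le_max_left _ _)
    · rcases le_or_gt m B₂ with h' | h'
      · exact (h₂ m hm h').mono ((min_le_right _ _).trans (min_le_left _ _))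
          ((le_max_left _ _).trans (le_max_right _ _))
      · exact (h₃ m (Finset.mem_Icc.2 ⟨h'.le, h.le⟩) hm).mono
          ((min_le_right _ _).trans (min_le_right _ _))
          ((le_max_right _ _).trans (le_max_right _ _))
  exact key

end Pool.Agent.T6.H28.SN
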