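import Pool.Agent.T6.H28.SN.Stm

set_option autoImplicit false

open scoped InnerProductSpace ComplexConjugate Topology ENNReal
open Filter MeasureTheory

namespace Pool.Agent.T6.H28.SN

namespace ModLOWA

theorem sinh_ge {t : ℝ} (ht : 0 < t) : t ≤ Real.sinh (2 * t) := by
  have h := (Real.self_lt_sinh_iff (x := 2 * t)).2 (by linarith)
  linarith

theorem sinh_pos {t : ℝ} (ht : 0 < t) : 0 < Real.sinh (2 * t) :=
  lt_of_lt_of_le ht (sinh_ge ht)

theorem sinh_big {t : ℝ} (ht : 1 ≤ t) : Real.exp (2 * t) / 4 ≤ Real.sinh (2 * t) ∧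
    1 ≤ Real.exp (2 * t) / 4 := by
  have h1 : (4 : ℝ) ≤ Real.exp (2 * t) := by
    have h2 : Real.exp 2 ≤ Real.exp (2 * t) := Real.exp_le_exp.2 (by linarith)
    have h3 : (4 : ℝ) ≤ Real.exp 2 := by
      have := Real.add_one_le_exp (1 : ℝ)
      have h4 : Real.exp 2 = Real.exp 1 * Real.exp 1 := by rw [← Real.exp_add]; norm_num
      rw [h4]
      nlinarith
    linarith
  refine ⟨?_, by linarith⟩
  rw [Real.sinh_eq]
  have h5 : Real.exp (-(2 * t)) ≤ 1 := Real.exp_le_one_iff.2 (by linarith)
  linarith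

/-- integrability -/
theorem integ {u p : ℝ → ℝ} {C : ℝ} {δ : ℕ} (hδ2 : 2 ≤ δ) (hδ4 : δ ≤ 4) (hu : Continuous u)
    (hp : Continuous p) (hp1 : ∀ t, 0 ≤ p t ∧ p t ≤ Real.cosh (2 * t))
    (hu1 : ∀ t, 0 ≤ u t ∧ u t ≤ 1) (hC : ∀ t, 0 ≤ t → t ≤ 1 → u t ≤ C * t ^ 4) :
    IntegrableOn (fun t => p t / Real.sinh (2 * t) ^ δ * u t) (Set.Ioi 0) := by
  have hcont : ContinuousOn (fun t => p t / Real.sinh (2 * t) ^ δ * u t) (Set.Ioi 0) := by
    refine ContinuousOn.mul (ContinuousOn.div hp.continuousOn ?_ ?_) hu.continuousOn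
    · exact Continuous.continuousOn (by fun_prop)
    · intro t ht
      have := sinh_pos (Set.mem_Ioi.1 ht)
      positivity
  have hC0 : 0 ≤ C := by
    have h1 := hC 1 zero_le_one le_rfl
    have h2 := (hu1 1).1
    simp at h1
    linarith
  rw [← Set.Ioc_union_Ioi_eq_Ioi (zero_le_one : (0 : ℝ) ≤ 1)]
  refine IntegrableOn.union ?_ ?_
  · have hk0 : IntegrableOn (fun _ : ℝ => Real.cosh 2 * C) (Set.Ioc 0 1) :=
      continuous_const.integrableOn_Ioc
    refine Integrable.mono' hk0 ?_ ?_
    · exact (hcont.mono (fun t (ht : t ∈ Set.Ioc (0 : ℝ) 1) => ht.1)).aestronglyMeasurable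
        measurableSet_Ioc
    · rw [ae_restrict_iff' measurableSet_Ioc]
      refine Eventually.of_forall fun t ht => ?_
      have ht0 : 0 < t := ht.1
      have ht1 : t ≤ 1 := ht.2
      have hs := sinh_pos ht0
      rw [Real.norm_eq_abs, abs_of_nonneg (mul_nonneg (div_nonneg (hp1 t).1 (by positivity))
        (hu1 t).1)]
      have h1 : p t ≤ Real.cosh 2 := (hp1 t).2.trans (by
        rw [Real.cosh_le_cosh]
        rw [abs_of_pos (by linarith), abs_of_pos (by norm_num)]
        linarith)
      have h2 : t ^ δ ≤ Real.sinh (2 * t) ^ δ := pow_le_pow_left₀ ht0.le (sinh_ge ht0) δ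
      have h3 : t ^ 4 ≤ t ^ δ := pow_le_pow_of_le_one ht0.le ht1 hδ4
      have h4 : u t ≤ C * t ^ 4 := hC t ht0.le ht1
      have hcosh : 0 < Real.cosh 2 := Real.cosh_pos 2
      calc p t / Real.sinh (2 * t) ^ δ * u t
          ≤ Real.cosh 2 / t ^ δ * (C * t ^ δ) := by
            refine mul_le_mul ?_ (h4.trans (mul_le_mul_of_nonneg_left h3 hC0)) (hu1 t).1
              (by positivity)
            exact div_le_div₀ hcosh.le h1 (by positivity) h2
        _ = Real.cosh 2 * C := by
            field_simp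
  · have h0 := (exp_neg_integrableOn_Ioi (1 : ℝ) (b := 2) (by norm_num)).const_mul 16
    refine Integrable.mono' h0 ?_ ?_
    · exact (hcont.mono (fun t (ht : t ∈ Set.Ioi (1 : ℝ)) =>
        lt_trans one_pos (Set.mem_Ioi.1 ht))).aestronglyMeasurable measurableSet_Ioi
    · rw [ae_restrict_iff' measurableSet_Ioi]
      refine Eventually.of_forall fun t ht => ?_
      have ht1 : 1 ≤ t := (Set.mem_Ioi.1 ht).le
      have hs := sinh_pos (lt_of_lt_of_le one_pos ht1)
      rw [Real.norm_eq_abs, abs_of_nonneg (mul_nonneg (div_nonneg (hp1 t).1 (by positivity))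
        (hu1 t).1)]
      obtain ⟨h1, h2⟩ := sinh_big ht1
      have h3 : Real.cosh (2 * t) ≤ Real.exp (2 * t) := by
        rw [Real.cosh_eq]
        have : Real.exp (-(2 * t)) ≤ Real.exp (2 * t) := Real.exp_le_exp.2 (by linarith)
        linarith
      have h4 : (Real.exp (2 * t) / 4) ^ 2 ≤ Real.sinh (2 * t) ^ δ := by
        calc (Real.exp (2 * t) / 4) ^ 2 ≤ Real.sinh (2 * t) ^ 2 :=
              pow_le_pow_left₀ (by positivity) h1 2
          _ ≤ Real.sinh (2 * t) ^ δ := pow_le_pow_right₀ (h2.trans h1) hδ2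
      have hexp := Real.exp_pos (2 * t)
      calc p t / Real.sinh (2 * t) ^ δ * u t
          ≤ Real.exp (2 * t) / (Real.exp (2 * t) / 4) ^ 2 * 1 := by
            refine mul_le_mul ?_ (hu1 t).2 (hu1 t).1 (by positivity)
            exact div_le_div₀ hexp.le ((hp1 t).2.trans h3) (by positivity) h4
        _ = 16 * Real.exp (-2 * t) := by
            rw [show -2 * t = -(2 * t) by ring, Real.exp_neg]
            field_simp
            norm_num

end ModLOWA

open ModLOWA in
theorem lowa : StmLOWA := by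
  intro m k u v hu hv hu1 hv1 hC hd
  obtain ⟨C, hC⟩ := hC
  refine ⟨?_, ?_⟩
  · intro δ hδ2 hδ4
    have hcc : Continuous fun t : ℝ => Real.cosh (2 * t) := by fun_prop
    have hc1 : ∀ t : ℝ, 0 ≤ Real.cosh (2 * t) ∧ Real.cosh (2 * t) ≤ Real.cosh (2 * t) :=
      fun t => ⟨(Real.cosh_pos _).le, le_rfl⟩
    have h11 : ∀ t : ℝ, 0 ≤ (1 : ℝ) ∧ (1 : ℝ) ≤ Real.cosh (2 * t) :=
      fun t => ⟨zero_le_one, Real.one_le_cosh _⟩
    have iAu := integ hδ2 hδ4 hu hcc hc1 hu1 (fun t h0 h1 => (hC t h0 h1).1)
    have iBu := integ hδ2 hδ4 hu (p := fun _ => (1 : ℝ)) continuous_const h11 hu1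
      (fun t h0 h1 => (hC t h0 h1).1)
    have iAv := integ hδ2 hδ4 hv hcc hc1 hv1 (fun t h0 h1 => (hC t h0 h1).2)
    have iBv := integ hδ2 hδ4 hv (p := fun _ => (1 : ℝ)) continuous_const h11 hv1
      (fun t h0 h1 => (hC t h0 h1).2)
    refine ⟨iAu, iBu, iAv, iBv, ?_⟩
    set Au : ℝ → ℝ := fun t => Real.cosh (2 * t) / Real.sinh (2 * t) ^ δ * u t with hAu
    set Bu : ℝ → ℝ := fun t => 1 / Real.sinh (2 * t) ^ δ * u t with hBu
    set Av : ℝ → ℝ := fun t => Real.cosh (2 * t) / Real.sinh (2 * t) ^ δ * v t with hAv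
    set Bv : ℝ → ℝ := fun t => 1 / Real.sinh (2 * t) ^ δ * v t with hBv
    obtain ⟨j, rfl⟩ : ∃ j, δ = j + 1 := ⟨δ - 1, by omega⟩
    have hj1 : 1 ≤ j := by omega
    have hj3 : j ≤ 3 := by omega
    let F : ℝ → ℝ := fun t => (u t + v t) / (2 * Real.sinh (2 * t) ^ j)
    let F' : ℝ → ℝ := fun t => (m * Au t - k * Bu t) - ((m + 2) * Av t - k * Bv t) -
      (j : ℝ) * (Au t + Av t)
    have hC0 : 0 ≤ C := by
      have h1 := (hC 1 zero_le_one le_rfl).1
      have h2 := (hu1 1).1
      simp at h1
      linarith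
    have hF0 : F 0 = 0 := by
      simp only [F, mul_zero, Real.sinh_zero]
      rw [zero_pow (by omega), mul_zero, div_zero]
    have hFd : ∀ t ∈ Set.Ioi (0 : ℝ), HasDerivAt F (F' t) t := by
      intro t ht
      have ht0 : 0 < t := ht
      have hs := sinh_pos ht0
      have h1 : HasDerivAt (fun t : ℝ => Real.sinh (2 * t)) (Real.cosh (2 * t) * (2 * 1)) t :=
        ((hasDerivAt_id t).const_mul 2).sinh
      have h2 := (h1.pow j).const_mul 2
      have h3 := (hd t ht0).div h2 (mul_ne_zero two_ne_zero (pow_ne_zero j hs.ne'))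
      refine h3.congr_deriv ?_
      simp only [F', hAu, hBu, hAv, hBv]
      obtain ⟨i, rfl⟩ : ∃ i, j = i + 1 := ⟨j - 1, by omega⟩
      simp only [Nat.add_sub_cancel, Pi.pow_apply]
      field_simp
      push_cast
      ring
    have hFi : IntegrableOn F' (Set.Ioi 0) :=
      (((iAu.const_mul m).sub (iBu.const_mul k)).sub
        ((iAv.const_mul (m + 2)).sub (iBv.const_mul k))).sub ((iAu.add iAv).const_mul (j : ℝ))
    have hFc : ContinuousWithinAt F (Set.Ici 0) 0 := by
      unfold ContinuousWithinAt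
      rw [hF0]
      have hlim : Tendsto (fun t : ℝ => C * t) (𝓝[Set.Ici 0] 0) (𝓝 0) := by
        have : Continuous fun t : ℝ => C * t := by fun_prop
        have h := this.tendsto 0
        rw [mul_zero] at h
        exact h.mono_left nhdsWithin_le_nhds
      have hev : ∀ᶠ t in 𝓝[Set.Ici 0] (0 : ℝ), 0 ≤ t ∧ t ≤ 1 := by
        have h1 : Set.Iic (1 : ℝ) ∈ 𝓝 (0 : ℝ) := Iic_mem_nhds one_pos
        filter_upwards [self_mem_nhdsWithin, mem_nhdsWithin_of_mem_nhds h1] with t h2 h3
        exact ⟨h2, h3⟩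
      refine tendsto_of_tendsto_of_tendsto_of_le_of_le' tendsto_const_nhds hlim ?_ ?_
      · filter_upwards [hev] with t ht
        have : 0 ≤ Real.sinh (2 * t) := Real.sinh_nonneg_iff.2 (by linarith [ht.1])
        exact div_nonneg (add_nonneg (hu1 t).1 (hv1 t).1) (by positivity)
      · filter_upwards [hev] with t ht
        rcases ht.1.eq_or_lt with h0 | h0
        · rw [← h0, hF0, mul_zero]
        · have h2 : t ^ j ≤ Real.sinh (2 * t) ^ j := pow_le_pow_left₀ h0.le (sinh_ge h0) j
          have h3 : t ^ 3 ≤ t ^ j := pow_le_pow_of_le_one h0.le ht.2 hj3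
          have h4 := hC t h0.le ht.2
          have hs := sinh_pos h0
          change (u t + v t) / (2 * Real.sinh (2 * t) ^ j) ≤ C * t
          rw [div_le_iff₀ (by positivity)]
          calc u t + v t ≤ 2 * C * t ^ 4 := by linarith [h4.1, h4.2]
            _ = C * t * (2 * t ^ 3) := by ring
            _ ≤ C * t * (2 * Real.sinh (2 * t) ^ j) := by
                gcongr
                exact h3.trans h2
    have hFt : Tendsto F atTop (𝓝 0) := by
      have hlim : Tendsto (fun t : ℝ => 4 * Real.exp (-(2 * t))) atTop (𝓝 0) := by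
        have h1 : Tendsto (fun t : ℝ => 2 * t) atTop atTop :=
          tendsto_id.const_mul_atTop (by norm_num)
        have h2 := (Real.tendsto_exp_neg_atTop_nhds_zero.comp h1).const_mul 4
        rw [mul_zero] at h2
        exact h2
      refine tendsto_of_tendsto_of_tendsto_of_le_of_le' tendsto_const_nhds hlim ?_ ?_
      · filter_upwards [eventually_ge_atTop (1 : ℝ)] with t ht
        have hs := sinh_pos (lt_of_lt_of_le one_pos ht)
        exact div_nonneg (add_nonneg (hu1 t).1 (hv1 t).1) (by positivity)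
      · filter_upwards [eventually_ge_atTop (1 : ℝ)] with t ht
        obtain ⟨h1, h2⟩ := sinh_big ht
        have hs := sinh_pos (lt_of_lt_of_le one_pos ht)
        have h3 : Real.sinh (2 * t) ^ 1 ≤ Real.sinh (2 * t) ^ j :=
          pow_le_pow_right₀ (h2.trans h1) hj1
        rw [pow_one] at h3
        change (u t + v t) / (2 * Real.sinh (2 * t) ^ j) ≤ _
        have hexp := Real.exp_pos (2 * t)
        calc (u t + v t) / (2 * Real.sinh (2 * t) ^ j) ≤ 2 / (2 * (Real.exp (2 * t) / 4)) := by
              refine div_le_div₀ (by norm_num) ?_ (by positivity) ?_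
              · linarith [(hu1 t).2, (hv1 t).2]
              · linarith
          _ = 4 * Real.exp (-(2 * t)) := by
              rw [Real.exp_neg]
              field_simp
    have hint := integral_Ioi_of_hasDerivAt_of_tendsto hFc hFd hFi hFt
    rw [hF0, sub_zero] at hint
    have hL1 : (∫ t in Set.Ioi 0, (m * Real.cosh (2 * t) - k) / Real.sinh (2 * t) ^ (j + 1) * u t) =
        m * (∫ t in Set.Ioi 0, Au t) - k * ∫ t in Set.Ioi 0, Bu t := by
      rw [← integral_const_mul, ← integral_const_mul,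
        ← integral_sub (iAu.const_mul m) (iBu.const_mul k)]
      refine integral_congr_ae (Eventually.of_forall fun t => ?_)
      simp only [hAu, hBu]
      ring
    have hL2 : (∫ t in Set.Ioi 0, ((m + 2) * Real.cosh (2 * t) - k) /
        Real.sinh (2 * t) ^ (j + 1) * v t) =
        (m + 2) * (∫ t in Set.Ioi 0, Av t) - k * ∫ t in Set.Ioi 0, Bv t := by
      rw [← integral_const_mul, ← integral_const_mul,
        ← integral_sub (iAv.const_mul (m + 2)) (iBv.const_mul k)]
      refine integral_congr_ae (Eventually.of_forall fun t => ?_)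
      simp only [hAv, hBv]
      ring
    have hL3 : ∫ t in Set.Ioi 0, F' t =
        (m * (∫ t in Set.Ioi 0, Au t) - k * ∫ t in Set.Ioi 0, Bu t) -
        ((m + 2) * (∫ t in Set.Ioi 0, Av t) - k * ∫ t in Set.Ioi 0, Bv t) -
        (j : ℝ) * ((∫ t in Set.Ioi 0, Au t) + ∫ t in Set.Ioi 0, Av t) := by
      change ∫ t in Set.Ioi 0, ((m * Au t - k * Bu t) - ((m + 2) * Av t - k * Bv t) -
        (j : ℝ) * (Au t + Av t)) = _
      have i1 : IntegrableOn (fun t => m * Au t - k * Bu t) (Set.Ioi 0) :=
        (iAu.const_mul m).sub (iBu.const_mul k)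
      have i2 : IntegrableOn (fun t => (m + 2) * Av t - k * Bv t) (Set.Ioi 0) :=
        (iAv.const_mul (m + 2)).sub (iBv.const_mul k)
      have i3 : IntegrableOn (fun t => (j : ℝ) * (Au t + Av t)) (Set.Ioi 0) :=
        (iAu.add iAv).const_mul (j : ℝ)
      have i4 : IntegrableOn (fun t => (m * Au t - k * Bu t) - ((m + 2) * Av t - k * Bv t))
        (Set.Ioi 0) := i1.sub i2
      rw [integral_sub i4 i3, integral_sub i1 i2,
        integral_sub (iAu.const_mul m) (iBu.const_mul k),
        integral_sub (iAv.const_mul (m + 2)) (iBv.const_mul k),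
        integral_const_mul, integral_const_mul, integral_const_mul, integral_const_mul,
        integral_const_mul, integral_add iAu iAv]
    rw [hL3] at hint
    rw [hL1, hL2]
    push_cast
    linarith
  · intro T hT
    let G : ℝ → ℝ := fun t => Real.sinh (2 * t) / 2 * (u t + v t)
    let G' : ℝ → ℝ := fun t => Real.cosh (2 * t) * u t + Real.cosh (2 * t) * v t +
      ((m * Real.cosh (2 * t) - k) * u t - ((m + 2) * Real.cosh (2 * t) - k) * v t)
    have hGc : Continuous G := by fun_prop
    have hi1 : IntervalIntegrable (fun t => Real.cosh (2 * t) * u t) volume 0 T :=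
      Continuous.intervalIntegrable (by fun_prop) _ _
    have hi2 : IntervalIntegrable (fun t => Real.cosh (2 * t) * v t) volume 0 T :=
      Continuous.intervalIntegrable (by fun_prop) _ _
    have hi3 : IntervalIntegrable (fun t => (m * Real.cosh (2 * t) - k) * u t) volume 0 T :=
      Continuous.intervalIntegrable (by fun_prop) _ _
    have hi4 : IntervalIntegrable (fun t => ((m + 2) * Real.cosh (2 * t) - k) * v t) volume 0 T :=
      Continuous.intervalIntegrable (by fun_prop) _ _
    have hFTC := intervalIntegral.integral_eq_sub_of_hasDerivAt_of_le (f := G) (f' := G') hT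
      hGc.continuousOn (fun t ht => by
        have hs := sinh_pos ht.1
        have h1 : HasDerivAt (fun t : ℝ => Real.sinh (2 * t) / 2)
            (Real.cosh (2 * t) * (2 * 1) / 2) t :=
          (((hasDerivAt_id t).const_mul 2).sinh).div_const 2
        refine (h1.mul (hd t ht.1)).congr_deriv ?_
        simp only [G']
        field_simp) ((hi1.add hi2).add (hi3.sub hi4))
    change (∫ t in (0 : ℝ)..T, (Real.cosh (2 * t) * u t + Real.cosh (2 * t) * v t +
      ((m * Real.cosh (2 * t) - k) * u t - ((m + 2) * Real.cosh (2 * t) - k) * v t))) = _ at hFTC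
    rw [intervalIntegral.integral_add (hi1.add hi2) (hi3.sub hi4),
      intervalIntegral.integral_add hi1 hi2, intervalIntegral.integral_sub hi3 hi4] at hFTC
    have hG0 : G 0 = 0 := by simp [G]
    rw [hG0] at hFTC
    change _ = G T - _ - _
    linarith

end Pool.Agent.T6.H28.SN
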