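import Pool.Agent.T6.H28.SN.Stm

/-!
# The lower bound, real analysis
-/

set_option autoImplicit false

open MeasureTheory Filter Topology

namespace Pool.Agent.T6.H28.SN
namespace ModLOWR

/-- sequences: lower bound -/
lemma seq_lower (m₀ K : ℝ) (N J : ℕ → ℝ) (hK : 0 ≤ K) (hm : K + 6 ≤ m₀) (hJ : ∀ j, 0 ≤ J j)
    (h1 : ∀ j : ℕ, (m₀ + 2 * j - K) * J j ≤ N j) (h2 : ∀ j : ℕ, N j ≤ (m₀ + 2 * j + K) * J j)
    (h3 : ∀ j, N j - N (j + 1) = 2 * (J j + J (j + 1))) (h0 : 0 < N 0) :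
    ∃ c : ℝ, 0 < c ∧ ∀ j : ℕ, c ≤ J j * (m₀ + 2 * j) ^ 3 := by
  have hmono : ∀ j : ℕ, N 0 * ((m₀ - K) ^ 2 - 4) ≤ N j * ((m₀ + 2 * j - K) ^ 2 - 4) := by
    intro j
    induction j with
    | zero => simp
    | succ j ih =>
      refine ih.trans ?_
      have e1 := h1 j
      have e2 := h1 (j + 1)
      have e3 := h3 j
      have hj : (0 : ℝ) ≤ j := j.cast_nonneg
      push_cast at e2 ⊢
      obtain ⟨x, hx⟩ : ∃ x : ℝ, x = m₀ + 2 * j - K := ⟨_, rfl⟩
      have hx6 : 6 ≤ x := by rw [hx]; linarith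
      have e2' : (x + 2) * J (j + 1) ≤ N (j + 1) := by rw [hx]; linarith
      have e1' : x * J j ≤ N j := by rw [hx]; linarith
      have ee : m₀ + 2 * ((j : ℝ) + 1) - K = x + 2 := by rw [hx]; ring
      rw [ee, ← hx]
      have a1 := mul_le_mul_of_nonneg_left e1' (show (0 : ℝ) ≤ 2 * (x + 2) by linarith)
      have a2 := mul_le_mul_of_nonneg_left e2' (show (0 : ℝ) ≤ 2 * x by linarith)
      have a3 : N (j + 1) = N j - 2 * (J j + J (j + 1)) := by linarith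
      have a4 : x * (x + 2) * N (j + 1) = x * (x + 2) * N j - 2 * (x + 2) * (x * J j) -
          2 * x * ((x + 2) * J (j + 1)) := by rw [a3]; ring
      nlinarith [a1, a2, a4]
  refine ⟨N 0 * ((m₀ - K) ^ 2 - 4) / 2, ?_, ?_⟩
  · have : 0 < (m₀ - K) ^ 2 - 4 := by nlinarith
    positivity
  · intro j
    have hj : (0 : ℝ) ≤ j := j.cast_nonneg
    obtain ⟨M, hM⟩ : ∃ M : ℝ, M = m₀ + 2 * j := ⟨_, rfl⟩
    have e1 := hmono j
    have e2 := h2 j
    rw [← hM] at e1 e2 ⊢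
    have hMK : K + 6 ≤ M := by rw [hM]; linarith
    have e3 : (M - K) ^ 2 - 4 ≤ M ^ 2 := by nlinarith
    have e4 : 0 ≤ (M - K) ^ 2 - 4 := by nlinarith
    have e5 : (M + K) * J j ≤ 2 * M * J j := mul_le_mul_of_nonneg_right (by linarith) (hJ j)
    have e6 : 0 ≤ 2 * M * J j := mul_nonneg (by linarith) (hJ j)
    have e7 : N j * ((M - K) ^ 2 - 4) ≤ 2 * M * J j * M ^ 2 :=
      (mul_le_mul_of_nonneg_right (e2.trans e5) e4).trans (mul_le_mul_of_nonneg_left e3 e6)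
    nlinarith [e1, e7]

/-- sequences: upper bound for `δ = 2` -/
lemma seq_upper2 (m₀ K : ℝ) (N J : ℕ → ℝ) (hK : 0 ≤ K) (hm : K + 6 ≤ m₀) (hJ : ∀ j, 0 ≤ J j)
    (h1 : ∀ j : ℕ, (m₀ + 2 * j - K) * J j ≤ N j) (h2 : ∀ j : ℕ, N j ≤ (m₀ + 2 * j + K) * J j)
    (h3 : ∀ j, N j - N (j + 1) = 1 * (J j + J (j + 1))) :
    ∃ C : ℝ, 0 < C ∧ ∀ j : ℕ, J j * (m₀ + 2 * j) ^ 2 ≤ C := by
  have hN : ∀ j, 0 ≤ N j := fun j => by
    have hj : (0 : ℝ) ≤ j := j.cast_nonneg
    exact (mul_nonneg (by linarith) (hJ j)).trans (h1 j)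
  have hmono : ∀ j : ℕ, N j * (m₀ + 2 * j + K) ≤ N 0 * (m₀ + K) := by
    intro j
    induction j with
    | zero => simp
    | succ j ih =>
      refine le_trans ?_ ih
      have e1 := h2 j
      have e2 := h2 (j + 1)
      have e3 := h3 j
      have hj : (0 : ℝ) ≤ j := j.cast_nonneg
      push_cast at e2 ⊢
      obtain ⟨y, hy⟩ : ∃ y : ℝ, y = m₀ + 2 * j + K := ⟨_, rfl⟩
      have hy6 : 6 ≤ y := by rw [hy]; linarith
      have ee : m₀ + 2 * ((j : ℝ) + 1) + K = y + 2 := by rw [hy]; ring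
      rw [ee, ← hy]
      rw [ee] at e2
      rw [← hy] at e1
      have a1 := mul_le_mul_of_nonneg_left e1 (show (0 : ℝ) ≤ y + 2 by linarith)
      have a2 := mul_le_mul_of_nonneg_left e2 (show (0 : ℝ) ≤ y by linarith)
      have a3 : N (j + 1) = N j - 1 * (J j + J (j + 1)) := by linarith
      have a4 : y * (y + 2) * N (j + 1) = y * (y + 2) * N j - (y + 2) * (y * J j) -
          y * ((y + 2) * J (j + 1)) := by rw [a3]; ring
      have a5 : y * (y + 3) * N (j + 1) ≤ (y + 2) * (y - 1) * N j := by nlinarith [a1, a2, a4]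
      have a6 : y * (y + 3) * (N (j + 1) * (y + 2)) ≤ y * (y + 3) * (N j * y) := by
        have b1 := mul_le_mul_of_nonneg_right a5 (show (0 : ℝ) ≤ y + 2 by linarith)
        have b2 : (y + 2) * (y - 1) * (y + 2) ≤ y * (y + 3) * y := by nlinarith
        have b3 := mul_le_mul_of_nonneg_right b2 (hN j)
        nlinarith [b1, b3]
      exact le_of_mul_le_mul_left a6 (by positivity)
  refine ⟨m₀ / 6 * (N 0 * (m₀ + K)) + 1, ?_, ?_⟩
  · have := hN 0
    have : 0 ≤ m₀ / 6 * (N 0 * (m₀ + K)) := mul_nonneg (by linarith) (mul_nonneg this (by linarith))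
    linarith
  · intro j
    have hj : (0 : ℝ) ≤ j := j.cast_nonneg
    have e1 := hmono j
    have e2 := h1 j
    obtain ⟨M, hM⟩ : ∃ M : ℝ, M = m₀ + 2 * j := ⟨_, rfl⟩
    have hB : M ≤ m₀ / 6 * (M - K) := by
      rw [hM]
      have : 0 ≤ (m₀ - 6) * (m₀ - K + 2 * j - 6 - 2 * j) := mul_nonneg (by linarith) (by linarith)
      nlinarith
    rw [← hM] at e1 e2 ⊢
    have hMK : K + 6 ≤ M := by rw [hM]; linarith
    have e4 : J j * M ≤ J j * (m₀ / 6 * (M - K)) := mul_le_mul_of_nonneg_left hB (hJ j)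
    have e5 : J j * M ≤ m₀ / 6 * N j := by
      have := mul_le_mul_of_nonneg_left e2 (show (0 : ℝ) ≤ m₀ / 6 by linarith)
      nlinarith
    have e6 : J j * M * M ≤ m₀ / 6 * N j * (M + K) := by
      have b1 := mul_le_mul_of_nonneg_right e5 (show (0 : ℝ) ≤ M by linarith)
      have b2 : 0 ≤ m₀ / 6 * N j := mul_nonneg (by linarith) (hN j)
      have b3 := mul_le_mul_of_nonneg_left (show M ≤ M + K by linarith) b2
      linarith
    have e7 := mul_le_mul_of_nonneg_left e1 (show (0 : ℝ) ≤ m₀ / 6 by linarith)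
    nlinarith [e6, e7]

/-- sequences: upper bound for `δ = 4` -/
lemma seq_upper4 (m₀ K : ℝ) (N J : ℕ → ℝ) (hK : 0 ≤ K) (hm : K + 6 ≤ m₀) (hJ : ∀ j, 0 ≤ J j)
    (h1 : ∀ j : ℕ, (m₀ + 2 * j - K) * J j ≤ N j) (h2 : ∀ j : ℕ, N j ≤ (m₀ + 2 * j + K) * J j)
    (h3 : ∀ j, N j - N (j + 1) = 3 * (J j + J (j + 1))) :
    ∃ C : ℝ, 0 < C ∧ ∀ j : ℕ, J j * (m₀ + 2 * j) ^ 4 ≤ C := by
  have hN : ∀ j, 0 ≤ N j := fun j => by
    have hj : (0 : ℝ) ≤ j := j.cast_nonneg
    exact (mul_nonneg (by linarith) (hJ j)).trans (h1 j)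
  have hmono : ∀ j : ℕ, N j * (m₀ + 2 * j + K) ^ 3 ≤ N 0 * (m₀ + K) ^ 3 := by
    intro j
    induction j with
    | zero => simp
    | succ j ih =>
      refine le_trans ?_ ih
      have e1 := h2 j
      have e2 := h2 (j + 1)
      have e3 := h3 j
      have hj : (0 : ℝ) ≤ j := j.cast_nonneg
      push_cast at e2 ⊢
      obtain ⟨y, hy⟩ : ∃ y : ℝ, y = m₀ + 2 * j + K := ⟨_, rfl⟩
      have hy6 : 6 ≤ y := by rw [hy]; linarith
      have ee : m₀ + 2 * ((j : ℝ) + 1) + K = y + 2 := by rw [hy]; ring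
      rw [ee, ← hy]
      rw [ee] at e2
      rw [← hy] at e1
      have a1 := mul_le_mul_of_nonneg_left e1 (show (0 : ℝ) ≤ 3 * (y + 2) by linarith)
      have a2 := mul_le_mul_of_nonneg_left e2 (show (0 : ℝ) ≤ 3 * y by linarith)
      have a3 : N (j + 1) = N j - 3 * (J j + J (j + 1)) := by linarith
      have a4 : y * (y + 2) * N (j + 1) = y * (y + 2) * N j - 3 * (y + 2) * (y * J j) -
          3 * y * ((y + 2) * J (j + 1)) := by rw [a3]; ring
      have a5 : y * (y + 5) * N (j + 1) ≤ (y + 2) * (y - 3) * N j := by nlinarith [a1, a2, a4]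
      have a6 : y * (y + 5) * (N (j + 1) * (y + 2) ^ 3) ≤ y * (y + 5) * (N j * y ^ 3) := by
        have b1 := mul_le_mul_of_nonneg_right a5 (show (0 : ℝ) ≤ (y + 2) ^ 3 by positivity)
        have b2 : (y + 2) * (y - 3) * (y + 2) ^ 3 ≤ y * (y + 5) * y ^ 3 := by nlinarith
        have b3 := mul_le_mul_of_nonneg_right b2 (hN j)
        calc y * (y + 5) * (N (j + 1) * (y + 2) ^ 3) = y * (y + 5) * N (j + 1) * (y + 2) ^ 3 := by
              ring
          _ ≤ (y + 2) * (y - 3) * N j * (y + 2) ^ 3 := b1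
          _ = (y + 2) * (y - 3) * (y + 2) ^ 3 * N j := by ring
          _ ≤ y * (y + 5) * y ^ 3 * N j := b3
          _ = y * (y + 5) * (N j * y ^ 3) := by ring
      exact le_of_mul_le_mul_left a6 (by positivity)
  refine ⟨m₀ / 6 * (N 0 * (m₀ + K) ^ 3) + 1, ?_, ?_⟩
  · have := hN 0
    have : 0 ≤ m₀ / 6 * (N 0 * (m₀ + K) ^ 3) :=
      mul_nonneg (by linarith) (mul_nonneg this (pow_nonneg (by linarith) 3))
    linarith
  · intro j
    have hj : (0 : ℝ) ≤ j := j.cast_nonneg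
    have e1 := hmono j
    have e2 := h1 j
    obtain ⟨M, hM⟩ : ∃ M : ℝ, M = m₀ + 2 * j := ⟨_, rfl⟩
    have hB : M ≤ m₀ / 6 * (M - K) := by
      rw [hM]
      have : 0 ≤ (m₀ - 6) * (m₀ - K + 2 * j - 6 - 2 * j) := mul_nonneg (by linarith) (by linarith)
      nlinarith
    rw [← hM] at e1 e2 ⊢
    have hMK : K + 6 ≤ M := by rw [hM]; linarith
    have e4 : J j * M ≤ J j * (m₀ / 6 * (M - K)) := mul_le_mul_of_nonneg_left hB (hJ j)
    have e5 : J j * M ≤ m₀ / 6 * N j := by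
      have := mul_le_mul_of_nonneg_left e2 (show (0 : ℝ) ≤ m₀ / 6 by linarith)
      nlinarith
    have e6 : J j * M * M ^ 3 ≤ m₀ / 6 * N j * (M + K) ^ 3 := by
      have b1 := mul_le_mul_of_nonneg_right e5 (show (0 : ℝ) ≤ M ^ 3 from pow_nonneg (by linarith) 3)
      have b2 : 0 ≤ m₀ / 6 * N j := mul_nonneg (by linarith) (hN j)
      have b3 := mul_le_mul_of_nonneg_left
        (show M ^ 3 ≤ (M + K) ^ 3 from pow_le_pow_left₀ (by linarith) (by linarith) 3) b2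
      linarith
    have e7 := mul_le_mul_of_nonneg_left e1 (show (0 : ℝ) ≤ m₀ / 6 by linarith)
    calc J j * M ^ 4 = J j * M * M ^ 3 := by ring
      _ ≤ m₀ / 6 * N j * (M + K) ^ 3 := e6
      _ = m₀ / 6 * (N j * (M + K) ^ 3) := by ring
      _ ≤ m₀ / 6 * (N 0 * (m₀ + K) ^ 3) := e7
      _ ≤ _ := by linarith

/-- finite `T`: monotonicity -/
lemma fin_mono (m₀ K : ℝ) (P I w : ℕ → ℝ) (hK : 0 ≤ K) (hm : K + 6 ≤ m₀) (hI : ∀ j, 0 ≤ I j)
    (hw : ∀ j, 0 ≤ w j)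
    (h1 : ∀ j : ℕ, (m₀ + 2 * j - K) * I j ≤ P j) (h2 : ∀ j : ℕ, P j ≤ (m₀ + 2 * j + K) * I j)
    (h3 : ∀ j, P j - P (j + 1) = w j - I j - I (j + 1)) (j i : ℕ) (hij : j ≤ i) :
    I i ≤ (1 + 2 * K / 7) * I j := by
  have hmono : ∀ i : ℕ, j ≤ i → (P i + I i) / (m₀ + 2 * i + 1 - K) ≤
      (P j + I j) / (m₀ + 2 * j + 1 - K) := by
    intro i hi
    induction i, hi using Nat.le_induction with
    | base => exact le_rfl
    | succ i hi ih =>
      refine le_trans ?_ ih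
      have e1 := h1 (i + 1)
      have e3 := h3 i
      have hj : (0 : ℝ) ≤ i := i.cast_nonneg
      push_cast at e1 ⊢
      obtain ⟨x, hx⟩ : ∃ x : ℝ, x = m₀ + 2 * i + 1 - K := ⟨_, rfl⟩
      have hx7 : 7 ≤ x := by rw [hx]; linarith
      have ee : m₀ + 2 * ((i : ℝ) + 1) + 1 - K = x + 2 := by rw [hx]; ring
      have ee' : m₀ + 2 * ((i : ℝ) + 1) - K = x + 1 := by rw [hx]; ring
      rw [ee, ← hx, div_le_div_iff₀ (by linarith) (by linarith)]
      rw [ee'] at e1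
      have e4 : P (i + 1) = P i - w i + I i + I (i + 1) := by linarith
      have e5 := hw i
      have e6 : (x + 2) * I (i + 1) ≤ P (i + 1) + I (i + 1) := by linarith
      have e7 := mul_nonneg (show (0 : ℝ) ≤ x + 2 by linarith) e5
      have e8 : (P (i + 1) + I (i + 1)) * (x + 2) = (P i + I i) * (x + 2) - (x + 2) * w i +
          2 * ((x + 2) * I (i + 1)) := by rw [e4]; ring
      nlinarith
  have hi := hmono i hij
  have hij' : (0 : ℝ) ≤ i := i.cast_nonneg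
  have hj' : (0 : ℝ) ≤ j := j.cast_nonneg
  have a1 : I i ≤ (P i + I i) / (m₀ + 2 * i + 1 - K) := by
    rw [le_div_iff₀ (by linarith)]
    have := h1 i
    nlinarith
  have a2 : (P j + I j) / (m₀ + 2 * j + 1 - K) ≤ (1 + 2 * K / 7) * I j := by
    rw [div_le_iff₀ (by linarith)]
    have b1 := h2 j
    have b2 : m₀ + 2 * j + 1 + K ≤ (1 + 2 * K / 7) * (m₀ + 2 * j + 1 - K) := by
      have : 0 ≤ K * (m₀ + 2 * j + 1 - K - 7) := mul_nonneg hK (by linarith)
      nlinarith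
    have b3 := mul_le_mul_of_nonneg_right b2 (hI j)
    nlinarith
  exact a1.trans (hi.trans a2)

/-- the integrals `∫ c s^(-δ) u` -/
noncomputable def Jd (u : ℝ → ℝ) (δ : ℕ) : ℝ :=
  ∫ t in Set.Ioi 0, Real.cosh (2 * t) / Real.sinh (2 * t) ^ δ * u t

/-- the integrals `∫ (m c - k) s^(-δ) u` -/
noncomputable def Nd (m k : ℝ) (u : ℝ → ℝ) (δ : ℕ) : ℝ :=
  ∫ t in Set.Ioi 0, (m * Real.cosh (2 * t) - k) / Real.sinh (2 * t) ^ δ * u t

/-- the integrals `∫_0^T c u` -/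
noncomputable def It (u : ℝ → ℝ) (T : ℝ) : ℝ := ∫ t in (0 : ℝ)..T, Real.cosh (2 * t) * u t

/-- the integrals `∫_0^T (m c - k) u` -/
noncomputable def Pt (m k : ℝ) (u : ℝ → ℝ) (T : ℝ) : ℝ :=
  ∫ t in (0 : ℝ)..T, (m * Real.cosh (2 * t) - k) * u t

lemma sinh_pos' {t : ℝ} (ht : 0 < t) : 0 < Real.sinh (2 * t) := Real.sinh_pos_iff.2 (by linarith)

lemma Jd_nonneg (u : ℝ → ℝ) (hu : ∀ t, 0 ≤ u t) (δ : ℕ) : 0 ≤ Jd u δ := by
  refine setIntegral_nonneg measurableSet_Ioi fun t ht => ?_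
  have h1 := sinh_pos' ht
  have h2 := Real.cosh_pos (2 * t)
  have h3 := hu t
  positivity

lemma N_bds (m k : ℝ) (u : ℝ → ℝ) (hu : ∀ t, 0 ≤ u t) (δ : ℕ)
    (h1 : IntegrableOn (fun t => Real.cosh (2 * t) / Real.sinh (2 * t) ^ δ * u t) (Set.Ioi 0))
    (h2 : IntegrableOn (fun t => 1 / Real.sinh (2 * t) ^ δ * u t) (Set.Ioi 0)) :
    (m - |k|) * Jd u δ ≤ Nd m k u δ ∧ Nd m k u δ ≤ (m + |k|) * Jd u δ := by
  have e1 : Nd m k u δ = m * Jd u δ - k * ∫ t in Set.Ioi 0, 1 / Real.sinh (2 * t) ^ δ * u t := by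
    rw [Nd, Jd, ← integral_const_mul, ← integral_const_mul,
      ← integral_sub (h1.const_mul m) (h2.const_mul k)]
    congr 1; ext t; ring
  have e2 : 0 ≤ ∫ t in Set.Ioi 0, 1 / Real.sinh (2 * t) ^ δ * u t := by
    refine setIntegral_nonneg measurableSet_Ioi fun t ht => ?_
    have h1 := sinh_pos' ht
    have h3 := hu t
    positivity
  have e3 : (∫ t in Set.Ioi 0, 1 / Real.sinh (2 * t) ^ δ * u t) ≤ Jd u δ := by
    refine setIntegral_mono_on h2 h1 measurableSet_Ioi fun t ht => ?_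
    have h1 := sinh_pos' ht
    have h2 := Real.one_le_cosh (2 * t)
    exact mul_le_mul_of_nonneg_right (by gcongr) (hu t)
  have e4 : |k * ∫ t in Set.Ioi 0, 1 / Real.sinh (2 * t) ^ δ * u t| ≤ |k| * Jd u δ := by
    rw [abs_mul, abs_of_nonneg e2]
    exact mul_le_mul_of_nonneg_left e3 (abs_nonneg k)
  have e5 := abs_le.1 e4
  rw [e1]
  constructor <;> nlinarith [e5.1, e5.2]

lemma P_bds (m k : ℝ) (u : ℝ → ℝ) (huc : Continuous u) (hu : ∀ t, 0 ≤ u t) (T : ℝ) (hT : 0 ≤ T) :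
    0 ≤ It u T ∧ (m - |k|) * It u T ≤ Pt m k u T ∧ Pt m k u T ≤ (m + |k|) * It u T := by
  have c1 : Continuous fun t => Real.cosh (2 * t) * u t := by fun_prop
  have e1 : Pt m k u T = m * It u T - k * ∫ t in (0 : ℝ)..T, u t := by
    rw [Pt, It, ← intervalIntegral.integral_const_mul, ← intervalIntegral.integral_const_mul,
      ← intervalIntegral.integral_sub ((c1.intervalIntegrable _ _).const_mul m)
        ((huc.intervalIntegrable _ _).const_mul k)]
    congr 1; ext t; ring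
  have e2 : 0 ≤ ∫ t in (0 : ℝ)..T, u t := intervalIntegral.integral_nonneg hT fun t _ => hu t
  have e3 : (∫ t in (0 : ℝ)..T, u t) ≤ It u T := by
    refine intervalIntegral.integral_mono hT (huc.intervalIntegrable _ _)
      (c1.intervalIntegrable _ _) fun t => ?_
    have := mul_le_mul_of_nonneg_right (Real.one_le_cosh (2 * t)) (hu t)
    simpa using this
  have e4 : |k * ∫ t in (0 : ℝ)..T, u t| ≤ |k| * It u T := by
    rw [abs_mul, abs_of_nonneg e2]
    exact mul_le_mul_of_nonneg_left e3 (abs_nonneg k)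
  have e5 := abs_le.1 e4
  rw [e1]
  exact ⟨e2.trans e3, by nlinarith [e5.1, e5.2], by nlinarith [e5.1, e5.2]⟩

/-- `N` is positive. -/
lemma N_pos (m k : ℝ) (u : ℝ → ℝ) (huc : Continuous u) (hu : ∀ t, 0 ≤ u t) (δ : ℕ) (hm : |k| < m)
    (h1 : IntegrableOn (fun t => Real.cosh (2 * t) / Real.sinh (2 * t) ^ δ * u t) (Set.Ioi 0))
    (h2 : IntegrableOn (fun t => 1 / Real.sinh (2 * t) ^ δ * u t) (Set.Ioi 0))
    (h0 : ∃ t, 0 < t ∧ u t ≠ 0) : 0 < Nd m k u δ := by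
  have hJ : 0 < Jd u δ := by
    rw [Jd, setIntegral_pos_iff_support_of_nonneg_ae _ h1]
    · have hopen : IsOpen (u ⁻¹' {0}ᶜ ∩ Set.Ioi 0) :=
        (isOpen_compl_singleton.preimage huc).inter isOpen_Ioi
      have hne : (u ⁻¹' {0}ᶜ ∩ Set.Ioi 0).Nonempty := by
        obtain ⟨t, ht, ht'⟩ := h0
        exact ⟨t, ht', ht⟩
      refine (hopen.measure_pos volume hne).trans_le (measure_mono ?_)
      rintro t ⟨ht, ht0⟩
      refine ⟨?_, ht0⟩
      have h1 := sinh_pos' ht0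
      have h2 := Real.cosh_pos (2 * t)
      have h3 : u t ≠ 0 := ht
      rw [Function.mem_support]
      positivity
    · refine (ae_restrict_iff' measurableSet_Ioi).2 (Eventually.of_forall fun t ht => ?_)
      have h1 := sinh_pos' ht
      have h2 := Real.cosh_pos (2 * t)
      have h3 := hu t
      show 0 ≤ _
      positivity
  exact (mul_pos (by linarith) hJ).trans_le (N_bds m k u hu δ h1 h2).1

/-- the integral of `c s^(-2)` over `(T, ∞)` -/
lemma int_tail (T : ℝ) (hT : 0 < T) :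
    IntegrableOn (fun t => Real.cosh (2 * t) / Real.sinh (2 * t) ^ 2) (Set.Ioi T) ∧
    ∫ t in Set.Ioi T, Real.cosh (2 * t) / Real.sinh (2 * t) ^ 2 = 1 / (2 * Real.sinh (2 * T)) := by
  have hd : ∀ t ∈ Set.Ici T, HasDerivAt (fun t => -(1 / 2) * (Real.sinh (2 * t))⁻¹)
      (Real.cosh (2 * t) / Real.sinh (2 * t) ^ 2) t := by
    intro t ht
    have h1 := (sinh_pos' (hT.trans_le ht)).ne'
    have h2 : HasDerivAt (fun t : ℝ => 2 * t) 2 t := by simpa using (hasDerivAt_id t).const_mul 2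
    have h3 := ((h2.sinh).inv h1).const_mul (-(1 / 2))
    refine h3.congr_deriv ?_
    field_simp
  have hpos : ∀ t ∈ Set.Ioi T, 0 ≤ Real.cosh (2 * t) / Real.sinh (2 * t) ^ 2 := by
    intro t ht
    have h2 := Real.cosh_pos (2 * t)
    positivity
  have hlim : Tendsto (fun t : ℝ => -(1 / 2) * (Real.sinh (2 * t))⁻¹) atTop (𝓝 0) := by
    have h1 : Tendsto (fun t : ℝ => Real.sinh (2 * t)) atTop atTop := by
      refine tendsto_atTop_mono' atTop ?_
        (tendsto_id.const_mul_atTop (show (0 : ℝ) < 2 by norm_num))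
      filter_upwards [eventually_ge_atTop 0] with t ht
      exact Real.self_le_sinh_iff.2 (by positivity)
    have h2 := (tendsto_inv_atTop_zero.comp h1).const_mul (-(1 / 2) : ℝ)
    simpa using h2
  refine ⟨integrableOn_Ioi_deriv_of_nonneg' hd hpos hlim, ?_⟩
  rw [integral_Ioi_of_hasDerivAt_of_nonneg' hd hpos hlim]
  have h1 := (sinh_pos' hT).ne'
  field_simp
  ring

lemma I_le_J (u : ℝ → ℝ) (huc : Continuous u) (hu : ∀ t, 0 ≤ u t) (T : ℝ) (hT : 0 ≤ T)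
    (h1 : IntegrableOn (fun t => Real.cosh (2 * t) / Real.sinh (2 * t) ^ 2 * u t) (Set.Ioi 0)) :
    It u T ≤ Real.sinh (2 * T) ^ 2 * Jd u 2 := by
  have c1 : Continuous fun t => Real.cosh (2 * t) * u t := by fun_prop
  have hsub : Set.Ioc 0 T ⊆ Set.Ioi (0 : ℝ) := Set.Ioc_subset_Ioi_self
  rw [It, intervalIntegral.integral_of_le hT, Jd, ← integral_const_mul]
  have e1 : (∫ t in Set.Ioc 0 T, Real.cosh (2 * t) * u t) ≤ ∫ t in Set.Ioc 0 T,
      Real.sinh (2 * T) ^ 2 * (Real.cosh (2 * t) / Real.sinh (2 * t) ^ 2 * u t) := by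
    refine setIntegral_mono_on (c1.integrableOn_Ioc)
      ((h1.mono_set hsub).const_mul _) measurableSet_Ioc fun t ht => ?_
    have h2 := sinh_pos' ht.1
    have h3 : Real.sinh (2 * t) ≤ Real.sinh (2 * T) := Real.sinh_le_sinh.2 (by linarith [ht.2])
    have h4 : Real.sinh (2 * t) ^ 2 ≤ Real.sinh (2 * T) ^ 2 := pow_le_pow_left₀ h2.le h3 2
    have h5 := hu t
    have h6 := Real.cosh_pos (2 * t)
    have h7 : 0 ≤ Real.cosh (2 * t) / Real.sinh (2 * t) ^ 2 * u t := by positivity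
    calc Real.cosh (2 * t) * u t =
        Real.sinh (2 * t) ^ 2 * (Real.cosh (2 * t) / Real.sinh (2 * t) ^ 2 * u t) := by
          field_simp
      _ ≤ _ := mul_le_mul_of_nonneg_right h4 h7
  refine e1.trans (setIntegral_mono_set (h1.const_mul _) ?_ hsub.eventuallyLE)
  refine (ae_restrict_iff' measurableSet_Ioi).2 (Eventually.of_forall fun t ht => ?_)
  have h2 := sinh_pos' ht
  have h5 := hu t
  have h6 := Real.cosh_pos (2 * t)
  show 0 ≤ _
  positivity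

lemma J3_split (u : ℝ → ℝ) (huc : Continuous u) (hu : ∀ t, 0 ≤ u t) (T : ℝ) (hT : 0 < T) (M : ℝ)
    (hM : 0 < M)
    (h3 : IntegrableOn (fun t => Real.cosh (2 * t) / Real.sinh (2 * t) ^ 3 * u t) (Set.Ioi 0))
    (h4 : IntegrableOn (fun t => Real.cosh (2 * t) / Real.sinh (2 * t) ^ 4 * u t) (Set.Ioi 0)) :
    Jd u 3 ≤ M * Jd u 4 + (M ^ 3)⁻¹ * It u T +
      ∫ t in Set.Ioi T, Real.cosh (2 * t) / Real.sinh (2 * t) ^ 3 * u t := by
  have c1 : Continuous fun t => Real.cosh (2 * t) * u t := by fun_prop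
  have hsub : Set.Ioc 0 T ⊆ Set.Ioi (0 : ℝ) := Set.Ioc_subset_Ioi_self
  have hsub' : Set.Ioi T ⊆ Set.Ioi (0 : ℝ) := Set.Ioi_subset_Ioi hT.le
  have e0 : Jd u 3 = (∫ t in Set.Ioc 0 T, Real.cosh (2 * t) / Real.sinh (2 * t) ^ 3 * u t) +
      ∫ t in Set.Ioi T, Real.cosh (2 * t) / Real.sinh (2 * t) ^ 3 * u t := by
    rw [Jd, ← Set.Ioc_union_Ioi_eq_Ioi hT.le]
    exact setIntegral_union (Set.Ioc_disjoint_Ioi le_rfl) measurableSet_Ioi (h3.mono_set hsub)
      (h3.mono_set hsub')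
  rw [e0]
  have e1 : (∫ t in Set.Ioc 0 T, Real.cosh (2 * t) / Real.sinh (2 * t) ^ 3 * u t) ≤
      ∫ t in Set.Ioc 0 T, (M * (Real.cosh (2 * t) / Real.sinh (2 * t) ^ 4 * u t) +
        (M ^ 3)⁻¹ * (Real.cosh (2 * t) * u t)) := by
    refine setIntegral_mono_on (h3.mono_set hsub)
      (((h4.mono_set hsub).const_mul _).add (c1.integrableOn_Ioc.const_mul _))
      measurableSet_Ioc fun t ht => ?_
    have h2 := sinh_pos' ht.1
    have h5 := hu t
    have h6 := Real.cosh_pos (2 * t)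
    have h7 : 0 ≤ Real.cosh (2 * t) * u t := by positivity
    have h8 : (Real.sinh (2 * t) ^ 3)⁻¹ ≤ M * (Real.sinh (2 * t) ^ 4)⁻¹ + (M ^ 3)⁻¹ := by
      rcases le_total (Real.sinh (2 * t)) M with h | h
      · have h9 : (Real.sinh (2 * t) ^ 3)⁻¹ ≤ M * (Real.sinh (2 * t) ^ 4)⁻¹ := by
          rw [show (Real.sinh (2 * t) ^ 3)⁻¹ = Real.sinh (2 * t) * (Real.sinh (2 * t) ^ 4)⁻¹ by
            field_simp]
          exact mul_le_mul_of_nonneg_right h (by positivity)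
        have : 0 ≤ (M ^ 3)⁻¹ := by positivity
        linarith
      · have h9 : (Real.sinh (2 * t) ^ 3)⁻¹ ≤ (M ^ 3)⁻¹ := by gcongr
        have : 0 ≤ M * (Real.sinh (2 * t) ^ 4)⁻¹ := by positivity
        linarith
    calc Real.cosh (2 * t) / Real.sinh (2 * t) ^ 3 * u t =
        Real.cosh (2 * t) * u t * (Real.sinh (2 * t) ^ 3)⁻¹ := by ring
      _ ≤ Real.cosh (2 * t) * u t * (M * (Real.sinh (2 * t) ^ 4)⁻¹ + (M ^ 3)⁻¹) :=
        mul_le_mul_of_nonneg_left h8 h7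
      _ = _ := by ring
  rw [integral_add ((h4.mono_set hsub).const_mul _) (c1.integrableOn_Ioc.const_mul _),
    integral_const_mul, integral_const_mul] at e1
  have e2 : (∫ t in Set.Ioc 0 T, Real.cosh (2 * t) / Real.sinh (2 * t) ^ 4 * u t) ≤ Jd u 4 := by
    refine setIntegral_mono_set h4 ?_ hsub.eventuallyLE
    refine (ae_restrict_iff' measurableSet_Ioi).2 (Eventually.of_forall fun t ht => ?_)
    have h2 := sinh_pos' ht
    have h5 := hu t
    have h6 := Real.cosh_pos (2 * t)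
    show 0 ≤ _
    positivity
  have e3 : It u T = ∫ t in Set.Ioc 0 T, Real.cosh (2 * t) * u t := by
    rw [It, intervalIntegral.integral_of_le hT.le]
  rw [e3]
  have e4 := mul_le_mul_of_nonneg_left e2 hM.le
  linarith

/-- the sum over a block -/
lemma block (m₀ K A S : ℝ) (P I w : ℕ → ℝ) (hK : 0 ≤ K) (hm : K + 6 ≤ m₀) (hI : ∀ j, 0 ≤ I j)
    (hw : ∀ j, 0 ≤ w j) (hS : 0 ≤ S) (hP : ∀ j, 0 ≤ P j)
    (h2 : ∀ j : ℕ, P j ≤ (m₀ + 2 * j + K) * I j)
    (h3 : ∀ j, P j - P (j + 1) = S * (w j + w (j + 1)) - I j - I (j + 1))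
    (hA : ∀ j : ℕ, I j * (m₀ + 2 * j) ^ 2 ≤ A) (j L : ℕ) (hL : (L : ℝ) ≤ (m₀ + 2 * j) / 2) :
    S * ∑ i ∈ Finset.range L, w (j + i) ≤ 4 * A / (m₀ + 2 * j) := by
  have hind : ∀ L : ℕ, S * (∑ i ∈ Finset.range L, w (j + i)) + P (j + L) ≤
      P j + 2 * (∑ i ∈ Finset.range (L + 1), I (j + i)) - I (j + L) := by
    intro L
    induction L with
    | zero => simp; linarith [hI j]
    | succ L ih =>
      rw [Finset.sum_range_succ, Finset.sum_range_succ _ (L + 1)]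
      have e1 := h3 (j + L)
      have e2 := mul_nonneg hS (hw (j + L + 1))
      rw [← add_assoc]
      nlinarith
  have e1 := hind L
  have hj : (0 : ℝ) ≤ j := j.cast_nonneg
  obtain ⟨m, hm'⟩ : ∃ m : ℝ, m = m₀ + 2 * j := ⟨_, rfl⟩
  have hm6 : K + 6 ≤ m := by rw [hm']; linarith
  have hmpos : 0 < m := by linarith
  rw [← hm'] at hL ⊢
  have e2 : ∀ i, I (j + i) ≤ A / m ^ 2 := by
    intro i
    rw [le_div_iff₀ (by positivity)]
    refine le_trans ?_ (hA (j + i))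
    refine mul_le_mul_of_nonneg_left (pow_le_pow_left₀ hmpos.le ?_ 2) (hI _)
    rw [hm']; push_cast
    have : (0 : ℝ) ≤ i := i.cast_nonneg
    linarith
  have e3 : (∑ i ∈ Finset.range (L + 1), I (j + i)) ≤ (L + 1) * (A / m ^ 2) := by
    refine (Finset.sum_le_sum fun i _ => e2 i).trans ?_
    rw [Finset.sum_const, Finset.card_range, nsmul_eq_mul]
    push_cast
    exact le_rfl
  have hA0 : 0 ≤ A / m ^ 2 := (hI (j + 0)).trans (e2 0)
  have e4 : ((L : ℝ) + 1) * (A / m ^ 2) ≤ m * (A / m ^ 2) :=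
    mul_le_mul_of_nonneg_right (by linarith) hA0
  have e5 : P j ≤ 2 * m * (A / m ^ 2) := by
    refine (h2 j).trans ?_
    rw [← hm']
    have := e2 0
    exact mul_le_mul (by linarith) this (hI j) (by linarith)
  have e6 : m * (A / m ^ 2) = A / m := by field_simp
  have e7 : 4 * A / m = 4 * (A / m) := by ring
  rw [e7, ← e6]
  have := hI (j + L)
  have := hP (j + L)
  linarith

end ModLOWR

open ModLOWR

/-- LOWR: the lower bound, real analysis. -/
theorem lowr (hA : StmLOWA) : StmLOWR := by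
  intro m₀ k u hm huc hu01 hu4 hder hne
  have hu : ∀ j t, 0 ≤ u j t := fun j t => (hu01 j t).1
  have hK : 0 ≤ |k| := abs_nonneg k
  have hAj : ∀ j : ℕ, _ := fun j => hA (m₀ + 2 * j) k (u j) (u (j + 1)) (huc j) (huc (j + 1))
    (hu01 j) (hu01 (j + 1)) (by
      obtain ⟨C1, h1⟩ := hu4 j
      obtain ⟨C2, h2⟩ := hu4 (j + 1)
      refine ⟨max C1 C2, fun t h0 h1' => ⟨(h1 t h0 h1').trans ?_, (h2 t h0 h1').trans ?_⟩⟩
      · exact mul_le_mul_of_nonneg_right (le_max_left _ _) (by positivity)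
      · exact mul_le_mul_of_nonneg_right (le_max_right _ _) (by positivity)) (hder j)
  have hint1 : ∀ δ : ℕ, 2 ≤ δ → δ ≤ 4 → ∀ j,
      IntegrableOn (fun t => Real.cosh (2 * t) / Real.sinh (2 * t) ^ δ * u j t) (Set.Ioi 0) :=
    fun δ h2 h4 j => ((hAj j).1 δ h2 h4).1
  have hint2 : ∀ δ : ℕ, 2 ≤ δ → δ ≤ 4 → ∀ j,
      IntegrableOn (fun t => 1 / Real.sinh (2 * t) ^ δ * u j t) (Set.Ioi 0) :=
    fun δ h2 h4 j => ((hAj j).1 δ h2 h4).2.1
  have hJ0 : ∀ δ j, 0 ≤ Jd (u j) δ := fun δ j => Jd_nonneg (u j) (hu j) δ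
  have hN : ∀ δ : ℕ, 2 ≤ δ → δ ≤ 4 → ∀ j : ℕ, Nd (m₀ + 2 * j) k (u j) δ -
      Nd (m₀ + 2 * ((j + 1 : ℕ) : ℝ)) k (u (j + 1)) δ =
        ((δ : ℝ) - 1) * (Jd (u j) δ + Jd (u (j + 1)) δ) := by
    intro δ h2 h4 j
    have := ((hAj j).1 δ h2 h4).2.2.2.2
    rw [show m₀ + 2 * ((j + 1 : ℕ) : ℝ) = m₀ + 2 * j + 2 by push_cast; ring]
    exact this
  have hb1 : ∀ δ : ℕ, 2 ≤ δ → δ ≤ 4 → ∀ j : ℕ, (m₀ + 2 * j - |k|) * Jd (u j) δ ≤
      Nd (m₀ + 2 * j) k (u j) δ := fun δ h2 h4 j =>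
    (N_bds _ k (u j) (hu j) δ (hint1 δ h2 h4 j) (hint2 δ h2 h4 j)).1
  have hb2 : ∀ δ : ℕ, 2 ≤ δ → δ ≤ 4 → ∀ j : ℕ, Nd (m₀ + 2 * j) k (u j) δ ≤
      (m₀ + 2 * j + |k|) * Jd (u j) δ := fun δ h2 h4 j =>
    (N_bds _ k (u j) (hu j) δ (hint1 δ h2 h4 j) (hint2 δ h2 h4 j)).2
  obtain ⟨c3, hc3, hc3'⟩ := seq_lower m₀ |k| (fun j => Nd (m₀ + 2 * j) k (u j) 3)
    (fun j => Jd (u j) 3) hK hm (hJ0 3) (hb1 3 (by norm_num) (by norm_num))
    (hb2 3 (by norm_num) (by norm_num)) (fun j => by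
      have := hN 3 (by norm_num) (by norm_num) j
      simp only [this]; norm_num) (by
      simp only [Nat.cast_zero, mul_zero, add_zero]
      exact N_pos m₀ k (u 0) (huc 0) (hu 0) 3 (by linarith) (hint1 3 (by norm_num) (by norm_num) 0)
        (hint2 3 (by norm_num) (by norm_num) 0) hne)
  obtain ⟨C2, hC2, hC2'⟩ := seq_upper2 m₀ |k| (fun j => Nd (m₀ + 2 * j) k (u j) 2)
    (fun j => Jd (u j) 2) hK hm (hJ0 2) (hb1 2 (by norm_num) (by norm_num))
    (hb2 2 (by norm_num) (by norm_num)) (fun j => by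
      have := hN 2 (by norm_num) (by norm_num) j
      simp only [this]; norm_num)
  obtain ⟨C4, hC4, hC4'⟩ := seq_upper4 m₀ |k| (fun j => Nd (m₀ + 2 * j) k (u j) 4)
    (fun j => Jd (u j) 4) hK hm (hJ0 4) (hb1 4 (by norm_num) (by norm_num))
    (hb2 4 (by norm_num) (by norm_num)) (fun j => by
      have := hN 4 (by norm_num) (by norm_num) j
      simp only [this]; norm_num)
  -- finite `T`
  have hPb : ∀ (j : ℕ) (T : ℝ), 0 ≤ T → _ := fun j T hT =>
    P_bds (m₀ + 2 * j) k (u j) (huc j) (hu j) T hT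
  have hPrel : ∀ (T : ℝ), 0 ≤ T → ∀ j : ℕ, Pt (m₀ + 2 * j) k (u j) T -
      Pt (m₀ + 2 * ((j + 1 : ℕ) : ℝ)) k (u (j + 1)) T =
        Real.sinh (2 * T) / 2 * (u j T + u (j + 1) T) - It (u j) T - It (u (j + 1)) T := by
    intro T hT j
    have := (hAj j).2 T hT
    rw [show m₀ + 2 * ((j + 1 : ℕ) : ℝ) = m₀ + 2 * j + 2 by push_cast; ring]
    exact this
  have hsnn : ∀ T : ℝ, 0 ≤ T → 0 ≤ Real.sinh (2 * T) := fun T hT =>
    Real.sinh_nonneg_iff.2 (by linarith)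
  have hfin : ∀ (T : ℝ), 0 ≤ T → ∀ j i : ℕ, j ≤ i →
      It (u i) T ≤ (1 + 2 * |k| / 7) * It (u j) T := by
    intro T hT j i hij
    refine fin_mono m₀ |k| (fun j => Pt (m₀ + 2 * j) k (u j) T) (fun j => It (u j) T)
      (fun j => Real.sinh (2 * T) / 2 * (u j T + u (j + 1) T)) hK hm (fun j => (hPb j T hT).1)
      (fun j => mul_nonneg (by linarith [hsnn T hT]) (add_nonneg (hu _ _) (hu _ _)))
      (fun j => (hPb j T hT).2.1) (fun j => (hPb j T hT).2.2) (fun j => ?_) j i hij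
    exact hPrel T hT j
  have hblock : ∀ (T : ℝ), 0 < T → ∀ j L : ℕ, (L : ℝ) ≤ (m₀ + 2 * j) / 2 →
      ∑ i ∈ Finset.range L, u (j + i) T ≤ 8 * C2 / (m₀ + 2 * j) * Real.sinh (2 * T) := by
    intro T hT j L hL
    have hs := sinh_pos' hT
    have hb := block m₀ |k| (Real.sinh (2 * T) ^ 2 * C2) (Real.sinh (2 * T) / 2)
      (fun j => Pt (m₀ + 2 * j) k (u j) T) (fun j => It (u j) T) (fun j => u j T) hK hm
      (fun j => (hPb j T hT.le).1) (fun j => hu j T) (by positivity)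
      (fun j => (mul_nonneg (by
        have : (0 : ℝ) ≤ j := j.cast_nonneg
        linarith) (hPb j T hT.le).1).trans (hPb j T hT.le).2.1)
      (fun j => (hPb j T hT.le).2.2) (fun j => hPrel T hT.le j) (fun j => by
        have e1 := I_le_J (u j) (huc j) (hu j) T hT.le (hint1 2 (by norm_num) (by norm_num) j)
        have e2 := hC2' j
        have e3 := mul_le_mul_of_nonneg_right e1 (sq_nonneg (m₀ + 2 * (j : ℝ)))
        have e4 := mul_le_mul_of_nonneg_left e2 (sq_nonneg (Real.sinh (2 * T)))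
        calc It (u j) T * (m₀ + 2 * j) ^ 2 ≤ Real.sinh (2 * T) ^ 2 * Jd (u j) 2 *
              (m₀ + 2 * j) ^ 2 := e3
          _ = Real.sinh (2 * T) ^ 2 * (Jd (u j) 2 * (m₀ + 2 * j) ^ 2) := by ring
          _ ≤ _ := e4) j L hL
    have hj : (0 : ℝ) ≤ j := j.cast_nonneg
    have hmpos : 0 < m₀ + 2 * (j : ℝ) := by linarith
    have e1 : 4 * (Real.sinh (2 * T) ^ 2 * C2) / (m₀ + 2 * j) =
        Real.sinh (2 * T) / 2 * (8 * C2 / (m₀ + 2 * j) * Real.sinh (2 * T)) := by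
      field_simp; ring
    rw [e1] at hb
    exact le_of_mul_le_mul_left hb (by positivity)
  -- the constants
  obtain ⟨c5, hc5⟩ : ∃ c5 : ℝ, c5 = c3 / 24 := ⟨_, rfl⟩
  have hc5pos : 0 < c5 := by rw [hc5]; positivity
  obtain ⟨ρ, hρ⟩ : ∃ ρ : ℝ, ρ = c5 / (2 * C4) := ⟨_, rfl⟩
  have hρpos : 0 < ρ := by rw [hρ]; positivity
  obtain ⟨R, hR⟩ : ∃ R : ℝ, R = 16 * C2 / c5 := ⟨_, rfl⟩
  have hRpos : 0 < R := by rw [hR]; positivity
  obtain ⟨B, hB⟩ : ∃ B : ℝ, B = 1 + 2 * |k| / 7 := ⟨_, rfl⟩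
  have hBpos : 0 < B := by rw [hB]; positivity
  refine ⟨c5 * ρ ^ 3 / B, R, by positivity, hRpos, ?_⟩
  intro j T hT0 hTR
  have hj : (0 : ℝ) ≤ j := j.cast_nonneg
  obtain ⟨m, hm'⟩ : ∃ m : ℝ, m = m₀ + 2 * j := ⟨_, rfl⟩
  have hm6 : |k| + 6 ≤ m := by rw [hm']; linarith
  have hmpos : 0 < m := by linarith
  -- the point `T₁`
  obtain ⟨T1, hT1⟩ : ∃ T1 : ℝ, Real.sinh (2 * T1) = R * m := by
    obtain ⟨x, hx⟩ := Real.sinh_surjective (R * m)
    exact ⟨x / 2, by rw [← hx]; congr 1; ring⟩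
  have hT1pos : 0 < T1 := by
    have : 0 < Real.sinh (2 * T1) := by rw [hT1]; positivity
    have := Real.sinh_pos_iff.1 this
    linarith
  have hT1T : T1 ≤ T := by
    rw [← hm', ← hT1] at hTR
    have := Real.sinh_le_sinh.1 hTR
    linarith
  have hgoal : c5 * ρ ^ 3 / B ≤ It (u j) T1 := by
    -- the block
    obtain ⟨L, hL⟩ : ∃ L : ℕ, L = ⌊m / 2⌋₊ := ⟨_, rfl⟩
    have hL1 : (L : ℝ) ≤ m / 2 := by rw [hL]; exact Nat.floor_le (by positivity)
    have hL2 : m / 3 ≤ L := by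
      have := Nat.lt_floor_add_one (m / 2)
      rw [← hL] at this
      linarith
    have hL1' : (L : ℝ) ≤ (m₀ + 2 * j) / 2 := by rw [← hm']; exact hL1
    have hmi : ∀ i : ℕ, m₀ + 2 * ((j + i : ℕ) : ℝ) = m + 2 * i := by
      intro i; rw [hm']; push_cast; ring
    -- lower bound
    have s1 : (L : ℝ) * (c3 / (8 * m ^ 3)) ≤ ∑ i ∈ Finset.range L, Jd (u (j + i)) 3 := by
      have : ∀ i ∈ Finset.range L, c3 / (8 * m ^ 3) ≤ Jd (u (j + i)) 3 := by
        intro i hi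
        have hiL : ((i : ℝ)) + 1 ≤ L := by exact_mod_cast Finset.mem_range.1 hi
        have hi0 : (0 : ℝ) ≤ i := i.cast_nonneg
        rw [div_le_iff₀ (by positivity)]
        refine (hc3' (j + i)).trans ?_
        rw [hmi]
        refine mul_le_mul_of_nonneg_left ?_ (hJ0 3 _)
        calc (m + 2 * i) ^ 3 ≤ (2 * m) ^ 3 := pow_le_pow_left₀ (by positivity) (by linarith) 3
          _ = 8 * m ^ 3 := by ring
      have h := Finset.sum_le_sum this
      rwa [Finset.sum_const, Finset.card_range, nsmul_eq_mul] at h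
    -- upper bound for the small `t`
    have s2 : ∑ i ∈ Finset.range L, Jd (u (j + i)) 4 ≤ (L : ℝ) * (C4 / m ^ 4) := by
      have : ∀ i ∈ Finset.range L, Jd (u (j + i)) 4 ≤ C4 / m ^ 4 := by
        intro i _
        have hi0 : (0 : ℝ) ≤ i := i.cast_nonneg
        rw [le_div_iff₀ (by positivity)]
        refine le_trans ?_ (hC4' (j + i))
        rw [hmi]
        exact mul_le_mul_of_nonneg_left (pow_le_pow_left₀ (by positivity) (by linarith) 4)
          (hJ0 4 _)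
      have h := Finset.sum_le_sum this
      rwa [Finset.sum_const, Finset.card_range, nsmul_eq_mul] at h
    have s3 : ∑ i ∈ Finset.range L, It (u (j + i)) T1 ≤ (L : ℝ) * (B * It (u j) T1) := by
      have : ∀ i ∈ Finset.range L, It (u (j + i)) T1 ≤ B * It (u j) T1 := by
        intro i _
        rw [hB]
        exact hfin T1 hT1pos.le j (j + i) (Nat.le_add_right j i)
      have h := Finset.sum_le_sum this
      rwa [Finset.sum_const, Finset.card_range, nsmul_eq_mul] at h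
    have hsub' : Set.Ioi T1 ⊆ Set.Ioi (0 : ℝ) := Set.Ioi_subset_Ioi hT1pos.le
    have s4 : ∑ i ∈ Finset.range L, (∫ t in Set.Ioi T1,
        Real.cosh (2 * t) / Real.sinh (2 * t) ^ 3 * u (j + i) t) ≤
        8 * C2 / m * (1 / (2 * (R * m))) := by
      obtain ⟨i1, i2⟩ := int_tail T1 hT1pos
      rw [← hT1, ← i2, ← integral_const_mul, ← integral_finsetSum _ (fun i _ =>
        (hint1 3 (by norm_num) (by norm_num) (j + i)).mono_set hsub')]
      refine setIntegral_mono_on (integrable_finsetSum _ fun i _ =>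
        (hint1 3 (by norm_num) (by norm_num) (j + i)).mono_set hsub') (i1.const_mul _)
        measurableSet_Ioi fun t ht => ?_
      have ht0 : 0 < t := hT1pos.trans ht
      have h1 := sinh_pos' ht0
      have h2 := Real.cosh_pos (2 * t)
      rw [← Finset.mul_sum]
      have h3 := hblock t ht0 j L hL1'
      rw [← hm'] at h3
      calc Real.cosh (2 * t) / Real.sinh (2 * t) ^ 3 * ∑ i ∈ Finset.range L, u (j + i) t ≤
          Real.cosh (2 * t) / Real.sinh (2 * t) ^ 3 * (8 * C2 / m * Real.sinh (2 * t)) :=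
            mul_le_mul_of_nonneg_left h3 (by positivity)
        _ = _ := by field_simp
    have s5 : ∑ i ∈ Finset.range L, Jd (u (j + i)) 3 ≤ ρ * m * ∑ i ∈ Finset.range L,
        Jd (u (j + i)) 4 + ((ρ * m) ^ 3)⁻¹ * ∑ i ∈ Finset.range L, It (u (j + i)) T1 +
        ∑ i ∈ Finset.range L, (∫ t in Set.Ioi T1,
          Real.cosh (2 * t) / Real.sinh (2 * t) ^ 3 * u (j + i) t) := by
      rw [Finset.mul_sum, Finset.mul_sum, ← Finset.sum_add_distrib, ← Finset.sum_add_distrib]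
      exact Finset.sum_le_sum fun i _ => J3_split (u (j + i)) (huc _) (hu _) T1 hT1pos (ρ * m)
        (by positivity) (hint1 3 (by norm_num) (by norm_num) _)
        (hint1 4 (by norm_num) (by norm_num) _)
    have hX : 0 ≤ It (u j) T1 := (hPb j T1 hT1pos.le).1
    obtain ⟨X, hXdef⟩ : ∃ X : ℝ, X = It (u j) T1 := ⟨_, rfl⟩
    rw [← hXdef] at hX s3 ⊢
    have t1 : c5 / m ^ 2 ≤ (L : ℝ) * (c3 / (8 * m ^ 3)) := by
      calc c5 / m ^ 2 = m / 3 * (c3 / (8 * m ^ 3)) := by rw [hc5]; field_simp; ring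
        _ ≤ _ := mul_le_mul_of_nonneg_right hL2 (by positivity)
    have t2 : ρ * m * ∑ i ∈ Finset.range L, Jd (u (j + i)) 4 ≤ c5 / 4 / m ^ 2 := by
      calc ρ * m * ∑ i ∈ Finset.range L, Jd (u (j + i)) 4 ≤ ρ * m * ((L : ℝ) * (C4 / m ^ 4)) :=
            mul_le_mul_of_nonneg_left s2 (by positivity)
        _ ≤ ρ * m * (m / 2 * (C4 / m ^ 4)) :=
            mul_le_mul_of_nonneg_left (mul_le_mul_of_nonneg_right hL1 (by positivity))
              (by positivity)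
        _ = c5 / 4 / m ^ 2 := by rw [hρ]; field_simp; ring
    have t3 : ((ρ * m) ^ 3)⁻¹ * ∑ i ∈ Finset.range L, It (u (j + i)) T1 ≤
        B * X / (2 * ρ ^ 3) / m ^ 2 := by
      calc ((ρ * m) ^ 3)⁻¹ * ∑ i ∈ Finset.range L, It (u (j + i)) T1 ≤
            ((ρ * m) ^ 3)⁻¹ * ((L : ℝ) * (B * X)) :=
            mul_le_mul_of_nonneg_left s3 (by positivity)
        _ ≤ ((ρ * m) ^ 3)⁻¹ * (m / 2 * (B * X)) :=
            mul_le_mul_of_nonneg_left (mul_le_mul_of_nonneg_right hL1 (by positivity))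
              (by positivity)
        _ = _ := by field_simp
    have t4 : 8 * C2 / m * (1 / (2 * (R * m))) = c5 / 4 / m ^ 2 := by
      rw [hR]; field_simp; ring
    have t5 : c5 / m ^ 2 ≤ c5 / 4 / m ^ 2 + B * X / (2 * ρ ^ 3) / m ^ 2 + c5 / 4 / m ^ 2 := by
      rw [t4] at s4
      linarith
    have t6 : c5 / m ^ 2 ≤ (c5 / 4 + B * X / (2 * ρ ^ 3) + c5 / 4) / m ^ 2 := by
      rw [add_div, add_div]; exact t5
    have t7 : c5 ≤ c5 / 4 + B * X / (2 * ρ ^ 3) + c5 / 4 :=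
      (div_le_div_iff_of_pos_right (by positivity)).1 t6
    have t8 : c5 / 2 ≤ B * X / (2 * ρ ^ 3) := by linarith
    rw [le_div_iff₀ (by positivity)] at t8
    rw [div_le_iff₀ hBpos]
    nlinarith
  refine hgoal.trans ?_
  have c1 : Continuous fun t => Real.cosh (2 * t) * u j t := by
    have := huc j
    fun_prop
  have hsplit : (∫ t in (0 : ℝ)..T, Real.cosh (2 * t) * u j t) =
      It (u j) T1 + ∫ t in T1..T, Real.cosh (2 * t) * u j t := by
    rw [It, intervalIntegral.integral_add_adjacent_intervals (c1.intervalIntegrable _ _)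
      (c1.intervalIntegrable _ _)]
  have hnn : 0 ≤ ∫ t in T1..T, Real.cosh (2 * t) * u j t :=
    intervalIntegral.integral_nonneg hT1T fun t _ =>
      mul_nonneg (Real.cosh_pos _).le (hu j t)
  rw [hsplit]
  linarith

end Pool.Agent.T6.H28.SN
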