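import Pool.Agent.T6.H28.SN.Stm

/-!
# MAX: the maximal norm
-/

set_option autoImplicit false

open scoped InnerProductSpace ComplexConjugate Topology
open Filter

namespace Pool.Agent.T6.H28.SN

namespace ModMAX

theorem pi_e_mem (D : Rep) (g : G) (m : ℤ) : D.π g (D.e m) ∈ D.E :=
  Submodule.subset_span ⟨g, m, rfl⟩

theorem e_mem (D : Rep) (m : ℤ) : D.e m ∈ D.E := by
  have h := pi_e_mem D 1 m
  rw [map_one] at h
  exact h

theorem pi_mem (D : Rep) (g : G) {x : D.H} (hx : x ∈ D.E) : D.π g x ∈ D.E := by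
  unfold Rep.E at hx
  induction hx using Submodule.span_induction with
  | mem z hz =>
    obtain ⟨h, m, rfl⟩ := hz
    have h1 : D.π g (D.π h (D.e m)) = D.π (g * h) (D.e m) := by
      rw [map_mul]
      rfl
    rw [h1]
    exact pi_e_mem D _ m
  | zero =>
    rw [map_zero]
    exact D.E.zero_mem
  | add a b _ _ ha hb =>
    rw [map_add]
    exact D.E.add_mem ha hb
  | smul c a _ ha =>
    rw [map_smul]
    exact D.E.smul_mem c ha

theorem dAct_mem (D : Rep) (e' : ℤ → D.H) (h : ∀ j, e' j ∈ D.E) (X : Matrix (Fin 2) (Fin 2) ℝ)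
    (m : ℤ) : dAct D.a e' X m ∈ D.E := by
  unfold dAct
  refine D.E.add_mem (D.E.add_mem (D.E.smul_mem _ (D.E.sub_mem (D.E.smul_mem _ (h _))
    (D.E.smul_mem _ (h _)))) (D.E.smul_mem _ (D.E.smul_mem _ (D.E.add_mem (D.E.smul_mem _ (h _))
    (D.E.smul_mem _ (h _)))))) (D.E.smul_mem _ (D.E.smul_mem _ (h _)))

theorem vec_mem (D : Rep) (A : Finset ℤ) (c : ℤ → ℂ) : D.vec A c ∈ D.E :=
  D.E.sum_mem fun m _ => D.E.smul_mem _ (e_mem D m)

theorem e_ne (D : Rep) {m : ℤ} (hm : m ∈ D.S) : D.e m ≠ 0 := by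
  intro h
  have h1 := D.orth m hm m hm
  rw [h, inner_zero_left, if_pos rfl] at h1
  exact zero_ne_one h1

theorem w_bdd (D : Rep) (w x : D.H) : BddAbove (Set.range fun g : G => ‖⟪w, D.π g x⟫_ℂ‖) := by
  refine ⟨‖w‖ * ‖x‖, ?_⟩
  rintro _ ⟨g, rfl⟩
  have h := norm_inner_le_norm (𝕜 := ℂ) w (D.π g x)
  rwa [LinearIsometryEquiv.norm_map] at h

theorem inner_le (D : Rep) (w x : D.H) : ‖⟪w, x⟫_ℂ‖ ≤ ⨆ g : G, ‖⟪w, D.π g x⟫_ℂ‖ := by
  have h := le_ciSup (w_bdd D w x) 1
  have h1 : D.π 1 x = x := by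
    rw [map_one]
    rfl
  simp only [h1] at h
  exact h

theorem pw_one (s : ℤ → ℂ) :
    (fun m : ℤ => (((1 + (m : ℝ) ^ 2) ^ ((0 : ℝ) / 2) : ℝ) : ℂ) * s m) = s := by
  funext m
  rw [zero_div, Real.rpow_zero, Complex.ofReal_one, one_mul]

end ModMAX

open ModMAX in
theorem max' (hSUPN : StmSUPN) (hHIL : StmHIL) : StmMAX := by
  intro D k hk
  obtain ⟨hP, hle⟩ := hSUPN D k hk
  refine ⟨⟨hP, fun q hq => ?_⟩, fun pm hpm => ?_⟩
  · obtain ⟨C1, hC1⟩ := hq.bdd
    have hq0 : q 0 = 0 := by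
      have h1 := hq.smul 0 0 D.E.zero_mem
      rwa [smul_zero, norm_zero, zero_mul] at h1
    have hqn : ∀ x ∈ D.E, 0 ≤ q x := by
      intro x hx
      by_cases h : x = 0
      · rw [h, hq0]
      · exact (hq.pos x hx h).le
    set C0 : ℝ := max C1 1 with hC0
    have hC : ∀ g, ∀ x ∈ D.E, q (D.π g x) ≤ C0 * q x := fun g x hx =>
      (hC1 g x hx).trans (mul_le_mul_of_nonneg_right (le_max_left _ _) (hqn x hx))
    have hC0p : 0 < C0 := lt_of_lt_of_le zero_lt_one (le_max_right _ _)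
    set q' : D.H → ℝ := fun x => ⨆ g : G, q (D.π g x) with hq'
    have hbdd : ∀ x ∈ D.E, BddAbove (Set.range fun g : G => q (D.π g x)) := by
      intro x hx
      refine ⟨C0 * q x, ?_⟩
      rintro _ ⟨g, rfl⟩
      exact hC g x hx
    have hle1 : ∀ x ∈ D.E, q x ≤ q' x := by
      intro x hx
      have h := le_ciSup (hbdd x hx) 1
      have h1 : D.π 1 x = x := by
        rw [map_one]
        rfl
      simp only [h1] at h
      exact h
    have hle2 : ∀ x ∈ D.E, q' x ≤ C0 * q x := fun x hx => ciSup_le fun g => hC g x hx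
    have hnn : ∀ x ∈ D.E, 0 ≤ q' x := fun x hx => (hqn x hx).trans (hle1 x hx)
    set r : ℝ := q' (D.e k) with hr
    have hr0 : 0 < r := lt_of_lt_of_le (hq.pos _ (e_mem D k) (e_ne D hk)) (hle1 _ (e_mem D k))
    have htend : ∀ {ι : Type} {l : Filter ι} {f : ι → D.H}, (∀ i, f i ∈ D.E) →
        Tendsto (fun i => q (f i)) l (𝓝 0) → Tendsto (fun i => q' (f i) / r) l (𝓝 0) := by
      intro ι l f hf h
      have h1 : Tendsto (fun i => C0 * q (f i) / r) l (𝓝 0) := by
        have h2 := (h.const_mul C0).div_const r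
        rwa [mul_zero, zero_div] at h2
      exact squeeze_zero (fun i => div_nonneg (hnn _ (hf i)) hr0.le)
        (fun i => div_le_div_of_nonneg_right (hle2 _ (hf i)) hr0.le) h1
    have hF : Fam D k (fun x => q' x / r) := by
      refine ⟨⟨fun x hx => div_nonneg (hnn x hx) hr0.le, fun x hx y hy => ?_, fun c x hx => ?_,
        fun g x hx => ?_, fun γ X h m => ?_, fun x hx m => ?_⟩, ?_⟩
      · rw [← add_div]
        refine div_le_div_of_nonneg_right ?_ hr0.le
        refine ciSup_le fun g => ?_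
        rw [map_add]
        exact (hq.add _ (pi_mem D g hx) _ (pi_mem D g hy)).trans
          (add_le_add (le_ciSup (hbdd x hx) g) (le_ciSup (hbdd y hy) g))
      · have h1 : q' (c • x) = ‖c‖ * q' x := by
          show (⨆ g : G, q (D.π g (c • x))) = ‖c‖ * ⨆ g : G, q (D.π g x)
          rw [Real.mul_iSup_of_nonneg (norm_nonneg c)]
          refine iSup_congr fun g => ?_
          rw [map_smul, hq.smul c _ (pi_mem D g hx)]
        show q' (c • x) / r = ‖c‖ * (q' x / r)
        rw [h1, mul_div_assoc]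
      · rw [one_mul]
        refine div_le_div_of_nonneg_right ?_ hr0.le
        refine ciSup_le fun h => ?_
        have h1 : D.π h (D.π g x) = D.π (h * g) x := by
          rw [map_mul]
          rfl
        rw [h1]
        exact le_ciSup (hbdd x hx) (h * g)
      · exact htend (fun t => D.E.sub_mem (D.E.smul_mem _ (D.E.sub_mem (pi_e_mem D _ m) (e_mem D m)))
          (dAct_mem D _ (e_mem D) X m)) (hq.diff γ X h m)
      · exact htend (fun N => D.E.sub_mem (D.E.smul_mem _ (D.E.sum_mem fun j _ =>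
          D.E.smul_mem _ (pi_mem D _ hx))) (D.E.smul_mem _ (e_mem D m))) (hq.avg x hx m)
      · exact (div_self hr0.ne').le
    refine ⟨r, fun A c => ?_⟩
    rw [pw_one]
    have h1 := hle _ hF _ (vec_mem D A c)
    rw [div_le_iff₀ hr0] at h1
    calc q (D.vec A c) ≤ q' (D.vec A c) := hle1 _ (vec_mem D A c)
      _ ≤ pSup D k (D.vec A c) * r := h1
      _ = r * pSup D k (D.vec A c) := mul_comm _ _
  · obtain ⟨C1, hC1⟩ := hpm.2 _ hP
    have hpmn : ∀ x ∈ D.E, 0 ≤ pm x := by
      intro x hx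
      by_cases h : x = 0
      · have h1 := hpm.1.smul 0 0 D.E.zero_mem
        rw [smul_zero, norm_zero, zero_mul] at h1
        rw [h, h1]
      · exact (hpm.1.pos x hx h).le
    set C : ℝ := max C1 1 with hCdef
    have hC0p : 0 < C := lt_of_lt_of_le zero_lt_one (le_max_right _ _)
    refine ⟨1 / C, by positivity, fun w hw A b => ?_⟩
    have hF := (hHIL D).2 k w hw
    have h1 := inner_le D w (D.vec A b)
    have h2 := hle _ hF _ (vec_mem D A b)
    have h3 := hC1 A b
    rw [pw_one] at h3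
    have h4 : C1 * pm (D.vec A b) ≤ C * pm (D.vec A b) :=
      mul_le_mul_of_nonneg_right (le_max_left _ _) (hpmn _ (vec_mem D A b))
    rw [one_div, inv_mul_le_iff₀ hC0p]
    exact ((h1.trans h2).trans h3).trans h4

end Pool.Agent.T6.H28.SN
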