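import Pool.Agent.T6.H28.SN.Stm

set_option autoImplicit false

open scoped InnerProductSpace ComplexConjugate Topology
open Filter

namespace Pool.Agent.T6.H28.SN

namespace ModNETG

lemma blk_abs {n : ℕ} {m : ℤ} (h : m ∈ blk n) : |(m : ℝ)| ≤ 2 * n := by
  unfold blk at h
  rw [Finset.mem_filter, Finset.mem_Icc] at h
  rw [abs_le]
  constructor
  · have := h.1.1
    exact_mod_cast this
  · have := h.1.2
    exact_mod_cast this

lemma blk_card {n : ℕ} (hn : 1 ≤ n) : ((blk n).card : ℝ) ≤ 5 * n := by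
  have h1 : (blk n).card ≤ (Finset.Icc (-(2 * n : ℤ)) (2 * n)).card :=
    Finset.card_le_card (Finset.filter_subset _ _)
  rw [Int.card_Icc] at h1
  have h2 : (2 * (n : ℤ) + 1 - -(2 * n)).toNat ≤ 5 * n := by omega
  exact_mod_cast h1.trans h2

/-- the trigonometric sum -/
noncomputable def Phi (D : Rep) (k : ℤ) (n : ℕ) (ε : ℤ → ℝ) (θ t : ℝ) : ℂ :=
  ∑ m ∈ blk n, (ε m : ℂ) * (Complex.exp (Complex.I * (m * θ)) * mc D k m t)

lemma norm_exp_one (m : ℤ) (θ : ℝ) : ‖Complex.exp (Complex.I * ((m : ℂ) * (θ : ℂ)))‖ = 1 := by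
  rw [mul_comm, show ((m : ℂ) * (θ : ℂ)) = (((m : ℝ) * θ : ℝ) : ℂ) by push_cast; ring]
  exact Complex.norm_exp_ofReal_mul_I _

lemma inner_rot (D : Rep) (m : ℤ) (θ : ℝ) (y : D.H) :
    ⟪D.e m, D.π (rot θ) y⟫_ℂ = Complex.exp (Complex.I * (m * θ)) * ⟪D.e m, y⟫_ℂ := by
  have h1 : ⟪D.π (rot θ) (D.e m), D.π (rot θ) y⟫_ℂ = ⟪D.e m, y⟫_ℂ :=
    LinearIsometryEquiv.inner_map_map _ _ _
  rw [D.rot_e, inner_smul_left, ← Complex.exp_conj] at h1
  rw [← h1, ← mul_assoc, ← Complex.exp_add]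
  have : Complex.I * ((m : ℂ) * (θ : ℂ)) + conj (Complex.I * ((m : ℂ) * (θ : ℂ))) = 0 := by
    simp
  rw [this, Complex.exp_zero, one_mul]

lemma norm_inner (D : Rep) (k : ℤ) (n : ℕ) (ε : ℤ → ℝ) (θ t φ : ℝ) :
    ‖⟪D.vec (blk n) (fun m => (ε m : ℂ)), D.π (rot θ * dil t * rot φ) (D.e k)⟫_ℂ‖ =
      ‖Phi D k n ε θ t‖ := by
  have h1 : D.π (rot θ * dil t * rot φ) (D.e k) =
      Complex.exp (Complex.I * (k * φ)) • D.π (rot θ) (D.π (dil t) (D.e k)) := by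
    rw [map_mul, map_mul]
    show D.π (rot θ) (D.π (dil t) (D.π (rot φ) (D.e k))) = _
    rw [D.rot_e, map_smul, map_smul]
  rw [h1, inner_smul_right, norm_mul, norm_exp_one, one_mul]
  congr 1
  unfold Rep.vec Phi
  rw [sum_inner]
  apply Finset.sum_congr rfl
  intro m _
  rw [inner_smul_left, inner_rot, Complex.conj_ofReal]
  rfl

lemma Phi_periodic (D : Rep) (k : ℤ) (n : ℕ) (ε : ℤ → ℝ) (θ t : ℝ) (j : ℤ) :
    Phi D k n ε (θ - j * (2 * Real.pi)) t = Phi D k n ε θ t := by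
  unfold Phi
  apply Finset.sum_congr rfl
  intro m _
  congr 2
  have h : Complex.I * ((m : ℂ) * ((θ : ℂ))) =
      Complex.I * ((m : ℂ) * ((θ - j * (2 * Real.pi) : ℝ) : ℂ)) +
        ((m * j : ℤ) : ℂ) * (2 * (Real.pi : ℂ) * Complex.I) := by
    push_cast
    ring
  rw [h, Complex.exp_add, Complex.exp_int_mul_two_pi_mul_I, mul_one]

lemma mc_le_one (hALG : StmALG) (D : Rep) {k : ℤ} (hk : k ∈ D.S) (m : ℤ) (t : ℝ) :
    ‖mc D k m t‖ ≤ 1 := by
  have h := (hALG D k hk).2.1 {m} t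
  rw [Finset.sum_singleton] at h
  exact (sq_le_one_iff₀ (norm_nonneg _)).1 h

lemma mc_lip (hALG : StmALG) (D : Rep) {k : ℤ} (hk : k ∈ D.S) {Ca : ℝ}
    (hCa : ∀ m, ‖D.a m‖ ≤ Ca * (1 + |(m : ℝ)|)) {n : ℕ} (hn : 1 ≤ n) {m : ℤ}
    (hm : |(m : ℝ)| ≤ 2 * n) (t t' : ℝ) :
    ‖mc D k m t - mc D k m t'‖ ≤ 8 * Ca * n * |t - t'| := by
  have hnn : (1 : ℝ) ≤ n := by exact_mod_cast hn
  have hCa0 : 0 ≤ Ca := by
    have := (norm_nonneg _).trans (hCa 0)
    simpa using this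
  have hder := (hALG D k hk).2.2.2.1 m
  have h1 : ∀ x ∈ (Set.univ : Set ℝ), HasDerivWithinAt (fun t => mc D k m t)
      (D.a (m - 2) * mc D k (m - 2) x - conj (D.a m) * mc D k (m + 2) x) Set.univ x :=
    fun x _ => (hder x).hasDerivWithinAt
  have h2 : ∀ x ∈ (Set.univ : Set ℝ),
      ‖D.a (m - 2) * mc D k (m - 2) x - conj (D.a m) * mc D k (m + 2) x‖ ≤ 8 * Ca * n := by
    intro x _
    refine (norm_sub_le _ _).trans ?_
    rw [norm_mul, norm_mul, RCLike.norm_conj]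
    have a1 := hCa (m - 2)
    have a2 := hCa m
    have a3 := mc_le_one hALG D hk (m - 2) x
    have a4 := mc_le_one hALG D hk (m + 2) x
    have a5 : |((m - 2 : ℤ) : ℝ)| ≤ |(m : ℝ)| + 2 := by
      push_cast
      refine (abs_sub _ _).trans ?_
      norm_num
    have b1 : ‖D.a (m - 2)‖ * ‖mc D k (m - 2) x‖ ≤ ‖D.a (m - 2)‖ :=
      mul_le_of_le_one_right (norm_nonneg _) a3
    have b2 : ‖D.a m‖ * ‖mc D k (m + 2) x‖ ≤ ‖D.a m‖ :=
      mul_le_of_le_one_right (norm_nonneg _) a4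
    have b3 : Ca * (1 + |((m - 2 : ℤ) : ℝ)|) ≤ Ca * (1 + (2 * n + 2)) :=
      mul_le_mul_of_nonneg_left (by linarith) hCa0
    have b4 : Ca * (1 + |(m : ℝ)|) ≤ Ca * (1 + 2 * n) :=
      mul_le_mul_of_nonneg_left (by linarith) hCa0
    have b5 : Ca * 4 ≤ Ca * (4 * n) := mul_le_mul_of_nonneg_left (by linarith) hCa0
    nlinarith
  have h3 := Convex.norm_image_sub_le_of_norm_hasDerivWithin_le h1 h2 convex_univ
    (Set.mem_univ t') (Set.mem_univ t)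
  simpa [Real.norm_eq_abs] using h3

lemma exp_lip (m : ℤ) (θ θ' : ℝ) :
    ‖Complex.exp (Complex.I * ((m : ℂ) * (θ : ℂ))) - Complex.exp (Complex.I * ((m : ℂ) * (θ' : ℂ)))‖ ≤
      |(m : ℝ)| * |θ - θ'| := by
  have h1 : Complex.exp (Complex.I * ((m : ℂ) * (θ : ℂ))) -
      Complex.exp (Complex.I * ((m : ℂ) * (θ' : ℂ))) =
      Complex.exp (Complex.I * ((m : ℂ) * (θ' : ℂ))) *
        (Complex.exp (Complex.I * (((m : ℝ) * (θ - θ') : ℝ) : ℂ)) - 1) := by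
    rw [mul_sub, ← Complex.exp_add, mul_one]
    congr 2
    push_cast
    ring
  rw [h1, norm_mul, norm_exp_one, one_mul]
  refine (Real.norm_exp_I_mul_ofReal_sub_one_le).trans ?_
  rw [Real.norm_eq_abs, abs_mul]

lemma Phi_lip (hALG : StmALG) (D : Rep) {k : ℤ} (hk : k ∈ D.S) {Ca : ℝ}
    (hCa : ∀ m, ‖D.a m‖ ≤ Ca * (1 + |(m : ℝ)|)) {n : ℕ} (hn : 1 ≤ n) (ε : ℤ → ℝ)
    (hε : ∀ m, ε m = 1 ∨ ε m = -1) (θ θ' t t' : ℝ) :
    ‖Phi D k n ε θ t - Phi D k n ε θ' t'‖ ≤ (10 + 40 * Ca) * (n : ℝ) ^ 2 * (|θ - θ'| + |t - t'|) := by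
  have hnn : (1 : ℝ) ≤ n := by exact_mod_cast hn
  have hCa0 : 0 ≤ Ca := by
    have := (norm_nonneg _).trans (hCa 0)
    simpa using this
  have hterm : ∀ m ∈ blk n, ‖(ε m : ℂ) * (Complex.exp (Complex.I * (m * θ)) * mc D k m t) -
      (ε m : ℂ) * (Complex.exp (Complex.I * (m * θ')) * mc D k m t')‖ ≤
      (2 + 8 * Ca) * n * (|θ - θ'| + |t - t'|) := by
    intro m hm
    have hm' := blk_abs hm
    have hεm : ‖(ε m : ℂ)‖ = 1 := by
      rcases hε m with h | h <;> rw [h] <;> norm_num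
    rw [← mul_sub, norm_mul, hεm, one_mul]
    have e : Complex.exp (Complex.I * (m * θ)) * mc D k m t -
        Complex.exp (Complex.I * (m * θ')) * mc D k m t' =
        (Complex.exp (Complex.I * (m * θ)) - Complex.exp (Complex.I * (m * θ'))) * mc D k m t +
          Complex.exp (Complex.I * (m * θ')) * (mc D k m t - mc D k m t') := by ring
    rw [e]
    refine (norm_add_le _ _).trans ?_
    rw [norm_mul, norm_mul, norm_exp_one, one_mul]
    have g1 := exp_lip m θ θ'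
    have g2 := mc_le_one hALG D hk m t
    have g3 := mc_lip hALG D hk hCa hn hm' t t'
    have g4 : ‖Complex.exp (Complex.I * (m * θ)) - Complex.exp (Complex.I * (m * θ'))‖ *
        ‖mc D k m t‖ ≤ |(m : ℝ)| * |θ - θ'| :=
      (mul_le_of_le_one_right (norm_nonneg _) g2).trans g1
    have g5 : |(m : ℝ)| * |θ - θ'| ≤ 2 * n * |θ - θ'| :=
      mul_le_mul_of_nonneg_right hm' (abs_nonneg _)
    have g6 : 0 ≤ 8 * Ca * n * |θ - θ'| := by positivity
    have g7 : 0 ≤ 2 * n * |t - t'| := by positivity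
    nlinarith
  unfold Phi
  rw [← Finset.sum_sub_distrib]
  refine (norm_sum_le _ _).trans ((Finset.sum_le_sum hterm).trans ?_)
  rw [Finset.sum_const, nsmul_eq_mul]
  have hc := blk_card hn
  calc ((blk n).card : ℝ) * ((2 + 8 * Ca) * n * (|θ - θ'| + |t - t'|)) ≤
      5 * n * ((2 + 8 * Ca) * n * (|θ - θ'| + |t - t'|)) :=
        mul_le_mul_of_nonneg_right hc (by positivity)
    _ = _ := by ring

lemma Phi_decay (D : Rep) {k : ℤ} {α C : ℝ} {N : ℕ} (hα : 0 < α)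
    (hdec : ∀ (m : ℤ) (t : ℝ), 0 ≤ t →
      ‖mc D k m t‖ ≤ C * (1 + |(m : ℝ)|) ^ N * Real.exp (-(α * t))) {n : ℕ} (hn : 1 ≤ n)
    (ε : ℤ → ℝ) (hε : ∀ m, ε m = 1 ∨ ε m = -1) (θ t : ℝ)
    (ht : (5 * |C| * 3 ^ N * (N + 1).factorial + 1) / α * n ≤ t) :
    ‖Phi D k n ε θ t‖ ≤ 1 := by
  have hnn : (1 : ℝ) ≤ n := by exact_mod_cast hn
  obtain ⟨K, hK⟩ : ∃ K, K = 5 * |C| * 3 ^ N * ((N + 1).factorial : ℝ) := ⟨_, rfl⟩
  have hK0 : 0 ≤ K := by rw [hK]; positivity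
  rw [← hK] at ht
  have ht0 : 0 ≤ t := le_trans (by positivity) ht
  have hterm : ∀ m ∈ blk n, ‖(ε m : ℂ) * (Complex.exp (Complex.I * (m * θ)) * mc D k m t)‖ ≤
      |C| * (3 * n) ^ N * Real.exp (-(α * t)) := by
    intro m hm
    have hm' := blk_abs hm
    have hεm : ‖(ε m : ℂ)‖ = 1 := by
      rcases hε m with h | h <;> rw [h] <;> norm_num
    rw [norm_mul, hεm, one_mul, norm_mul, norm_exp_one, one_mul]
    refine (hdec m t ht0).trans ?_
    apply mul_le_mul_of_nonneg_right _ (Real.exp_nonneg _)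
    refine (mul_le_mul_of_nonneg_right (le_abs_self C) (by positivity)).trans ?_
    apply mul_le_mul_of_nonneg_left _ (abs_nonneg _)
    exact pow_le_pow_left₀ (by positivity) (by linarith) N
  unfold Phi
  refine (norm_sum_le _ _).trans ((Finset.sum_le_sum hterm).trans ?_)
  rw [Finset.sum_const, nsmul_eq_mul]
  have hc := blk_card hn
  have h1 : ((blk n).card : ℝ) * (|C| * (3 * n) ^ N * Real.exp (-(α * t))) ≤
      5 * n * (|C| * (3 * n) ^ N * Real.exp (-(α * t))) :=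
    mul_le_mul_of_nonneg_right hc (by positivity)
  refine h1.trans ?_
  have h2 : (n : ℝ) ^ (N + 1) ≤ (N + 1).factorial * Real.exp n := by
    have := Real.pow_div_factorial_le_exp (n : ℝ) (by positivity) (N + 1)
    rw [div_le_iff₀ (by positivity)] at this
    linarith
  have h3 : 5 * n * (|C| * (3 * n) ^ N * Real.exp (-(α * t))) =
      (5 * |C| * 3 ^ N * (n : ℝ) ^ (N + 1)) * Real.exp (-(α * t)) := by
    rw [mul_pow, pow_succ (n : ℝ) N]
    ring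
  rw [h3]
  have h4 : 5 * |C| * 3 ^ N * (n : ℝ) ^ (N + 1) ≤ Real.exp (α * t) := by
    calc 5 * |C| * 3 ^ N * (n : ℝ) ^ (N + 1) ≤
        5 * |C| * 3 ^ N * ((N + 1).factorial * Real.exp n) :=
          mul_le_mul_of_nonneg_left h2 (by positivity)
      _ = K * Real.exp n := by rw [hK]; ring
      _ ≤ Real.exp (K * n) * Real.exp n := by
          apply mul_le_mul_of_nonneg_right _ (Real.exp_nonneg _)
          have := Real.add_one_le_exp (K * n)
          nlinarith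
      _ = Real.exp ((K + 1) * n) := by rw [← Real.exp_add]; congr 1; ring
      _ ≤ Real.exp (α * t) := by
          apply Real.exp_le_exp.2
          have := mul_le_mul_of_nonneg_left ht hα.le
          calc (K + 1) * n = α * ((K + 1) / α * n) := by field_simp
            _ ≤ _ := this
  calc (5 * |C| * 3 ^ N * (n : ℝ) ^ (N + 1)) * Real.exp (-(α * t)) ≤
      Real.exp (α * t) * Real.exp (-(α * t)) :=
        mul_le_mul_of_nonneg_right h4 (Real.exp_nonneg _)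
    _ = 1 := by rw [← Real.exp_add, add_neg_cancel, Real.exp_zero]

/-- grid points -/
lemma grid_near {d x X : ℝ} (hd : 0 < d) (hx : 0 ≤ x) (hxX : x ≤ X) :
    ∃ i ∈ Finset.range (⌊X / d⌋₊ + 1), |x - i * d| ≤ d := by
  refine ⟨⌊x / d⌋₊, ?_, ?_⟩
  · rw [Finset.mem_range]
    have : ⌊x / d⌋₊ ≤ ⌊X / d⌋₊ := Nat.floor_le_floor (by gcongr)
    omega
  · have h1 := Nat.floor_le (show 0 ≤ x / d by positivity)
    have h2 := Nat.lt_floor_add_one (x / d)
    rw [le_div_iff₀ hd] at h1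
    rw [div_lt_iff₀ hd] at h2
    rw [abs_le]
    constructor <;> linarith

end ModNETG

open ModNETG in
theorem netg (hALG : StmALG) (hKAP : StmKAP) (hKAK : StmKAK) (hDEC : StmDEC) : StmNETG := by
  intro D
  obtain ⟨k, hk, α, C, N, hα, hdec⟩ := hDEC D
  obtain ⟨Ca, hCa⟩ := (hKAP D).2.1
  have hCa0 : 0 ≤ Ca := by
    have := (norm_nonneg _).trans (hCa 0)
    simpa using this
  obtain ⟨Λ, hΛ⟩ : ∃ Λ, Λ = 10 + 40 * Ca := ⟨_, rfl⟩
  have hΛ0 : 0 < Λ := by rw [hΛ]; positivity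
  obtain ⟨C3, hC3⟩ : ∃ C3, C3 = (5 * |C| * 3 ^ N * ((N + 1).factorial : ℝ) + 1) / α := ⟨_, rfl⟩
  have hC30 : 0 < C3 := by rw [hC3]; positivity
  refine ⟨k, hk, (4 * Real.pi * Λ + 1) * (2 * Λ * C3 + 1), 5, by positivity, ?_⟩
  intro n hn
  have hnn : (1 : ℝ) ≤ n := by exact_mod_cast hn
  have hn0 : (0 : ℝ) < n := by linarith
  obtain ⟨d, hd⟩ : ∃ d, d = 1 / (2 * Λ * (n : ℝ) ^ 2) := ⟨_, rfl⟩
  have hd0 : 0 < d := by rw [hd]; positivity
  refine ⟨((Finset.range (⌊2 * Real.pi / d⌋₊ + 1)) ×ˢ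
    (Finset.range (⌊C3 * n / d⌋₊ + 1))).image
      (fun ij : ℕ × ℕ => ((ij.1 : ℝ) * d, (ij.2 : ℝ) * d)), ?_, ?_⟩
  · have h1 : (((Finset.range (⌊2 * Real.pi / d⌋₊ + 1)) ×ˢ
        (Finset.range (⌊C3 * n / d⌋₊ + 1))).image
        (fun ij : ℕ × ℕ => ((ij.1 : ℝ) * d, (ij.2 : ℝ) * d))).card ≤
        (⌊2 * Real.pi / d⌋₊ + 1) * (⌊C3 * n / d⌋₊ + 1) := by
      refine Finset.card_image_le.trans ?_
      rw [Finset.card_product, Finset.card_range, Finset.card_range]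
    have h2 : ((((Finset.range (⌊2 * Real.pi / d⌋₊ + 1)) ×ˢ
        (Finset.range (⌊C3 * n / d⌋₊ + 1))).image
        (fun ij : ℕ × ℕ => ((ij.1 : ℝ) * d, (ij.2 : ℝ) * d))).card : ℝ) ≤
        ((⌊2 * Real.pi / d⌋₊ : ℝ) + 1) * ((⌊C3 * n / d⌋₊ : ℝ) + 1) := by exact_mod_cast h1
    refine h2.trans ?_
    have h3 : (⌊2 * Real.pi / d⌋₊ : ℝ) ≤ 4 * Real.pi * Λ * (n : ℝ) ^ 2 := by
      refine (Nat.floor_le (by positivity)).trans (le_of_eq ?_)
      rw [hd]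
      field_simp
      ring
    have h4 : (⌊C3 * n / d⌋₊ : ℝ) ≤ 2 * Λ * C3 * (n : ℝ) ^ 3 := by
      refine (Nat.floor_le (by positivity)).trans (le_of_eq ?_)
      rw [hd]
      field_simp
    have h5 : (1 : ℝ) ≤ (n : ℝ) ^ 2 := one_le_pow₀ hnn
    have h6 : (1 : ℝ) ≤ (n : ℝ) ^ 3 := one_le_pow₀ hnn
    calc ((⌊2 * Real.pi / d⌋₊ : ℝ) + 1) * ((⌊C3 * n / d⌋₊ : ℝ) + 1) ≤
        ((4 * Real.pi * Λ + 1) * (n : ℝ) ^ 2) * ((2 * Λ * C3 + 1) * (n : ℝ) ^ 3) := by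
          apply mul_le_mul (by linarith) (by linarith) (by positivity) (by positivity)
      _ = _ := by ring
  · intro ε hε M hM hQ g
    obtain ⟨θ, t, φ, ht, rfl⟩ := hKAK g
    rw [norm_inner]
    -- reduce the angle
    obtain ⟨θ', hθ'⟩ : ∃ θ', θ' = θ - (⌊θ / (2 * Real.pi)⌋ : ℝ) * (2 * Real.pi) := ⟨_, rfl⟩
    rw [← Phi_periodic D k n ε θ t ⌊θ / (2 * Real.pi)⌋, ← hθ']
    have hpi := Real.pi_pos
    have hθ0 : 0 ≤ θ' := by
      have := Int.floor_le (θ / (2 * Real.pi))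
      rw [le_div_iff₀ (by positivity)] at this
      linarith
    have hθ1 : θ' ≤ 2 * Real.pi := by
      have := Int.lt_floor_add_one (θ / (2 * Real.pi))
      rw [div_lt_iff₀ (by positivity)] at this
      linarith
    by_cases hT : t ≤ C3 * n
    · obtain ⟨i, hi, hi'⟩ := grid_near hd0 hθ0 hθ1
      obtain ⟨j, hj, hj'⟩ := grid_near hd0 ht hT
      have h1 := hQ (i * d, j * d) (Finset.mem_image.2 ⟨(i, j), Finset.mem_product.2 ⟨hi, hj⟩, rfl⟩)
      have h2 := Phi_lip hALG D hk hCa hn ε hε θ' (i * d) t (j * d)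
      rw [← hΛ] at h2
      have h3 : Λ * (n : ℝ) ^ 2 * (|θ' - i * d| + |t - j * d|) ≤ 1 := by
        calc Λ * (n : ℝ) ^ 2 * (|θ' - i * d| + |t - j * d|) ≤ Λ * (n : ℝ) ^ 2 * (2 * d) :=
              mul_le_mul_of_nonneg_left (by linarith) (by positivity)
          _ = 1 := by rw [hd]; field_simp
      have h4 : ‖Phi D k n ε (i * d) (j * d)‖ ≤ M := h1
      have h5 : ‖Phi D k n ε θ' t‖ ≤ ‖Phi D k n ε (i * d) (j * d)‖ +
          ‖Phi D k n ε θ' t - Phi D k n ε (i * d) (j * d)‖ := by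
        have := norm_add_le (Phi D k n ε (i * d) (j * d))
          (Phi D k n ε θ' t - Phi D k n ε (i * d) (j * d))
        rwa [add_sub_cancel] at this
      linarith
    · have := Phi_decay D hα hdec hn ε hε θ' t (by rw [← hC3]; exact (not_le.1 hT).le)
      linarith

end Pool.Agent.T6.H28.SN
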