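import Pool.Agent.T6.H28.SN.Stm

set_option autoImplicit false

open scoped InnerProductSpace ComplexConjugate Topology ENNReal
open Filter MeasureTheory

namespace Pool.Agent.T6.H28.SN

namespace ModUPP

theorem e_mem (D : Rep) (m : ℤ) : D.e m ∈ D.E :=
  Submodule.subset_span ⟨1, m, by rw [map_one]; rfl⟩

theorem pi_mem (D : Rep) (g : G) (m : ℤ) : D.π g (D.e m) ∈ D.E :=
  Submodule.subset_span ⟨g, m, rfl⟩

theorem e_ne (D : Rep) {m : ℤ} (hm : m ∈ D.S) : D.e m ≠ 0 := by
  intro h
  have h1 := D.orth m hm m hm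
  rw [h, inner_zero_left, if_pos rfl] at h1
  exact zero_ne_one h1

theorem p_zero {D : Rep} {p : D.H → ℝ} (hp : IsGNorm D p) : p 0 = 0 := by
  have h := hp.smul 0 0 D.E.zero_mem
  simpa using h

theorem p_nonneg {D : Rep} {p : D.H → ℝ} (hp : IsGNorm D p) {x : D.H} (hx : x ∈ D.E) :
    0 ≤ p x := by
  by_cases h : x = 0
  · rw [h, p_zero hp]
  · exact (hp.pos x hx h).le

/-- a norm is a seminorm with constant at least one -/
theorem isSem {D : Rep} {p : D.H → ℝ} (hp : IsGNorm D p) : ∃ C0 : ℝ, 1 ≤ C0 ∧ IsSem D C0 p := by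
  obtain ⟨C, hC⟩ := hp.bdd
  refine ⟨max C 1, le_max_right _ _, ?_⟩
  exact
    { nonneg := fun x hx => p_nonneg hp hx
      add := hp.add
      smul := hp.smul
      bdd := fun g x hx => (hC g x hx).trans
        (mul_le_mul_of_nonneg_right (le_max_left _ _) (p_nonneg hp hx))
      diff := hp.diff
      avg := hp.avg }

/-- Hahn-Banach and integration -/
theorem avg_le {ι : Type} [Fintype ι] (N : (ι → ℂ) → ℝ) (hN0 : ∀ z, 0 ≤ N z)
    (hhom : ∀ (c : ℝ) z, 0 < c → N (c • z) = c * N z) (hadd : ∀ x y, N (x + y) ≤ N x + N y)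
    (v : ι → ℂ) (T : ℝ) (hT : 0 ≤ T) (z : ℝ → ι → ℂ) (hz : Continuous z) (M : ℝ → ℝ)
    (hM : Continuous M) (hzM : ∀ t, N (z t) ≤ M t) (hv : ∫ t in (0 : ℝ)..T, z t = v) :
    N v ≤ ∫ t in (0 : ℝ)..T, M t := by
  obtain ⟨g, hgv, hgN⟩ : ∃ g : (ι → ℂ) →ₗ[ℝ] ℝ, g v = N v ∧ ∀ x, g x ≤ N x := by
    by_cases hv0 : v = 0
    · refine ⟨0, ?_, fun x => hN0 x⟩
      have h1 := hhom 2 0 (by norm_num)
      rw [smul_zero] at h1
      rw [hv0]
      simp only [LinearMap.zero_apply]
      linarith
    · obtain ⟨g, hg1, hg2⟩ := exists_extension_of_le_sublinear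
        (LinearPMap.mkSpanSingleton v (N v) hv0) N (fun c hc x => hhom c x hc) hadd (by
          rintro ⟨x, hx⟩
          obtain ⟨c, rfl⟩ := Submodule.mem_span_singleton.1 hx
          rw [LinearPMap.mkSpanSingleton'_apply]
          simp only [smul_eq_mul, RingHom.id_apply]
          rcases le_or_gt c 0 with hc | hc
          · exact (mul_nonpos_of_nonpos_of_nonneg hc (hN0 v)).trans (hN0 _)
          · exact (hhom c v hc).ge)
      refine ⟨g, ?_, hg2⟩
      have h1 := hg1 ⟨v, Submodule.mem_span_singleton_self v⟩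
      rw [h1]
      exact LinearPMap.mkSpanSingleton_apply ℝ ℝ hv0 (N v)
  have hgc : Continuous g := LinearMap.continuous_of_finiteDimensional g
  let L : (ι → ℂ) →L[ℝ] ℝ := ⟨g, hgc⟩
  have h2 := L.intervalIntegral_comp_comm (hz.intervalIntegrable (μ := volume) 0 T)
  rw [hv] at h2
  have h3 : L v = N v := hgv
  rw [← h3, ← h2]
  refine intervalIntegral.integral_mono_on hT ?_ (hM.intervalIntegrable _ _) (fun t _ => ?_)
  · exact (L.continuous.comp hz).intervalIntegrable _ _
  · exact (hgN (z t)).trans (hzM t)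

end ModUPP

open ModUPP in
theorem upp (hALG : StmALG) (hLOW : StmLOW) (hAVGL : StmAVGL) : StmUPP := by
  classical
  intro D p hp
  obtain ⟨C0, hC0, hS⟩ := isSem hp
  obtain ⟨k, hk⟩ := D.nonempty
  obtain ⟨c, R, hc, hR, hlow⟩ := hLOW D k hk
  have hmc : ∀ m, Continuous fun t => mc D k m t := fun m =>
    continuous_iff_continuousAt.2 fun t => ((hALG D k hk).2.2.2.1 m t).continuousAt
  have hpk : 0 < p (D.e k) := hp.pos _ (e_mem D k) (e_ne D hk)
  set K : ℝ := C0 * (C0 * p (D.e k)) with hK
  have hKpos : 0 < K := by positivity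
  refine ⟨K * (3 * R / 4 + 1 / (2 * c)), by positivity, ?_⟩
  intro n hn A v hA
  have hn1 : (1 : ℝ) ≤ n := by exact_mod_cast hn
  set B : Finset ℤ := A.filter fun m => m ∈ D.S with hB
  have hvec : D.vec A v = D.vec B v := by
    unfold Rep.vec
    rw [hB, Finset.sum_filter]
    refine Finset.sum_congr rfl fun m _ => ?_
    split_ifs with h
    · rfl
    · rw [D.e_out m h, smul_zero]
  have hsum : ∑ m ∈ B, ‖v m‖ ^ 2 ≤ ∑ m ∈ A, ‖v m‖ ^ 2 :=
    Finset.sum_le_sum_of_subset_of_nonneg (Finset.filter_subset _ _) fun _ _ _ => by positivity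
  rw [hvec]
  set W : ℝ := √(∑ m ∈ B, ‖v m‖ ^ 2) with hW
  have hW0 : 0 ≤ W := Real.sqrt_nonneg _
  have hWsq : W ^ 2 = ∑ m ∈ B, ‖v m‖ ^ 2 :=
    Real.sq_sqrt (Finset.sum_nonneg fun _ _ => by positivity)
  suffices hmain : p (D.vec B v) ≤ K * (3 * R / 4 + 1 / (2 * c)) * √n * W by
    refine hmain.trans ?_
    exact mul_le_mul_of_nonneg_left (Real.sqrt_le_sqrt hsum) (by positivity)
  rcases hW0.eq_or_lt with hWz | hWpos
  · have h1 : ∀ m ∈ B, v m = 0 := by
      have h2 : ∑ m ∈ B, ‖v m‖ ^ 2 = 0 := by rw [← hWsq, ← hWz]; norm_num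
      intro m hm
      have h3 := (Finset.sum_eq_zero_iff_of_nonneg (fun _ _ => by positivity)).1 h2 m hm
      simpa using h3
    have h4 : D.vec B v = 0 := by
      unfold Rep.vec
      exact Finset.sum_eq_zero fun m hm => by rw [h1 m hm, zero_smul]
    rw [h4, p_zero hp, ← hWz, mul_zero]
  -- the time
  set T : ℝ := Real.arsinh (R * (1 + 2 * n)) / 2 with hTdef
  have hT0 : 0 ≤ T := by
    rw [hTdef]
    exact div_nonneg (Real.arsinh_nonneg_iff.2 (by positivity)) (by norm_num)
  have hsT : Real.sinh (2 * T) = R * (1 + 2 * n) := by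
    rw [hTdef, mul_div_cancel₀ _ (two_ne_zero), Real.sinh_arsinh]
  have hmB : ∀ m ∈ B, m ∈ D.S ∧ |(m : ℝ)| ≤ 2 * n := by
    intro m hm
    rw [hB, Finset.mem_filter] at hm
    refine ⟨hm.2, ?_⟩
    have := hA m hm.1
    exact_mod_cast this
  let a : ℤ → ℝ := fun m => ∫ t in (0 : ℝ)..T, Real.cosh (2 * t) * ‖mc D k m t‖ ^ 2
  have ha : ∀ m ∈ B, c ≤ a m := by
    intro m hm
    refine hlow m (hmB m hm).1 T hT0 ?_
    rw [hsT]
    have := (hmB m hm).2
    gcongr
  have hapos : ∀ m ∈ B, 0 < a m := fun m hm => lt_of_lt_of_le hc (ha m hm)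
  -- the coefficients
  let b : ℝ → ℤ → ℂ := fun t m => v m * conj (mc D k m t) / (a m : ℂ)
  let S : ℝ → ℝ := fun t => ∑ m ∈ B, ‖v m‖ ^ 2 * ‖mc D k m t‖ ^ 2 / a m ^ 2
  have hSc : Continuous S := by
    refine continuous_finsetSum _ fun m _ => ?_
    exact (continuous_const.mul ((hmc m).norm.pow 2)).div_const _
  have hS0 : ∀ t, 0 ≤ S t := fun t => Finset.sum_nonneg fun m _ => by positivity
  have hSb : ∀ t, ∑ m ∈ B, ‖b t m‖ ^ 2 = S t := by
    intro t
    refine Finset.sum_congr rfl fun m _ => ?_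
    simp only [b]
    rw [norm_div, norm_mul, RCLike.norm_conj, div_pow, mul_pow, Complex.norm_real,
      Real.norm_eq_abs, sq_abs]
  have hav : ∀ t, p (∑ m ∈ B, (b t m * mc D k m t) • D.e m) ≤ K * √(S t) := by
    intro t
    have h1 := hAVGL D C0 p hS (D.π (dil t) (D.e k)) (pi_mem D _ _) B (b t)
    rw [hSb] at h1
    have h2 : p (D.π (dil t) (D.e k)) ≤ C0 * p (D.e k) := hS.bdd _ _ (e_mem D k)
    calc p (∑ m ∈ B, (b t m * mc D k m t) • D.e m)
        ≤ C0 * √(S t) * p (D.π (dil t) (D.e k)) := h1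
      _ ≤ C0 * √(S t) * (C0 * p (D.e k)) := by gcongr
      _ = K * √(S t) := by rw [hK]; ring
  -- the finite-dimensional space
  let lift : (B → ℂ) → D.H := fun z => ∑ m : B, z m • D.e (m : ℤ)
  have hlift : ∀ z, lift z ∈ D.E := fun z =>
    Submodule.sum_mem _ fun m _ => Submodule.smul_mem _ _ (e_mem D _)
  have hlc : ∀ f : ℤ → ℂ, lift (fun m => f m) = ∑ m ∈ B, f m • D.e m := fun f =>
    Finset.sum_coe_sort B (fun m => f m • D.e m)
  let z : ℝ → B → ℂ := fun t m => (Real.cosh (2 * t) : ℂ) * (b t m * mc D k m t)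
  have hzc : Continuous z := by
    refine continuous_pi fun m => ?_
    simp only [z, b]
    have h1 := hmc (m : ℤ)
    have h2 : Continuous fun t => conj (mc D k (m : ℤ) t) := continuous_star.comp h1
    have h3 : Continuous fun t : ℝ => ((Real.cosh (2 * t) : ℝ) : ℂ) :=
      Complex.continuous_ofReal.comp (by fun_prop)
    exact h3.mul (((continuous_const.mul h2).div_const _).mul h1)
  have hMc : Continuous fun t => Real.cosh (2 * t) * (K * √(S t)) := by
    have h1 : Continuous fun t => √(S t) := hSc.sqrt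
    fun_prop
  have hN := avg_le (fun z => p (lift z)) (fun z => p_nonneg hp (hlift z))
    (fun r w hr => by
      have h1 : lift (r • w) = (r : ℂ) • lift w := by
        simp only [lift, Finset.smul_sum]
        refine Finset.sum_congr rfl fun m _ => ?_
        rw [smul_smul]
        rfl
      simp only [h1]
      rw [hp.smul _ _ (hlift w), Complex.norm_real, Real.norm_eq_abs, abs_of_pos hr])
    (fun x y => by
      have h1 : lift (x + y) = lift x + lift y := by
        simp only [lift, ← Finset.sum_add_distrib]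
        refine Finset.sum_congr rfl fun m _ => ?_
        rw [Pi.add_apply, add_smul]
      simp only [h1]
      exact hp.add _ (hlift x) _ (hlift y))
    (fun m => v m) T hT0 z hzc (fun t => Real.cosh (2 * t) * (K * √(S t))) hMc
    (fun t => by
      have h1 : lift (z t) = (Real.cosh (2 * t) : ℂ) • ∑ m ∈ B, (b t m * mc D k m t) • D.e m := by
        simp only [z]
        rw [hlc (fun m => (Real.cosh (2 * t) : ℂ) * (b t m * mc D k m t)), Finset.smul_sum]
        refine Finset.sum_congr rfl fun m _ => ?_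
        rw [smul_smul]
      simp only [h1]
      rw [hp.smul _ _ (Submodule.sum_mem _ fun m _ => Submodule.smul_mem _ _ (e_mem D _)),
        Complex.norm_real, Real.norm_eq_abs, abs_of_pos (Real.cosh_pos _)]
      exact mul_le_mul_of_nonneg_left (hav t) (Real.cosh_pos _).le)
    (by
      funext m
      have hproj := (ContinuousLinearMap.proj (R := ℝ) (φ := fun _ : B => ℂ) m).intervalIntegral_comp_comm
        (hzc.intervalIntegrable (μ := volume) 0 T)
      have h0 : (∫ t in (0 : ℝ)..T, z t) m = ∫ t in (0 : ℝ)..T, z t m := hproj.symm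
      rw [h0]
      have h1 : ∀ t, z t m = (v m / (a m : ℂ)) *
          ((Real.cosh (2 * t) * ‖mc D k m t‖ ^ 2 : ℝ) : ℂ) := by
        intro t
        simp only [z, b]
        have h2 : conj (mc D k m t) * mc D k m t = ((‖mc D k m t‖ ^ 2 : ℝ) : ℂ) := by
          rw [Complex.conj_mul']
          push_cast
          rfl
        have h3 : ((Real.cosh (2 * t) * ‖mc D k m t‖ ^ 2 : ℝ) : ℂ) =
            (Real.cosh (2 * t) : ℂ) * (conj (mc D k m t) * mc D k m t) := by
          rw [h2]
          push_cast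
          rfl
        rw [h3]
        ring
      simp only [h1]
      rw [intervalIntegral.integral_const_mul, intervalIntegral.integral_ofReal]
      have h4 : (∫ t in (0 : ℝ)..T, Real.cosh (2 * t) * ‖mc D k m t‖ ^ 2) = a m := rfl
      rw [h4]
      have h5 : (a m : ℂ) ≠ 0 := by
        exact_mod_cast (hapos m m.2).ne'
      field_simp)
  have hvB : lift (fun m => v m) = D.vec B v := hlc v
  rw [hvB] at hN
  refine hN.trans ?_
  -- Cauchy-Schwarz
  set lam : ℝ := W / √n with hlam
  have hsn : 0 < √(n : ℝ) := Real.sqrt_pos.2 (by linarith)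
  have hlam0 : 0 < lam := by positivity
  have hsq : ∀ t, √(S t) ≤ lam / 2 + S t / (2 * lam) := by
    intro t
    have h1 : √(S t) * √(S t) = S t := Real.mul_self_sqrt (hS0 t)
    have h2 : lam / 2 + S t / (2 * lam) - √(S t) = (√(S t) - lam) ^ 2 / (2 * lam) := by
      rw [← h1]
      have h3 : √(√(S t) * √(S t)) = √(S t) := by rw [h1]
      rw [h3]
      field_simp
      ring
    have h4 : 0 ≤ (√(S t) - lam) ^ 2 / (2 * lam) := by positivity
    linarith
  have hI1 : ∫ t in (0 : ℝ)..T, Real.cosh (2 * t) = R * (1 + 2 * n) / 2 := by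
    have h1 : ∀ t ∈ Set.uIcc 0 T, HasDerivAt (fun t : ℝ => Real.sinh (2 * t) / 2)
        (Real.cosh (2 * t)) t := by
      intro t _
      have h2 := (((hasDerivAt_id t).const_mul (2 : ℝ)).sinh).div_const 2
      refine h2.congr_deriv ?_
      simp only [id]
      ring
    rw [intervalIntegral.integral_eq_sub_of_hasDerivAt h1
      (Continuous.intervalIntegrable (by fun_prop) _ _)]
    rw [hsT]
    simp
  have hI2 : ∫ t in (0 : ℝ)..T, Real.cosh (2 * t) * S t ≤ W ^ 2 / c := by
    have h1 : ∀ t, Real.cosh (2 * t) * S t =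
        ∑ m ∈ B, (‖v m‖ ^ 2 / a m ^ 2) * (Real.cosh (2 * t) * ‖mc D k m t‖ ^ 2) := by
      intro t
      simp only [S, Finset.mul_sum]
      refine Finset.sum_congr rfl fun m _ => ?_
      ring
    simp only [h1]
    rw [intervalIntegral.integral_finsetSum (fun m _ => by
      have := (hmc m).norm
      exact Continuous.intervalIntegrable (by fun_prop) _ _)]
    rw [hWsq, Finset.sum_div]
    refine Finset.sum_le_sum fun m hm => ?_
    rw [intervalIntegral.integral_const_mul]
    have h4 : (∫ t in (0 : ℝ)..T, Real.cosh (2 * t) * ‖mc D k m t‖ ^ 2) = a m := rfl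
    rw [h4]
    have h5 := hapos m hm
    calc ‖v m‖ ^ 2 / a m ^ 2 * a m = ‖v m‖ ^ 2 / a m := by field_simp
      _ ≤ ‖v m‖ ^ 2 / c := div_le_div_of_nonneg_left (by positivity) hc (ha m hm)
  calc ∫ t in (0 : ℝ)..T, Real.cosh (2 * t) * (K * √(S t))
      ≤ ∫ t in (0 : ℝ)..T, (K * (lam / 2) * Real.cosh (2 * t) +
          K / (2 * lam) * (Real.cosh (2 * t) * S t)) := by
        refine intervalIntegral.integral_mono_on hT0 (hMc.intervalIntegrable _ _)
          (Continuous.intervalIntegrable (by fun_prop) _ _) (fun t _ => ?_)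
        calc Real.cosh (2 * t) * (K * √(S t))
            ≤ Real.cosh (2 * t) * (K * (lam / 2 + S t / (2 * lam))) := by
              have := Real.cosh_pos (2 * t)
              gcongr
              exact hsq t
          _ = _ := by ring
    _ = K * (lam / 2) * (R * (1 + 2 * n) / 2) +
          K / (2 * lam) * ∫ t in (0 : ℝ)..T, Real.cosh (2 * t) * S t := by
        rw [intervalIntegral.integral_add (Continuous.intervalIntegrable (by fun_prop) _ _)
          (Continuous.intervalIntegrable (by fun_prop) _ _),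
          intervalIntegral.integral_const_mul, intervalIntegral.integral_const_mul, hI1]
    _ ≤ K * (lam / 2) * (R * (3 * n) / 2) + K / (2 * lam) * (W ^ 2 / c) := by
        gcongr
        linarith
    _ = K * (3 * R / 4 + 1 / (2 * c)) * √n * W := by
        have h6 : (n : ℝ) = √n * √n := (Real.mul_self_sqrt (by linarith)).symm
        rw [hlam]
        have h7 : K * (W / √n / 2) * (R * (3 * n) / 2) = K * (3 * R / 4) * √n * W := by
          conv_lhs => rw [h6]
          have h8 : √(√(n : ℝ) * √n) = √n := by rw [← h6]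
          rw [h8]
          field_simp
          ring
        have h9 : K / (2 * (W / √n)) * (W ^ 2 / c) = K * (1 / (2 * c)) * √n * W := by
          field_simp
        rw [h7, h9]
        ring

end Pool.Agent.T6.H28.SN
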