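import Pool.Agent.T6.H28.SN.Alg
import Pool.Agent.T6.H28.SN.Upp

/-!
# NETX: a net for the automorphic functions
-/

set_option autoImplicit false

open scoped InnerProductSpace ComplexConjugate Topology ENNReal
open Filter MeasureTheory

namespace Pool.Agent.T6.H28.SN

namespace ModNETX

open ModUPP ModALG

theorem sumsq (θ t φ : ℝ) : ((rot θ * dil t * rot φ).1 0 0) ^ 2 + ((rot θ * dil t * rot φ).1 0 1) ^ 2 +
    ((rot θ * dil t * rot φ).1 1 0) ^ 2 + ((rot θ * dil t * rot φ).1 1 1) ^ 2 =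
      Real.exp t ^ 2 + Real.exp (-t) ^ 2 := by
  have hv : (rot θ * dil t * rot φ).1 = (rot θ).1 * (dil t).1 * (rot φ).1 := rfl
  rw [hv, rot_val, rot_val, dil_val, Matrix.mul_fin_two, Matrix.mul_fin_two]
  simp only [Matrix.of_apply, Matrix.cons_val', Matrix.cons_val_zero, Matrix.cons_val_one,
    Matrix.cons_val_fin_one]
  have h1 := Real.sin_sq_add_cos_sq θ
  have h2 := Real.sin_sq_add_cos_sq φ
  linear_combination (Real.exp t ^ 2 + Real.exp (-t) ^ 2) *
    (Real.sin φ ^ 2 + Real.cos φ ^ 2) * h1 + (Real.exp t ^ 2 + Real.exp (-t) ^ 2) * h2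

theorem entry_cont (i j : Fin 2) : Continuous fun g : G => g.1 i j :=
  (continuous_apply_apply i j).comp continuous_subtype_val

/-- the Cartan coordinate is bounded on compact sets -/
theorem bound_t (F : Set G) (hF : IsCompact F) : ∃ T0 : ℕ, ∀ θ t φ : ℝ, 0 ≤ t →
    rot θ * dil t * rot φ ∈ F → t ≤ T0 := by
  have hc : Continuous fun g : G => (g.1 0 0) ^ 2 + (g.1 0 1) ^ 2 + (g.1 1 0) ^ 2 + (g.1 1 1) ^ 2 :=
    ((((entry_cont 0 0).pow 2).add ((entry_cont 0 1).pow 2)).add ((entry_cont 1 0).pow 2)).add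
      ((entry_cont 1 1).pow 2)
  obtain ⟨B, hB⟩ := hF.exists_bound_of_continuousOn hc.continuousOn
  obtain ⟨T0, hT0⟩ := exists_nat_ge B
  refine ⟨T0, fun θ t φ ht hg => ?_⟩
  have h1 := hB _ hg
  rw [sumsq, Real.norm_eq_abs] at h1
  have h2 := (le_abs_self _).trans h1
  have h3 := Real.add_one_le_exp t
  have h4 : 0 ≤ Real.exp (-t) ^ 2 := by positivity
  nlinarith

theorem rot_red (θ : ℝ) : ∃ θ' : ℝ, 0 ≤ θ' ∧ θ' ≤ 7 ∧ rot θ' = rot θ := by
  refine ⟨toIcoMod Real.two_pi_pos 0 θ, (toIcoMod_mem_Ico Real.two_pi_pos 0 θ).1, ?_, ?_⟩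
  · have h1 := (toIcoMod_mem_Ico Real.two_pi_pos 0 θ).2
    have h2 := Real.pi_lt_d2
    linarith
  · have h1 : toIcoMod Real.two_pi_pos 0 θ = θ - toIcoDiv Real.two_pi_pos 0 θ • (2 * Real.pi) :=
      (self_sub_toIcoDiv_zsmul Real.two_pi_pos 0 θ).symm
    apply Subtype.ext
    rw [rot_val, rot_val, h1, Real.cos_periodic.sub_zsmul_eq, Real.sin_periodic.sub_zsmul_eq]

/-- a grid point near a nonnegative number -/
theorem grid {x : ℝ} {L d : ℕ} (hd : 0 < d) (hx : 0 ≤ x) (hxL : x ≤ L) :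
    ∃ i ∈ Finset.range (L * d + 1), |x - (i : ℝ) / d| ≤ 1 / d := by
  have hd' : (0 : ℝ) < d := by exact_mod_cast hd
  refine ⟨⌊x * d⌋₊, ?_, ?_⟩
  · rw [Finset.mem_range]
    have h1 : (⌊x * d⌋₊ : ℝ) ≤ x * d := Nat.floor_le (by positivity)
    have h2 : (⌊x * d⌋₊ : ℝ) ≤ ((L * d : ℕ) : ℝ) := by
      push_cast
      exact h1.trans (mul_le_mul_of_nonneg_right hxL hd'.le)
    have h3 : ⌊x * d⌋₊ ≤ L * d := by exact_mod_cast h2
    omega
  · have h1 : (⌊x * d⌋₊ : ℝ) ≤ x * d := Nat.floor_le (by positivity)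
    have h2 : x * d < ⌊x * d⌋₊ + 1 := Nat.lt_floor_add_one _
    have h3 : x - (⌊x * d⌋₊ : ℝ) / d = (x * d - ⌊x * d⌋₊) / d := by field_simp
    rw [h3, abs_of_nonneg (div_nonneg (by linarith) hd'.le)]
    exact div_le_div_of_nonneg_right (by linarith) hd'.le

theorem exp_lip (m : ℤ) (x y : ℝ) :
    ‖Complex.exp (Complex.I * (m * x)) - Complex.exp (Complex.I * (m * y))‖ ≤
      (1 + |(m : ℝ)|) * |x - y| := by
  have h1 : Complex.exp (Complex.I * (m * x)) - Complex.exp (Complex.I * (m * y)) =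
      Complex.exp (((m * y : ℝ) : ℂ) * Complex.I) *
        (Complex.exp (Complex.I * ((m * (x - y) : ℝ) : ℂ)) - 1) := by
    rw [mul_sub, mul_one, ← Complex.exp_add]
    congr 2
    · push_cast
      ring
    · push_cast
      ring
  rw [h1, norm_mul, Complex.norm_exp_ofReal_mul_I, one_mul]
  refine (Real.norm_exp_I_mul_ofReal_sub_one_le).trans ?_
  rw [norm_mul, Real.norm_eq_abs, Real.norm_eq_abs]
  exact mul_le_mul_of_nonneg_right (by linarith [abs_nonneg (m : ℝ)]) (abs_nonneg _)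

section aut

variable {D : Rep} {p : D.H → ℝ}

theorem p_sub {C0 : ℝ} (hS : IsSem D C0 p) {x y : D.H} (hx : x ∈ D.E) (hy : y ∈ D.E) :
    p (x - y) ≤ p x + p y := by
  have h1 := hS.add x hx (((-1 : ℂ)) • y) (D.E.smul_mem _ hy)
  rw [hS.smul _ y hy, norm_neg, norm_one, one_mul, neg_one_smul, ← sub_eq_add_neg] at h1
  exact h1

/-- the derivative vectors -/
theorem dAct_le {C0 : ℝ} (hS : IsSem D C0 p) {Ca Ce : ℝ} (hCa0 : 0 ≤ Ca) (hCe0 : 0 ≤ Ce)
    (hCa : ∀ m, ‖D.a m‖ ≤ Ca * (1 + |(m : ℝ)|)) (hCe : ∀ m, p (D.e m) ≤ Ce * (1 + |(m : ℝ)|))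
    {X : Matrix (Fin 2) (Fin 2) ℝ} {B : ℝ} (hB : ∀ i j, |X i j| ≤ B) (m : ℤ) :
    p (dAct D.a D.e X m) ≤ B * (24 * Ca * Ce + Ce) * (1 + |(m : ℝ)|) ^ 2 := by
  have hB0 : 0 ≤ B := (abs_nonneg _).trans (hB 0 0)
  set M : ℝ := 1 + |(m : ℝ)| with hM
  have hM1 : 1 ≤ M := by rw [hM]; linarith [abs_nonneg (m : ℝ)]
  have hMp : 1 + |((m + 2 : ℤ) : ℝ)| ≤ 3 * M := by
    push_cast
    have := abs_add_le (m : ℝ) 2
    rw [abs_of_pos (by norm_num : (0 : ℝ) < 2)] at this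
    rw [hM]
    linarith [abs_nonneg (m : ℝ)]
  have hMm : 1 + |((m - 2 : ℤ) : ℝ)| ≤ 3 * M := by
    push_cast
    have := abs_sub (m : ℝ) 2
    rw [abs_of_pos (by norm_num : (0 : ℝ) < 2)] at this
    rw [hM]
    linarith [abs_nonneg (m : ℝ)]
  have e1 : D.e (m + 2) ∈ D.E := e_mem D _
  have e2 : D.e (m - 2) ∈ D.E := e_mem D _
  have e3 : D.e m ∈ D.E := e_mem D _
  have q1 : p (D.a m • D.e (m + 2)) ≤ (Ca * M) * (Ce * (3 * M)) := by
    rw [hS.smul _ _ e1]
    exact mul_le_mul (hCa m) ((hCe _).trans (mul_le_mul_of_nonneg_left hMp hCe0))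
      (hS.nonneg _ e1) (by positivity)
  have q2 : p (conj (D.a (m - 2)) • D.e (m - 2)) ≤ (Ca * (3 * M)) * (Ce * (3 * M)) := by
    rw [hS.smul _ _ e2, RCLike.norm_conj]
    exact mul_le_mul ((hCa _).trans (mul_le_mul_of_nonneg_left hMm hCa0))
      ((hCe _).trans (mul_le_mul_of_nonneg_left hMm hCe0)) (hS.nonneg _ e2) (by positivity)
  have m1 : D.a m • D.e (m + 2) ∈ D.E := D.E.smul_mem _ e1
  have m2 : conj (D.a (m - 2)) • D.e (m - 2) ∈ D.E := D.E.smul_mem _ e2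
  have r1 : p (((X 0 0 : ℝ) : ℂ) • (D.a m • D.e (m + 2) - conj (D.a (m - 2)) • D.e (m - 2))) ≤
      B * (12 * Ca * Ce * M ^ 2) := by
    rw [hS.smul _ _ (D.E.sub_mem m1 m2), Complex.norm_real, Real.norm_eq_abs]
    refine mul_le_mul (hB 0 0) ((p_sub hS m1 m2).trans ?_) (hS.nonneg _ (D.E.sub_mem m1 m2)) hB0
    calc _ ≤ (Ca * M) * (Ce * (3 * M)) + (Ca * (3 * M)) * (Ce * (3 * M)) := add_le_add q1 q2
      _ = _ := by ring
  have r2 : p ((((X 0 1 + X 1 0) / 2 : ℝ) : ℂ) • ((-Complex.I) •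
      (D.a m • D.e (m + 2) + conj (D.a (m - 2)) • D.e (m - 2)))) ≤ B * (12 * Ca * Ce * M ^ 2) := by
    rw [hS.smul _ _ (D.E.smul_mem _ (D.E.add_mem m1 m2)), hS.smul _ _ (D.E.add_mem m1 m2),
      Complex.norm_real, Real.norm_eq_abs, norm_neg, Complex.norm_I, one_mul]
    refine mul_le_mul ?_ ((hS.add _ m1 _ m2).trans ?_) (hS.nonneg _ (D.E.add_mem m1 m2)) hB0
    · rw [abs_div, abs_of_pos (by norm_num : (0 : ℝ) < 2), div_le_iff₀ (by norm_num)]
      have := abs_add_le (X 0 1) (X 1 0)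
      linarith [hB 0 1, hB 1 0]
    · calc _ ≤ (Ca * M) * (Ce * (3 * M)) + (Ca * (3 * M)) * (Ce * (3 * M)) := add_le_add q1 q2
        _ = _ := by ring
  have r3 : p ((((X 0 1 - X 1 0) / 2 : ℝ) : ℂ) • ((Complex.I * m) • D.e m)) ≤ B * (Ce * M ^ 2) := by
    rw [hS.smul _ _ (D.E.smul_mem _ e3), hS.smul _ _ e3, Complex.norm_real, Real.norm_eq_abs,
      norm_mul, Complex.norm_I, one_mul]
    refine mul_le_mul ?_ ?_ (mul_nonneg (norm_nonneg _) (hS.nonneg _ e3)) hB0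
    · rw [abs_div, abs_of_pos (by norm_num : (0 : ℝ) < 2), div_le_iff₀ (by norm_num)]
      have := abs_sub (X 0 1) (X 1 0)
      linarith [hB 0 1, hB 1 0]
    · have h1 : ‖(m : ℂ)‖ ≤ M := by
        rw [Complex.norm_intCast, hM]
        linarith
      calc ‖(m : ℂ)‖ * p (D.e m) ≤ M * (Ce * M) :=
            mul_le_mul h1 (hCe m) (hS.nonneg _ e3) (by positivity)
        _ = Ce * M ^ 2 := by ring
  have n1 : ((X 0 0 : ℝ) : ℂ) • (D.a m • D.e (m + 2) - conj (D.a (m - 2)) • D.e (m - 2)) ∈ D.E :=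
    D.E.smul_mem _ (D.E.sub_mem m1 m2)
  have n2 : (((X 0 1 + X 1 0) / 2 : ℝ) : ℂ) • ((-Complex.I) •
      (D.a m • D.e (m + 2) + conj (D.a (m - 2)) • D.e (m - 2))) ∈ D.E :=
    D.E.smul_mem _ (D.E.smul_mem _ (D.E.add_mem m1 m2))
  have n3 : (((X 0 1 - X 1 0) / 2 : ℝ) : ℂ) • ((Complex.I * m) • D.e m) ∈ D.E :=
    D.E.smul_mem _ (D.E.smul_mem _ e3)
  have h1 := hS.add _ (D.E.add_mem n1 n2) _ n3
  have h2 := hS.add _ n1 _ n2
  change p (dAct D.a D.e X m) ≤ _ at h1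
  calc p (dAct D.a D.e X m) ≤ B * (12 * Ca * Ce * M ^ 2) + B * (12 * Ca * Ce * M ^ 2) +
        B * (Ce * M ^ 2) := by linarith
    _ = _ := by ring

end aut

end ModNETX

open ModNETX ModUPP ModALG in
theorem netx (hKAP : StmKAP) (hKAK : StmKAK) (hLIP : StmLIP) (hUPP : StmUPP) : StmNETX := by
  classical
  intro D Γ F η hA
  set p : D.H → ℝ := pAut D η with hp
  have hN : IsGNorm D p := hA.norm
  obtain ⟨C0, hC0, hS⟩ := isSem hN
  have hη : ∀ x ∈ D.E, ∀ g, ‖η (D.π g x)‖ ≤ p x := fun x hx g => le_ciSup (hA.bdd x hx) g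
  obtain ⟨Ca0, hCa0'⟩ := (hKAP D).2.1
  set Ca : ℝ := max Ca0 0 with hCadef
  have hCa0 : 0 ≤ Ca := le_max_right _ _
  have hCa : ∀ m, ‖D.a m‖ ≤ Ca * (1 + |(m : ℝ)|) := fun m =>
    (hCa0' m).trans (mul_le_mul_of_nonneg_right (le_max_left _ _) (by positivity))
  obtain ⟨Ce, hCe0, hCe'⟩ := hUPP D p hN
  have hCe : ∀ m, p (D.e m) ≤ Ce * (1 + |(m : ℝ)|) := by
    intro m
    have h1 := hCe' (m.natAbs + 1) (by omega) {m} (fun _ => 1) (by
      intro j hj
      rw [Finset.mem_singleton.1 hj]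
      push_cast
      have := abs_nonneg m
      linarith)
    have h2 : D.vec {m} (fun _ => (1 : ℂ)) = D.e m := by
      unfold Rep.vec
      rw [Finset.sum_singleton, one_smul]
    rw [h2] at h1
    simp only [Finset.sum_singleton, norm_one, one_pow, Real.sqrt_one, mul_one] at h1
    refine h1.trans (mul_le_mul_of_nonneg_left ?_ hCe0.le)
    have h3 : ((m.natAbs + 1 : ℕ) : ℝ) = 1 + |(m : ℝ)| := by
      push_cast
      rw [Nat.cast_natAbs]
      push_cast
      ring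
    rw [h3]
    have h4 : 1 ≤ 1 + |(m : ℝ)| := by linarith [abs_nonneg (m : ℝ)]
    rw [Real.sqrt_le_left (by positivity)]
    nlinarith
  obtain ⟨T0, hT0⟩ := bound_t F hA.compact
  -- constants
  set Bd : ℝ := Real.exp (2 * (T0 + 1)) with hBd
  have hBd1 : 1 ≤ Bd := Real.one_le_exp (by positivity)
  set K1 : ℝ := Ce + C0 * (Bd * (24 * Ca * Ce + Ce)) with hK1
  have hK10 : 0 < K1 := by positivity
  -- the three steps
  have hdil : ∀ (m : ℤ) (g : G) (s : ℝ), ‖η (D.π g (D.π (dil s) (D.e m) - D.e m))‖ ≤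
      K1 * (1 + |(m : ℝ)|) ^ 2 * |s| := by
    intro m g s
    have h1 := (hLIP D C0 p hS dil !![1, 0; 0, -1] dil_oneParam m s).1
    have h2 := dAct_le hS hCa0 hCe0.le hCa hCe (X := !![1, 0; 0, -1]) (B := Bd) (by
      intro i j
      fin_cases i <;> fin_cases j <;> simp <;> linarith) m
    have h3 := hη (D.π (dil s) (D.e m) - D.e m) (D.E.sub_mem (pi_mem D _ _) (e_mem D _)) g
    refine h3.trans (h1.trans ?_)
    calc C0 * |s| * p (dAct D.a D.e !![1, 0; 0, -1] m)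
        ≤ C0 * |s| * (Bd * (24 * Ca * Ce + Ce) * (1 + |(m : ℝ)|) ^ 2) := by gcongr
      _ = (C0 * (Bd * (24 * Ca * Ce + Ce))) * (1 + |(m : ℝ)|) ^ 2 * |s| := by ring
      _ ≤ K1 * (1 + |(m : ℝ)|) ^ 2 * |s| := by
          gcongr
          rw [hK1]
          linarith
  have hrot : ∀ (m : ℤ) (g : G) (t s : ℝ), |t| ≤ T0 + 1 →
      ‖η (D.π g (D.π (dil t * rot s * dil (-t)) (D.e m) - D.e m))‖ ≤
      K1 * (1 + |(m : ℝ)|) ^ 2 * |s| := by
    intro m g t s ht
    have h1 := (hLIP D C0 p hS (fun θ => dil t * rot θ * dil (-t)) _ (conj_oneParam t) m s).1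
    have hb1 : Real.exp (2 * t) ≤ Bd := by
      rw [hBd]
      apply Real.exp_le_exp.2
      linarith [(abs_le.1 ht).2]
    have hb2 : Real.exp (-(2 * t)) ≤ Bd := by
      rw [hBd]
      apply Real.exp_le_exp.2
      linarith [(abs_le.1 ht).1]
    have h2 := dAct_le hS hCa0 hCe0.le hCa hCe
      (X := !![0, Real.exp (2 * t); -Real.exp (-(2 * t)), 0]) (B := Bd) (by
      intro i j
      fin_cases i <;> fin_cases j
      · simp; linarith
      · simp only [Matrix.of_apply, Matrix.cons_val', Matrix.cons_val_zero, Matrix.cons_val_one,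
          Matrix.cons_val_fin_one, Fin.zero_eta, Fin.mk_one]
        rw [abs_of_pos (Real.exp_pos _)]
        exact hb1
      · simp only [Matrix.of_apply, Matrix.cons_val', Matrix.cons_val_zero, Matrix.cons_val_one,
          Matrix.cons_val_fin_one, Fin.zero_eta, Fin.mk_one]
        rw [abs_neg, abs_of_pos (Real.exp_pos _)]
        exact hb2
      · simp; linarith) m
    have h3 := hη (D.π (dil t * rot s * dil (-t)) (D.e m) - D.e m)
      (D.E.sub_mem (pi_mem D _ _) (e_mem D _)) g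
    refine h3.trans (h1.trans ?_)
    calc C0 * |s| * p (dAct D.a D.e !![0, Real.exp (2 * t); -Real.exp (-(2 * t)), 0] m)
        ≤ C0 * |s| * (Bd * (24 * Ca * Ce + Ce) * (1 + |(m : ℝ)|) ^ 2) := by gcongr
      _ = (C0 * (Bd * (24 * Ca * Ce + Ce))) * (1 + |(m : ℝ)|) ^ 2 * |s| := by ring
      _ ≤ K1 * (1 + |(m : ℝ)|) ^ 2 * |s| := by
          gcongr
          rw [hK1]
          linarith
  -- total variation
  have hpi : ∀ (g : G) (φ : ℝ) (m : ℤ), η (D.π (g * rot φ) (D.e m)) =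
      Complex.exp (Complex.I * (m * φ)) * η (D.π g (D.e m)) := by
    intro g φ m
    rw [pi_mul, D.rot_e, map_smul, map_smul, smul_eq_mul]
  have hexp1 : ∀ (m : ℤ) (φ : ℝ), ‖Complex.exp (Complex.I * (m * φ))‖ = 1 := by
    intro m φ
    rw [show Complex.I * (m * φ) = ((m * φ : ℝ) : ℂ) * Complex.I by push_cast; ring,
      Complex.norm_exp_ofReal_mul_I]
  have htot : ∀ (m : ℤ) (θ θ' t t' φ φ' : ℝ), |t'| ≤ T0 + 1 →
      ‖η (D.π (rot θ * dil t * rot φ) (D.e m)) - η (D.π (rot θ' * dil t' * rot φ') (D.e m))‖ ≤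
      K1 * (1 + |(m : ℝ)|) ^ 2 * (|θ - θ'| + |t - t'| + |φ - φ'|) := by
    intro m θ θ' t t' φ φ' ht'
    have hM1 : 1 ≤ 1 + |(m : ℝ)| := by linarith [abs_nonneg (m : ℝ)]
    -- phi
    have s1 : ‖η (D.π (rot θ * dil t * rot φ) (D.e m)) - η (D.π (rot θ * dil t * rot φ') (D.e m))‖ ≤
        K1 * (1 + |(m : ℝ)|) ^ 2 * |φ - φ'| := by
      rw [hpi, hpi, ← sub_mul, norm_mul]
      calc ‖Complex.exp (Complex.I * (m * φ)) - Complex.exp (Complex.I * (m * φ'))‖ *
            ‖η (D.π (rot θ * dil t) (D.e m))‖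
          ≤ ((1 + |(m : ℝ)|) * |φ - φ'|) * (Ce * (1 + |(m : ℝ)|)) :=
            mul_le_mul (exp_lip m φ φ') ((hη _ (e_mem D m) _).trans (hCe m)) (norm_nonneg _)
              (by positivity)
        _ = Ce * (1 + |(m : ℝ)|) ^ 2 * |φ - φ'| := by ring
        _ ≤ _ := by
            have : Ce ≤ K1 := by
              rw [hK1]
              have : 0 ≤ C0 * (Bd * (24 * Ca * Ce + Ce)) := by positivity
              linarith
            gcongr
    -- t
    have s2 : ‖η (D.π (rot θ * dil t * rot φ') (D.e m)) -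
        η (D.π (rot θ * dil t' * rot φ') (D.e m))‖ ≤ K1 * (1 + |(m : ℝ)|) ^ 2 * |t - t'| := by
      rw [hpi, hpi, ← mul_sub, norm_mul, hexp1, one_mul]
      have h1 : dil t = dil t' * dil (t - t') := by rw [← dil_add]; congr 1; ring
      have h2 : η (D.π (rot θ * dil t) (D.e m)) - η (D.π (rot θ * dil t') (D.e m)) =
          η (D.π (rot θ * dil t') (D.π (dil (t - t')) (D.e m) - D.e m)) := by
        rw [map_sub, map_sub, ← pi_mul, mul_assoc, ← h1]
      rw [h2]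
      exact hdil m _ _
    -- theta
    have s3 : ‖η (D.π (rot θ * dil t' * rot φ') (D.e m)) -
        η (D.π (rot θ' * dil t' * rot φ') (D.e m))‖ ≤ K1 * (1 + |(m : ℝ)|) ^ 2 * |θ - θ'| := by
      rw [hpi, hpi, ← mul_sub, norm_mul, hexp1, one_mul]
      have h1 : rot θ = rot θ' * rot (θ - θ') := by rw [← rot_add]; congr 1; ring
      have h3 : rot θ' * dil t' * (dil (-t') * rot (θ - θ') * dil (- -t')) = rot θ * dil t' := by
        rw [neg_neg, h1]
        calc rot θ' * dil t' * (dil (-t') * rot (θ - θ') * dil t')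
            = rot θ' * (dil t' * dil (-t')) * rot (θ - θ') * dil t' := by simp only [mul_assoc]
          _ = _ := by rw [dil_mul_neg, mul_one]
      have h2 : η (D.π (rot θ * dil t') (D.e m)) - η (D.π (rot θ' * dil t') (D.e m)) =
          η (D.π (rot θ' * dil t')
            (D.π (dil (-t') * rot (θ - θ') * dil (- -t')) (D.e m) - D.e m)) := by
        rw [map_sub, map_sub, ← pi_mul, h3]
      rw [h2]
      exact hrot m _ (-t') _ (by rwa [abs_neg])
    calc ‖η (D.π (rot θ * dil t * rot φ) (D.e m)) - η (D.π (rot θ' * dil t' * rot φ') (D.e m))‖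
        = ‖(η (D.π (rot θ * dil t * rot φ) (D.e m)) - η (D.π (rot θ * dil t * rot φ') (D.e m))) +
          (η (D.π (rot θ * dil t * rot φ') (D.e m)) - η (D.π (rot θ * dil t' * rot φ') (D.e m))) +
          (η (D.π (rot θ * dil t' * rot φ') (D.e m)) -
            η (D.π (rot θ' * dil t' * rot φ') (D.e m)))‖ := by
          congr 1
          ring
      _ ≤ _ := norm_add₃_le
      _ ≤ K1 * (1 + |(m : ℝ)|) ^ 2 * |φ - φ'| + K1 * (1 + |(m : ℝ)|) ^ 2 * |t - t'| +
          K1 * (1 + |(m : ℝ)|) ^ 2 * |θ - θ'| := by linarith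
      _ = _ := by ring
  -- the net
  obtain ⟨K2, hK2⟩ := exists_nat_ge (405 * K1)
  have hK2pos : 0 < K2 := by
    have : (0 : ℝ) < K2 := lt_of_lt_of_le (by positivity) hK2
    exact_mod_cast this
  refine ⟨64 * (T0 + 1) * (K2 : ℝ) ^ 3, 12, by positivity, ?_⟩
  intro n hn
  have hn1 : (1 : ℝ) ≤ n := by exact_mod_cast hn
  set d : ℕ := K2 * n ^ 4 with hd
  have hdpos : 0 < d := by positivity
  have hd' : (0 : ℝ) < d := by exact_mod_cast hdpos
  let f : ℕ × ℕ × ℕ → G := fun x => rot ((x.1 : ℝ) / d) * dil ((x.2.1 : ℝ) / d) *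
    rot ((x.2.2 : ℝ) / d)
  let Q : Finset G := (Finset.range (7 * d + 1) ×ˢ Finset.range (T0 * d + 1) ×ˢ
    Finset.range (7 * d + 1)).image f
  refine ⟨Q, ?_, ?_⟩
  · have h1 : Q.card ≤ (7 * d + 1) * ((T0 * d + 1) * (7 * d + 1)) := by
      refine Finset.card_image_le.trans ?_
      rw [Finset.card_product, Finset.card_product, Finset.card_range, Finset.card_range]
    have h2 : (7 * d + 1) * ((T0 * d + 1) * (7 * d + 1)) ≤ (8 * d) * (((T0 + 1) * d) * (8 * d)) := by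
      have h3 : 7 * d + 1 ≤ 8 * d := by omega
      have h4 : T0 * d + 1 ≤ (T0 + 1) * d := by rw [add_mul]; omega
      exact Nat.mul_le_mul h3 (Nat.mul_le_mul h4 h3)
    have h5 : (Q.card : ℝ) ≤ ((8 * d) * (((T0 + 1) * d) * (8 * d)) : ℕ) := by
      exact_mod_cast h1.trans h2
    refine h5.trans (le_of_eq ?_)
    rw [hd]
    push_cast
    ring
  · intro c hc M hM hQ
    have hcard : ((blk n).card : ℝ) ≤ 5 * n := by
      have h1 : (blk n).card ≤ 5 * n := by
        unfold blk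
        refine (Finset.card_filter_le _ _).trans ?_
        rw [Int.card_Icc]
        omega
      exact_mod_cast h1
    have hblk : ∀ m ∈ blk n, |(m : ℝ)| ≤ 2 * n := by
      intro m hm
      unfold blk at hm
      rw [Finset.mem_filter, Finset.mem_Icc] at hm
      have : |m| ≤ 2 * (n : ℤ) := abs_le.2 ⟨hm.1.1, hm.1.2⟩
      exact_mod_cast this
    have hexpand : ∀ g, η (D.π g (D.vec (blk n) c)) = ∑ m ∈ blk n, c m * η (D.π g (D.e m)) := by
      intro g
      unfold Rep.vec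
      rw [map_sum, map_sum]
      refine Finset.sum_congr rfl fun m _ => ?_
      rw [map_smul, map_smul, smul_eq_mul]
    have hvE : D.vec (blk n) c ∈ D.E :=
      Submodule.sum_mem _ fun m _ => Submodule.smul_mem _ _ (e_mem D _)
    refine ciSup_le fun g => ?_
    obtain ⟨γ, hγ, y, hy, rfl⟩ := hA.cover g
    have hyE : D.π y (D.vec (blk n) c) ∈ D.E := by
      unfold Rep.vec
      rw [map_sum]
      refine Submodule.sum_mem _ fun m _ => ?_
      rw [map_smul]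
      exact Submodule.smul_mem _ _ (pi_mem D _ _)
    rw [pi_mul, hA.inv γ hγ _ hyE, hexpand]
    obtain ⟨θ0, t, φ0, ht, hyeq⟩ := hKAK y
    have htT : t ≤ T0 := hT0 θ0 t φ0 ht (by rw [← hyeq]; exact hy)
    obtain ⟨θ, hθ0, hθ7, hθ⟩ := rot_red θ0
    obtain ⟨φ, hφ0, hφ7, hφ⟩ := rot_red φ0
    rw [← hθ, ← hφ] at hyeq
    obtain ⟨i, hi, hi'⟩ := grid (L := 7) hdpos hθ0 (by exact_mod_cast hθ7)
    obtain ⟨j, hj, hj'⟩ := grid (L := T0) hdpos ht htT
    obtain ⟨l, hl, hl'⟩ := grid (L := 7) hdpos hφ0 (by exact_mod_cast hφ7)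
    have hq : f (i, j, l) ∈ Q := Finset.mem_image_of_mem _
      (Finset.mem_product.2 ⟨hi, Finset.mem_product.2 ⟨hj, hl⟩⟩)
    have hq2 := hQ _ hq
    have htj : |(j : ℝ) / d| ≤ T0 + 1 := by
      rw [Finset.mem_range] at hj
      rw [abs_of_nonneg (by positivity), div_le_iff₀ hd']
      have h1 : (j : ℝ) ≤ ((T0 * d : ℕ) : ℝ) := by exact_mod_cast (by omega : j ≤ T0 * d)
      push_cast at h1
      nlinarith
    have hdiff : ∀ m ∈ blk n, ‖c m * η (D.π y (D.e m)) - c m * η (D.π (f (i, j, l)) (D.e m))‖ ≤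
        81 * K1 * n ^ 3 / d := by
      intro m hm
      rw [← mul_sub, norm_mul, hyeq]
      have h1 := htot m θ ((i : ℝ) / d) t ((j : ℝ) / d) φ ((l : ℝ) / d) htj
      have h2 : |θ - (i : ℝ) / d| + |t - (j : ℝ) / d| + |φ - (l : ℝ) / d| ≤ 3 / d := by
        have : (3 : ℝ) / d = 1 / d + 1 / d + 1 / d := by ring
        rw [this]
        linarith
      have h3 : 1 + |(m : ℝ)| ≤ 3 * n := by linarith [hblk m hm]
      have h4 : (1 + |(m : ℝ)|) ^ 2 ≤ (3 * n) ^ 2 := pow_le_pow_left₀ (by positivity) h3 2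
      calc ‖c m‖ * ‖η (D.π (rot θ * dil t * rot φ) (D.e m)) - η (D.π (f (i, j, l)) (D.e m))‖
          ≤ (3 * n) * (K1 * (1 + |(m : ℝ)|) ^ 2 *
              (|θ - (i : ℝ) / d| + |t - (j : ℝ) / d| + |φ - (l : ℝ) / d|)) :=
            mul_le_mul (hc m hm) h1 (norm_nonneg _) (by positivity)
        _ ≤ (3 * n) * (K1 * (3 * n) ^ 2 * (3 / d)) := by gcongr
        _ = 81 * K1 * n ^ 3 / d := by ring
    calc ‖∑ m ∈ blk n, c m * η (D.π y (D.e m))‖
        = ‖(∑ m ∈ blk n, c m * η (D.π (f (i, j, l)) (D.e m))) +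
            ∑ m ∈ blk n, (c m * η (D.π y (D.e m)) - c m * η (D.π (f (i, j, l)) (D.e m)))‖ := by
          rw [← Finset.sum_add_distrib]
          congr 1
          refine Finset.sum_congr rfl fun m _ => by ring
      _ ≤ ‖∑ m ∈ blk n, c m * η (D.π (f (i, j, l)) (D.e m))‖ +
            ‖∑ m ∈ blk n, (c m * η (D.π y (D.e m)) - c m * η (D.π (f (i, j, l)) (D.e m)))‖ :=
          norm_add_le _ _
      _ ≤ M + ∑ m ∈ blk n, 81 * K1 * n ^ 3 / d :=
          add_le_add hq2 ((norm_sum_le _ _).trans (Finset.sum_le_sum hdiff))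
      _ ≤ M + 1 := by
          rw [Finset.sum_const, nsmul_eq_mul]
          have h5 : ((blk n).card : ℝ) * (81 * K1 * n ^ 3 / d) ≤ (5 * n) * (81 * K1 * n ^ 3 / d) :=
            mul_le_mul_of_nonneg_right hcard (by positivity)
          have h6 : (5 * (n : ℝ)) * (81 * K1 * n ^ 3 / d) ≤ 1 := by
            rw [hd]
            push_cast
            rw [← mul_div_assoc, div_le_one (by positivity)]
            have h7 : (0 : ℝ) ≤ (n : ℝ) ^ 4 := by positivity
            nlinarith [mul_le_mul_of_nonneg_right hK2 h7]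
          linarith

end Pool.Agent.T6.H28.SN
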