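import Pool.Agent.T6.H28.SN.Stm

set_option autoImplicit false

open scoped InnerProductSpace ComplexConjugate Topology ENNReal Pointwise
open Filter MeasureTheory

namespace Pool.Agent.T6.H28.SN

namespace ModPOS

/-- the left invariant set `Γ g O` -/
def U (Γ : Subgroup G) (O : Set G) (g : G) : Set G := {x | ∃ γ ∈ Γ, ∃ h ∈ O, x = γ * g * h}

theorem isOpen_U (Γ : Subgroup G) {O : Set G} (hO : IsOpen O) (g : G) : IsOpen (U Γ O g) := by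
  have : U Γ O g = ⋃ γ ∈ Γ, (fun x => γ * g * x) '' O := by
    ext x
    simp only [U, Set.mem_setOf_eq, Set.mem_iUnion, Set.mem_image, exists_prop]
    constructor
    · rintro ⟨γ, hγ, h, hh, rfl⟩; exact ⟨γ, hγ, h, hh, rfl⟩
    · rintro ⟨γ, hγ, h, hh, rfl⟩; exact ⟨γ, hγ, h, hh, rfl⟩
  rw [this]
  exact isOpen_biUnion fun γ _ => isOpenMap_mul_left (γ * g) _ hO

theorem left_inv (Γ : Subgroup G) (O : Set G) (g γ x : G) (hγ : γ ∈ Γ) :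
    γ * x ∈ U Γ O g ↔ x ∈ U Γ O g := by
  constructor
  · rintro ⟨δ, hδ, h, hh, e⟩
    exact ⟨γ⁻¹ * δ, Γ.mul_mem (Γ.inv_mem hγ) hδ, h, hh, by
      rw [mul_assoc, mul_assoc, ← mul_assoc δ, ← e]; group⟩
  · rintro ⟨δ, hδ, h, hh, e⟩
    exact ⟨γ * δ, Γ.mul_mem hγ hδ, h, hh, by rw [e]; group⟩

/-- right translates have the same measure -/
theorem right_inv (Γ : Subgroup G) (μ : Measure G)
    (hinv : ∀ f : G → ℝ≥0∞, Measurable f → (∀ γ ∈ Γ, ∀ g, f (γ * g) = f g) → ∀ h,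
      ∫⁻ g, f (g * h) ∂μ = ∫⁻ g, f g ∂μ) {O : Set G} (hO : IsOpen O) (g h : G) :
    μ {x | x * h ∈ U Γ O g} = μ (U Γ O g) := by
  classical
  have hm : MeasurableSet (U Γ O g) := (isOpen_U Γ hO g).measurableSet
  have h1 := hinv ((U Γ O g).indicator fun _ => 1) (measurable_const.indicator hm) (by
    intro γ hγ x
    by_cases hx : x ∈ U Γ O g
    · rw [Set.indicator_of_mem hx, Set.indicator_of_mem ((left_inv Γ O g γ x hγ).2 hx)]
    · rw [Set.indicator_of_notMem hx,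
        Set.indicator_of_notMem (fun h' => hx ((left_inv Γ O g γ x hγ).1 h'))]) h
  have hm2 : MeasurableSet {x | x * h ∈ U Γ O g} := by
    have : IsOpen {x | x * h ∈ U Γ O g} := (isOpen_U Γ hO g).preimage (continuous_mul_const h)
    exact this.measurableSet
  have h2 : (fun x => (U Γ O g).indicator (fun _ => (1 : ℝ≥0∞)) (x * h)) =
      ({x | x * h ∈ U Γ O g}).indicator fun _ => 1 := by
    funext x
    by_cases hx : x * h ∈ U Γ O g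
    · rw [Set.indicator_of_mem hx, Set.indicator_of_mem (show x ∈ {x | x * h ∈ U Γ O g} from hx)]
    · rw [Set.indicator_of_notMem hx,
        Set.indicator_of_notMem (show x ∉ {x | x * h ∈ U Γ O g} from hx)]
  rw [h2, lintegral_indicator hm2, lintegral_indicator hm] at h1
  simpa using h1

theorem nbhd {O : Set G} (hO : IsOpen O) (h1O : (1 : G) ∈ O) : ∃ O1 : Set G, IsOpen O1 ∧
    (1 : G) ∈ O1 ∧ ∀ x ∈ O1, ∀ y ∈ O1, x⁻¹ * y ∈ O := by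
  obtain ⟨V, hV, h1, h2⟩ := exists_open_nhds_one_split (hO.mem_nhds h1O)
  refine ⟨V ∩ (fun x => x⁻¹) ⁻¹' V, hV.inter (hV.preimage continuous_inv), ⟨h1, ?_⟩, ?_⟩
  · show (1 : G)⁻¹ ∈ V
    rw [inv_one]; exact h1
  · intro x hx y hy
    exact h2 _ hx.2 _ hy.1

theorem cover1 {F : Set G} (hF : IsCompact F) {O1 : Set G} (hO1 : IsOpen O1) (h1O1 : (1 : G) ∈ O1)
    (g : G) : ∃ T : Finset G, ∀ x ∈ F, ∃ h ∈ T, ∃ y ∈ O1, g * y = x * h := by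
  obtain ⟨T, hT⟩ := hF.elim_finite_subcover (fun h : G => (fun x => g⁻¹ * (x * h)) ⁻¹' O1)
    (fun h => hO1.preimage ((continuous_const_mul g⁻¹).comp (continuous_mul_const h))) (by
      intro x _
      refine Set.mem_iUnion.2 ⟨x⁻¹ * g, ?_⟩
      show g⁻¹ * (x * (x⁻¹ * g)) ∈ O1
      rw [mul_inv_cancel_left, inv_mul_cancel]; exact h1O1)
  refine ⟨T, fun x hx => ?_⟩
  obtain ⟨h, hh, hy⟩ := Set.mem_iUnion₂.1 (hT hx)
  exact ⟨h, hh, _, hy, mul_inv_cancel_left g (x * h)⟩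

theorem cover2 {F : Set G} (hF : IsCompact F) {O1 : Set G} (hO1 : IsOpen O1) (h1O1 : (1 : G) ∈ O1) :
    ∃ T : Finset G, ∀ x ∈ F, ∃ f ∈ T, ∃ y ∈ O1, f * y = x := by
  obtain ⟨T, hT⟩ := hF.elim_finite_subcover (fun f : G => (fun x => f⁻¹ * x) ⁻¹' O1)
    (fun f => hO1.preimage (continuous_const_mul f⁻¹)) (by
      intro x _
      refine Set.mem_iUnion.2 ⟨x, ?_⟩
      show x⁻¹ * x ∈ O1
      rw [inv_mul_cancel]; exact h1O1)
  refine ⟨T, fun x hx => ?_⟩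
  obtain ⟨h, hh, hy⟩ := Set.mem_iUnion₂.1 (hT hx)
  exact ⟨h, hh, _, hy, mul_inv_cancel_left h x⟩

theorem posU {Γ : Subgroup G} {F : Set G} (hF : IsCompact F)
    (hcov : ∀ g, ∃ γ ∈ Γ, ∃ f ∈ F, g = γ * f) {μ : Measure G} (hμ : μ ≠ 0)
    (hinv : ∀ f : G → ℝ≥0∞, Measurable f → (∀ γ ∈ Γ, ∀ g, f (γ * g) = f g) → ∀ h,
      ∫⁻ g, f (g * h) ∂μ = ∫⁻ g, f g ∂μ) {O1 : Set G} (hO1 : IsOpen O1) (h1O1 : (1 : G) ∈ O1)
    (g : G) : 0 < μ (U Γ O1 g) := by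
  by_contra h0
  have h0 : μ (U Γ O1 g) = 0 := le_antisymm (not_lt.1 h0) bot_le
  apply hμ
  obtain ⟨T, hT⟩ := cover1 hF hO1 h1O1 g
  have hall : Set.univ ⊆ ⋃ h ∈ T, {x | x * h ∈ U Γ O1 g} := by
    intro x _
    obtain ⟨γ, hγ, f, hf, rfl⟩ := hcov x
    obtain ⟨h, hh, y, hy, e⟩ := hT f hf
    refine Set.mem_iUnion₂.2 ⟨h, hh, γ, hγ, y, hy, ?_⟩
    rw [mul_assoc, mul_assoc, e]
  have h2 : μ Set.univ ≤ ∑ h ∈ T, μ {x | x * h ∈ U Γ O1 g} :=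
    (measure_mono hall).trans (measure_biUnion_finset_le _ _)
  have h3 : ∑ h ∈ T, μ {x | x * h ∈ U Γ O1 g} = 0 :=
    Finset.sum_eq_zero fun h _ => by rw [right_inv Γ μ hinv hO1 g h, h0]
  rw [h3] at h2
  exact Measure.measure_univ_eq_zero.1 (le_antisymm h2 bot_le)

theorem exists_min (T : Finset G) (f : G → ℝ≥0∞) (h : ∀ g, 0 < f g) :
    ∃ c : ℝ≥0∞, 0 < c ∧ ∀ g ∈ T, c ≤ f g := by
  classical
  induction T using Finset.induction_on with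
  | empty => exact ⟨1, one_pos, fun g hg => absurd hg (Finset.notMem_empty g)⟩
  | insert a T _ ih =>
    obtain ⟨c, hc, hT⟩ := ih
    refine ⟨min c (f a), lt_min hc (h a), fun g hg => ?_⟩
    rcases Finset.mem_insert.1 hg with rfl | hg
    · exact min_le_right _ _
    · exact (min_le_left _ _).trans (hT g hg)

theorem subU {Γ : Subgroup G} {O O1 : Set G} (hsub : ∀ x ∈ O1, ∀ y ∈ O1, x⁻¹ * y ∈ O)
    {γ0 f0 y : G} (hγ0 : γ0 ∈ Γ) (hy : y ∈ O1) : U Γ O1 f0 ⊆ U Γ O (γ0 * (f0 * y)) := by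
  rintro x ⟨γ, hγ, h, hh, rfl⟩
  refine ⟨γ * γ0⁻¹, Γ.mul_mem hγ (Γ.inv_mem hγ0), y⁻¹ * h, hsub y hy h hh, ?_⟩
  simp only [mul_assoc, inv_mul_cancel_left, mul_inv_cancel_left]

end ModPOS

open ModPOS in
theorem pos' : StmPOS := by
  intro Γ F hF hcov μ hμ hinv O hO h1O
  obtain ⟨O1, hO1, h1O1, hsub⟩ := nbhd hO h1O
  obtain ⟨T, hT⟩ := cover2 hF hO1 h1O1
  obtain ⟨c, hc, hcT⟩ := exists_min T (fun f => μ (U Γ O1 f))
    (fun f => posU hF hcov hμ hinv hO1 h1O1 f)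
  refine ⟨c, hc, fun g => ?_⟩
  obtain ⟨γ0, hγ0, f, hf, rfl⟩ := hcov g
  obtain ⟨f0, hf0, y, hy, rfl⟩ := hT f hf
  exact (hcT f0 hf0).trans (measure_mono (subU hsub hγ0 hy))

end Pool.Agent.T6.H28.SN
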