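import Pool.Agent.T6.H28.SN.Stm

/-!
# Random signs (module RAND)
-/

set_option autoImplicit false

open Filter MeasureTheory

namespace Pool.Agent.T6.H28.SN

namespace ModRAND

theorem signs {I : Type} [Fintype I] (r : I → ℤ → ℝ) (l : ℝ) (A : Finset ℤ) :
    ∀ w : I → ℝ, (∀ i, 0 ≤ w i) → ∃ ε : ℤ → ℝ, (∀ m, ε m = 1 ∨ ε m = -1) ∧
      ∑ i, w i * Real.exp (l * ∑ m ∈ A, ε m * r i m) ≤
        ∑ i, w i * Real.exp (l ^ 2 / 2 * ∑ m ∈ A, r i m ^ 2) := by
  classical
  induction A using Finset.induction_on with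
  | empty =>
    intro w hw
    exact ⟨fun _ => 1, fun _ => Or.inl rfl, by simp⟩
  | insert a A ha ih =>
    intro w hw
    have key : ∀ s : ℝ, (s = 1 ∨ s = -1) →
        (∑ i, (w i * Real.exp (l * (s * r i a))) * Real.exp (l ^ 2 / 2 * ∑ m ∈ A, r i m ^ 2) ≤
        ∑ i, w i * Real.exp (l ^ 2 / 2 * ∑ m ∈ insert a A, r i m ^ 2)) →
        ∃ ε : ℤ → ℝ, (∀ m, ε m = 1 ∨ ε m = -1) ∧
      ∑ i, w i * Real.exp (l * ∑ m ∈ insert a A, ε m * r i m) ≤
        ∑ i, w i * Real.exp (l ^ 2 / 2 * ∑ m ∈ insert a A, r i m ^ 2) := by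
      intro s hs h
      obtain ⟨ε, hε, hle⟩ := ih (fun i => w i * Real.exp (l * (s * r i a)))
        (fun i => mul_nonneg (hw i) (Real.exp_pos _).le)
      refine ⟨Function.update ε a s, ?_, ?_⟩
      · intro m
        by_cases hm : m = a
        · rw [hm, Function.update_self]; exact hs
        · rw [Function.update_of_ne hm]; exact hε m
      · refine le_trans (le_of_eq ?_) (hle.trans h)
        refine Finset.sum_congr rfl fun i _ => ?_
        rw [Finset.sum_insert ha, Function.update_self]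
        have : ∑ m ∈ A, Function.update ε a s m * r i m = ∑ m ∈ A, ε m * r i m := by
          refine Finset.sum_congr rfl fun m hm => ?_
          have hne : m ≠ a := by
            rintro rfl
            exact ha hm
          rw [Function.update_of_ne hne]
        rw [this, mul_assoc, ← Real.exp_add]
        ring_nf
    have hsum : (∑ i, (w i * Real.exp (l * (1 * r i a))) *
          Real.exp (l ^ 2 / 2 * ∑ m ∈ A, r i m ^ 2)) +
        (∑ i, (w i * Real.exp (l * (-1 * r i a))) *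
          Real.exp (l ^ 2 / 2 * ∑ m ∈ A, r i m ^ 2)) ≤
        2 * ∑ i, w i * Real.exp (l ^ 2 / 2 * ∑ m ∈ insert a A, r i m ^ 2) := by
      rw [← Finset.sum_add_distrib, Finset.mul_sum]
      refine Finset.sum_le_sum fun i _ => ?_
      rw [Finset.sum_insert ha, mul_add, Real.exp_add]
      have h1 : Real.cosh (l * r i a) ≤ Real.exp ((l * r i a) ^ 2 / 2) :=
        Real.cosh_le_exp_half_sq _
      have h2 : Real.exp (l * (1 * r i a)) + Real.exp (l * (-1 * r i a)) =
          2 * Real.cosh (l * r i a) := by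
        rw [Real.cosh_eq]
        ring_nf
      have h3 : (l * r i a) ^ 2 / 2 = l ^ 2 / 2 * r i a ^ 2 := by ring
      rw [h3] at h1
      have h4 : 0 ≤ w i * Real.exp (l ^ 2 / 2 * ∑ m ∈ A, r i m ^ 2) :=
        mul_nonneg (hw i) (Real.exp_pos _).le
      calc w i * Real.exp (l * (1 * r i a)) * Real.exp (l ^ 2 / 2 * ∑ m ∈ A, r i m ^ 2) +
          w i * Real.exp (l * (-1 * r i a)) * Real.exp (l ^ 2 / 2 * ∑ m ∈ A, r i m ^ 2)
          = (w i * Real.exp (l ^ 2 / 2 * ∑ m ∈ A, r i m ^ 2)) *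
            (Real.exp (l * (1 * r i a)) + Real.exp (l * (-1 * r i a))) := by ring
        _ = (w i * Real.exp (l ^ 2 / 2 * ∑ m ∈ A, r i m ^ 2)) *
            (2 * Real.cosh (l * r i a)) := by rw [h2]
        _ ≤ (w i * Real.exp (l ^ 2 / 2 * ∑ m ∈ A, r i m ^ 2)) *
            (2 * Real.exp (l ^ 2 / 2 * r i a ^ 2)) := by
          exact mul_le_mul_of_nonneg_left (by linarith) h4
        _ = 2 * (w i * (Real.exp (l ^ 2 / 2 * r i a ^ 2) *
            Real.exp (l ^ 2 / 2 * ∑ m ∈ A, r i m ^ 2))) := by ring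
    by_cases h : ∑ i, (w i * Real.exp (l * (1 * r i a))) *
          Real.exp (l ^ 2 / 2 * ∑ m ∈ A, r i m ^ 2) ≤
        ∑ i, w i * Real.exp (l ^ 2 / 2 * ∑ m ∈ insert a A, r i m ^ 2)
    · exact key 1 (Or.inl rfl) h
    · refine key (-1) (Or.inr rfl) ?_
      push Not at h
      linarith

end ModRAND

open ModRAND in
theorem rand : StmRAND := by
  intro J _ _ A b hb
  classical
  obtain ⟨L, hL⟩ : ∃ L, L = Real.log (4 * Fintype.card J) := ⟨_, rfl⟩
  have hcard : (1 : ℝ) ≤ Fintype.card J := by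
    exact_mod_cast Fintype.card_pos
  have h4 : (1 : ℝ) < 4 * Fintype.card J := by linarith
  have hLpos : 0 < L := by rw [hL]; exact Real.log_pos h4
  obtain ⟨l, hl⟩ : ∃ l, l = Real.sqrt (2 * L) := ⟨_, rfl⟩
  have hlpos : 0 < l := by rw [hl]; exact Real.sqrt_pos.2 (by linarith)
  have hl2 : l ^ 2 = 2 * L := by rw [hl]; exact Real.sq_sqrt (by linarith)
  obtain ⟨r, hr⟩ : ∃ r : J × (Bool × Bool) → ℤ → ℝ, r = fun i m =>
      (if i.2.1 then 1 else -1) * (if i.2.2 then (b i.1 m).re else (b i.1 m).im) := ⟨_, rfl⟩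
  obtain ⟨ε, hε, hle⟩ := signs r l A (fun _ => 1) (fun _ => zero_le_one)
  refine ⟨ε, hε, fun j => ?_⟩
  have hrs : ∀ i, ∑ m ∈ A, r i m ^ 2 ≤ 1 := by
    intro i
    refine le_trans (Finset.sum_le_sum fun m _ => ?_) (hb i.1)
    rw [hr]
    have h1 : ‖b i.1 m‖ ^ 2 = (b i.1 m).re ^ 2 + (b i.1 m).im ^ 2 := by
      rw [← Complex.normSq_eq_norm_sq, Complex.normSq_apply]; ring
    rw [h1]
    have h2 := sq_nonneg (b i.1 m).re
    have h3 := sq_nonneg (b i.1 m).im
    simp only
    split_ifs <;> nlinarith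
  have htot : ∑ i, (1 : ℝ) * Real.exp (l * ∑ m ∈ A, ε m * r i m) ≤ Real.exp (2 * L) := by
    refine hle.trans ?_
    have h1 : ∑ i, (1 : ℝ) * Real.exp (l ^ 2 / 2 * ∑ m ∈ A, r i m ^ 2) ≤
        ∑ _i : J × (Bool × Bool), Real.exp L := by
      refine Finset.sum_le_sum fun i _ => ?_
      rw [one_mul, Real.exp_le_exp, hl2]
      have := hrs i
      nlinarith
    refine h1.trans (le_of_eq ?_)
    rw [Finset.sum_const, nsmul_eq_mul, Finset.card_univ, Fintype.card_prod, Fintype.card_prod,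
      Fintype.card_bool]
    have h2 : Real.exp L = 4 * Fintype.card J := by
      rw [hL, Real.exp_log (by linarith)]
    have h3 : Real.exp (2 * L) = Real.exp L * Real.exp L := by
      rw [← Real.exp_add]; ring_nf
    rw [h3]
    nth_rewrite 2 [h2]
    push_cast
    ring
  have hone : ∀ i, ∑ m ∈ A, ε m * r i m ≤ l := by
    intro i
    have h1 : Real.exp (l * ∑ m ∈ A, ε m * r i m) ≤ Real.exp (2 * L) := by
      refine le_trans ?_ htot
      have := Finset.single_le_sum (f := fun i => (1 : ℝ) * Real.exp (l * ∑ m ∈ A, ε m * r i m))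
        (fun i _ => mul_nonneg zero_le_one (Real.exp_pos _).le) (Finset.mem_univ i)
      simpa using this
    rw [Real.exp_le_exp, ← hl2, pow_two] at h1
    exact le_of_mul_le_mul_left h1 hlpos
  have hre : (∑ m ∈ A, (ε m : ℂ) * b j m).re = ∑ m ∈ A, ε m * (b j m).re := by
    rw [Complex.re_sum]
    refine Finset.sum_congr rfl fun m _ => ?_
    rw [Complex.re_ofReal_mul]
  have him : (∑ m ∈ A, (ε m : ℂ) * b j m).im = ∑ m ∈ A, ε m * (b j m).im := by
    rw [Complex.im_sum]
    refine Finset.sum_congr rfl fun m _ => ?_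
    rw [Complex.im_ofReal_mul]
  have a1 := hone (j, (true, true))
  have a2 := hone (j, (false, true))
  have a3 := hone (j, (true, false))
  have a4 := hone (j, (false, false))
  rw [hr] at a1 a2 a3 a4
  simp only [if_true, Bool.false_eq_true, if_false, one_mul, neg_mul, mul_neg,
    Finset.sum_neg_distrib] at a1 a2 a3 a4
  have b1 : |∑ m ∈ A, ε m * (b j m).re| ≤ l := abs_le.2 ⟨by linarith, a1⟩
  have b2 : |∑ m ∈ A, ε m * (b j m).im| ≤ l := abs_le.2 ⟨by linarith, a3⟩
  have h5 := Complex.norm_le_abs_re_add_abs_im (∑ m ∈ A, (ε m : ℂ) * b j m)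
  rw [hre, him] at h5
  have h6 : l ≤ 2 * Real.sqrt L := by
    rw [hl]
    have : (2 : ℝ) * Real.sqrt L = Real.sqrt (4 * L) := by
      rw [Real.sqrt_mul (by norm_num), show (4 : ℝ) = 2 ^ 2 by norm_num,
        Real.sqrt_sq (by norm_num)]
    rw [this]
    exact Real.sqrt_le_sqrt (by linarith)
  rw [← hL]
  linarith

end Pool.Agent.T6.H28.SN
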