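import Pool.Agent.T6.H28.SN.Stm

/-!
# The invariant inner product of automorphic functions
-/

set_option autoImplicit false

open scoped InnerProductSpace ComplexConjugate Topology ENNReal
open Filter MeasureTheory

namespace Pool.Agent.T6.H28.SN

namespace ModSCHUR

theorem pi_mul (D : Rep) (g h : G) (x : D.H) : D.π (g * h) x = D.π g (D.π h x) := by
  rw [map_mul]; rfl

theorem pi_mem (D : Rep) (g : G) {x : D.H} (hx : x ∈ D.E) : D.π g x ∈ D.E := by
  unfold Rep.E at hx ⊢
  induction hx using Submodule.span_induction with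
  | mem x hx =>
    obtain ⟨h, m, rfl⟩ := hx
    exact Submodule.subset_span ⟨g * h, m, (pi_mul D g h _).symm⟩
  | zero => rw [map_zero]; exact Submodule.zero_mem _
  | add x y _ _ hx hy => rw [map_add]; exact Submodule.add_mem _ hx hy
  | smul c x _ hx => rw [map_smul]; exact Submodule.smul_mem _ _ hx

theorem e_mem (D : Rep) (m : ℤ) : D.e m ∈ D.E :=
  Submodule.subset_span ⟨1, m, by rw [map_one]; rfl⟩

theorem vec_mem (D : Rep) (A : Finset ℤ) (c : ℤ → ℂ) : D.vec A c ∈ D.E :=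
  Submodule.sum_mem _ fun m _ => Submodule.smul_mem _ _ (e_mem D m)

/-- the sesquilinear form -/
noncomputable def B (D : Rep) (η : D.H →ₗ[ℂ] ℂ) (μ : Measure G) (x y : D.H) : ℂ :=
  ∫ g, conj (η (D.π g x)) * η (D.π g y) ∂μ

/-- the properties of the functions `g ↦ η (π g x)` which are used -/
structure Dat (D : Rep) (η : D.H →ₗ[ℂ] ℂ) (μ : Measure G) (Γ : Subgroup G) : Prop where
  le : ∀ x ∈ D.E, ∀ g, ‖η (D.π g x)‖ ≤ pAut D η x
  cont : ∀ x ∈ D.E, Continuous fun g : G => η (D.π g x)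
  left : ∀ x ∈ D.E, ∀ γ ∈ Γ, ∀ g, η (D.π (γ * g) x) = η (D.π g x)
  inv : ∀ f : G → ℝ≥0∞, Measurable f → (∀ γ ∈ Γ, ∀ g, f (γ * g) = f g) → ∀ h,
      ∫⁻ g, f (g * h) ∂μ = ∫⁻ g, f g ∂μ

theorem mk_dat (hCONT : StmCONT) {D : Rep} {Γ : Subgroup G} {F : Set G} {η : D.H →ₗ[ℂ] ℂ}
    (hA : IsAut D Γ F η) {μ : Measure G}
    (hμ : ∀ f : G → ℝ≥0∞, Measurable f → (∀ γ ∈ Γ, ∀ g, f (γ * g) = f g) → ∀ h,
      ∫⁻ g, f (g * h) ∂μ = ∫⁻ g, f g ∂μ) : Dat D η μ Γ := by
  have hle : ∀ x ∈ D.E, ∀ g, ‖η (D.π g x)‖ ≤ pAut D η x := fun x hx g => le_ciSup (hA.bdd x hx) g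
  refine ⟨hle, ?_, ?_, hμ⟩
  · intro x hx
    obtain ⟨C0, hC0⟩ := hA.norm.bdd
    have hsem : IsSem D C0 (pAut D η) :=
      ⟨fun x _ => Real.iSup_nonneg fun g => norm_nonneg _, hA.norm.add, hA.norm.smul, hC0,
        hA.norm.diff, hA.norm.avg⟩
    have h1 := hCONT D C0 _ hsem x hx
    rw [continuous_iff_continuousAt]
    intro g0
    rw [ContinuousAt, tendsto_iff_norm_sub_tendsto_zero]
    have h2 : Tendsto (fun g : G => g0⁻¹ * g) (𝓝 g0) (𝓝 1) := by
      have := (continuous_const_mul g0⁻¹).tendsto g0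
      simpa using this
    refine squeeze_zero (fun _ => norm_nonneg _) (fun g => ?_) (h1.comp h2)
    have h3 : η (D.π g x) - η (D.π g0 x) = η (D.π g0 (D.π (g0⁻¹ * g) x - x)) := by
      rw [map_sub, map_sub, ← pi_mul, mul_inv_cancel_left]
    rw [h3]
    exact hle _ (D.E.sub_mem (pi_mem D _ hx) hx) g0
  · intro x hx γ hγ g
    rw [pi_mul]
    exact hA.inv γ hγ _ (pi_mem D g hx)

section

variable {D : Rep} {Γ : Subgroup G} {η : D.H →ₗ[ℂ] ℂ} {μ : Measure G} [IsFiniteMeasure μ]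
  (hD : Dat D η μ Γ)

include hD

theorem integrable {x y : D.H} (hx : x ∈ D.E) (hy : y ∈ D.E) :
    Integrable (fun g => conj (η (D.π g x)) * η (D.π g y)) μ := by
  refine Integrable.of_bound ((Complex.continuous_conj.comp (hD.cont x hx)).mul
    (hD.cont y hy)).aestronglyMeasurable (pAut D η x * pAut D η y) (Eventually.of_forall fun g => ?_)
  rw [norm_mul, RCLike.norm_conj]
  exact mul_le_mul (hD.le x hx g) (hD.le y hy g) (norm_nonneg _)
    ((norm_nonneg _).trans (hD.le x hx g))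

theorem B_norm {x y : D.H} (hx : x ∈ D.E) (hy : y ∈ D.E) :
    ‖B D η μ x y‖ ≤ (pAut D η x * pAut D η y) * μ.real Set.univ := by
  refine norm_integral_le_of_norm_le_const (Eventually.of_forall fun g => ?_)
  rw [norm_mul, RCLike.norm_conj]
  exact mul_le_mul (hD.le x hx g) (hD.le y hy g) (norm_nonneg _)
    ((norm_nonneg _).trans (hD.le x hx g))

theorem B_add_left {x x' y : D.H} (hx : x ∈ D.E) (hx' : x' ∈ D.E) (hy : y ∈ D.E) :
    B D η μ (x + x') y = B D η μ x y + B D η μ x' y := by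
  unfold B
  rw [← integral_add (integrable hD hx hy) (integrable hD hx' hy)]
  refine integral_congr_ae (Eventually.of_forall fun g => ?_)
  simp only [map_add]
  ring

theorem B_add_right {x y y' : D.H} (hx : x ∈ D.E) (hy : y ∈ D.E) (hy' : y' ∈ D.E) :
    B D η μ x (y + y') = B D η μ x y + B D η μ x y' := by
  unfold B
  rw [← integral_add (integrable hD hx hy) (integrable hD hx hy')]
  refine integral_congr_ae (Eventually.of_forall fun g => ?_)
  simp only [map_add]
  ring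

omit hD [IsFiniteMeasure μ] in
theorem B_smul_left (c : ℂ) (x y : D.H) : B D η μ (c • x) y = conj c * B D η μ x y := by
  unfold B
  rw [← integral_const_mul]
  refine integral_congr_ae (Eventually.of_forall fun g => ?_)
  simp only [map_smul, smul_eq_mul, map_mul]
  ring

omit hD [IsFiniteMeasure μ] in
theorem B_smul_right (c : ℂ) (x y : D.H) : B D η μ x (c • y) = c * B D η μ x y := by
  unfold B
  rw [← integral_const_mul]
  refine integral_congr_ae (Eventually.of_forall fun g => ?_)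
  simp only [map_smul, smul_eq_mul]
  ring

omit hD [IsFiniteMeasure μ] in
theorem B_zero_left (y : D.H) : B D η μ 0 y = 0 := by
  have h := B_smul_left (η := η) (μ := μ) (0 : ℂ) (0 : D.H) y
  rwa [smul_zero, map_zero, zero_mul] at h

omit hD [IsFiniteMeasure μ] in
theorem B_zero_right (x : D.H) : B D η μ x 0 = 0 := by
  have h := B_smul_right (η := η) (μ := μ) (0 : ℂ) x (0 : D.H)
  rwa [smul_zero, zero_mul] at h

theorem B_sum_left (A : Finset ℤ) (c : ℤ → ℂ) {y : D.H} (hy : y ∈ D.E) :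
    B D η μ (D.vec A c) y = ∑ m ∈ A, conj (c m) * B D η μ (D.e m) y := by
  classical
  unfold Rep.vec
  induction A using Finset.induction_on with
  | empty => simp only [Finset.sum_empty]; exact B_zero_left y
  | insert a s ha ih =>
    rw [Finset.sum_insert ha, Finset.sum_insert ha, B_add_left (x' := ∑ m ∈ s, c m • D.e m) hD
      (Submodule.smul_mem _ _ (e_mem D a)) (vec_mem D s c) hy, B_smul_left, ih]

theorem B_sum_right (A : Finset ℤ) (c : ℤ → ℂ) {x : D.H} (hx : x ∈ D.E) :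
    B D η μ x (D.vec A c) = ∑ m ∈ A, c m * B D η μ x (D.e m) := by
  classical
  unfold Rep.vec
  induction A using Finset.induction_on with
  | empty => simp only [Finset.sum_empty]; exact B_zero_right x
  | insert a s ha ih =>
    rw [Finset.sum_insert ha, Finset.sum_insert ha, B_add_right (y' := ∑ m ∈ s, c m • D.e m) hD hx
      (Submodule.smul_mem _ _ (e_mem D a)) (vec_mem D s c), B_smul_right, ih]

omit [IsFiniteMeasure μ] in
theorem inv_real {u : G → ℝ} (hu : Continuous u) (hi : Integrable u μ)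
    (hinv : ∀ γ ∈ Γ, ∀ g, u (γ * g) = u g) (h : G) (hi2 : Integrable (fun g => u (g * h)) μ) :
    ∫ g, u (g * h) ∂μ = ∫ g, u g ∂μ := by
  rw [integral_eq_lintegral_pos_part_sub_lintegral_neg_part hi,
    integral_eq_lintegral_pos_part_sub_lintegral_neg_part hi2,
    hD.inv (fun g => ENNReal.ofReal (u g)) hu.measurable.ennreal_ofReal
      (fun γ hγ g => by rw [hinv γ hγ g]) h,
    hD.inv (fun g => ENNReal.ofReal (-u g)) hu.neg.measurable.ennreal_ofReal
      (fun γ hγ g => by rw [hinv γ hγ g]) h]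

omit [IsFiniteMeasure μ] in
theorem inv_cpx {f : G → ℂ} (hf : Continuous f) (hi : Integrable f μ)
    (hinv : ∀ γ ∈ Γ, ∀ g, f (γ * g) = f g) (h : G) (hi2 : Integrable (fun g => f (g * h)) μ) :
    ∫ g, f (g * h) ∂μ = ∫ g, f g ∂μ := by
  have h1 := inv_real hD (u := fun g => (f g).re) (Complex.continuous_re.comp hf) hi.re
    (fun γ hγ g => by rw [hinv γ hγ g]) h hi2.re
  have h2 := inv_real hD (u := fun g => (f g).im) (Complex.continuous_im.comp hf) hi.im
    (fun γ hγ g => by rw [hinv γ hγ g]) h hi2.im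
  rw [← integral_re_add_im hi, ← integral_re_add_im hi2]
  have h1' : ∫ g, RCLike.re (f (g * h)) ∂μ = ∫ g, RCLike.re (f g) ∂μ := h1
  have h2' : ∫ g, RCLike.im (f (g * h)) ∂μ = ∫ g, RCLike.im (f g) ∂μ := h2
  rw [h1', h2']

theorem B_inv {x y : D.H} (hx : x ∈ D.E) (hy : y ∈ D.E) (h : G) :
    B D η μ (D.π h x) (D.π h y) = B D η μ x y := by
  have h1 := inv_cpx hD (f := fun g => conj (η (D.π g x)) * η (D.π g y))
    ((Complex.continuous_conj.comp (hD.cont x hx)).mul (hD.cont y hy)) (integrable hD hx hy)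
    (fun γ hγ g => by rw [hD.left x hx γ hγ g, hD.left y hy γ hγ g]) h (by
      have := integrable hD (pi_mem D h hx) (pi_mem D h hy)
      simpa only [← pi_mul] using this)
  unfold B
  simpa only [← pi_mul] using h1

theorem B_orth {m n : ℤ} (hmn : m ≠ n) : B D η μ (D.e m) (D.e n) = 0 := by
  have hd : ((n : ℂ) - m) ≠ 0 := by
    rw [sub_ne_zero]
    exact_mod_cast hmn.symm
  have h1 := B_inv hD (e_mem D m) (e_mem D n) (rot (Real.pi / ((n : ℝ) - m)))
  rw [D.rot_e, D.rot_e, B_smul_left, B_smul_right, ← mul_assoc, ← Complex.exp_conj,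
    ← Complex.exp_add] at h1
  have h2 : conj (Complex.I * (m * ((Real.pi / ((n : ℝ) - m) : ℝ) : ℂ))) +
      Complex.I * (n * ((Real.pi / ((n : ℝ) - m) : ℝ) : ℂ)) = Real.pi * Complex.I := by
    simp only [map_mul, Complex.conj_I, Complex.conj_ofReal, map_intCast]
    push_cast
    field_simp
    ring
  rw [h2, Complex.exp_pi_mul_I] at h1
  have h3 : 2 * B D η μ (D.e m) (D.e n) = 0 := by linear_combination -h1
  simpa using h3

end

theorem dil_one : IsOneParam dil !![1, 0; 0, -1] := by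
  refine ⟨fun s t => ?_, fun i j => ?_⟩
  · apply Subtype.ext
    have h : (dil s * dil t).1 = (dil s).1 * (dil t).1 := rfl
    rw [h]
    ext i j
    fin_cases i <;> fin_cases j <;>
      simp [dil, Matrix.mul_apply, Fin.sum_univ_two, Real.exp_add, add_comm, mul_comm]
  · fin_cases i <;> fin_cases j
    · simpa [dil] using Real.hasDerivAt_exp 0
    · simpa [dil] using hasDerivAt_const (0 : ℝ) (0 : ℝ)
    · simpa [dil] using hasDerivAt_const (0 : ℝ) (0 : ℝ)
    · have h := (hasDerivAt_id (0 : ℝ)).neg.exp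
      simpa [dil] using h

theorem dAct_H (D : Rep) (m : ℤ) : dAct D.a D.e !![1, 0; 0, -1] m =
    D.a m • D.e (m + 2) - conj (D.a (m - 2)) • D.e (m - 2) := by
  unfold dAct
  simp

section

variable {D : Rep} {Γ : Subgroup G} {F : Set G} {η : D.H →ₗ[ℂ] ℂ} {μ : Measure G}
  [IsFiniteMeasure μ] (hD : Dat D η μ Γ) (hA : IsAut D Γ F η)

include hD hA

theorem skew (m n : ℤ) : B D η μ (D.e m) (dAct D.a D.e !![1, 0; 0, -1] n) +
    B D η μ (dAct D.a D.e !![1, 0; 0, -1] m) (D.e n) = 0 := by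
  have hH : ∀ j, dAct D.a D.e !![1, 0; 0, -1] j ∈ D.E := by
    intro j
    rw [dAct_H]
    exact D.E.sub_mem (D.E.smul_mem _ (e_mem D _)) (D.E.smul_mem _ (e_mem D _))
  have hr := fun j => hA.norm.diff dil !![1, 0; 0, -1] dil_one j
  set X := dAct D.a D.e !![1, 0; 0, -1] m with hX
  set Y := dAct D.a D.e !![1, 0; 0, -1] n with hY
  set p := pAut D η with hp
  set M := μ.real Set.univ with hM
  have hM0 : 0 ≤ M := measureReal_nonneg
  let r : ℝ → D.H := fun t => (t : ℂ)⁻¹ • (D.π (dil t) (D.e m) - D.e m) - X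
  let s : ℝ → D.H := fun t => (t : ℂ)⁻¹ • (D.π (dil t) (D.e n) - D.e n) - Y
  have hrt : Tendsto (fun t => p (r t)) (𝓝[≠] 0) (𝓝 0) := hr m
  have hst : Tendsto (fun t => p (s t)) (𝓝[≠] 0) (𝓝 0) := hr n
  have hrE : ∀ t, r t ∈ D.E := fun t =>
    D.E.sub_mem (D.E.smul_mem _ (D.E.sub_mem (pi_mem D _ (e_mem D m)) (e_mem D m))) (hH m)
  have hsE : ∀ t, s t ∈ D.E := fun t =>
    D.E.sub_mem (D.E.smul_mem _ (D.E.sub_mem (pi_mem D _ (e_mem D n)) (e_mem D n))) (hH n)
  have hXE : X ∈ D.E := hH m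
  have hYE : Y ∈ D.E := hH n
  have hem := e_mem D m
  have hen := e_mem D n
  have key : ∀ t : ℝ, t ≠ 0 → ‖B D η μ (D.e m) Y + B D η μ X (D.e n)‖ ≤
      (p (D.e m) * p (s t)) * M + (p (r t) * p (D.e n)) * M +
        |t| * (((p X + p (r t)) * (p Y + p (s t))) * M) := by
    intro t ht
    have htc : (t : ℂ) ≠ 0 := by exact_mod_cast ht
    have e1 : D.π (dil t) (D.e m) = D.e m + (t : ℂ) • (X + r t) := by
      simp only [r]
      rw [add_sub_cancel, smul_smul, mul_inv_cancel₀ htc, one_smul, add_sub_cancel]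
    have e2 : D.π (dil t) (D.e n) = D.e n + (t : ℂ) • (Y + s t) := by
      simp only [s]
      rw [add_sub_cancel, smul_smul, mul_inv_cancel₀ htc, one_smul, add_sub_cancel]
    have h1 := B_inv hD hem hen (dil t)
    have hXr := D.E.add_mem hXE (hrE t)
    have hYs := D.E.add_mem hYE (hsE t)
    rw [e1, e2, B_add_left hD hem (D.E.smul_mem _ hXr) (D.E.add_mem hen (D.E.smul_mem _ hYs)),
      B_add_right hD hem hen (D.E.smul_mem _ hYs),
      B_add_right hD (D.E.smul_mem _ hXr) hen (D.E.smul_mem _ hYs), B_smul_right, B_smul_left,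
      B_smul_right, B_smul_left, Complex.conj_ofReal] at h1
    have h2 : B D η μ (D.e m) (Y + s t) + B D η μ (X + r t) (D.e n) +
        (t : ℂ) * B D η μ (X + r t) (Y + s t) = 0 := by
      apply mul_left_cancel₀ htc
      linear_combination h1
    rw [B_add_right hD hem hYE (hsE t), B_add_left hD hXE (hrE t) hen] at h2
    have h3 : B D η μ (D.e m) Y + B D η μ X (D.e n) =
        -(B D η μ (D.e m) (s t) + B D η μ (r t) (D.e n) +
          (t : ℂ) * B D η μ (X + r t) (Y + s t)) := by linear_combination h2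
    rw [h3, norm_neg]
    refine (norm_add_le _ _).trans (add_le_add ((norm_add_le _ _).trans (add_le_add
      (B_norm hD hem (hsE t)) (B_norm hD (hrE t) hen))) ?_)
    rw [norm_mul, Complex.norm_real, Real.norm_eq_abs]
    refine mul_le_mul_of_nonneg_left ((B_norm hD hXr hYs).trans ?_) (abs_nonneg t)
    refine mul_le_mul_of_nonneg_right ?_ hM0
    have hp0 : ∀ x, 0 ≤ p x := fun x => Real.iSup_nonneg fun g => norm_nonneg _
    exact mul_le_mul (hA.norm.add _ hXE _ (hrE t)) (hA.norm.add _ hYE _ (hsE t)) (hp0 _)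
      (add_nonneg (hp0 _) (hp0 _))
  have ht0 : Tendsto (fun t : ℝ => |t|) (𝓝[≠] 0) (𝓝 0) := by
    have := (continuous_abs.tendsto (0 : ℝ)).mono_left (nhdsWithin_le_nhds (s := {0}ᶜ))
    simpa using this
  have hlim : Tendsto (fun t => (p (D.e m) * p (s t)) * M + (p (r t) * p (D.e n)) * M +
        |t| * (((p X + p (r t)) * (p Y + p (s t))) * M)) (𝓝[≠] 0)
      (𝓝 ((p (D.e m) * 0) * M + (0 * p (D.e n)) * M + 0 * (((p X + 0) * (p Y + 0)) * M))) :=
    (((hst.const_mul _).mul_const _).add ((hrt.mul_const _).mul_const _)).add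
      (ht0.mul (((hrt.const_add _).mul (hst.const_add _)).mul_const _))
  have h0 := ge_of_tendsto hlim (eventually_mem_nhdsWithin.mono fun t ht => key t ht)
  rw [mul_zero, zero_mul, zero_mul, zero_mul, zero_mul, add_zero, add_zero] at h0
  exact norm_le_zero_iff.1 h0

theorem step {m : ℤ} (hm : m ∈ D.S) (hm2 : m + 2 ∈ D.S) :
    B D η μ (D.e (m + 2)) (D.e (m + 2)) = B D η μ (D.e m) (D.e m) := by
  have h := skew hD hA m (m + 2)
  have e1 : m + 2 - 2 = m := by ring
  rw [dAct_H, dAct_H, e1, sub_eq_add_neg, sub_eq_add_neg, ← neg_smul, ← neg_smul,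
    B_add_right hD (e_mem D m) (D.E.smul_mem _ (e_mem D _)) (D.E.smul_mem _ (e_mem D _)),
    B_add_left hD (D.E.smul_mem _ (e_mem D _)) (D.E.smul_mem _ (e_mem D _)) (e_mem D _),
    B_smul_right, B_smul_right, B_smul_left, B_smul_left, B_orth hD (by omega : m ≠ m + 2 + 2),
    B_orth hD (by omega : m - 2 ≠ m + 2)] at h
  have ha : conj (D.a m) ≠ 0 := by
    rw [Ne, map_eq_zero]
    exact (D.a_ne m).2 ⟨hm, hm2⟩
  have h2 : conj (D.a m) * (B D η μ (D.e (m + 2)) (D.e (m + 2)) - B D η μ (D.e m) (D.e m)) = 0 := by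
    linear_combination h
  have h3 := (mul_eq_zero.1 h2).resolve_left ha
  exact sub_eq_zero.1 h3

theorem const_le {m n : ℤ} (hm : m ∈ D.S) (hn : n ∈ D.S) (hmn : m ≤ n) :
    B D η μ (D.e n) (D.e n) = B D η μ (D.e m) (D.e m) := by
  obtain ⟨⟨d, hd⟩, hc⟩ := D.conn m hm n hn
  have hd0 : 0 ≤ d := by omega
  obtain ⟨e, rfl⟩ := Int.eq_ofNat_of_zero_le hd0
  have key : ∀ j : ℕ, j ≤ e → B D η μ (D.e (m + 2 * j)) (D.e (m + 2 * j)) =
      B D η μ (D.e m) (D.e m) := by
    intro j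
    induction j with
    | zero => intro _; simp
    | succ j ih =>
      intro hj
      have h1 : m + 2 * (j : ℤ) ∈ D.S := hc _ (by omega) (by omega) ⟨j, by ring⟩
      have h2 : m + 2 * (j : ℤ) + 2 ∈ D.S := hc _ (by omega) (by omega) ⟨j + 1, by ring⟩
      rw [← ih (by omega), ← step hD hA h1 h2]
      have e1 : m + 2 * ((j + 1 : ℕ) : ℤ) = m + 2 * (j : ℤ) + 2 := by push_cast; ring
      rw [e1]
  have h := key e le_rfl
  have e1 : m + 2 * (e : ℤ) = n := by omega
  rwa [e1] at h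

theorem const_all {m n : ℤ} (hm : m ∈ D.S) (hn : n ∈ D.S) :
    B D η μ (D.e n) (D.e n) = B D η μ (D.e m) (D.e m) := by
  rcases le_total m n with h | h
  · exact const_le hD hA hm hn h
  · exact (const_le hD hA hn hm h).symm

omit hA in
/-- the square integral -/
theorem lint_eq {x : D.H} (hx : x ∈ D.E) {b : ℝ} (hb : B D η μ x x = (b : ℂ)) :
    ∫⁻ g, ENNReal.ofReal (‖η (D.π g x)‖ ^ 2) ∂μ = ENNReal.ofReal b := by
  have hi := integrable hD hx hx
  have e1 : (fun g => conj (η (D.π g x)) * η (D.π g x)) =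
      fun g => ((‖η (D.π g x)‖ ^ 2 : ℝ) : ℂ) := by
    funext g
    rw [← Complex.normSq_eq_conj_mul_self, Complex.normSq_eq_norm_sq]
  have hi2 : Integrable (fun g => ‖η (D.π g x)‖ ^ 2) μ := by
    have h := hi
    rw [e1] at h
    exact h.re
  rw [← ofReal_integral_eq_lintegral_ofReal hi2 (Eventually.of_forall fun g => by positivity)]
  congr 1
  unfold B at hb
  rw [e1, integral_complex_ofReal] at hb
  exact_mod_cast hb

end

end ModSCHUR

open ModSCHUR in
theorem schur (_hKAP : StmKAP) (hCONT : StmCONT) (hPOS : StmPOS) : StmSCHUR := by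
  intro D Γ F η hA μ hfin hμ0 hμ
  have hD := mk_dat hCONT hA hμ
  obtain ⟨k, hk⟩ := D.nonempty
  set β : ℝ := (B D η μ (D.e k) (D.e k)).re with hβ
  have hβc : B D η μ (D.e k) (D.e k) = (β : ℂ) := by
    apply Complex.ext
    · rfl
    · rw [Complex.ofReal_im]
      unfold B
      have e1 : (fun g => conj (η (D.π g (D.e k))) * η (D.π g (D.e k))) =
          fun g => ((‖η (D.π g (D.e k))‖ ^ 2 : ℝ) : ℂ) := by
        funext g
        rw [← Complex.normSq_eq_conj_mul_self, Complex.normSq_eq_norm_sq]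
      rw [e1, integral_complex_ofReal, Complex.ofReal_im]
  have hall : ∀ m n, B D η μ (D.e m) (D.e n) = (β : ℂ) * ⟪D.e m, D.e n⟫_ℂ := by
    intro m n
    by_cases hm : m ∈ D.S
    · by_cases hn : n ∈ D.S
      · rw [D.orth m hm n hn]
        by_cases h : m = n
        · subst h
          rw [if_pos rfl, mul_one, ← hβc]
          exact const_all hD hA hk hm
        · rw [if_neg h, mul_zero]
          exact B_orth hD h
      · rw [D.e_out n hn, B_zero_right, inner_zero_right, mul_zero]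
    · rw [D.e_out m hm, B_zero_left, inner_zero_left, mul_zero]
  have hvec : ∀ (A : Finset ℤ) (c : ℤ → ℂ), B D η μ (D.vec A c) (D.vec A c) =
      ((β * ‖D.vec A c‖ ^ 2 : ℝ) : ℂ) := by
    intro A c
    have h1 : ((‖D.vec A c‖ ^ 2 : ℝ) : ℂ) = ⟪D.vec A c, D.vec A c⟫_ℂ := by
      rw [inner_self_eq_norm_sq_to_K]
      push_cast
      rfl
    rw [Complex.ofReal_mul, h1, B_sum_left hD A c (vec_mem D A c)]
    have h2 : ⟪D.vec A c, D.vec A c⟫_ℂ = ∑ m ∈ A, conj (c m) * ⟪D.e m, D.vec A c⟫_ℂ := by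
      conv_lhs => rw [Rep.vec]
      rw [sum_inner]
      refine Finset.sum_congr rfl fun m _ => ?_
      rw [inner_smul_left]
      rfl
    rw [h2, Finset.mul_sum]
    refine Finset.sum_congr rfl fun m _ => ?_
    rw [B_sum_right hD A c (e_mem D m)]
    have h3 : ⟪D.e m, D.vec A c⟫_ℂ = ∑ n ∈ A, c n * ⟪D.e m, D.e n⟫_ℂ := by
      conv_lhs => rw [Rep.vec]
      rw [inner_sum]
      refine Finset.sum_congr rfl fun n _ => ?_
      rw [inner_smul_right]
    rw [h3, Finset.mul_sum, Finset.mul_sum, Finset.mul_sum]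
    refine Finset.sum_congr rfl fun n _ => ?_
    rw [hall m n]
    ring
  refine ⟨β, ?_, fun A c => lint_eq hD (vec_mem D A c) (hvec A c)⟩
  -- positivity
  have hek : D.e k ≠ 0 := by
    intro h
    have h1 := D.orth k hk k hk
    rw [h, inner_zero_left, if_pos rfl] at h1
    exact zero_ne_one h1
  have hpk : 0 < pAut D η (D.e k) := hA.norm.pos _ (e_mem D k) hek
  obtain ⟨g0, hg0⟩ : ∃ g0, η (D.π g0 (D.e k)) ≠ 0 := by
    by_contra hcon
    push Not at hcon
    have : pAut D η (D.e k) = 0 := by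
      unfold pAut
      simp [hcon]
    linarith
  set d : ℝ := ‖η (D.π g0 (D.e k))‖ / 2 with hd
  have hd0 : 0 < d := by
    have := norm_pos_iff.2 hg0
    positivity
  set O : Set G := {h | d < ‖η (D.π (g0 * h) (D.e k))‖} with hO
  have hOo : IsOpen O := by
    have hc : Continuous fun h : G => ‖η (D.π (g0 * h) (D.e k))‖ :=
      ((hD.cont _ (e_mem D k)).comp (continuous_const_mul g0)).norm
    exact isOpen_lt continuous_const hc
  have hO1 : (1 : G) ∈ O := by
    change d < ‖η (D.π (g0 * 1) (D.e k))‖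
    rw [mul_one]
    have := norm_pos_iff.2 hg0
    linarith
  obtain ⟨c, hc0, hc⟩ := hPOS Γ F hA.compact hA.cover μ hμ0 hμ O hOo hO1
  have hmeas : Measurable fun g => ENNReal.ofReal (‖η (D.π g (D.e k))‖ ^ 2) :=
    ((hD.cont _ (e_mem D k)).norm.pow 2).measurable.ennreal_ofReal
  have h1 := mul_meas_ge_le_lintegral (μ := μ) hmeas (ENNReal.ofReal (d ^ 2))
  have h2 : {x | ∃ γ ∈ Γ, ∃ h ∈ O, x = γ * g0 * h} ⊆
      {x | ENNReal.ofReal (d ^ 2) ≤ ENNReal.ofReal (‖η (D.π x (D.e k))‖ ^ 2)} := by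
    rintro x ⟨γ, hγ, h, hh, rfl⟩
    refine ENNReal.ofReal_le_ofReal ?_
    rw [mul_assoc, hD.left _ (e_mem D k) γ hγ]
    exact pow_le_pow_left₀ hd0.le (le_of_lt hh) 2
  have h3 : ENNReal.ofReal (d ^ 2) * c ≤ ENNReal.ofReal β := by
    rw [← lint_eq hD (e_mem D k) hβc]
    exact (mul_le_mul_right ((hc g0).trans (measure_mono h2)) _).trans h1
  by_contra hcon
  push Not at hcon
  rw [ENNReal.ofReal_of_nonpos hcon] at h3
  have h4 : ENNReal.ofReal (d ^ 2) * c ≠ 0 :=
    mul_ne_zero (by rw [Ne, ENNReal.ofReal_eq_zero, not_le]; positivity) hc0.ne'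
  exact h4 (le_antisymm h3 bot_le)

end Pool.Agent.T6.H28.SN
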