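import Pool.Agent.T6.H28.SN.Stm

/-!
# SUPN: the supremum of the normalised invariant seminorms
-/

set_option autoImplicit false

open scoped InnerProductSpace ComplexConjugate Topology
open Filter

namespace Pool.Agent.T6.H28.SN

namespace ModSUPN

theorem pi_e_mem (D : Rep) (g : G) (m : ℤ) : D.π g (D.e m) ∈ D.E :=
  Submodule.subset_span ⟨g, m, rfl⟩

theorem e_mem (D : Rep) (m : ℤ) : D.e m ∈ D.E := by
  have h := pi_e_mem D 1 m
  rw [map_one] at h
  exact h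

theorem pi_mem (D : Rep) (g : G) {x : D.H} (hx : x ∈ D.E) : D.π g x ∈ D.E := by
  unfold Rep.E at hx
  induction hx using Submodule.span_induction with
  | mem z hz =>
    obtain ⟨h, m, rfl⟩ := hz
    have h1 : D.π g (D.π h (D.e m)) = D.π (g * h) (D.e m) := by
      rw [map_mul]
      rfl
    rw [h1]
    exact pi_e_mem D _ m
  | zero =>
    rw [map_zero]
    exact D.E.zero_mem
  | add a b _ _ ha hb =>
    rw [map_add]
    exact D.E.add_mem ha hb
  | smul c a _ ha =>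
    rw [map_smul]
    exact D.E.smul_mem c ha

theorem dAct_mem (D : Rep) (e' : ℤ → D.H) (h : ∀ j, e' j ∈ D.E) (X : Matrix (Fin 2) (Fin 2) ℝ)
    (m : ℤ) : dAct D.a e' X m ∈ D.E := by
  unfold dAct
  refine D.E.add_mem (D.E.add_mem (D.E.smul_mem _ (D.E.sub_mem (D.E.smul_mem _ (h _))
    (D.E.smul_mem _ (h _)))) (D.E.smul_mem _ (D.E.smul_mem _ (D.E.add_mem (D.E.smul_mem _ (h _))
    (D.E.smul_mem _ (h _)))))) (D.E.smul_mem _ (D.E.smul_mem _ (h _)))

theorem sem_zero {D : Rep} {C0 : ℝ} {p : D.H → ℝ} (h : IsSem D C0 p) : p 0 = 0 := by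
  have h1 := h.smul 0 0 D.E.zero_mem
  rwa [smul_zero, norm_zero, zero_mul] at h1

theorem e_ne (D : Rep) {m : ℤ} (hm : m ∈ D.S) : D.e m ≠ 0 := by
  intro h
  have h1 := D.orth m hm m hm
  rw [h, inner_zero_left, if_pos rfl] at h1
  exact zero_ne_one h1

theorem bound_e (hZER : StmZER) (hAVGL : StmAVGL) (D : Rep) (k : ℤ) (hk : k ∈ D.S) (j : ℤ) :
    ∃ B : ℝ, ∀ p, Fam D k p → p (D.e j) ≤ B := by
  by_cases hj : j ∈ D.S
  · obtain ⟨t, -, ht⟩ := (hZER D k hk).1 j hj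
    refine ⟨1 / ‖mc D k j t‖, fun p hp => ?_⟩
    have hpos : 0 < ‖mc D k j t‖ := norm_pos_iff.2 ht
    have h1 := hAVGL D 1 p hp.1 (D.π (dil t) (D.e k)) (pi_e_mem D _ k) {j} (fun _ => 1)
    rw [Finset.sum_singleton, Finset.sum_singleton, one_mul, norm_one, one_pow, Real.sqrt_one,
      one_mul, one_mul, hp.1.smul _ _ (e_mem D j)] at h1
    have h2 := hp.1.bdd (dil t) (D.e k) (e_mem D k)
    rw [one_mul] at h2
    rw [le_div_iff₀ hpos, mul_comm]
    exact (h1.trans h2).trans hp.2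
  · refine ⟨0, fun p hp => ?_⟩
    rw [D.e_out j hj, sem_zero hp.1]

theorem bound (hZER : StmZER) (hAVGL : StmAVGL) (D : Rep) (k : ℤ) (hk : k ∈ D.S) {x : D.H}
    (hx : x ∈ D.E) : ∃ B : ℝ, ∀ p, Fam D k p → p x ≤ B := by
  unfold Rep.E at hx
  induction hx using Submodule.span_induction with
  | mem z hz =>
    obtain ⟨g, m, rfl⟩ := hz
    obtain ⟨B, hB⟩ := bound_e hZER hAVGL D k hk m
    refine ⟨B, fun p hp => ?_⟩
    have h1 := hp.1.bdd g (D.e m) (e_mem D m)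
    rw [one_mul] at h1
    exact h1.trans (hB p hp)
  | zero => exact ⟨0, fun p hp => (sem_zero hp.1).le⟩
  | add a b ha' hb' ha hb =>
    obtain ⟨A, hA⟩ := ha
    obtain ⟨B, hB⟩ := hb
    exact ⟨A + B, fun p hp => (hp.1.add a ha' b hb').trans (add_le_add (hA p hp) (hB p hp))⟩
  | smul c a ha' ha =>
    obtain ⟨A, hA⟩ := ha
    refine ⟨‖c‖ * A, fun p hp => ?_⟩
    rw [hp.1.smul c a ha']
    exact mul_le_mul_of_nonneg_left (hA p hp) (norm_nonneg c)

theorem fam_nonempty (hHIL : StmHIL) (D : Rep) (k : ℤ) : Nonempty {p : D.H → ℝ // Fam D k p} :=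
  ⟨⟨_, (hHIL D).2 k 0 fun g => by rw [inner_zero_left, norm_zero]; exact zero_le_one⟩⟩

end ModSUPN

open ModSUPN in
theorem supn (_hALG : StmALG) (hZER : StmZER) (hAVGL : StmAVGL) (hLIP : StmLIP)
    (hUAVG : StmUAVG) (hHIL : StmHIL) : StmSUPN := by
  intro D k hk
  haveI := fam_nonempty hHIL D k
  have hbdd : ∀ x ∈ D.E, BddAbove (Set.range fun p : {p : D.H → ℝ // Fam D k p} => p.1 x) := by
    intro x hx
    obtain ⟨B, hB⟩ := bound hZER hAVGL D k hk hx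
    refine ⟨B, ?_⟩
    rintro _ ⟨p, rfl⟩
    exact hB p.1 p.2
  have hle : ∀ p, Fam D k p → ∀ x ∈ D.E, p x ≤ pSup D k x := fun p hp x hx =>
    le_ciSup (hbdd x hx) ⟨p, hp⟩
  have hsup : ∀ (x : D.H) (B : ℝ), (∀ p, Fam D k p → p x ≤ B) → pSup D k x ≤ B := fun x B h =>
    ciSup_le fun p => h p.1 p.2
  have hnn : ∀ x ∈ D.E, 0 ≤ pSup D k x := by
    intro x hx
    obtain ⟨p⟩ := fam_nonempty hHIL D k
    exact (p.2.1.nonneg x hx).trans (hle p.1 p.2 x hx)
  refine ⟨⟨fun x hx y hy => ?_, fun c x hx => ?_, fun x hx hx0 => ?_, ⟨1, fun g x hx => ?_⟩,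
    fun γ X h m => ?_, fun x hx m => ?_⟩, hle⟩
  · exact hsup _ _ fun p hp => (hp.1.add x hx y hy).trans (add_le_add (hle p hp x hx) (hle p hp y hy))
  · show (⨆ p : {p : D.H → ℝ // Fam D k p}, p.1 (c • x)) =
      ‖c‖ * ⨆ p : {p : D.H → ℝ // Fam D k p}, p.1 x
    rw [Real.mul_iSup_of_nonneg (norm_nonneg c)]
    exact iSup_congr fun p => p.2.1.smul c x hx
  · have hn : 0 < ‖x‖ := norm_pos_iff.2 hx0
    set w : D.H := ((‖x‖ : ℂ))⁻¹ • x with hw
    have hwn : ‖w‖ = 1 := by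
      rw [hw, norm_smul, norm_inv, Complex.norm_real, norm_norm, inv_mul_cancel₀ hn.ne']
    have hek : ‖D.e k‖ = 1 := by
      have h1 := inner_self_eq_norm_sq_to_K (𝕜 := ℂ) (D.e k)
      rw [D.orth k hk k hk, if_pos rfl] at h1
      have h2 : ((1 : ℝ) : ℂ) = ((‖D.e k‖ ^ 2 : ℝ) : ℂ) := by
        rw [Complex.ofReal_pow]
        simpa using h1
      have h3 : (1 : ℝ) = ‖D.e k‖ ^ 2 := Complex.ofReal_injective h2
      nlinarith [norm_nonneg (D.e k)]
    have hb : ∀ g, ‖⟪w, D.π g (D.e k)⟫_ℂ‖ ≤ 1 := by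
      intro g
      have h1 := norm_inner_le_norm (𝕜 := ℂ) w (D.π g (D.e k))
      rwa [LinearIsometryEquiv.norm_map, hwn, hek, one_mul] at h1
    have hF := (hHIL D).2 k w hb
    refine lt_of_lt_of_le ?_ (hle _ hF x hx)
    have hbd : BddAbove (Set.range fun g : G => ‖⟪w, D.π g x⟫_ℂ‖) := by
      refine ⟨‖w‖ * ‖x‖, ?_⟩
      rintro _ ⟨g, rfl⟩
      have h := norm_inner_le_norm (𝕜 := ℂ) w (D.π g x)
      rwa [LinearIsometryEquiv.norm_map] at h
    refine lt_of_lt_of_le ?_ (le_ciSup hbd 1)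
    show 0 < ‖⟪w, D.π 1 x⟫_ℂ‖
    rw [map_one]
    show 0 < ‖⟪w, x⟫_ℂ‖
    rw [hw, inner_smul_left, norm_mul, norm_inner_symm]
    refine mul_pos ?_ ?_
    · rw [RCLike.norm_conj, norm_inv, Complex.norm_real, norm_norm]
      positivity
    · rw [norm_pos_iff]
      exact inner_self_ne_zero.2 hx0
  · rw [one_mul]
    refine hsup _ _ fun p hp => ?_
    have h1 := hp.1.bdd g x hx
    rw [one_mul] at h1
    exact h1.trans (hle p hp x hx)
  · have hY : dAct D.a (fun j => dAct D.a D.e X j) X m ∈ D.E :=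
      dAct_mem D _ (fun j => dAct_mem D _ (e_mem D) X j) X m
    obtain ⟨B, hB⟩ := bound hZER hAVGL D k hk hY
    have hmem : ∀ t : ℝ, ((t : ℂ)⁻¹ • (D.π (γ t) (D.e m) - D.e m) - dAct D.a D.e X m) ∈ D.E :=
      fun t => D.E.sub_mem (D.E.smul_mem _ (D.E.sub_mem (pi_e_mem D _ m) (e_mem D m)))
        (dAct_mem D _ (e_mem D) X m)
    have hlim : Tendsto (fun t : ℝ => 2 * |t| * B) (𝓝[≠] 0) (𝓝 0) := by
      have h1 : Tendsto (fun t : ℝ => 2 * |t| * B) (𝓝 0) (𝓝 (2 * |(0 : ℝ)| * B)) :=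
        ((continuous_const.mul continuous_abs).mul continuous_const).tendsto 0
      rw [abs_zero, mul_zero, zero_mul] at h1
      exact h1.mono_left nhdsWithin_le_nhds
    refine squeeze_zero' (Filter.Eventually.of_forall fun t => hnn _ (hmem t)) ?_ hlim
    filter_upwards [self_mem_nhdsWithin] with t ht
    have ht0 : t ≠ 0 := ht
    refine hsup _ _ fun p hp => ?_
    have h1 : (t : ℂ)⁻¹ • (D.π (γ t) (D.e m) - D.e m) - dAct D.a D.e X m =
        (t : ℂ)⁻¹ • (D.π (γ t) (D.e m) - D.e m - (t : ℂ) • dAct D.a D.e X m) := by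
      rw [smul_sub _ (D.π (γ t) (D.e m) - D.e m), smul_smul,
        inv_mul_cancel₀ (Complex.ofReal_ne_zero.2 ht0), one_smul]
    have hmem2 : D.π (γ t) (D.e m) - D.e m - (t : ℂ) • dAct D.a D.e X m ∈ D.E :=
      D.E.sub_mem (D.E.sub_mem (pi_e_mem D _ m) (e_mem D m))
        (D.E.smul_mem _ (dAct_mem D _ (e_mem D) X m))
    rw [h1, hp.1.smul _ _ hmem2, norm_inv, Complex.norm_real, Real.norm_eq_abs]
    have h2 := (hLIP D 1 p hp.1 γ X h m t).2
    have h3 := hB p hp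
    have h4 := hp.1.nonneg _ hY
    have h5 : 0 < |t| := abs_pos.2 ht0
    have h6 : t ^ 2 = |t| ^ 2 := (sq_abs t).symm
    rw [h6] at h2
    rw [inv_mul_le_iff₀ h5]
    calc _ ≤ _ := h2
      _ = 2 * |t| ^ 2 * p (dAct D.a (fun j => dAct D.a D.e X j) X m) := by ring
      _ ≤ 2 * |t| ^ 2 * B := mul_le_mul_of_nonneg_left h3 (by positivity)
      _ = |t| * (2 * |t| * B) := by ring
  · choose B hB using fun j => bound_e hZER hAVGL D k hk j
    obtain ⟨C, hC⟩ := hUAVG D 1 B x hx m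
    have hmem : ∀ N : ℕ, ((N : ℂ)⁻¹ • (∑ j ∈ Finset.range N,
      Complex.exp (-(Complex.I * (m * (2 * Real.pi * j / N)))) • D.π (rot (2 * Real.pi * j / N)) x) -
        ⟪D.e m, x⟫_ℂ • D.e m) ∈ D.E := fun N =>
      D.E.sub_mem (D.E.smul_mem _ (D.E.sum_mem fun j _ => D.E.smul_mem _ (pi_mem D _ hx)))
        (D.E.smul_mem _ (e_mem D m))
    refine squeeze_zero' (Filter.Eventually.of_forall fun N => hnn _ (hmem N)) ?_
      (tendsto_const_div_atTop_nhds_zero_nat C)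
    filter_upwards [eventually_ge_atTop 1] with N hN
    exact hsup _ _ fun p hp => hC p hp.1 (fun j => hB j p hp) N hN

end Pool.Agent.T6.H28.SN
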