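import Pool.Agent.T6.H28.SN.Stm

set_option autoImplicit false

open scoped InnerProductSpace ComplexConjugate Topology ENNReal
open Filter MeasureTheory

namespace Pool.Agent.T6.H28.SN

namespace ModZER

variable (D : Rep) (k : ℤ)

/-- the coefficient vanishes for positive times -/
def Van (m : ℤ) : Prop := ∀ t : ℝ, 0 < t → mc D k m t = 0

theorem step (hA : StmALG) (hk : k ∈ D.S) {m : ℤ} (hm : m ∈ D.S) (h : Van D k m) :
    (m + 2 ∈ D.S → Van D k (m + 2)) ∧ (m - 2 ∈ D.S → Van D k (m - 2)) := by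
  obtain ⟨_, _, _, hd, hi⟩ := hA D k hk
  have key : ∀ t : ℝ, 0 < t → D.a (m - 2) * mc D k (m - 2) t = 0 ∧
      conj (D.a m) * mc D k (m + 2) t = 0 := by
    intro t ht
    have h1 : D.a (m - 2) * mc D k (m - 2) t - conj (D.a m) * mc D k (m + 2) t = 0 := by
      have e1 := hd m t
      have e2 : HasDerivAt (fun t => mc D k m t) 0 t := by
        have : (fun t => mc D k m t) =ᶠ[𝓝 t] fun _ => (0 : ℂ) := by
          filter_upwards [lt_mem_nhds ht] with s hs
          exact h s hs
        exact (hasDerivAt_const t (0 : ℂ)).congr_of_eventuallyEq this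
      exact e1.unique e2
    have h2 := hi m t
    rw [h t ht, mul_zero, mul_zero, zero_sub, neg_eq_zero] at h2
    have h3 : ((Real.sinh (2 * t) : ℝ) : ℂ) ≠ 0 := by
      have : 0 < Real.sinh (2 * t) := Real.sinh_pos_iff.2 (by linarith)
      exact_mod_cast this.ne'
    have h4 : conj (D.a m) * mc D k (m + 2) t + D.a (m - 2) * mc D k (m - 2) t = 0 :=
      (mul_eq_zero.1 h2).resolve_left h3
    constructor
    · linear_combination (h1 + h4) / 2
    · linear_combination (h4 - h1) / 2
  constructor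
  · intro h2 t ht
    have ha : D.a m ≠ 0 := (D.a_ne m).2 ⟨hm, h2⟩
    exact (mul_eq_zero.1 (key t ht).2).resolve_left (by simpa using ha)
  · intro h2 t ht
    have ha : D.a (m - 2) ≠ 0 := (D.a_ne _).2 ⟨h2, by simpa using hm⟩
    exact (mul_eq_zero.1 (key t ht).1).resolve_left ha

theorem toK (hA : StmALG) (hk : k ∈ D.S) {m : ℤ} (hm : m ∈ D.S) (h : Van D k m) : Van D k k := by
  have A : ∀ j : ℕ, ∀ m ∈ D.S, Van D k m → (k = m + 2 * j ∨ k = m - 2 * j) → Van D k k := by
    intro j
    induction j with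
    | zero =>
      intro m hm h e
      have : k = m := by rcases e with e | e <;> simpa using e
      rw [this] at h ⊢; exact h
    | succ j ih =>
      intro m hm h e
      rcases e with e | e
      · have h2 : m + 2 ∈ D.S := (D.conn m hm k hk).2 _ (by omega) (by push_cast at e; omega) ⟨1, by ring⟩
        exact ih (m + 2) h2 ((step D k hA hk hm h).1 h2) (Or.inl (by push_cast at e; omega))
      · have h2 : m - 2 ∈ D.S := (D.conn k hk m hm).2 _ (by push_cast at e; omega) (by omega)
          ⟨j, by push_cast at e; omega⟩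
        exact ih (m - 2) h2 ((step D k hA hk hm h).2 h2) (Or.inr (by push_cast at e; omega))
  rcases le_total m k with hle | hle
  · obtain ⟨j, hj⟩ := (D.conn m hm k hk).1
    exact A j.toNat m hm h (Or.inl (by omega))
  · obtain ⟨j, hj⟩ := (D.conn k hk m hm).1
    exact A j.toNat m hm h (Or.inr (by omega))

theorem notVan (hA : StmALG) (hk : k ∈ D.S) : ¬ Van D k k := by
  intro h
  obtain ⟨_, _, h0, hd, _⟩ := hA D k hk
  have hc : ContinuousAt (fun t => mc D k k t) 0 := (hd k 0).continuousAt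
  have h1 : Tendsto (fun t => mc D k k t) (𝓝[>] 0) (𝓝 (mc D k k 0)) :=
    hc.tendsto.mono_left nhdsWithin_le_nhds
  have h2 : Tendsto (fun t => mc D k k t) (𝓝[>] (0:ℝ)) (𝓝 0) := by
    refine tendsto_const_nhds.congr' ?_
    filter_upwards [self_mem_nhdsWithin] with t ht
    exact (h t ht).symm
  have := tendsto_nhds_unique h1 h2
  rw [h0 k, if_pos rfl] at this
  exact one_ne_zero this

theorem norm_le_one (hA : StmALG) (hk : k ∈ D.S) (m : ℤ) (t : ℝ) : ‖mc D k m t‖ ≤ 1 := by
  have h := (hA D k hk).2.1 {m} t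
  rw [Finset.sum_singleton] at h
  exact abs_le_of_sq_le_sq' (by simpa using h) zero_le_one |>.2

theorem order (hA : StmALG) (hk : k ∈ D.S) : ∀ (j : ℕ) (m : ℤ), 2 * (j : ℤ) ≤ |m - k| →
    ∃ C : ℝ, ∀ t : ℝ, 0 ≤ t → t ≤ 1 → ‖mc D k m t‖ ≤ C * t ^ j := by
  obtain ⟨_, _, h0, hd, _⟩ := hA D k hk
  intro j
  induction j with
  | zero =>
    intro m _
    exact ⟨1, fun t _ _ => by simpa using norm_le_one D k hA hk m t⟩
  | succ j ih =>
    intro m hm
    push_cast at hm
    have hmk : m ≠ k := by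
      rintro rfl
      simp at hm
      omega
    obtain ⟨C1, hC1⟩ := ih (m - 2) (by
      have := abs_sub_abs_le_abs_sub (m - k) 2
      have e : |(2:ℤ)| = 2 := rfl
      have e2 : m - k - 2 = m - 2 - k := by ring
      rw [e2, e] at this
      omega)
    obtain ⟨C2, hC2⟩ := ih (m + 2) (by
      have := abs_sub_abs_le_abs_sub (m - k) (-2)
      have e : |(-2:ℤ)| = 2 := rfl
      have e2 : m - k - -2 = m + 2 - k := by ring
      rw [e2, e] at this
      omega)
    refine ⟨‖D.a (m - 2)‖ * |C1| + ‖D.a m‖ * |C2|, fun t ht0 ht1 => ?_⟩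
    set B := (‖D.a (m - 2)‖ * |C1| + ‖D.a m‖ * |C2|) * t ^ j with hB
    have hder : ∀ s ∈ Set.Icc (0:ℝ) t, HasDerivWithinAt (fun t => mc D k m t)
        (D.a (m - 2) * mc D k (m - 2) s - conj (D.a m) * mc D k (m + 2) s) (Set.Icc 0 t) s :=
      fun s _ => (hd m s).hasDerivWithinAt
    have hbd : ∀ s ∈ Set.Ico (0:ℝ) t,
        ‖D.a (m - 2) * mc D k (m - 2) s - conj (D.a m) * mc D k (m + 2) s‖ ≤ B := by
      intro s hs
      have hs1 : s ≤ 1 := hs.2.le.trans ht1
      have hst : s ^ j ≤ t ^ j := pow_le_pow_left₀ hs.1 hs.2.le j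
      have hsj : 0 ≤ s ^ j := pow_nonneg hs.1 j
      have a1 : ‖mc D k (m - 2) s‖ ≤ |C1| * t ^ j :=
        (hC1 s hs.1 hs1).trans ((mul_le_mul_of_nonneg_right (le_abs_self C1) hsj).trans
          (mul_le_mul_of_nonneg_left hst (abs_nonneg _)))
      have a2 : ‖mc D k (m + 2) s‖ ≤ |C2| * t ^ j :=
        (hC2 s hs.1 hs1).trans ((mul_le_mul_of_nonneg_right (le_abs_self C2) hsj).trans
          (mul_le_mul_of_nonneg_left hst (abs_nonneg _)))
      refine (norm_sub_le _ _).trans ?_
      rw [norm_mul, norm_mul, RCLike.norm_conj, hB, add_mul, mul_assoc, mul_assoc]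
      exact add_le_add (mul_le_mul_of_nonneg_left a1 (norm_nonneg _))
        (mul_le_mul_of_nonneg_left a2 (norm_nonneg _))
    have h1 := norm_image_sub_le_of_norm_deriv_le_segment' hder hbd t ⟨ht0, le_rfl⟩
    have h2 : mc D k m 0 = 0 := by rw [h0 m, if_neg hmk]
    rw [h2, sub_zero, sub_zero] at h1
    rw [pow_succ, ← mul_assoc]
    exact h1

end ModZER

open ModZER in
theorem zer (hALG : StmALG) (_hKAP : StmKAP) : StmZER := by
  intro D k hk
  refine ⟨fun m hm => ?_, order D k hALG hk⟩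
  by_contra h
  push Not at h
  exact notVan D k hALG hk (toK D k hALG hk hm h)

end Pool.Agent.T6.H28.SN
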