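import Pool.Agent.T6.H28.SN.Fin0
import Pool.Agent.T6.H28.SN.Alg
import Pool.Agent.T6.H28.SN.Kap
import Pool.Agent.T6.H28.SN.Cnt
import Pool.Agent.T6.H28.SN.Zer
import Pool.Agent.T6.H28.SN.Kak
import Pool.Agent.T6.H28.SN.Rand
import Pool.Agent.T6.H28.SN.Lowa
import Pool.Agent.T6.H28.SN.Lowr
import Pool.Agent.T6.H28.SN.Low
import Pool.Agent.T6.H28.SN.Deca
import Pool.Agent.T6.H28.SN.Dec
import Pool.Agent.T6.H28.SN.Avgl
import Pool.Agent.T6.H28.SN.Lip
import Pool.Agent.T6.H28.SN.Uavg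
import Pool.Agent.T6.H28.SN.Hil
import Pool.Agent.T6.H28.SN.Supn
import Pool.Agent.T6.H28.SN.Max
import Pool.Agent.T6.H28.SN.Upp
import Pool.Agent.T6.H28.SN.Dyad
import Pool.Agent.T6.H28.SN.Netg
import Pool.Agent.T6.H28.SN.Cont
import Pool.Agent.T6.H28.SN.Netx
import Pool.Agent.T6.H28.SN.Haar
import Pool.Agent.T6.H28.SN.Pos
import Pool.Agent.T6.H28.SN.Schur
import Pool.Agent.T6.H28.SN.Bra
import Pool.Agent.T6.H28.SN.Brt
import Pool.Agent.T6.H28.SN.Finlb
import Pool.Agent.T6.H28.SN.Finub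

/-!
# Assembly of the first part
-/

set_option autoImplicit false

namespace Pool.Agent.T6.H28.SN

namespace ModASM

theorem hZER : StmZER := zer alg kap
theorem hLOW : StmLOW := low alg kap hZER (lowr lowa)
theorem hDEC : StmDEC := dec alg kap deca
theorem hUPP : StmUPP := upp alg hLOW avgl
theorem hCONT : StmCONT := cont lip
theorem hSUPN : StmSUPN := supn alg hZER avgl lip (uavg lip) hil
theorem hMAX : StmMAX := max' hSUPN hil
theorem hSCHUR : StmSCHUR := schur kap hCONT pos'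
theorem hBRT : StmBRT := brt kak hUPP hCONT haar pos' hSCHUR (bra kap)
theorem hFINLB : StmFINLB := finlb alg (cnt kap) rand hMAX (netg alg kap kak hDEC)
  (netx kap kak lip hUPP) hBRT
theorem hFINUB : StmFINUB := finub hUPP dyad haar hSCHUR

theorem main (D : Rep) (Γ : Subgroup G) (F : Set G) (η : D.H →ₗ[ℂ] ℂ) (h : IsAut D Γ F η) :
    (∃ pm, IsMax D pm) ∧ ∀ pm, IsMax D pm → dist D (pAut D η) pm = 1 / 2 :=
  ModFIN.fin hMAX hFINUB hFINLB D Γ F η h

end ModASM

end Pool.Agent.T6.H28.SN
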