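import Pool.Agent.T6.H28.SN.Stm2
import Pool.Agent.T6.H28.SN.Alg
import Pool.Agent.T6.H28.SN.Cont
import Pool.Agent.T6.H28.SN.Hil

/-!
# CMPL: the completion
-/

set_option autoImplicit false

open scoped InnerProductSpace ComplexConjugate Topology
open Filter

namespace Pool.Agent.T6.H28.SN

namespace ModCMPL

open ModALG ModCONT ModHIL

/-- the space `E`, to be considered with the norm `p` -/
def EE (D : Rep) (p : D.H → ℝ) (_ : IsGNorm D p) : Type := ↥D.E

section
variable {D : Rep} {p : D.H → ℝ} (hp : IsGNorm D p)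

noncomputable instance instA : AddCommGroup (EE D p hp) := inferInstanceAs (AddCommGroup ↥D.E)
noncomputable instance instM : Module ℂ (EE D p hp) := inferInstanceAs (Module ℂ ↥D.E)

/-- the underlying vector -/
def vl (x : EE D p hp) : D.H := Subtype.val (p := fun y => y ∈ D.E) x

/-- constructor -/
def mk (x : D.H) (hx : x ∈ D.E) : EE D p hp := (⟨x, hx⟩ : ↥D.E)

theorem vl_mem (x : EE D p hp) : vl hp x ∈ D.E := Subtype.property (p := fun y => y ∈ D.E) x
theorem vl_mk (x : D.H) (hx : x ∈ D.E) : vl hp (mk hp x hx) = x := rfl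
theorem mk_vl (x : EE D p hp) : mk hp (vl hp x) (vl_mem hp x) = x := rfl
theorem vl_add (x y : EE D p hp) : vl hp (x + y) = vl hp x + vl hp y := rfl
theorem vl_sub (x y : EE D p hp) : vl hp (x - y) = vl hp x - vl hp y := rfl
theorem vl_smul (c : ℂ) (x : EE D p hp) : vl hp (c • x) = c • vl hp x := rfl
theorem vl_zero : vl hp 0 = 0 := rfl
theorem vl_inj {x y : EE D p hp} (h : vl hp x = vl hp y) : x = y := Subtype.ext h

include hp in
theorem p_zero : p 0 = 0 := by
  have := hp.smul 0 0 (zero_mem _)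
  rw [zero_smul, norm_zero, zero_mul] at this
  exact this

include hp in
theorem p_nonneg (x : D.H) (hx : x ∈ D.E) : 0 ≤ p x := by
  by_cases h : x = 0
  · rw [h, p_zero hp]
  · exact (hp.pos x hx h).le

noncomputable instance instN : Norm (EE D p hp) := ⟨fun x => p (vl hp x)⟩

theorem norm_def (x : EE D p hp) : ‖x‖ = p (vl hp x) := rfl

theorem core : NormedSpace.Core ℂ (EE D p hp) where
  norm_nonneg x := p_nonneg hp _ (vl_mem hp x)
  norm_smul c x := hp.smul c _ (vl_mem hp x)
  norm_triangle x y := hp.add _ (vl_mem hp x) _ (vl_mem hp y)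
  norm_eq_zero_iff x := by
    constructor
    · intro h
      by_contra hx
      have : vl hp x ≠ 0 := fun h0 => hx (vl_inj hp h0)
      exact (hp.pos _ (vl_mem hp x) this).ne' h
    · intro h
      rw [h, norm_def, vl_zero, p_zero hp]

noncomputable instance instNG : NormedAddCommGroup (EE D p hp) :=
  NormedAddCommGroup.ofCore (core hp)
noncomputable instance instNS : NormedSpace ℂ (EE D p hp) := NormedSpace.ofCore (core hp)

/-- the Banach space -/
abbrev BB : Type := UniformSpace.Completion (EE D p hp)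

/-- the embedding -/
noncomputable def io : EE D p hp →ₗᵢ[ℂ] BB hp := UniformSpace.Completion.toComplₗᵢ

theorem io_norm (x : EE D p hp) : ‖io hp x‖ = p (vl hp x) := (io hp).norm_map x

theorem io_dense : DenseRange (io hp) := UniformSpace.Completion.denseRange_coe

/-- the action on `E` -/
noncomputable def act (g : G) : EE D p hp →ₗ[ℂ] EE D p hp where
  toFun x := mk hp (D.π g (vl hp x)) (pi_mem D g _ (vl_mem hp x))
  map_add' x y := vl_inj hp (by
    rw [vl_mk, vl_add, map_add, vl_add, vl_mk, vl_mk])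
  map_smul' c x := vl_inj hp (by
    rw [vl_mk, vl_smul, map_smul, vl_smul, vl_mk]
    rfl)

theorem vl_act (g : G) (x : EE D p hp) : vl hp (act hp g x) = D.π g (vl hp x) := rfl

include hp in
theorem exC : ∃ C : ℝ, 1 ≤ C ∧ ∀ g, ∀ x ∈ D.E, p (D.π g x) ≤ C * p x := by
  obtain ⟨C, hC⟩ := hp.bdd
  refine ⟨max 1 C, le_max_left _ _, fun g x hx => (hC g x hx).trans ?_⟩
  exact mul_le_mul_of_nonneg_right (le_max_right _ _) (p_nonneg hp x hx)

/-- the extended action -/
noncomputable def rh (g : G) : BB hp →L[ℂ] BB hp :=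
  ((io hp).toLinearMap.comp (act hp g)).extendOfNorm (io hp).toLinearMap

theorem rh_io (g : G) (x : EE D p hp) : rh hp g (io hp x) = io hp (act hp g x) := by
  obtain ⟨C, -, hC⟩ := exC hp
  exact LinearMap.extendOfNorm_eq (f := (io hp).toLinearMap.comp (act hp g))
    (e := (io hp).toLinearMap) (io_dense hp) ⟨C, fun y => by
      show ‖io hp (act hp g y)‖ ≤ C * ‖io hp y‖
      rw [io_norm, io_norm, vl_act]
      exact hC g _ (vl_mem hp y)⟩ x

theorem rh_norm : ∃ C : ℝ, 1 ≤ C ∧ ∀ g, ‖rh hp g‖ ≤ C := by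
  obtain ⟨C, h1, hC⟩ := exC hp
  refine ⟨C, h1, fun g => ?_⟩
  exact LinearMap.opNorm_extendOfNorm_le (f := (io hp).toLinearMap.comp (act hp g))
    (e := (io hp).toLinearMap) (io_dense hp) (by linarith) (fun y => by
      show ‖io hp (act hp g y)‖ ≤ C * ‖io hp y‖
      rw [io_norm, io_norm, vl_act]
      exact hC g _ (vl_mem hp y))

theorem rh_one : rh hp 1 = 1 := by
  apply ContinuousLinearMap.ext
  intro y
  have := (io_dense hp).equalizer (rh hp 1).continuous
    ((1 : BB hp →L[ℂ] BB hp)).continuous (by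
      funext x
      show rh hp 1 (io hp x) = io hp x
      rw [rh_io]
      congr 1
      apply vl_inj
      rw [vl_act, pi_one])
  exact congr_fun this y

theorem rh_mul (g h : G) : rh hp (g * h) = rh hp g * rh hp h := by
  apply ContinuousLinearMap.ext
  intro y
  have := (io_dense hp).equalizer (rh hp (g * h)).continuous
    ((rh hp g * rh hp h : BB hp →L[ℂ] BB hp)).continuous (by
      funext x
      show rh hp (g * h) (io hp x) = rh hp g (rh hp h (io hp x))
      rw [rh_io, rh_io, rh_io]
      congr 1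
      apply vl_inj
      rw [vl_act, vl_act, vl_act, pi_mul])
  exact congr_fun this y

/-- the representation -/
noncomputable def rho : G →* (BB hp →L[ℂ] BB hp) where
  toFun := rh hp
  map_one' := rh_one hp
  map_mul' := rh_mul hp

include hp in
theorem isSem : ∃ C0 : ℝ, IsSem D C0 p := by
  obtain ⟨C, -, hC⟩ := exC hp
  exact ⟨C, p_nonneg hp, hp.add, hp.smul, hC, hp.diff, hp.avg⟩

theorem cont_one (hCONT : StmCONT) (y : BB hp) :
    Tendsto (fun h : G => rh hp h y) (𝓝 1) (𝓝 y) := by
  obtain ⟨C0, hs⟩ := isSem hp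
  obtain ⟨C, h1, hC⟩ := rh_norm hp
  rw [Metric.tendsto_nhds]
  intro ε hε
  obtain ⟨x, hx⟩ := Metric.denseRange_iff.1 (io_dense hp) y (ε / (2 * (C + 1))) (by positivity)
  have h2 := hCONT D C0 p hs (vl hp x) (vl_mem hp x)
  filter_upwards [(h2.eventually (gt_mem_nhds (half_pos hε)))] with h hh
  rw [dist_eq_norm]
  have e : rh hp h y - y = rh hp h (y - io hp x) + (rh hp h (io hp x) - io hp x) + (io hp x - y) := by
    rw [map_sub]
    abel
  have h3 : ‖rh hp h (io hp x) - io hp x‖ < ε / 2 := by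
    rw [rh_io, ← map_sub, io_norm, vl_sub, vl_act]
    exact hh
  have h4 : ‖y - io hp x‖ < ε / (2 * (C + 1)) := by rwa [← dist_eq_norm]
  have h5 : ‖rh hp h (y - io hp x)‖ ≤ C * ‖y - io hp x‖ :=
    (rh hp h).le_of_opNorm_le (hC h) _
  have h6 : ‖io hp x - y‖ = ‖y - io hp x‖ := norm_sub_rev _ _
  have h7 : (C + 1) * ‖y - io hp x‖ < ε / 2 := by
    have := mul_lt_mul_of_pos_left h4 (by linarith : 0 < C + 1)
    have e2 : (C + 1) * (ε / (2 * (C + 1))) = ε / 2 := by
      field_simp
    rwa [e2] at this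
  calc ‖rh hp h y - y‖ ≤ ‖rh hp h (y - io hp x)‖ + ‖rh hp h (io hp x) - io hp x‖ +
        ‖io hp x - y‖ := by
        rw [e]
        exact norm_add₃_le
    _ < ε := by
        rw [h6]
        linarith

theorem cont_rho (hCONT : StmCONT) (y : BB hp) : Continuous fun g => rho hp g y := by
  rw [continuous_iff_continuousAt]
  intro g0
  have h1 : Tendsto (fun g : G => g0⁻¹ * g) (𝓝 g0) (𝓝 1) := by
    have : Continuous fun g : G => g0⁻¹ * g := continuous_const.mul continuous_id
    have h2 := this.tendsto g0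
    rwa [inv_mul_cancel] at h2
  have h3 := ((rho hp g0).continuous.tendsto y).comp ((cont_one hp hCONT y).comp h1)
  refine h3.congr fun g => ?_
  show rho hp g0 (rho hp (g0⁻¹ * g) y) = rho hp g y
  have : rho hp g = rho hp g0 * rho hp (g0⁻¹ * g) := by
    rw [← map_mul, mul_inv_cancel_left]
  rw [this]
  rfl

/-- the images of the basis vectors -/
noncomputable def bm (m : ℤ) : BB hp := io hp (mk hp (D.e m) (e_mem D m))

theorem bm_act (X : Matrix (Fin 2) (Fin 2) ℝ) (m : ℤ) :
    dAct D.a (bm hp) X m = io hp (mk hp (dAct D.a D.e X m) (dAct_mem D X m)) := by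
  unfold dAct bm
  rw [← map_smul, ← map_smul, ← map_sub, ← map_add, ← map_smul, ← map_smul, ← map_smul, ← map_smul,
    ← map_smul, ← map_add, ← map_add]
  rfl

theorem bm_diff (γ : ℝ → G) (X : Matrix (Fin 2) (Fin 2) ℝ) (hγ : IsOneParam γ X) (m : ℤ) :
    HasDerivAt (fun t => rho hp (γ t) (bm hp m)) (dAct D.a (bm hp) X m) 0 := by
  rw [hasDerivAt_iff_tendsto_slope_zero, tendsto_iff_norm_sub_tendsto_zero]
  refine (hp.diff γ X hγ m).congr fun t => ?_
  rw [zero_add, param_zero hγ, map_one, bm_act]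
  have e : t⁻¹ • (rho hp (γ t) (bm hp m) - (1 : BB hp →L[ℂ] BB hp) (bm hp m)) -
      io hp (mk hp (dAct D.a D.e X m) (dAct_mem D X m)) =
      io hp ((t : ℂ)⁻¹ • (act hp (γ t) (mk hp (D.e m) (e_mem D m)) - mk hp (D.e m) (e_mem D m)) -
        mk hp (dAct D.a D.e X m) (dAct_mem D X m)) := by
    rw [map_sub, map_smul, map_sub, ← rh_io, ← Complex.ofReal_inv, Complex.coe_smul]
    rfl
  rw [e, io_norm]
  rfl

theorem bm_dense (hDEN : StmDEN) :
    Dense (Submodule.span ℂ (Set.range (bm hp)) : Set (BB hp)) := by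
  obtain ⟨C0, hs⟩ := isSem hp
  have h1 : Set.range (io hp) ⊆ closure (Submodule.span ℂ (Set.range (bm hp)) : Set (BB hp)) := by
    rintro _ ⟨x, rfl⟩
    rw [Metric.mem_closure_iff]
    intro ε hε
    obtain ⟨A, c, hA⟩ := hDEN D C0 p hs (vl hp x) (vl_mem hp x) ε hε
    refine ⟨∑ m ∈ A, c m • bm hp m, Submodule.sum_mem _ fun m _ =>
      Submodule.smul_mem _ _ (Submodule.subset_span ⟨m, rfl⟩), ?_⟩
    have e : io hp x - ∑ m ∈ A, c m • bm hp m =
        io hp (x - ∑ m ∈ A, c m • mk hp (D.e m) (e_mem D m)) := by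
      rw [map_sub, map_sum]
      congr 1
      refine Finset.sum_congr rfl fun m _ => ?_
      rw [map_smul]
      rfl
    rw [dist_eq_norm, e, io_norm, vl_sub]
    have e2 : vl hp (∑ m ∈ A, c m • mk hp (D.e m) (e_mem D m)) = D.vec A c := by
      unfold Rep.vec
      have : ∀ x : EE D p hp, vl hp x = D.E.subtype x := fun _ => rfl
      rw [this]
      exact map_sum D.E.subtype (fun m => c m • (⟨D.e m, e_mem D m⟩ : ↥D.E)) A
    rw [e2]
    exact hA
  rw [dense_iff_closure_eq, ← Set.univ_subset_iff]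
  intro y _
  have h2 := io_dense hp y
  have h3 := closure_mono h1 h2
  rwa [closure_closure] at h3

end

end ModCMPL

open ModALG ModCONT ModHIL ModCMPL

theorem cmpl (hCONT : StmCONT) (hDEN : StmDEN) : StmCMPL := by
  intro D p hp
  refine ⟨{ B := BB hp
            ρ := rho hp
            cont := cont_rho hp hCONT
            bdd := ?_
            b := bm hp
            b_zero := ?_
            rot_b := ?_
            diff := bm_diff hp
            dense := bm_dense hp hDEN }, ?_⟩
  · obtain ⟨C, -, hC⟩ := rh_norm hp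
    exact ⟨C, hC⟩
  · intro m
    unfold bm
    rw [map_eq_zero_iff _ (io hp).injective]
    constructor
    · intro h hm
      have h1 : D.e m = 0 := by
        have := congr_arg (vl hp) h
        exact this
      have h2 := e_norm D m hm
      rw [h1, norm_zero] at h2
      exact zero_ne_one h2
    · intro hm
      apply vl_inj
      exact D.e_out m hm
  · intro θ m
    show rh hp (rot θ) (io hp _) = _ • io hp _
    rw [rh_io, ← map_smul]
    congr 1
    apply vl_inj
    rw [vl_act]
    exact D.rot_e θ m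
  · intro A c
    show p (D.vec A c) = ‖∑ m ∈ A, c m • bm hp m‖
    have e : ∑ m ∈ A, c m • bm hp m = io hp (∑ m ∈ A, c m • mk hp (D.e m) (e_mem D m)) := by
      rw [map_sum]
      refine Finset.sum_congr rfl fun m _ => ?_
      rw [map_smul]
      rfl
    rw [e, io_norm]
    congr 1
    unfold Rep.vec
    have : ∀ x : EE D p hp, vl hp x = D.E.subtype x := fun _ => rfl
    rw [this]
    exact (map_sum D.E.subtype (fun m => c m • (⟨D.e m, e_mem D m⟩ : ↥D.E)) A).symm

end Pool.Agent.T6.H28.SN
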