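import Pool.Agent.T6.H28.SN.Defs

/-!
# Banach globalisations, smooth vectors, continuous invariant functionals
-/

set_option autoImplicit false

open scoped InnerProductSpace ComplexConjugate Topology
open Filter

namespace Pool.Agent.T6.H28.SN

/-- A Banach globalisation of `V` with bounded growth: a Banach space with a continuous
representation of `G` by uniformly bounded operators, and vectors `b m`, the images of the `e m`, such
that `e m ↦ b m` is an injective homomorphism of `(𝔤, K)`-modules with dense image. -/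
structure Glob (D : Rep) where
  B : Type
  [ng : NormedAddCommGroup B]
  [ns : NormedSpace ℂ B]
  [cs : CompleteSpace B]
  ρ : G →* (B →L[ℂ] B)
  cont : ∀ x, Continuous fun g => ρ g x
  bdd : ∃ C : ℝ, ∀ g, ‖ρ g‖ ≤ C
  b : ℤ → B
  b_zero : ∀ m, b m = 0 ↔ m ∉ D.S
  rot_b : ∀ (θ : ℝ) (m : ℤ), ρ (rot θ) (b m) = Complex.exp (Complex.I * (m * θ)) • b m
  diff : ∀ (γ : ℝ → G) (X : Matrix (Fin 2) (Fin 2) ℝ), IsOneParam γ X → ∀ m : ℤ,
    HasDerivAt (fun t => ρ (γ t) (b m)) (dAct D.a b X m) 0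
  dense : Dense (Submodule.span ℂ (Set.range b) : Set B)

attribute [instance] Glob.ng Glob.ns Glob.cs

/-- `p` is an element of `Norm(V)`: a norm on `V` (the span of the `e m`) for which the completion of
`V` is a Banach globalisation with bounded growth. -/
def IsGNormV (D : Rep) (p : D.H → ℝ) : Prop :=
  ∃ W : Glob D, ∀ (A : Finset ℤ) (c : ℤ → ℂ), p (D.vec A c) = ‖∑ m ∈ A, c m • W.b m‖

/-- `p` represents the maximal class. -/
def IsMaxV (D : Rep) (p : D.H → ℝ) : Prop := IsGNormV D p ∧ ∀ q, IsGNormV D q → Dom D 0 q p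

/-- The space `V^∞` of smooth vectors: those with rapidly decreasing coefficients. -/
def Rep.Sm (D : Rep) : Set D.H :=
  {x | ∀ N : ℕ, Summable fun m : ℤ => (1 + (m : ℝ) ^ 2) ^ N * ‖⟪D.e m, x⟫_ℂ‖ ^ 2}

/-- `η` is a non-zero continuous `Γ`-invariant functional on `V^∞` (only the values of `η` on `V^∞`
are used), `Γ` a cocompact lattice. -/
structure IsAutC (D : Rep) (Γ : Subgroup G) (η : D.H →ₗ[ℂ] ℂ) : Prop where
  discrete : DiscreteTopology Γ
  cocompact : ∃ F : Set G, IsCompact F ∧ ∀ g, ∃ γ ∈ Γ, ∃ f ∈ F, g = γ * f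
  inv : ∀ γ ∈ Γ, ∀ x ∈ D.Sm, η (D.π γ x) = η x
  cont : ∃ (C : ℝ) (N : ℕ), ∀ x ∈ D.Sm,
    ‖η x‖ ≤ C * Real.sqrt (∑' m : ℤ, (1 + (m : ℝ) ^ 2) ^ N * ‖⟪D.e m, x⟫_ℂ‖ ^ 2)
  ne : ∃ x ∈ D.Sm, η x ≠ 0

end Pool.Agent.T6.H28.SN
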