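import Pool.Agent.T6.H28.SN.Stm
import Pool.Agent.T6.H28.SN.Defs2

/-!
# The statements of the modules, second part
-/

set_option autoImplicit false

open scoped InnerProductSpace ComplexConjugate Topology ENNReal
open Filter MeasureTheory

namespace Pool.Agent.T6.H28.SN

/-- PRJ: the projections to the weight spaces of a globalisation. -/
def StmPRJ : Prop := ∀ (D : Rep) (W : Glob D), ∃ P : ℤ → (W.B →L[ℂ] W.B),
  (∀ l j, P l (W.b j) = if l = j then W.b l else 0) ∧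
  (∀ (l : ℤ) (θ : ℝ) (y : W.B), P l (W.ρ (rot θ) y) = Complex.exp (Complex.I * (l * θ)) • P l y) ∧
  (∀ (l : ℤ) (y : W.B), ∃ c : ℂ, P l y = c • W.b l) ∧
  (∀ y : W.B, (∀ l, P l y = 0) → y = 0) ∧
  (∀ (l : ℤ) (y : W.B), Tendsto (fun N : ℕ => (N : ℂ)⁻¹ • (∑ j ∈ Finset.range N,
      Complex.exp (-(Complex.I * (l * (2 * Real.pi * j / N)))) • W.ρ (rot (2 * Real.pi * j / N)) y))
        atTop (𝓝 (P l y)))

/-- UNIQ: uniqueness for the system of differential equations of the matrix coefficients. -/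
def StmUNIQ : Prop := ∀ (D : Rep) (l : ℤ) (f : ℤ → ℝ → ℂ),
  (∀ m t, HasDerivAt (f m) (D.a m * f (m + 2) t - conj (D.a (m - 2)) * f (m - 2) t) t) →
  (∀ (m : ℤ) (t : ℝ), (l : ℂ) * f m t = (m : ℂ) * Real.cosh (2 * t) * f m t +
    Real.sinh (2 * t) * (D.a m * f (m + 2) t + conj (D.a (m - 2)) * f (m - 2) t)) →
  (∀ m, f m 0 = 0) → ∀ m t, 0 ≤ t → f m t = 0

/-- MCO: the matrix coefficients of a globalisation. -/
def StmMCO : Prop := ∀ (D : Rep) (W : Glob D) (P : ℤ → (W.B →L[ℂ] W.B)),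
  (∀ l j, P l (W.b j) = if l = j then W.b l else 0) →
  (∀ (l : ℤ) (θ : ℝ) (y : W.B), P l (W.ρ (rot θ) y) = Complex.exp (Complex.I * (l * θ)) • P l y) →
  (∀ (l : ℤ) (y : W.B), ∃ c : ℂ, P l y = c • W.b l) →
  ∀ (l m : ℤ) (g : G), P l (W.ρ g (W.b m)) = ⟪D.e l, D.π g (D.e m)⟫_ℂ • W.b l

/-- EXT: the norm of a globalisation as a norm on `E`. -/
def StmEXT : Prop := ∀ (D : Rep) (W : Glob D), ∃ p : D.H → ℝ, IsGNorm D p ∧
  ∀ (A : Finset ℤ) (c : ℤ → ℂ), p (D.vec A c) = ‖∑ m ∈ A, c m • W.b m‖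

/-- DEN: `V` is dense in `E`. -/
def StmDEN : Prop := ∀ (D : Rep) (C0 : ℝ) (p : D.H → ℝ), IsSem D C0 p → ∀ x ∈ D.E, ∀ ε : ℝ, 0 < ε →
  ∃ (A : Finset ℤ) (c : ℤ → ℂ), p (x - D.vec A c) < ε

/-- CMPL: the completion. -/
def StmCMPL : Prop := ∀ (D : Rep) (p : D.H → ℝ), IsGNorm D p → IsGNormV D p

/-- SOB: rapid decrease of the coefficients of `π(g) e_m`, locally uniformly in `g`. -/
def StmSOB : Prop := ∀ (D : Rep) (m : ℤ) (N : ℕ) (R : ℝ), ∃ B : ℝ, ∀ g : G, (∀ i j, |g.1 i j| ≤ R) →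
  ∀ l : ℤ, (1 + |(l : ℝ)|) ^ N * ‖⟪D.e l, D.π g (D.e m)⟫_ℂ‖ ≤ B

/-- ETA0: first properties of a continuous functional. -/
def StmETA0 : Prop := ∀ (D : Rep) (Γ : Subgroup G) (η : D.H →ₗ[ℂ] ℂ), IsAutC D Γ η →
  (∀ x ∈ D.E, x ∈ D.Sm) ∧ (∃ (C : ℝ) (N : ℕ), ∀ m : ℤ, ‖η (D.e m)‖ ≤ C * (1 + |(m : ℝ)|) ^ N) ∧
  (∀ x ∈ D.Sm, HasSum (fun m : ℤ => η (D.e m) * ⟪D.e m, x⟫_ℂ) (η x)) ∧
  (∀ x ∈ D.E, BddAbove (Set.range fun g : G => ‖η (D.π g x)‖))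

/-- ETA1: differentiability. -/
def StmETA1 : Prop := ∀ (D : Rep) (Γ : Subgroup G) (η : D.H →ₗ[ℂ] ℂ), IsAutC D Γ η →
  ∀ (γ : ℝ → G) (X : Matrix (Fin 2) (Fin 2) ℝ), IsOneParam γ X → ∀ (g : G) (m : ℤ) (t : ℝ),
    HasDerivAt (fun t => η (D.π g (D.π (γ t) (D.e m))))
      (η (D.π g (D.π (γ t) (dAct D.a D.e X m)))) t

/-- ETA2: `p_aut` has all properties of an element of `Norm(V)` except positivity. -/
def StmETA2 : Prop := ∀ (D : Rep) (Γ : Subgroup G) (η : D.H →ₗ[ℂ] ℂ), IsAutC D Γ η →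
  IsSem D 1 (pAut D η)

/-- ETA3: `p_aut` is in `Norm(V)`. -/
def StmETA3 : Prop := ∀ (D : Rep) (Γ : Subgroup G) (η : D.H →ₗ[ℂ] ℂ), IsAutC D Γ η →
  ∀ F : Set G, IsCompact F → (∀ g, ∃ γ ∈ Γ, ∃ f ∈ F, g = γ * f) → IsAut D Γ F η

end Pool.Agent.T6.H28.SN
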