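import Mathlib
import Pool.Agent.T6.H28.SN.Stm
import Pool.Agent.T6.H28.SN.Kak
import Pool.Agent.T6.H28.SN.Lip

/-! Module UAVG of project SN: uniform averages. -/

set_option autoImplicit false

open scoped InnerProductSpace ComplexConjugate Topology
open Filter

namespace Pool.Agent.T6.H28.SN

namespace ModUAVG

open ModLIP ModKAK

variable {D : Rep} {C0 : ℝ} {p : D.H → ℝ}

/-- the rotated vector -/
noncomputable def fx (D : Rep) (m : ℤ) (x : D.H) (θ : ℝ) : D.H :=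
  Complex.exp (-(Complex.I * (m * (θ : ℂ)))) • D.π (rot θ) x

theorem fx_mem (m : ℤ) {x : D.H} (hx : x ∈ D.E) (θ : ℝ) : fx D m x θ ∈ D.E :=
  Submodule.smul_mem _ _ (pi_mem _ hx)

/-- uniform bound -/
theorem bound (D : Rep) (C0 : ℝ) (B : ℤ → ℝ) {y : D.H} (hy : y ∈ D.E) :
    ∃ K : ℝ, ∀ p : D.H → ℝ, IsSem D C0 p → (∀ j, p (D.e j) ≤ B j) → p y ≤ K := by
  unfold Rep.E at hy
  induction hy using Submodule.span_induction with
  | mem x h =>
    obtain ⟨g, j, rfl⟩ := h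
    refine ⟨|C0| * |B j|, fun p hp hB => ?_⟩
    refine (hp.bdd g _ (e_mem j)).trans ?_
    have h0 := hp.nonneg _ (e_mem j)
    calc C0 * p (D.e j) ≤ |C0| * p (D.e j) := mul_le_mul_of_nonneg_right (le_abs_self _) h0
      _ ≤ |C0| * |B j| := mul_le_mul_of_nonneg_left ((hB j).trans (le_abs_self _)) (abs_nonneg _)
  | zero => exact ⟨0, fun p hp _ => (p_zero hp).le⟩
  | add x y hx hy ihx ihy =>
    obtain ⟨K1, h1⟩ := ihx
    obtain ⟨K2, h2⟩ := ihy
    exact ⟨K1 + K2, fun p hp hB => (hp.add x hx y hy).trans (add_le_add (h1 p hp hB) (h2 p hp hB))⟩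
  | smul c x hx ih =>
    obtain ⟨K, h1⟩ := ih
    refine ⟨‖c‖ * K, fun p hp hB => ?_⟩
    rw [hp.smul c x hx]
    exact mul_le_mul_of_nonneg_left (h1 p hp hB) (norm_nonneg _)

theorem rot_deriv (i j : Fin 2) :
    HasDerivAt (fun t => (rot t).1 i j) ((!![0, 1; -1, 0] : Matrix (Fin 2) (Fin 2) ℝ) i j) 0 := by
  fin_cases i <;> fin_cases j
  · change HasDerivAt (fun t => Real.cos t) 0 0
    simpa using Real.hasDerivAt_cos 0
  · change HasDerivAt (fun t => Real.sin t) 1 0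
    simpa using Real.hasDerivAt_sin 0
  · change HasDerivAt (fun t => -Real.sin t) (-1) 0
    have h := (Real.hasDerivAt_sin 0).fun_neg
    rw [Real.cos_zero] at h
    exact h
  · change HasDerivAt (fun t => Real.cos t) 0 0
    simpa using Real.hasDerivAt_cos 0

theorem conj_oneParam (g : G) :
    IsOneParam (fun t => g⁻¹ * rot t * g) ((g⁻¹).1 * !![0, 1; -1, 0] * g.1) where
  add s t := by
    rw [rot_add]
    group
  deriv i j := by
    simp only [Matrix.SpecialLinearGroup.coe_mul, Matrix.mul_apply, Fin.sum_univ_two]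
    have h := rot_deriv
    exact ((((h 0 0).const_mul _).add ((h 1 0).const_mul _)).mul_const _).add
      ((((h 0 1).const_mul _).add ((h 1 1).const_mul _)).mul_const _)

/-- the rotated vector is Lipschitz, uniformly -/
theorem lipf (hLIP : StmLIP) (D : Rep) (C0 : ℝ) (B : ℤ → ℝ) {x : D.H} (hx : x ∈ D.E) :
    ∃ C : ℝ, ∀ p : D.H → ℝ, IsSem D C0 p → (∀ j, p (D.e j) ≤ B j) → ∀ θ s : ℝ,
      p (D.π (rot (θ + s)) x - D.π (rot θ) x) ≤ C * |s| := by
  unfold Rep.E at hx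
  induction hx using Submodule.span_induction with
  | mem x h =>
    obtain ⟨g, j, rfl⟩ := h
    obtain ⟨K, hK⟩ := bound D C0 B (dAct_mem ((g⁻¹).1 * !![0, 1; -1, 0] * g.1) D.e e_mem j)
    refine ⟨|C0| * (|C0| * (|C0| * K)), fun p hp hB θ s => ?_⟩
    have h1 := (hLIP D C0 p hp _ _ (conj_oneParam g) j s).1
    have e1 : D.π (rot (θ + s)) (D.π g (D.e j)) - D.π (rot θ) (D.π g (D.e j)) =
        D.π (rot θ) (D.π g (D.π (g⁻¹ * rot s * g) (D.e j) - D.e j)) := by
      rw [map_sub, map_sub, ← pi_mul, ← pi_mul g, ← pi_mul (rot θ) g,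
        ← pi_mul (rot θ) (g * (g⁻¹ * rot s * g)), rot_add]
      congr 3
      group
    rw [e1]
    have hm : D.π (g⁻¹ * rot s * g) (D.e j) - D.e j ∈ D.E :=
      Submodule.sub_mem _ (pi_mem _ (e_mem j)) (e_mem j)
    have hz := hp.nonneg _ hm
    have hz2 := hp.nonneg _ (pi_mem g hm)
    have hd := hp.nonneg _ (dAct_mem ((g⁻¹).1 * !![0, 1; -1, 0] * g.1) D.e e_mem j)
    have hKp := hK p hp hB
    have k1 := hp.bdd (rot θ) _ (pi_mem g hm)
    have k2 := hp.bdd g _ hm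
    have a0 : C0 ≤ |C0| := le_abs_self _
    have a1 : 0 ≤ |C0| := abs_nonneg _
    calc p (D.π (rot θ) (D.π g (D.π (g⁻¹ * rot s * g) (D.e j) - D.e j)))
        ≤ |C0| * p (D.π g (D.π (g⁻¹ * rot s * g) (D.e j) - D.e j)) :=
          k1.trans (mul_le_mul_of_nonneg_right a0 hz2)
      _ ≤ |C0| * (|C0| * p (D.π (g⁻¹ * rot s * g) (D.e j) - D.e j)) :=
          mul_le_mul_of_nonneg_left (k2.trans (mul_le_mul_of_nonneg_right a0 hz)) a1
      _ ≤ |C0| * (|C0| * (|C0| * |s| * K)) := by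
          refine mul_le_mul_of_nonneg_left (mul_le_mul_of_nonneg_left ?_ a1) a1
          refine h1.trans ?_
          calc C0 * |s| * p (dAct D.a D.e ((g⁻¹).1 * !![0, 1; -1, 0] * g.1) j)
              ≤ |C0| * |s| * p (dAct D.a D.e ((g⁻¹).1 * !![0, 1; -1, 0] * g.1) j) :=
                mul_le_mul_of_nonneg_right
                  (mul_le_mul_of_nonneg_right a0 (abs_nonneg _)) hd
            _ ≤ |C0| * |s| * K := mul_le_mul_of_nonneg_left hKp (by positivity)
      _ = |C0| * (|C0| * (|C0| * K)) * |s| := by ring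
  | zero => exact ⟨0, fun p hp _ θ s => by simp [p_zero hp]⟩
  | add x y hx hy ihx ihy =>
    obtain ⟨K1, h1⟩ := ihx
    obtain ⟨K2, h2⟩ := ihy
    refine ⟨K1 + K2, fun p hp hB θ s => ?_⟩
    have e1 : D.π (rot (θ + s)) (x + y) - D.π (rot θ) (x + y) =
        (D.π (rot (θ + s)) x - D.π (rot θ) x) + (D.π (rot (θ + s)) y - D.π (rot θ) y) := by
      rw [map_add, map_add]; abel
    rw [e1, add_mul]
    exact (hp.add _ (Submodule.sub_mem _ (pi_mem _ hx) (pi_mem _ hx)) _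
      (Submodule.sub_mem _ (pi_mem _ hy) (pi_mem _ hy))).trans
      (add_le_add (h1 p hp hB θ s) (h2 p hp hB θ s))
  | smul c x hx ih =>
    obtain ⟨K, h1⟩ := ih
    refine ⟨‖c‖ * K, fun p hp hB θ s => ?_⟩
    rw [map_smul, map_smul, ← smul_sub, hp.smul c _
      (Submodule.sub_mem _ (pi_mem _ hx) (pi_mem _ hx)), mul_assoc]
    exact mul_le_mul_of_nonneg_left (h1 p hp hB θ s) (norm_nonneg _)

theorem exp_sub (m : ℤ) (θ s : ℝ) : ‖Complex.exp (-(Complex.I * (m * ((θ + s : ℝ) : ℂ)))) -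
    Complex.exp (-(Complex.I * (m * (θ : ℂ))))‖ ≤ |(m : ℝ)| * |s| := by
  have e : Complex.exp (-(Complex.I * (m * ((θ + s : ℝ) : ℂ)))) -
      Complex.exp (-(Complex.I * (m * (θ : ℂ)))) =
      Complex.exp (Complex.I * ((-(m * θ) : ℝ) : ℂ)) *
        (Complex.exp (Complex.I * ((-(m * s) : ℝ) : ℂ)) - 1) := by
    rw [mul_sub, mul_one, ← Complex.exp_add]
    congr 2
    · push_cast; ring
    · push_cast; ring
  rw [e, norm_mul, mul_comm Complex.I, Complex.norm_exp_ofReal_mul_I, one_mul]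
  refine (Real.norm_exp_I_mul_ofReal_sub_one_le (x := -(m * s))).trans ?_
  rw [Real.norm_eq_abs, abs_neg, abs_mul]

theorem lipfx (hLIP : StmLIP) (D : Rep) (C0 : ℝ) (B : ℤ → ℝ) (m : ℤ) {x : D.H} (hx : x ∈ D.E) :
    ∃ C : ℝ, ∀ p : D.H → ℝ, IsSem D C0 p → (∀ j, p (D.e j) ≤ B j) → ∀ θ s : ℝ,
      p (fx D m x (θ + s) - fx D m x θ) ≤ C * |s| := by
  obtain ⟨C1, h1⟩ := lipf hLIP D C0 B hx
  obtain ⟨K, hK⟩ := bound D C0 B hx
  refine ⟨C1 + |(m : ℝ)| * (|C0| * K), fun p hp hB θ s => ?_⟩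
  have hm1 := fun θ => pi_mem (D := D) (rot θ) hx
  have e : fx D m x (θ + s) - fx D m x θ =
      Complex.exp (-(Complex.I * (m * ((θ + s : ℝ) : ℂ)))) •
        (D.π (rot (θ + s)) x - D.π (rot θ) x) +
      (Complex.exp (-(Complex.I * (m * ((θ + s : ℝ) : ℂ)))) -
        Complex.exp (-(Complex.I * (m * (θ : ℂ))))) • D.π (rot θ) x := by
    unfold fx
    rw [smul_sub, sub_smul]
    abel
  rw [e, add_mul]
  refine (hp.add _ (Submodule.smul_mem _ _ (Submodule.sub_mem _ (hm1 _) (hm1 _))) _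
    (Submodule.smul_mem _ _ (hm1 _))).trans (add_le_add ?_ ?_)
  · rw [hp.smul _ _ (Submodule.sub_mem _ (hm1 _) (hm1 _))]
    have : ‖Complex.exp (-(Complex.I * (m * ((θ + s : ℝ) : ℂ))))‖ = 1 := by
      have e2 : -(Complex.I * (m * ((θ + s : ℝ) : ℂ))) = ((-(m * (θ + s)) : ℝ) : ℂ) * Complex.I := by
        push_cast; ring
      rw [e2, Complex.norm_exp_ofReal_mul_I]
    rw [this, one_mul]
    exact h1 p hp hB θ s
  · rw [hp.smul _ _ (hm1 _)]
    have k1 := hp.bdd (rot θ) x hx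
    have k2 := hp.nonneg x hx
    have k3 := hK p hp hB
    have k4 : p (D.π (rot θ) x) ≤ |C0| * K :=
      k1.trans ((mul_le_mul_of_nonneg_right (le_abs_self _) k2).trans
        (mul_le_mul_of_nonneg_left k3 (abs_nonneg _)))
    calc _ ≤ (|(m : ℝ)| * |s|) * (|C0| * K) := by
          refine mul_le_mul (exp_sub m θ s) k4 (hp.nonneg _ (hm1 _)) (by positivity)
      _ = |(m : ℝ)| * (|C0| * K) * |s| := by ring

/-- the Riemann sum -/
noncomputable def avg (f : ℝ → D.H) (N : ℕ) : D.H :=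
  (N : ℂ)⁻¹ • ∑ j ∈ Finset.range N, f (2 * Real.pi * j / N)

theorem sum_mul (F : ℕ → D.H) (N M : ℕ) : ∑ l ∈ Finset.range (N * M), F l =
    ∑ j ∈ Finset.range N, ∑ i ∈ Finset.range M, F (j * M + i) := by
  induction N with
  | zero => simp
  | succ N ih => rw [Nat.succ_mul, Finset.sum_range_add, ih, Finset.sum_range_succ]

theorem avg_mul (hp : IsSem D C0 p) {f : ℝ → D.H} (hf : ∀ θ, f θ ∈ D.E) {C : ℝ}
    (hC : ∀ θ s, p (f (θ + s) - f θ) ≤ C * |s|) {N M : ℕ} (hN : 1 ≤ N) (hM : 1 ≤ M) :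
    p (avg f N - avg f (N * M)) ≤ 2 * Real.pi * C / N := by
  have hN0 : (0 : ℝ) < N := by exact_mod_cast hN
  have hM0 : (0 : ℝ) < M := by exact_mod_cast hM
  have hN1 : (N : ℂ) ≠ 0 := by exact_mod_cast hN0.ne'
  have hM1 : (M : ℂ) ≠ 0 := by exact_mod_cast hM0.ne'
  have hC0 : 0 ≤ C := by
    have := (hp.nonneg _ (Submodule.sub_mem _ (hf (0 + 1)) (hf 0))).trans (hC 0 1)
    simpa using this
  have e : avg f N - avg f (N * M) = ((N * M : ℕ) : ℂ)⁻¹ •
      ∑ j ∈ Finset.range N, ∑ i ∈ Finset.range M,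
        (f (2 * Real.pi * j / N) - f (2 * Real.pi * ((j * M + i : ℕ) : ℝ) / ((N * M : ℕ) : ℝ))) := by
    unfold avg
    rw [sum_mul]
    simp only [Finset.sum_sub_distrib, Finset.sum_const, Finset.card_range]
    rw [smul_sub]
    congr 1
    rw [← Finset.smul_sum, ← Nat.cast_smul_eq_nsmul ℂ, smul_smul]
    congr 1
    push_cast
    field_simp
  rw [e]
  have hmem : ∀ j i : ℕ, f (2 * Real.pi * j / N) -
      f (2 * Real.pi * ((j * M + i : ℕ) : ℝ) / ((N * M : ℕ) : ℝ)) ∈ D.E := fun j i =>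
    Submodule.sub_mem _ (hf _) (hf _)
  rw [hp.smul _ _ (Submodule.sum_mem _ fun j _ => Submodule.sum_mem _ fun i _ => hmem j i)]
  have hb : ∀ j ∈ Finset.range N, ∀ i ∈ Finset.range M,
      p (f (2 * Real.pi * j / N) -
        f (2 * Real.pi * ((j * M + i : ℕ) : ℝ) / ((N * M : ℕ) : ℝ))) ≤ C * (2 * Real.pi / N) := by
    intro j _ i hi
    have h1 := hC (2 * Real.pi * j / N) (2 * Real.pi * i / (N * M))
    have e1 : 2 * Real.pi * j / N + 2 * Real.pi * i / (N * M) =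
        2 * Real.pi * ((j * M + i : ℕ) : ℝ) / ((N * M : ℕ) : ℝ) := by
      push_cast
      field_simp
    rw [e1] at h1
    have e2 := p_neg hp (hmem j i)
    rw [neg_sub] at e2
    rw [← e2]
    refine h1.trans (mul_le_mul_of_nonneg_left ?_ hC0)
    rw [abs_of_nonneg (by positivity)]
    have hi' : (i : ℝ) ≤ M := by exact_mod_cast (Finset.mem_range.1 hi).le
    rw [div_le_div_iff₀ (by positivity) hN0]
    have : 2 * Real.pi * i * N ≤ 2 * Real.pi * M * N := by gcongr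
    linarith
  have h2 : p (∑ j ∈ Finset.range N, ∑ i ∈ Finset.range M,
      (f (2 * Real.pi * j / N) - f (2 * Real.pi * ((j * M + i : ℕ) : ℝ) / ((N * M : ℕ) : ℝ)))) ≤
      N * (M * (C * (2 * Real.pi / N))) := by
    refine (p_sum hp _ _ fun j _ => Submodule.sum_mem _ fun i _ => hmem j i).trans ?_
    have h3 : ∀ j ∈ Finset.range N, p (∑ i ∈ Finset.range M,
        (f (2 * Real.pi * j / N) - f (2 * Real.pi * ((j * M + i : ℕ) : ℝ) / ((N * M : ℕ) : ℝ)))) ≤
        M * (C * (2 * Real.pi / N)) := by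
      intro j hj
      refine (p_sum hp _ _ fun i _ => hmem j i).trans ?_
      refine (Finset.sum_le_sum (hb j hj)).trans ?_
      rw [Finset.sum_const, Finset.card_range, nsmul_eq_mul]
    refine (Finset.sum_le_sum h3).trans ?_
    rw [Finset.sum_const, Finset.card_range, nsmul_eq_mul]
  rw [norm_inv, Complex.norm_natCast]
  calc (((N * M : ℕ) : ℝ))⁻¹ * _ ≤ (((N * M : ℕ) : ℝ))⁻¹ * (N * (M * (C * (2 * Real.pi / N)))) :=
        mul_le_mul_of_nonneg_left h2 (by positivity)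
    _ = 2 * Real.pi * C / N := by
        push_cast
        field_simp

end ModUAVG

open ModUAVG ModLIP in
theorem uavg (hLIP : StmLIP) : StmUAVG := by
  intro D C0 B x hx m
  obtain ⟨C, hC⟩ := lipfx hLIP D C0 B m hx
  refine ⟨2 * Real.pi * C, fun p hp hB N hN => ?_⟩
  have key : ∀ N : ℕ, (N : ℂ)⁻¹ • (∑ j ∈ Finset.range N,
      Complex.exp (-(Complex.I * (m * (2 * Real.pi * j / N)))) •
        D.π (rot (2 * Real.pi * j / N)) x) = avg (fx D m x) N := by
    intro N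
    unfold avg fx
    congr 1
    refine Finset.sum_congr rfl fun j _ => ?_
    congr 3
    push_cast
    ring
  have hlim := hp.avg x hx m
  simp only [key] at hlim ⊢
  have hmem : ∀ N, avg (fx D m x) N ∈ D.E := fun N =>
    Submodule.smul_mem _ _ (Submodule.sum_mem _ fun j _ => fx_mem m hx _)
  have hy : ⟪D.e m, x⟫_ℂ • D.e m ∈ D.E := Submodule.smul_mem _ _ (e_mem m)
  have hT : Tendsto (fun M : ℕ => N * (M + 1)) atTop atTop := by
    refine tendsto_atTop_mono (fun M => ?_) tendsto_id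
    simp only [id]
    nlinarith
  have hl2 := (hlim.comp hT).const_add (2 * Real.pi * C / N)
  rw [add_zero] at hl2
  refine ge_of_tendsto' hl2 fun M => ?_
  have h1 := avg_mul hp (fun θ => fx_mem m hx θ) (hC p hp hB) hN (Nat.le_add_left 1 M)
  have h2 := hp.add _ (Submodule.sub_mem _ (hmem N) (hmem (N * (M + 1)))) _
    (Submodule.sub_mem _ (hmem (N * (M + 1))) hy)
  rw [sub_add_sub_cancel] at h2
  simp only [Function.comp]
  linarith

end Pool.Agent.T6.H28.SN
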