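import Mathlib
import Pool.Agent.T6.H28.SN.Stm2
import Pool.Agent.T6.H28.SN.Alg
import Pool.Agent.T6.H28.SN.Lip
import Pool.Agent.T6.H28.SN.Avgl
import Pool.Agent.T6.H28.SN.Uavg

/-! Module DEN of project SN (helper80): `V` is dense in `E`. -/

set_option autoImplicit false

open scoped InnerProductSpace ComplexConjugate Topology
open Filter

namespace Pool.Agent.T6.H28.SN

namespace ModDEN

variable {D : Rep} {C0 : ℝ} {p : D.H → ℝ}

theorem rot_sub_two_pi (θ : ℝ) : rot (θ - 2 * Real.pi) = rot θ := by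
  apply Subtype.ext
  show !![Real.cos (θ - 2 * Real.pi), Real.sin (θ - 2 * Real.pi);
    -Real.sin (θ - 2 * Real.pi), Real.cos (θ - 2 * Real.pi)] =
      !![Real.cos θ, Real.sin θ; -Real.sin θ, Real.cos θ]
  rw [Real.cos_sub_two_pi, Real.sin_sub_two_pi]

theorem norm_exp (θ : ℝ) : ‖Complex.exp (-(Complex.I * θ)) - 1‖ = 2 * |Real.sin (θ / 2)| := by
  have e : -(Complex.I * (θ : ℂ)) = Complex.I * ((-θ : ℝ) : ℂ) := by push_cast; ring
  rw [e, Complex.norm_exp_I_mul_ofReal_sub_one, Real.norm_eq_abs, abs_mul, neg_div, Real.sin_neg,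
    abs_neg]
  norm_num

theorem abs_le_sin (s : ℝ) (hs : |s| ≤ Real.pi) : |s| ≤ Real.pi / 2 * (2 * |Real.sin (s / 2)|) := by
  have h1 : |Real.sin (s / 2)| = Real.sin (|s| / 2) := by
    rcases le_total 0 s with h | h
    · rw [abs_of_nonneg h, abs_of_nonneg]
      rw [abs_of_nonneg h] at hs
      exact Real.sin_nonneg_of_nonneg_of_le_pi (by linarith) (by linarith)
    · rw [abs_of_nonpos h] at hs ⊢
      rw [neg_div, Real.sin_neg, abs_of_nonpos]
      have := Real.sin_nonneg_of_nonneg_of_le_pi (x := -(s / 2)) (by linarith) (by linarith)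
      rw [Real.sin_neg] at this
      linarith
  rw [h1]
  have h2 := Real.mul_le_sin (x := |s| / 2) (by positivity) (by linarith)
  have hpi := Real.pi_pos
  have h3 : Real.pi * (2 / Real.pi * (|s| / 2)) = |s| := by field_simp
  have h4 : Real.pi * (2 / Real.pi * (|s| / 2)) ≤ Real.pi * Real.sin (|s| / 2) :=
    mul_le_mul_of_nonneg_left h2 hpi.le
  linarith

theorem lip_circle (hLIP : StmLIP) (hp : IsSem D C0 p) {x : D.H} (hx : x ∈ D.E) :
    ∃ L : ℝ, 0 ≤ L ∧ ∀ θ : ℝ, 0 ≤ θ → θ ≤ 2 * Real.pi →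
      p (D.π (rot θ) x - x) ≤ L * ‖Complex.exp (-(Complex.I * θ)) - 1‖ := by
  obtain ⟨C, hC⟩ := ModUAVG.lipf hLIP D C0 (fun j => p (D.e j)) hx
  have h : ∀ s, p (D.π (rot s) x - x) ≤ C * |s| := by
    intro s
    have := hC p hp (fun j => le_rfl) 0 s
    rw [zero_add, ModALG.rot_zero, ModALG.pi_one] at this
    exact this
  have hC0 : 0 ≤ C := by
    have h1 := hp.nonneg _ (Submodule.sub_mem _ (ModLIP.pi_mem (rot 1) hx) hx)
    have h2 := h 1
    rw [abs_one, mul_one] at h2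
    exact h1.trans h2
  have hpi := Real.pi_pos
  refine ⟨C * (Real.pi / 2), by positivity, fun θ h0 h1 => ?_⟩
  rw [norm_exp, mul_assoc]
  rcases le_total θ Real.pi with h2 | h2
  · refine (h θ).trans (mul_le_mul_of_nonneg_left (abs_le_sin θ ?_) hC0)
    rw [abs_of_nonneg h0]; exact h2
  · have h3 := h (θ - 2 * Real.pi)
    rw [rot_sub_two_pi] at h3
    refine h3.trans (mul_le_mul_of_nonneg_left ?_ hC0)
    have h4 := abs_le_sin (θ - 2 * Real.pi) (by
      rw [abs_of_nonpos (by linarith)]; linarith)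
    have h5 : Real.sin ((θ - 2 * Real.pi) / 2) = -Real.sin (θ / 2) := by
      have : (θ - 2 * Real.pi) / 2 = θ / 2 - Real.pi := by ring
      rw [this, Real.sin_sub_pi]
    rw [h5, abs_neg] at h4
    exact h4

/-- the exponential sum -/
noncomputable def S (n : ℕ) (θ : ℂ) : ℂ :=
  ∑ k ∈ Finset.range (n + 1), Complex.exp (-(Complex.I * (k * θ)))

theorem S_mul (n : ℕ) (θ : ℝ) :
    ‖S n θ‖ * ‖Complex.exp (-(Complex.I * θ)) - 1‖ ≤ 2 := by
  have h1 : S n θ = ∑ k ∈ Finset.range (n + 1), Complex.exp (-(Complex.I * θ)) ^ k := by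
    unfold S
    refine Finset.sum_congr rfl fun k _ => ?_
    rw [← Complex.exp_nat_mul]
    congr 1
    ring
  rw [← norm_mul, h1, geom_sum_mul]
  refine (norm_sub_le _ _).trans ?_
  rw [norm_pow, norm_one]
  have h2 : ‖Complex.exp (-(Complex.I * θ))‖ = 1 := by
    have e : -(Complex.I * (θ : ℂ)) = ((-θ : ℝ) : ℂ) * Complex.I := by push_cast; ring
    rw [e, Complex.norm_exp_ofReal_mul_I]
  rw [h2, one_pow]
  norm_num

theorem S_sum (n N : ℕ) (h : n < N) :
    ∑ j ∈ Finset.range N, ‖S n (2 * Real.pi * j / N)‖ ^ 2 = N * (n + 1) := by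
  have h1 := ModAVGL.gs' N (by omega) ((Finset.range (n + 1)).map Nat.castEmbedding) (by
    intro a ha b hb
    rw [Finset.mem_map] at ha hb
    obtain ⟨a', ha', rfl⟩ := ha
    obtain ⟨b', hb', rfl⟩ := hb
    rw [Finset.mem_range] at ha' hb'
    simp only [Nat.castEmbedding_apply]
    rw [abs_lt]
    omega) (fun _ => 1)
  simp only [Finset.sum_map, Nat.castEmbedding_apply, Int.cast_natCast, one_mul, norm_one, one_pow,
    Finset.sum_const, Finset.card_map, Finset.card_range, nsmul_eq_mul, mul_one] at h1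
  unfold S
  rw [h1]
  push_cast
  ring

theorem S_sq (n : ℕ) (θ : ℝ) : ((‖S n θ‖ ^ 2 : ℝ) : ℂ) =
    ∑ a ∈ Finset.range (n + 1), ∑ b ∈ Finset.range (n + 1),
      Complex.exp (-(Complex.I * ((((a : ℤ) - b : ℤ) : ℂ) * θ))) := by
  push_cast
  rw [← Complex.mul_conj']
  unfold S
  rw [map_sum, Finset.sum_mul_sum]
  refine Finset.sum_congr rfl fun a _ => Finset.sum_congr rfl fun b _ => ?_
  rw [← Complex.exp_conj, ← Complex.exp_add]
  congr 1
  rw [map_neg, map_mul, map_mul, Complex.conj_I, Complex.conj_ofReal, Complex.conj_natCast]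
  ring

/-- a combination of the `e m` -/
theorem vec_of_span {v : D.H} (h : v ∈ Submodule.span ℂ (Set.range D.e)) :
    ∃ (A : Finset ℤ) (c : ℤ → ℂ), v = D.vec A c := by
  obtain ⟨c, hc⟩ := Finsupp.mem_span_range_iff_exists_finsupp.1 h
  exact ⟨c.support, c, hc.symm⟩

end ModDEN

open ModDEN in
theorem den (hLIP : StmLIP) : StmDEN := by
  intro D C0 p hp x hx ε hε
  obtain ⟨L, hL0, hL⟩ := lip_circle hLIP hp hx
  -- choice of `n`
  obtain ⟨n, hn⟩ : ∃ n : ℕ, 4 * L / ε < n := exists_nat_gt _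
  obtain ⟨r, hr⟩ : ∃ r, r = Real.sqrt ((n : ℝ) ^ 2 + 1) := ⟨_, rfl⟩
  obtain ⟨M, hM⟩ : ∃ M : ℕ, M = n ^ 2 := ⟨_, rfl⟩
  have hr2 : r ^ 2 = (M : ℝ) + 1 := by
    rw [hr, Real.sq_sqrt (by positivity), hM]
    push_cast
    ring
  have hr0 : 0 < r := by rw [hr]; positivity
  have hrn : (n : ℝ) ≤ r := by
    rw [hr]
    apply Real.le_sqrt_of_sq_le
    linarith
  have hLr : 2 * L / r < ε / 2 := by
    rw [div_lt_iff₀ hε] at hn
    rw [div_lt_div_iff₀ hr0 (by norm_num)]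
    nlinarith
  obtain ⟨v, hv⟩ : ∃ v : D.H, v = ((M : ℂ) + 1)⁻¹ • ∑ a ∈ Finset.range (M + 1),
      ∑ b ∈ Finset.range (M + 1), ⟪D.e ((a : ℤ) - b), x⟫_ℂ • D.e ((a : ℤ) - b) := ⟨_, rfl⟩
  have hvs : v ∈ Submodule.span ℂ (Set.range D.e) := by
    rw [hv]
    refine Submodule.smul_mem _ _ (Submodule.sum_mem _ fun a _ => Submodule.sum_mem _ fun b _ =>
      Submodule.smul_mem _ _ (Submodule.subset_span ⟨_, rfl⟩))
  have hvE : v ∈ D.E := by
    rw [hv]
    refine Submodule.smul_mem _ _ (Submodule.sum_mem _ fun a _ => Submodule.sum_mem _ fun b _ =>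
      Submodule.smul_mem _ _ (ModLIP.e_mem _))
  obtain ⟨A, c, hvec⟩ := vec_of_span hvs
  refine ⟨A, c, ?_⟩
  rw [← hvec]
  -- the averages
  obtain ⟨U, hU⟩ : ∃ U : ℤ → ℕ → D.H, U = fun (m : ℤ) (N : ℕ) => (N : ℂ)⁻¹ • (∑ j ∈ Finset.range N,
      Complex.exp (-(Complex.I * (m * (2 * Real.pi * j / N)))) • D.π (rot (2 * Real.pi * j / N)) x) -
        ⟪D.e m, x⟫_ℂ • D.e m := ⟨_, rfl⟩
  have hUE : ∀ m N, U m N ∈ D.E := by
    intro m N
    rw [hU]
    exact Submodule.sub_mem _ (Submodule.smul_mem _ _ (Submodule.sum_mem _ fun j _ =>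
      Submodule.smul_mem _ _ (ModLIP.pi_mem _ hx))) (Submodule.smul_mem _ _ (ModLIP.e_mem _))
  have hUt : ∀ m, Tendsto (fun N => p (U m N)) atTop (𝓝 0) := by
    intro m
    rw [hU]
    exact hp.avg x hx m
  have hUs : Tendsto (fun N => ∑ a ∈ Finset.range (M + 1), ∑ b ∈ Finset.range (M + 1),
      p (U ((a : ℤ) - b) N)) atTop (𝓝 0) := by
    have h1 : Tendsto (fun N => ∑ a ∈ Finset.range (M + 1), ∑ b ∈ Finset.range (M + 1),
      p (U ((a : ℤ) - b) N)) atTop (𝓝 (∑ a ∈ Finset.range (M + 1),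
        ∑ b ∈ Finset.range (M + 1), (0 : ℝ))) :=
      tendsto_finsetSum _ fun a _ => tendsto_finsetSum _ fun b _ => hUt _
    simpa using h1
  obtain ⟨N, hN1, hN2⟩ : ∃ N : ℕ, M < N ∧ ∑ a ∈ Finset.range (M + 1),
      ∑ b ∈ Finset.range (M + 1), p (U ((a : ℤ) - b) N) < ε / 2 := by
    have h1 := hUs.eventually (gt_mem_nhds (half_pos hε))
    obtain ⟨N, hN⟩ := (h1.and (eventually_gt_atTop M)).exists
    exact ⟨N, hN.2, hN.1⟩
  have hN0 : 0 < N := by omega
  have hNR : (0 : ℝ) < N := by exact_mod_cast hN0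
  have hNC : (N : ℂ) ≠ 0 := by exact_mod_cast hN0.ne'
  have hMC : (M : ℂ) + 1 ≠ 0 := by exact_mod_cast (Nat.succ_ne_zero M)
  -- the kernel
  obtain ⟨K, hK⟩ : ∃ K : ℕ → ℝ, K = fun (j : ℕ) => ‖S M (2 * Real.pi * j / N)‖ ^ 2 / ((M : ℝ) + 1) :=
    ⟨_, rfl⟩
  have hcast : ∀ j : ℕ, (2 * (Real.pi : ℂ) * j / N) = ((2 * Real.pi * j / N : ℝ) : ℂ) := by
    intro j
    push_cast
    ring
  have hKs : ∑ j ∈ Finset.range N, K j = N := by
    rw [hK]
    simp only []
    rw [← Finset.sum_div, S_sum M N hN1]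
    field_simp
  obtain ⟨s, hs⟩ : ∃ s : D.H, s = (N : ℂ)⁻¹ • ∑ j ∈ Finset.range N,
      (K j : ℂ) • D.π (rot (2 * Real.pi * j / N)) x := ⟨_, rfl⟩
  have hsE : s ∈ D.E := by
    rw [hs]
    exact Submodule.smul_mem _ _ (Submodule.sum_mem _ fun j _ =>
      Submodule.smul_mem _ _ (ModLIP.pi_mem _ hx))
  -- first estimate
  have hsx : s - x = (N : ℂ)⁻¹ • ∑ j ∈ Finset.range N,
      (K j : ℂ) • (D.π (rot (2 * Real.pi * j / N)) x - x) := by
    rw [hs]
    simp only [smul_sub, Finset.sum_sub_distrib]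
    rw [← Finset.sum_smul, ← Complex.ofReal_sum, hKs, Complex.ofReal_natCast, smul_smul,
      inv_mul_cancel₀ hNC, one_smul]
  have hE1 : ∀ j : ℕ, D.π (rot (2 * Real.pi * j / N)) x - x ∈ D.E := fun j =>
    Submodule.sub_mem _ (ModLIP.pi_mem _ hx) hx
  have hest1 : p (s - x) ≤ 2 * L / r := by
    rw [hsx, hp.smul _ _ (Submodule.sum_mem _ fun j _ => Submodule.smul_mem _ _ (hE1 j)), norm_inv,
      Complex.norm_natCast]
    have h1 : p (∑ j ∈ Finset.range N, (K j : ℂ) • (D.π (rot (2 * Real.pi * j / N)) x - x)) ≤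
        ∑ j ∈ Finset.range N, L * ((‖S M (2 * Real.pi * j / N)‖ ^ 2 / r + r) / r ^ 2) := by
      refine (ModLIP.p_sum hp _ _ fun j _ => Submodule.smul_mem _ _ (hE1 j)).trans ?_
      refine Finset.sum_le_sum fun j hj => ?_
      rw [hp.smul _ _ (hE1 j), Complex.norm_real, Real.norm_eq_abs]
      have hK0 : 0 ≤ K j := by rw [hK]; positivity
      rw [abs_of_nonneg hK0]
      have hj' : (j : ℝ) ≤ N := by exact_mod_cast (Finset.mem_range.1 hj).le
      have hth0 : 0 ≤ 2 * Real.pi * j / N := by positivity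
      have hth1 : 2 * Real.pi * j / N ≤ 2 * Real.pi := by
        rw [div_le_iff₀ hNR]
        have := Real.pi_pos
        nlinarith
      have h2 := hL _ hth0 hth1
      have h3 := S_mul M (2 * Real.pi * j / N)
      obtain ⟨σ, hσ⟩ : ∃ σ, σ = ‖S M (2 * Real.pi * j / N)‖ := ⟨_, rfl⟩
      obtain ⟨τ, hτ⟩ : ∃ τ, τ = ‖Complex.exp (-(Complex.I * ((2 * Real.pi * j / N : ℝ) : ℂ))) - 1‖ :=
        ⟨_, rfl⟩
      rw [← hcast, ← hσ] at h3
      rw [hcast, ← hτ] at h3
      rw [← hτ] at h2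
      have hσ0 : 0 ≤ σ := by rw [hσ]; positivity
      have hτ0 : 0 ≤ τ := by rw [hτ]; positivity
      have hKj : K j = σ ^ 2 / r ^ 2 := by rw [hK, hr2, hσ]
      rw [hKj, ← hσ]
      calc σ ^ 2 / r ^ 2 * p (D.π (rot (2 * Real.pi * j / N)) x - x) ≤ σ ^ 2 / r ^ 2 * (L * τ) :=
            mul_le_mul_of_nonneg_left h2 (by positivity)
        _ = L * ((σ * (σ * τ)) / r ^ 2) := by ring
        _ ≤ L * ((σ ^ 2 / r + r) / r ^ 2) := by
            apply mul_le_mul_of_nonneg_left _ hL0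
            apply div_le_div_of_nonneg_right _ (by positivity)
            have h5 : σ * (σ * τ) ≤ σ * 2 := mul_le_mul_of_nonneg_left h3 hσ0
            have h6 : σ * 2 ≤ σ ^ 2 / r + r := by
              have h7 : σ ^ 2 / r + r - σ * 2 = (σ - r) ^ 2 / r := by
                field_simp
                ring
              have h8 : 0 ≤ (σ - r) ^ 2 / r := by positivity
              linarith
            exact h5.trans h6
    have h2 : ∑ j ∈ Finset.range N, L * ((‖S M (2 * Real.pi * j / N)‖ ^ 2 / r + r) / r ^ 2) =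
        N * (2 * L / r) := by
      rw [← Finset.mul_sum, ← Finset.sum_div, Finset.sum_add_distrib, ← Finset.sum_div,
        S_sum M N hN1, Finset.sum_const, Finset.card_range, nsmul_eq_mul, ← hr2]
      field_simp
      ring
    calc (N : ℝ)⁻¹ * p (∑ j ∈ Finset.range N,
          (K j : ℂ) • (D.π (rot (2 * Real.pi * j / N)) x - x)) ≤ (N : ℝ)⁻¹ * (N * (2 * L / r)) :=
          mul_le_mul_of_nonneg_left (h1.trans h2.le) (by positivity)
      _ = 2 * L / r := by rw [inv_mul_cancel_left₀ hNR.ne']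
  -- second estimate
  have hsv : s - v = ((M : ℂ) + 1)⁻¹ • ∑ a ∈ Finset.range (M + 1), ∑ b ∈ Finset.range (M + 1),
      U ((a : ℤ) - b) N := by
    have h1 : ∀ j : ℕ, (K j : ℂ) = ((M : ℂ) + 1)⁻¹ * ∑ a ∈ Finset.range (M + 1),
        ∑ b ∈ Finset.range (M + 1),
          Complex.exp (-(Complex.I * ((((a : ℤ) - b : ℤ) : ℂ) * (2 * Real.pi * j / N)))) := by
      intro j
      have h2 := S_sq M (2 * Real.pi * j / N)
      rw [← hcast] at h2
      rw [← h2, hK]
      push_cast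
      ring
    have h2 : s = ((M : ℂ) + 1)⁻¹ • ∑ a ∈ Finset.range (M + 1), ∑ b ∈ Finset.range (M + 1),
        (N : ℂ)⁻¹ • ∑ j ∈ Finset.range N,
          Complex.exp (-(Complex.I * ((((a : ℤ) - b : ℤ) : ℂ) * (2 * Real.pi * j / N)))) •
            D.π (rot (2 * Real.pi * j / N)) x := by
      rw [hs]
      simp only [← Finset.smul_sum]
      rw [smul_comm ((M : ℂ) + 1)⁻¹ (N : ℂ)⁻¹]
      congr 1
      rw [Finset.smul_sum]
      have h3 : ∀ j ∈ Finset.range N, (K j : ℂ) • D.π (rot (2 * Real.pi * j / N)) x =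
          ∑ a ∈ Finset.range (M + 1), ((M : ℂ) + 1)⁻¹ • ∑ b ∈ Finset.range (M + 1),
            Complex.exp (-(Complex.I * ((((a : ℤ) - b : ℤ) : ℂ) * (2 * Real.pi * j / N)))) •
              D.π (rot (2 * Real.pi * j / N)) x := by
        intro j _
        rw [h1, Finset.mul_sum, Finset.sum_smul]
        refine Finset.sum_congr rfl fun a _ => ?_
        rw [mul_smul, Finset.sum_smul]
      rw [Finset.sum_congr rfl h3, Finset.sum_comm]
      refine Finset.sum_congr rfl fun a _ => ?_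
      rw [← Finset.smul_sum, Finset.sum_comm]
    rw [h2, hv, ← smul_sub, ← Finset.sum_sub_distrib]
    congr 1
    refine Finset.sum_congr rfl fun a _ => ?_
    rw [← Finset.sum_sub_distrib]
    refine Finset.sum_congr rfl fun b _ => ?_
    rw [hU]
  have hest2 : p (s - v) < ε / 2 := by
    rw [hsv, hp.smul _ _ (Submodule.sum_mem _ fun a _ => Submodule.sum_mem _ fun b _ => hUE _ _)]
    have h1 : ‖((M : ℂ) + 1)⁻¹‖ ≤ 1 := by
      rw [norm_inv]
      apply inv_le_one_of_one_le₀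
      have : ((M : ℂ) + 1) = ((M + 1 : ℕ) : ℂ) := by push_cast; ring
      rw [this, Complex.norm_natCast]
      push_cast
      have : (0 : ℝ) ≤ M := Nat.cast_nonneg M
      linarith
    have h2 : p (∑ a ∈ Finset.range (M + 1), ∑ b ∈ Finset.range (M + 1), U ((a : ℤ) - b) N) ≤
        ∑ a ∈ Finset.range (M + 1), ∑ b ∈ Finset.range (M + 1), p (U ((a : ℤ) - b) N) := by
      refine (ModLIP.p_sum hp _ _ fun a _ => Submodule.sum_mem _ fun b _ => hUE _ _).trans ?_
      exact Finset.sum_le_sum fun a _ => ModLIP.p_sum hp _ _ fun b _ => hUE _ _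
    have h3 := hp.nonneg _ (Submodule.sum_mem D.E fun a (_ : a ∈ Finset.range (M + 1)) =>
      Submodule.sum_mem D.E fun b (_ : b ∈ Finset.range (M + 1)) => hUE ((a : ℤ) - b) N)
    calc _ ≤ 1 * p (∑ a ∈ Finset.range (M + 1), ∑ b ∈ Finset.range (M + 1), U ((a : ℤ) - b) N) :=
          mul_le_mul_of_nonneg_right h1 h3
      _ < ε / 2 := by rw [one_mul]; exact lt_of_le_of_lt h2 hN2
  have e : x - v = (s - v) - (s - x) := by abel
  rw [e]
  have := ModLIP.p_sub hp (Submodule.sub_mem _ hsE hvE) (Submodule.sub_mem _ hsE hx)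
  linarith

end Pool.Agent.T6.H28.SN
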