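import Pool.Agent.T6.H28.SN.Stm2
import Pool.Agent.T6.H28.SN.Alg

/-!
# ETA0: first properties of a continuous functional
-/

set_option autoImplicit false

open scoped InnerProductSpace ComplexConjugate Topology ENNReal
open Filter MeasureTheory

namespace Pool.Agent.T6.H28.SN

namespace ModETA0

theorem summable_wt : Summable fun m : ℤ => 1 / (1 + |(m : ℝ)|) ^ 2 := by
  have h1 : Summable fun m : ℤ => 1 / (m : ℝ) ^ 2 + if m = 0 then (1 : ℝ) else 0 :=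
    (Real.summable_one_div_int_pow.mpr one_lt_two).add (hasSum_ite_eq 0 1).summable
  refine Summable.of_nonneg_of_le (fun m => by positivity) (fun m => ?_) h1
  by_cases hm : m = 0
  · subst hm
    simp
  · rw [if_neg hm, add_zero]
    have h2 : 0 < |(m : ℝ)| := abs_pos.mpr (by exact_mod_cast hm)
    rw [← sq_abs (m : ℝ)]
    apply one_div_le_one_div_of_le (by positivity)
    exact pow_le_pow_left₀ h2.le (by linarith) 2

/-- the sum of the absolute values of the entries -/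
noncomputable def es (g : G) : ℝ := ∑ i, ∑ j, |g.1 i j|

theorem le_es (g : G) (i j : Fin 2) : |g.1 i j| ≤ es g :=
  (Finset.single_le_sum (f := fun j => |g.1 i j|) (fun _ _ => abs_nonneg _)
    (Finset.mem_univ j)).trans
   (Finset.single_le_sum (f := fun i => ∑ j, |g.1 i j|)
    (fun _ _ => Finset.sum_nonneg fun _ _ => abs_nonneg _) (Finset.mem_univ i))

theorem continuous_entry (i j : Fin 2) : Continuous fun g : G => g.1 i j :=
  (continuous_apply j).comp ((continuous_apply i).comp continuous_subtype_val)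

theorem continuous_es : Continuous es :=
  continuous_finsetSum _ fun i _ => continuous_finsetSum _ fun j _ => (continuous_entry i j).abs

/-- rapid decrease of the coefficients of `π(g) x`, locally uniformly in `g` -/
def Dec (D : Rep) (x : D.H) : Prop := ∀ (N : ℕ) (R : ℝ), ∃ B : ℝ, ∀ g : G,
  (∀ i j, |g.1 i j| ≤ R) → ∀ l : ℤ, (1 + |(l : ℝ)|) ^ N * ‖⟪D.e l, D.π g x⟫_ℂ‖ ≤ B

theorem dec_e (hSOB : StmSOB) (D : Rep) (m : ℤ) : Dec D (D.e m) := fun N R => hSOB D m N R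

theorem dec_add (D : Rep) {x y : D.H} (hx : Dec D x) (hy : Dec D y) : Dec D (x + y) := by
  intro N R
  obtain ⟨B, hB⟩ := hx N R
  obtain ⟨B', hB'⟩ := hy N R
  refine ⟨B + B', fun g hg l => ?_⟩
  rw [map_add, inner_add_right]
  calc (1 + |(l : ℝ)|) ^ N * ‖⟪D.e l, D.π g x⟫_ℂ + ⟪D.e l, D.π g y⟫_ℂ‖
      ≤ (1 + |(l : ℝ)|) ^ N * (‖⟪D.e l, D.π g x⟫_ℂ‖ + ‖⟪D.e l, D.π g y⟫_ℂ‖) := by
        gcongr
        exact norm_add_le _ _
    _ = (1 + |(l : ℝ)|) ^ N * ‖⟪D.e l, D.π g x⟫_ℂ‖ +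
        (1 + |(l : ℝ)|) ^ N * ‖⟪D.e l, D.π g y⟫_ℂ‖ := by ring
    _ ≤ B + B' := add_le_add (hB g hg l) (hB' g hg l)

theorem dec_smul (D : Rep) (c : ℂ) {x : D.H} (hx : Dec D x) : Dec D (c • x) := by
  intro N R
  obtain ⟨B, hB⟩ := hx N R
  refine ⟨‖c‖ * B, fun g hg l => ?_⟩
  rw [map_smul, inner_smul_right, norm_mul]
  calc (1 + |(l : ℝ)|) ^ N * (‖c‖ * ‖⟪D.e l, D.π g x⟫_ℂ‖)
      = ‖c‖ * ((1 + |(l : ℝ)|) ^ N * ‖⟪D.e l, D.π g x⟫_ℂ‖) := by ring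
    _ ≤ ‖c‖ * B := mul_le_mul_of_nonneg_left (hB g hg l) (norm_nonneg c)

theorem dec_sub (D : Rep) {x y : D.H} (hx : Dec D x) (hy : Dec D y) : Dec D (x - y) := by
  have h := dec_add D hx (dec_smul D (-1) hy)
  rw [neg_one_smul, ← sub_eq_add_neg] at h
  exact h

theorem dec_zero (D : Rep) : Dec D 0 := by
  intro N R
  refine ⟨0, fun g _ l => ?_⟩
  rw [map_zero, inner_zero_right, norm_zero, mul_zero]

theorem dec_pi (D : Rep) (h : G) {x : D.H} (hx : Dec D x) : Dec D (D.π h x) := by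
  intro N R
  obtain ⟨B, hB⟩ := hx N (2 * (R * es h))
  refine ⟨B, fun g hg l => ?_⟩
  rw [← ModALG.pi_mul]
  refine hB (g * h) (fun i j => ?_) l
  have e1 : (g * h).1 i j = g.1 i 0 * h.1 0 j + g.1 i 1 * h.1 1 j := by
    show (g.1 * h.1) i j = _
    rw [Matrix.mul_apply, Fin.sum_univ_two]
  rw [e1]
  have hR : 0 ≤ R := (abs_nonneg _).trans (hg 0 0)
  calc |g.1 i 0 * h.1 0 j + g.1 i 1 * h.1 1 j|
      ≤ |g.1 i 0 * h.1 0 j| + |g.1 i 1 * h.1 1 j| := abs_add_le _ _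
    _ = |g.1 i 0| * |h.1 0 j| + |g.1 i 1| * |h.1 1 j| := by rw [abs_mul, abs_mul]
    _ ≤ R * es h + R * es h :=
        add_le_add (mul_le_mul (hg i 0) (le_es h 0 j) (abs_nonneg _) hR)
          (mul_le_mul (hg i 1) (le_es h 1 j) (abs_nonneg _) hR)
    _ = 2 * (R * es h) := by ring

theorem dec_E (hSOB : StmSOB) (D : Rep) {x : D.H} (hx : x ∈ D.E) : Dec D x := by
  refine Submodule.span_induction (p := fun x _ => Dec D x) ?_ (dec_zero D) ?_ ?_ hx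
  · rintro x ⟨g, m, rfl⟩
    exact dec_pi D g (dec_e hSOB D m)
  · intro x y _ _ hx hy
    exact dec_add D hx hy
  · intro c x _ hx
    exact dec_smul D c hx

theorem wt_le (N : ℕ) (l : ℤ) : (1 + (l : ℝ) ^ 2) ^ N ≤ ((1 + |(l : ℝ)|) ^ N) ^ 2 := by
  rw [← pow_mul, mul_comm N 2, pow_mul]
  apply pow_le_pow_left₀ (by positivity)
  have h1 := abs_nonneg (l : ℝ)
  nlinarith [sq_abs (l : ℝ)]

theorem sm_of_dec (D : Rep) {x : D.H} (hx : Dec D x) (g : G) : D.π g x ∈ D.Sm := by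
  intro N
  obtain ⟨B, hB⟩ := hx (N + 1) (es g)
  have hB1 := hB g (fun i j => le_es g i j)
  refine Summable.of_nonneg_of_le (fun m => by positivity) (fun m => ?_)
    (summable_wt.mul_left (B ^ 2))
  have h2 := hB1 m
  set u : ℝ := 1 + |(m : ℝ)| with hu
  have hu1 : 1 ≤ u := by rw [hu]; linarith [abs_nonneg (m : ℝ)]
  have hu0 : 0 < u := by linarith
  set c : ℝ := ‖⟪D.e m, D.π g x⟫_ℂ‖ with hc
  have hc0 : 0 ≤ c := norm_nonneg _
  have h3 : (u ^ (N + 1) * c) ^ 2 ≤ B ^ 2 := pow_le_pow_left₀ (by positivity) h2 2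
  have h4 : (1 + (m : ℝ) ^ 2) ^ N * c ^ 2 ≤ (u ^ N) ^ 2 * c ^ 2 :=
    mul_le_mul_of_nonneg_right (wt_le N m) (by positivity)
  have h5 : (u ^ (N + 1) * c) ^ 2 = (u ^ N) ^ 2 * c ^ 2 * u ^ 2 := by ring
  rw [mul_one_div, le_div_iff₀ (by positivity)]
  calc (1 + (m : ℝ) ^ 2) ^ N * c ^ 2 * u ^ 2 ≤ (u ^ N) ^ 2 * c ^ 2 * u ^ 2 :=
        mul_le_mul_of_nonneg_right h4 (by positivity)
    _ = (u ^ (N + 1) * c) ^ 2 := h5.symm
    _ ≤ B ^ 2 := h3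

theorem sm_E (hSOB : StmSOB) (D : Rep) {x : D.H} (hx : x ∈ D.E) : x ∈ D.Sm := by
  have h := sm_of_dec D (dec_E hSOB D hx) 1
  rwa [ModALG.pi_one] at h

theorem e_mem (D : Rep) (m : ℤ) : D.e m ∈ D.E :=
  Submodule.subset_span ⟨1, m, (ModALG.pi_one D _).symm⟩

theorem pi_mem (D : Rep) (g : G) {x : D.H} (hx : x ∈ D.E) : D.π g x ∈ D.E := by
  refine Submodule.span_induction (p := fun x _ => D.π g x ∈ D.E) ?_ ?_ ?_ ?_ hx
  · rintro x ⟨h, m, rfl⟩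
    rw [← ModALG.pi_mul]
    exact Submodule.subset_span ⟨g * h, m, rfl⟩
  · rw [map_zero]
    exact Submodule.zero_mem _
  · intro x y _ _ hx hy
    rw [map_add]
    exact Submodule.add_mem _ hx hy
  · intro c x _ hx
    rw [map_smul]
    exact Submodule.smul_mem _ _ hx

/-- the orthogonality relations in the form needed -/
theorem inner_rest (D : Rep) (x : D.H) (A : Finset ℤ) (m : ℤ) :
    ⟪D.e m, x - ∑ j ∈ A, ⟪D.e j, x⟫_ℂ • D.e j⟫_ℂ = if m ∈ A then 0 else ⟪D.e m, x⟫_ℂ := by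
  classical
  rw [inner_sub_right, inner_sum]
  by_cases hm : m ∈ D.S
  · have h1 : ∀ j ∈ A, ⟪D.e m, ⟪D.e j, x⟫_ℂ • D.e j⟫_ℂ = if m = j then ⟪D.e m, x⟫_ℂ else 0 := by
      intro j _
      rw [inner_smul_right]
      by_cases hj : j ∈ D.S
      · rw [D.orth m hm j hj]
        split_ifs with h
        · rw [h, mul_one]
        · rw [mul_zero]
      · rw [D.e_out j hj, inner_zero_left, zero_mul, if_neg]
        rintro rfl
        exact hj hm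
    rw [Finset.sum_congr rfl h1, Finset.sum_ite_eq]
    split_ifs
    · exact sub_self _
    · exact sub_zero _
  · rw [D.e_out m hm]
    simp

theorem sm_sub (D : Rep) (x : D.H) (hx : x ∈ D.Sm) (A : Finset ℤ) :
    x - ∑ j ∈ A, ⟪D.e j, x⟫_ℂ • D.e j ∈ D.Sm := by
  intro N
  refine Summable.of_nonneg_of_le (fun m => by positivity) (fun m => ?_) (hx N)
  rw [inner_rest]
  split_ifs
  · rw [norm_zero]
    have : (0 : ℝ) ≤ (1 + (m : ℝ) ^ 2) ^ N * ‖⟪D.e m, x⟫_ℂ‖ ^ 2 := by positivity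
    simpa using this
  · exact le_rfl

theorem tsum_sub (D : Rep) (x : D.H) (hx : x ∈ D.Sm) (A : Finset ℤ) (N : ℕ) :
    ∑' m : ℤ, (1 + (m : ℝ) ^ 2) ^ N * ‖⟪D.e m, x - ∑ j ∈ A, ⟪D.e j, x⟫_ℂ • D.e j⟫_ℂ‖ ^ 2 =
      ∑' m : ℤ, (1 + (m : ℝ) ^ 2) ^ N * ‖⟪D.e m, x⟫_ℂ‖ ^ 2 -
        ∑ m ∈ A, (1 + (m : ℝ) ^ 2) ^ N * ‖⟪D.e m, x⟫_ℂ‖ ^ 2 := by
  classical
  set f : ℤ → ℝ := fun m => (1 + (m : ℝ) ^ 2) ^ N * ‖⟪D.e m, x⟫_ℂ‖ ^ 2 with hf
  have h1 : ∀ m : ℤ, (1 + (m : ℝ) ^ 2) ^ N * ‖⟪D.e m, x - ∑ j ∈ A, ⟪D.e j, x⟫_ℂ • D.e j⟫_ℂ‖ ^ 2 =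
      f m - if m ∈ A then f m else 0 := by
    intro m
    rw [inner_rest]
    split_ifs
    · rw [norm_zero, sub_self]
      ring
    · rw [sub_zero]
  have h2 : HasSum (fun m => if m ∈ A then f m else 0) (∑ m ∈ A, f m) := by
    have h0 : HasSum (fun m => if m ∈ A then f m else 0) (∑ m ∈ A, if m ∈ A then f m else 0) :=
      hasSum_sum_of_ne_finset_zero (fun b hb => if_neg hb)
    rwa [Finset.sum_ite_mem, Finset.inter_self] at h0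
  rw [tsum_congr h1]
  have h3 : HasSum (fun m => f m - if m ∈ A then f m else 0) (∑' m, f m - ∑ m ∈ A, f m) :=
    (hx N).hasSum.sub h2
  exact h3.tsum_eq

theorem hasSum_eta (D : Rep) (Γ : Subgroup G) (η : D.H →ₗ[ℂ] ℂ) (h : IsAutC D Γ η) (x : D.H)
    (hx : x ∈ D.Sm) : HasSum (fun m : ℤ => η (D.e m) * ⟪D.e m, x⟫_ℂ) (η x) := by
  obtain ⟨C, N, hC⟩ := h.cont
  have h1 : Tendsto (fun A : Finset ℤ => C * Real.sqrt
      (∑' m : ℤ, (1 + (m : ℝ) ^ 2) ^ N * ‖⟪D.e m, x⟫_ℂ‖ ^ 2 -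
        ∑ m ∈ A, (1 + (m : ℝ) ^ 2) ^ N * ‖⟪D.e m, x⟫_ℂ‖ ^ 2)) atTop (𝓝 0) := by
    have h2 := (hx N).hasSum
    have h2' : Tendsto (fun A : Finset ℤ => ∑ m ∈ A, (1 + (m : ℝ) ^ 2) ^ N * ‖⟪D.e m, x⟫_ℂ‖ ^ 2)
      atTop (𝓝 (∑' m : ℤ, (1 + (m : ℝ) ^ 2) ^ N * ‖⟪D.e m, x⟫_ℂ‖ ^ 2)) := h2
    have h3 := (h2'.const_sub (∑' m : ℤ, (1 + (m : ℝ) ^ 2) ^ N * ‖⟪D.e m, x⟫_ℂ‖ ^ 2)).sqrt.const_mul C
    rw [sub_self, Real.sqrt_zero, mul_zero] at h3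
    exact h3
  have h4 : Tendsto (fun A : Finset ℤ => η x - ∑ m ∈ A, η (D.e m) * ⟪D.e m, x⟫_ℂ) atTop (𝓝 0) := by
    refine squeeze_zero_norm (fun A => ?_) h1
    have h5 := hC _ (sm_sub D x hx A)
    rw [tsum_sub D x hx A N] at h5
    rw [map_sub, map_sum] at h5
    refine le_trans (le_of_eq ?_) h5
    congr 2
    refine Finset.sum_congr rfl fun m _ => ?_
    rw [map_smul, smul_eq_mul, mul_comm]
  have h5 := (tendsto_const_nhds (x := η x)).sub h4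
  rw [sub_zero] at h5
  refine h5.congr fun A => ?_
  ring

theorem eta_e (D : Rep) (Γ : Subgroup G) (η : D.H →ₗ[ℂ] ℂ) (h : IsAutC D Γ η) (hSOB : StmSOB) :
    ∃ (C : ℝ) (N : ℕ), 0 ≤ C ∧ ∀ m : ℤ, ‖η (D.e m)‖ ≤ C * (1 + |(m : ℝ)|) ^ N := by
  classical
  obtain ⟨C, N, hC⟩ := h.cont
  refine ⟨|C|, N, abs_nonneg C, fun m => ?_⟩
  by_cases hm : m ∈ D.S
  · have h1 := hC _ (sm_E hSOB D (e_mem D m))
    have h2 : ∑' l : ℤ, (1 + (l : ℝ) ^ 2) ^ N * ‖⟪D.e l, D.e m⟫_ℂ‖ ^ 2 = (1 + (m : ℝ) ^ 2) ^ N := by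
      rw [tsum_eq_single m]
      · rw [D.orth m hm m hm, if_pos rfl, norm_one]
        ring
      · intro l hl
        by_cases hl' : l ∈ D.S
        · rw [D.orth l hl' m hm, if_neg hl, norm_zero]
          ring
        · rw [D.e_out l hl', inner_zero_left, norm_zero]
          ring
    rw [h2] at h1
    calc ‖η (D.e m)‖ ≤ C * Real.sqrt ((1 + (m : ℝ) ^ 2) ^ N) := h1
      _ ≤ |C| * Real.sqrt ((1 + (m : ℝ) ^ 2) ^ N) :=
          mul_le_mul_of_nonneg_right (le_abs_self C) (Real.sqrt_nonneg _)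
      _ ≤ |C| * (1 + |(m : ℝ)|) ^ N := by
          apply mul_le_mul_of_nonneg_left _ (abs_nonneg C)
          apply Real.sqrt_le_iff.mpr
          exact ⟨by positivity, wt_le N m⟩
  · rw [D.e_out m hm, map_zero, norm_zero]
    positivity

/-- bound of the functional on `π(g) x` for `g` in a bounded set -/
theorem eta_bound (hSOB : StmSOB) (D : Rep) (Γ : Subgroup G) (η : D.H →ₗ[ℂ] ℂ) (h : IsAutC D Γ η)
    (x : D.H) (hx : Dec D x) (R : ℝ) : ∃ B : ℝ, ∀ g : G, (∀ i j, |g.1 i j| ≤ R) →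
      ‖η (D.π g x)‖ ≤ B := by
  obtain ⟨C, N, hC0, hC⟩ := eta_e D Γ η h hSOB
  obtain ⟨B, hB⟩ := hx (N + 2) R
  refine ⟨∑' l : ℤ, C * B * (1 / (1 + |(l : ℝ)|) ^ 2), fun g hg => ?_⟩
  have h1 := hasSum_eta D Γ η h _ (sm_of_dec D hx g)
  have h2 : Summable fun l : ℤ => C * B * (1 / (1 + |(l : ℝ)|) ^ 2) := summable_wt.mul_left _
  have h3 : ∀ l : ℤ, ‖η (D.e l) * ⟪D.e l, D.π g x⟫_ℂ‖ ≤ C * B * (1 / (1 + |(l : ℝ)|) ^ 2) := by
    intro l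
    rw [norm_mul]
    have h4 := hC l
    have h5 := hB g hg l
    set u : ℝ := 1 + |(l : ℝ)| with hu
    have hu1 : 1 ≤ u := by rw [hu]; linarith [abs_nonneg (l : ℝ)]
    have hu0 : 0 < u := by linarith
    rw [mul_one_div, le_div_iff₀ (by positivity)]
    calc ‖η (D.e l)‖ * ‖⟪D.e l, D.π g x⟫_ℂ‖ * u ^ 2
        ≤ C * u ^ N * ‖⟪D.e l, D.π g x⟫_ℂ‖ * u ^ 2 := by gcongr
      _ = C * (u ^ (N + 2) * ‖⟪D.e l, D.π g x⟫_ℂ‖) := by ring
      _ ≤ C * B := mul_le_mul_of_nonneg_left h5 hC0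
  rw [← h1.tsum_eq]
  exact tsum_of_norm_bounded h2.hasSum h3

theorem bdd (hSOB : StmSOB) (D : Rep) (Γ : Subgroup G) (η : D.H →ₗ[ℂ] ℂ) (h : IsAutC D Γ η)
    (x : D.H) (hx : x ∈ D.E) : BddAbove (Set.range fun g : G => ‖η (D.π g x)‖) := by
  obtain ⟨F, hF, hcov⟩ := h.cocompact
  obtain ⟨R, hR⟩ := hF.exists_bound_of_continuousOn continuous_es.continuousOn
  obtain ⟨B, hB⟩ := eta_bound hSOB D Γ η h x (dec_E hSOB D hx) R
  refine ⟨B, ?_⟩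
  rintro _ ⟨g, rfl⟩
  obtain ⟨γ, hγ, f, hf, rfl⟩ := hcov g
  show ‖η (D.π (γ * f) x)‖ ≤ B
  rw [ModALG.pi_mul, h.inv γ hγ _ (sm_E hSOB D (pi_mem D f hx))]
  refine hB f fun i j => (le_es f i j).trans ?_
  exact (le_abs_self _).trans (hR f hf)

end ModETA0

open ModETA0 in
theorem eta0 (hSOB : StmSOB) : StmETA0 := by
  intro D Γ η h
  refine ⟨fun x hx => sm_E hSOB D hx, ?_, fun x hx => hasSum_eta D Γ η h x hx,
    fun x hx => bdd hSOB D Γ η h x hx⟩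
  obtain ⟨C, N, _, hC⟩ := eta_e D Γ η h hSOB
  exact ⟨C, N, hC⟩

end Pool.Agent.T6.H28.SN
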