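import Pool.Agent.T6.H28.SN.Eta0

/-!
# ETA1: differentiability of a continuous functional along one-parameter groups
-/

set_option autoImplicit false

open scoped InnerProductSpace ComplexConjugate Topology ENNReal
open Filter MeasureTheory

namespace Pool.Agent.T6.H28.SN

namespace ModETA1

open ModETA0

theorem deriv_entry (γ : ℝ → G) (X : Matrix (Fin 2) (Fin 2) ℝ) (hγ : IsOneParam γ X) (i j : Fin 2)
    (t : ℝ) : HasDerivAt (fun s => (γ s).1 i j) ((γ t).1 i 0 * X 0 j + (γ t).1 i 1 * X 1 j) t := by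
  have h0 : ∀ k : Fin 2, HasDerivAt (fun s => (γ (s - t)).1 k j) (X k j) t := by
    intro k
    have h1 : HasDerivAt (fun s : ℝ => s - t) 1 t := (hasDerivAt_id t).sub_const t
    have h3 : HasDerivAt (fun s => (γ s).1 k j) (X k j) (t - t) := by
      rw [sub_self]; exact hγ.deriv k j
    have h4 := HasDerivAt.comp (h := fun s : ℝ => s - t) t h3 h1
    rw [mul_one] at h4
    exact h4
  have h1 : (fun s => (γ s).1 i j) =
      fun s => (γ t).1 i 0 * (γ (s - t)).1 0 j + (γ t).1 i 1 * (γ (s - t)).1 1 j := by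
    funext s
    have h2 : γ s = γ t * γ (s - t) := by rw [← hγ.add]; congr 1; ring
    have h3 : (γ s).1 = (γ t).1 * (γ (s - t)).1 := by rw [h2]; rfl
    rw [h3, Matrix.mul_apply, Fin.sum_univ_two]
  rw [h1]
  exact ((h0 0).const_mul _).add ((h0 1).const_mul _)

theorem continuous_path (γ : ℝ → G) (X : Matrix (Fin 2) (Fin 2) ℝ) (hγ : IsOneParam γ X) :
    Continuous γ := by
  apply Continuous.subtype_mk (f := fun s => (γ s).1)
  refine continuous_pi fun i => continuous_pi fun j => ?_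
  exact continuous_iff_continuousAt.mpr fun t => (deriv_entry γ X hγ i j t).continuousAt

theorem dec_dAct (hSOB : StmSOB) (D : Rep) (X : Matrix (Fin 2) (Fin 2) ℝ) (m : ℤ) :
    Dec D (dAct D.a D.e X m) := by
  unfold dAct
  have h := fun k => dec_e hSOB D k
  exact dec_add D (dec_add D (dec_smul D _ (dec_sub D (dec_smul D _ (h _)) (dec_smul D _ (h _))))
    (dec_smul D _ (dec_smul D _ (dec_add D (dec_smul D _ (h _)) (dec_smul D _ (h _))))))
    (dec_smul D _ (dec_smul D _ (h _)))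

theorem hasDerivAt_inner (D : Rep) (γ : ℝ → G) (X : Matrix (Fin 2) (Fin 2) ℝ)
    (hγ : IsOneParam γ X) (g : G) (m l : ℤ) (s : ℝ) :
    HasDerivAt (fun s => ⟪D.e l, D.π g (D.π (γ s) (D.e m))⟫_ℂ)
      ⟪D.e l, D.π g (D.π (γ s) (dAct D.a D.e X m))⟫_ℂ s := by
  have h0 := ModALG.deriv_at D γ X hγ m s
  let L : D.H →L[ℝ] D.H :=
    ((D.π g).toContinuousLinearEquiv : D.H →L[ℂ] D.H).restrictScalars ℝ
  have h1 : HasDerivAt (fun s => L (D.π (γ s) (D.e m))) (L (D.π (γ s) (dAct D.a D.e X m))) s :=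
    L.hasFDerivAt.comp_hasDerivAt s h0
  have h2 := (hasDerivAt_const s (D.e l)).inner ℂ h1
  rw [inner_zero_left, add_zero] at h2
  exact h2

end ModETA1

open ModETA0 ModETA1 in
theorem eta1 (hSOB : StmSOB) (hETA0 : StmETA0) : StmETA1 := by
  intro D Γ η h γ X hγ g m t
  obtain ⟨C, N, hC0, hC⟩ := eta_e D Γ η h hSOB
  have hcont : Continuous fun s => es (g * γ s) :=
    continuous_es.comp (continuous_const.mul (continuous_path γ X hγ))
  obtain ⟨R, hR⟩ := (isCompact_Icc (a := t - 1) (b := t + 1)).exists_bound_of_continuousOn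
    hcont.continuousOn
  have hR' : ∀ s ∈ Set.Ioo (t - 1) (t + 1), ∀ i j, |(g * γ s).1 i j| ≤ R := by
    intro s hs i j
    exact (le_es _ i j).trans ((le_abs_self _).trans (hR s (Set.Ioo_subset_Icc_self hs)))
  obtain ⟨B, hB⟩ := dec_dAct hSOB D X m (N + 2) R
  have ht : t ∈ Set.Ioo (t - 1) (t + 1) := ⟨by linarith, by linarith⟩
  have hsum : ∀ s, HasSum (fun l : ℤ => η (D.e l) * ⟪D.e l, D.π g (D.π (γ s) (D.e m))⟫_ℂ)
      (η (D.π g (D.π (γ s) (D.e m)))) := by
    intro s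
    apply (hETA0 D Γ η h).2.2.1
    exact sm_E hSOB D (pi_mem D _ (pi_mem D _ (e_mem D m)))
  have hsum' : HasSum (fun l : ℤ => η (D.e l) * ⟪D.e l, D.π g (D.π (γ t) (dAct D.a D.e X m))⟫_ℂ)
      (η (D.π g (D.π (γ t) (dAct D.a D.e X m)))) := by
    apply (hETA0 D Γ η h).2.2.1
    rw [← ModALG.pi_mul]
    exact sm_of_dec D (dec_dAct hSOB D X m) _
  have key := hasDerivAt_tsum_of_isPreconnected (u := fun l : ℤ => C * B * (1 / (1 + |(l : ℝ)|) ^ 2))
    (g := fun l s => η (D.e l) * ⟪D.e l, D.π g (D.π (γ s) (D.e m))⟫_ℂ)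
    (g' := fun l s => η (D.e l) * ⟪D.e l, D.π g (D.π (γ s) (dAct D.a D.e X m))⟫_ℂ)
    (summable_wt.mul_left _) isOpen_Ioo (isPreconnected_Ioo)
    (fun l s _ => (hasDerivAt_inner D γ X hγ g m l s).const_mul (η (D.e l)))
    (fun l s hs => ?_) ht (hsum t).summable ht
  · rw [hsum'.tsum_eq] at key
    refine key.congr_of_eventuallyEq ?_
    exact Filter.Eventually.of_forall fun s => (hsum s).tsum_eq.symm
  · rw [norm_mul]
    have h4 := hC l
    have h5 := hB (g * γ s) (hR' s hs) l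
    rw [ModALG.pi_mul] at h5
    set u : ℝ := 1 + |(l : ℝ)| with hu
    have hu1 : 1 ≤ u := by rw [hu]; linarith [abs_nonneg (l : ℝ)]
    have hu0 : 0 < u := by linarith
    rw [mul_one_div, le_div_iff₀ (by positivity)]
    calc ‖η (D.e l)‖ * ‖⟪D.e l, D.π g (D.π (γ s) (dAct D.a D.e X m))⟫_ℂ‖ * u ^ 2
        ≤ C * u ^ N * ‖⟪D.e l, D.π g (D.π (γ s) (dAct D.a D.e X m))⟫_ℂ‖ * u ^ 2 := by gcongr
      _ = C * (u ^ (N + 2) * ‖⟪D.e l, D.π g (D.π (γ s) (dAct D.a D.e X m))⟫_ℂ‖) := by ring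
      _ ≤ C * B := mul_le_mul_of_nonneg_left h5 hC0

end Pool.Agent.T6.H28.SN
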