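import Pool.Agent.T6.H28.SN.Stm2
import Pool.Agent.T6.H28.SN.Alg
import Pool.Agent.T6.H28.SN.Cont
import Pool.Agent.T6.H28.SN.Hil

/-!
# ETA2: `p_aut` has all properties of an element of `Norm(V)` except positivity
-/

set_option autoImplicit false

open scoped InnerProductSpace ComplexConjugate Topology
open Filter

namespace Pool.Agent.T6.H28.SN

namespace ModETA2

open ModALG ModCONT ModHIL

theorem p_le {D : Rep} {η : D.H →ₗ[ℂ] ℂ} {x : D.H}
    (hb : BddAbove (Set.range fun g : G => ‖η (D.π g x)‖)) (g : G) :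
    ‖η (D.π g x)‖ ≤ pAut D η x := le_ciSup hb g

theorem p_bound {D : Rep} {η : D.H →ₗ[ℂ] ℂ} {x : D.H} {c : ℝ}
    (h : ∀ g : G, ‖η (D.π g x)‖ ≤ c) : pAut D η x ≤ c := ciSup_le h

theorem lin_dAct {H1 H2 : Type} [AddCommGroup H1] [Module ℂ H1] [AddCommGroup H2] [Module ℂ H2]
    (Λ : H1 →ₗ[ℂ] H2) (a : ℤ → ℂ) (e : ℤ → H1) (X : Matrix (Fin 2) (Fin 2) ℝ) (m : ℤ) :
    Λ (dAct a e X m) = dAct a (fun j => Λ (e j)) X m := by
  unfold dAct
  simp only [map_add, map_sub, map_smul]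

theorem deriv_dAct (a : ℤ → ℂ) (f : ℤ → ℝ → ℂ) (f' : ℤ → ℂ) (t : ℝ)
    (h : ∀ j, HasDerivAt (f j) (f' j) t) (X : Matrix (Fin 2) (Fin 2) ℝ) (m : ℤ) :
    HasDerivAt (fun t => dAct a (fun j => f j t) X m) (dAct a f' X m) t := by
  unfold dAct
  simp only [smul_eq_mul]
  exact (((((h _).const_mul _).sub ((h _).const_mul _)).const_mul _).add
    (((((h _).const_mul _).add ((h _).const_mul _)).const_mul _).const_mul _)).add
    (((h _).const_mul _).const_mul _)

theorem mvt (F F' : ℝ → ℂ) (h1 : ∀ t, HasDerivAt F (F' t) t) (C : ℝ) (hC : ∀ t, ‖F' t‖ ≤ C)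
    (s t : ℝ) : ‖F t - F s‖ ≤ C * |t - s| := by
  have := Convex.norm_image_sub_le_of_norm_hasDerivWithin_le (f := F) (f' := F') (C := C)
    (s := Set.univ) (x := s) (y := t) (fun x _ => (h1 x).hasDerivWithinAt) (fun x _ => hC x)
    convex_univ (Set.mem_univ _) (Set.mem_univ _)
  rwa [Real.norm_eq_abs] at this

theorem taylor (F F' F'' : ℝ → ℂ) (h1 : ∀ t, HasDerivAt F (F' t) t)
    (h2 : ∀ t, HasDerivAt F' (F'' t) t) (B2 : ℝ) (hB : ∀ t, ‖F'' t‖ ≤ B2) (t : ℝ) :
    ‖F t - F 0 - (t : ℂ) * F' 0‖ ≤ B2 * |t| * |t| := by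
  have hB0 : 0 ≤ B2 := (norm_nonneg _).trans (hB 0)
  have h3 : ∀ s ∈ Set.uIcc 0 t, HasDerivWithinAt (fun s : ℝ => F s - (s : ℂ) * F' 0)
      (F' s - 1 * F' 0) (Set.uIcc 0 t) s := fun s _ =>
    ((h1 s).sub ((Complex.ofRealCLM.hasDerivAt (x := s)).mul_const (F' 0))).hasDerivWithinAt
  have h4 : ∀ s ∈ Set.uIcc 0 t, ‖F' s - 1 * F' 0‖ ≤ B2 * |t| := by
    intro s hs
    rw [one_mul]
    have h5 := mvt F' F'' h2 B2 hB 0 s
    rw [sub_zero] at h5
    have h6 : |s| ≤ |t| := by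
      have := Set.abs_sub_left_of_mem_uIcc hs
      rwa [sub_zero, sub_zero] at this
    exact h5.trans (mul_le_mul_of_nonneg_left h6 hB0)
  have h5 := Convex.norm_image_sub_le_of_norm_hasDerivWithin_le h3 h4 (convex_uIcc 0 t)
    Set.left_mem_uIcc Set.right_mem_uIcc
  rw [Real.norm_eq_abs, sub_zero] at h5
  have e : F t - (t : ℂ) * F' 0 - (F 0 - ((0 : ℝ) : ℂ) * F' 0) = F t - F 0 - (t : ℂ) * F' 0 := by
    push_cast
    ring
  simp only [e] at h5
  exact h5

/-- Riemann sums -/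
theorem riem (L L' : ℝ → ℂ) (hL : ∀ t, HasDerivAt L (L' t) t) (C : ℝ) (hC : ∀ t, ‖L' t‖ ≤ C)
    (N : ℕ) (hN : 1 ≤ N) :
    ‖(N : ℂ)⁻¹ * ∑ i ∈ Finset.range N, L (2 * Real.pi * i / N) -
      (2 * (Real.pi : ℂ))⁻¹ * ∫ t in (0 : ℝ)..(2 * Real.pi), L t‖ ≤ 2 * Real.pi * C / N := by
  have hC0 : 0 ≤ C := (norm_nonneg _).trans (hC 0)
  have hN0 : (0 : ℝ) < N := by exact_mod_cast hN
  have hNc : (N : ℂ) ≠ 0 := by exact_mod_cast hN0.ne'
  have hpi := Real.pi_pos
  have hpic : (Real.pi : ℂ) ≠ 0 := by exact_mod_cast hpi.ne'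
  have hcont : Continuous L := continuous_iff_continuousAt.2 fun t => (hL t).continuousAt
  set δ : ℝ := 2 * Real.pi / N with hδ
  have hδ0 : 0 < δ := by positivity
  have hsum := intervalIntegral.sum_integral_adjacent_intervals (μ := MeasureTheory.volume)
    (f := L) (a := fun k : ℕ => 2 * Real.pi * k / N) (n := N) fun k _ =>
      hcont.intervalIntegrable _ _
  have e0 : 2 * Real.pi * ((0 : ℕ) : ℝ) / N = 0 := by simp
  have e1 : 2 * Real.pi * (N : ℝ) / N = 2 * Real.pi := by field_simp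
  rw [e0, e1] at hsum
  have hpiece : ∀ i ∈ Finset.range N, ‖(δ : ℂ) * L (2 * Real.pi * i / N) -
      ∫ t in (2 * Real.pi * (i : ℕ) / N)..(2 * Real.pi * ((i + 1 : ℕ) : ℝ) / N), L t‖ ≤
      C * δ * δ := by
    intro i _
    have hab : 2 * Real.pi * ((i + 1 : ℕ) : ℝ) / N - 2 * Real.pi * (i : ℕ) / N = δ := by
      rw [hδ]
      push_cast
      ring
    have e2 : (δ : ℂ) * L (2 * Real.pi * i / N) =
        ∫ _ in (2 * Real.pi * (i : ℕ) / N)..(2 * Real.pi * ((i + 1 : ℕ) : ℝ) / N),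
          L (2 * Real.pi * i / N) := by
      rw [intervalIntegral.integral_const, hab, Complex.real_smul]
    rw [e2, ← intervalIntegral.integral_sub (by simp) (hcont.intervalIntegrable _ _)]
    have := intervalIntegral.norm_integral_le_of_norm_le_const
      (a := 2 * Real.pi * (i : ℕ) / N) (b := 2 * Real.pi * ((i + 1 : ℕ) : ℝ) / N)
      (f := fun t => L (2 * Real.pi * i / N) - L t) (C := C * δ) fun t ht => by
        rw [Set.uIoc_of_le (by linarith)] at ht
        refine (mvt L L' hL C hC t (2 * Real.pi * i / N)).trans ?_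
        refine mul_le_mul_of_nonneg_left ?_ hC0
        rw [abs_le]
        exact ⟨by linarith [ht.2], by linarith [ht.1]⟩
    rwa [hab, abs_of_pos hδ0] at this
  have e3 : (N : ℂ)⁻¹ * ∑ i ∈ Finset.range N, L (2 * Real.pi * i / N) -
      (2 * (Real.pi : ℂ))⁻¹ * ∫ t in (0 : ℝ)..(2 * Real.pi), L t =
      (2 * (Real.pi : ℂ))⁻¹ * ∑ i ∈ Finset.range N, ((δ : ℂ) * L (2 * Real.pi * i / N) -
      ∫ t in (2 * Real.pi * (i : ℕ) / N)..(2 * Real.pi * ((i + 1 : ℕ) : ℝ) / N), L t) := by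
    rw [Finset.sum_sub_distrib, hsum, ← Finset.mul_sum, mul_sub, ← mul_assoc]
    congr 2
    rw [hδ]
    push_cast
    field_simp
  rw [e3, norm_mul]
  have e4 : ‖(2 * (Real.pi : ℂ))⁻¹‖ = (2 * Real.pi)⁻¹ := by
    rw [norm_inv, norm_mul, Complex.norm_real, Real.norm_of_nonneg hpi.le]
    norm_num
  rw [e4]
  have h5 := (norm_sum_le _ _).trans (Finset.sum_le_sum hpiece)
  rw [Finset.sum_const, Finset.card_range, nsmul_eq_mul] at h5
  calc (2 * Real.pi)⁻¹ * _ ≤ (2 * Real.pi)⁻¹ * (N * (C * δ * δ)) :=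
        mul_le_mul_of_nonneg_left h5 (by positivity)
    _ = 2 * Real.pi * C / N := by
        rw [hδ]
        field_simp

/-- conjugates of the rotations -/
theorem conj_rot (h : G) : IsOneParam (fun θ => h⁻¹ * rot θ * h)
    (h⁻¹.1 * !![0, 1; -1, 0] * h.1) where
  add := by
    intro s t
    show h⁻¹ * rot (s + t) * h = (h⁻¹ * rot s * h) * (h⁻¹ * rot t * h)
    rw [rot_add]
    group
  deriv := by
    have hc : HasDerivAt (fun θ : ℝ => Real.cos θ) 0 0 := by
      have := Real.hasDerivAt_cos 0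
      rwa [Real.sin_zero, neg_zero] at this
    have hs : HasDerivAt (fun θ : ℝ => Real.sin θ) 1 0 := by
      have := Real.hasDerivAt_sin 0
      rwa [Real.cos_zero] at this
    have hr : ∀ k l : Fin 2, HasDerivAt (fun θ => (rot θ).1 k l)
        ((!![0, 1; -1, 0] : Matrix (Fin 2) (Fin 2) ℝ) k l) 0 := by
      intro k l
      fin_cases k <;> fin_cases l
      · exact hc
      · exact hs
      · exact hs.neg
      · exact hc
    intro i j
    show HasDerivAt (fun θ => (h⁻¹.1 * (rot θ).1 * h.1) i j) _ 0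
    simp only [Matrix.mul_apply, Fin.sum_univ_two]
    exact ((((hr 0 0).const_mul _).add ((hr 1 0).const_mul _)).mul_const _).add
      ((((hr 0 1).const_mul _).add ((hr 1 1).const_mul _)).mul_const _)

theorem T_mem (D : Rep) (m : ℤ) (N : ℕ) (x : D.H) (hx : x ∈ D.E) : T D m N x ∈ D.E := by
  unfold T
  exact sub_mem (Submodule.smul_mem _ _ (Submodule.sum_mem _ fun j _ =>
    Submodule.smul_mem _ _ (pi_mem D _ _ hx))) (Submodule.smul_mem _ _ (e_mem D m))

theorem summ : Summable fun l : ℤ => ((1 + |(l : ℝ)|) ^ 2)⁻¹ := by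
  have h1 : Summable fun n : ℕ => ((1 + (n : ℝ)) ^ 2)⁻¹ := by
    have h2 := (summable_nat_add_iff (f := fun n : ℕ => ((n : ℝ) ^ 2)⁻¹) 1).2
      (Real.summable_nat_pow_inv.2 (by norm_num))
    refine h2.congr fun n => ?_
    push_cast
    rw [add_comm]
  refine summable_int_iff_summable_nat_and_neg.2 ⟨?_, ?_⟩
  · refine h1.congr fun n => ?_
    simp
  · refine h1.congr fun n => ?_
    simp

/-- bound of the entries of a product -/
theorem entry_mul (g h : G) (R S : ℝ) (hg : ∀ i j, |g.1 i j| ≤ R) (hh : ∀ i j, |h.1 i j| ≤ S)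
    (i j : Fin 2) : |(g * h).1 i j| ≤ 2 * (R * S) := by
  show |(g.1 * h.1) i j| ≤ _
  rw [Matrix.mul_apply, Fin.sum_univ_two]
  refine (abs_add_le _ _).trans ?_
  rw [abs_mul, abs_mul]
  have hR : 0 ≤ R := (abs_nonneg _).trans (hg 0 0)
  have h1 := mul_le_mul (hg i 0) (hh 0 j) (abs_nonneg _) hR
  have h2 := mul_le_mul (hg i 1) (hh 1 j) (abs_nonneg _) hR
  linarith

theorem entry_bd (g : G) : ∃ R : ℝ, ∀ i j, |g.1 i j| ≤ R := by
  refine ⟨∑ i, ∑ j, |g.1 i j|, fun i j => ?_⟩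
  exact (Finset.single_le_sum (f := fun j => |g.1 i j|) (fun _ _ => abs_nonneg _)
    (Finset.mem_univ j)).trans (Finset.single_le_sum (f := fun i => ∑ j, |g.1 i j|)
      (fun _ _ => Finset.sum_nonneg fun _ _ => abs_nonneg _) (Finset.mem_univ i))

theorem rot_bd (θ : ℝ) (i j : Fin 2) : |(rot θ).1 i j| ≤ 1 := by
  rw [rot_val]
  fin_cases i <;> fin_cases j
  · exact Real.abs_cos_le_one θ
  · exact Real.abs_sin_le_one θ
  · show |-Real.sin θ| ≤ 1
    rw [abs_neg]
    exact Real.abs_sin_le_one θ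
  · exact Real.abs_cos_le_one θ

/-- pointwise convergence -/
theorem point (hSOB : StmSOB) (hETA0 : StmETA0) (D : Rep) (Γ : Subgroup G) (η : D.H →ₗ[ℂ] ℂ)
    (hη : IsAutC D Γ η) (g h : G) (j m : ℤ) :
    Tendsto (fun N : ℕ => η (D.π g (T D m N (D.π h (D.e j))))) atTop (𝓝 0) := by
  obtain ⟨hSm, ⟨C, N0, hC⟩, hser, -⟩ := hETA0 D Γ η hη
  have hxE : D.π h (D.e j) ∈ D.E := pi_mem D h _ (e_mem D j)
  obtain ⟨Rg, hRg⟩ := entry_bd g
  obtain ⟨Rh, hRh⟩ := entry_bd h
  obtain ⟨B1, hB1⟩ := hSOB D j (N0 + 2) (2 * (2 * (Rg * 1) * Rh))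
  obtain ⟨B2, hB2⟩ := hSOB D m (N0 + 2) Rg
  set c : ℂ := ⟪D.e m, D.π h (D.e j)⟫_ℂ with hc
  have hval : ∀ N : ℕ, η (D.π g (T D m N (D.π h (D.e j)))) =
      ∑' l : ℤ, η (D.e l) * ⟪D.e l, D.π g (T D m N (D.π h (D.e j)))⟫_ℂ := fun N =>
    (hser _ (hSm _ (pi_mem D g _ (T_mem D m N _ hxE)))).tsum_eq.symm
  have hlim : Tendsto (fun N : ℕ => ∑' l : ℤ, η (D.e l) *
      ⟪D.e l, D.π g (T D m N (D.π h (D.e j)))⟫_ℂ) atTop (𝓝 (∑' _ : ℤ, (0 : ℂ))) := by
    refine tendsto_tsum_of_dominated_convergence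
      (bound := fun l : ℤ => C * (B1 + ‖c‖ * B2) * ((1 + |(l : ℝ)|) ^ 2)⁻¹)
      (summ.mul_left _) ?_ ?_
    · intro l
      have h1 := T_tendsto D m (D.π h (D.e j))
      have h2 := ((D.π g).continuous.tendsto 0).comp h1
      rw [map_zero] at h2
      have h3 := (tendsto_const_nhds (x := D.e l)).inner (𝕜 := ℂ) h2
      rw [inner_zero_right] at h3
      have h4 := h3.const_mul (η (D.e l))
      rw [mul_zero] at h4
      exact h4
    · filter_upwards [eventually_ge_atTop 1] with N hN l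
      have hl0 : (0 : ℝ) < 1 + |(l : ℝ)| := by positivity
      have hN0 : (0 : ℝ) < N := by exact_mod_cast hN
      rw [norm_mul]
      have h1 : ‖⟪D.e l, D.π g (T D m N (D.π h (D.e j)))⟫_ℂ‖ ≤
          (B1 + ‖c‖ * B2) * ((1 + |(l : ℝ)|) ^ (N0 + 2))⁻¹ := by
        have h5 : ∀ θ : ℝ, ‖⟪D.e l, D.π g (D.π (rot θ) (D.π h (D.e j)))⟫_ℂ‖ ≤
            B1 * ((1 + |(l : ℝ)|) ^ (N0 + 2))⁻¹ := by
          intro θ
          rw [← pi_mul, ← pi_mul]
          have := hB1 (g * rot θ * h)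
            (entry_mul _ _ _ _ (entry_mul _ _ _ _ hRg (rot_bd θ)) hRh) l
          rw [← div_eq_mul_inv, le_div_iff₀ (by positivity), mul_comm]
          exact this
        have h6 : ‖⟪D.e l, D.π g (D.e m)⟫_ℂ‖ ≤ B2 * ((1 + |(l : ℝ)|) ^ (N0 + 2))⁻¹ := by
          have := hB2 g hRg l
          rw [← div_eq_mul_inv, le_div_iff₀ (by positivity), mul_comm]
          exact this
        unfold T
        rw [map_sub, map_smul, map_sum, map_smul, inner_sub_right, inner_smul_right,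
          inner_smul_right, inner_sum]
        refine (norm_sub_le _ _).trans ?_
        rw [norm_mul, norm_mul, norm_inv, Complex.norm_natCast]
        have h7 : ‖∑ i ∈ Finset.range N, ⟪D.e l, D.π g
            (Complex.exp (-(Complex.I * (m * (2 * Real.pi * i / N)))) •
              D.π (rot (2 * Real.pi * i / N)) (D.π h (D.e j)))⟫_ℂ‖ ≤
            N * (B1 * ((1 + |(l : ℝ)|) ^ (N0 + 2))⁻¹) := by
          refine (norm_sum_le _ _).trans ?_
          refine (Finset.sum_le_sum (g := fun _ => B1 * ((1 + |(l : ℝ)|) ^ (N0 + 2))⁻¹)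
            fun i _ => ?_).trans (by rw [Finset.sum_const, Finset.card_range, nsmul_eq_mul])
          rw [map_smul, inner_smul_right, norm_mul]
          have h3 : -(Complex.I * ((m : ℂ) * (2 * Real.pi * i / N))) =
              ((-((m : ℝ) * (2 * Real.pi * i / N)) : ℝ) : ℂ) * Complex.I := by
            push_cast
            ring
          rw [h3, Complex.norm_exp_ofReal_mul_I, one_mul]
          exact h5 _
        have h8 : (N : ℝ)⁻¹ * ‖∑ i ∈ Finset.range N, ⟪D.e l, D.π g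
            (Complex.exp (-(Complex.I * (m * (2 * Real.pi * i / N)))) •
              D.π (rot (2 * Real.pi * i / N)) (D.π h (D.e j)))⟫_ℂ‖ ≤
            B1 * ((1 + |(l : ℝ)|) ^ (N0 + 2))⁻¹ := by
          rw [inv_mul_le_iff₀ hN0]
          exact h7
        have h9 : ‖c‖ * ‖⟪D.e l, D.π g (D.e m)⟫_ℂ‖ ≤
            ‖c‖ * (B2 * ((1 + |(l : ℝ)|) ^ (N0 + 2))⁻¹) :=
          mul_le_mul_of_nonneg_left h6 (norm_nonneg _)
        calc _ ≤ B1 * ((1 + |(l : ℝ)|) ^ (N0 + 2))⁻¹ +
              ‖c‖ * (B2 * ((1 + |(l : ℝ)|) ^ (N0 + 2))⁻¹) := add_le_add h8 h9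
          _ = _ := by ring
      have hC0 : 0 ≤ C * (1 + |(l : ℝ)|) ^ N0 := (norm_nonneg _).trans (hC l)
      calc ‖η (D.e l)‖ * _ ≤ (C * (1 + |(l : ℝ)|) ^ N0) *
            ((B1 + ‖c‖ * B2) * ((1 + |(l : ℝ)|) ^ (N0 + 2))⁻¹) :=
            mul_le_mul (hC l) h1 (norm_nonneg _) hC0
        _ = _ := by
            rw [pow_add]
            field_simp
  rw [tsum_zero] at hlim
  exact hlim.congr fun N => (hval N).symm

/-- uniform bound of the averages -/
theorem avg_e (hSOB : StmSOB) (hETA0 : StmETA0) (hETA1 : StmETA1) (D : Rep) (Γ : Subgroup G)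
    (η : D.H →ₗ[ℂ] ℂ) (hη : IsAutC D Γ η) (h : G) (j m : ℤ) :
    ∃ C : ℝ, ∀ N : ℕ, 1 ≤ N → pAut D η (T D m N (D.π h (D.e j))) ≤ C / N := by
  obtain ⟨-, -, -, hbd⟩ := hETA0 D Γ η hη
  set X : Matrix (Fin 2) (Fin 2) ℝ := h⁻¹.1 * !![0, 1; -1, 0] * h.1 with hX
  set C : ℝ := |(m : ℝ)| * pAut D η (D.e j) + pAut D η (dAct D.a D.e X j) with hCdef
  refine ⟨2 * Real.pi * C, fun N hN => p_bound fun g => ?_⟩
  -- the function on the circle
  set L : ℝ → ℂ := fun θ => Complex.exp (-(Complex.I * (m * θ))) *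
    η (D.π g (D.π (rot θ) (D.π h (D.e j)))) with hL
  set L' : ℝ → ℂ := fun θ => Complex.exp (-(Complex.I * (m * θ))) * (-(Complex.I * (m * 1))) *
    η (D.π (g * h) (D.π (h⁻¹ * rot θ * h) (D.e j))) + Complex.exp (-(Complex.I * (m * θ))) *
    η (D.π (g * h) (D.π (h⁻¹ * rot θ * h) (dAct D.a D.e X j))) with hL'
  have hpi : ∀ θ : ℝ, D.π g (D.π (rot θ) (D.π h (D.e j))) =
      D.π (g * h) (D.π (h⁻¹ * rot θ * h) (D.e j)) := by
    intro θ
    rw [← pi_mul, ← pi_mul, ← pi_mul]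
    congr 2
    group
  have hder : ∀ θ, HasDerivAt L (L' θ) θ := by
    intro θ
    have h1 : HasDerivAt (fun θ : ℝ => Complex.exp (-(Complex.I * ((m : ℂ) * (θ : ℂ)))))
        (Complex.exp (-(Complex.I * (m * θ))) * (-(Complex.I * (m * 1)))) θ :=
      ((((Complex.ofRealCLM.hasDerivAt (x := θ)).const_mul (m : ℂ)).const_mul Complex.I).neg).cexp
    have h2 := hETA1 D Γ η hη _ X (conj_rot h) (g * h) j θ
    have h3 := h1.mul h2
    rw [hL]
    simp only [hpi]
    exact h3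
  have hnexp : ∀ θ : ℝ, ‖Complex.exp (-(Complex.I * ((m : ℂ) * (θ : ℂ))))‖ = 1 := by
    intro θ
    have h3 : -(Complex.I * ((m : ℂ) * (θ : ℂ))) = ((-((m : ℝ) * θ) : ℝ) : ℂ) * Complex.I := by
      push_cast
      ring
    rw [h3, Complex.norm_exp_ofReal_mul_I]
  have hL'b : ∀ θ, ‖L' θ‖ ≤ C := by
    intro θ
    rw [hL']
    simp only []
    refine (norm_add_le _ _).trans ?_
    rw [norm_mul, norm_mul, norm_mul, hnexp, one_mul, one_mul, norm_neg, norm_mul, Complex.norm_I,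
      one_mul, mul_one, Complex.norm_intCast, ← pi_mul, ← pi_mul]
    exact add_le_add (mul_le_mul_of_nonneg_left (p_le (hbd _ (e_mem D j)) _) (abs_nonneg _))
      (p_le (hbd _ (dAct_mem D X j)) _)
  -- the averages
  have havg : ∀ K : ℕ, η (D.π g (T D m K (D.π h (D.e j)))) =
      (K : ℂ)⁻¹ * ∑ i ∈ Finset.range K, L (2 * Real.pi * i / K) -
        ⟪D.e m, D.π h (D.e j)⟫_ℂ * η (D.π g (D.e m)) := by
    intro K
    unfold T
    rw [map_sub, map_sub, map_smul, map_smul, map_sum, map_sum, map_smul, map_smul, smul_eq_mul,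
      smul_eq_mul]
    congr 2
    refine Finset.sum_congr rfl fun i _ => ?_
    rw [map_smul, map_smul, smul_eq_mul, hL]
    simp only []
    congr 2
    push_cast
    ring
  set I0 : ℂ := (2 * (Real.pi : ℂ))⁻¹ * ∫ t in (0 : ℝ)..(2 * Real.pi), L t with hI0
  have hr := riem L L' hder C hL'b
  have hlim1 : Tendsto (fun K : ℕ => (K : ℂ)⁻¹ * ∑ i ∈ Finset.range K, L (2 * Real.pi * i / K))
      atTop (𝓝 I0) := by
    rw [tendsto_iff_norm_sub_tendsto_zero]
    refine squeeze_zero' (Eventually.of_forall fun _ => norm_nonneg _)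
      ((eventually_ge_atTop 1).mono fun K hK => hr K hK) ?_
    exact tendsto_const_nhds.div_atTop tendsto_natCast_atTop_atTop
  have hlim2 := point hSOB hETA0 D Γ η hη g h j m
  simp only [havg] at hlim2
  have hlim3 := hlim1.sub_const (⟪D.e m, D.π h (D.e j)⟫_ℂ * η (D.π g (D.e m)))
  have heq := tendsto_nhds_unique hlim2 hlim3
  have heq' : ⟪D.e m, D.π h (D.e j)⟫_ℂ * η (D.π g (D.e m)) = I0 := (sub_eq_zero.1 heq.symm).symm
  rw [havg, heq']
  exact hr N hN

end ModETA2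

open ModALG ModCONT ModHIL ModETA2

theorem eta2 (hSOB : StmSOB) (_hHIL : StmHIL) (hETA0 : StmETA0) (hETA1 : StmETA1) : StmETA2 := by
  intro D Γ η hη
  obtain ⟨-, -, -, hbd⟩ := hETA0 D Γ η hη
  have hnn : ∀ x : D.H, 0 ≤ pAut D η x := fun x => Real.iSup_nonneg fun _ => norm_nonneg _
  have hadd : ∀ x ∈ D.E, ∀ y ∈ D.E, pAut D η (x + y) ≤ pAut D η x + pAut D η y := by
    intro x hx y hy
    refine p_bound fun g => ?_
    rw [map_add, map_add]
    exact (norm_add_le _ _).trans (add_le_add (p_le (hbd x hx) g) (p_le (hbd y hy) g))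
  have hsmul : ∀ (c : ℂ), ∀ x ∈ D.E, pAut D η (c • x) = ‖c‖ * pAut D η x := by
    intro c x _
    unfold pAut
    rw [Real.mul_iSup_of_nonneg (norm_nonneg c)]
    congr 1
    funext g
    rw [map_smul, map_smul, smul_eq_mul, norm_mul]
  refine ⟨fun x _ => hnn x, hadd, hsmul, ?_, ?_, ?_⟩
  · intro h x hx
    rw [one_mul]
    refine p_bound fun g => ?_
    rw [← pi_mul]
    exact p_le (hbd x hx) _
  · intro γ X hγ m
    set Y := dAct D.a (fun j => dAct D.a D.e X j) X m with hY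
    have hYE : Y ∈ D.E := by
      rw [hY]
      unfold dAct
      refine add_mem (add_mem ?_ ?_) ?_
      · exact Submodule.smul_mem _ _ (sub_mem (Submodule.smul_mem _ _ (dAct_mem D X _))
          (Submodule.smul_mem _ _ (dAct_mem D X _)))
      · exact Submodule.smul_mem _ _ (Submodule.smul_mem _ _ (add_mem
          (Submodule.smul_mem _ _ (dAct_mem D X _)) (Submodule.smul_mem _ _ (dAct_mem D X _))))
      · exact Submodule.smul_mem _ _ (Submodule.smul_mem _ _ (dAct_mem D X _))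
    have key : ∀ t : ℝ, t ≠ 0 →
        pAut D η ((t : ℂ)⁻¹ • (D.π (γ t) (D.e m) - D.e m) - dAct D.a D.e X m) ≤
          pAut D η Y * |t| := by
      intro t ht
      refine p_bound fun g => ?_
      -- the linear functionals
      have hΛ : ∀ (s : ℝ) (e : ℤ → D.H) (j : ℤ), η (D.π g (D.π (γ s) (dAct D.a e X j))) =
          dAct D.a (fun i => η (D.π g (D.π (γ s) (e i)))) X j := by
        intro s e j
        exact lin_dAct (η ∘ₗ ((D.π g).toLinearEquiv : D.H →ₗ[ℂ] D.H) ∘ₗ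
          ((D.π (γ s)).toLinearEquiv : D.H →ₗ[ℂ] D.H)) D.a e X j
      have h1 : ∀ s, HasDerivAt (fun s => η (D.π g (D.π (γ s) (D.e m))))
          (η (D.π g (D.π (γ s) (dAct D.a D.e X m)))) s := fun s => hETA1 D Γ η hη γ X hγ g m s
      have h2 : ∀ s, HasDerivAt (fun s => η (D.π g (D.π (γ s) (dAct D.a D.e X m))))
          (η (D.π g (D.π (γ s) Y))) s := by
        intro s
        have h3 := deriv_dAct D.a (fun j s => η (D.π g (D.π (γ s) (D.e j))))
          (fun j => η (D.π g (D.π (γ s) (dAct D.a D.e X j)))) s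
          (fun j => hETA1 D Γ η hη γ X hγ g j s) X m
        rw [hY, hΛ s (fun j => dAct D.a D.e X j) m]
        simp only [hΛ _ D.e m]
        exact h3
      have h3 := taylor _ _ _ h1 h2 (pAut D η Y) (fun s => by
        rw [← pi_mul]
        exact p_le (hbd Y hYE) _) t
      rw [param_zero hγ, pi_one, pi_one] at h3
      have htc : (t : ℂ) ≠ 0 := by exact_mod_cast ht
      have e : η (D.π g ((t : ℂ)⁻¹ • (D.π (γ t) (D.e m) - D.e m) - dAct D.a D.e X m)) =
          (t : ℂ)⁻¹ * (η (D.π g (D.π (γ t) (D.e m))) - η (D.π g (D.e m)) -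
            (t : ℂ) * η (D.π g (dAct D.a D.e X m))) := by
        rw [map_sub, map_smul, map_sub, map_sub, map_smul, map_sub, smul_eq_mul]
        field_simp
      rw [e, norm_mul, norm_inv, Complex.norm_real, Real.norm_eq_abs]
      have ht0 : 0 < |t| := abs_pos.2 ht
      rw [inv_mul_le_iff₀ ht0]
      linarith
    refine squeeze_zero' (Eventually.of_forall fun _ => hnn _)
      (eventually_nhdsWithin_of_forall fun t ht => key t ht) ?_
    have : Tendsto (fun t : ℝ => pAut D η Y * |t|) (𝓝 0) (𝓝 (pAut D η Y * |(0 : ℝ)|)) :=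
      (continuous_const.mul continuous_abs).tendsto 0
    rw [abs_zero, mul_zero] at this
    exact this.mono_left nhdsWithin_le_nhds
  · intro x hx m
    show Tendsto (fun N : ℕ => pAut D η (T D m N x)) atTop (𝓝 0)
    unfold Rep.E at hx
    induction hx using Submodule.span_induction with
    | mem x hx =>
      obtain ⟨h, j, rfl⟩ := hx
      obtain ⟨C, hC⟩ := avg_e hSOB hETA0 hETA1 D Γ η hη h j m
      refine squeeze_zero' (Eventually.of_forall fun _ => hnn _)
        ((eventually_ge_atTop 1).mono fun N hN => hC N hN) ?_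
      exact tendsto_const_nhds.div_atTop tendsto_natCast_atTop_atTop
    | zero =>
      have : ∀ N : ℕ, pAut D η (T D m N 0) = 0 := by
        intro N
        have h1 : T D m N 0 = 0 := by
          have := T_smul D m N 0 0
          rw [zero_smul, zero_smul] at this
          exact this
        rw [h1]
        have := hsmul 0 0 (zero_mem _)
        rw [zero_smul, norm_zero, zero_mul] at this
        exact this
      simp only [this]
      exact tendsto_const_nhds
    | add x y hx hy ihx ihy =>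
      have h1 := ihx.add ihy
      rw [add_zero] at h1
      refine squeeze_zero (fun _ => hnn _) (fun N => ?_) h1
      rw [T_add]
      exact hadd _ (T_mem D m N x hx) _ (T_mem D m N y hy)
    | smul c x hx ih =>
      have h1 := ih.const_mul ‖c‖
      rw [mul_zero] at h1
      refine h1.congr fun N => ?_
      rw [T_smul, hsmul c _ (T_mem D m N x hx)]

end Pool.Agent.T6.H28.SN
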