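import Mathlib
import Pool.Agent.T6.H28.SN.Stm2
import Pool.Agent.T6.H28.SN.Alg
import Pool.Agent.T6.H28.SN.Lip

/-! Module ETA3 of project SN (helper80): `p_aut` is in `Norm(V)`. -/

set_option autoImplicit false

open scoped InnerProductSpace ComplexConjugate Topology
open Filter

namespace Pool.Agent.T6.H28.SN

namespace ModETA3

variable {D : Rep} {p : D.H → ℝ}

theorem avg_one (hAVGL : StmAVGL) (hp : IsSem D 1 p) {x : D.H} (hx : x ∈ D.E) (h0 : p x = 0)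
    (m : ℤ) (hm : ⟪D.e m, x⟫_ℂ ≠ 0) : p (D.e m) = 0 := by
  have h1 := hAVGL D 1 p hp x hx {m} (fun _ => 1)
  rw [h0, mul_zero, Finset.sum_singleton, one_mul, hp.smul _ _ (ModLIP.e_mem m)] at h1
  have h2 := hp.nonneg _ (ModLIP.e_mem m)
  have h3 : 0 < ‖⟪D.e m, x⟫_ℂ‖ := norm_pos_iff.2 hm
  by_contra h4
  have h5 : 0 < p (D.e m) := lt_of_le_of_ne h2 (Ne.symm h4)
  have h6 := mul_pos h3 h5
  linarith

theorem dAct_zero (hp : IsSem D 1 p) {j : ℤ} (h0 : p (D.e j) = 0) :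
    p (dAct D.a D.e !![1, 0; 0, -1] j) = 0 := by
  have hd := hp.diff _ _ ModALG.dil_oneParam j
  have hmem : dAct D.a D.e !![1, 0; 0, -1] j ∈ D.E := ModLIP.dAct_mem _ _ ModLIP.e_mem j
  have hn := hp.nonneg _ hmem
  refine le_antisymm ?_ hn
  refine ge_of_tendsto hd ?_
  filter_upwards [self_mem_nhdsWithin] with t ht
  have hx : D.π (dil t) (D.e j) - D.e j ∈ D.E :=
    Submodule.sub_mem _ (ModLIP.pi_mem _ (ModLIP.e_mem j)) (ModLIP.e_mem j)
  have h1 : p (D.π (dil t) (D.e j) - D.e j) ≤ 0 := by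
    refine (ModLIP.p_sub hp (ModLIP.pi_mem _ (ModLIP.e_mem j)) (ModLIP.e_mem j)).trans ?_
    have := hp.bdd (dil t) _ (ModLIP.e_mem j)
    rw [h0] at this ⊢
    linarith
  have h2 : p ((t : ℂ)⁻¹ • (D.π (dil t) (D.e j) - D.e j)) ≤ 0 := by
    rw [hp.smul _ _ hx]
    exact mul_nonpos_of_nonneg_of_nonpos (norm_nonneg _) h1
  have hy : (t : ℂ)⁻¹ • (D.π (dil t) (D.e j) - D.e j) ∈ D.E := Submodule.smul_mem _ _ hx
  have e : dAct D.a D.e !![1, 0; 0, -1] j = (t : ℂ)⁻¹ • (D.π (dil t) (D.e j) - D.e j) -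
      ((t : ℂ)⁻¹ • (D.π (dil t) (D.e j) - D.e j) - dAct D.a D.e !![1, 0; 0, -1] j) := by abel
  have h3 := ModLIP.p_sub hp hy (Submodule.sub_mem _ hy hmem)
  rw [← e] at h3
  linarith

theorem step (hAVGL : StmAVGL) (hp : IsSem D 1 p) {j : ℤ} (hj : j ∈ D.S) (h0 : p (D.e j) = 0) :
    (j + 2 ∈ D.S → p (D.e (j + 2)) = 0) ∧ (j - 2 ∈ D.S → p (D.e (j - 2)) = 0) := by
  have hmem : dAct D.a D.e !![1, 0; 0, -1] j ∈ D.E := ModLIP.dAct_mem _ _ ModLIP.e_mem j
  have hz := dAct_zero hp h0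
  have hd : dAct D.a D.e !![1, 0; 0, -1] j =
      D.a j • D.e (j + 2) - conj (D.a (j - 2)) • D.e (j - 2) := by
    unfold dAct
    simp
  constructor
  · intro h2
    apply avg_one hAVGL hp hmem hz
    rw [hd, inner_sub_right, inner_smul_right, inner_smul_right]
    have e1 : ⟪D.e (j + 2), D.e (j + 2)⟫_ℂ = 1 := by rw [D.orth _ h2 _ h2, if_pos rfl]
    have e2 : ⟪D.e (j + 2), D.e (j - 2)⟫_ℂ = 0 := by
      by_cases h3 : j - 2 ∈ D.S
      · rw [D.orth _ h2 _ h3, if_neg (by omega)]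
      · rw [D.e_out _ h3, inner_zero_right]
    rw [e1, e2, mul_one, mul_zero, sub_zero]
    exact (D.a_ne j).2 ⟨hj, h2⟩
  · intro h2
    apply avg_one hAVGL hp hmem hz
    rw [hd, inner_sub_right, inner_smul_right, inner_smul_right]
    have e1 : ⟪D.e (j - 2), D.e (j - 2)⟫_ℂ = 1 := by rw [D.orth _ h2 _ h2, if_pos rfl]
    have e2 : ⟪D.e (j - 2), D.e (j + 2)⟫_ℂ = 0 := by
      by_cases h3 : j + 2 ∈ D.S
      · rw [D.orth _ h2 _ h3, if_neg (by omega)]
      · rw [D.e_out _ h3, inner_zero_right]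
    rw [e1, e2, mul_one, mul_zero, zero_sub, neg_ne_zero]
    have h3 : D.a (j - 2) ≠ 0 := (D.a_ne (j - 2)).2 ⟨h2, by
      have : j - 2 + 2 = j := by ring
      rw [this]; exact hj⟩
    exact (map_ne_zero _).2 h3

theorem all_zero (hAVGL : StmAVGL) (hp : IsSem D 1 p) {m : ℤ} (hm : m ∈ D.S)
    (h0 : p (D.e m) = 0) : ∀ j ∈ D.S, p (D.e j) = 0 := by
  have hup : ∀ i : ℕ, (∀ l, m ≤ l → l ≤ m + 2 * i → 2 ∣ l - m → l ∈ D.S) →
      p (D.e (m + 2 * i)) = 0 := by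
    intro i
    induction i with
    | zero =>
      intro _
      simpa using h0
    | succ i ih =>
      intro h
      have h1 := ih fun l h1 h2 h3 => h l h1 (by push_cast; omega) h3
      have h2 : m + 2 * (i : ℤ) ∈ D.S := h _ (by omega) (by push_cast; omega) ⟨i, by ring⟩
      have h3 : m + 2 * ((i + 1 : ℕ) : ℤ) = m + 2 * (i : ℤ) + 2 := by push_cast; ring
      have h4 : m + 2 * ((i + 1 : ℕ) : ℤ) ∈ D.S := h _ (by push_cast; omega) le_rfl
        ⟨(i + 1 : ℕ), by ring⟩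
      rw [h3] at h4 ⊢
      exact (step hAVGL hp h2 h1).1 h4
  have hdn : ∀ i : ℕ, (∀ l, m - 2 * i ≤ l → l ≤ m → 2 ∣ l - m → l ∈ D.S) →
      p (D.e (m - 2 * i)) = 0 := by
    intro i
    induction i with
    | zero =>
      intro _
      simpa using h0
    | succ i ih =>
      intro h
      have h1 := ih fun l h1 h2 h3 => h l (by push_cast; omega) h2 h3
      have h2 : m - 2 * (i : ℤ) ∈ D.S := h _ (by push_cast; omega) (by omega) ⟨-i, by ring⟩
      have h3 : m - 2 * ((i + 1 : ℕ) : ℤ) = m - 2 * (i : ℤ) - 2 := by push_cast; ring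
      have h4 : m - 2 * ((i + 1 : ℕ) : ℤ) ∈ D.S := h _ le_rfl (by push_cast; omega)
        ⟨-(i + 1 : ℕ), by ring⟩
      rw [h3] at h4 ⊢
      exact (step hAVGL hp h2 h1).2 h4
  intro j hj
  rcases le_total m j with h | h
  · obtain ⟨h1, h2⟩ := D.conn m hm j hj
    obtain ⟨k, hk⟩ := h1
    have h3 : m + 2 * ((k.toNat : ℕ) : ℤ) = j := by omega
    have h4 := hup k.toNat fun l a b c => h2 l a (by omega) c
    rwa [h3] at h4
  · obtain ⟨h1, h2⟩ := D.conn j hj m hm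
    obtain ⟨k, hk⟩ := h1
    have h3 : m - 2 * ((k.toNat : ℕ) : ℤ) = j := by omega
    have h4 := hdn k.toNat fun l a b c => h2 l (by omega) b (by omega)
    rwa [h3] at h4

end ModETA3

open ModETA3 in
theorem eta3 (_hKAP : StmKAP) (hAVGL : StmAVGL) (hETA0 : StmETA0) (hETA2 : StmETA2) : StmETA3 := by
  intro D Γ η hη F hF hcov
  obtain ⟨hSm, -, hsum, hbd⟩ := hETA0 D Γ η hη
  have hp := hETA2 D Γ η hη
  refine ⟨hη.discrete, hF, hcov, fun γ hγ x hx => hη.inv γ hγ x (hSm x hx), hbd, ?_⟩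
  refine ⟨hp.add, hp.smul, ?_, ⟨1, hp.bdd⟩, hp.diff, hp.avg⟩
  intro x hx hx0
  by_contra hcon
  have h0 : pAut D η x = 0 := le_antisymm (not_lt.1 hcon) (hp.nonneg x hx)
  obtain ⟨m, hm⟩ : ∃ m, ⟪D.e m, x⟫_ℂ ≠ 0 := by
    by_contra hc
    push Not at hc
    exact hx0 (D.total x hc)
  have hmS : m ∈ D.S := by
    by_contra hc
    apply hm
    rw [D.e_out m hc, inner_zero_left]
  have h1 := avg_one hAVGL hp hx h0 m hm
  have h2 := all_zero hAVGL hp hmS h1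
  have h3 : ∀ j, η (D.e j) = 0 := by
    intro j
    by_cases hj : j ∈ D.S
    · have h4 : ‖η (D.e j)‖ ≤ pAut D η (D.e j) := by
        have h5 := le_ciSup (hbd (D.e j) (ModLIP.e_mem j)) 1
        have h6 : D.π 1 (D.e j) = D.e j := ModLIP.pi_one _
        simp only [h6] at h5
        exact h5
      rw [h2 j hj] at h4
      exact norm_le_zero_iff.1 h4
    · rw [D.e_out j hj, map_zero]
  obtain ⟨y, hy, hy0⟩ := hη.ne
  apply hy0
  have h4 := hsum y hy
  simp only [h3, zero_mul] at h4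
  exact h4.unique hasSum_zero

end Pool.Agent.T6.H28.SN
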