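import Mathlib
import Pool.Agent.T6.H28.SN.Stm2
import Pool.Agent.T6.H28.SN.Alg

/-! Module EXT of project SN (helper80): the norm of a globalisation as a norm on `E`. -/

set_option autoImplicit false

open scoped InnerProductSpace ComplexConjugate Topology
open Filter

namespace Pool.Agent.T6.H28.SN

namespace ModEXT

open ModALG

theorem param_zero {γ : ℝ → G} {X : Matrix (Fin 2) (Fin 2) ℝ} (h : IsOneParam γ X) : γ 0 = 1 := by
  have h1 := h.add 0 0
  rw [add_zero] at h1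
  exact (mul_eq_left.1 h1.symm)

variable {D : Rep} {W : Glob D}

theorem rho_mul (g h : G) (x : W.B) : W.ρ (g * h) x = W.ρ g (W.ρ h x) := by
  rw [map_mul]
  rfl

theorem rho_one (x : W.B) : W.ρ 1 x = x := by
  rw [map_one]
  rfl

/-- the graph of the embedding of `E` -/
def R (D : Rep) (W : Glob D) : Submodule ℂ (D.H × W.B) :=
  Submodule.span ℂ {z | ∃ (g : G) (m : ℤ), z = (D.π g (D.e m), W.ρ g (W.b m))}

theorem R_gen (g : G) (m : ℤ) : (D.π g (D.e m), W.ρ g (W.b m)) ∈ R D W :=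
  Submodule.subset_span ⟨g, m, rfl⟩

theorem R_e (m : ℤ) : (D.e m, W.b m) ∈ R D W := by
  have h := R_gen (D := D) (W := W) 1 m
  rwa [pi_one, rho_one] at h

theorem R_inv (g : G) {x : D.H} {y : W.B} (h : (x, y) ∈ R D W) :
    (D.π g x, W.ρ g y) ∈ R D W := by
  have key : ∀ z : D.H × W.B, z ∈ R D W → (D.π g z.1, W.ρ g z.2) ∈ R D W := by
    intro z hz
    unfold R at hz
    induction hz using Submodule.span_induction with
    | mem z h =>
      obtain ⟨g', m, rfl⟩ := h
      show (D.π g (D.π g' (D.e m)), W.ρ g (W.ρ g' (W.b m))) ∈ R D W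
      rw [← pi_mul, ← rho_mul]
      exact R_gen _ m
    | zero =>
      show (D.π g (0 : D.H), W.ρ g (0 : W.B)) ∈ R D W
      rw [map_zero, map_zero]
      exact (R D W).zero_mem
    | add x y _ _ hx hy =>
      have := (R D W).add_mem hx hy
      rw [Prod.mk_add_mk, ← map_add, ← map_add] at this
      exact this
    | smul c x _ hx =>
      have := (R D W).smul_mem c hx
      rw [Prod.smul_mk, ← map_smul, ← map_smul] at this
      exact this
  exact key _ h

theorem R_dAct (X : Matrix (Fin 2) (Fin 2) ℝ) (m : ℤ) :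
    (dAct D.a D.e X m, dAct D.a W.b X m) ∈ R D W := by
  have h1 : (dAct D.a D.e X m, dAct D.a W.b X m) =
      dAct D.a (fun j => (D.e j, W.b j)) X m := by
    unfold dAct
    apply Prod.ext
    · rfl
    · rfl
  rw [h1]
  unfold dAct
  have he := fun j => R_e (D := D) (W := W) j
  refine (R D W).add_mem ((R D W).add_mem ((R D W).smul_mem _ ((R D W).sub_mem
    ((R D W).smul_mem _ (he _)) ((R D W).smul_mem _ (he _)))) ((R D W).smul_mem _
      ((R D W).smul_mem _ ((R D W).add_mem ((R D W).smul_mem _ (he _))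
        ((R D W).smul_mem _ (he _)))))) ((R D W).smul_mem _ ((R D W).smul_mem _ (he _)))

theorem R_sum {I : Type} (s : Finset I) (x : I → D.H) (y : I → W.B)
    (h : ∀ i ∈ s, (x i, y i) ∈ R D W) : (∑ i ∈ s, x i, ∑ i ∈ s, y i) ∈ R D W := by
  have h1 : (∑ i ∈ s, x i, ∑ i ∈ s, y i) = ∑ i ∈ s, (x i, y i) := by
    rw [Prod.ext_iff, Prod.fst_sum, Prod.snd_sum]
    exact ⟨rfl, rfl⟩
  rw [h1]
  exact (R D W).sum_mem h

theorem R_P (P : ℤ → (W.B →L[ℂ] W.B))
    (hM : ∀ (l m : ℤ) (g : G), P l (W.ρ g (W.b m)) = ⟪D.e l, D.π g (D.e m)⟫_ℂ • W.b l)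
    {x : D.H} {y : W.B} (h : (x, y) ∈ R D W) (l : ℤ) : P l y = ⟪D.e l, x⟫_ℂ • W.b l := by
  have key : ∀ z : D.H × W.B, z ∈ R D W → P l z.2 = ⟪D.e l, z.1⟫_ℂ • W.b l := by
    intro z hz
    unfold R at hz
    induction hz using Submodule.span_induction with
    | mem z h =>
      obtain ⟨g', m, rfl⟩ := h
      exact hM l m g'
    | zero =>
      show P l (0 : W.B) = ⟪D.e l, (0 : D.H)⟫_ℂ • W.b l
      rw [map_zero, inner_zero_right, zero_smul]
    | add x y _ _ hx hy =>
      show P l (x.2 + y.2) = ⟪D.e l, x.1 + y.1⟫_ℂ • W.b l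
      rw [map_add, hx, hy, inner_add_right, add_smul]
    | smul c x _ hx =>
      show P l (c • x.2) = ⟪D.e l, c • x.1⟫_ℂ • W.b l
      rw [map_smul, hx, inner_smul_right, smul_smul]
  exact key _ h

theorem R_ex {x : D.H} (h : x ∈ D.E) : ∃ y : W.B, (x, y) ∈ R D W := by
  unfold Rep.E at h
  induction h using Submodule.span_induction with
  | mem z h =>
    obtain ⟨g', m, rfl⟩ := h
    exact ⟨_, R_gen g' m⟩
  | zero => exact ⟨0, (R D W).zero_mem⟩
  | add x y _ _ hx hy =>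
    obtain ⟨a, ha⟩ := hx
    obtain ⟨b, hb⟩ := hy
    exact ⟨a + b, (R D W).add_mem ha hb⟩
  | smul c x _ hx =>
    obtain ⟨a, ha⟩ := hx
    exact ⟨c • a, (R D W).smul_mem c ha⟩

open Classical in
/-- the embedding -/
noncomputable def T (D : Rep) (W : Glob D) (x : D.H) : W.B :=
  if h : ∃ y : W.B, (x, y) ∈ R D W then h.choose else 0

theorem T_of (hinj : ∀ y : W.B, ((0 : D.H), y) ∈ R D W → y = 0) {x : D.H} {y : W.B}
    (h : (x, y) ∈ R D W) : T D W x = y := by
  have hex : ∃ y : W.B, (x, y) ∈ R D W := ⟨y, h⟩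
  unfold T
  rw [dif_pos hex]
  have h1 := (R D W).sub_mem hex.choose_spec h
  rw [Prod.mk_sub_mk, sub_self] at h1
  exact sub_eq_zero.1 (hinj _ h1)

end ModEXT

open ModEXT ModALG in
theorem ext' (hPRJ : StmPRJ) (hMCO : StmMCO) : StmEXT := by
  intro D W
  obtain ⟨P, hP1, hP2, hP3, hP4, hP5⟩ := hPRJ D W
  have hM := hMCO D W P hP1 hP2 hP3
  have hRP := fun {x : D.H} {y : W.B} (h : (x, y) ∈ R D W) l => R_P P hM h l
  have hinj : ∀ y : W.B, ((0 : D.H), y) ∈ R D W → y = 0 := by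
    intro y hy
    apply hP4
    intro l
    rw [hRP hy l, inner_zero_right, zero_smul]
  have hT := fun {x : D.H} {y : W.B} (h : (x, y) ∈ R D W) => T_of hinj h
  refine ⟨fun x => ‖T D W x‖, ⟨?_, ?_, ?_, ?_, ?_, ?_⟩, ?_⟩
  · intro x hx y hy
    obtain ⟨a, ha⟩ := R_ex (W := W) hx
    obtain ⟨b, hb⟩ := R_ex (W := W) hy
    show ‖T D W (x + y)‖ ≤ ‖T D W x‖ + ‖T D W y‖
    rw [hT ha, hT hb, hT ((R D W).add_mem ha hb)]
    exact norm_add_le _ _
  · intro c x hx
    obtain ⟨a, ha⟩ := R_ex (W := W) hx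
    show ‖T D W (c • x)‖ = ‖c‖ * ‖T D W x‖
    rw [hT ha, hT ((R D W).smul_mem c ha)]
    exact norm_smul _ _
  · intro x hx hx0
    obtain ⟨a, ha⟩ := R_ex (W := W) hx
    show 0 < ‖T D W x‖
    rw [hT ha, norm_pos_iff]
    intro h0
    apply hx0
    apply D.total
    intro l
    by_cases hl : l ∈ D.S
    · have h1 := hRP ha l
      rw [h0, map_zero] at h1
      rcases smul_eq_zero.1 h1.symm with h2 | h2
      · exact h2
      · exact absurd hl ((W.b_zero l).1 h2)
    · rw [D.e_out l hl, inner_zero_left]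
  · obtain ⟨C, hC⟩ := W.bdd
    refine ⟨C, fun g x hx => ?_⟩
    obtain ⟨a, ha⟩ := R_ex (W := W) hx
    show ‖T D W (D.π g x)‖ ≤ C * ‖T D W x‖
    rw [hT ha, hT (R_inv g ha)]
    exact ((W.ρ g).le_opNorm a).trans (mul_le_mul_of_nonneg_right (hC g) (norm_nonneg _))
  · intro γ X hγ m
    have h1 : ∀ t : ℝ, T D W ((t : ℂ)⁻¹ • (D.π (γ t) (D.e m) - D.e m) - dAct D.a D.e X m) =
        (t : ℂ)⁻¹ • (W.ρ (γ t) (W.b m) - W.b m) - dAct D.a W.b X m := by
      intro t
      apply hT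
      exact (R D W).sub_mem ((R D W).smul_mem _ ((R D W).sub_mem (R_gen (γ t) m) (R_e m)))
        (R_dAct X m)
    simp only [h1]
    have h2 := W.diff γ X hγ m
    rw [hasDerivAt_iff_tendsto_slope] at h2
    have h3 : Tendsto (fun t : ℝ => slope (fun t => W.ρ (γ t) (W.b m)) 0 t - dAct D.a W.b X m)
        (𝓝[≠] 0) (𝓝 0) := by
      have := h2.sub_const (dAct D.a W.b X m)
      rwa [sub_self] at this
    have h4 := h3.norm
    rw [norm_zero] at h4
    refine h4.congr fun t => ?_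
    congr 2
    rw [slope_def_module, sub_zero, param_zero hγ, rho_one, ← Complex.ofReal_inv]
    rfl
  · intro x hx m
    obtain ⟨a, ha⟩ := R_ex (W := W) hx
    have h1 : ∀ N : ℕ, T D W ((N : ℂ)⁻¹ • (∑ j ∈ Finset.range N,
        Complex.exp (-(Complex.I * (m * (2 * Real.pi * j / N)))) •
          D.π (rot (2 * Real.pi * j / N)) x) - ⟪D.e m, x⟫_ℂ • D.e m) =
        (N : ℂ)⁻¹ • (∑ j ∈ Finset.range N,
        Complex.exp (-(Complex.I * (m * (2 * Real.pi * j / N)))) •
          W.ρ (rot (2 * Real.pi * j / N)) a) - P m a := by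
      intro N
      apply hT
      rw [hRP ha m]
      have hs := R_sum (D := D) (W := W) (Finset.range N)
        (fun j : ℕ => Complex.exp (-(Complex.I * (m * (2 * Real.pi * j / N)))) •
          D.π (rot (2 * Real.pi * j / N)) x)
        (fun j : ℕ => Complex.exp (-(Complex.I * (m * (2 * Real.pi * j / N)))) •
          W.ρ (rot (2 * Real.pi * j / N)) a)
        (fun j _ => (R D W).smul_mem _ (R_inv _ ha))
      exact (R D W).sub_mem ((R D W).smul_mem (N : ℂ)⁻¹ hs)
        ((R D W).smul_mem ⟪D.e m, x⟫_ℂ (R_e m))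
    simp only [h1]
    have h2 := (hP5 m a).sub_const (P m a)
    rw [sub_self] at h2
    have h3 := h2.norm
    rw [norm_zero] at h3
    exact h3
  · intro A c
    show ‖T D W (D.vec A c)‖ = _
    congr 1
    apply hT
    exact R_sum _ _ _ fun m _ => (R D W).smul_mem _ (R_e m)

end Pool.Agent.T6.H28.SN
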