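import Pool.Agent.T6.H28.SN.Stm2

/-!
# From norms on `E` to Banach globalisations
-/

set_option autoImplicit false

open scoped InnerProductSpace ComplexConjugate Topology ENNReal
open Filter MeasureTheory

namespace Pool.Agent.T6.H28.SN

namespace ModFIN2

theorem dom_congr {D : Rep} {s : ℝ} {p p' q q' : D.H → ℝ}
    (hp : ∀ (A : Finset ℤ) (c : ℤ → ℂ), p (D.vec A c) = p' (D.vec A c))
    (hq : ∀ (A : Finset ℤ) (c : ℤ → ℂ), q (D.vec A c) = q' (D.vec A c)) :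
    Dom D s p q ↔ Dom D s p' q' := by
  constructor
  · rintro ⟨C, hC⟩
    exact ⟨C, fun A c => by rw [← hp, ← hq]; exact hC A c⟩
  · rintro ⟨C, hC⟩
    exact ⟨C, fun A c => by rw [hp, hq]; exact hC A c⟩

theorem dist_congr {D : Rep} {p p' q q' : D.H → ℝ}
    (hp : ∀ (A : Finset ℤ) (c : ℤ → ℂ), p (D.vec A c) = p' (D.vec A c))
    (hq : ∀ (A : Finset ℤ) (c : ℤ → ℂ), q (D.vec A c) = q' (D.vec A c)) :
    dist D p q = dist D p' q' := by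
  have h1 : ddist D p q = ddist D p' q' := by
    unfold ddist
    congr 1
    ext s
    rw [Set.mem_setOf_eq, Set.mem_setOf_eq, dom_congr hp hq]
  have h2 : ddist D q p = ddist D q' p' := by
    unfold ddist
    congr 1
    ext s
    rw [Set.mem_setOf_eq, Set.mem_setOf_eq, dom_congr hq hp]
  rw [dist, dist, h1, h2]

theorem isMax_of (hEXT : StmEXT) (hCMPL : StmCMPL) {D : Rep} {pm : D.H → ℝ} (h : IsMaxV D pm) :
    ∃ pm' : D.H → ℝ, IsMax D pm' ∧ ∀ (A : Finset ℤ) (c : ℤ → ℂ),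
      pm (D.vec A c) = pm' (D.vec A c) := by
  obtain ⟨⟨W, hW⟩, hmax⟩ := h
  obtain ⟨pm', h1, h2⟩ := hEXT D W
  have h3 : ∀ (A : Finset ℤ) (c : ℤ → ℂ), pm (D.vec A c) = pm' (D.vec A c) := fun A c => by
    rw [hW, h2]
  refine ⟨pm', ⟨h1, fun q hq => ?_⟩, h3⟩
  exact (dom_congr (fun _ _ => rfl) h3).mp (hmax q (hCMPL D q hq))

theorem isMaxV_of (hEXT : StmEXT) (hCMPL : StmCMPL) {D : Rep} {pm : D.H → ℝ} (h : IsMax D pm) :
    IsMaxV D pm := by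
  refine ⟨hCMPL D pm h.1, fun q hq => ?_⟩
  obtain ⟨W, hW⟩ := hq
  obtain ⟨q', h1, h2⟩ := hEXT D W
  exact (dom_congr (fun A c => by rw [hW, h2]) (fun _ _ => rfl)).mp (h.2 q' h1)

theorem fin (hEXT : StmEXT) (hCMPL : StmCMPL) (hETA3 : StmETA3)
    (main : ∀ (D : Rep) (Γ : Subgroup G) (F : Set G) (η : D.H →ₗ[ℂ] ℂ), IsAut D Γ F η →
      (∃ pm, IsMax D pm) ∧ ∀ pm, IsMax D pm → dist D (pAut D η) pm = 1 / 2)
    (D : Rep) (Γ : Subgroup G) (η : D.H →ₗ[ℂ] ℂ) (h : IsAutC D Γ η) :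
    IsGNormV D (pAut D η) ∧ (∃ pm, IsMaxV D pm) ∧
      ∀ pm, IsMaxV D pm → dist D (pAut D η) pm = 1 / 2 := by
  obtain ⟨F, hF, hcov⟩ := h.cocompact
  have hA := hETA3 D Γ η h F hF hcov
  obtain ⟨⟨pm, hpm⟩, h2⟩ := main D Γ F η hA
  refine ⟨hCMPL D _ hA.norm, ⟨pm, isMaxV_of hEXT hCMPL hpm⟩, fun q hq => ?_⟩
  obtain ⟨q', h3, h4⟩ := isMax_of hEXT hCMPL hq
  rw [dist_congr (fun _ _ => rfl) h4]
  exact h2 q' h3

end ModFIN2

end Pool.Agent.T6.H28.SN
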