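import Mathlib
import Pool.Agent.T6.H28.SN.Stm2
import Pool.Agent.T6.H28.SN.Alg

/-! Module MCO of project SN (helper80): the matrix coefficients of a globalisation. -/

set_option autoImplicit false

open scoped InnerProductSpace ComplexConjugate Topology
open Filter

namespace Pool.Agent.T6.H28.SN

namespace ModMCO

open ModALG

section

variable {V : Type} [NormedAddCommGroup V] [NormedSpace ℂ V] (ρ : G →* (V →L[ℂ] V)) (a : ℤ → ℂ)
  (b : ℤ → V)

theorem rho_mul (g h : G) (x : V) : ρ (g * h) x = ρ g (ρ h x) := by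
  rw [map_mul]
  rfl

theorem rho_one (x : V) : ρ 1 x = x := by
  rw [map_one]
  rfl

theorem deriv_at' (diff : ∀ (γ : ℝ → G) (X : Matrix (Fin 2) (Fin 2) ℝ), IsOneParam γ X → ∀ m : ℤ,
    HasDerivAt (fun t => ρ (γ t) (b m)) (dAct a b X m) 0) (γ : ℝ → G)
    (X : Matrix (Fin 2) (Fin 2) ℝ) (hγ : IsOneParam γ X) (m : ℤ) (u : ℝ) :
    HasDerivAt (fun s => ρ (γ s) (b m)) (ρ (γ u) (dAct a b X m)) u := by
  have h0 := diff γ X hγ m
  have h1 : HasDerivAt (fun s : ℝ => s - u) 1 u := (hasDerivAt_id u).sub_const u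
  have h2 : HasDerivAt (fun s : ℝ => ρ (γ (s - u)) (b m)) (dAct a b X m) u := by
    have h3 : HasDerivAt (fun t => ρ (γ t) (b m)) (dAct a b X m) (u - u) := by
      rw [sub_self]; exact h0
    have h4 := HasDerivAt.scomp (h := fun s : ℝ => s - u) u h3 h1
    rw [one_smul] at h4
    exact h4
  let L : V →L[ℝ] V := (ρ (γ u)).restrictScalars ℝ
  have h5 : HasDerivAt (fun s : ℝ => L (ρ (γ (s - u)) (b m))) (L (dAct a b X m)) u :=
    L.hasFDerivAt.comp_hasDerivAt u h2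
  have h6 : (fun s : ℝ => L (ρ (γ (s - u)) (b m))) = (fun s => ρ (γ s) (b m)) := by
    funext s
    show ρ (γ u) (ρ (γ (s - u)) (b m)) = ρ (γ s) (b m)
    rw [← rho_mul, ← hγ.add]
    congr 3
    ring
  rw [h6] at h5
  exact h5

theorem derivA (diff : ∀ (γ : ℝ → G) (X : Matrix (Fin 2) (Fin 2) ℝ), IsOneParam γ X → ∀ m : ℤ,
    HasDerivAt (fun t => ρ (γ t) (b m)) (dAct a b X m) 0) (Λ : V →L[ℂ] ℂ) (m : ℤ) (t : ℝ) :
    HasDerivAt (fun t => Λ (ρ (dil t) (b m)))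
      (a m * Λ (ρ (dil t) (b (m + 2))) - conj (a (m - 2)) * Λ (ρ (dil t) (b (m - 2)))) t := by
  have h1 := deriv_at' ρ a b diff dil _ dil_oneParam m t
  have h2 : HasDerivAt (fun s : ℝ => (Λ.restrictScalars ℝ) (ρ (dil s) (b m)))
      ((Λ.restrictScalars ℝ) (ρ (dil t) (dAct a b !![1, 0; 0, -1] m))) t :=
    (Λ.restrictScalars ℝ).hasFDerivAt.comp_hasDerivAt t h1
  have h3 : dAct a b !![1, 0; 0, -1] m = a m • b (m + 2) - conj (a (m - 2)) • b (m - 2) := by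
    unfold dAct
    simp
  refine h2.congr_deriv ?_
  show Λ (ρ (dil t) (dAct a b !![1, 0; 0, -1] m)) = _
  rw [h3, map_sub, map_sub, map_smul, map_smul, map_smul, map_smul, smul_eq_mul, smul_eq_mul]

theorem derivB (diff : ∀ (γ : ℝ → G) (X : Matrix (Fin 2) (Fin 2) ℝ), IsOneParam γ X → ∀ m : ℤ,
    HasDerivAt (fun t => ρ (γ t) (b m)) (dAct a b X m) 0) (Λ : V →L[ℂ] ℂ) (l : ℤ)
    (hΛ : ∀ (θ : ℝ) (y : V), Λ (ρ (rot θ) y) = Complex.exp (Complex.I * (l * θ)) * Λ y)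
    (m : ℤ) (t : ℝ) :
    (l : ℂ) * Λ (ρ (dil t) (b m)) = (m : ℂ) * Real.cosh (2 * t) * Λ (ρ (dil t) (b m)) +
      Real.sinh (2 * t) * (a m * Λ (ρ (dil t) (b (m + 2))) +
        conj (a (m - 2)) * Λ (ρ (dil t) (b (m - 2)))) := by
  have h1 := diff _ _ (conj_oneParam (-t)) m
  obtain ⟨Λ', hΛ'⟩ : ∃ Λ' : V →L[ℂ] ℂ, Λ' = Λ.comp (ρ (dil t)) := ⟨_, rfl⟩
  have hΛ'a : ∀ y, Λ' y = Λ (ρ (dil t) y) := fun y => by rw [hΛ']; rfl
  have h2 : HasDerivAt (fun s : ℝ => (Λ'.restrictScalars ℝ) (ρ (dil (-t) * rot s * dil (-(-t))) (b m)))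
      ((Λ'.restrictScalars ℝ) (dAct a b !![0, Real.exp (2 * -t); -Real.exp (-(2 * -t)), 0] m)) 0 :=
    (Λ'.restrictScalars ℝ).hasFDerivAt.comp_hasDerivAt 0 h1
  have h3 : (fun s : ℝ => (Λ'.restrictScalars ℝ) (ρ (dil (-t) * rot s * dil (-(-t))) (b m))) =
      fun s : ℝ => Complex.exp (Complex.I * (l * s)) * Λ (ρ (dil t) (b m)) := by
    funext s
    show Λ' (ρ (dil (-t) * rot s * dil (-(-t))) (b m)) = _
    rw [hΛ'a, ← hΛ s, ← rho_mul, ← rho_mul]
    congr 3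
    rw [neg_neg]
    calc dil t * (dil (-t) * rot s * dil t) = (dil t * dil (-t)) * (rot s * dil t) := by
          simp only [mul_assoc]
      _ = rot s * dil t := by rw [dil_mul_neg, one_mul]
  have h4 : HasDerivAt (fun s : ℝ => Complex.exp (Complex.I * (l * s)) * Λ (ρ (dil t) (b m)))
      ((Complex.I * l) * Λ (ρ (dil t) (b m))) 0 := by
    have h5 : HasDerivAt (fun s : ℝ => Complex.I * ((l : ℂ) * (s : ℂ))) (Complex.I * ((l : ℂ) * 1)) 0 :=
      ((Complex.ofRealCLM.hasDerivAt (x := (0 : ℝ))).const_mul (l : ℂ)).const_mul Complex.I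
    have h6 := h5.cexp
    have h7 := h6.mul_const (Λ (ρ (dil t) (b m)))
    refine h7.congr_deriv ?_
    simp
  rw [h3] at h2
  have h6 := h2.unique h4
  have h7 : dAct a b !![0, Real.exp (2 * -t); -Real.exp (-(2 * -t)), 0] m =
      ((-Real.sinh (2 * t) : ℝ) : ℂ) • ((-Complex.I) •
        (a m • b (m + 2) + conj (a (m - 2)) • b (m - 2))) +
      ((Real.cosh (2 * t) : ℝ) : ℂ) • ((Complex.I * m) • b m) := by
    unfold dAct
    have e1 : (!![0, Real.exp (2 * -t); -Real.exp (-(2 * -t)), 0] : Matrix (Fin 2) (Fin 2) ℝ) 0 0 = 0 := rfl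
    have e2 : (!![0, Real.exp (2 * -t); -Real.exp (-(2 * -t)), 0] : Matrix (Fin 2) (Fin 2) ℝ) 0 1 =
      Real.exp (2 * -t) := rfl
    have e3 : (!![0, Real.exp (2 * -t); -Real.exp (-(2 * -t)), 0] : Matrix (Fin 2) (Fin 2) ℝ) 1 0 =
      -Real.exp (-(2 * -t)) := rfl
    rw [e1, e2, e3, Real.sinh_eq, Real.cosh_eq]
    have e4 : 2 * -t = -(2 * t) := by ring
    rw [e4, neg_neg]
    rw [show (Real.exp (-(2 * t)) + -Real.exp (2 * t)) / 2 =
        -((Real.exp (2 * t) - Real.exp (-(2 * t))) / 2) by ring,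
      show Real.exp (-(2 * t)) - -Real.exp (2 * t) = Real.exp (2 * t) + Real.exp (-(2 * t)) by ring]
    simp
  have h8 : Λ (ρ (dil t) (dAct a b !![0, Real.exp (2 * -t); -Real.exp (-(2 * -t)), 0] m)) =
      (Complex.I * l) * Λ (ρ (dil t) (b m)) := by
    rw [← hΛ'a]
    exact h6
  rw [h7] at h8
  simp only [map_add, map_smul, smul_eq_mul] at h8
  have hI : Complex.I * Complex.I = -1 := Complex.I_mul_I
  push_cast at h8 ⊢
  linear_combination Complex.I * h8 + ((l : ℂ) * Λ (ρ (dil t) (b m)) -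
    Complex.sinh (2 * t) * (a m * Λ (ρ (dil t) (b (m + 2))) +
      conj (a (m - 2)) * Λ (ρ (dil t) (b (m - 2)))) -
    Complex.cosh (2 * t) * m * Λ (ρ (dil t) (b m))) * hI

end

/-- the unitary representation by bounded operators -/
noncomputable def rhoD (D : Rep) : G →* (D.H →L[ℂ] D.H) where
  toFun g := ((D.π g).toContinuousLinearEquiv : D.H →L[ℂ] D.H)
  map_one' := by
    ext x
    exact pi_one D x
  map_mul' g h := by
    ext x
    exact pi_mul D g h x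

theorem rhoD_apply (D : Rep) (g : G) (x : D.H) : rhoD D g x = D.π g x := rfl

end ModMCO

open ModMCO ModALG in
theorem mco (hKAK : StmKAK) (hUNIQ : StmUNIQ) : StmMCO := by
  intro D W P hP1 hP2 hP3 l m g
  by_cases hl : l ∈ D.S
  · have hbl : W.b l ≠ 0 := fun h => ((W.b_zero l).1 h) hl
    obtain ⟨φ, hφ⟩ : ∃ φ : W.B →L[ℂ] ℂ, φ (W.b l) = 1 := SeparatingDual.exists_eq_one hbl
    obtain ⟨Λ, hΛdef⟩ : ∃ Λ : W.B →L[ℂ] ℂ, Λ = φ.comp (P l) := ⟨_, rfl⟩
    have hΛa : ∀ y, Λ y = φ (P l y) := fun y => by rw [hΛdef]; rfl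
    have hPl : ∀ y, P l y = Λ y • W.b l := by
      intro y
      obtain ⟨c, hc⟩ := hP3 l y
      rw [hΛa, hc, map_smul, hφ, smul_eq_mul, mul_one]
    have hΛ : ∀ (θ : ℝ) (y : W.B), Λ (W.ρ (rot θ) y) = Complex.exp (Complex.I * (l * θ)) * Λ y := by
      intro θ y
      rw [hΛa, hP2, map_smul, smul_eq_mul, ← hΛa]
    obtain ⟨Ψ, hΨdef⟩ : ∃ Ψ : D.H →L[ℂ] ℂ, Ψ = innerSL ℂ (D.e l) := ⟨_, rfl⟩
    have hΨa : ∀ y, Ψ y = ⟪D.e l, y⟫_ℂ := fun y => by rw [hΨdef]; rfl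
    have hΨ : ∀ (θ : ℝ) (y : D.H), Ψ (rhoD D (rot θ) y) = Complex.exp (Complex.I * (l * θ)) * Ψ y := by
      intro θ y
      rw [hΨa, hΨa, rhoD_apply]
      have h1 : D.π (rot θ) (D.e l) = Complex.exp (Complex.I * (l * θ)) • D.e l := D.rot_e θ l
      have h2 : D.e l = Complex.exp (-(Complex.I * (l * θ))) • D.π (rot θ) (D.e l) := by
        rw [h1, smul_smul, ← Complex.exp_add, neg_add_cancel, Complex.exp_zero, one_smul]
      have h3 : conj (Complex.exp (-(Complex.I * (l * θ)))) = Complex.exp (Complex.I * (l * θ)) := by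
        rw [← Complex.exp_conj]
        congr 1
        rw [map_neg, map_mul, map_mul, Complex.conj_I, Complex.conj_ofReal, map_intCast]
        ring
      calc ⟪D.e l, D.π (rot θ) y⟫_ℂ =
            ⟪Complex.exp (-(Complex.I * (l * θ))) • D.π (rot θ) (D.e l), D.π (rot θ) y⟫_ℂ := by
            rw [← h2]
        _ = Complex.exp (Complex.I * (l * θ)) * ⟪D.e l, y⟫_ℂ := by
            rw [inner_smul_left, h3, pi_inner]
    have hdiffD : ∀ (γ : ℝ → G) (X : Matrix (Fin 2) (Fin 2) ℝ), IsOneParam γ X → ∀ m : ℤ,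
        HasDerivAt (fun t => rhoD D (γ t) (D.e m)) (dAct D.a D.e X m) 0 := D.diff
    have hf : ∀ (m : ℤ) (t : ℝ), 0 ≤ t →
        Λ (W.ρ (dil t) (W.b m)) - Ψ (rhoD D (dil t) (D.e m)) = 0 := by
      refine hUNIQ D l (fun m t => Λ (W.ρ (dil t) (W.b m)) - Ψ (rhoD D (dil t) (D.e m))) ?_ ?_ ?_
      · intro m t
        refine ((derivA W.ρ D.a W.b W.diff Λ m t).sub
          (derivA (rhoD D) D.a D.e hdiffD Ψ m t)).congr_deriv ?_
        ring
      · intro m t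
        have k1 := derivB W.ρ D.a W.b W.diff Λ l hΛ m t
        have k2 := derivB (rhoD D) D.a D.e hdiffD Ψ l hΨ m t
        linear_combination k1 - k2
      · intro m
        show Λ (W.ρ (dil 0) (W.b m)) - Ψ (rhoD D (dil 0) (D.e m)) = 0
        rw [dil_zero, rho_one, rho_one, hΛa, hP1, hΨa]
        by_cases hm : m ∈ D.S
        · rw [D.orth l hl m hm]
          by_cases hlm : l = m
          · rw [if_pos hlm, if_pos hlm, hφ, sub_self]
          · rw [if_neg hlm, if_neg hlm, map_zero, sub_self]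
        · have hlm : l ≠ m := fun h => hm (h ▸ hl)
          rw [if_neg hlm, D.e_out m hm, inner_zero_right, map_zero, sub_self]
    obtain ⟨θ, t, ψ, ht, rfl⟩ := hKAK g
    rw [hPl]
    congr 1
    have h1 : Λ (W.ρ (rot θ * dil t * rot ψ) (W.b m)) =
        Complex.exp (Complex.I * (l * θ)) * (Complex.exp (Complex.I * (m * ψ)) *
          Λ (W.ρ (dil t) (W.b m))) := by
      rw [mul_assoc, rho_mul, hΛ, rho_mul, W.rot_b, map_smul, map_smul, smul_eq_mul]
    have h2 : Ψ (rhoD D (rot θ * dil t * rot ψ) (D.e m)) =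
        Complex.exp (Complex.I * (l * θ)) * (Complex.exp (Complex.I * (m * ψ)) *
          Ψ (rhoD D (dil t) (D.e m))) := by
      have h3 : rhoD D (rot ψ) (D.e m) = Complex.exp (Complex.I * (m * ψ)) • D.e m := D.rot_e ψ m
      rw [mul_assoc, rho_mul, hΨ, rho_mul, h3, map_smul, map_smul, smul_eq_mul]
    have h3 : ⟪D.e l, D.π (rot θ * dil t * rot ψ) (D.e m)⟫_ℂ =
        Ψ (rhoD D (rot θ * dil t * rot ψ) (D.e m)) := (hΨa _).symm
    rw [h3, h1, h2, sub_eq_zero.1 (hf m t ht)]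
  · have hb : W.b l = 0 := (W.b_zero l).2 hl
    obtain ⟨c, hc⟩ := hP3 l (W.ρ g (W.b m))
    rw [hc, hb, smul_zero, smul_zero]

end Pool.Agent.T6.H28.SN
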