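import Pool.Agent.T6.H28.SN.Stm2
import Pool.Agent.T6.H28.SN.Alg
import Pool.Agent.T6.H28.SN.Avgl

/-!
# PRJ: the projections to the weight spaces of a globalisation

The projections are the limits of the discrete averages, which converge on the span of the vectors
`b m` and are uniformly bounded.
-/

set_option autoImplicit false

open scoped InnerProductSpace ComplexConjugate Topology
open Filter

namespace Pool.Agent.T6.H28.SN

namespace ModPRJ

/-- The weights of the averages. -/
noncomputable def ex (l : ℤ) (N k : ℕ) : ℂ :=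
  Complex.exp (-(Complex.I * (l * (2 * Real.pi * k / N))))

theorem norm_ex (l : ℤ) (N k : ℕ) : ‖ex l N k‖ = 1 := by
  unfold ex
  rw [show (-(Complex.I * (l * (2 * Real.pi * k / N))) : ℂ) =
    ((-((l : ℝ) * (2 * Real.pi * k / N)) : ℝ) : ℂ) * Complex.I by push_cast; ring]
  exact Complex.norm_exp_ofReal_mul_I _

theorem sum_ex (N : ℕ) (d : ℤ) (h : |d| < N) :
    ∑ k ∈ Finset.range N, ex d N k = if d = 0 then (N : ℂ) else 0 := by
  have hN : 0 < N := by
    have := abs_nonneg d
    omega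
  split_ifs with hd
  · subst hd
    unfold ex
    simp
  · apply ModAVGL.gs N hN d
    intro hdv
    have h1 := Int.le_of_dvd (abs_pos.2 hd) ((dvd_abs _ _).2 hdv)
    omega

theorem ex_mul (l j : ℤ) (N k : ℕ) :
    ex l N k * Complex.exp (Complex.I * (j * ((2 * Real.pi * k / N : ℝ) : ℂ))) = ex (l - j) N k := by
  unfold ex
  rw [← Complex.exp_add]
  congr 1
  push_cast
  ring

section

variable {D : Rep} (W : Glob D)

/-- The averages. -/
noncomputable def Av (l : ℤ) (N : ℕ) : W.B →L[ℂ] W.B :=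
  (N : ℂ)⁻¹ • ∑ k ∈ Finset.range N, ex l N k • W.ρ (rot (2 * Real.pi * k / N))

theorem Av_apply (l : ℤ) (N : ℕ) (y : W.B) : Av W l N y = (N : ℂ)⁻¹ •
    ∑ k ∈ Finset.range N, ex l N k • W.ρ (rot (2 * Real.pi * k / N)) y := by
  unfold Av
  simp [ContinuousLinearMap.sum_apply]

theorem Av_b (l j : ℤ) (N : ℕ) (h : |l - j| < N) :
    Av W l N (W.b j) = if l = j then W.b l else 0 := by
  rw [Av_apply]
  have h1 : ∀ k ∈ Finset.range N, ex l N k • W.ρ (rot (2 * Real.pi * k / N)) (W.b j) =
      ex (l - j) N k • W.b j := by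
    intro k _
    rw [W.rot_b, smul_smul, ex_mul]
  rw [Finset.sum_congr rfl h1, ← Finset.sum_smul, sum_ex N (l - j) h, smul_smul]
  have hN : (N : ℂ) ≠ 0 := by
    have := abs_nonneg (l - j)
    have h2 : 0 < N := by omega
    exact_mod_cast h2.ne'
  by_cases hlj : l = j
  · subst hlj
    rw [if_pos (sub_self l), if_pos rfl, inv_mul_cancel₀ hN, one_smul]
  · rw [if_neg (sub_ne_zero.2 hlj), if_neg hlj, mul_zero, zero_smul]

theorem norm_Av {C : ℝ} (hC : ∀ g, ‖W.ρ g‖ ≤ C) (l : ℤ) (N : ℕ) (y : W.B) :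
    ‖Av W l N y‖ ≤ C * ‖y‖ := by
  have hC0 : 0 ≤ C := (norm_nonneg _).trans (hC 1)
  rw [Av_apply, norm_smul, norm_inv, Complex.norm_natCast]
  have h1 : ‖∑ k ∈ Finset.range N, ex l N k • W.ρ (rot (2 * Real.pi * k / N)) y‖ ≤
      N * (C * ‖y‖) := by
    refine (norm_sum_le _ _).trans ?_
    calc _ ≤ ∑ _k ∈ Finset.range N, C * ‖y‖ := by
          apply Finset.sum_le_sum
          intro k _
          rw [norm_smul, norm_ex, one_mul]
          exact (ContinuousLinearMap.le_opNorm _ _).trans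
            (mul_le_mul_of_nonneg_right (hC _) (norm_nonneg _))
      _ = N * (C * ‖y‖) := by simp
  rcases Nat.eq_zero_or_pos N with hN | hN
  · subst hN
    simp only [Nat.cast_zero, inv_zero, zero_mul]
    positivity
  · have hN' : (0 : ℝ) < N := by exact_mod_cast hN
    rw [inv_mul_le_iff₀ hN']
    exact h1

theorem span_tendsto (l : ℤ) (z : W.B) (hz : z ∈ Submodule.span ℂ (Set.range W.b)) :
    ∃ z' : W.B, Tendsto (fun N => Av W l N z) atTop (𝓝 z') := by
  induction hz using Submodule.span_induction with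
  | mem x h =>
    obtain ⟨j, rfl⟩ := h
    refine ⟨if l = j then W.b l else 0, ?_⟩
    apply tendsto_const_nhds.congr'
    obtain ⟨N0, hN0⟩ : ∃ N0 : ℕ, |l - j| < N0 := ⟨(|l - j|).toNat + 1, by
      have := abs_nonneg (l - j)
      omega⟩
    filter_upwards [eventually_ge_atTop N0] with N hN
    rw [Av_b W l j N (lt_of_lt_of_le hN0 (by exact_mod_cast hN))]
  | zero => exact ⟨0, by simp⟩
  | add x y _ _ ihx ihy =>
    obtain ⟨x', hx⟩ := ihx
    obtain ⟨y', hy⟩ := ihy
    refine ⟨x' + y', ?_⟩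
    simp only [map_add]
    exact hx.add hy
  | smul c x _ ih =>
    obtain ⟨x', hx⟩ := ih
    refine ⟨c • x', ?_⟩
    simp only [map_smul]
    exact hx.const_smul c

theorem all_tendsto {C : ℝ} (hC : ∀ g, ‖W.ρ g‖ ≤ C) (l : ℤ) (y : W.B) :
    ∃ z' : W.B, Tendsto (fun N => Av W l N y) atTop (𝓝 z') := by
  have hC0 : 0 ≤ C := (norm_nonneg _).trans (hC 1)
  apply cauchySeq_tendsto_of_complete
  rw [Metric.cauchySeq_iff']
  intro ε hε
  obtain ⟨z, hz, hyz⟩ := Metric.mem_closure_iff.1 (W.dense y) (ε / (3 * (C + 1))) (by positivity)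
  obtain ⟨z', hz'⟩ := span_tendsto W l z hz
  obtain ⟨N0, hN0⟩ := Metric.cauchySeq_iff'.1 hz'.cauchySeq (ε / 3) (by positivity)
  refine ⟨N0, fun n hn => ?_⟩
  have h1 := hN0 n hn
  rw [dist_eq_norm] at h1 hyz ⊢
  have h2 := norm_Av W hC l n (y - z)
  have h3 := norm_Av W hC l N0 (y - z)
  have h4 : C * ‖y - z‖ ≤ ε / 3 := by
    calc C * ‖y - z‖ ≤ (C + 1) * (ε / (3 * (C + 1))) :=
          mul_le_mul (by linarith) hyz.le (norm_nonneg _) (by linarith)
      _ = ε / 3 := by field_simp
  have h4' : C * ‖y - z‖ < ε / 3 := by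
    by_cases hy : ‖y - z‖ = 0
    · rw [hy, mul_zero]; positivity
    · have hy' : 0 < ‖y - z‖ := lt_of_le_of_ne (norm_nonneg _) (Ne.symm hy)
      calc C * ‖y - z‖ < (C + 1) * ‖y - z‖ := by nlinarith
        _ ≤ (C + 1) * (ε / (3 * (C + 1))) := mul_le_mul_of_nonneg_left hyz.le (by linarith)
        _ = ε / 3 := by field_simp
  have h5 : Av W l n y - Av W l N0 y =
      Av W l n (y - z) + (Av W l n z - Av W l N0 z) - Av W l N0 (y - z) := by
    rw [map_sub, map_sub]; abel
  rw [h5]
  calc _ ≤ ‖Av W l n (y - z) + (Av W l n z - Av W l N0 z)‖ + ‖Av W l N0 (y - z)‖ := norm_sub_le _ _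
    _ ≤ ‖Av W l n (y - z)‖ + ‖Av W l n z - Av W l N0 z‖ + ‖Av W l N0 (y - z)‖ := by
        gcongr
        exact norm_add_le _ _
    _ < ε := by linarith

/-- The Fejér sum of the averages. -/
noncomputable def Fe (n N : ℕ) : W.B →L[ℂ] W.B :=
  ((n + 1 : ℕ) : ℂ)⁻¹ • ∑ i ∈ Finset.range (n + 1), ∑ j ∈ Finset.range (n + 1),
    Av W ((i : ℤ) - j) N

/-- The Fejér kernel. -/
noncomputable def ka (n N k : ℕ) : ℂ :=
  ((n + 1 : ℕ) : ℂ)⁻¹ * ∑ i ∈ Finset.range (n + 1), ∑ j ∈ Finset.range (n + 1),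
    ex ((i : ℤ) - j) N k

theorem ka_nonneg (n N k : ℕ) : ka n N k = ((‖ka n N k‖ : ℝ) : ℂ) := by
  have h1 : ∑ i ∈ Finset.range (n + 1), ∑ j ∈ Finset.range (n + 1), ex ((i : ℤ) - j) N k =
      ((‖∑ i ∈ Finset.range (n + 1), ex i N k‖ ^ 2 : ℝ) : ℂ) := by
    push_cast
    rw [← Complex.mul_conj', map_sum, Finset.sum_mul_sum]
    apply Finset.sum_congr rfl
    intro i _
    apply Finset.sum_congr rfl
    intro j _
    unfold ex
    rw [← Complex.exp_conj, ← Complex.exp_add]
    congr 1
    simp only [map_neg, map_mul, map_div₀, Complex.conj_I, Complex.conj_ofReal, map_natCast,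
      map_intCast, map_ofNat]
    push_cast
    ring
  have h2 : ka n N k = (((n + 1 : ℕ) : ℝ)⁻¹ * ‖∑ i ∈ Finset.range (n + 1), ex i N k‖ ^ 2 : ℝ) := by
    unfold ka
    rw [h1]
    push_cast
    ring
  rw [h2, Complex.norm_real, Real.norm_eq_abs, abs_of_nonneg (by positivity)]

theorem sum_ka (n N : ℕ) (h : n < N) : ∑ k ∈ Finset.range N, ‖ka n N k‖ = N := by
  have h1 : ∑ k ∈ Finset.range N, ka n N k = N := by
    unfold ka
    rw [← Finset.mul_sum, Finset.sum_comm]
    have h2 : ∀ i ∈ Finset.range (n + 1), ∑ k ∈ Finset.range N,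
        ∑ j ∈ Finset.range (n + 1), ex ((i : ℤ) - j) N k = N := by
      intro i hi
      rw [Finset.sum_comm]
      have h3 : ∀ j ∈ Finset.range (n + 1), ∑ k ∈ Finset.range N, ex ((i : ℤ) - j) N k =
          if j = i then (N : ℂ) else 0 := by
        intro j hj
        rw [Finset.mem_range] at hi hj
        rw [sum_ex N ((i : ℤ) - j) (by rw [abs_lt]; constructor <;> omega)]
        by_cases hij : j = i
        · rw [if_pos hij, if_pos (by rw [hij]; ring)]
        · rw [if_neg hij, if_neg (by omega)]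
      rw [Finset.sum_congr rfl h3, Finset.sum_ite_eq', if_pos hi]
    rw [Finset.sum_congr rfl h2, Finset.sum_const, Finset.card_range, nsmul_eq_mul, ← mul_assoc,
      inv_mul_cancel₀ (by exact_mod_cast (Nat.succ_ne_zero n)), one_mul]
  have h2 : ((∑ k ∈ Finset.range N, ‖ka n N k‖ : ℝ) : ℂ) = ((N : ℝ) : ℂ) := by
    push_cast
    rw [← h1]
    exact Finset.sum_congr rfl fun k _ => (ka_nonneg n N k).symm
  exact_mod_cast h2

theorem Fe_apply (n N : ℕ) (y : W.B) : Fe W n N y = (N : ℂ)⁻¹ •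
    ∑ k ∈ Finset.range N, ka n N k • W.ρ (rot (2 * Real.pi * k / N)) y := by
  unfold Fe ka
  simp only [ContinuousLinearMap.smul_apply, ContinuousLinearMap.sum_apply, Av_apply]
  simp only [Finset.smul_sum, Finset.mul_sum, Finset.sum_smul, smul_smul]
  rw [Finset.sum_congr rfl (fun i _ => Finset.sum_comm), Finset.sum_comm]
  apply Finset.sum_congr rfl
  intro k _
  apply Finset.sum_congr rfl
  intro i _
  apply Finset.sum_congr rfl
  intro j _
  congr 1
  ring

theorem norm_Fe {C : ℝ} (hC : ∀ g, ‖W.ρ g‖ ≤ C) (n N : ℕ) (hn : n < N) (y : W.B) :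
    ‖Fe W n N y‖ ≤ C * ‖y‖ := by
  have hN' : (0 : ℝ) < N := by exact_mod_cast (by omega : 0 < N)
  rw [Fe_apply, norm_smul, norm_inv, Complex.norm_natCast, inv_mul_le_iff₀ hN']
  refine (norm_sum_le _ _).trans ?_
  calc _ ≤ ∑ k ∈ Finset.range N, ‖ka n N k‖ * (C * ‖y‖) := by
        apply Finset.sum_le_sum
        intro k _
        rw [norm_smul]
        apply mul_le_mul_of_nonneg_left _ (norm_nonneg _)
        exact (ContinuousLinearMap.le_opNorm _ _).trans
          (mul_le_mul_of_nonneg_right (hC _) (norm_nonneg _))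
    _ = N * (C * ‖y‖) := by rw [← Finset.sum_mul, sum_ka n N hn]

end

/-- The number of pairs with a given difference. -/
theorem count (n : ℕ) (m : ℤ) :
    ∃ c : ℕ, (∑ i ∈ Finset.range (n + 1), ∑ j ∈ Finset.range (n + 1),
      (if (i : ℤ) - j = m then (1 : ℂ) else 0)) = c ∧ c ≤ n + 1 ∧ n + 1 ≤ c + m.natAbs := by
  classical
  have h1 : ∀ i ∈ Finset.range (n + 1), ∑ j ∈ Finset.range (n + 1),
      (if (i : ℤ) - j = m then (1 : ℂ) else 0) =
        if (0 ≤ (i : ℤ) - m ∧ (i : ℤ) - m ≤ n) then 1 else 0 := by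
    intro i _
    by_cases h : 0 ≤ (i : ℤ) - m ∧ (i : ℤ) - m ≤ n
    · rw [if_pos h]
      rw [Finset.sum_eq_single (((i : ℤ) - m).toNat)]
      · rw [if_pos (by omega)]
      · intro j _ hj
        rw [if_neg (by omega)]
      · intro hj
        exact absurd (Finset.mem_range.2 (by omega)) hj
    · rw [if_neg h]
      apply Finset.sum_eq_zero
      intro j hj
      rw [Finset.mem_range] at hj
      rw [if_neg (by omega)]
  rw [Finset.sum_congr rfl h1, ← Finset.sum_filter, Finset.sum_const, nsmul_eq_mul, mul_one]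
  refine ⟨_, rfl, (Finset.card_filter_le _ _).trans (by simp), ?_⟩
  have h2 := Finset.card_filter_add_card_filter_not (s := Finset.range (n + 1))
    (p := fun i : ℕ => 0 ≤ (i : ℤ) - m ∧ (i : ℤ) - m ≤ n)
  rw [Finset.card_range] at h2
  have h3 : ((Finset.range (n + 1)).filter
      fun i : ℕ => ¬ (0 ≤ (i : ℤ) - m ∧ (i : ℤ) - m ≤ n)).card ≤ m.natAbs := by
    rcases le_or_gt 0 m with hm | hm
    · refine (Finset.card_le_card (t := Finset.range m.natAbs) ?_).trans (by simp)
      intro i hi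
      rw [Finset.mem_filter, Finset.mem_range] at hi
      rw [Finset.mem_range]
      omega
    · refine (Finset.card_le_card (t := Finset.Ico (n + 1 - m.natAbs) (n + 1)) ?_).trans ?_
      · intro i hi
        rw [Finset.mem_filter, Finset.mem_range] at hi
        rw [Finset.mem_Ico]
        omega
      · rw [Nat.card_Ico]
        omega
  omega

end ModPRJ

open ModPRJ in
/-- Module PRJ. -/
theorem prj : StmPRJ := by
  classical
  intro D W
  obtain ⟨C, hC⟩ := W.bdd
  have hC0 : 0 ≤ C := (norm_nonneg _).trans (hC 1)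
  choose f hf using fun l => all_tendsto W hC l
  have hlim : ∀ l, Tendsto (fun N y => Av W l N y) atTop (𝓝 (f l)) := fun l =>
    tendsto_pi_nhds.2 (hf l)
  obtain ⟨P, hP⟩ : ∃ P : ℤ → (W.B →L[ℂ] W.B), ∀ l y, P l y = f l y :=
    ⟨fun l => continuousLinearMapOfTendsto (Av W l) (hlim l), fun l y => rfl⟩
  have hPt : ∀ l y, Tendsto (fun N => Av W l N y) atTop (𝓝 (P l y)) := by
    intro l y
    rw [hP]
    exact hf l y
  have h1 : ∀ l j, P l (W.b j) = if l = j then W.b l else 0 := by
    intro l j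
    apply tendsto_nhds_unique (hPt l (W.b j))
    apply tendsto_const_nhds.congr'
    obtain ⟨N0, hN0⟩ : ∃ N0 : ℕ, |l - j| < N0 := ⟨(|l - j|).toNat + 1, by
      have := abs_nonneg (l - j)
      omega⟩
    filter_upwards [eventually_ge_atTop N0] with N hN
    rw [Av_b W l j N (lt_of_lt_of_le hN0 (by exact_mod_cast hN))]
  refine ⟨P, h1, ?_, ?_, ?_, ?_⟩
  · intro l θ y
    have h2 : (P l).comp (W.ρ (rot θ)) = Complex.exp (Complex.I * (l * θ)) • P l := by
      apply ContinuousLinearMap.ext_on W.dense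
      rintro _ ⟨j, rfl⟩
      rw [ContinuousLinearMap.comp_apply, ContinuousLinearMap.smul_apply, W.rot_b, map_smul, h1]
      by_cases hlj : l = j
      · subst hlj; rfl
      · rw [if_neg hlj, smul_zero, smul_zero]
    exact DFunLike.congr_fun h2 y
  · intro l y
    have hcl : IsClosed (((ℂ ∙ W.b l).comap (P l : W.B →ₗ[ℂ] W.B) : Submodule ℂ W.B) : Set W.B) :=
      (Submodule.closed_of_finiteDimensional (ℂ ∙ W.b l)).preimage (P l).continuous
    have hsub : Submodule.span ℂ (Set.range W.b) ≤ (ℂ ∙ W.b l).comap (P l : W.B →ₗ[ℂ] W.B) := by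
      apply Submodule.span_le.2
      rintro _ ⟨j, rfl⟩
      show P l (W.b j) ∈ (ℂ ∙ W.b l)
      rw [h1]
      split_ifs
      · exact Submodule.mem_span_singleton_self _
      · exact Submodule.zero_mem _
    have h2 : y ∈ closure ((Submodule.span ℂ (Set.range W.b) : Submodule ℂ W.B) : Set W.B) :=
      W.dense y
    have h3 := (hcl.closure_subset_iff.2 hsub) h2
    obtain ⟨c, hc⟩ := Submodule.mem_span_singleton.1 (show P l y ∈ (ℂ ∙ W.b l) from h3)
    exact ⟨c, hc.symm⟩
  · intro y hy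
    -- the Fejér operators
    obtain ⟨S, hS⟩ : ∃ S : ℕ → (W.B →L[ℂ] W.B), S = fun n => ((n + 1 : ℕ) : ℂ)⁻¹ •
      ∑ i ∈ Finset.range (n + 1), ∑ j ∈ Finset.range (n + 1), P ((i : ℤ) - j) := ⟨_, rfl⟩
    have hSt : ∀ n x, Tendsto (fun N => Fe W n N x) atTop (𝓝 (S n x)) := by
      intro n x
      rw [hS]
      unfold Fe
      simp only [ContinuousLinearMap.smul_apply, ContinuousLinearMap.sum_apply]
      apply Tendsto.const_smul
      exact tendsto_finset_sum _ fun i _ => tendsto_finset_sum _ fun j _ => hPt _ x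
    have hSn : ∀ n x, ‖S n x‖ ≤ C * ‖x‖ := by
      intro n x
      apply le_of_tendsto (hSt n x).norm
      filter_upwards [eventually_gt_atTop n] with N hN
      exact norm_Fe W hC n N hN x
    have hSb : ∀ m, Tendsto (fun n => S n (W.b m)) atTop (𝓝 (W.b m)) := by
      intro m
      have h2 : ∀ n, ‖S n (W.b m) - W.b m‖ ≤ (m.natAbs : ℝ) * ‖W.b m‖ * (1 / ((n : ℝ) + 1)) := by
        intro n
        obtain ⟨c, hc1, hc2, hc3⟩ := count n m
        have h3 : S n (W.b m) = (((n + 1 : ℕ) : ℂ)⁻¹ * c) • W.b m := by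
          rw [hS]
          simp only [ContinuousLinearMap.smul_apply, ContinuousLinearMap.sum_apply, h1]
          rw [← hc1, mul_smul, Finset.sum_smul]
          congr 1
          apply Finset.sum_congr rfl
          intro i _
          rw [Finset.sum_smul]
          apply Finset.sum_congr rfl
          intro j _
          split_ifs with hij
          · rw [hij, one_smul]
          · rw [zero_smul]
        have h4 : S n (W.b m) - W.b m = (((n + 1 : ℕ) : ℂ)⁻¹ * c - 1) • W.b m := by
          rw [h3, sub_smul, one_smul]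
        have h5 : ‖((n + 1 : ℕ) : ℂ)⁻¹ * c - 1‖ ≤ m.natAbs * (1 / ((n : ℝ) + 1)) := by
          have e1 : ((n + 1 : ℕ) : ℂ)⁻¹ * c - 1 =
              (((c : ℝ) - ((n : ℝ) + 1)) * (1 / ((n : ℝ) + 1)) : ℝ) := by
            have : ((n : ℂ) + 1) ≠ 0 := by exact_mod_cast Nat.succ_ne_zero n
            push_cast
            field_simp
          rw [e1, Complex.norm_real, Real.norm_eq_abs, abs_mul,
            abs_of_nonneg (by positivity : (0 : ℝ) ≤ 1 / ((n : ℝ) + 1))]
          apply mul_le_mul_of_nonneg_right _ (by positivity)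
          rw [abs_le]
          have f1 : (c : ℝ) ≤ (n : ℝ) + 1 := by exact_mod_cast hc2
          have f2 : (n : ℝ) + 1 ≤ c + m.natAbs := by exact_mod_cast hc3
          have f3 : (0 : ℝ) ≤ m.natAbs := by positivity
          constructor <;> linarith
        rw [h4, norm_smul]
        calc _ ≤ (m.natAbs * (1 / ((n : ℝ) + 1))) * ‖W.b m‖ :=
              mul_le_mul_of_nonneg_right h5 (norm_nonneg _)
          _ = _ := by ring
      rw [tendsto_iff_norm_sub_tendsto_zero]
      refine squeeze_zero (fun n => norm_nonneg _) h2 ?_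
      have h3 := (tendsto_one_div_add_atTop_nhds_zero_nat (𝕜 := ℝ)).const_mul
        ((m.natAbs : ℝ) * ‖W.b m‖)
      rwa [mul_zero] at h3
    have hSz : ∀ z ∈ Submodule.span ℂ (Set.range W.b), Tendsto (fun n => S n z) atTop (𝓝 z) := by
      intro z hz
      induction hz using Submodule.span_induction with
      | mem x h =>
        obtain ⟨j, rfl⟩ := h
        exact hSb j
      | zero => simp
      | add x y _ _ ihx ihy =>
        simp only [map_add]
        exact ihx.add ihy
      | smul c x _ ih =>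
        simp only [map_smul]
        exact ih.const_smul c
    have hSy : ∀ n, S n y = 0 := by
      intro n
      rw [hS]
      simp only [ContinuousLinearMap.smul_apply, ContinuousLinearMap.sum_apply, hy,
        Finset.sum_const_zero, smul_zero]
    have hle : ∀ ε : ℝ, 0 < ε → ‖y‖ ≤ (C + 1) * ε := by
      intro ε hε
      obtain ⟨z, hz, hyz⟩ := Metric.mem_closure_iff.1 (W.dense y) ε hε
      rw [dist_eq_norm] at hyz
      have h2 : ‖z‖ ≤ C * ε := by
        apply le_of_tendsto (hSz z hz).norm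
        filter_upwards with n
        have h3 : S n z = - S n (y - z) := by rw [map_sub, hSy, zero_sub, neg_neg]
        rw [h3, norm_neg]
        exact (hSn n _).trans (mul_le_mul_of_nonneg_left hyz.le hC0)
      have h3 : y = (y - z) + z := by abel
      calc ‖y‖ = ‖(y - z) + z‖ := by rw [← h3]
        _ ≤ ‖y - z‖ + ‖z‖ := norm_add_le _ _
        _ ≤ (C + 1) * ε := by linarith
    have h0 : ‖y‖ ≤ 0 := by
      apply le_of_forall_pos_le_add
      intro ε hε
      have := hle (ε / (C + 1)) (by positivity)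
      rw [zero_add]
      calc ‖y‖ ≤ (C + 1) * (ε / (C + 1)) := this
        _ = ε := by field_simp
    exact norm_le_zero_iff.1 h0
  · intro l y
    have h2 := hPt l y
    simp only [Av_apply] at h2
    exact h2

end Pool.Agent.T6.H28.SN
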