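import Pool.Agent.T6.H28.SN.Stm2
import Pool.Agent.T6.H28.SN.Alg
import Pool.Agent.T6.H28.SN.Uavg

/-!
# SOB: rapid decrease of the coefficients
-/

set_option autoImplicit false

open scoped InnerProductSpace ComplexConjugate Topology
open Filter

namespace Pool.Agent.T6.H28.SN

namespace ModSOB

/-- The iterated action. -/
noncomputable def En {H : Type} [AddCommGroup H] [Module ℂ H] (a : ℤ → ℂ) (e : ℤ → H)
    (X : Matrix (Fin 2) (Fin 2) ℝ) : ℕ → ℤ → H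
  | 0 => e
  | n + 1 => fun m => dAct a (En a e X n) X m

theorem dAct_map {H H' : Type} [AddCommGroup H] [Module ℂ H] [AddCommGroup H'] [Module ℂ H']
    (a : ℤ → ℂ) (e : ℤ → H) (X : Matrix (Fin 2) (Fin 2) ℝ) (m : ℤ) (f : H →ₗ[ℂ] H') :
    f (dAct a e X m) = dAct a (fun j => f (e j)) X m := by
  unfold dAct
  simp only [map_add, map_sub, map_smul]

theorem dAct_smul {H : Type} [AddCommGroup H] [Module ℂ H]
    (a : ℤ → ℂ) (e : ℤ → H) (X : Matrix (Fin 2) (Fin 2) ℝ) (m : ℤ) (c : ℂ) :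
    dAct a (fun j => c • e j) X m = c • dAct a e X m :=
  (dAct_map a e X m (LinearMap.lsmul ℂ H c)).symm

/-- The functional `x ↦ ⟪e_l, π(g) x⟫`. -/
noncomputable def fun1 (D : Rep) (l : ℤ) (g : G) : D.H →ₗ[ℂ] ℂ where
  toFun x := ⟪D.e l, D.π g x⟫_ℂ
  map_add' x y := by rw [map_add, inner_add_right]
  map_smul' c x := by rw [map_smul, inner_smul_right]; rfl

theorem one (D : Rep) (l m : ℤ) (g : G) :
    (Complex.I * l) * fun1 D l g (D.e m) =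
      fun1 D l g (dAct D.a D.e ((g⁻¹).1 * !![0, 1; -1, 0] * g.1) m) := by
  have h1 := D.diff _ _ (ModUAVG.conj_oneParam g) m
  -- apply `π g`
  let L : D.H →L[ℝ] D.H :=
    ((D.π g).toContinuousLinearEquiv : D.H →L[ℂ] D.H).restrictScalars ℝ
  have h2 : HasDerivAt (fun t : ℝ => D.π g (D.π (g⁻¹ * rot t * g) (D.e m)))
      (D.π g (dAct D.a D.e ((g⁻¹).1 * !![0, 1; -1, 0] * g.1) m)) 0 :=
    L.hasFDerivAt.comp_hasDerivAt (0 : ℝ) h1
  have h3 := (hasDerivAt_const (0 : ℝ) (D.e l)).inner ℂ h2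
  rw [inner_zero_left, add_zero] at h3
  have h4 : (fun t : ℝ => ⟪D.e l, D.π g (D.π (g⁻¹ * rot t * g) (D.e m))⟫_ℂ) =
      fun t : ℝ => Complex.exp (Complex.I * (l * t)) * ⟪D.e l, D.π g (D.e m)⟫_ℂ := by
    funext t
    have e1 : D.π g (D.π (g⁻¹ * rot t * g) (D.e m)) = D.π (rot t) (D.π g (D.e m)) := by
      rw [← ModALG.pi_mul, ← ModALG.pi_mul]
      congr 2
      group
    rw [e1, ← ModALG.pi_inner D (rot (-t)), ← ModALG.pi_mul, ModALG.rot_neg_mul, ModALG.pi_one,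
      D.rot_e, inner_smul_left, ← Complex.exp_conj]
    congr 2
    simp only [map_mul, Complex.conj_I, Complex.conj_ofReal, map_intCast]
    push_cast
    ring
  rw [h4] at h3
  have h5 : HasDerivAt (fun t : ℝ => Complex.exp (Complex.I * (l * t)) *
      ⟪D.e l, D.π g (D.e m)⟫_ℂ) ((Complex.I * l) * ⟪D.e l, D.π g (D.e m)⟫_ℂ) 0 := by
    have h6 : HasDerivAt (fun θ : ℝ => Complex.I * ((l : ℂ) * (θ : ℂ))) (Complex.I * ((l : ℂ) * 1)) 0 :=
      ((Complex.ofRealCLM.hasDerivAt (x := (0 : ℝ))).const_mul (l : ℂ)).const_mul Complex.I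
    have h7 := h6.cexp.mul_const (⟪D.e l, D.π g (D.e m)⟫_ℂ)
    refine h7.congr_deriv ?_
    simp
  exact h5.unique h3

theorem many (D : Rep) (l : ℤ) (g : G) : ∀ (n : ℕ) (m : ℤ),
    (Complex.I * l) ^ n * fun1 D l g (D.e m) =
      fun1 D l g (En D.a D.e ((g⁻¹).1 * !![0, 1; -1, 0] * g.1) n m) := by
  intro n
  induction n with
  | zero => intro m; simp [En]
  | succ n ih =>
    intro m
    rw [pow_succ, mul_assoc, one D l m g, dAct_map]
    have h1 : (Complex.I * l) ^ n * dAct D.a (fun j => fun1 D l g (D.e j))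
        ((g⁻¹).1 * !![0, 1; -1, 0] * g.1) m = dAct D.a (fun j => (Complex.I * l) ^ n •
          fun1 D l g (D.e j)) ((g⁻¹).1 * !![0, 1; -1, 0] * g.1) m := by
      rw [dAct_smul]
      rfl
    rw [h1]
    have h2 : (fun j => (Complex.I * l) ^ n • fun1 D l g (D.e j)) =
        fun j => fun1 D l g (En D.a D.e ((g⁻¹).1 * !![0, 1; -1, 0] * g.1) n j) := by
      funext j
      rw [smul_eq_mul, ih j]
    rw [h2, ← dAct_map]
    rfl

/-- The bound. -/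
noncomputable def Cb (a : ℤ → ℂ) (K : ℝ) : ℕ → ℤ → ℝ
  | 0 => fun _ => 1
  | n + 1 => fun m => K * (‖a m‖ * Cb a K n (m + 2) + ‖a (m - 2)‖ * Cb a K n (m - 2)) +
      K * (‖a m‖ * Cb a K n (m + 2) + ‖a (m - 2)‖ * Cb a K n (m - 2)) +
      K * (|(m : ℝ)| * Cb a K n m)

theorem norm_e_le (D : Rep) (m : ℤ) : ‖D.e m‖ ≤ 1 := by
  by_cases h : m ∈ D.S
  · exact (ModALG.e_norm D m h).le
  · rw [D.e_out m h, norm_zero]
    norm_num

theorem norm_En (D : Rep) (K : ℝ) (hK : 0 ≤ K) (X : Matrix (Fin 2) (Fin 2) ℝ)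
    (hX : ∀ i j, |X i j| ≤ K) : ∀ (n : ℕ) (m : ℤ), ‖En D.a D.e X n m‖ ≤ Cb D.a K n m := by
  intro n
  induction n with
  | zero => exact norm_e_le D
  | succ n ih =>
    intro m
    have n1 : ‖(((X 0 0 : ℝ) : ℂ))‖ ≤ K := by
      rw [Complex.norm_real]; exact hX 0 0
    have n2 : ‖((((X 0 1 + X 1 0) / 2 : ℝ) : ℂ))‖ ≤ K := by
      rw [Complex.norm_real, Real.norm_eq_abs, abs_le]
      have h1 := abs_le.1 (hX 0 1)
      have h2 := abs_le.1 (hX 1 0)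
      constructor <;> linarith [h1.1, h1.2, h2.1, h2.2]
    have n3 : ‖((((X 0 1 - X 1 0) / 2 : ℝ) : ℂ))‖ ≤ K := by
      rw [Complex.norm_real, Real.norm_eq_abs, abs_le]
      have h1 := abs_le.1 (hX 0 1)
      have h2 := abs_le.1 (hX 1 0)
      constructor <;> linarith [h1.1, h1.2, h2.1, h2.2]
    have m1 : ‖D.a m • En D.a D.e X n (m + 2)‖ ≤ ‖D.a m‖ * Cb D.a K n (m + 2) := by
      rw [norm_smul]
      exact mul_le_mul_of_nonneg_left (ih _) (norm_nonneg _)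
    have m2 : ‖conj (D.a (m - 2)) • En D.a D.e X n (m - 2)‖ ≤
        ‖D.a (m - 2)‖ * Cb D.a K n (m - 2) := by
      rw [norm_smul, RCLike.norm_conj]
      exact mul_le_mul_of_nonneg_left (ih _) (norm_nonneg _)
    have m3 : ‖(Complex.I * (m : ℂ)) • En D.a D.e X n m‖ ≤ |(m : ℝ)| * Cb D.a K n m := by
      rw [norm_smul, norm_mul, Complex.norm_I, one_mul, Complex.norm_intCast]
      exact mul_le_mul_of_nonneg_left (ih _) (abs_nonneg _)
    show ‖dAct D.a (En D.a D.e X n) X m‖ ≤ _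
    unfold dAct
    refine (norm_add_le _ _).trans (add_le_add ((norm_add_le _ _).trans (add_le_add ?_ ?_)) ?_)
    · rw [norm_smul]
      exact mul_le_mul n1 ((norm_sub_le _ _).trans (add_le_add m1 m2)) (norm_nonneg _) hK
    · rw [norm_smul, norm_smul, norm_neg, Complex.norm_I, one_mul]
      exact mul_le_mul n2 ((norm_add_le _ _).trans (add_le_add m1 m2)) (norm_nonneg _) hK
    · rw [norm_smul]
      exact mul_le_mul n3 m3 (norm_nonneg _) hK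

theorem conj_bound (g : G) (R : ℝ) (hg : ∀ i j, |g.1 i j| ≤ R) (i j : Fin 2) :
    |((g⁻¹).1 * !![0, 1; -1, 0] * g.1 : Matrix (Fin 2) (Fin 2) ℝ) i j| ≤ 2 * R ^ 2 := by
  have hR : 0 ≤ R := (abs_nonneg _).trans (hg 0 0)
  have key : ∀ x y z w : ℝ, |x| ≤ R → |y| ≤ R → |z| ≤ R → |w| ≤ R →
      |x * y + z * w| ≤ 2 * R ^ 2 := by
    intro x y z w hx hy hz hw
    have h1 : |x * y| ≤ R * R := by
      rw [abs_mul]; exact mul_le_mul hx hy (abs_nonneg _) hR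
    have h2 : |z * w| ≤ R * R := by
      rw [abs_mul]; exact mul_le_mul hz hw (abs_nonneg _) hR
    calc |x * y + z * w| ≤ |x * y| + |z * w| := abs_add_le _ _
      _ ≤ 2 * R ^ 2 := by nlinarith
  have hinv : (g⁻¹).1 = !![g.1 1 1, -g.1 0 1; -g.1 1 0, g.1 0 0] := by
    rw [Matrix.SpecialLinearGroup.SL2_inv_expl]
    rfl
  rw [hinv]
  have hneg : ∀ i j, |-g.1 i j| ≤ R := fun i j => by rw [abs_neg]; exact hg i j
  fin_cases i <;> fin_cases j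
  · have e : (!![g.1 1 1, -g.1 0 1; -g.1 1 0, g.1 0 0] * !![0, 1; -1, 0] * g.1 :
        Matrix (Fin 2) (Fin 2) ℝ) 0 0 = (g.1 0 1) * g.1 0 0 + (g.1 1 1) * g.1 1 0 := by
      simp [Matrix.mul_apply, Fin.sum_univ_two]
    exact e ▸ key _ _ _ _ (hg _ _) (hg _ _) (hg _ _) (hg _ _)
  · have e : (!![g.1 1 1, -g.1 0 1; -g.1 1 0, g.1 0 0] * !![0, 1; -1, 0] * g.1 :
        Matrix (Fin 2) (Fin 2) ℝ) 0 1 = (g.1 0 1) * g.1 0 1 + (g.1 1 1) * g.1 1 1 := by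
      simp [Matrix.mul_apply, Fin.sum_univ_two]
    exact e ▸ key _ _ _ _ (hg _ _) (hg _ _) (hg _ _) (hg _ _)
  · have e : (!![g.1 1 1, -g.1 0 1; -g.1 1 0, g.1 0 0] * !![0, 1; -1, 0] * g.1 :
        Matrix (Fin 2) (Fin 2) ℝ) 1 0 = (-g.1 0 0) * g.1 0 0 + (-g.1 1 0) * g.1 1 0 := by
      simp [Matrix.mul_apply, Fin.sum_univ_two]
    exact e ▸ key _ _ _ _ (hneg _ _) (hg _ _) (hneg _ _) (hg _ _)
  · have e : (!![g.1 1 1, -g.1 0 1; -g.1 1 0, g.1 0 0] * !![0, 1; -1, 0] * g.1 :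
        Matrix (Fin 2) (Fin 2) ℝ) 1 1 = (-g.1 0 0) * g.1 0 1 + (-g.1 1 0) * g.1 1 1 := by
      simp [Matrix.mul_apply, Fin.sum_univ_two]
    exact e ▸ key _ _ _ _ (hneg _ _) (hg _ _) (hneg _ _) (hg _ _)

end ModSOB

open ModSOB in
/-- Module SOB. -/
theorem sob : StmSOB := by
  intro D m N R
  refine ⟨2 ^ (N - 1) * (Cb D.a (2 * R ^ 2) 0 m + Cb D.a (2 * R ^ 2) N m), ?_⟩
  intro g hg l
  have hK : (0 : ℝ) ≤ 2 * R ^ 2 := by positivity
  have hn : ∀ n : ℕ, |(l : ℝ)| ^ n * ‖⟪D.e l, D.π g (D.e m)⟫_ℂ‖ ≤ Cb D.a (2 * R ^ 2) n m := by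
    intro n
    have h1 := congrArg norm (many D l g n m)
    rw [norm_mul, norm_pow, norm_mul, Complex.norm_I, one_mul, Complex.norm_intCast] at h1
    have h2 : ‖fun1 D l g (En D.a D.e ((g⁻¹).1 * !![0, 1; -1, 0] * g.1) n m)‖ ≤
        Cb D.a (2 * R ^ 2) n m := by
      refine (norm_inner_le_norm _ _).trans ?_
      rw [LinearIsometryEquiv.norm_map]
      have h3 := norm_En D (2 * R ^ 2) hK _ (conj_bound g R hg) n m
      calc ‖D.e l‖ * ‖En D.a D.e ((g⁻¹).1 * !![0, 1; -1, 0] * g.1) n m‖ ≤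
          1 * ‖En D.a D.e ((g⁻¹).1 * !![0, 1; -1, 0] * g.1) n m‖ :=
            mul_le_mul_of_nonneg_right (norm_e_le D l) (norm_nonneg _)
        _ ≤ _ := by rw [one_mul]; exact h3
    rw [← h1] at h2
    exact h2
  have h0 := hn 0
  have hN := hn N
  rw [pow_zero, one_mul] at h0
  have h1 := add_pow_le (zero_le_one) (abs_nonneg (l : ℝ)) N
  rw [one_pow] at h1
  have hc : 0 ≤ ‖⟪D.e l, D.π g (D.e m)⟫_ℂ‖ := norm_nonneg _
  calc (1 + |(l : ℝ)|) ^ N * ‖⟪D.e l, D.π g (D.e m)⟫_ℂ‖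
      ≤ (2 ^ (N - 1) * (1 + |(l : ℝ)| ^ N)) * ‖⟪D.e l, D.π g (D.e m)⟫_ℂ‖ :=
        mul_le_mul_of_nonneg_right h1 hc
    _ = 2 ^ (N - 1) * (‖⟪D.e l, D.π g (D.e m)⟫_ℂ‖ +
        |(l : ℝ)| ^ N * ‖⟪D.e l, D.π g (D.e m)⟫_ℂ‖) := by ring
    _ ≤ _ := mul_le_mul_of_nonneg_left (add_le_add h0 hN) (by positivity)

end Pool.Agent.T6.H28.SN
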