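import Pool.Agent.T6.H28.SN.Stm2

/-!
# UNIQ: uniqueness for the system of the matrix coefficients
-/

set_option autoImplicit false

open scoped InnerProductSpace ComplexConjugate Topology
open Filter

namespace Pool.Agent.T6.H28.SN

namespace ModUNIQ

/-- The real inner products. -/
theorem re_id (A B a : ℂ) (r s : ℝ) :
    2 * (inner ℝ A (2 * a * B - (r : ℂ) * A)) + 2 * (inner ℝ B ((s : ℂ) * B - 2 * conj a * A)) =
      -2 * r * ‖A‖ ^ 2 + 2 * s * ‖B‖ ^ 2 := by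
  rw [Complex.inner, Complex.inner, Complex.sq_norm, Complex.sq_norm, Complex.normSq_apply,
    Complex.normSq_apply]
  simp only [Complex.mul_re, Complex.sub_re, Complex.conj_re, Complex.conj_im, Complex.sub_im,
    Complex.mul_im, Complex.ofReal_re, Complex.ofReal_im, Complex.re_ofNat, Complex.im_ofNat]
  ring

theorem claim1 (a : ℤ → ℂ) (f : ℤ → ℝ → ℂ)
    (h1 : ∀ m t, HasDerivAt (f m) (a m * f (m + 2) t - conj (a (m - 2)) * f (m - 2) t) t)
    (h0 : ∀ m, f m 0 = 0) (T : ℝ) :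
    ∀ (N : ℕ) (m : ℤ), ∃ C : ℝ, 0 ≤ C ∧ ∀ t ∈ Set.Icc 0 T, ‖f m t‖ ≤ C * t ^ N := by
  intro N
  induction N with
  | zero =>
    intro m
    have hc : Continuous (f m) := by
      rw [continuous_iff_continuousAt]
      exact fun t => (h1 m t).continuousAt
    obtain ⟨C, hC⟩ := isCompact_Icc.exists_bound_of_continuousOn (s := Set.Icc 0 T) hc.continuousOn
    refine ⟨max C 0, le_max_right _ _, fun t ht => ?_⟩
    rw [pow_zero, mul_one]
    exact (hC t ht).trans (le_max_left _ _)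
  | succ N ih =>
    intro m
    obtain ⟨C1, hC1, hb1⟩ := ih (m + 2)
    obtain ⟨C2, hC2, hb2⟩ := ih (m - 2)
    refine ⟨‖a m‖ * C1 + ‖a (m - 2)‖ * C2, by positivity, fun t ht => ?_⟩
    have hd : ∀ s ∈ Set.Icc 0 t, ‖a m * f (m + 2) s - conj (a (m - 2)) * f (m - 2) s‖ ≤
        (‖a m‖ * C1 + ‖a (m - 2)‖ * C2) * t ^ N := by
      intro s hs
      have hsT : s ∈ Set.Icc 0 T := ⟨hs.1, hs.2.trans ht.2⟩
      have hst : s ^ N ≤ t ^ N := pow_le_pow_left₀ hs.1 hs.2 N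
      have e1 : ‖f (m + 2) s‖ ≤ C1 * t ^ N :=
        (hb1 s hsT).trans (mul_le_mul_of_nonneg_left hst hC1)
      have e2 : ‖f (m - 2) s‖ ≤ C2 * t ^ N :=
        (hb2 s hsT).trans (mul_le_mul_of_nonneg_left hst hC2)
      refine (norm_sub_le _ _).trans ?_
      rw [norm_mul, norm_mul, RCLike.norm_conj]
      have e3 := mul_le_mul_of_nonneg_left e1 (norm_nonneg (a m))
      have e4 := mul_le_mul_of_nonneg_left e2 (norm_nonneg (a (m - 2)))
      calc _ ≤ ‖a m‖ * (C1 * t ^ N) + ‖a (m - 2)‖ * (C2 * t ^ N) := add_le_add e3 e4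
        _ = _ := by ring
    have h2 := Convex.norm_image_sub_le_of_norm_hasDerivWithin_le (f := f m)
      (f' := fun s => a m * f (m + 2) s - conj (a (m - 2)) * f (m - 2) s) (s := Set.Icc 0 t)
      (C := (‖a m‖ * C1 + ‖a (m - 2)‖ * C2) * t ^ N)
      (fun s _ => (h1 m s).hasDerivWithinAt) hd (convex_Icc 0 t)
      (Set.left_mem_Icc.2 ht.1) (Set.right_mem_Icc.2 ht.1)
    rw [h0, sub_zero, sub_zero, Real.norm_eq_abs, abs_of_nonneg ht.1] at h2
    rw [pow_succ, ← mul_assoc]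
    exact h2

end ModUNIQ

open ModUNIQ in
/-- Module UNIQ. -/
theorem uniq : StmUNIQ := by
  intro D l f h1 h2 h0 m T hT
  rcases hT.eq_or_lt with hT0 | hT0
  · rw [← hT0]; exact h0 m
  -- the coefficients `r`
  obtain ⟨r, hr⟩ : ∃ r : ℤ → ℝ → ℝ, r = fun (j : ℤ) (t : ℝ) =>
    ((l : ℝ) - (j : ℝ) * Real.cosh (2 * t)) / Real.sinh (2 * t) := ⟨_, rfl⟩
  have hsinh : ∀ t : ℝ, 0 < t → 0 < Real.sinh (2 * t) := fun t ht =>
    Real.sinh_pos_iff.2 (by linarith)
  have hr' : ∀ (j : ℤ) (t : ℝ), 0 < t →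
      D.a j * f (j + 2) t + conj (D.a (j - 2)) * f (j - 2) t = (r j t : ℂ) * f j t := by
    intro j t ht
    have e1 := h2 j t
    have e2 : ((Real.sinh (2 * t) : ℝ) : ℂ) ≠ 0 := by exact_mod_cast (hsinh t ht).ne'
    rw [hr]
    simp only
    push_cast at e1 e2 ⊢
    field_simp
    linear_combination (-1 : ℂ) * e1
  have dA : ∀ t : ℝ, 0 < t → HasDerivAt (f m)
      (2 * D.a m * f (m + 2) t - (r m t : ℂ) * f m t) t := by
    intro t ht
    refine (h1 m t).congr_deriv ?_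
    rw [← hr' m t ht]
    ring
  have dB : ∀ t : ℝ, 0 < t → HasDerivAt (f (m + 2))
      ((r (m + 2) t : ℂ) * f (m + 2) t - 2 * conj (D.a m) * f m t) t := by
    intro t ht
    refine (h1 (m + 2) t).congr_deriv ?_
    rw [← hr' (m + 2) t ht, show m + 2 - 2 = m by ring]
    ring
  obtain ⟨u, hu⟩ : ∃ u : ℝ → ℝ, u = fun t => ‖f m t‖ ^ 2 + ‖f (m + 2) t‖ ^ 2 := ⟨_, rfl⟩
  have du : ∀ t : ℝ, 0 < t → HasDerivAt u
      (-2 * r m t * ‖f m t‖ ^ 2 + 2 * r (m + 2) t * ‖f (m + 2) t‖ ^ 2) t := by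
    intro t ht
    rw [hu, ← re_id]
    exact (dA t ht).norm_sq.add (dB t ht).norm_sq
  have hu0 : ∀ t, 0 ≤ u t := fun t => by rw [hu]; positivity
  -- the exponent
  obtain ⟨M, hM⟩ := exists_nat_ge (max (|(l : ℝ)| + |(m : ℝ)| * Real.cosh (2 * T))
    (|(l : ℝ)| + |((m + 2 : ℤ) : ℝ)| * Real.cosh (2 * T)))
  have hrb : ∀ j : ℤ, |(l : ℝ)| + |(j : ℝ)| * Real.cosh (2 * T) ≤ M → ∀ t, 0 < t → t ≤ T →
      2 * |r j t| ≤ M / t := by
    intro j hj t ht htT
    have e1 : 2 * t ≤ Real.sinh (2 * t) := Real.self_le_sinh_iff.2 (by linarith)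
    have e2 : Real.cosh (2 * t) ≤ Real.cosh (2 * T) := by
      rw [Real.cosh_le_cosh, abs_of_pos (by linarith), abs_of_pos (by linarith)]
      linarith
    have e3 : |(l : ℝ) - j * Real.cosh (2 * t)| ≤ M := by
      refine (abs_sub _ _).trans (le_trans ?_ hj)
      rw [abs_mul, abs_of_pos (Real.cosh_pos (2 * t))]
      have := mul_le_mul_of_nonneg_left e2 (abs_nonneg (j : ℝ))
      linarith
    rw [hr]
    simp only
    rw [abs_div, abs_of_pos (hsinh t ht), le_div_iff₀ ht]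
    have e4 : |(l : ℝ) - j * Real.cosh (2 * t)| / Real.sinh (2 * t) ≤ M / (2 * t) := by
      apply div_le_div₀ (by positivity) e3 (by positivity) e1
    calc 2 * (|(l : ℝ) - j * Real.cosh (2 * t)| / Real.sinh (2 * t)) * t
        ≤ 2 * (M / (2 * t)) * t := by gcongr
      _ = M := by field_simp
  have hb1 := hrb m ((le_max_left _ _).trans hM)
  have hb2 := hrb (m + 2) ((le_max_right _ _).trans hM)
  -- monotonicity
  have hanti : AntitoneOn (fun t => u t / t ^ M) (Set.Ioc 0 T) := by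
    apply antitoneOn_of_hasDerivWithinAt_nonpos (convex_Ioc 0 T)
      (f' := fun t => ((-2 * r m t * ‖f m t‖ ^ 2 + 2 * r (m + 2) t * ‖f (m + 2) t‖ ^ 2) * t ^ M -
        u t * (M * t ^ (M - 1))) / (t ^ M) ^ 2)
    · intro t ht
      exact ((du t ht.1).continuousAt.div (continuousAt_id.pow M)
        (pow_ne_zero _ (ne_of_gt ht.1))).continuousWithinAt
    · intro t ht
      rw [interior_Ioc] at ht
      have e1 : HasDerivAt (fun t : ℝ => t ^ M) (M * t ^ (M - 1)) t := hasDerivAt_pow M t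
      exact ((du t ht.1).div e1 (pow_ne_zero _ (ne_of_gt ht.1))).hasDerivWithinAt
    · intro t ht
      rw [interior_Ioc] at ht
      apply div_nonpos_of_nonpos_of_nonneg _ (by positivity)
      have e1 := hb1 t ht.1 ht.2.le
      have e2 := hb2 t ht.1 ht.2.le
      have e3 : -2 * r m t * ‖f m t‖ ^ 2 ≤ M / t * ‖f m t‖ ^ 2 := by
        apply mul_le_mul_of_nonneg_right _ (by positivity)
        have := neg_abs_le (r m t)
        linarith
      have e4 : 2 * r (m + 2) t * ‖f (m + 2) t‖ ^ 2 ≤ M / t * ‖f (m + 2) t‖ ^ 2 := by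
        apply mul_le_mul_of_nonneg_right _ (by positivity)
        have := le_abs_self (r (m + 2) t)
        linarith
      have e5 : -2 * r m t * ‖f m t‖ ^ 2 + 2 * r (m + 2) t * ‖f (m + 2) t‖ ^ 2 ≤ M / t * u t := by
        rw [hu]
        simp only
        rw [mul_add]
        exact add_le_add e3 e4
      have htp : 0 < t ^ M := pow_pos ht.1 M
      have e6 := mul_le_mul_of_nonneg_right e5 htp.le
      have e7 : M / t * u t * t ^ M = u t * (M * t ^ (M - 1)) := by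
        rcases Nat.eq_zero_or_pos M with hM0 | hM0
        · rw [hM0]; simp
        · obtain ⟨k, hk⟩ : ∃ k, M = k + 1 := ⟨M - 1, by omega⟩
          rw [hk, Nat.add_sub_cancel, pow_succ]
          have := ht.1.ne'
          field_simp
      rw [e7] at e6
      linarith
  -- the limit at zero
  obtain ⟨C1, hC1, k1⟩ := claim1 D.a f h1 h0 T (M + 1) m
  obtain ⟨C2, hC2, k2⟩ := claim1 D.a f h1 h0 T (M + 1) (m + 2)
  have hbound : ∀ s, 0 < s → s ≤ T → s ≤ 1 → u T / T ^ M ≤ (C1 ^ 2 + C2 ^ 2) * s := by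
    intro s hs hsT hs1
    have e1 := hanti (show s ∈ Set.Ioc 0 T from ⟨hs, hsT⟩) (show T ∈ Set.Ioc 0 T from ⟨hT0, le_rfl⟩) hsT
    refine e1.trans ?_
    show u s / s ^ M ≤ _
    rw [div_le_iff₀ (pow_pos hs M)]
    have e2 : ‖f m s‖ ^ 2 ≤ (C1 * s ^ (M + 1)) ^ 2 :=
      pow_le_pow_left₀ (norm_nonneg _) (k1 s ⟨hs.le, hsT⟩) 2
    have e3 : ‖f (m + 2) s‖ ^ 2 ≤ (C2 * s ^ (M + 1)) ^ 2 :=
      pow_le_pow_left₀ (norm_nonneg _) (k2 s ⟨hs.le, hsT⟩) 2
    have e4 : (s ^ (M + 1)) ^ 2 ≤ s * s ^ M := by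
      have e5 : s ^ (M + 1) ≤ 1 := pow_le_one₀ hs.le hs1
      have e6 : 0 ≤ s ^ (M + 1) := by positivity
      calc (s ^ (M + 1)) ^ 2 = s ^ (M + 1) * s ^ (M + 1) := by ring
        _ ≤ 1 * s ^ (M + 1) := mul_le_mul_of_nonneg_right e5 e6
        _ = s * s ^ M := by ring
    rw [hu]
    simp only
    calc ‖f m s‖ ^ 2 + ‖f (m + 2) s‖ ^ 2 ≤ (C1 * s ^ (M + 1)) ^ 2 + (C2 * s ^ (M + 1)) ^ 2 :=
          add_le_add e2 e3
      _ = (C1 ^ 2 + C2 ^ 2) * (s ^ (M + 1)) ^ 2 := by ring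
      _ ≤ (C1 ^ 2 + C2 ^ 2) * (s * s ^ M) := mul_le_mul_of_nonneg_left e4 (by positivity)
      _ = _ := by ring
  have hzero : u T / T ^ M ≤ 0 := by
    apply le_of_forall_pos_le_add
    intro ε hε
    rw [zero_add]
    have hCp : 0 < C1 ^ 2 + C2 ^ 2 + 1 := by positivity
    have hs : 0 < min (min T 1) (ε / (C1 ^ 2 + C2 ^ 2 + 1)) := by positivity
    refine (hbound _ hs ((min_le_left _ _).trans (min_le_left _ _))
      ((min_le_left _ _).trans (min_le_right _ _))).trans ?_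
    have e1 : min (min T 1) (ε / (C1 ^ 2 + C2 ^ 2 + 1)) ≤ ε / (C1 ^ 2 + C2 ^ 2 + 1) :=
      min_le_right _ _
    calc (C1 ^ 2 + C2 ^ 2) * min (min T 1) (ε / (C1 ^ 2 + C2 ^ 2 + 1))
        ≤ (C1 ^ 2 + C2 ^ 2 + 1) * (ε / (C1 ^ 2 + C2 ^ 2 + 1)) := by
          apply mul_le_mul (by linarith) e1 hs.le hCp.le
      _ = ε := by field_simp
  have hTM : 0 < T ^ M := pow_pos hT0 M
  have hu2 : u T ≤ 0 := by
    by_contra h
    push Not at h
    have := div_pos h hTM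
    linarith
  rw [hu] at hu2
  simp only at hu2
  have h3 : ‖f m T‖ ^ 2 = 0 := le_antisymm (by nlinarith [sq_nonneg ‖f (m + 2) T‖]) (by positivity)
  exact norm_eq_zero.1 (pow_eq_zero_iff (two_ne_zero) |>.1 h3)

end Pool.Agent.T6.H28.SN
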