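import Pool.Agent.T6.H28.SN.Asm
import Pool.Agent.T6.H28.SN.Fin2
import Pool.Agent.T6.H28.SN.Prj
import Pool.Agent.T6.H28.SN.Uniq
import Pool.Agent.T6.H28.SN.Mco
import Pool.Agent.T6.H28.SN.Ext
import Pool.Agent.T6.H28.SN.Den
import Pool.Agent.T6.H28.SN.Cmpl
import Pool.Agent.T6.H28.SN.Sob
import Pool.Agent.T6.H28.SN.Eta0
import Pool.Agent.T6.H28.SN.Eta1
import Pool.Agent.T6.H28.SN.Eta2
import Pool.Agent.T6.H28.SN.Eta3

/-!
# Assembly of the second part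
-/

set_option autoImplicit false

namespace Pool.Agent.T6.H28.SN

namespace ModASM

theorem hEXT : StmEXT := ext' prj (mco kak uniq)
theorem hCMPL : StmCMPL := cmpl hCONT (den lip)
theorem hETA0 : StmETA0 := eta0 sob
theorem hETA2 : StmETA2 := eta2 sob hil hETA0 (eta1 sob hETA0)
theorem hETA3 : StmETA3 := eta3 kap avgl hETA0 hETA2

theorem main2 (D : Rep) (Γ : Subgroup G) (η : D.H →ₗ[ℂ] ℂ) (h : IsAutC D Γ η) :
    IsGNormV D (pAut D η) ∧ (∃ pm, IsMaxV D pm) ∧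
      ∀ pm, IsMaxV D pm → dist D (pAut D η) pm = 1 / 2 :=
  ModFIN2.fin hEXT hCMPL hETA3 main D Γ η h

end ModASM

end Pool.Agent.T6.H28.SN
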