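import Mathlib

/-!
# Norms on irreducible unitarizable Harish-Chandra modules of `SL(2, ℝ)`: definitions
-/

set_option autoImplicit false

open scoped InnerProductSpace ComplexConjugate Topology
open Filter

namespace Pool.Agent.T6.H28.SN

/-- The group `SL(2, ℝ)`. -/
abbrev G : Type := Matrix.SpecialLinearGroup (Fin 2) ℝ

/-- The rotation `(cos θ, sin θ; -sin θ, cos θ)`; these elements form `K = SO(2)`. -/
noncomputable def rot (θ : ℝ) : G :=
  ⟨!![Real.cos θ, Real.sin θ; -Real.sin θ, Real.cos θ], by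
    rw [Matrix.det_fin_two_of]; nlinarith [Real.sin_sq_add_cos_sq θ]⟩

/-- The diagonal matrix with the entries `e^t` and `e^(-t)`. -/
noncomputable def dil (t : ℝ) : G :=
  ⟨!![Real.exp t, 0; 0, Real.exp (-t)], by
    rw [Matrix.det_fin_two_of, mul_zero, sub_zero, ← Real.exp_add, add_neg_cancel, Real.exp_zero]⟩

/-- `γ` is the one-parameter subgroup `t ↦ exp(tX)`. -/
structure IsOneParam (γ : ℝ → G) (X : Matrix (Fin 2) (Fin 2) ℝ) : Prop where
  add : ∀ s t, γ (s + t) = γ s * γ t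
  deriv : ∀ i j, HasDerivAt (fun t => (γ t).1 i j) (X i j) 0

/-- The action of `X` in `𝔰𝔩(2, ℝ)` on the vector `e m` of weight `m`, where `a m` are the
coefficients of the raising operator: with `X = x H + y' Y + w W`, `H = diag(1, -1)`,
`Y = (0, 1; 1, 0)`, `W = (0, 1; -1, 0)`, and
`H e_m = a_m e_(m+2) - conj(a_(m-2)) e_(m-2)`, `Y e_m = -i (a_m e_(m+2) + conj(a_(m-2)) e_(m-2))`,
`W e_m = i m e_m`. -/
noncomputable def dAct {H : Type} [AddCommGroup H] [Module ℂ H] (a : ℤ → ℂ) (e : ℤ → H)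
    (X : Matrix (Fin 2) (Fin 2) ℝ) (m : ℤ) : H :=
  ((X 0 0 : ℝ) : ℂ) • (a m • e (m + 2) - conj (a (m - 2)) • e (m - 2)) +
    (((X 0 1 + X 1 0) / 2 : ℝ) : ℂ) • ((-Complex.I) •
      (a m • e (m + 2) + conj (a (m - 2)) • e (m - 2))) +
    (((X 0 1 - X 1 0) / 2 : ℝ) : ℂ) • ((Complex.I * m) • e m)

/-- A non-trivial irreducible unitarizable Harish-Chandra module `V` of `SL(2, ℝ)`, given together
with the unitary representation `(π, H)` of which it is the space of `K`-finite vectors. `S` is the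
set of the weights, `e m` (`m ∈ S`) a unit vector of weight `m`. -/
structure Rep where
  H : Type
  [ng : NormedAddCommGroup H]
  [ip : InnerProductSpace ℂ H]
  [cs : CompleteSpace H]
  /-- the unitary representation -/
  π : G →* (H ≃ₗᵢ[ℂ] H)
  cont : ∀ x, Continuous fun g => π g x
  /-- the weights -/
  S : Set ℤ
  e : ℤ → H
  a : ℤ → ℂ
  e_out : ∀ m, m ∉ S → e m = 0
  orth : ∀ m ∈ S, ∀ n ∈ S, ⟪e m, e n⟫_ℂ = if m = n then 1 else 0
  total : ∀ x, (∀ m, ⟪e m, x⟫_ℂ = 0) → x = 0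
  rot_e : ∀ (θ : ℝ) (m : ℤ), π (rot θ) (e m) = Complex.exp (Complex.I * (m * θ)) • e m
  /-- the Lie algebra acts through the derivative of `π` -/
  diff : ∀ (γ : ℝ → G) (X : Matrix (Fin 2) (Fin 2) ℝ), IsOneParam γ X → ∀ m : ℤ,
    HasDerivAt (fun t => π (γ t) (e m)) (dAct a e X m) 0
  /-- the commutator relation of raising and lowering operator -/
  rel : ∀ m ∈ S, ‖a m‖ ^ 2 - ‖a (m - 2)‖ ^ 2 = m
  /-- irreducibility -/
  a_ne : ∀ m, a m ≠ 0 ↔ m ∈ S ∧ m + 2 ∈ S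
  conn : ∀ m ∈ S, ∀ n ∈ S, 2 ∣ n - m ∧ ∀ l, m ≤ l → l ≤ n → 2 ∣ l - m → l ∈ S
  /-- `V` is not zero and not trivial -/
  nonempty : S.Nonempty
  nontriv : S ≠ {0}

attribute [instance] Rep.ng Rep.ip Rep.cs

/-- The smallest `G`-invariant subspace of `H` which contains `V`. -/
def Rep.E (D : Rep) : Submodule ℂ D.H :=
  Submodule.span ℂ {x | ∃ (g : G) (m : ℤ), x = D.π g (D.e m)}

/-- The vector `∑_{m ∈ A} c_m e_m`; these are the elements of `V`. -/
def Rep.vec (D : Rep) (A : Finset ℤ) (c : ℤ → ℂ) : D.H := ∑ m ∈ A, c m • D.e m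

/-- `p` is a `G`-continuous norm on `V` with bounded growth function, that is an element of
`Norm(V)`; here `p` is regarded as a norm on the `G`-invariant space `E` generated by `V`, a
dense subspace of the Banach completion `V_p`. The last two conditions say that the `K`-finite vectors
of the completion form the `(𝔤, K)`-module `V`: the derivative of the action on `V` is the one
of `V`, and the `K`-types of the elements of `E`, computed by integration over `K` in the completion,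
are the right ones. -/
structure IsGNorm (D : Rep) (p : D.H → ℝ) : Prop where
  add : ∀ x ∈ D.E, ∀ y ∈ D.E, p (x + y) ≤ p x + p y
  smul : ∀ (c : ℂ), ∀ x ∈ D.E, p (c • x) = ‖c‖ * p x
  pos : ∀ x ∈ D.E, x ≠ 0 → 0 < p x
  bdd : ∃ C : ℝ, ∀ g, ∀ x ∈ D.E, p (D.π g x) ≤ C * p x
  diff : ∀ (γ : ℝ → G) (X : Matrix (Fin 2) (Fin 2) ℝ), IsOneParam γ X → ∀ m : ℤ,
    Tendsto (fun t : ℝ => p ((t : ℂ)⁻¹ • (D.π (γ t) (D.e m) - D.e m) - dAct D.a D.e X m))
      (𝓝[≠] 0) (𝓝 0)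
  avg : ∀ x ∈ D.E, ∀ m : ℤ,
    Tendsto (fun N : ℕ => p ((N : ℂ)⁻¹ • (∑ j ∈ Finset.range N,
      Complex.exp (-(Complex.I * (m * (2 * Real.pi * j / N)))) • D.π (rot (2 * Real.pi * j / N)) x) -
        ⟪D.e m, x⟫_ℂ • D.e m)) atTop (𝓝 0)

/-- `p ≤ C q_s` on `V` for some `C`, where `q_s` is the Sobolev norm of order `s` for `q`. -/
def Dom (D : Rep) (s : ℝ) (p q : D.H → ℝ) : Prop :=
  ∃ C : ℝ, ∀ (A : Finset ℤ) (c : ℤ → ℂ),
    p (D.vec A c) ≤ C * q (D.vec A fun m => (((1 + (m : ℝ) ^ 2) ^ (s / 2) : ℝ) : ℂ) * c m)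

/-- The directed distance `inf {s ≥ 0 : p ≲ q_s}`. -/
noncomputable def ddist (D : Rep) (p q : D.H → ℝ) : ℝ := sInf {s : ℝ | 0 ≤ s ∧ Dom D s p q}

/-- The distance of the classes of `p` and `q`. -/
noncomputable def dist (D : Rep) (p q : D.H → ℝ) : ℝ := max (ddist D p q) (ddist D q p)

/-- `p` represents the maximal class. -/
def IsMax (D : Rep) (p : D.H → ℝ) : Prop := IsGNorm D p ∧ ∀ q, IsGNorm D q → Dom D 0 q p

/-- The norm `p_aut(v) = sup_g |η(g v)|`. -/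
noncomputable def pAut (D : Rep) (η : D.H →ₗ[ℂ] ℂ) (x : D.H) : ℝ := ⨆ g : G, ‖η (D.π g x)‖

/-- `η` is a non-zero `Γ`-invariant functional, `Γ` a cocompact lattice: a discrete subgroup with
`G = Γ F` for a compact `F`. The functional is continuous in the sense that `p_aut` is a norm in
`Norm(V)`. -/
structure IsAut (D : Rep) (Γ : Subgroup G) (F : Set G) (η : D.H →ₗ[ℂ] ℂ) : Prop where
  discrete : DiscreteTopology Γ
  compact : IsCompact F
  cover : ∀ g, ∃ γ ∈ Γ, ∃ f ∈ F, g = γ * f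
  inv : ∀ γ ∈ Γ, ∀ x ∈ D.E, η (D.π γ x) = η x
  bdd : ∀ x ∈ D.E, BddAbove (Set.range fun g : G => ‖η (D.π g x)‖)
  norm : IsGNorm D (pAut D η)

/-- The matrix coefficient `⟨e_m, π(a_t) e_k⟩`, `a_t = diag(e^t, e^(-t))`. -/
noncomputable def mc (D : Rep) (k m : ℤ) (t : ℝ) : ℂ := ⟪D.e m, D.π (dil t) (D.e k)⟫_ℂ

/-- the dyadic block of weights -/
noncomputable def blk (n : ℕ) : Finset ℤ := (Finset.Icc (-(2 * n : ℤ)) (2 * n)).filter fun m => (n : ℤ) ≤ |m|

/-- `p` is a seminorm on `E` with the properties of an element of `Norm(V)` except positivity;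
`C0` bounds its growth function. -/
structure IsSem (D : Rep) (C0 : ℝ) (p : D.H → ℝ) : Prop where
  nonneg : ∀ x ∈ D.E, 0 ≤ p x
  add : ∀ x ∈ D.E, ∀ y ∈ D.E, p (x + y) ≤ p x + p y
  smul : ∀ (c : ℂ), ∀ x ∈ D.E, p (c • x) = ‖c‖ * p x
  bdd : ∀ g, ∀ x ∈ D.E, p (D.π g x) ≤ C0 * p x
  diff : ∀ (γ : ℝ → G) (X : Matrix (Fin 2) (Fin 2) ℝ), IsOneParam γ X → ∀ m : ℤ,
    Tendsto (fun t : ℝ => p ((t : ℂ)⁻¹ • (D.π (γ t) (D.e m) - D.e m) - dAct D.a D.e X m))
      (𝓝[≠] 0) (𝓝 0)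
  avg : ∀ x ∈ D.E, ∀ m : ℤ,
    Tendsto (fun N : ℕ => p ((N : ℂ)⁻¹ • (∑ j ∈ Finset.range N,
      Complex.exp (-(Complex.I * (m * (2 * Real.pi * j / N)))) • D.π (rot (2 * Real.pi * j / N)) x) -
        ⟪D.e m, x⟫_ℂ • D.e m)) atTop (𝓝 0)

/-- normalised invariant seminorms -/
def Fam (D : Rep) (k : ℤ) (p : D.H → ℝ) : Prop := IsSem D 1 p ∧ p (D.e k) ≤ 1

/-- the supremum of all normalised invariant seminorms -/
noncomputable def pSup (D : Rep) (k : ℤ) (x : D.H) : ℝ := ⨆ p : {p : D.H → ℝ // Fam D k p}, p.1 x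

instance : MeasurableSpace G := borel G
instance : BorelSpace G := ⟨rfl⟩

end Pool.Agent.T6.H28.SN
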