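import Pool.Agent.T6.H28.SN.Stm

set_option autoImplicit false

open scoped InnerProductSpace ComplexConjugate Topology ENNReal
open Filter MeasureTheory

namespace Pool.Agent.T6.H28.SN

namespace ModFIN

theorem ddist_nonneg (D : Rep) (p q : D.H → ℝ) : 0 ≤ ddist D p q :=
  Real.sInf_nonneg fun _ hs => hs.1

theorem ddist_zero (D : Rep) (p q : D.H → ℝ) (h : Dom D 0 p q) : ddist D p q = 0 := by
  refine le_antisymm (csInf_le ⟨0, fun s hs => hs.1⟩ ⟨le_rfl, h⟩) (ddist_nonneg D p q)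

theorem ddist_half (D : Rep) (p q : D.H → ℝ) (h : ∀ s : ℝ, 1 / 2 < s → Dom D s p q)
    (h' : ∀ s : ℝ, 0 ≤ s → s < 1 / 2 → ¬ Dom D s p q) : ddist D p q = 1 / 2 := by
  have hne : {s : ℝ | 0 ≤ s ∧ Dom D s p q}.Nonempty := ⟨1, zero_le_one, h 1 (by norm_num)⟩
  refine le_antisymm ?_ ?_
  · refine le_of_forall_pos_le_add fun ε hε => ?_
    exact csInf_le ⟨0, fun s hs => hs.1⟩ ⟨by positivity, h _ (by linarith)⟩
  · refine le_csInf hne fun s hs => ?_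
    by_contra hlt
    exact h' s hs.1 (not_le.mp hlt) hs.2

theorem fin (hMAX : StmMAX) (hUB : StmFINUB) (hLB : StmFINLB) (D : Rep) (Γ : Subgroup G)
    (F : Set G) (η : D.H →ₗ[ℂ] ℂ) (h : IsAut D Γ F η) :
    (∃ pm, IsMax D pm) ∧ ∀ pm, IsMax D pm →
      dist D (pAut D η) pm = 1 / 2 := by
  obtain ⟨k, hk⟩ := D.nonempty
  refine ⟨⟨_, (hMAX D k hk).1⟩, fun pm hpm => ?_⟩
  have h1 : ddist D (pAut D η) pm = 0 := ddist_zero D _ _ (hUB D Γ F η h pm hpm).1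
  have h2 : ddist D pm (pAut D η) = 1 / 2 :=
    ddist_half D _ _ (hUB D Γ F η h pm hpm).2 (hLB D Γ F η h pm hpm)
  rw [dist, h1, h2]
  norm_num

end ModFIN

end Pool.Agent.T6.H28.SN
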