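import Pool.Agent.T6.H28.SN.Stm

set_option autoImplicit false

open scoped InnerProductSpace ComplexConjugate Topology ENNReal
open Filter MeasureTheory

namespace Pool.Agent.T6.H28.SN

namespace ModFINUB

theorem pAut_nonneg (D : Rep) (η : D.H →ₗ[ℂ] ℂ) (x : D.H) : 0 ≤ pAut D η x :=
  Real.iSup_nonneg fun _ => norm_nonneg _

theorem vec_mem (D : Rep) (A : Finset ℤ) (c : ℤ → ℂ) : D.vec A c ∈ D.E := by
  unfold Rep.vec
  refine Submodule.sum_mem _ fun m _ => Submodule.smul_mem _ _ ?_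
  refine Submodule.subset_span ⟨1, m, ?_⟩
  simp

end ModFINUB

open ModFINUB in
theorem finub (hUPP : StmUPP) (hDYAD : StmDYAD) (hHAAR : StmHAAR) (hSCHUR : StmSCHUR) :
    StmFINUB := by
  intro D Γ F η hη pm hpm
  refine ⟨hpm.2 _ hη.norm, fun s hs => ?_⟩
  obtain ⟨C, hC⟩ := hDYAD D pm hpm.1 (hUPP D pm hpm.1) s hs
  obtain ⟨μ, hfin, hμ, hinv⟩ := hHAAR Γ F hη.discrete hη.compact hη.cover
  obtain ⟨β, hβ, hsch⟩ := hSCHUR D Γ F η hη μ hfin hμ hinv
  have key : ∀ (A : Finset ℤ) (c : ℤ → ℂ), ‖D.vec A c‖ ≤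
      Real.sqrt ((μ Set.univ).toReal / β) * pAut D η (D.vec A c) := by
    intro A c
    have hp := pAut_nonneg D η (D.vec A c)
    have h1 : ENNReal.ofReal (β * ‖D.vec A c‖ ^ 2) ≤
        ENNReal.ofReal (pAut D η (D.vec A c) ^ 2) * μ Set.univ := by
      rw [← hsch A c, ← lintegral_const]
      refine lintegral_mono fun g => ENNReal.ofReal_le_ofReal ?_
      exact pow_le_pow_left₀ (norm_nonneg _) (le_ciSup (hη.bdd _ (vec_mem D A c)) g) 2
    have h2 : β * ‖D.vec A c‖ ^ 2 ≤ pAut D η (D.vec A c) ^ 2 * (μ Set.univ).toReal := by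
      have h3 : ENNReal.ofReal (pAut D η (D.vec A c) ^ 2) * μ Set.univ =
          ENNReal.ofReal (pAut D η (D.vec A c) ^ 2 * (μ Set.univ).toReal) := by
        rw [ENNReal.ofReal_mul (by positivity), ENNReal.ofReal_toReal (measure_ne_top μ _)]
      rw [h3] at h1
      exact (ENNReal.ofReal_le_ofReal_iff (by positivity)).1 h1
    have h4 : ‖D.vec A c‖ ^ 2 ≤ (Real.sqrt ((μ Set.univ).toReal / β) * pAut D η (D.vec A c)) ^ 2 := by
      rw [mul_pow, Real.sq_sqrt (by positivity), div_mul_eq_mul_div, le_div_iff₀ hβ]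
      linarith
    exact abs_le_of_sq_le_sq' h4 (by positivity) |>.2
  refine ⟨|C| * Real.sqrt ((μ Set.univ).toReal / β), fun A c => ?_⟩
  refine (hC A c).trans ?_
  refine (mul_le_mul_of_nonneg_right (le_abs_self C) (norm_nonneg _)).trans ?_
  rw [mul_assoc]
  exact mul_le_mul_of_nonneg_left (key _ _) (abs_nonneg _)

end Pool.Agent.T6.H28.SN
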